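import Pool.Agent.H578R2.RG_ERG

set_option autoImplicit false

/-! N782 (helper782): the non-squares by Mellin inversion, uniform in the dual parameter and in
the modulus (adapted from `H578R2.RG_ERG`). -/

namespace Pool.Agent.N782.ERGu

open Finset Filter Topology MeasureTheory Pool.Agent.H306R2.RZ Pool.Agent.H306R2.RG
open Pool.Agent.H578R2.RZ5ER1 (bx card_bx one_le_prod mem_bx prod_le bd_nonneg w4_abs t4c_abs
  t4c_ne near1 dec_neg Gk_abs)
open Pool.Agent.H578R2.RGERG (gs)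

noncomputable section

lemma tailu (F : ℝ → ℝ) (hF : TF F)
    (m : ℕ) : ∃ C : ℝ, 0 ≤ C ∧ ∀ (b : ℤ → ℝ), (∀ k, |b k| ≤ 1) → ∀ (c0 : ℝ), c0 ≠ 0 →
      ∀ (X : ℝ) (n K0 : ℕ) (V : ℝ),
    0 < X → 1 ≤ n → 0 < V → V ≤ K0 * (|c0| * X / n) →
    |∑' k, gs F b c0 X n k - ∑ k ∈ Icc (-(K0 : ℤ)) K0, gs F b c0 X n k| ≤
      C * n * (n / (|c0| * X)) ^ 2 * (V ^ m)⁻¹ := by
  obtain ⟨C1, hC1⟩ := (Pool.Agent.H881R2.RZ.F1 F hF).2 0 (m + 2)
  have hC1' : ∀ ξ : ℝ, |Ft F ξ| ≤ |C1| / (1 + |ξ|) ^ (m + 2) := by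
    intro ξ
    have := hC1 ξ
    rw [iteratedDeriv_zero] at this
    exact this.trans (div_le_div_of_nonneg_right (le_abs_self _) (by positivity))
  have hz : Summable (fun k : ℤ => 1 / (k : ℝ) ^ 2) := Real.summable_one_div_int_pow.2 (by norm_num)
  set Z : ℝ := ∑' k : ℤ, 1 / (k : ℝ) ^ 2 with hZ
  have hZ0 : 0 ≤ Z := tsum_nonneg (fun k => by positivity)
  refine ⟨2 * |C1| * Z, by positivity, ?_⟩
  intro b hb1 c0 hc0 X n K0 V hX hn hV hVK
  have hn' : (0 : ℝ) < n := by exact_mod_cast hn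
  have hc0' : 0 < |c0| := abs_pos.2 hc0
  set u : ℝ := |c0| * X / n with hu
  have hu0 : 0 < u := by positivity
  -- bounds
  have hb : ∀ (k : ℤ) (W : ℝ), k ≠ 0 → 0 < W → W ^ m ≤ (1 + |(k : ℝ)| * u) ^ m →
      |gs F b c0 X n k| ≤ 2 * n * |C1| * (u ^ 2)⁻¹ * (W ^ m)⁻¹ * (1 / (k : ℝ) ^ 2) := by
    intro k W hk hW hWk
    unfold gs
    split_ifs with hsq
    · rw [abs_zero]; positivity
    · have hk' : (0 : ℝ) < |(k : ℝ)| := abs_pos.2 (by exact_mod_cast hk)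
      have harg : |c0 * (k : ℝ) * X / n| = |(k : ℝ)| * u := by
        rw [hu, abs_div, abs_mul, abs_mul, abs_of_pos hX, abs_of_pos hn']
        ring
      have h1 := hC1' (c0 * (k : ℝ) * X / n)
      rw [harg] at h1
      have h2 : (W ^ m) * (|(k : ℝ)| * u) ^ 2 ≤ (1 + |(k : ℝ)| * u) ^ (m + 2) := by
        rw [pow_add]
        apply mul_le_mul hWk _ (by positivity) (by positivity)
        apply pow_le_pow_left₀ (by positivity)
        linarith
      rw [abs_mul, abs_mul]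
      calc |b k| * |Gk k n| * |Ft F (c0 * (k : ℝ) * X / n)| ≤
          (1 * (2 * n)) * (|C1| / ((W ^ m) * (|(k : ℝ)| * u) ^ 2)) := by
            apply mul_le_mul _ _ (abs_nonneg _) (by positivity)
            · exact mul_le_mul (hb1 k) (Gk_abs k n) (abs_nonneg _) (by norm_num)
            · exact h1.trans (div_le_div_of_nonneg_left (abs_nonneg _) (by positivity) h2)
        _ = 2 * n * |C1| * (u ^ 2)⁻¹ * (W ^ m)⁻¹ * (1 / (k : ℝ) ^ 2) := by
            rw [mul_pow, sq_abs]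
            have : (k : ℝ) ≠ 0 := by exact_mod_cast hk
            field_simp
  have h0 : gs F b c0 X n 0 = 0 := by unfold gs; rw [if_pos ⟨0, by simp⟩]
  have hsum : Summable (gs F b c0 X n) := by
    refine Summable.of_norm_bounded (g := fun k : ℤ => 2 * n * |C1| * (u ^ 2)⁻¹ * ((1 : ℝ) ^ m)⁻¹ * (1 / (k : ℝ) ^ 2))
      (hz.mul_left _) ?_
    intro k
    rw [Real.norm_eq_abs]
    by_cases hk : k = 0
    · subst hk
      rw [h0, abs_zero]; positivity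
    · exact hb k 1 hk one_pos (pow_le_pow_left₀ (by norm_num) (by
        have : 0 ≤ |(k : ℝ)| * u := by positivity
        linarith) m)
  have hsplit : ∑' k, gs F b c0 X n k - ∑ k ∈ Icc (-(K0 : ℤ)) K0, gs F b c0 X n k =
      ∑' k, (if k ∈ Icc (-(K0 : ℤ)) K0 then 0 else gs F b c0 X n k) := by
    have h1 : ∑ k ∈ Icc (-(K0 : ℤ)) K0, gs F b c0 X n k =
        ∑' k, (if k ∈ Icc (-(K0 : ℤ)) K0 then gs F b c0 X n k else 0) := by
      rw [tsum_eq_sum (s := Icc (-(K0 : ℤ)) K0) (fun k hk => if_neg hk)]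
      exact sum_congr rfl (fun k hk => (if_pos hk).symm)
    have hs1 : Summable (fun k => (if k ∈ Icc (-(K0 : ℤ)) K0 then gs F b c0 X n k else 0)) :=
      summable_of_ne_finset_zero (s := Icc (-(K0 : ℤ)) K0) (fun k hk => if_neg hk)
    rw [h1, ← hsum.tsum_sub hs1]
    refine tsum_congr (fun k => ?_)
    split_ifs <;> simp
  rw [hsplit]
  have hfin : ∀ k, ‖(if k ∈ Icc (-(K0 : ℤ)) K0 then 0 else gs F b c0 X n k)‖ ≤
      2 * n * |C1| * (u ^ 2)⁻¹ * (V ^ m)⁻¹ * (1 / (k : ℝ) ^ 2) := by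
    intro k
    split_ifs with hk
    · rw [norm_zero]; positivity
    · rw [Real.norm_eq_abs]
      have hk0 : k ≠ 0 := by
        rintro rfl
        apply hk
        rw [mem_Icc]
        constructor <;> simp
      apply hb k V hk0 hV
      apply pow_le_pow_left₀ hV.le
      have hK : (K0 : ℝ) ≤ |(k : ℝ)| := by
        by_contra hcon
        rw [not_le, abs_lt] at hcon
        apply hk
        rw [mem_Icc]
        constructor
        · have := hcon.1.le; exact_mod_cast this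
        · have := hcon.2.le; exact_mod_cast this
      have : (K0 : ℝ) * u ≤ |(k : ℝ)| * u := mul_le_mul_of_nonneg_right hK hu0.le
      linarith
  have := tsum_of_norm_bounded ((hz.mul_left (2 * n * |C1| * (u ^ 2)⁻¹ * (V ^ m)⁻¹)).hasSum) hfin
  rw [Real.norm_eq_abs] at this
  refine this.trans (le_of_eq ?_)
  rw [tsum_mul_left, ← hZ, hu]
  field_simp

lemma nearu (F : ℝ → ℝ) (hF : TF F)
    (c : ℝ) (hc : 0 < c) (A : ℕ) (hA : 2 ≤ A) :
    ∃ C : ℝ, 0 ≤ C ∧ ∀ (b : ℤ → ℝ), (∀ k, |b k| ≤ 1) → ∀ (c0 : ℝ), c0 ≠ 0 →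
      ∀ (s θ L : ℝ), 1 ≤ L → s < 1 → θ < 1 →
      ∀ (w1 w2 Q1 Q2 : ℝ → ℝ), Wt s w1 → Wt s w2 → Wt θ Q1 → Wt θ Q2 →
      ∀ (q : ℕ) (k : ℤ), ¬ IsSquare k →
      |∑ a ∈ bx L, t4c q a * w4 L w1 w2 Q1 Q2 a * (gs F b c0 (c * Real.exp L) (∏ i, a i) k /
        ((∏ i, a i : ℕ) : ℝ))| ≤
      C * |c0| ^ (-(1 / 2) : ℝ) * Real.exp (-(L / 2)) * ((k.natAbs : ℝ) ^ (-(1 / 2) : ℝ) *
        ∫ t : ℝ, ((1 + |t|) ^ A)⁻¹ * ‖RR q L w1 w2 Q1 Q2 k t‖) := by
  obtain ⟨hsm, hdec⟩ := Pool.Agent.H881R2.RZ.F1 F hF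
  obtain ⟨hsm', hdec'⟩ := dec_neg (Ft F) hsm hdec
  obtain ⟨Cp, hCp0, hCp⟩ := near1 (Ft F) hsm hdec A hA
  obtain ⟨Cn, hCn0, hCn⟩ := near1 (fun x => Ft F (-x)) hsm' hdec' A hA
  refine ⟨2 * (Cp + Cn) * c ^ (-(1 / 2) : ℝ), by positivity, ?_⟩
  intro b hb1 c0 hc0 s θ L hL hs1 hθ1 w1 w2 Q1 Q2 h1 h2 h3 h4 q k hk
  have hc0' : 0 < |c0| := abs_pos.2 hc0
  have hcc : (|c0| * c) ^ (-(1 / 2) : ℝ) = |c0| ^ (-(1 / 2) : ℝ) * c ^ (-(1 / 2) : ℝ) :=
    Real.mul_rpow hc0'.le hc.le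
  have hk0 : k ≠ 0 := by
    rintro rfl
    exact hk ⟨0, by simp⟩
  have hkabs : (0 : ℝ) < (k.natAbs : ℝ) := by
    exact_mod_cast Int.natAbs_pos.2 hk0
  set I : ℝ := ∫ t : ℝ, ((1 + |t|) ^ A)⁻¹ * ‖RR q L w1 w2 Q1 Q2 k t‖ with hI
  have hI0 : 0 ≤ I := integral_nonneg (fun t => by positivity)
  have hX : 0 < c * Real.exp L := by positivity
  have hkcast : (k.natAbs : ℝ) = |(k : ℝ)| := by
    rw [Nat.cast_natAbs]
    push_cast
    rfl
  set y : ℝ := (k.natAbs : ℝ) * (|c0| * (c * Real.exp L)) with hy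
  have hy0 : 0 < y := by positivity
  have hyp : y ^ (-(1 / 2) : ℝ) = (k.natAbs : ℝ) ^ (-(1 / 2) : ℝ) * ((|c0| * c) ^ (-(1 / 2) : ℝ) *
      Real.exp (-(L / 2))) := by
    have e1 : y = (k.natAbs : ℝ) * ((|c0| * c) * Real.exp L) := by rw [hy]; ring
    rw [e1, Real.mul_rpow hkabs.le (by positivity), Real.mul_rpow (by positivity) (by positivity),
      ← Real.exp_mul]
    congr 3
    ring
  have hkey : ∀ (f : ℝ → ℝ), (∀ n : ℕ, Ft F (c0 * (k : ℝ) * (c * Real.exp L) / n) = f (y / n)) →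
      |∑ a ∈ bx L, t4c q a * w4 L w1 w2 Q1 Q2 a * (gs F b c0 (c * Real.exp L) (∏ i, a i) k /
        ((∏ i, a i : ℕ) : ℝ))| ≤
      2 * |∑ a ∈ bx L, t4c q a * w4 L w1 w2 Q1 Q2 a * (Gk k (∏ i, a i) *
        f (y / ((∏ i, a i : ℕ) : ℝ)) / (2 * ((∏ i, a i : ℕ) : ℝ)))| := by
    intro f hf
    have : ∑ a ∈ bx L, t4c q a * w4 L w1 w2 Q1 Q2 a * (gs F b c0 (c * Real.exp L) (∏ i, a i) k /
        ((∏ i, a i : ℕ) : ℝ)) = (2 * b k) *
        ∑ a ∈ bx L, t4c q a * w4 L w1 w2 Q1 Q2 a * (Gk k (∏ i, a i) *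
        f (y / ((∏ i, a i : ℕ) : ℝ)) / (2 * ((∏ i, a i : ℕ) : ℝ))) := by
      rw [mul_sum]
      apply sum_congr rfl
      intro a _
      unfold gs
      rw [if_neg hk, hf]
      by_cases hn : ((∏ i, a i : ℕ) : ℝ) = 0
      · rw [hn]; simp
      · field_simp
    rw [this, abs_mul, abs_mul, abs_of_pos (by norm_num : (0 : ℝ) < 2)]
    have h2b : 2 * |b k| ≤ 2 := by have := hb1 k; linarith
    exact mul_le_mul_of_nonneg_right h2b (abs_nonneg _)
  have hr : 0 ≤ (k.natAbs : ℝ) ^ (-(1 / 2) : ℝ) * ((|c0| * c) ^ (-(1 / 2) : ℝ) *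
      Real.exp (-(L / 2))) * I := by positivity
  have hck : c0 * (k : ℝ) ≠ 0 := mul_ne_zero hc0 (by exact_mod_cast hk0)
  rcases lt_or_gt_of_ne hck with hneg | hpos
  · have hf : ∀ n : ℕ, Ft F (c0 * (k : ℝ) * (c * Real.exp L) / n) =
        (fun x => Ft F (-x)) (y / n) := by
      intro n
      show Ft F _ = Ft F (-(y / n))
      congr 1
      have e : |(k : ℝ)| * |c0| = -(c0 * (k : ℝ)) := by
        rw [mul_comm, ← abs_mul, abs_of_neg hneg]
      rw [hy, hkcast]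
      have e2 : |(k : ℝ)| * (|c0| * (c * Real.exp L)) = (|(k : ℝ)| * |c0|) * (c * Real.exp L) := by
        ring
      rw [e2, e]
      ring
    refine (hkey (fun x => Ft F (-x)) hf).trans ?_
    have h5 := hCn s θ L hL hs1 hθ1 w1 w2 Q1 Q2 h1 h2 h3 h4 q k y hy0
    rw [← hI, hyp] at h5
    rw [hcc] at h5 hr
    nlinarith [mul_nonneg hCp0 hr]
  · have hf : ∀ n : ℕ, Ft F (c0 * (k : ℝ) * (c * Real.exp L) / n) = Ft F (y / n) := by
      intro n
      congr 1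
      have e : |(k : ℝ)| * |c0| = c0 * (k : ℝ) := by
        rw [mul_comm, ← abs_mul, abs_of_pos hpos]
      rw [hy, hkcast]
      have e2 : |(k : ℝ)| * (|c0| * (c * Real.exp L)) = (|(k : ℝ)| * |c0|) * (c * Real.exp L) := by
        ring
      rw [e2, e]
    refine (hkey (Ft F) hf).trans ?_
    have h5 := hCp s θ L hL hs1 hθ1 w1 w2 Q1 Q2 h1 h2 h3 h4 q k y hy0
    rw [← hI, hyp] at h5
    rw [hcc] at h5 hr
    nlinarith [mul_nonneg hCn0 hr]

/-- Mellin transform in `t`, truncation in `k` (adapt `ER1`) -/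
theorem ERGu (F : ℝ → ℝ) (hF : TF F) (c : ℝ) (hc : 0 < c)
    (s θ η D : ℝ) (hs : 1 / 2 ≤ s) (hs1 : s < 1) (hθ : 0 < θ) (hθ1 : θ < 1) (hη : 0 < η) (A : ℕ)
    (hA : 2 ≤ A) :
    ∃ C : ℝ, 0 < C ∧ ∀ (b : ℤ → ℝ), (∀ k, |b k| ≤ 1) → ∀ (c0 : ℝ), c0 ≠ 0 → ∀ (q : ℕ),
      ∀ L : ℝ, 1 ≤ L → ∀ (w1 w2 Q1 Q2 : ℝ → ℝ) (B1 B2 B3 B4 : ℝ) (K0 : ℕ),
      Wt s w1 → Wt s w2 → Wt θ Q1 → Wt θ Q2 → Bd 1 w1 B1 → Bd 1 w2 B2 → Bd 1 Q1 B3 → Bd 1 Q2 B4 →
      Real.exp ((2 * s + 2 * θ - 1 + η) * L) / |c0| ≤ K0 →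
      |∑' a : Fin 4 → ℕ, t4c q a * w4 L w1 w2 Q1 Q2 a * Dng F b c0 (c * Real.exp L) (∏ i, a i)| ≤
        C * (|c0| ^ 2)⁻¹ * B1 * B2 * B3 * B4 * Real.exp (-(D * L)) +
        C * |c0| ^ (-(1 / 2) : ℝ) * Real.exp (-(L / 2)) * ∑ k ∈ (Icc (-(K0 : ℤ)) K0).filter (fun k => ¬ IsSquare k),
          (k.natAbs : ℝ) ^ (-(1 / 2) : ℝ) *
            ∫ t : ℝ, ((1 + |t|) ^ A)⁻¹ * ‖RR q L w1 w2 Q1 Q2 k t‖ := by
  obtain ⟨m, hm⟩ := exists_nat_ge ((D + 10) / η)
  have hm' : D + 10 ≤ m * η := by rwa [div_le_iff₀ hη] at hm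
  obtain ⟨C1, hC10, hC1⟩ := tailu F hF m
  obtain ⟨C2, hC20, hC2⟩ := nearu F hF c hc A hA
  set C3 : ℝ := C1 * (1 / c) ^ 2 * (c ^ m)⁻¹ with hC3
  have hC30 : 0 ≤ C3 := by positivity
  refine ⟨C3 + C2 + 1, by positivity, ?_⟩
  intro b hb c0 hc0 q L hL w1 w2 Q1 Q2 B1 B2 B3 B4 K0 h1 h2 h3 h4 b1 b2 b3 b4 hK
  have hc0' : 0 < |c0| := abs_pos.2 hc0
  have n1 := bd_nonneg b1
  have n2 := bd_nonneg b2
  have n3 := bd_nonneg b3
  have n4 := bd_nonneg b4
  set X : ℝ := c * Real.exp L with hX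
  have hX0 : 0 < X := by positivity
  set T : (Fin 4 → ℕ) → ℝ := fun a => t4c q a * w4 L w1 w2 Q1 Q2 a with hT
  have hTabs : ∀ a, |T a| ≤ B1 * B2 * B3 * B4 := by
    intro a
    simp only [hT]
    rw [abs_mul]
    calc |t4c q a| * |w4 L w1 w2 Q1 Q2 a| ≤ 1 * (B1 * B2 * B3 * B4) :=
          mul_le_mul (t4c_abs q a) (w4_abs b1 b2 b3 b4 L a) (abs_nonneg _) (by norm_num)
      _ = _ := one_mul _
  have hTne : ∀ a, T a ≠ 0 → (∀ i, a i ≠ 0) ∧ w4 L w1 w2 Q1 Q2 a ≠ 0 := by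
    intro a ha
    simp only [hT] at ha
    exact ⟨t4c_ne (left_ne_zero_of_mul ha), right_ne_zero_of_mul ha⟩
  have hstep1 : ∑' a : Fin 4 → ℕ, t4c q a * w4 L w1 w2 Q1 Q2 a * Dng F b c0 X (∏ i, a i) =
      ∑ a ∈ bx L, T a * Dng F b c0 X (∏ i, a i) := by
    apply tsum_eq_sum
    intro a ha
    by_contra hne
    apply ha
    have hTa : T a ≠ 0 := left_ne_zero_of_mul hne
    obtain ⟨e1, e2⟩ := hTne a hTa
    exact mem_bx hL hs1 hθ1 h1 h2 h3 h4 e1 e2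
  have hstep2 : ∀ a ∈ bx L, T a * Dng F b c0 X (∏ i, a i) =
      T a * ((∑' k, gs F b c0 X (∏ i, a i) k - ∑ k ∈ Icc (-(K0 : ℤ)) K0, gs F b c0 X (∏ i, a i) k) /
        ((∏ i, a i : ℕ) : ℝ)) +
      ∑ k ∈ Icc (-(K0 : ℤ)) K0, T a * (gs F b c0 X (∏ i, a i) k / ((∏ i, a i : ℕ) : ℝ)) := by
    intro a _
    have hD : Dng F b c0 X (∏ i, a i) = (∑' k, gs F b c0 X (∏ i, a i) k) /
        ((∏ i, a i : ℕ) : ℝ) := rfl
    rw [hD, ← mul_sum, ← sum_div]
    ring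
  rw [hstep1, sum_congr rfl hstep2, sum_add_distrib, sum_comm (s := bx L)]
  refine (abs_add_le _ _).trans (add_le_add ?_ ?_)
  · -- far part
    have hfar : ∀ a ∈ bx L, |T a * ((∑' k, gs F b c0 X (∏ i, a i) k -
        ∑ k ∈ Icc (-(K0 : ℤ)) K0, gs F b c0 X (∏ i, a i) k) / ((∏ i, a i : ℕ) : ℝ))| ≤
        (B1 * B2 * B3 * B4) * ((|c0| ^ 2)⁻¹ * C3 * Real.exp ((6 - m * η) * L)) := by
      intro a _
      by_cases hTa : T a = 0
      · rw [hTa, zero_mul, abs_zero]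
        positivity
      obtain ⟨e1, e2⟩ := hTne a hTa
      have hn1 : 1 ≤ ∏ i, a i := one_le_prod e1
      have hnle := prod_le hL h1 h2 h3 h4 e1 e2
      set n : ℕ := ∏ i, a i with hn
      have hn0 : (0 : ℝ) < n := by exact_mod_cast hn1
      have hV0 : 0 < c * Real.exp (η * L) := by positivity
      have hVK : c * Real.exp (η * L) ≤ K0 * (|c0| * X / n) := by
        have e3 : Real.exp ((2 * s + 2 * θ - 1 + η) * L) / |c0| * (|c0| * X / n) ≤
            K0 * (|c0| * X / n) :=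
          mul_le_mul_of_nonneg_right hK (by positivity)
        refine le_trans ?_ e3
        have e4 : |c0| * X / Real.exp ((2 * s + 2 * θ) * L) ≤ |c0| * X / n :=
          div_le_div_of_nonneg_left (by positivity) (by positivity) hnle
        refine le_trans (le_of_eq ?_) (mul_le_mul_of_nonneg_left e4
          (div_nonneg (Real.exp_pos _).le hc0'.le))
        rw [hX, mul_div_assoc', eq_div_iff (by positivity)]
        have e5 : Real.exp ((2 * s + 2 * θ - 1 + η) * L) * Real.exp L =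
            Real.exp (η * L) * Real.exp ((2 * s + 2 * θ) * L) := by
          rw [← Real.exp_add, ← Real.exp_add]; congr 1; ring
        have e9 : Real.exp ((2 * s + 2 * θ - 1 + η) * L) / |c0| * (|c0| * (c * Real.exp L)) =
            c * (Real.exp ((2 * s + 2 * θ - 1 + η) * L) * Real.exp L) := by
          rw [div_mul_eq_mul_div, div_eq_iff hc0'.ne']
          ring
        rw [e9, e5]
        ring
      have hb' := hC1 b hb c0 hc0 X n K0 (c * Real.exp (η * L)) hX0 hn1 hV0 hVK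
      have hratio : (n : ℝ) / (|c0| * X) ≤ (1 / (|c0| * c)) * Real.exp (3 * L) := by
        rw [div_le_iff₀ (by positivity), hX]
        have e6 : (n : ℝ) ≤ Real.exp (4 * L) := by
          refine hnle.trans (Real.exp_le_exp.2 ?_)
          nlinarith
        have e7 : (1 / (|c0| * c)) * Real.exp (3 * L) * (|c0| * (c * Real.exp L)) =
            Real.exp (4 * L) := by
          have : Real.exp (4 * L) = Real.exp (3 * L) * Real.exp L := by
            rw [← Real.exp_add]; congr 1; ring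
          rw [this]
          field_simp
        rw [e7]
        exact e6
      rw [abs_mul, abs_div, abs_of_pos (a := (n : ℝ)) (by positivity)]
      apply mul_le_mul (hTabs a) _ (by positivity) (by positivity)
      rw [div_le_iff₀ (by positivity)]
      refine hb'.trans ?_
      calc C1 * n * (n / (|c0| * X)) ^ 2 * ((c * Real.exp (η * L)) ^ m)⁻¹ ≤
          C1 * n * ((1 / (|c0| * c)) * Real.exp (3 * L)) ^ 2 * ((c * Real.exp (η * L)) ^ m)⁻¹ := by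
            gcongr
        _ = (|c0| ^ 2)⁻¹ * C3 * Real.exp ((6 - m * η) * L) * n := by
            have e8 : Real.exp ((6 - m * η) * L) = Real.exp (3 * L) ^ 2 * (Real.exp (η * L) ^ m)⁻¹ := by
              rw [← Real.exp_nat_mul, ← Real.exp_nat_mul, ← Real.exp_neg, ← Real.exp_add]
              congr 1
              push_cast
              ring
            rw [hC3, e8, mul_pow, mul_pow, mul_inv, one_div, one_div, mul_inv, mul_pow, inv_pow,
              inv_pow]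
            ring
    calc |∑ a ∈ bx L, T a * ((∑' k, gs F b c0 X (∏ i, a i) k -
        ∑ k ∈ Icc (-(K0 : ℤ)) K0, gs F b c0 X (∏ i, a i) k) / ((∏ i, a i : ℕ) : ℝ))| ≤
        ∑ a ∈ bx L, (B1 * B2 * B3 * B4) * ((|c0| ^ 2)⁻¹ * C3 * Real.exp ((6 - m * η) * L)) :=
          (abs_sum_le_sum_abs _ _).trans (sum_le_sum hfar)
      _ = (bx L).card * ((B1 * B2 * B3 * B4) * ((|c0| ^ 2)⁻¹ * C3 * Real.exp ((6 - m * η) * L))) := by
          rw [sum_const, nsmul_eq_mul]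
      _ ≤ Real.exp (4 * L) * ((B1 * B2 * B3 * B4) * ((|c0| ^ 2)⁻¹ * C3 *
            Real.exp ((6 - m * η) * L))) :=
          mul_le_mul_of_nonneg_right (card_bx L) (by positivity)
      _ = C3 * ((|c0| ^ 2)⁻¹ * (B1 * B2 * B3 * B4)) * Real.exp ((10 - m * η) * L) := by
          have : Real.exp ((10 - m * η) * L) = Real.exp (4 * L) * Real.exp ((6 - m * η) * L) := by
            rw [← Real.exp_add]; congr 1; ring
          rw [this]; ring
      _ ≤ C3 * ((|c0| ^ 2)⁻¹ * (B1 * B2 * B3 * B4)) * Real.exp (-(D * L)) := by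
          apply mul_le_mul_of_nonneg_left _ (by positivity)
          apply Real.exp_le_exp.2
          nlinarith
      _ ≤ (C3 + C2 + 1) * ((|c0| ^ 2)⁻¹ * (B1 * B2 * B3 * B4)) * Real.exp (-(D * L)) := by
          apply mul_le_mul_of_nonneg_right _ (by positivity)
          apply mul_le_mul_of_nonneg_right _ (by positivity)
          linarith
      _ = (C3 + C2 + 1) * (|c0| ^ 2)⁻¹ * B1 * B2 * B3 * B4 * Real.exp (-(D * L)) := by ring
  · -- near part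
    have hfil : ∑ k ∈ Icc (-(K0 : ℤ)) K0, ∑ a ∈ bx L, T a * (gs F b c0 X (∏ i, a i) k /
        ((∏ i, a i : ℕ) : ℝ)) =
        ∑ k ∈ (Icc (-(K0 : ℤ)) K0).filter (fun k => ¬ IsSquare k), ∑ a ∈ bx L, T a *
        (gs F b c0 X (∏ i, a i) k / ((∏ i, a i : ℕ) : ℝ)) := by
      rw [sum_filter]
      apply sum_congr rfl
      intro k _
      by_cases hk : IsSquare k
      · rw [if_neg (not_not.2 hk)]
        apply sum_eq_zero
        intro a _
        unfold gs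
        rw [if_pos hk]
        simp
      · rw [if_pos hk]
    rw [hfil, mul_sum]
    refine (abs_sum_le_sum_abs _ _).trans (sum_le_sum fun k hk => ?_)
    have hk' := (mem_filter.1 hk).2
    refine (hC2 b hb c0 hc0 s θ L hL hs1 hθ1 w1 w2 Q1 Q2 h1 h2 h3 h4 q k hk').trans ?_
    apply mul_le_mul_of_nonneg_right
    · apply mul_le_mul_of_nonneg_right _ (Real.exp_pos _).le
      apply mul_le_mul_of_nonneg_right _ (by positivity)
      linarith
    · have : 0 ≤ ∫ t : ℝ, ((1 + |t|) ^ A)⁻¹ * ‖RR q L w1 w2 Q1 Q2 k t‖ :=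
        integral_nonneg (fun t => by positivity)
      positivity

end

end Pool.Agent.N782.ERGu
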