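import Pool.Agent.N782.LX

set_option autoImplicit false

/-! Sums over pairs of odd squarefree numbers as Euler products (helper782). -/

namespace Pool.Agent.N782.EW

open Finset Filter Topology Pool.Agent.N782.LX

noncomputable section

/-- the product of a finite set of primes -/
def nn (S : Finset Nat.Primes) : ℕ := ∏ p ∈ S, (p : ℕ)

theorem nn_ne (S : Finset Nat.Primes) : nn S ≠ 0 :=
  Finset.prod_ne_zero_iff.2 fun p _ => p.2.ne_zero

theorem dvd_nn (S : Finset Nat.Primes) (p : Nat.Primes) : (p : ℕ) ∣ nn S ↔ p ∈ S := by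
  unfold nn
  rw [Prime.dvd_finsetProd_iff p.2.prime]
  constructor
  · rintro ⟨r, hr, h⟩
    have h1 := (Nat.prime_dvd_prime_iff_eq p.2 r.2).1 h
    have h2 : p = r := Subtype.ext h1
    rw [h2]; exact hr
  · intro h
    exact ⟨p, h, dvd_rfl⟩

theorem nn_inj : Function.Injective nn := by
  intro S T h
  ext p
  rw [← dvd_nn, ← dvd_nn, h]

theorem nn_coprime {S : Finset Nat.Primes} {p : Nat.Primes} (h : p ∉ S) :
    Nat.Coprime (p : ℕ) (nn S) := by
  rw [Nat.Prime.coprime_iff_not_dvd p.2, dvd_nn]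
  exact h

theorem nn_insert {S : Finset Nat.Primes} {p : Nat.Primes} (h : p ∉ S) :
    nn (insert p S) = (p : ℕ) * nn S := by
  unfold nn
  rw [Finset.prod_insert h]

theorem nn_squarefree (S : Finset Nat.Primes) : Squarefree (nn S) := by
  induction S using Finset.induction_on with
  | empty => simp [nn]
  | insert p S h ih =>
    rw [nn_insert h, Nat.squarefree_mul (nn_coprime h)]
    exact ⟨p.2.squarefree, ih⟩

theorem nn_moebius (S : Finset Nat.Primes) :
    ArithmeticFunction.moebius (nn S) = (-1) ^ S.card := by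
  induction S using Finset.induction_on with
  | empty => simp [nn]
  | insert p S h ih =>
    rw [nn_insert h, ArithmeticFunction.isMultiplicative_moebius.map_mul_of_coprime (nn_coprime h),
      ih, ArithmeticFunction.moebius_apply_prime p.2, Finset.card_insert_of_notMem h, pow_succ]
    ring

theorem nn_lcm (S T : Finset Nat.Primes) : Nat.lcm (nn S) (nn T) = nn (S ∪ T) := by
  apply Nat.dvd_antisymm
  · apply Nat.lcm_dvd
    · exact Finset.prod_dvd_prod_of_subset _ _ _ Finset.subset_union_left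
    · exact Finset.prod_dvd_prod_of_subset _ _ _ Finset.subset_union_right
  · have h := Finset.prod_primes_dvd (s := (S ∪ T).map ⟨fun p : Nat.Primes => (p : ℕ),
      Subtype.coe_injective⟩) (Nat.lcm (nn S) (nn T))
      (fun a ha => by
        rw [Finset.mem_map] at ha
        obtain ⟨p, _, rfl⟩ := ha
        exact p.2.prime)
      (fun a ha => by
        rw [Finset.mem_map] at ha
        obtain ⟨p, hp, rfl⟩ := ha
        rw [Finset.mem_union] at hp
        rcases hp with hp | hp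
        · exact ((dvd_nn S p).2 hp).trans (Nat.dvd_lcm_left _ _)
        · exact ((dvd_nn T p).2 hp).trans (Nat.dvd_lcm_right _ _))
    rw [Finset.prod_map] at h
    exact h

theorem nn_cpow (S : Finset Nat.Primes) (z : ℂ) :
    ((nn S : ℕ) : ℂ) ^ z = ∏ p ∈ S, ((p : ℕ) : ℂ) ^ z := by
  induction S using Finset.induction_on with
  | empty => simp [nn]
  | insert p S h ih =>
    rw [nn_insert h, Finset.prod_insert h, ← ih, Nat.cast_mul, Complex.natCast_mul_natCast_cpow]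

theorem nn_rpow (S : Finset Nat.Primes) (z : ℝ) :
    ((nn S : ℕ) : ℝ) ^ z = ∏ p ∈ S, ((p : ℕ) : ℝ) ^ z := by
  induction S using Finset.induction_on with
  | empty => simp [nn]
  | insert p S h ih =>
    rw [nn_insert h, Finset.prod_insert h, ← ih, Nat.cast_mul,
      Real.mul_rpow (Nat.cast_nonneg _) (Nat.cast_nonneg _)]

/-- a prime factor as a prime -/
def mkP (n : ℕ) (p : n.primeFactors) : Nat.Primes := ⟨p.1, Nat.prime_of_mem_primeFactors p.2⟩

theorem exists_nn {n : ℕ} (hn : Squarefree n) : ∃ S, nn S = n := by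
  refine ⟨n.primeFactors.attach.image (mkP n), ?_⟩
  unfold nn
  rw [Finset.prod_image]
  · show ∏ x ∈ n.primeFactors.attach, (x.1 : ℕ) = n
    rw [Finset.prod_attach n.primeFactors (fun p => p)]
    exact Nat.prod_primeFactors_of_squarefree hn
  · intro x _ y _ h
    have h1 : x.1 = y.1 := congrArg (fun z : Nat.Primes => (z : ℕ)) h
    exact Subtype.ext h1

/-- the prime two -/
def P2 : Nat.Primes := ⟨2, Nat.prime_two⟩

theorem P2_coe : (P2 : ℕ) = 2 := rfl

/-- the sieve coefficients on pairs of odd numbers -/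
def co (a : Fin 2 → ℕ) : ℝ :=
  if (a 0 ≠ 0 ∧ a 1 ≠ 0) ∧ Odd (a 0) ∧ Odd (a 1) then
    ((ArithmeticFunction.moebius (a 0) : ℤ) : ℝ) * ((ArithmeticFunction.moebius (a 1) : ℤ) : ℝ) /
      (Nat.lcm (a 0) (a 1) : ℕ)
  else 0

/-- `1/p` for odd `p` -/
def cp (p : Nat.Primes) : ℝ := if (p : ℕ) = 2 then 0 else 1 / (p : ℕ)

/-- `∏_{p | e} B_p ∏_{p ∤ e} A_p` -/
def Vn (A B : Nat.Primes → ℂ) (e : ℕ) : ℂ := ∏' p : Nat.Primes, if (p : ℕ) ∣ e then B p else A p

theorem Vn_nn (A B : Nat.Primes → ℂ) (S : Finset Nat.Primes) : Vn A B (nn S) = VV A B S := by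
  unfold Vn VV
  congr 1
  funext p
  by_cases h : p ∈ S
  · rw [if_pos h, if_pos ((dvd_nn S p).2 h)]
  · rw [if_neg h, if_neg (fun h' => h ((dvd_nn S p).1 h'))]

/-- the pair of products -/
def ph (x : Finset Nat.Primes × Finset Nat.Primes) : Fin 2 → ℕ := ![nn x.1, nn x.2]

theorem ph_inj : Function.Injective ph := by
  intro x y h
  have h0 : nn x.1 = nn y.1 := congrFun h 0
  have h1 : nn x.2 = nn y.2 := congrFun h 1
  exact Prod.ext (nn_inj h0) (nn_inj h1)

theorem co_nn (x : Finset Nat.Primes × Finset Nat.Primes) :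
    co (ph x) = (∏ _p ∈ x.1, (-1 : ℝ)) * (∏ _p ∈ x.2, (-1 : ℝ)) * ∏ p ∈ x.1 ∪ x.2, cp p := by
  have e0 : ph x 0 = nn x.1 := rfl
  have e1 : ph x 1 = nn x.2 := rfl
  unfold co
  rw [e0, e1, nn_lcm, nn_moebius, nn_moebius]
  have h2 : ∀ S : Finset Nat.Primes, Odd (nn S) ↔ P2 ∉ S := by
    intro S
    rw [← dvd_nn, ← Nat.not_even_iff_odd, even_iff_two_dvd, P2_coe]
  by_cases h : Odd (nn x.1) ∧ Odd (nn x.2)
  · rw [if_pos ⟨⟨nn_ne _, nn_ne _⟩, h⟩]
    have h3 : ∏ p ∈ x.1 ∪ x.2, cp p = 1 / ((nn (x.1 ∪ x.2) : ℕ) : ℝ) := by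
      unfold nn
      push_cast
      rw [one_div, ← Finset.prod_inv_distrib]
      refine Finset.prod_congr rfl fun p hp => ?_
      unfold cp
      rw [if_neg, one_div]
      intro h4
      have h5 : p = P2 := Subtype.ext h4
      rw [h5, Finset.mem_union] at hp
      rcases hp with hp | hp
      · exact (h2 _).1 h.1 hp
      · exact (h2 _).1 h.2 hp
    rw [h3, Finset.prod_const, Finset.prod_const]
    push_cast
    ring
  · rw [if_neg (fun h' => h h'.2)]
    have h3 : P2 ∈ x.1 ∪ x.2 := by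
      rw [Finset.mem_union]
      by_contra h4
      rw [not_or] at h4
      exact h ⟨(h2 _).2 h4.1, (h2 _).2 h4.2⟩
    rw [Finset.prod_eq_zero h3 (by unfold cp; rw [if_pos P2_coe]), mul_zero]

theorem co_supp (a : Fin 2 → ℕ) (h : co a ≠ 0) : a ∈ Set.range ph := by
  unfold co at h
  split_ifs at h with h1
  · have h2 : (ArithmeticFunction.moebius (a 0)) ≠ 0 := by
      intro h0; apply h; rw [h0]; simp
    have h3 : (ArithmeticFunction.moebius (a 1)) ≠ 0 := by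
      intro h0; apply h; rw [h0]; simp
    rw [ArithmeticFunction.moebius_ne_zero_iff_squarefree] at h2 h3
    obtain ⟨S, hS⟩ := exists_nn h2
    obtain ⟨T, hT⟩ := exists_nn h3
    refine ⟨(S, T), ?_⟩
    funext i
    fin_cases i
    · exact hS
    · exact hT
  · exact absurd rfl h

/-- the term -/
theorem term_eq (A B : Nat.Primes → ℂ) (z : Fin 2 → ℂ)
    (x : Finset Nat.Primes × Finset Nat.Primes) :
    ((co (ph x) : ℝ) : ℂ) * Vn A B (Nat.lcm (ph x 0) (ph x 1)) *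
      ∏ i, ((ph x i : ℕ) : ℂ) ^ (-(z i)) =
    GP A B (fun p => ((cp p : ℝ) : ℂ)) (fun p => ((p : ℕ) : ℂ) ^ (-(z 0)))
      (fun p => ((p : ℕ) : ℂ) ^ (-(z 1))) x := by
  have e0 : ph x 0 = nn x.1 := rfl
  have e1 : ph x 1 = nn x.2 := rfl
  rw [co_nn, Fin.prod_univ_two, e0, e1, nn_lcm, Vn_nn, nn_cpow, nn_cpow]
  unfold GP
  push_cast
  have h : ∀ (S : Finset Nat.Primes) (w : ℂ), ∏ p ∈ S, (-((p : ℕ) : ℂ) ^ w) =
      (∏ _p ∈ S, (-1 : ℂ)) * ∏ p ∈ S, ((p : ℕ) : ℂ) ^ w := by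
    intro S w
    rw [← Finset.prod_mul_distrib]
    exact Finset.prod_congr rfl fun p _ => by ring
  rw [h, h]
  ring

theorem cp_nonneg (p : Nat.Primes) : 0 ≤ cp p := by
  unfold cp
  split_ifs
  · exact le_rfl
  · positivity

theorem cp_le (p : Nat.Primes) : cp p ≤ 1 / (p : ℕ) := by
  unfold cp
  split_ifs
  · positivity
  · exact le_rfl

theorem norm_pz (p : Nat.Primes) (z : ℂ) :
    ‖((p : ℕ) : ℂ) ^ (-z)‖ = ((p : ℕ) : ℝ) ^ (-z.re) := by
  rw [Complex.norm_natCast_cpow_of_pos p.2.pos, Complex.neg_re]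

theorem norm_pz_le (p : Nat.Primes) (z : ℂ) (hz : 0 ≤ z.re) : ‖((p : ℕ) : ℂ) ^ (-z)‖ ≤ 1 := by
  rw [norm_pz]
  exact Real.rpow_le_one_of_one_le_of_nonpos (by exact_mod_cast p.2.one_lt.le) (by linarith)

theorem summ_aux (B : Nat.Primes → ℂ) (C : ℝ) (hB : ∀ p, ‖B p‖ ≤ C) (z : ℂ) (hz : 0 < z.re) :
    Summable (fun p : Nat.Primes => ‖((cp p : ℝ) : ℂ)‖ * ‖B p‖ * ‖((p : ℕ) : ℂ) ^ (-z)‖) := by
  have h1 : Summable (fun p : Nat.Primes => ((p : ℕ) : ℝ) ^ (-(1 + z.re))) := by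
    rw [Nat.Primes.summable_rpow]
    linarith
  refine Summable.of_nonneg_of_le (fun p => by positivity) (fun p => ?_) (h1.mul_left C)
  have hp : (0 : ℝ) < (p : ℕ) := by exact_mod_cast p.2.pos
  rw [norm_pz, Complex.norm_real, Real.norm_of_nonneg (cp_nonneg p)]
  have e : ((p : ℕ) : ℝ) ^ (-(1 + z.re)) = 1 / (p : ℕ) * ((p : ℕ) : ℝ) ^ (-z.re) := by
    rw [show -(1 + z.re) = -1 + -z.re by ring, Real.rpow_add hp, Real.rpow_neg_one, one_div]
  rw [e]
  calc cp p * ‖B p‖ * ((p : ℕ) : ℝ) ^ (-z.re) ≤ (1 / (p : ℕ)) * C * ((p : ℕ) : ℝ) ^ (-z.re) := by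
        apply mul_le_mul_of_nonneg_right _ (by positivity)
        exact mul_le_mul (cp_le p) (hB p) (norm_nonneg _) (by positivity)
    _ = _ := by ring

theorem summ_A {A : Nat.Primes → ℂ} {C : ℝ} (hA : ∀ p, ‖A p - 1‖ ≤ C / ((p : ℕ) : ℝ) ^ 2) :
    Summable (fun p => ‖A p - 1‖) := by
  have h : Summable (fun n : ℕ => C / (n : ℝ) ^ 2) := by
    have := (Real.summable_one_div_nat_pow (p := 2)).mpr (by norm_num)
    simpa [div_eq_mul_inv, mul_comm] using this.mul_left C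
  exact (h.comp_injective (i := fun p : Nat.Primes => (p : ℕ)) Subtype.coe_injective).of_nonneg_of_le
    (fun p => norm_nonneg _) hA

/-- **the Euler product** -/
theorem co_hasSum (A B : Nat.Primes → ℂ) (C CB : ℝ) (hA : ∀ p, ‖A p - 1‖ ≤ C / ((p : ℕ) : ℝ) ^ 2)
    (hB : ∀ p, ‖B p‖ ≤ CB) (z : Fin 2 → ℂ) (hz : ∀ i, 0 < (z i).re) :
    HasSum (fun a : Fin 2 → ℕ => ((co a : ℝ) : ℂ) * Vn A B (Nat.lcm (a 0) (a 1)) *
      ∏ i, ((a i : ℕ) : ℂ) ^ (-(z i)))
    (∏' p : Nat.Primes, (A p - ((cp p : ℝ) : ℂ) * B p * (((p : ℕ) : ℂ) ^ (-(z 0)) +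
      ((p : ℕ) : ℂ) ^ (-(z 1)) - ((p : ℕ) : ℂ) ^ (-(z 0)) * ((p : ℕ) : ℂ) ^ (-(z 1))))) := by
  have h := GP_hasSum A B (fun p => ((cp p : ℝ) : ℂ)) (fun p => ((p : ℕ) : ℂ) ^ (-(z 0)))
      (fun p => ((p : ℕ) : ℂ) ^ (-(z 1))) (summ_A hA)
      (fun p => norm_pz_le p _ (hz 0).le) (fun p => norm_pz_le p _ (hz 1).le)
      (summ_aux B CB hB _ (hz 0)) (summ_aux B CB hB _ (hz 1))
  refine (Function.Injective.hasSum_iff ph_inj (fun a ha => ?_)).1 ?_
  · have : co a = 0 := by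
      by_contra h0
      exact ha (co_supp a h0)
    rw [this]; simp
  · have e : ((fun a : Fin 2 → ℕ => ((co a : ℝ) : ℂ) * Vn A B (Nat.lcm (a 0) (a 1)) *
        ∏ i, ((a i : ℕ) : ℂ) ^ (-(z i))) ∘ ph) = _ := funext (fun x => term_eq A B z x)
    rw [e]
    exact h

theorem co_summable (A B : Nat.Primes → ℂ) (C CB : ℝ)
    (hA : ∀ p, ‖A p - 1‖ ≤ C / ((p : ℕ) : ℝ) ^ 2)
    (hB : ∀ p, ‖B p‖ ≤ CB) (c : Fin 2 → ℝ) (hc : ∀ i, 0 < c i) :
    Summable (fun a : Fin 2 → ℕ => ‖((co a : ℝ) : ℂ) * Vn A B (Nat.lcm (a 0) (a 1))‖ *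
      ∏ i, ((a i : ℕ) : ℝ) ^ (-(c i))) := by
  have h := (co_hasSum A B C CB hA hB (fun i => ((c i : ℝ) : ℂ))
    (fun i => by rw [Complex.ofReal_re]; exact hc i)).summable.norm
  refine h.congr fun a => ?_
  by_cases h0 : co a = 0
  · rw [h0]; simp
  · have h1 : ∀ i, a i ≠ 0 := by
      obtain ⟨x, rfl⟩ := co_supp a h0
      intro i
      fin_cases i
      · exact nn_ne _
      · exact nn_ne _
    rw [norm_mul, norm_prod]
    congr 1
    refine Finset.prod_congr rfl fun i _ => ?_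
    rw [Complex.norm_natCast_cpow_of_pos (Nat.pos_of_ne_zero (h1 i)), Complex.neg_re,
      Complex.ofReal_re]

end

end Pool.Agent.N782.EW
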