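import Pool.Agent.N782.EWa
import Pool.Agent.H306R2.RZ.Defs
import Pool.Agent.H727R2.RZ_MZ
import Pool.Agent.H310R2.RZ_ML
import Pool.Agent.H930R3.RZ_lib
import Pool.Agent.H375R3.RZ_FR
import Pool.Agent.H25R2.RZ_M1

set_option autoImplicit false

/-! The sieve sum: bound and limit (helper782). -/

namespace Pool.Agent.N782.EW

open Finset Filter Topology MeasureTheory Pool.Agent.N782.LX
open Pool.Agent.H306R2.RZ Pool.Agent.H930R3.RZID

noncomputable section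

/-! ### the constant -/

/-- two variables -/
theorem two (a z : Fin 2 → ℝ → ℂ) (f : Fin 2 → ℝ → ℝ) (c : Fin 2 → ℝ)
    (hr : ∀ i, Rep (z i) (f i) (a i)) (hz : ∀ i, Continuous (z i)) (hre : ∀ i τ, (z i τ).re = c i)
    (h01 : 0 < c 0 + c 1) :
    ∫ τ : Fin 2 → ℝ, (a 0 (τ 0) * a 1 (τ 1)) * (z 0 (τ 0) + z 1 (τ 1))⁻¹ =
      ((∫ y in Set.Ioi (0 : ℝ), f 0 y * f 1 y : ℝ) : ℂ) := by
  set ν : Measure ℝ := volume.restrict (Set.Ioi 0) with hν
  have c0 := (hr 0).cont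
  have c1 := (hr 1).cont
  have z0 := hz 0
  have z1 := hz 1
  let G : (Fin 2 → ℝ) → ℝ → ℂ := fun τ p =>
    (a 0 (τ 0) * a 1 (τ 1)) * (Complex.exp (-((z 0 (τ 0) + z 1 (τ 1)) * p)))
  have hG : Integrable (Function.uncurry G) ((volume : Measure (Fin 2 → ℝ)).prod ν) := by
    have hb1 : Integrable (fun τ : Fin 2 → ℝ => ∏ i, ‖a i (τ i)‖) :=
      Integrable.fintype_prod fun i => (hr i).int.norm
    refine Integrable.mono' (hb1.mul_prod (expR_Ioi h01 0)) ?_ ?_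
    · refine Continuous.aestronglyMeasurable ?_
      simp only [G]
      unfold Function.uncurry
      fun_prop
    · refine Filter.Eventually.of_forall fun x => ?_
      obtain ⟨τ, p⟩ := x
      simp only [G, Function.uncurry]
      rw [Fin.prod_univ_two, norm_mul, norm_mul, norm_exp_mul, Complex.add_re, hre, hre]
  have hin : ∀ τ : Fin 2 → ℝ, ∫ p, G τ p ∂ν =
      (a 0 (τ 0) * a 1 (τ 1)) * (z 0 (τ 0) + z 1 (τ 1))⁻¹ := by
    intro τ
    simp only [G]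
    rw [integral_const_mul]
    have e1 : ∫ y, Complex.exp (-((z 0 (τ 0) + z 1 (τ 1)) * (y : ℂ))) ∂ν
        = (z 0 (τ 0) + z 1 (τ 1))⁻¹ := by
      have := exp_Ioi (z := z 0 (τ 0) + z 1 (τ 1))
        (by rw [Complex.add_re, hre, hre]; exact h01) 0
      simpa using this
    rw [e1]
  have hout : ∀ p : ℝ, ∫ τ, G τ p = ((f 0 p * f 1 p : ℝ) : ℂ) := by
    intro p
    let h : Fin 2 → ℝ → ℂ := fun i τ => a i τ * Complex.exp (-(z i τ * p))
    have e1 : ∀ τ : Fin 2 → ℝ, G τ p = ∏ i, h i (τ i) := by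
      intro τ
      rw [Fin.prod_univ_two]
      simp only [G, h]
      rw [add_mul, neg_add, Complex.exp_add]
      ring
    rw [show (fun τ => G τ p) = fun τ : Fin 2 → ℝ => ∏ i, h i (τ i) from funext e1,
      integral_fintype_prod_volume_eq_prod, Fin.prod_univ_two]
    simp only [h]
    rw [← (hr 0).rep, ← (hr 1).rep]
    push_cast
    ring
  calc ∫ τ : Fin 2 → ℝ, (a 0 (τ 0) * a 1 (τ 1)) * (z 0 (τ 0) + z 1 (τ 1))⁻¹
      = ∫ τ : Fin 2 → ℝ, ∫ p, G τ p ∂ν := by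
        refine integral_congr_ae (Filter.Eventually.of_forall fun τ => ?_)
        exact (hin τ).symm
    _ = ∫ p, (∫ τ : Fin 2 → ℝ, G τ p) ∂ν := integral_integral_swap hG
    _ = ∫ p : ℝ, ((f 0 p * f 1 p : ℝ) : ℂ) ∂ν := by
        refine integral_congr_ae (Filter.Eventually.of_forall fun p => ?_)
        exact hout p
    _ = _ := by rw [integral_complex_ofReal]

/-- the constant of the sieve -/
theorem idP (s : ℝ) (P : ℝ → ℝ) (hP : Wt s P) :
    ∫ τ : Fin 2 → ℝ, (∏ i, fh ((fun _ => 1 : Fin 2 → ℝ) i) ((fun _ => P : Fin 2 → ℝ → ℝ) i) (τ i)) *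
      ((ex 1 (τ 0) + ex 1 (τ 1))⁻¹ * (ex 1 (τ 0) * ex 1 (τ 1))) =
      ((∫ t in Set.Ioi (0 : ℝ), deriv P t ^ 2 : ℝ) : ℂ) := by
  have r1 := rep1 Pool.Agent.H375R3.RZFR.FR (c := 1) hP
  have h := two (fun _ => fun τ => fh 1 P τ * (-(ex 1 τ))) (fun _ => ex 1) (fun _ => deriv P)
    (fun _ => 1) (fun _ => r1) (fun _ => ex_cont 1) (fun _ => ex_re 1) (by norm_num)
  have e : ∫ t in Set.Ioi (0 : ℝ), deriv P t ^ 2 = ∫ t in Set.Ioi (0 : ℝ), deriv P t * deriv P t := by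
    simp only [sq]
  rw [e, ← h]
  refine integral_congr_ae (Filter.Eventually.of_forall fun τ => ?_)
  simp only [Fin.prod_univ_two]
  ring

/-! ### the local factors -/

/-- normalized local factor -/
def lq (A B : ℂ) (x c : ℝ) (v w : ℂ) : ℂ :=
  (A - c * B * (v + w - v * w)) * (1 - x * (v * w)) * ((1 - x * v)⁻¹ * (1 - x * w)⁻¹)

theorem half_le' {x : ℝ} (hx : 0 ≤ x) (hx1 : x ≤ 1 / 2) {u : ℂ} (hu : ‖u‖ ≤ 1) :
    1 / 2 ≤ ‖1 - x * u‖ := Pool.Agent.H25R2.RZM1.half_le hx hx1 hu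

theorem lq_bound {A B : ℂ} {x c C : ℝ} {v w : ℂ} (hx : 0 < x) (hx1 : x ≤ 1 / 2) (hC : 0 ≤ C)
    (hv : ‖v‖ ≤ 1) (hw : ‖w‖ ≤ 1) (hA : ‖A - 1‖ ≤ C * x ^ 2) (hB : ‖B - 1‖ ≤ C * x)
    (hc : c = x ∨ (c = 0 ∧ x = 1 / 2)) : ‖lq A B x c v w - 1‖ ≤ (64 + 48 * C) * x ^ 2 := by
  have h1 := half_le' hx.le hx1 hv
  have h2 := half_le' hx.le hx1 hw
  have n1 : (1 - x * v) ≠ 0 := fun h => by rw [h, norm_zero] at h1; norm_num at h1
  have n2 : (1 - x * w) ≠ 0 := fun h => by rw [h, norm_zero] at h2; norm_num at h2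
  have hvw : ‖v * w‖ ≤ 1 := by rw [norm_mul]; exact mul_le_one₀ hv (norm_nonneg _) hw
  have hxn : ‖(x : ℂ)‖ = x := by rw [Complex.norm_real, Real.norm_of_nonneg hx.le]
  have hu : ‖v + w - v * w‖ ≤ 3 := by
    refine (norm_sub_le _ _).trans ?_
    have := norm_add_le v w
    linarith
  have hd : (1 / 4 : ℝ) ≤ ‖(1 - x * v) * (1 - x * w)‖ := by
    rw [norm_mul]; nlinarith
  have e0 : lq A B x c v w - 1 = ((A - c * B * (v + w - v * w)) * (1 - x * (v * w)) -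
      (1 - x * v) * (1 - x * w)) / ((1 - x * v) * (1 - x * w)) := by
    unfold lq
    rw [← mul_inv, ← div_eq_mul_inv, sub_div, div_self (mul_ne_zero n1 n2)]
  rw [e0, norm_div, div_le_iff₀ (by linarith)]
  have hone : ‖(1 : ℂ) - x * (v * w)‖ ≤ 3 / 2 := by
    refine (norm_sub_le _ _).trans ?_
    rw [norm_one, norm_mul, hxn]
    nlinarith [norm_nonneg (v * w)]
  have key : ‖(A - c * B * (v + w - v * w)) * (1 - x * (v * w)) -
      (1 - x * v) * (1 - x * w)‖ ≤ (16 + 12 * C) * x ^ 2 := by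
    rcases hc with rfl | ⟨rfl, rfl⟩
    · have e1 : (A - c * B * (v + w - v * w)) * (1 - c * (v * w)) -
          (1 - c * v) * (1 - c * w) = (c : ℂ) ^ 2 * ((v + w - v * w) * (v * w) - v * w) +
          ((A - 1) - c * (B - 1) * (v + w - v * w)) * (1 - c * (v * w)) := by ring
      rw [e1]
      have b1 : ‖(c : ℂ) ^ 2 * ((v + w - v * w) * (v * w) - v * w)‖ ≤ 4 * c ^ 2 := by
        rw [norm_mul, norm_pow, hxn]
        have : ‖(v + w - v * w) * (v * w) - v * w‖ ≤ 4 := by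
          refine (norm_sub_le _ _).trans ?_
          rw [norm_mul]
          have := mul_le_mul hu hvw (norm_nonneg _) (by norm_num : (0:ℝ) ≤ 3)
          linarith
        nlinarith [sq_nonneg c]
      have b2 : ‖(A - 1) - c * (B - 1) * (v + w - v * w)‖ ≤ 4 * C * c ^ 2 := by
        refine (norm_sub_le _ _).trans ?_
        rw [norm_mul, norm_mul, hxn]
        have h3 : c * ‖B - 1‖ ≤ c * (C * c) := mul_le_mul_of_nonneg_left hB hx.le
        have h4 : c * ‖B - 1‖ * ‖v + w - v * w‖ ≤ c * (C * c) * 3 :=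
          mul_le_mul h3 hu (norm_nonneg _) (by positivity)
        nlinarith
      refine (norm_add_le _ _).trans ?_
      rw [norm_mul (A - 1 - _)]
      have b3 := mul_le_mul b2 hone (norm_nonneg _) (by positivity)
      nlinarith [mul_nonneg hC (sq_nonneg c), sq_nonneg c]
    · push_cast
      simp only [zero_mul, sub_zero]
      have b1 : ‖A‖ ≤ 1 + C / 4 := by
        have e2 : A = (A - 1) + 1 := by ring
        rw [e2]
        refine (norm_add_le _ _).trans ?_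
        rw [norm_one]; linarith
      have hone' : ‖(1 : ℂ) - 1 / 2 * (v * w)‖ ≤ 3 / 2 := by
        have := hone; push_cast at this; exact this
      have t1 : ‖(1 : ℂ) - 1 / 2 * v‖ ≤ 3 / 2 := by
        refine (norm_sub_le _ _).trans ?_
        rw [norm_one, norm_mul]; norm_num; linarith
      have t2 : ‖(1 : ℂ) - 1 / 2 * w‖ ≤ 3 / 2 := by
        refine (norm_sub_le _ _).trans ?_
        rw [norm_one, norm_mul]; norm_num; linarith
      refine (norm_sub_le _ _).trans ?_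
      rw [norm_mul, norm_mul]
      have b3 := mul_le_mul b1 hone' (norm_nonneg _) (by positivity)
      have t3 := mul_le_mul t1 t2 (norm_nonneg _) (by norm_num : (0:ℝ) ≤ 3/2)
      nlinarith
  calc _ ≤ (16 + 12 * C) * x ^ 2 := key
    _ = (64 + 48 * C) * x ^ 2 * (1 / 4) := by ring
    _ ≤ _ := mul_le_mul_of_nonneg_left hd (by positivity)

/-! ### the Euler product -/

/-- the pairs of powers -/
def pv (z : ℂ) (p : Nat.Primes) : ℂ := ((p : ℕ) : ℂ) ^ (-z)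

/-- normalized factor at `p` -/
def lp (A B : Nat.Primes → ℂ) (z0 z1 : ℂ) (p : Nat.Primes) : ℂ :=
  lq (A p) (B p) (((p : ℕ) : ℝ)⁻¹) (cp p) (pv z0 p) (pv z1 p)

theorem px (p : Nat.Primes) : 0 < (((p : ℕ) : ℝ)⁻¹) ∧ (((p : ℕ) : ℝ)⁻¹) ≤ 1 / 2 := by
  have hp0 : (0 : ℝ) < (p : ℕ) := by exact_mod_cast p.2.pos
  refine ⟨by positivity, ?_⟩
  rw [inv_le_comm₀ hp0 (by norm_num)]
  norm_num
  exact p.2.two_le

theorem lp_bound (A B : Nat.Primes → ℂ) (C : ℝ) (hC : 0 ≤ C)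
    (hA : ∀ p, ‖A p - 1‖ ≤ C / ((p : ℕ) : ℝ) ^ 2) (hB : ∀ p, ‖B p - 1‖ ≤ C / ((p : ℕ) : ℝ))
    (z0 z1 : ℂ) (h0 : 0 < z0.re) (h1 : 0 < z1.re) (p : Nat.Primes) :
    ‖lp A B z0 z1 p - 1‖ ≤ (64 + 48 * C) / ((p : ℕ) : ℝ) ^ 2 := by
  obtain ⟨hx, hx1⟩ := px p
  have h := lq_bound (A := A p) (B := B p) (x := ((p : ℕ) : ℝ)⁻¹) (c := cp p) (C := C)
    (v := pv z0 p) (w := pv z1 p) hx hx1 hC (norm_pz_le p z0 h0.le) (norm_pz_le p z1 h1.le)
    (by rw [inv_pow, ← div_eq_mul_inv]; exact hA p) (by rw [← div_eq_mul_inv]; exact hB p) (by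
      unfold cp
      by_cases h2 : (p : ℕ) = 2
      · right
        rw [if_pos h2, h2]
        norm_num
      · left
        rw [if_neg h2, one_div])
  rw [inv_pow, ← div_eq_mul_inv] at h
  exact h

theorem E_eq (A B : Nat.Primes → ℂ) (C : ℝ) (hC : 0 ≤ C)
    (hA : ∀ p, ‖A p - 1‖ ≤ C / ((p : ℕ) : ℝ) ^ 2) (hB : ∀ p, ‖B p - 1‖ ≤ C / ((p : ℕ) : ℝ))
    (z0 z1 : ℂ) (h0 : 0 < z0.re) (h1 : 0 < z1.re) :
    ∏' p : Nat.Primes, (A p - ((cp p : ℝ) : ℂ) * B p * (pv z0 p + pv z1 p - pv z0 p * pv z1 p)) =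
      riemannZeta (1 + (z0 + z1)) * (riemannZeta (1 + z0))⁻¹ * (riemannZeta (1 + z1))⁻¹ *
        ∏' p, lp A B z0 z1 p := by
  have hB' : ∀ p, ‖B p‖ ≤ 1 + C := by
    intro p
    have e : B p = (B p - 1) + 1 := by ring
    rw [e]
    refine (norm_add_le _ _).trans ?_
    rw [norm_one]
    have hp1 : (1 : ℝ) ≤ (p : ℕ) := by exact_mod_cast p.2.one_lt.le
    have := div_le_self hC hp1
    linarith [hB p]
  have h01 : 0 < (z0 + z1).re := by rw [Complex.add_re]; linarith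
  -- multipliability of the raw factors
  have hraw : Multipliable (fun p : Nat.Primes => A p - ((cp p : ℝ) : ℂ) * B p *
      (pv z0 p + pv z1 p - pv z0 p * pv z1 p)) := by
    have s0 := summ_aux B (1 + C) hB' z0 h0
    have s1 := summ_aux B (1 + C) hB' z1 h1
    have sA := summ_A hA
    have h : Multipliable (fun p : Nat.Primes => 1 + ((A p - ((cp p : ℝ) : ℂ) * B p *
      (pv z0 p + pv z1 p - pv z0 p * pv z1 p)) - 1)) := by
      apply multipliable_one_add_of_summable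
      refine Summable.of_nonneg_of_le (fun i => norm_nonneg _) (fun p => ?_)
        (sA.add ((s0.mul_left 2).add s1))
      have e : (A p - ((cp p : ℝ) : ℂ) * B p * (pv z0 p + pv z1 p - pv z0 p * pv z1 p)) - 1 =
          (A p - 1) - (((cp p : ℝ) : ℂ) * B p * pv z0 p + ((cp p : ℝ) : ℂ) * B p * pv z1 p -
            ((cp p : ℝ) : ℂ) * B p * pv z0 p * pv z1 p) := by ring
      rw [e]
      refine (norm_sub_le _ _).trans (add_le_add le_rfl ((norm_sub_le _ _).trans ?_))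
      have h5 := norm_add_le (((cp p : ℝ) : ℂ) * B p * pv z0 p) (((cp p : ℝ) : ℂ) * B p * pv z1 p)
      have h6 : ‖((cp p : ℝ) : ℂ) * B p * pv z0 p * pv z1 p‖ ≤
          ‖((cp p : ℝ) : ℂ)‖ * ‖B p‖ * ‖pv z0 p‖ := by
        rw [norm_mul, norm_mul, norm_mul]
        exact mul_le_of_le_one_right (by positivity) (norm_pz_le p z1 h1.le)
      rw [norm_mul, norm_mul, norm_mul, norm_mul] at h5
      have e0 : ‖((p : ℕ) : ℂ) ^ (-z0)‖ = ‖pv z0 p‖ := rfl
      have e1 : ‖((p : ℕ) : ℂ) ^ (-z1)‖ = ‖pv z1 p‖ := rfl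
      rw [e0, e1]
      linarith
    simpa using h
  have hz := ((Pool.Agent.H25R2.RZM1.zeta_prod_inv h01).mul
    ((Pool.Agent.H25R2.RZM1.zeta_prod h0).mul (Pool.Agent.H25R2.RZM1.zeta_prod h1)))
  have hm := hraw.hasProd.mul hz
  have e : (fun p : Nat.Primes => (A p - ((cp p : ℝ) : ℂ) * B p *
      (pv z0 p + pv z1 p - pv z0 p * pv z1 p)) *
      ((1 - ((p : ℕ) : ℂ) ^ (-(z0 + z1)) / ((p : ℕ) : ℂ)) *
        ((1 - ((p : ℕ) : ℂ) ^ (-z0) / ((p : ℕ) : ℂ))⁻¹ *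
          (1 - ((p : ℕ) : ℂ) ^ (-z1) / ((p : ℕ) : ℂ))⁻¹))) = lp A B z0 z1 := by
    funext p
    unfold lp lq
    rw [Pool.Agent.H25R2.RZM1.cp_add]
    unfold pv
    push_cast
    simp only [div_eq_inv_mul]
    ring
  rw [e] at hm
  rw [hm.tprod_eq]
  have n0 := Pool.Agent.H25R2.RZM1.zeta_ne h0
  have n1 := Pool.Agent.H25R2.RZM1.zeta_ne h1
  have n2 := Pool.Agent.H25R2.RZM1.zeta_ne h01
  field_simp

end

end Pool.Agent.N782.EW
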