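import Pool.Agent.N782.EWb

set_option autoImplicit false

/-! The sieve sum: bound and limit, conclusion (helper782). -/

namespace Pool.Agent.N782.EW

open Finset Filter Topology MeasureTheory Pool.Agent.N782.LX
open Pool.Agent.H306R2.RZ Pool.Agent.H930R3.RZID

noncomputable section

/-- the sieve sum -/
def SS (P : ℝ → ℝ) (L : ℝ) (A B : Nat.Primes → ℂ) : ℂ :=
  ∑' a : Fin 2 → ℕ, ((co a : ℝ) : ℂ) * Vn A B (Nat.lcm (a 0) (a 1)) *
    ∏ i, ((P (Real.log (a i) / L) : ℝ) : ℂ)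

/-- the Dirichlet series -/
def EE (A B : Nat.Primes → ℂ) (z : Fin 2 → ℂ) : ℂ :=
  ∑' a : Fin 2 → ℕ, ((co a : ℝ) : ℂ) * Vn A B (Nat.lcm (a 0) (a 1)) *
    ∏ i, ((a i : ℕ) : ℂ) ^ (-(z i))

theorem B_le {B : Nat.Primes → ℂ} {C : ℝ} (hC : 0 ≤ C)
    (hB : ∀ p : Nat.Primes, ‖B p - 1‖ ≤ C / ((p : ℕ) : ℝ)) (p : Nat.Primes) : ‖B p‖ ≤ 1 + C := by
  have e : B p = (B p - 1) + 1 := by ring
  rw [e]
  refine (norm_add_le _ _).trans ?_
  rw [norm_one]
  have hp1 : (1 : ℝ) ≤ (p : ℕ) := by exact_mod_cast p.2.one_lt.le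
  have := div_le_self hC hp1
  linarith [hB p]

theorem EE_eq (A B : Nat.Primes → ℂ) (C : ℝ) (hC : 0 ≤ C)
    (hA : ∀ p, ‖A p - 1‖ ≤ C / ((p : ℕ) : ℝ) ^ 2) (hB : ∀ p, ‖B p - 1‖ ≤ C / ((p : ℕ) : ℝ))
    (z : Fin 2 → ℂ) (hz : ∀ i, 0 < (z i).re) :
    EE A B z = riemannZeta (1 + (z 0 + z 1)) * (riemannZeta (1 + z 0))⁻¹ *
      (riemannZeta (1 + z 1))⁻¹ * ∏' p, lp A B (z 0) (z 1) p := by
  rw [← E_eq A B C hC hA hB (z 0) (z 1) (hz 0) (hz 1)]
  exact (co_hasSum A B C (1 + C) hA (B_le hC hB) z hz).tsum_eq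

theorem SS_eq (s : ℝ) (P : ℝ → ℝ) (hP : Wt s P) (L : ℝ) (hL : 0 < L) (A B : Nat.Primes → ℂ) (C : ℝ)
    (hC : 0 ≤ C)
    (hA : ∀ p, ‖A p - 1‖ ≤ C / ((p : ℕ) : ℝ) ^ 2) (hB : ∀ p, ‖B p - 1‖ ≤ C / ((p : ℕ) : ℝ)) :
    SS P L A B = ∫ τ : Fin 2 → ℝ, (∏ i, fh ((fun _ => 1 : Fin 2 → ℝ) i)
        ((fun _ => P : Fin 2 → ℝ → ℝ) i) (τ i)) * EE A B (fun i => ex 1 (τ i) / (L : ℂ)) ∧
    Continuous (fun τ : Fin 2 → ℝ => EE A B (fun i => ex 1 (τ i) / (L : ℂ))) := by
  have h := Pool.Agent.H310R2.RZML.ML Pool.Agent.H375R3.RZFR.FR 2 (fun _ => 1) (fun _ => one_pos)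
    (fun a => ((co a : ℝ) : ℂ) * Vn A B (Nat.lcm (a 0) (a 1)))
    (fun a ha => by
      have : co a = 0 := by
        unfold co
        rw [if_neg]
        rintro ⟨⟨h0, h1⟩, -⟩
        obtain ⟨i, hi⟩ := ha
        fin_cases i
        · exact h0 hi
        · exact h1 hi
      rw [this]; simp) L hL
    (co_summable A B C (1 + C) hA (B_le hC hB) (fun _ => 1 / L) (fun _ => by positivity))
    (fun _ => P) s (fun _ => hP)
  exact h

theorem EE_bound (C : ℝ) (hC : 0 ≤ C) : ∃ K : ℝ, 0 < K ∧ ∀ (L : ℝ) (A B : Nat.Primes → ℂ), 1 ≤ L →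
    (∀ p, ‖A p - 1‖ ≤ C / ((p : ℕ) : ℝ) ^ 2) → (∀ p, ‖B p - 1‖ ≤ C / ((p : ℕ) : ℝ)) →
    ∀ τ : Fin 2 → ℝ, ‖EE A B (fun i => ex 1 (τ i) / (L : ℂ))‖ ≤
      K / L * ∏ i, (1 + |τ i|) ^ 2 := by
  obtain ⟨⟨C2, hC2, hz2⟩, -⟩ := Pool.Agent.H727R2.RZMZ.MZ 2 two_pos
  obtain ⟨⟨C1, hC1, hz1⟩, -⟩ := Pool.Agent.H727R2.RZMZ.MZ 1 one_pos
  refine ⟨C2 * C1 ^ 2 * Real.exp (2 * (64 + 48 * C)), by positivity, ?_⟩
  intro L A B hL hA hB τ
  have hL0 : 0 < L := by linarith
  have hre : ∀ i : Fin 2, 0 < (ex 1 (τ i) / (L : ℂ)).re := by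
    intro i
    rw [Complex.div_ofReal_re, ex_re]; positivity
  rw [EE_eq A B C hC hA hB _ hre]
  have b0 : ‖riemannZeta (1 + (ex 1 (τ 0) / (L : ℂ) + ex 1 (τ 1) / (L : ℂ)))‖ ≤ C2 * L := by
    rw [← add_div]
    exact (hz2 L _ hL (by rw [Complex.add_re, ex_re, ex_re]; norm_num)).1
  have him : ∀ t : ℝ, (ex 1 t).im = t := fun t => by simp [ex]
  have b1 : ∀ t : ℝ, ‖(riemannZeta (1 + ex 1 t / (L : ℂ)))⁻¹‖ ≤ C1 * (1 + |t|) ^ 2 / L := by
    intro t
    have h := (hz1 L (ex 1 t) hL (ex_re 1 t)).2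
    rw [him] at h
    exact h
  have b2 : ‖∏' p, lp A B (ex 1 (τ 0) / (L : ℂ)) (ex 1 (τ 1) / (L : ℂ)) p‖ ≤
      Real.exp (2 * (64 + 48 * C)) :=
    (Pool.Agent.H83R2.RZ.EPg (fun _ p => lp A B (ex 1 (τ 0) / (L : ℂ)) (ex 1 (τ 1) / (L : ℂ)) p)
      (fun p => lp A B (ex 1 (τ 0) / (L : ℂ)) (ex 1 (τ 1) / (L : ℂ)) p) (64 + 48 * C)
      (fun _ p => lp_bound A B C hC hA hB _ _ (hre 0) (hre 1) p)
      (fun p => tendsto_const_nhds)).2.1 0
  rw [norm_mul, norm_mul, norm_mul, Fin.prod_univ_two]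
  calc _ ≤ (C2 * L) * (C1 * (1 + |τ 0|) ^ 2 / L) * (C1 * (1 + |τ 1|) ^ 2 / L) *
        Real.exp (2 * (64 + 48 * C)) := by
        gcongr
        · exact b1 _
        · exact b1 _
    _ = _ := by
        field_simp

/-- **bound of the sieve sum** -/
theorem SS_bound (s : ℝ) (P : ℝ → ℝ) (hP : Wt s P) (BP : ℝ) (hBP : Bd 4 P BP) (C : ℝ)
    (hC : 0 ≤ C) : ∃ K : ℝ, 0 < K ∧ ∀ (L : ℝ) (A B : Nat.Primes → ℂ), 1 ≤ L →
    (∀ p, ‖A p - 1‖ ≤ C / ((p : ℕ) : ℝ) ^ 2) → (∀ p, ‖B p - 1‖ ≤ C / ((p : ℕ) : ℝ)) →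
    ‖SS P L A B‖ ≤ K / L := by
  obtain ⟨K, hK, hE⟩ := EE_bound C hC
  obtain ⟨C', hC', hb⟩ := Pool.Agent.H310R2.RZML.MLbd Pool.Agent.H375R3.RZFR.FR 2 (fun _ => 1) s 2
  refine ⟨C' * K * BP ^ 2 + 1, by positivity, ?_⟩
  intro L A B hL hA hB
  have hL0 : 0 < L := by linarith
  obtain ⟨h1, h2⟩ := SS_eq s P hP L hL0 A B C hC hA hB
  rw [h1]
  have h3 := hb (fun τ : Fin 2 → ℝ => EE A B (fun i => ex 1 (τ i) / (L : ℂ))) (K / L)
    (fun _ => P) (fun _ => BP) h2.aestronglyMeasurable (hE L A B hL hA hB) (fun _ => hP)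
    (fun _ => hBP)
  refine h3.trans ?_
  rw [Fin.prod_univ_two]
  have : C' * (K / L) * (BP * BP) = (C' * K * BP ^ 2) / L := by ring
  rw [this]
  exact div_le_div_of_nonneg_right (by linarith) hL0.le

/-- **limit of the sieve sum** -/
theorem SS_lim (s : ℝ) (P : ℝ → ℝ) (hP : Wt s P) (C : ℝ) (hC : 0 ≤ C)
    (A B : ℝ → Nat.Primes → ℂ) (L0 : ℝ) (b : Nat.Primes → ℂ)
    (hA : ∀ L, L0 ≤ L → ∀ p, ‖A L p - 1‖ ≤ C / ((p : ℕ) : ℝ) ^ 2)
    (hB : ∀ L, L0 ≤ L → ∀ p, ‖B L p - 1‖ ≤ C / ((p : ℕ) : ℝ))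
    (lA : ∀ p : Nat.Primes, Tendsto (fun L => A L p) atTop (𝓝 (b p)))
    (lB : ∀ p : Nat.Primes, p ≠ P2 → Tendsto (fun L => B L p) atTop (𝓝 (b p))) :
    Tendsto (fun L : ℝ => (L : ℂ) * SS P L (A L) (B L)) atTop
      (𝓝 (2 * (∏' p, b p) * ((∫ t in Set.Ioi (0 : ℝ), deriv P t ^ 2 : ℝ) : ℂ))) := by
  have hbm : Multipliable b := by
    refine (Pool.Agent.H83R2.RZ.EPg (fun L p => if L0 ≤ L then A L p else 1) b C (fun L p => by
      split_ifs with hL
      · exact hA L hL p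
      · rw [sub_self, norm_zero]; positivity) (fun p => ?_)).2.2.1
    refine (lA p).congr' ?_
    filter_upwards [eventually_ge_atTop L0] with L hL
    rw [if_pos hL]
  set α : ℂ := ∏' p, b p with hα
  obtain ⟨K, hK, hE⟩ := EE_bound C hC
  obtain ⟨-, hz⟩ := Pool.Agent.H727R2.RZMZ.MZ 2 two_pos
  have key := Pool.Agent.H310R2.RZML.MLlim Pool.Agent.H375R3.RZFR.FR 2 (fun _ => 1)
    (fun L τ => (L : ℂ) * EE (A L) (B L) (fun i => ex 1 (τ i) / (L : ℂ)))
    (fun τ => 2 * α * ((ex 1 (τ 0) + ex 1 (τ 1))⁻¹ * (ex 1 (τ 0) * ex 1 (τ 1)))) (max L0 1) K 2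
    (fun L hL => by
      have h1 : L0 ≤ L := (le_max_left _ _).trans hL
      have h2 : 1 ≤ L := (le_max_right _ _).trans hL
      exact (continuous_const.mul (SS_eq s P hP L (by linarith) (A L) (B L) C hC (hA L h1)
        (hB L h1)).2).aestronglyMeasurable)
    (fun L hL τ => by
      have h1 : L0 ≤ L := (le_max_left _ _).trans hL
      have h2 : 1 ≤ L := (le_max_right _ _).trans hL
      have hL0 : 0 < L := by linarith
      rw [norm_mul, Complex.norm_real, Real.norm_of_nonneg hL0.le]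
      have h3 := mul_le_mul_of_nonneg_left (hE L (A L) (B L) h2 (hA L h1) (hB L h1) τ) hL0.le
      refine h3.trans (le_of_eq ?_)
      field_simp)
    (fun τ => ?_) (fun _ => P) s (fun _ => hP)
  · have e1 : ∫ τ : Fin 2 → ℝ, (∏ i, fh ((fun _ => 1 : Fin 2 → ℝ) i)
        ((fun _ => P : Fin 2 → ℝ → ℝ) i) (τ i)) *
        (2 * α * ((ex 1 (τ 0) + ex 1 (τ 1))⁻¹ * (ex 1 (τ 0) * ex 1 (τ 1)))) =
        2 * α * ((∫ t in Set.Ioi (0 : ℝ), deriv P t ^ 2 : ℝ) : ℂ) := by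
      rw [← idP s P hP, ← integral_const_mul]
      refine integral_congr_ae (Filter.Eventually.of_forall fun τ => ?_)
      simp only
      ring
    rw [e1] at key
    refine key.congr' ?_
    filter_upwards [eventually_ge_atTop (max L0 1)] with L hL
    have h1 : L0 ≤ L := (le_max_left _ _).trans hL
    have h2 : 1 ≤ L := (le_max_right _ _).trans hL
    rw [(SS_eq s P hP L (by linarith) (A L) (B L) C hC (hA L h1) (hB L h1)).1,
      ← integral_const_mul]
    refine integral_congr_ae (Filter.Eventually.of_forall fun τ => ?_)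
    simp only
    ring
  · -- the pointwise limit
    have hre : ∀ i : Fin 2, 0 < (ex 1 (τ i)).re := fun i => by rw [ex_re]; exact one_pos
    have hne : ∀ i : Fin 2, ex 1 (τ i) ≠ 0 := fun i => ex_ne one_pos _
    have h01 : 0 < (ex 1 (τ 0) + ex 1 (τ 1)).re := by
      rw [Complex.add_re]; linarith [hre 0, hre 1]
    have hne01 : ex 1 (τ 0) + ex 1 (τ 1) ≠ 0 := fun h => by rw [h] at h01; simp at h01
    have l0 := hz _ h01
    have l1 := fun i : Fin 2 => (hz _ (hre i)).inv₀ (one_div_ne_zero (hne i))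
    -- the product of the local factors
    have lpr : Tendsto (fun L : ℝ => ∏' p, lp (A L) (B L) (ex 1 (τ 0) / (L : ℂ))
        (ex 1 (τ 1) / (L : ℂ)) p) atTop (𝓝 (2 * α)) := by
      have h := (Pool.Agent.H83R2.RZ.EPg (fun L p => if max L0 1 ≤ L then
          lp (A L) (B L) (ex 1 (τ 0) / (L : ℂ)) (ex 1 (τ 1) / (L : ℂ)) p else 1)
        (fun p => (if p = P2 then 2 else 1) * b p) (64 + 48 * C) (fun L p => by
          split_ifs with hL
          · have h1 : L0 ≤ L := (le_max_left _ _).trans hL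
            have h2 : 0 < L := by have := (le_max_right L0 1).trans hL; linarith
            refine lp_bound (A L) (B L) C hC (hA L h1) (hB L h1) _ _ ?_ ?_ p
            · rw [Complex.div_ofReal_re]; exact div_pos (hre 0) h2
            · rw [Complex.div_ofReal_re]; exact div_pos (hre 1) h2
          · rw [sub_self, norm_zero]; positivity) (fun p => ?_)).2.2.2
      · have h2 : HasProd (fun p : Nat.Primes => if p = P2 then (2 : ℂ) else 1) 2 := by
          have h3 : HasProd (fun p : Nat.Primes => if p = P2 then (2 : ℂ) else 1)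
              ((fun p : Nat.Primes => if p = P2 then (2 : ℂ) else 1) P2) :=
            hasProd_single P2 (fun p hp => by rw [if_neg hp])
          simpa using h3
        rw [h2.multipliable.tprod_mul hbm, h2.tprod_eq] at h
        refine h.congr' ?_
        filter_upwards [eventually_ge_atTop (max L0 1)] with L hL
        simp only [if_pos hL]
      · have hv : ∀ i : Fin 2, Tendsto (fun L : ℝ => pv (ex 1 (τ i) / (L : ℂ)) p) atTop (𝓝 1) :=
          fun i => Pool.Agent.H25R2.RZM1.cp_lim p (ex 1 (τ i))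
        obtain ⟨hx, hx1⟩ := px p
        have hxne : (1 : ℂ) - ((((p : ℕ) : ℝ)⁻¹ : ℝ) : ℂ) * 1 ≠ 0 := by
          intro h
          have h' := half_le' hx.le hx1 (u := 1) (by simp)
          rw [h, norm_zero] at h'
          norm_num at h'
        -- the general factor
        have gen : ∀ β γ : ℂ, Tendsto (fun L => A L p) atTop (𝓝 β) →
            (Tendsto (fun L => B L p) atTop (𝓝 γ) ∨ cp p = 0) →
            Tendsto (fun L : ℝ => lp (A L) (B L) (ex 1 (τ 0) / (L : ℂ)) (ex 1 (τ 1) / (L : ℂ)) p)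
              atTop (𝓝 ((β - ((cp p : ℝ) : ℂ) * γ * (1 + 1 - 1 * 1)) *
                (1 - ((((p : ℕ) : ℝ)⁻¹ : ℝ) : ℂ) * (1 * 1)) *
                ((1 - ((((p : ℕ) : ℝ)⁻¹ : ℝ) : ℂ) * 1)⁻¹ *
                (1 - ((((p : ℕ) : ℝ)⁻¹ : ℝ) : ℂ) * 1)⁻¹))) := by
          intro β γ hβ hγ
          unfold lp lq
          have t1 : Tendsto (fun L : ℝ => (1 : ℂ) - ((((p : ℕ) : ℝ)⁻¹ : ℝ) : ℂ) *
              pv (ex 1 (τ 0) / (L : ℂ)) p) atTop (𝓝 (1 - ((((p : ℕ) : ℝ)⁻¹ : ℝ) : ℂ) * 1)) :=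
            ((hv 0).const_mul _).const_sub _
          have t2 : Tendsto (fun L : ℝ => (1 : ℂ) - ((((p : ℕ) : ℝ)⁻¹ : ℝ) : ℂ) *
              pv (ex 1 (τ 1) / (L : ℂ)) p) atTop (𝓝 (1 - ((((p : ℕ) : ℝ)⁻¹ : ℝ) : ℂ) * 1)) :=
            ((hv 1).const_mul _).const_sub _
          have t3 := (((hv 0).mul (hv 1)).const_mul ((((p : ℕ) : ℝ)⁻¹ : ℝ) : ℂ)).const_sub 1
          have t4 := ((hv 0).add (hv 1)).sub ((hv 0).mul (hv 1))
          refine Tendsto.mul (Tendsto.mul (hβ.sub ?_) t3) ((t1.inv₀ hxne).mul (t2.inv₀ hxne))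
          rcases hγ with hγ | hγ
          · exact (hγ.const_mul _).mul t4
          · rw [hγ]
            simp only [Complex.ofReal_zero, zero_mul]
            exact tendsto_const_nhds
        have hfin : Tendsto (fun L : ℝ => lp (A L) (B L) (ex 1 (τ 0) / (L : ℂ))
            (ex 1 (τ 1) / (L : ℂ)) p) atTop (𝓝 ((if p = P2 then 2 else 1) * b p)) := by
          by_cases hp : p = P2
          · subst hp
            rw [if_pos rfl]
            have hc : cp P2 = 0 := by unfold cp; rw [if_pos P2_coe]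
            have := gen (b P2) 1 (lA P2) (Or.inr hc)
            refine this.trans (le_of_eq ?_)
            congr 1
            rw [hc, P2_coe]
            push_cast
            norm_num
            ring
          · rw [if_neg hp]
            have hc : cp p = ((p : ℕ) : ℝ)⁻¹ := by
              unfold cp
              rw [if_neg, one_div]
              intro h
              exact hp (Subtype.ext h)
            have := gen (b p) (b p) (lA p) (Or.inl (lB p hp))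
            refine this.trans (le_of_eq ?_)
            congr 1
            rw [hc]
            have hk : ∀ x β : ℂ, 1 - x * 1 ≠ 0 → (β - x * β * (1 + 1 - 1 * 1)) *
                (1 - x * (1 * 1)) * ((1 - x * 1)⁻¹ * (1 - x * 1)⁻¹) = 1 * β := by
              intro x β hx
              have h1 : β - x * β * (1 + 1 - 1 * 1) = (1 - x * 1) * β := by ring
              have h2 : 1 - x * (1 * 1) = 1 - x * 1 := by ring
              rw [h1, h2]
              generalize 1 - x * 1 = y at hx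
              field_simp
            exact hk _ _ hxne
        refine hfin.congr' ?_
        filter_upwards [eventually_ge_atTop (max L0 1)] with L hL
        rw [if_pos hL]
    have hall := ((l0.mul ((l1 0).mul (l1 1))).mul lpr)
    refine Tendsto.congr' ?_ (hall.trans (le_of_eq ?_))
    · filter_upwards [eventually_ge_atTop (max L0 1)] with L hL
      have h1 : L0 ≤ L := (le_max_left _ _).trans hL
      have h2 : 0 < L := by have := (le_max_right L0 1).trans hL; linarith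
      have hLC : (L : ℂ) ≠ 0 := by exact_mod_cast h2.ne'
      rw [EE_eq (A L) (B L) C hC (hA L h1) (hB L h1) _ (fun i => by
        rw [Complex.div_ofReal_re]; exact div_pos (hre i) h2)]
      rw [← add_div]
      simp only [inv_div]
      field_simp
    · congr 1
      simp only [one_div, inv_inv]
      ring

end

end Pool.Agent.N782.EW
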