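import Pool.Agent.H692R2.RZ5_EYm

set_option autoImplicit false

/-! N782 (helper782): the sum over `k`, uniform in the modulus `q`
(adapted from `H692R2.RZ5_EY`). -/

namespace Pool.Agent.N782.EYu

open Finset Filter Topology MeasureTheory Pool.Agent.H306R2.RZ
open Pool.Agent.H692R2.RZ5 (EY_cover EY_nonsquare EY_dyadic EY_log EY_term ER5)

noncomputable section

theorem EYu (ς : ℝ) (hς : 0 ≤ ς)
    (h : TRIP ς) (ε : ℝ)
    (hε : 0 < ε) : ∃ (C : ℝ) (A : ℕ), 0 < C ∧ ∀ (q : ℕ), Even q → q ≠ 0 → ∀ (θ L t : ℝ)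
      (w1 w2 Q1 Q2 : ℝ → ℝ)
      (B1 B2 B3 B4 : ℝ) (K0 : ℕ), 0 < θ → θ < 1 → 1 ≤ L → 1 ≤ K0 →
      Wt 1 w1 → Wt 1 w2 → Wt θ Q1 → Wt θ Q2 → Bd A w1 B1 → Bd A w2 B2 → Bd 0 Q1 B3 → Bd 0 Q2 B4 →
      ∑ k ∈ (Icc (-(K0 : ℤ)) K0).filter (fun k => ¬ IsSquare k),
          (k.natAbs : ℝ) ^ (-(1 / 2) : ℝ) * ‖RR q L w1 w2 Q1 Q2 k t‖ ≤
        C * (q : ℝ) ^ ε * (1 + |t|) ^ A * B1 * B2 * B3 * B4 * (K0 : ℝ) ^ ε * Real.exp (ε * L) *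
          ((K0 : ℝ) ^ (1 / 2 : ℝ) * Real.exp (2 * θ * ς * L) + Real.exp (θ * L)) := by
  classical
  set δ : ℝ := ε / 6 with hδdef
  have hδ0 : 0 < δ := by positivity
  obtain ⟨CT, A, hCT0, hT⟩ := h δ hδ0
  obtain ⟨C4, ω, hC40, hω0, hωG, hω⟩ := Pool.Agent.H841R2.RZER4.ER4 δ hδ0
  obtain ⟨C5, hC50, hC5⟩ := ER5 δ hδ0
  obtain ⟨C6, hC60, hC6⟩ := Pool.Agent.H233R2.RZ5.ER6 δ hδ0
  obtain ⟨Cd, hCd0, hCd⟩ := Pool.Agent.Helper112.divisor_bound δ hδ0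
  have hlog2 : 0 < Real.log 2 := Real.log_pos (by norm_num)
  set c1 : ℝ := (2 : ℝ) ^ δ with hc1
  have hc10 : 0 < c1 := by positivity
  set cJ : ℝ := 1 + 1 / (δ * Real.log 2) with hcJ
  have hcJ0 : 0 < cJ := by positivity
  refine ⟨cJ * (2 * c1 * CT * Real.sqrt C6) * Cd ^ 2 * (C5 * c1) * (C4 * c1) *
    (1 + 1 / δ), A, by positivity, ?_⟩
  intro q hq hq0 θ L t w1 w2 Q1 Q2 B1 B2 B3 B4 K0 hθ0 hθ1 hL hK0 hw1 hw2 hQ1 hQ2 hb1 hb2 hb3 hb4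
  have hqR : (1 : ℝ) ≤ q := by exact_mod_cast Nat.one_le_iff_ne_zero.2 hq0
  have hq2 : ((q : ℝ) ^ δ) ^ 2 ≤ (q : ℝ) ^ ε := by
    rw [← Real.rpow_natCast, ← Real.rpow_mul (by positivity)]
    apply Real.rpow_le_rpow_of_exponent_le hqR
    rw [hδdef]; push_cast; linarith
  have hB1 : 0 ≤ B1 := (abs_nonneg _).trans (hb1 0 (Nat.zero_le _) 0)
  have hB2 : 0 ≤ B2 := (abs_nonneg _).trans (hb2 0 (Nat.zero_le _) 0)
  have hB3 : 0 ≤ B3 := (abs_nonneg _).trans (hb3 0 (Nat.zero_le _) 0)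
  have hB4 : 0 ≤ B4 := (abs_nonneg _).trans (hb4 0 (Nat.zero_le _) 0)
  have hQ1' : Wt 1 Q1 := ⟨hQ1.smooth, fun y hy => ⟨(hQ1.supp y hy).1, (hQ1.supp y hy).2.trans hθ1.le⟩⟩
  have hQ2' : Wt 1 Q2 := ⟨hQ2.smooth, fun y hy => ⟨(hQ2.supp y hy).1, (hQ2.supp y hy).2.trans hθ1.le⟩⟩
  have hKR : (1 : ℝ) ≤ K0 := by exact_mod_cast hK0
  have hL0 : 0 < L := by linarith
  -- Y and Z
  set Y : ℕ := ⌈Real.exp L⌉₊ with hYdef
  have hYL : Real.exp L ≤ Y := Nat.le_ceil _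
  have hexpL : 1 ≤ Real.exp L := Real.one_le_exp hL0.le
  have hY1 : 1 ≤ Y := by
    have : (1 : ℝ) ≤ Y := hexpL.trans hYL
    exact_mod_cast this
  have hY2 : (Y : ℝ) ≤ 2 * Real.exp L := by
    have := Nat.ceil_lt_add_one (Real.exp_pos L).le
    linarith
  set Z : ℕ := ⌊Real.exp (2 * θ * L)⌋₊ with hZdef
  have hZ1 : 1 ≤ Z := by
    rw [hZdef, Nat.one_le_floor_iff]
    exact Real.one_le_exp (by positivity)
  have hZ2 : (Z : ℝ) ≤ Real.exp (2 * θ * L) := Nat.floor_le (Real.exp_pos _).le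
  have hZ1R : (1 : ℝ) ≤ Z := by exact_mod_cast hZ1
  set E : ℝ := Real.exp (δ * L) with hE
  have hE0 : 0 < E := Real.exp_pos _
  set P : ℝ := (K0 : ℝ) ^ δ with hP
  have hP0 : 0 < P := by positivity
  set X : ℝ := (K0 : ℝ) ^ (1 / 2 : ℝ) * Real.exp (2 * θ * ς * L) + Real.exp (θ * L) with hX
  have hX0 : 0 ≤ X := by positivity
  have hYδ : (Y : ℝ) ^ δ ≤ c1 * E := by
    calc (Y : ℝ) ^ δ ≤ (2 * Real.exp L) ^ δ := Real.rpow_le_rpow (by positivity) hY2 hδ0.le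
      _ = c1 * E := by
          rw [Real.mul_rpow (by norm_num) (Real.exp_pos _).le, ← Real.exp_mul, hE, mul_comm L δ]
  set Bt : ℝ := (1 + |t|) ^ A * B1 * B2 * B3 * B4 with hBt
  have hBt0 : 0 ≤ Bt := by positivity
  set m : ℝ := (2 * c1 * CT * Real.sqrt C6) * Bt * P * E ^ 4 * X with hm
  have hm0 : 0 ≤ m := by positivity
  set M : ℝ := cJ * P * m with hM
  have hM0 : 0 ≤ M := by positivity
  -- the sum over k1
  have hcore : ∀ (v0 v1 y k2 b2 b3 K1 : ℕ), 1 ≤ v0 → 1 ≤ v1 → 1 ≤ y → K1 ≤ K0 →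
      ∑ k ∈ sqZ K1, (k.natAbs : ℝ) ^ (-(1 / 2) : ℝ) * (‖NS k t v0 L w1‖ * ‖NS k t v1 L w2‖ *
        ‖∑ l ∈ osf Z, (if y ∣ l then alc q L Q1 Q2 k2 b2 b3 t l else 0) * (js k l : ℂ)‖) ≤
      M * (y : ℝ) ^ (-(1 / 2) : ℝ) := by
    intro v0 v1 y k2 b2 b3 K1 hv0 hv1 hy hK1
    have hyR : (1 : ℝ) ≤ y := by exact_mod_cast hy
    refine (EY_dyadic K1 _ fun k => by positivity).trans ?_
    calc ∑ j ∈ range (Nat.log 2 K1 + 1), ((2 : ℝ) ^ j) ^ (-(1 / 2) : ℝ) *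
          ∑ k ∈ sqZ (2 ^ (j + 1)), (‖NS k t v0 L w1‖ * ‖NS k t v1 L w2‖ *
            ‖∑ l ∈ osf Z, (if y ∣ l then alc q L Q1 Q2 k2 b2 b3 t l else 0) * (js k l : ℂ)‖)
        ≤ ∑ j ∈ range (Nat.log 2 K1 + 1), m * (y : ℝ) ^ (-(1 / 2) : ℝ) := by
          refine sum_le_sum fun j hj => ?_
          have hj1 : 2 ^ j ≤ K0 := by
            calc 2 ^ j ≤ 2 ^ Nat.log 2 K0 := Nat.pow_le_pow_right (by norm_num)
                  ((Nat.lt_succ_iff.1 (mem_range.1 hj)).trans (Nat.log_mono_right hK1))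
              _ ≤ K0 := Nat.pow_log_le_self 2 (by omega)
          exact EY_term ς δ hδ0 CT C6 hCT0 hC60 A j K0 θ L t hj1 Z hZ1R hZ2 hς hθ1 hL
            B1 B2 B3 B4 hB1 hB2 hB3 hB4 y hyR _ _
            (hT (2 ^ (j + 1)) Z v0 v1 t L w1 w2 B1 B2 _ Nat.one_le_two_pow hZ1 hv0 hv1 hL
              hw1 hw2 hb1 hb2)
            (hC6 q k2 b2 b3 Z y L t Q1 Q2 B3 B4 hZ1 hy hb3 hb4)
      _ = ((Nat.log 2 K1 + 1 : ℕ) : ℝ) * (m * (y : ℝ) ^ (-(1 / 2) : ℝ)) := by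
          rw [sum_const, card_range, nsmul_eq_mul]
      _ ≤ (cJ * P) * (m * (y : ℝ) ^ (-(1 / 2) : ℝ)) := by
          apply mul_le_mul_of_nonneg_right (EY_log δ hδ0 K1 K0 hK1 hK0) (by positivity)
      _ = _ := by rw [hM]; ring
  -- the Z condition
  have hZc : ∀ b : Fin 4 → ℕ, (∀ i, 1 ≤ b i) → ∀ c2 c3 : ℕ,
      Q1 (Real.log ((b 2 * c2 : ℕ) : ℝ) / L) * Q2 (Real.log ((b 3 * c3 : ℕ) : ℝ) / L) ≠ 0 →
      c2 * c3 ≤ Z := by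
    intro b hb c2 c3 hne
    rcases Nat.eq_zero_or_pos c2 with hc | hc2
    · rw [hc, zero_mul]; exact Nat.zero_le _
    rcases Nat.eq_zero_or_pos c3 with hc | hc3
    · rw [hc, mul_zero]; exact Nat.zero_le _
    have key : ∀ (Q : ℝ → ℝ), Wt θ Q → ∀ (bb cc : ℕ), 1 ≤ bb → 0 < cc →
        Q (Real.log ((bb * cc : ℕ) : ℝ) / L) ≠ 0 → (cc : ℝ) ≤ Real.exp (θ * L) := by
      intro Q hQ bb cc hbb hcc hQne
      have h1 := (hQ.supp _ hQne).2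
      rw [div_le_iff₀ hL0] at h1
      have h2 : (0 : ℝ) < ((bb * cc : ℕ) : ℝ) := by
        exact_mod_cast Nat.mul_pos (by omega) hcc
      have h3 : ((bb * cc : ℕ) : ℝ) ≤ Real.exp (θ * L) := by
        rw [← Real.log_le_iff_le_exp h2]; exact h1
      have h4 : (cc : ℝ) ≤ ((bb * cc : ℕ) : ℝ) := by
        exact_mod_cast Nat.le_mul_of_pos_left cc (by omega)
      exact h4.trans h3
    have h1 := key Q1 hQ1 (b 2) c2 (hb 2) hc2 (left_ne_zero_of_mul hne)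
    have h2 := key Q2 hQ2 (b 3) c3 (hb 3) hc3 (right_ne_zero_of_mul hne)
    rw [hZdef]
    apply Nat.le_floor
    push_cast
    calc (c2 : ℝ) * c3 ≤ Real.exp (θ * L) * Real.exp (θ * L) :=
          mul_le_mul h1 h2 (by positivity) (by positivity)
      _ = Real.exp (2 * θ * L) := by rw [← Real.exp_add]; congr 1; ring
  -- the sum of VV
  have hVV : ∀ (k2 : ℕ), 1 ≤ k2 → ∀ (b : Fin 4 → ℕ), (∀ i, 1 ≤ b i) → ∀ K1 ≤ K0,
      ∑ k1 ∈ sqZ K1, (k1.natAbs : ℝ) ^ (-(1 / 2) : ℝ) * ‖VV q L w1 w2 Q1 Q2 k1 k2 b t‖ ≤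
        M * (((k2 * q).divisors.card : ℝ) ^ 2 * (C5 * (c1 * E))) := by
    intro k2 hk2 b hb K1 hK1
    set D := (k2 * q).divisors with hD
    set Ω := Icc 1 Y ×ˢ Icc 1 Y ×ˢ Icc 1 Y ×ˢ Icc 1 Y ×ˢ Icc 1 Y ×ˢ D ×ˢ D with hΩ
    let a : ℕ × ℕ × ℕ × ℕ × ℕ × ℕ × ℕ → ℝ := fun x =>
      (((Nat.lcm (Nat.lcm x.1 (x.2.2.2.1 ^ 2)) (Nat.lcm x.2.1 x.2.2.2.2.2.1) : ℕ) : ℝ) ^ (-(1 / 2) : ℝ) *
        ((Nat.lcm (Nat.lcm x.1 (x.2.2.2.2.1 ^ 2)) (Nat.lcm x.2.2.1 x.2.2.2.2.2.2) : ℕ) : ℝ) ^ (-(1 / 2) : ℝ))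
    let T : ℕ × ℕ × ℕ × ℕ × ℕ × ℕ × ℕ → ℤ → ℝ := fun x k1 =>
      (‖NS k1 t (b 0 * Nat.lcm (Nat.lcm x.1 (x.2.2.2.1 ^ 2)) (Nat.lcm x.2.1 x.2.2.2.2.2.1)) L w1‖ *
        ‖NS k1 t (b 1 * Nat.lcm (Nat.lcm x.1 (x.2.2.2.2.1 ^ 2)) (Nat.lcm x.2.2.1 x.2.2.2.2.2.2)) L w2‖ *
        ‖∑ l ∈ osf Z, (if Nat.lcm x.2.1 x.2.2.1 ∣ l then alc q L Q1 Q2 k2 (b 2) (b 3) t l else 0) *
          (js k1 l : ℂ)‖)
    have ha0 : ∀ x, 0 ≤ a x := fun x => by positivity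
    have hER3 : ∀ k1 ∈ sqZ K1, ‖VV q L w1 w2 Q1 Q2 k1 k2 b t‖ ≤ ∑ x ∈ Ω, a x * T x k1 := by
      intro k1 hk1
      have hsq : Squarefree k1.natAbs := by
        unfold sqZ at hk1
        exact (mem_filter.1 hk1).2.1
      refine (Pool.Agent.H913R2.RZ5ER3.ER3 q hq hq0 L hL w1 w2 Q1 Q2 hw1 hw2 hQ1' hQ2' k1 k2 Y hsq hk2 hYL b hb Z
        (hZc b hb) t).trans (le_of_eq ?_)
      rw [hΩ]
      simp only [sum_product]
      rfl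
    calc ∑ k1 ∈ sqZ K1, (k1.natAbs : ℝ) ^ (-(1 / 2) : ℝ) * ‖VV q L w1 w2 Q1 Q2 k1 k2 b t‖
        ≤ ∑ k1 ∈ sqZ K1, (k1.natAbs : ℝ) ^ (-(1 / 2) : ℝ) * ∑ x ∈ Ω, a x * T x k1 := by
          refine sum_le_sum fun k1 hk1 => mul_le_mul_of_nonneg_left (hER3 k1 hk1) (by positivity)
      _ = ∑ x ∈ Ω, a x * ∑ k1 ∈ sqZ K1, (k1.natAbs : ℝ) ^ (-(1 / 2) : ℝ) * T x k1 := by
          simp only [mul_sum]
          rw [sum_comm]
          refine sum_congr rfl fun x _ => sum_congr rfl fun k1 _ => ?_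
          ring
      _ ≤ ∑ x ∈ Ω, a x * (M * ((Nat.lcm x.2.1 x.2.2.1 : ℕ) : ℝ) ^ (-(1 / 2) : ℝ)) := by
          refine sum_le_sum fun x hx => mul_le_mul_of_nonneg_left ?_ (ha0 x)
          rw [hΩ] at hx
          simp only [mem_product, mem_Icc] at hx
          obtain ⟨⟨g1, _⟩, ⟨g01, _⟩, ⟨g11, _⟩, ⟨f01, _⟩, ⟨f11, _⟩, hd0, hd1⟩ := hx
          have hd0' : 1 ≤ x.2.2.2.2.2.1 := Nat.pos_of_mem_divisors hd0
          have hd1' : 1 ≤ x.2.2.2.2.2.2 := Nat.pos_of_mem_divisors hd1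
          refine hcore _ _ _ k2 (b 2) (b 3) K1 ?_ ?_ ?_ hK1
          · exact Nat.mul_pos (hb 0) (Nat.lcm_pos (Nat.lcm_pos g1 (by positivity)) (Nat.lcm_pos g01 hd0'))
          · exact Nat.mul_pos (hb 1) (Nat.lcm_pos (Nat.lcm_pos g1 (by positivity)) (Nat.lcm_pos g11 hd1'))
          · exact Nat.lcm_pos g01 g11
      _ ≤ ∑ x ∈ Ω, M * (((Nat.lcm (Nat.lcm x.1 (x.2.2.2.1 ^ 2)) x.2.1 : ℕ) : ℝ) ^ (-(1 / 2) : ℝ) *
            ((Nat.lcm (Nat.lcm x.1 (x.2.2.2.2.1 ^ 2)) x.2.2.1 : ℕ) : ℝ) ^ (-(1 / 2) : ℝ) *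
            ((Nat.lcm x.2.1 x.2.2.1 : ℕ) : ℝ) ^ (-(1 / 2) : ℝ)) := by
          refine sum_le_sum fun x hx => ?_
          rw [hΩ] at hx
          simp only [mem_product, mem_Icc] at hx
          obtain ⟨⟨g1, _⟩, ⟨g01, _⟩, ⟨g11, _⟩, ⟨f01, _⟩, ⟨f11, _⟩, hd0, hd1⟩ := hx
          have hd0' : 1 ≤ x.2.2.2.2.2.1 := Nat.pos_of_mem_divisors hd0
          have hd1' : 1 ≤ x.2.2.2.2.2.2 := Nat.pos_of_mem_divisors hd1
          have hle : ∀ (u g d : ℕ), 1 ≤ u → 1 ≤ g → 1 ≤ d →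
              ((Nat.lcm u (Nat.lcm g d) : ℕ) : ℝ) ^ (-(1 / 2) : ℝ) ≤
                ((Nat.lcm u g : ℕ) : ℝ) ^ (-(1 / 2) : ℝ) := by
            intro u g d hu hg hd
            have h1 : Nat.lcm u g ∣ Nat.lcm u (Nat.lcm g d) :=
              Nat.lcm_dvd (Nat.dvd_lcm_left _ _) ((Nat.dvd_lcm_left g d).trans (Nat.dvd_lcm_right _ _))
            have h2 : Nat.lcm u g ≤ Nat.lcm u (Nat.lcm g d) :=
              Nat.le_of_dvd (Nat.lcm_pos hu (Nat.lcm_pos hg hd)) h1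
            have h3 : 0 < Nat.lcm u g := Nat.lcm_pos hu hg
            exact Real.rpow_le_rpow_of_nonpos (by exact_mod_cast h3) (by exact_mod_cast h2)
              (by norm_num)
          have hA := hle (Nat.lcm x.1 (x.2.2.2.1 ^ 2)) x.2.1 x.2.2.2.2.2.1
            (Nat.lcm_pos g1 (by positivity)) g01 hd0'
          have hB := hle (Nat.lcm x.1 (x.2.2.2.2.1 ^ 2)) x.2.2.1 x.2.2.2.2.2.2
            (Nat.lcm_pos g1 (by positivity)) g11 hd1'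
          have hAB : a x ≤ ((Nat.lcm (Nat.lcm x.1 (x.2.2.2.1 ^ 2)) x.2.1 : ℕ) : ℝ) ^ (-(1 / 2) : ℝ) *
            ((Nat.lcm (Nat.lcm x.1 (x.2.2.2.2.1 ^ 2)) x.2.2.1 : ℕ) : ℝ) ^ (-(1 / 2) : ℝ) :=
            mul_le_mul hA hB (by positivity) (by positivity)
          calc a x * (M * ((Nat.lcm x.2.1 x.2.2.1 : ℕ) : ℝ) ^ (-(1 / 2) : ℝ))
              = M * (a x * ((Nat.lcm x.2.1 x.2.2.1 : ℕ) : ℝ) ^ (-(1 / 2) : ℝ)) := by ring
            _ ≤ _ := by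
              apply mul_le_mul_of_nonneg_left _ hM0
              exact mul_le_mul_of_nonneg_right hAB (by positivity)
      _ = M * ((D.card : ℝ) ^ 2 * ∑ g ∈ Icc 1 Y, ∑ g0 ∈ Icc 1 Y, ∑ g1 ∈ Icc 1 Y,
            ∑ f0 ∈ Icc 1 Y, ∑ f1 ∈ Icc 1 Y,
            ((Nat.lcm (Nat.lcm g (f0 ^ 2)) g0 : ℕ) : ℝ) ^ (-(1 / 2) : ℝ) *
              ((Nat.lcm (Nat.lcm g (f1 ^ 2)) g1 : ℕ) : ℝ) ^ (-(1 / 2) : ℝ) *
              ((Nat.lcm g0 g1 : ℕ) : ℝ) ^ (-(1 / 2) : ℝ)) := by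
          rw [hΩ]
          simp only [sum_product, sum_const, nsmul_eq_mul, mul_sum]
          refine sum_congr rfl fun g _ => sum_congr rfl fun g0 _ => sum_congr rfl fun g1 _ =>
            sum_congr rfl fun f0 _ => sum_congr rfl fun f1 _ => ?_
          have hDD : ((D ×ˢ D).card : ℝ) = (D.card : ℝ) ^ 2 := by
            rw [card_product]; push_cast; ring
          rw [hDD]
          ring
      _ ≤ M * ((D.card : ℝ) ^ 2 * (C5 * (c1 * E))) := by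
          apply mul_le_mul_of_nonneg_left _ hM0
          apply mul_le_mul_of_nonneg_left _ (by positivity)
          exact (hC5 Y hY1).trans (mul_le_mul_of_nonneg_left hYδ hC50.le)
  -- the sum for fixed k2
  have hk2 : ∀ k2 ∈ Icc 1 K0, ∑ k1 ∈ sqZ (K0 / k2 ^ 2),
      (((k1 * (k2 : ℤ) ^ 2).natAbs : ℝ) ^ (-(1 / 2) : ℝ) *
        ‖RR q L w1 w2 Q1 Q2 (k1 * (k2 : ℤ) ^ 2) t‖) ≤
      (1 / (k2 : ℝ)) * ((C4 * (P * (c1 * E))) * (M * ((Cd * (q : ℝ) ^ δ * P) ^ 2 * (C5 * (c1 * E))))) := by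
    intro k2 hk2
    obtain ⟨hk21, hk22⟩ := mem_Icc.1 hk2
    have hk2R : (1 : ℝ) ≤ k2 := by exact_mod_cast hk21
    have hk2δ : (k2 : ℝ) ^ δ ≤ P := Real.rpow_le_rpow (by positivity) (by exact_mod_cast hk22) hδ0.le
    have hK1 : K0 / k2 ^ 2 ≤ K0 := Nat.div_le_self _ _
    set G : ℝ := M * ((Cd * (q : ℝ) ^ δ * P) ^ 2 * (C5 * (c1 * E))) with hG
    have hD : ((k2 * q).divisors.card : ℝ) ≤ Cd * (q : ℝ) ^ δ * P := by
      refine (hCd (k2 * q) (Nat.mul_pos hk21 (Nat.pos_of_ne_zero hq0))).trans ?_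
      push_cast
      rw [Real.mul_rpow (by positivity) (by positivity)]
      calc Cd * ((k2 : ℝ) ^ δ * (q : ℝ) ^ δ) ≤ Cd * (P * (q : ℝ) ^ δ) := by gcongr
        _ = _ := by ring
    have hVG : ∀ b : Fin 4 → ℕ, (∀ i, 1 ≤ b i) →
        ∑ k1 ∈ sqZ (K0 / k2 ^ 2), (k1.natAbs : ℝ) ^ (-(1 / 2) : ℝ) *
          ‖VV q L w1 w2 Q1 Q2 k1 k2 b t‖ ≤ G := by
      intro b hb
      refine (hVV k2 hk21 b hb _ hK1).trans ?_
      rw [hG]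
      gcongr
    calc ∑ k1 ∈ sqZ (K0 / k2 ^ 2), (((k1 * (k2 : ℤ) ^ 2).natAbs : ℝ) ^ (-(1 / 2) : ℝ) *
          ‖RR q L w1 w2 Q1 Q2 (k1 * (k2 : ℤ) ^ 2) t‖)
        ≤ ∑ k1 ∈ sqZ (K0 / k2 ^ 2), (1 / (k2 : ℝ)) * ((k1.natAbs : ℝ) ^ (-(1 / 2) : ℝ) *
            ∑ b ∈ Fintype.piFinset (fun _ : Fin 4 => Icc 1 Y),
              ω k2 (∏ i, b i) * ‖VV q L w1 w2 Q1 Q2 k1 k2 b t‖) := by
          refine sum_le_sum fun k1 hk1 => ?_
          have hsq : Squarefree k1.natAbs := by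
            unfold sqZ at hk1
            exact (mem_filter.1 hk1).2.1
          have e1 : ((k1 * (k2 : ℤ) ^ 2).natAbs : ℝ) ^ (-(1 / 2) : ℝ) =
              (1 / (k2 : ℝ)) * (k1.natAbs : ℝ) ^ (-(1 / 2) : ℝ) := by
            rw [Int.natAbs_mul, Int.natAbs_pow, Int.natAbs_natCast]
            push_cast
            rw [Real.mul_rpow (by positivity) (by positivity), mul_comm]
            congr 1
            rw [← Real.rpow_natCast, ← Real.rpow_mul (by positivity)]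
            norm_num
            rw [Real.rpow_neg_one]
          rw [e1, mul_assoc]
          apply mul_le_mul_of_nonneg_left _ (by positivity)
          apply mul_le_mul_of_nonneg_left _ (by positivity)
          refine (Pool.Agent.H357R3.RZER2.ER2 q hq hq0 L hL w1 w2 Q1 Q2 hw1 hw2 hQ1' hQ2' k1 k2 Y hsq hk21 hYL t).trans ?_
          refine sum_le_sum fun b _ => ?_
          split_ifs with hcond
          · apply mul_le_mul_of_nonneg_right _ (norm_nonneg _)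
            exact hωG k1 k2 _ hsq hk21 hcond.1 hcond.2
          · exact mul_nonneg (hω0 _ _) (norm_nonneg _)
      _ = (1 / (k2 : ℝ)) * ∑ b ∈ Fintype.piFinset (fun _ : Fin 4 => Icc 1 Y),
            ω k2 (∏ i, b i) * ∑ k1 ∈ sqZ (K0 / k2 ^ 2), (k1.natAbs : ℝ) ^ (-(1 / 2) : ℝ) *
              ‖VV q L w1 w2 Q1 Q2 k1 k2 b t‖ := by
          rw [← mul_sum]
          congr 1
          simp only [mul_sum]
          rw [sum_comm]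
          refine sum_congr rfl fun b _ => sum_congr rfl fun k1 _ => ?_
          ring
      _ ≤ (1 / (k2 : ℝ)) * ∑ b ∈ Fintype.piFinset (fun _ : Fin 4 => Icc 1 Y),
            ω k2 (∏ i, b i) * G := by
          apply mul_le_mul_of_nonneg_left _ (by positivity)
          refine sum_le_sum fun b hb => mul_le_mul_of_nonneg_left (hVG b fun i => ?_) (hω0 _ _)
          exact (mem_Icc.1 (Fintype.mem_piFinset.1 hb i)).1
      _ = (1 / (k2 : ℝ)) * ((∑ b ∈ Fintype.piFinset (fun _ : Fin 4 => Icc 1 Y),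
            ω k2 (∏ i, b i)) * G) := by rw [sum_mul]
      _ ≤ (1 / (k2 : ℝ)) * ((C4 * (P * (c1 * E))) * G) := by
          apply mul_le_mul_of_nonneg_left _ (by positivity)
          apply mul_le_mul_of_nonneg_right _ (by positivity)
          refine (hω k2 Y hk21 hY1).trans ?_
          apply mul_le_mul_of_nonneg_left _ hC40.le
          rw [Real.mul_rpow (by positivity) (by positivity)]
          exact mul_le_mul hk2δ hYδ (by positivity) hP0.le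
  -- conclusion
  have hharm : ∑ k2 ∈ Icc 1 K0, (1 / (k2 : ℝ)) ≤ (1 + 1 / δ) * P := by
    have h1 := Pool.Agent.Helper112.harm_le K0 hK0
    have h2 : Real.log K0 ≤ P / δ := Real.log_le_rpow_div (by linarith) hδ0
    have hP1 : 1 ≤ P := Real.one_le_rpow hKR hδ0.le
    calc ∑ k2 ∈ Icc 1 K0, (1 / (k2 : ℝ)) ≤ 1 + Real.log K0 := h1
      _ ≤ P + P / δ := add_le_add hP1 h2
      _ = (1 + 1 / δ) * P := by ring
  have hP6 : P ^ 6 = (K0 : ℝ) ^ ε := by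
    rw [hP, ← Real.rpow_natCast, ← Real.rpow_mul (by positivity)]
    congr 1
    rw [hδdef]; push_cast; ring
  have hE6 : E ^ 6 = Real.exp (ε * L) := by
    rw [hE, ← Real.exp_nat_mul]
    congr 1
    rw [hδdef]; push_cast; ring
  calc ∑ k ∈ (Icc (-(K0 : ℤ)) K0).filter (fun k => ¬ IsSquare k),
          (k.natAbs : ℝ) ^ (-(1 / 2) : ℝ) * ‖RR q L w1 w2 Q1 Q2 k t‖
      ≤ ∑ k2 ∈ Icc 1 K0, ∑ k1 ∈ sqZ (K0 / k2 ^ 2),
          (((k1 * (k2 : ℤ) ^ 2).natAbs : ℝ) ^ (-(1 / 2) : ℝ) *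
            ‖RR q L w1 w2 Q1 Q2 (k1 * (k2 : ℤ) ^ 2) t‖) :=
        EY_nonsquare K0 (fun k => (k.natAbs : ℝ) ^ (-(1 / 2) : ℝ) * ‖RR q L w1 w2 Q1 Q2 k t‖)
          (fun k => by positivity)
    _ ≤ ∑ k2 ∈ Icc 1 K0, (1 / (k2 : ℝ)) * ((C4 * (P * (c1 * E))) *
          (M * ((Cd * (q : ℝ) ^ δ * P) ^ 2 * (C5 * (c1 * E))))) := sum_le_sum hk2
    _ = (∑ k2 ∈ Icc 1 K0, (1 / (k2 : ℝ))) * ((C4 * (P * (c1 * E))) *
          (M * ((Cd * (q : ℝ) ^ δ * P) ^ 2 * (C5 * (c1 * E))))) := by rw [sum_mul]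
    _ ≤ ((1 + 1 / δ) * P) * ((C4 * (P * (c1 * E))) *
          (M * ((Cd * (q : ℝ) ^ δ * P) ^ 2 * (C5 * (c1 * E))))) :=
        mul_le_mul_of_nonneg_right hharm (by positivity)
    _ = cJ * (2 * c1 * CT * Real.sqrt C6) * Cd ^ 2 * (C5 * c1) * (C4 * c1) *
          (1 + 1 / δ) * ((q : ℝ) ^ δ) ^ 2 * (1 + |t|) ^ A * B1 * B2 * B3 * B4 * P ^ 6 * E ^ 6 * X := by
        rw [hM, hm, hBt]
        ring
    _ = cJ * (2 * c1 * CT * Real.sqrt C6) * Cd ^ 2 * (C5 * c1) * (C4 * c1) *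
          (1 + 1 / δ) * ((q : ℝ) ^ δ) ^ 2 * (1 + |t|) ^ A * B1 * B2 * B3 * B4 * (K0 : ℝ) ^ ε *
            Real.exp (ε * L) * X := by rw [hP6, hE6]
    _ ≤ _ := by
        gcongr

end

end Pool.Agent.N782.EYu
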