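import Pool.Agent.H423R2.RGL.K.H180R1_RG_EZG
import Pool.Agent.N782.EYu
import Pool.Agent.N782.ERGu

set_option autoImplicit false

/-! N782 (helper782): the non-squares, uniform in the dual parameter and in the modulus
(adapted from `H180R1.RG_EZG`). -/

namespace Pool.Agent.N782.EZGu

open Finset Filter Topology MeasureTheory Pool.Agent.H306R2.RZ Pool.Agent.H306R2.RG
open Pool.Agent.H423R2.RZL (TRI0)
open Pool.Agent.H180R1.RG (EZ_Bd_mono EZ_Bd_nonneg EZ_integrable EZ_sum_int)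

noncomputable section

/-- the non-squares, uniform (`σ = 0`) -/
theorem EZGu (F : ℝ → ℝ) (hF : TF F) (c : ℝ) (hc : 0 < c) (s θ : ℝ) (hA : Adm2 s θ)
    (κ : ℝ) (hκ : 0 < κ) (hκ1 : κ ≤ 1) :
    ∃ (C : ℝ) (A : ℕ), 0 < C ∧ ∀ (b : ℤ → ℝ), (∀ k, |b k| ≤ 1) → ∀ (c0 : ℝ), c0 ≠ 0 →
      ∀ (q : ℕ), Even q → q ≠ 0 → ∀ L : ℝ, 1 ≤ L → Real.exp (-(4 * L)) ≤ |c0| → |c0| ≤ 1 →
      (q : ℝ) ≤ Real.exp (4 * L) →
      ∀ (w1 w2 Q1 Q2 : ℝ → ℝ) (B1 B2 B3 B4 : ℝ),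
      Wt s w1 → Wt s w2 → Wt θ Q1 → Wt θ Q2 → Bd A w1 B1 → Bd A w2 B2 → Bd A Q1 B3 → Bd A Q2 B4 →
      |∑' a : Fin 4 → ℕ, t4c q a * w4 L w1 w2 Q1 Q2 a * Dng F b c0 (c * Real.exp L) (∏ i, a i)| ≤
        C * (B1 * B2 * B3 * B4) * Real.exp (κ * L) *
          (|c0|⁻¹ * Real.exp ((s + θ - 1) * L) +
            |c0| ^ (-(1 / 2) : ℝ) * Real.exp ((θ - 1 / 2) * L)) := by
  have hs := hA.hs
  have hθ := hA.hθ
  have hθ1 := hA.hθ1
  have hm := hA.main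
  have hs1 : s < 1 := by linarith
  set ε : ℝ := κ / 32 with hε
  have hε0 : 0 < ε := by positivity
  obtain ⟨C2, A2, hC2, hEY⟩ := Pool.Agent.N782.EYu.EYu 0 le_rfl TRI0 ε hε0
  obtain ⟨C1, hC1, hER1⟩ := Pool.Agent.N782.ERGu.ERGu F hF c hc s θ κ 9 hs hs1 hθ (by linarith)
    hκ (A2 + 2) (by omega)
  set J : ℝ := ∫ t : ℝ, ((1 + |t|) ^ 2)⁻¹ with hJ
  have hJ0 : 0 ≤ J := integral_nonneg fun t => by positivity
  refine ⟨C1 + C1 * (C2 * 4 * J), A2 + 1, by positivity, ?_⟩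
  intro b hb c0 hc0 q hq hq0 L hL hcL hc1 hqL w1 w2 Q1 Q2 B1 B2 B3 B4 hw1 hw2 hQ1 hQ2 hB1 hB2 hB3
    hB4
  have b1 := EZ_Bd_nonneg hB1
  have b2 := EZ_Bd_nonneg hB2
  have b3 := EZ_Bd_nonneg hB3
  have b4 := EZ_Bd_nonneg hB4
  have hL0 : 0 ≤ L := by linarith
  have hc0' : 0 < |c0| := abs_pos.2 hc0
  have Wmono : ∀ w : ℝ → ℝ, Wt s w → Wt 1 w := fun w hw =>
    ⟨hw.smooth, fun y hy => ⟨(hw.supp y hy).1, (hw.supp y hy).2.trans hs1.le⟩⟩
  set K : ℝ := Real.exp ((2 * s + 2 * θ - 1 + κ) * L) / |c0| with hK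
  set K0 : ℕ := ⌈K⌉₊ with hK0
  have hKge : K ≤ K0 := Nat.le_ceil K
  have hK1 : 1 ≤ K := by
    rw [hK, one_le_div hc0']
    refine hc1.trans ?_
    rw [Real.one_le_exp_iff]
    apply mul_nonneg (by linarith) hL0
  have hK01 : 1 ≤ K0 := by
    have : (1 : ℝ) ≤ K0 := hK1.trans hKge
    exact_mod_cast this
  have hKle : (K0 : ℝ) ≤ 2 * K := by
    have := Nat.ceil_lt_add_one (a := K) (by linarith)
    rw [← hK0] at this
    linarith
  have hmain := hER1 b hb c0 hc0 q L hL w1 w2 Q1 Q2 B1 B2 B3 B4 K0 hw1 hw2 hQ1 hQ2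
    (EZ_Bd_mono (by omega) hB1) (EZ_Bd_mono (by omega) hB2) (EZ_Bd_mono (by omega) hB3)
    (EZ_Bd_mono (by omega) hB4) hKge
  set B : ℝ := B1 * B2 * B3 * B4 with hB
  have hB0 : 0 ≤ B := by positivity
  set M : ℝ := C2 * (q : ℝ) ^ ε * B * (K0 : ℝ) ^ ε * Real.exp (ε * L) *
          ((K0 : ℝ) ^ (1 / 2 : ℝ) * Real.exp (2 * θ * 0 * L) + Real.exp (θ * L)) with hM
  have hsum : ∑ k ∈ (Icc (-(K0 : ℤ)) K0).filter (fun k => ¬ IsSquare k),
          (k.natAbs : ℝ) ^ (-(1 / 2) : ℝ) *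
            ∫ t : ℝ, ((1 + |t|) ^ (A2 + 2))⁻¹ * ‖RR q L w1 w2 Q1 Q2 k t‖ ≤ M * J := by
    have e : M * J = ∫ t : ℝ, M * ((1 + |t|) ^ 2)⁻¹ := by rw [integral_const_mul]
    rw [e]
    apply EZ_sum_int
    · intro k; positivity
    · intro k t; positivity
    · exact EZ_integrable.const_mul _
    · intro t
      have hk := hEY q hq hq0 θ L t w1 w2 Q1 Q2 B1 B2 B3 B4 K0 hθ (by linarith) hL hK01 (Wmono _ hw1)
        (Wmono _ hw2) hQ1 hQ2 (EZ_Bd_mono (by omega) hB1) (EZ_Bd_mono (by omega) hB2)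
        (EZ_Bd_mono (by omega) hB3) (EZ_Bd_mono (by omega) hB4)
      have hp : 0 < 1 + |t| := by positivity
      calc ∑ k ∈ (Icc (-(K0 : ℤ)) K0).filter (fun k => ¬ IsSquare k),
            (k.natAbs : ℝ) ^ (-(1 / 2) : ℝ) *
              (((1 + |t|) ^ (A2 + 2))⁻¹ * ‖RR q L w1 w2 Q1 Q2 k t‖)
          = ((1 + |t|) ^ (A2 + 2))⁻¹ * ∑ k ∈ (Icc (-(K0 : ℤ)) K0).filter (fun k => ¬ IsSquare k),
            (k.natAbs : ℝ) ^ (-(1 / 2) : ℝ) * ‖RR q L w1 w2 Q1 Q2 k t‖ := by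
            rw [Finset.mul_sum]
            refine Finset.sum_congr rfl fun k _ => ?_
            ring
        _ ≤ ((1 + |t|) ^ (A2 + 2))⁻¹ * (C2 * (q : ℝ) ^ ε * (1 + |t|) ^ A2 * B1 * B2 * B3 * B4 *
            (K0 : ℝ) ^ ε * Real.exp (ε * L) *
            ((K0 : ℝ) ^ (1 / 2 : ℝ) * Real.exp (2 * θ * 0 * L) + Real.exp (θ * L))) := by
            gcongr
        _ = M * ((1 + |t|) ^ 2)⁻¹ := by
            rw [hM, hB, pow_add]
            field_simp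
  have hK0pos : (0 : ℝ) < K0 := by exact_mod_cast hK01
  have hKpos : 0 < K := by linarith
  have hqpos : (0 : ℝ) < q := by exact_mod_cast Nat.pos_of_ne_zero hq0
  have hci : |c0|⁻¹ ≤ Real.exp (4 * L) := by
    have := inv_anti₀ (Real.exp_pos _) hcL
    rwa [Real.exp_neg, inv_inv] at this
  have hr1 : K ^ (1 / 2 : ℝ) = Real.exp ((s + θ - 1 / 2 + κ / 2) * L) * |c0| ^ (-(1 / 2) : ℝ) := by
    rw [hK, Real.div_rpow (Real.exp_pos _).le hc0'.le, ← Real.exp_mul, Real.rpow_neg hc0'.le,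
      div_eq_mul_inv]
    congr 2
    ring
  have two_pow : ∀ x : ℝ, x ≤ 1 → (2 : ℝ) ^ x ≤ 2 := by
    intro x hx
    calc (2 : ℝ) ^ x ≤ (2 : ℝ) ^ (1 : ℝ) := Real.rpow_le_rpow_of_exponent_le (by norm_num) hx
      _ = 2 := Real.rpow_one 2
  have r1 : (K0 : ℝ) ^ (1 / 2 : ℝ) ≤ 2 * (Real.exp ((s + θ - 1 / 2 + κ / 2) * L) *
      |c0| ^ (-(1 / 2) : ℝ)) := by
    calc (K0 : ℝ) ^ (1 / 2 : ℝ) ≤ (2 * K) ^ (1 / 2 : ℝ) := by gcongr
      _ = (2 : ℝ) ^ (1 / 2 : ℝ) * K ^ (1 / 2 : ℝ) := by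
          rw [Real.mul_rpow (by norm_num) hKpos.le]
      _ ≤ 2 * K ^ (1 / 2 : ℝ) := by
          gcongr
          exact two_pow _ (by norm_num)
      _ = _ := by rw [hr1]
  have hKexp : K ≤ Real.exp (8 * L) := by
    calc K = Real.exp ((2 * s + 2 * θ - 1 + κ) * L) * |c0|⁻¹ := by rw [hK, div_eq_mul_inv]
      _ ≤ Real.exp (4 * L) * Real.exp (4 * L) := by
          gcongr
          linarith
      _ = Real.exp (8 * L) := by rw [← Real.exp_add]; congr 1; ring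
  have r2 : (K0 : ℝ) ^ ε ≤ 2 * Real.exp (8 * L * ε) := by
    calc (K0 : ℝ) ^ ε ≤ (2 * K) ^ ε := by gcongr
      _ = (2 : ℝ) ^ ε * K ^ ε := by
          rw [Real.mul_rpow (by norm_num) hKpos.le]
      _ ≤ 2 * (Real.exp (8 * L)) ^ ε := by
          gcongr
          exact two_pow _ (by rw [hε]; linarith)
      _ = _ := by rw [← Real.exp_mul]
  have r2q : (q : ℝ) ^ ε ≤ Real.exp (4 * L * ε) := by
    calc (q : ℝ) ^ ε ≤ (Real.exp (4 * L)) ^ ε := by gcongr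
      _ = _ := by rw [← Real.exp_mul]
  set P : ℝ := |c0| ^ (-(1 / 2) : ℝ) with hP
  have hP0 : 0 < P := by positivity
  have hPP : P * P = |c0|⁻¹ := by
    rw [hP, ← Real.rpow_add hc0', ← Real.rpow_neg_one]
    norm_num
  -- exponents
  have r3 : Real.exp (-(L / 2)) * ((q : ℝ) ^ ε * (K0 : ℝ) ^ ε * Real.exp (ε * L) *
      ((K0 : ℝ) ^ (1 / 2 : ℝ) * Real.exp (2 * θ * 0 * L) + Real.exp (θ * L))) ≤
      4 * Real.exp (κ * L) * (P * Real.exp ((s + θ - 1) * L) + Real.exp ((θ - 1 / 2) * L)) := by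
    have hz : Real.exp (2 * θ * 0 * L) = 1 := by
      rw [mul_zero, zero_mul, Real.exp_zero]
    rw [hz, mul_one]
    calc Real.exp (-(L / 2)) * ((q : ℝ) ^ ε * (K0 : ℝ) ^ ε * Real.exp (ε * L) *
          ((K0 : ℝ) ^ (1 / 2 : ℝ) + Real.exp (θ * L)))
        ≤ Real.exp (-(L / 2)) * (Real.exp (4 * L * ε) * (2 * Real.exp (8 * L * ε)) *
          Real.exp (ε * L) * (2 * (Real.exp ((s + θ - 1 / 2 + κ / 2) * L) * P) +
            Real.exp (θ * L))) := by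
          gcongr
      _ = 2 * Real.exp (13 * ε * L) * (2 * P * Real.exp (-(L / 2) + (s + θ - 1 / 2 + κ / 2) * L) +
            Real.exp (-(L / 2) + θ * L)) := by
          have e1 : Real.exp (13 * ε * L) = Real.exp (4 * L * ε) * Real.exp (8 * L * ε) *
              Real.exp (ε * L) := by
            rw [← Real.exp_add, ← Real.exp_add]; congr 1; ring
          rw [e1, Real.exp_add (-(L / 2)), Real.exp_add (-(L / 2))]
          ring
      _ = 2 * Real.exp (13 * ε * L) * (2 * P * (Real.exp (κ / 2 * L) *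
            Real.exp ((s + θ - 1) * L)) + Real.exp ((θ - 1 / 2) * L)) := by
          have e2 : -(L / 2) + (s + θ - 1 / 2 + κ / 2) * L = κ / 2 * L + (s + θ - 1) * L := by ring
          have e3 : -(L / 2) + θ * L = (θ - 1 / 2) * L := by ring
          rw [e2, e3, Real.exp_add]
      _ ≤ 2 * Real.exp (κ / 2 * L) * (2 * P * (Real.exp (κ / 2 * L) *
            Real.exp ((s + θ - 1) * L)) + 2 * (Real.exp (κ / 2 * L) *
            Real.exp ((θ - 1 / 2) * L))) := by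
          have h1 : (1 : ℝ) ≤ Real.exp (κ / 2 * L) := Real.one_le_exp (by positivity)
          have h2 : Real.exp ((θ - 1 / 2) * L) ≤ 2 * (Real.exp (κ / 2 * L) *
            Real.exp ((θ - 1 / 2) * L)) := by
            have h3 := Real.exp_pos ((θ - 1 / 2) * L)
            nlinarith
          have h4 : 13 * ε ≤ κ / 2 := by rw [hε]; linarith
          gcongr
      _ = 4 * (Real.exp (κ / 2 * L) * Real.exp (κ / 2 * L)) * (P * Real.exp ((s + θ - 1) * L) +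
            Real.exp ((θ - 1 / 2) * L)) := by ring
      _ = _ := by
          have e4 : κ / 2 * L + κ / 2 * L = κ * L := by ring
          rw [← Real.exp_add, e4]
  have r4 : (|c0| ^ 2)⁻¹ * Real.exp (-(9 * L)) ≤ Real.exp (κ * L) *
      (|c0|⁻¹ * Real.exp ((s + θ - 1) * L) + P * Real.exp ((θ - 1 / 2) * L)) := by
    have h1 : (|c0| ^ 2)⁻¹ ≤ |c0|⁻¹ * Real.exp (4 * L) := by
      rw [sq, mul_inv]
      gcongr
    have h2 : (1 : ℝ) ≤ Real.exp (κ * L) := Real.one_le_exp (by positivity)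
    calc (|c0| ^ 2)⁻¹ * Real.exp (-(9 * L)) ≤ |c0|⁻¹ * Real.exp (4 * L) * Real.exp (-(9 * L)) := by
          gcongr
      _ = |c0|⁻¹ * Real.exp (4 * L + -(9 * L)) := by rw [Real.exp_add]; ring
      _ ≤ |c0|⁻¹ * Real.exp ((s + θ - 1) * L) := by
          gcongr
          nlinarith
      _ ≤ 1 * (|c0|⁻¹ * Real.exp ((s + θ - 1) * L) + P * Real.exp ((θ - 1 / 2) * L)) := by
          rw [one_mul]
          have : 0 ≤ P * Real.exp ((θ - 1 / 2) * L) := by positivity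
          linarith
      _ ≤ _ := by
          gcongr
  calc _ ≤ _ := hmain
    _ ≤ C1 * (|c0| ^ 2)⁻¹ * B1 * B2 * B3 * B4 * Real.exp (-(9 * L)) +
        C1 * P * Real.exp (-(L / 2)) * (M * J) := by
        gcongr
    _ = C1 * B * ((|c0| ^ 2)⁻¹ * Real.exp (-(9 * L))) +
        C1 * P * (C2 * J) * B * (Real.exp (-(L / 2)) * ((q : ℝ) ^ ε * (K0 : ℝ) ^ ε *
          Real.exp (ε * L) *
          ((K0 : ℝ) ^ (1 / 2 : ℝ) * Real.exp (2 * θ * 0 * L) + Real.exp (θ * L)))) := by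
        rw [hM, hB]; ring
    _ ≤ C1 * B * (Real.exp (κ * L) *
      (|c0|⁻¹ * Real.exp ((s + θ - 1) * L) + P * Real.exp ((θ - 1 / 2) * L))) +
        C1 * P * (C2 * J) * B * (4 * Real.exp (κ * L) * (P * Real.exp ((s + θ - 1) * L) +
          Real.exp ((θ - 1 / 2) * L))) := by
        gcongr
    _ = _ := by
        rw [← hPP]
        ring

end

end Pool.Agent.N782.EZGu
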