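import Pool.Agent.H423R2.RGL.K.H699R2_RG_DEC
import Pool.Agent.H423R2.RGL.K.H957R2_RG_PGa

set_option autoImplicit false

/-! Poisson summation for the multiples of an odd squarefree number (helper782). -/

namespace Pool.Agent.N782.FE

open Finset Filter Topology MeasureTheory Pool.Agent.H306R2.RZ Pool.Agent.H306R2.RG
open Pool.Agent.H306R2.RG.LnkA (bb8 PG8 PH8)

noncomputable section

/-- the odd multiples of `e` -/
def Fe (ε : ℤ) (e : ℕ) : FD := { F8 ε with A := fun d => Odd d ∧ e ∣ d }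

/-- the coefficients on the dual side -/
def be (e : ℕ) (k : ℤ) : ℝ := if (e : ℤ) ∣ k then bb8 k else 0

theorem be_abs (e : ℕ) (k : ℤ) : |be e k| ≤ 1 := by
  unfold be
  split_ifs
  · exact Pool.Agent.H699R2.RG_DEC.abs_bb8 k
  · simp

theorem bb8_mul {e : ℕ} (he : Odd e) (k : ℤ) : bb8 ((e : ℤ) * k) = bb8 k := by
  unfold bb8
  rw [Int.natAbs_mul, Int.natAbs_natCast, pow_mul, he.neg_one_pow]

theorem be_mul {e : ℕ} (he : Odd e) (k : ℤ) : be e ((e : ℤ) * k) = bb8 k := by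
  unfold be
  rw [if_pos (dvd_mul_right _ _), bb8_mul he]

theorem EAe_eq (ε : ℤ) {e : ℕ} (he : Odd e) (F : ℝ → ℝ) {X : ℝ} (hX : 0 < X) (f : ℕ → ℝ) :
    (e : ℝ) * EAg (Fe ε e) F X f = EAg (F8 ε) F (X / e) (fun d => f (e * d)) := by
  classical
  have he0 : e ≠ 0 := by rintro rfl; exact absurd he (by decide)
  have heR : (0 : ℝ) < e := by exact_mod_cast Nat.pos_of_ne_zero he0
  unfold EAg
  have hinj : Function.Injective (fun d : ℕ => e * d) := fun a b h =>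
    Nat.eq_of_mul_eq_mul_left (Nat.pos_of_ne_zero he0) h
  have h1 : (∑' d : ℕ, if (Fe ε e).A d then F ((d : ℝ) / X) * f d else 0) =
      ∑' d : ℕ, if (F8 ε).A d then F ((d : ℝ) / (X / e)) * f (e * d) else 0 := by
    have h2 := Function.Injective.tsum_eq (f := fun d : ℕ =>
      if (Fe ε e).A d then F ((d : ℝ) / X) * f d else 0) hinj (by
        intro d hd
        rw [Function.mem_support] at hd
        have hA : (Fe ε e).A d := by
          by_contra hc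
          exact hd (by simp only [if_neg hc])
        obtain ⟨k, hk⟩ := hA.2
        exact ⟨k, hk.symm⟩)
    rw [← h2]
    refine tsum_congr fun d => ?_
    have hA : (Fe ε e).A (e * d) ↔ (F8 ε).A d := by
      constructor
      · intro h
        exact (Nat.odd_mul.1 h.1).2
      · intro h
        exact ⟨he.mul h, dvd_mul_right _ _⟩
    have hx : (((e * d : ℕ)) : ℝ) / X = (d : ℝ) / (X / e) := by
      push_cast
      field_simp
    by_cases h : (F8 ε).A d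
    · rw [if_pos h, if_pos (hA.2 h), hx]
    · rw [if_neg h, if_neg (fun h' => h (hA.1 h'))]
  rw [h1]
  field_simp

theorem EAg_const_mul (φ : FD) (F : ℝ → ℝ) (X x : ℝ) (f : ℕ → ℝ) :
    EAg φ F X (fun d => x * f d) = x * EAg φ F X f := by
  classical
  unfold EAg
  rw [← mul_div_assoc, ← tsum_mul_left]
  congr 1
  refine tsum_congr fun d => ?_
  split_ifs
  · ring
  · ring

theorem EAe_js (ε : ℤ) {e : ℕ} (he : Odd e) (F : ℝ → ℝ) {X : ℝ} (hX : 0 < X) (n : ℕ) :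
    (e : ℝ) * EAg (Fe ε e) F X (fun d => js ((Fe ε e).e * (d : ℤ)) n) =
      js e n * EAg (F8 ε) F (X / e) (fun d => js ((F8 ε).e * (d : ℤ)) n) := by
  rw [EAe_eq ε he F hX, ← EAg_const_mul]
  congr 1
  funext d
  have h1 : (Fe ε e).e = (F8 ε).e := rfl
  rw [h1, ← Pool.Agent.H903R2.RGPG8.js_mul]
  congr 1
  push_cast
  ring

theorem gcd_cast {n e : ℕ} (h : Nat.Coprime n e) : Int.gcd (e : ℤ) n = 1 := by
  rw [Int.gcd_natCast_natCast]
  exact h.symm

theorem Gk_sq_mul {n : ℕ} (hn : n ≠ 0) {e : ℕ} (h : Nat.Coprime n e) (k : ℤ) :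
    Gk ((e : ℤ) ^ 2 * k) n = Gk k n := by
  have h1 := gcd_cast h
  rw [pow_two, mul_assoc, Pool.Agent.H957R2.RGPG.Gk_mul hn _ _ h1,
    Pool.Agent.H957R2.RGPG.Gk_mul hn _ _ h1, ← mul_assoc]
  have hsq : js (e : ℤ) n * js (e : ℤ) n = 1 := by
    have h := jacobiSym.sq_one (a := (e : ℤ)) (b := n) h1
    unfold js
    rw [← Int.cast_mul, ← pow_two, h, Int.cast_one]
  rw [hsq, one_mul]

theorem js_sq_one {n e : ℕ} (h : Nat.Coprime n e) : js (e : ℤ) n * js (e : ℤ) n = 1 := by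
  have h1 := gcd_cast h
  have h := jacobiSym.sq_one (a := (e : ℤ)) (b := n) h1
  unfold js
  rw [← Int.cast_mul, ← pow_two, h, Int.cast_one]

/-- Poisson summation, the sum over the multiples -/
theorem PGe (ε : ℤ) (hε : ε = 1 ∨ ε = -1) (F : ℝ → ℝ) (hF : TF F) {e : ℕ} (he : Odd e) (X : ℝ)
    (hX : 0 < X) (n : ℕ) (hn : Odd n) (hc : Nat.Coprime n e) :
    Summable (fun k : ℤ => be e k * Gk k n * Ft F ((ε : ℝ) / (2 * (e : ℝ) ^ 2) * k * X / n)) ∧
    (e : ℝ) * EAg (Fe ε e) F X (fun d => js ((Fe ε e).e * (d : ℤ)) n) =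
      1 / 2 * ((∑' k : ℤ, be e k * Gk k n *
        Ft F ((ε : ℝ) / (2 * (e : ℝ) ^ 2) * k * X / n)) / n) := by
  have hn0 : n ≠ 0 := by rintro rfl; exact absurd hn (by decide)
  have he0 : e ≠ 0 := by rintro rfl; exact absurd he (by decide)
  have heR : (0 : ℝ) < e := by exact_mod_cast Nat.pos_of_ne_zero he0
  have heZ : (e : ℤ) ≠ 0 := by exact_mod_cast he0
  obtain ⟨hs, hE⟩ := PG8 ε hε F hF (X / e) (by positivity) n hn
  have hinj : Function.Injective (fun k : ℤ => (e : ℤ) * k) := fun a b h =>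
    mul_left_cancel₀ heZ h
  have hterm : ∀ k : ℤ, be e ((e : ℤ) * k) * Gk ((e : ℤ) * k) n *
      Ft F ((ε : ℝ) / (2 * (e : ℝ) ^ 2) * (((e : ℤ) * k : ℤ) : ℝ) * X / n) =
      js e n * (bb8 k * Gk k n * Ft F ((ε : ℝ) / 2 * k * (X / e) / n)) := by
    intro k
    rw [be_mul he, Pool.Agent.H957R2.RGPG.Gk_mul hn0 _ _ (gcd_cast hc)]
    have : (ε : ℝ) / (2 * (e : ℝ) ^ 2) * (((e : ℤ) * k : ℤ) : ℝ) * X / n =
        (ε : ℝ) / 2 * k * (X / e) / n := by
      push_cast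
      field_simp
    rw [this]
    ring
  have hsup : Function.support (fun k : ℤ => be e k * Gk k n *
      Ft F ((ε : ℝ) / (2 * (e : ℝ) ^ 2) * k * X / n)) ⊆ Set.range (fun k : ℤ => (e : ℤ) * k) := by
    intro k hk
    rw [Function.mem_support] at hk
    by_contra hcon
    apply hk
    unfold be
    rw [if_neg, zero_mul, zero_mul]
    rintro ⟨m, hm⟩
    exact hcon ⟨m, hm.symm⟩
  refine ⟨?_, ?_⟩
  · have h1 : Summable ((fun k : ℤ => be e k * Gk k n *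
        Ft F ((ε : ℝ) / (2 * (e : ℝ) ^ 2) * k * X / n)) ∘ (fun k : ℤ => (e : ℤ) * k)) := by
      refine (hs.mul_left (js e n)).congr fun k => ?_
      exact (hterm k).symm
    refine (hinj.summable_iff ?_).1 h1
    intro k hk
    by_contra h
    exact hk (hsup h)
  · rw [EAe_js ε he F hX, hE]
    have h2 := hinj.tsum_eq hsup
    rw [← h2]
    have h3 : (∑' k : ℤ, be e ((e : ℤ) * k) * Gk ((e : ℤ) * k) n *
      Ft F ((ε : ℝ) / (2 * (e : ℝ) ^ 2) * (((e : ℤ) * k : ℤ) : ℝ) * X / n)) =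
      js e n * ∑' k : ℤ, (bb8 k * Gk k n * Ft F ((ε : ℝ) / 2 * k * (X / e) / n)) := by
      rw [← tsum_mul_left]
      exact tsum_congr hterm
    rw [h3]
    ring

theorem dvd_sq_iff {e : ℕ} (hs : Squarefree e) (k : ℕ) : ((e : ℤ) ∣ ((k : ℤ)) ^ 2) ↔ e ∣ k := by
  have h1 : ((e : ℤ) ∣ ((k : ℤ)) ^ 2) ↔ e ∣ k ^ 2 := by
    rw [← Int.natCast_dvd_natCast]
    push_cast
    rfl
  rw [h1]
  exact hs.dvd_pow_iff_dvd two_ne_zero

/-- the decomposition -/
theorem DECe (ε : ℤ) (hε : ε = 1 ∨ ε = -1) (F : ℝ → ℝ) (hF : TF F) : ∃ H : ℂ → ℂ,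
    HP H (-(1 / 4 * Ft F 0)) ∧ ∀ e : ℕ, Odd e → Squarefree e → ∀ X : ℝ, 0 < X → ∀ n : ℕ, Odd n →
      Nat.Coprime n e → ∀ σ0 : ℝ, 1 / 2 < σ0 → σ0 ≤ 1 →
      (((e : ℝ) * EAg (Fe ε e) F X (fun d => js ((Fe ε e).e * (d : ℤ)) n) : ℝ) : ℂ) =
        ((1 / 2 * Ft F 0 * (if IsSquare n then (n.totient : ℝ) / n else 0) : ℝ) : ℂ) +
        Dsg H X n σ0 + ((1 / 2 * Dng F (be e) ((ε : ℝ) / (2 * (e : ℝ) ^ 2)) X n : ℝ) : ℂ) := by
  obtain ⟨H, hH, hH2⟩ := PH8 ε hε F hF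
  refine ⟨H, hH, ?_⟩
  intro e he hsq X hX n hn hc σ0 h0 h1
  have hn0 : n ≠ 0 := by rintro rfl; exact absurd hn (by decide)
  have he0 : e ≠ 0 := by rintro rfl; exact absurd he (by decide)
  have hepos : 0 < e := Nat.pos_of_ne_zero he0
  have heR : (0 : ℝ) < e := by exact_mod_cast hepos
  obtain ⟨hs, hE⟩ := PGe ε hε F hF he X hX n hn hc
  have hbe0 : be e 0 = 1 := by
    unfold be
    rw [if_pos (dvd_zero _)]
    exact Pool.Agent.H699R2.RG_DEC.bb8_zero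
  -- the squares
  have hsqs : (∑' j : ℕ, be e (((j : ℤ) + 1) ^ 2) * Gk (((j : ℤ) + 1) ^ 2) n *
        Ft F ((ε : ℝ) / (2 * (e : ℝ) ^ 2) * ((j : ℝ) + 1) ^ 2 * X / n)) =
      ∑' j : ℕ, bb8 (((j : ℤ) + 1) ^ 2) * Gk (((j : ℤ) + 1) ^ 2) n *
        Ft F ((ε : ℝ) / 2 * ((j : ℝ) + 1) ^ 2 * X / n) := by
    have hinj : Function.Injective (fun i : ℕ => e * (i + 1) - 1) := by
      intro a b h
      have h1 : e * (a + 1) - 1 = e * (b + 1) - 1 := h
      have h2 : 1 ≤ e * (a + 1) := Nat.mul_pos hepos (Nat.succ_pos _)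
      have h3 : 1 ≤ e * (b + 1) := Nat.mul_pos hepos (Nat.succ_pos _)
      have h4 : e * (a + 1) = e * (b + 1) := by omega
      have := Nat.eq_of_mul_eq_mul_left hepos h4
      omega
    have h2 := hinj.tsum_eq (f := fun j : ℕ => be e (((j : ℤ) + 1) ^ 2) *
        Gk (((j : ℤ) + 1) ^ 2) n * Ft F ((ε : ℝ) / (2 * (e : ℝ) ^ 2) * ((j : ℝ) + 1) ^ 2 * X / n)) (by
      intro j hj
      rw [Function.mem_support] at hj
      have hd : (e : ℤ) ∣ ((j : ℤ) + 1) ^ 2 := by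
        by_contra hcon
        apply hj
        unfold be
        rw [if_neg hcon, zero_mul, zero_mul]
      have hd2 : e ∣ (j + 1) := by
        refine (dvd_sq_iff hsq (j + 1)).1 ?_
        push_cast
        exact hd
      obtain ⟨m, hm⟩ := hd2
      have hm0 : m ≠ 0 := by rintro rfl; omega
      obtain ⟨i, rfl⟩ := Nat.exists_eq_succ_of_ne_zero hm0
      refine ⟨i, ?_⟩
      show e * (i + 1) - 1 = j
      have : e * (i + 1) = j + 1 := by rw [hm]
      omega)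
    rw [← h2]
    refine tsum_congr fun i => ?_
    have h3 : 1 ≤ e * (i + 1) := Nat.mul_pos hepos (Nat.succ_pos _)
    have h4 : (((e * (i + 1) - 1 : ℕ)) : ℤ) + 1 = (e : ℤ) * ((i : ℤ) + 1) := by
      rw [Nat.cast_sub h3]
      push_cast
      ring
    have h5 : (((e * (i + 1) - 1 : ℕ)) : ℝ) + 1 = (e : ℝ) * ((i : ℝ) + 1) := by
      rw [Nat.cast_sub h3]
      push_cast
      ring
    simp only [h4, h5]
    have h6 : ((e : ℤ) * ((i : ℤ) + 1)) ^ 2 = (e : ℤ) * ((e : ℤ) * ((i : ℤ) + 1) ^ 2) := by ring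
    have h7 : ((e : ℤ) * ((i : ℤ) + 1)) ^ 2 = (e : ℤ) ^ 2 * ((i : ℤ) + 1) ^ 2 := by ring
    have h8 : be e (((e : ℤ) * ((i : ℤ) + 1)) ^ 2) = bb8 (((i : ℤ) + 1) ^ 2) := by
      rw [h6, be_mul he, bb8_mul he]
    rw [h8, h7, Gk_sq_mul hn0 hc]
    congr 2
    field_simp
  rw [hE, Pool.Agent.H699R2.RG_DEC.gen_split F (be e) _ X n hn hs, hbe0, hsqs,
    ← hH2 X hX n hn σ0 h0 h1]
  push_cast
  ring

/-- the average vanishes when the modulus is not coprime to `e` -/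
theorem js_zero {e n : ℕ} (hn : n ≠ 0) (hc : ¬ Nat.Coprime n e) {d : ℕ} (hd : e ∣ d) (u : ℤ) :
    js (u * (d : ℤ)) n = 0 := by
  have : NeZero n := ⟨hn⟩
  have h2 : jacobiSym (u * (d : ℤ)) n = 0 := by
    rw [jacobiSym.eq_zero_iff_not_coprime]
    intro h
    apply hc
    have h3 : Nat.gcd n e ∣ Int.gcd (u * (d : ℤ)) n := by
      rw [Int.gcd_def, Int.natAbs_mul, Int.natAbs_natCast, Int.natAbs_natCast]
      exact Nat.dvd_gcd (((Nat.gcd_dvd_right n e).trans hd).mul_left _) (Nat.gcd_dvd_left n e)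
    rw [h] at h3
    exact Nat.eq_one_of_dvd_one h3
  unfold js
  rw [h2, Int.cast_zero]

end

end Pool.Agent.N782.FE
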