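import Pool.Agent.N782.SWc
import Pool.Agent.N782.FEe
import Pool.Agent.H935R2.RG_X1G

set_option autoImplicit false

/-! The weighted average over the family (helper782). -/

namespace Pool.Agent.N782.FW

open Finset Filter Topology MeasureTheory Pool.Agent.N782.LX Pool.Agent.N782.EW Pool.Agent.N782.KW
open Pool.Agent.H306R2.RZ Pool.Agent.H306R2.RG Pool.Agent.N782.FE

noncomputable section

/-- sieve coefficients -/
def lam (P : ℝ → ℝ) (L : ℝ) (a : ℕ) : ℝ :=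
  ((ArithmeticFunction.moebius a : ℤ) : ℝ) * P (Real.log a / L)

/-- the sieve weight -/
def Wd (P : ℝ → ℝ) (L : ℝ) (d : ℕ) : ℝ := (∑ a ∈ d.divisors, lam P L a) ^ 2

/-- the weighted average -/
def EWt (ε : ℤ) (P : ℝ → ℝ) (L : ℝ) (F : ℝ → ℝ) (X : ℝ) (f : ℕ → ℝ) : ℝ :=
  EAg (F8 ε) F X (fun d => Wd P L d * f d)

theorem EAg_congr (φ : FD) (F : ℝ → ℝ) (X : ℝ) {f g : ℕ → ℝ} (h : ∀ d, φ.A d → f d = g d) :
    EAg φ F X f = EAg φ F X g := by
  classical
  unfold EAg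
  congr 1
  refine tsum_congr fun d => ?_
  split_ifs with h1
  · rw [h d h1]
  · rfl

theorem Wd_expand {s : ℝ} {P : ℝ → ℝ} (hP : Wt s P) {L : ℝ} (hL : 0 < L) {d : ℕ} (hd : d ≠ 0) :
    Wd P L d = ∑ a ∈ bx s L, (lam P L (a 0) * lam P L (a 1)) *
      (if a 0 ∣ d ∧ a 1 ∣ d then 1 else 0) := by
  classical
  set N := ⌊Real.exp (s * L)⌋₊ + 1 with hN
  have h1 : ∑ a ∈ d.divisors, lam P L a = ∑ a ∈ range N, (if a ∣ d then lam P L a else 0) := by
    rw [← Finset.sum_filter]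
    have h2 : ∑ a ∈ (range N).filter (fun a => a ∣ d), lam P L a =
        ∑ a ∈ d.divisors, lam P L a := by
      apply Finset.sum_subset
      · intro a ha
        rw [mem_filter] at ha
        exact Nat.mem_divisors.2 ⟨ha.2, hd⟩
      · intro a ha hna
        have h3 : N ≤ a := by
          by_contra hlt
          exact hna (mem_filter.2 ⟨mem_range.2 (not_le.1 hlt), Nat.dvd_of_mem_divisors ha⟩)
        unfold lam
        rw [P_zero hP hL h3, mul_zero]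
    exact h2.symm
  unfold Wd
  rw [h1]
  have h4 : (∑ a ∈ range N, (if a ∣ d then lam P L a else 0)) ^ 2 =
      ∏ _i : Fin 2, ∑ a ∈ range N, (if a ∣ d then lam P L a else 0) := by
    rw [Finset.prod_const, Finset.card_univ, Fintype.card_fin]
  rw [h4, prod_univ_sum]
  unfold bx
  refine sum_congr rfl fun a _ => ?_
  rw [Fin.prod_univ_two]
  by_cases h5 : a 0 ∣ d
  · by_cases h6 : a 1 ∣ d
    · simp [h5, h6]
    · simp [h6]
  · simp [h5]

theorem EWt_eq (ε : ℤ) {s : ℝ} {P : ℝ → ℝ} (hP : Wt s P) {L : ℝ} (hL : 0 < L) {F : ℝ → ℝ}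
    (hF : TF F) {X : ℝ} (hX : 0 < X) (f : ℕ → ℝ) :
    ((EWt ε P L F X f : ℝ) : ℂ) =
      SW P L (fun e => (((e : ℝ) * EAg (Fe ε e) F X f : ℝ) : ℂ)) := by
  classical
  have hA : (F8 ε).A = fun d => Odd d := rfl
  have h1 : EWt ε P L F X f = EAg (F8 ε) F X (fun d => ∑ a ∈ bx s L,
      (lam P L (a 0) * lam P L (a 1)) * ((if a 0 ∣ d ∧ a 1 ∣ d then f d else 0))) := by
    unfold EWt
    refine EAg_congr _ F X fun d hd => ?_
    have hd1 : Odd d := hd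
    have hd0 : d ≠ 0 := by rintro rfl; exact absurd hd1 (by decide)
    rw [Wd_expand hP hL hd0, sum_mul]
    refine sum_congr rfl fun a _ => ?_
    split_ifs
    · ring
    · ring
  rw [h1, Pool.Agent.H935R2.RGX1.ef_sum (F8 ε) hF hX (bx s L)
    (fun a => lam P L (a 0) * lam P L (a 1))
    (fun a d => (if a 0 ∣ d ∧ a 1 ∣ d then f d else 0)), SW_sum hP hL]
  push_cast
  refine sum_congr rfl fun a _ => ?_
  by_cases hz : a 0 = 0 ∨ a 1 = 0
  · have hl : lam P L (a 0) * lam P L (a 1) = 0 := by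
      rcases hz with h | h
      · rw [h]; unfold lam; simp
      · rw [h]; unfold lam; simp
    have hc : co a = 0 := by
      unfold co
      rw [if_neg]
      rintro ⟨⟨h2, h3⟩, -⟩
      rcases hz with h | h
      · exact h2 h
      · exact h3 h
    rw [hc]
    have hl' : (lam P L (a 0) : ℂ) * (lam P L (a 1) : ℂ) = 0 := by
      rw [← Complex.ofReal_mul, hl, Complex.ofReal_zero]
    rw [hl']
    simp
  push Not at hz
  by_cases ho : Odd (a 0) ∧ Odd (a 1)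
  · have hlcm : Nat.lcm (a 0) (a 1) ≠ 0 := Nat.lcm_ne_zero hz.1 hz.2
    have hlcmR : ((Nat.lcm (a 0) (a 1) : ℕ) : ℝ) ≠ 0 := by exact_mod_cast hlcm
    have hE : EAg (F8 ε) F X (fun d => (if a 0 ∣ d ∧ a 1 ∣ d then f d else 0)) =
        EAg (Fe ε (Nat.lcm (a 0) (a 1))) F X f := by
      unfold EAg
      congr 1
      refine tsum_congr fun d => ?_
      have hAe : (Fe ε (Nat.lcm (a 0) (a 1))).A d ↔ ((F8 ε).A d ∧ (a 0 ∣ d ∧ a 1 ∣ d)) := by
        show (Odd d ∧ Nat.lcm (a 0) (a 1) ∣ d) ↔ _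
        rw [Nat.lcm_dvd_iff]
        exact Iff.rfl
      simp only
      by_cases h2 : (F8 ε).A d
      · by_cases h3 : a 0 ∣ d ∧ a 1 ∣ d
        · rw [if_pos h2, if_pos h3, if_pos (hAe.2 ⟨h2, h3⟩)]
        · rw [if_pos h2, if_neg h3, if_neg (fun h => h3 (hAe.1 h).2), mul_zero]
      · rw [if_neg h2, if_neg (fun h => h2 (hAe.1 h).1)]
    have hE' : (EAg (F8 ε) F X (fun d => (if a 0 ∣ d ∧ a 1 ∣ d then f d else 0)) : ℝ) =
        EAg (Fe ε (Nat.lcm (a 0) (a 1))) F X f := hE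
    rw [hE']
    have hc : co a = ((ArithmeticFunction.moebius (a 0) : ℤ) : ℝ) *
        ((ArithmeticFunction.moebius (a 1) : ℤ) : ℝ) / (Nat.lcm (a 0) (a 1) : ℕ) := by
      unfold co
      rw [if_pos ⟨hz, ho⟩]
    rw [hc, Fin.prod_univ_two]
    unfold lam
    push_cast
    have hlcmC : ((Nat.lcm (a 0) (a 1) : ℕ) : ℂ) ≠ 0 := by exact_mod_cast hlcm
    field_simp
  · have hc : co a = 0 := by
      unfold co
      rw [if_neg]
      rintro ⟨-, h2⟩
      exact ho h2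
    have hE : EAg (F8 ε) F X (fun d => (if a 0 ∣ d ∧ a 1 ∣ d then f d else 0)) = 0 := by
      unfold EAg
      have : (∑' d : ℕ, if (F8 ε).A d then F ((d : ℝ) / X) *
          (if a 0 ∣ d ∧ a 1 ∣ d then f d else 0) else 0) = ∑' d : ℕ, (0 : ℝ) := by
        refine tsum_congr fun d => ?_
        by_cases h2 : (F8 ε).A d
        · have h3 : Odd d := h2
          have h4 : ¬ (a 0 ∣ d ∧ a 1 ∣ d) := by
            rintro ⟨h5, h6⟩
            exact ho ⟨h3.of_dvd_nat h5, h3.of_dvd_nat h6⟩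
          rw [if_pos h2, if_neg h4, mul_zero]
        · rw [if_neg h2]
      rw [this, tsum_zero, zero_div]
    rw [hE, hc]
    simp

/-! ### the modulus `2e` -/

theorem jo_zero (ε : ℤ) {e d n : ℕ} (hn : Nat.Coprime n 2) (hc : ¬ Nat.Coprime n (2 * e))
    (hd : e ∣ d) : jo (F8 ε) d n = 0 := by
  have hn0 : n ≠ 0 := by rintro rfl; exact absurd hn (by decide)
  unfold jo
  split_ifs with ho
  · refine js_zero (e := e) hn0 ?_ hd _
    intro h
    exact hc (Nat.Coprime.mul_right hn h)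
  · rfl

theorem Nd_2e (ε : ℤ) {e d : ℕ} (hd : e ∣ d) (L : ℝ) (w : ℝ → ℝ) :
    Ndg (F8 ε) 2 L w d = Ndg (F8 ε) (2 * e) L w d := by
  unfold Ndg
  refine tsum_congr fun n => ?_
  by_cases h1 : Nat.Coprime n (2 * e)
  · rw [if_pos h1, if_pos (Nat.Coprime.coprime_mul_right_right h1)]
  · rw [if_neg h1]
    by_cases h2 : Nat.Coprime n 2
    · rw [if_pos h2, jo_zero ε h2 h1 hd]
      simp
    · rw [if_neg h2]

theorem Md_2e (ε : ℤ) {e d : ℕ} (hd : e ∣ d) (L : ℝ) (w : ℝ → ℝ) :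
    Mdg (F8 ε) 2 L w d = Mdg (F8 ε) (2 * e) L w d := by
  unfold Mdg
  refine tsum_congr fun n => ?_
  by_cases h1 : Nat.Coprime n (2 * e)
  · rw [if_pos h1, if_pos (Nat.Coprime.coprime_mul_right_right h1)]
  · rw [if_neg h1]
    by_cases h2 : Nat.Coprime n 2
    · rw [if_pos h2, jo_zero ε h2 h1 hd]
      simp
    · rw [if_neg h2]

theorem TT_2e (ε : ℤ) (e : ℕ) (F : ℝ → ℝ) (X L : ℝ) (w1 Q1 w2 Q2 : ℝ → ℝ) :
    EAg (Fe ε e) F X (fun d => Ndg (F8 ε) 2 L w1 d * Mdg (F8 ε) 2 L Q1 d *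
      (Ndg (F8 ε) 2 L w2 d * Mdg (F8 ε) 2 L Q2 d)) =
    TTg (Fe ε e) F X (2 * e) L w1 Q1 w2 Q2 := by
  unfold TTg
  refine EAg_congr _ F X fun d hd => ?_
  have h1 : e ∣ d := hd.2
  rw [Nd_2e ε h1, Nd_2e ε h1, Md_2e ε h1, Md_2e ε h1]
  rfl

theorem TO_2e (ε : ℤ) (e : ℕ) (F : ℝ → ℝ) (X L : ℝ) (w Q : ℝ → ℝ) :
    EAg (Fe ε e) F X (fun d => Ndg (F8 ε) 2 L w d * Mdg (F8 ε) 2 L Q d) =
    TOg (Fe ε e) F X (2 * e) L w Q := by
  unfold TOg
  refine EAg_congr _ F X fun d hd => ?_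
  have h1 : e ∣ d := hd.2
  rw [Nd_2e ε h1, Md_2e ε h1]
  rfl

end

end Pool.Agent.N782.FW
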