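import Pool.Agent.N782.MW2
import Pool.Agent.H357R4.RG_MT2dG

set_option autoImplicit false

/-! Weighted kernel of the doubly approximated term (helper782). -/

namespace Pool.Agent.N782.KV

open Finset Filter Topology MeasureTheory Pool.Agent.N782.LX Pool.Agent.N782.EW Pool.Agent.N782.KW
open Pool.Agent.H306R2.RZ Pool.Agent.H306R2.RG Pool.Agent.H930R3.RZID
open Pool.Agent.H130R2.RZ2 (zz zz_re zz_im zz_cont add_le_mul sub_le_mul ne_zero_of_re)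
open Pool.Agent.H357R3.RZMT2d (M5st M5sst ID2dst line_re dd5_cont dd5_bound dd5_lim fhc zq_cont cc
  wts wts2 fh_le fub inner w2int)
open Pool.Agent.H357R4.RGMT2dG (G G_cont G_bound G_lim D D_cont D_bound int_g repr)
open Pool.Agent.H486R4.RZM5 (ap ap_bound ap_tendsto q_bound norm_pw norm_inv_le zhas key)

noncomputable section

theorem ap_two_mul {e : ℕ} (he : Odd e) (s : ℂ) (z : Fin 2 → ℂ) (p : Nat.Primes) :
    ap (2 * e) s z p = if (p : ℕ) ∣ e then ap 0 s z p else ap 2 s z p := by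
  have h := dvd_two_mul he p
  unfold ap
  by_cases h1 : (p : ℕ) ∣ e
  · rw [if_pos (h.2 (Or.inr h1)), if_pos (dvd_zero _), if_pos h1]
  · rw [if_neg h1]
    by_cases h2 : (p : ℕ) ∣ 2
    · rw [if_pos (h.2 (Or.inl h2)), if_pos h2]
    · rw [if_neg (fun h' => (h.1 h').elim h2 h1), if_neg h2]

theorem ap0_bound (s : ℂ) (z : Fin 2 → ℂ) (hs : 0 < s.re)
    (hz : ∀ i, s.re < (z i).re) (p : ℕ) (hp : p.Prime) :
    ‖ap 0 s z p - 1‖ ≤ 480 / (p : ℝ) := by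
  have hz0 : ∀ i, 0 < (z i).re := fun i => lt_trans hs (hz i)
  have hzs : ∀ i, 0 < (z i - s).re := fun i => by rw [Complex.sub_re]; linarith [hz i]
  have hx := norm_inv_le hp
  have hxn : ‖1 / (p : ℂ)‖ = 1 / (p : ℝ) := by
    rw [norm_div, norm_one, Complex.norm_natCast]
  unfold ap
  rw [if_pos (dvd_zero _)]
  refine le_trans (q_bound (norm_pw hp (hz0 0)) (norm_pw hp (hz0 1)) (norm_pw hp hs)
      (norm_pw hp (hzs 0)) (norm_pw hp (hzs 1)) hx) ?_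
  rw [hxn]
  exact le_of_eq (by ring)

/-- the Euler product -/
theorem DD5_prod (q : ℕ) (hq0 : q ≠ 0) (s : ℂ) (z : Fin 2 → ℂ) (hs : 0 < s.re)
    (hz : ∀ i, s.re < (z i).re) : Zq q s * DD5 q s z =
      riemannZeta (1 + 2 * s) * riemannZeta (1 + (z 0 + z 1)) *
      (riemannZeta (1 + (z 0 - s)))⁻¹ * (riemannZeta (1 + (z 1 - s)))⁻¹ *
      (riemannZeta (1 + (z 0 + s)))⁻¹ * (riemannZeta (1 + (z 1 + s)))⁻¹ *
      (∏' p : Nat.Primes, ap q s z p) := by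
  have hz0 : ∀ i, 0 < (z i).re := fun i => lt_trans hs (hz i)
  have hM := Pool.Agent.H648R2.RZM5.M5e q s hs z hz
  have hZ := zhas q hq0 s hs
  have hE := Pool.Agent.H83R2.RZ.EPg (fun _ p => ap q s z p) (fun p => ap q s z p) (1280 + 480 * (q : ℝ))
    (fun _ p => ap_bound q hq0 s z hs hz p p.2) (fun p => tendsto_const_nhds)
  have hA : HasProd (fun p : Nat.Primes => ap q s z p) (∏' p : Nat.Primes, ap q s z p) :=
    (hE.2.2.1).hasProd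
  have r1 : 1 < (1 + 2 * s).re := by
    simp only [Complex.add_re, Complex.one_re, Complex.mul_re, Complex.re_ofNat, Complex.im_ofNat]
    linarith
  have r2 : 1 < (1 + (z 0 + z 1)).re := by
    simp only [Complex.add_re, Complex.one_re]; linarith [hz0 0, hz0 1]
  have r3 : 1 < (1 + (z 0 - s)).re := by
    simp only [Complex.add_re, Complex.one_re, Complex.sub_re]; linarith [hz 0]
  have r4 : 1 < (1 + (z 1 - s)).re := by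
    simp only [Complex.add_re, Complex.one_re, Complex.sub_re]; linarith [hz 1]
  have r5 : 1 < (1 + (z 0 + s)).re := by
    simp only [Complex.add_re, Complex.one_re]; linarith [hz0 0]
  have r6 : 1 < (1 + (z 1 + s)).re := by
    simp only [Complex.add_re, Complex.one_re]; linarith [hz0 1]
  have hL := (hZ.mul hM).mul ((((riemannZeta_eulerProduct_hasProd r3).mul
    (riemannZeta_eulerProduct_hasProd r4)).mul (riemannZeta_eulerProduct_hasProd r5)).mul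
    (riemannZeta_eulerProduct_hasProd r6))
  have hR := hA.mul ((riemannZeta_eulerProduct_hasProd r1).mul
    (riemannZeta_eulerProduct_hasProd r2))
  have hfun : (fun p : Nat.Primes => (zl q s p * lf5 q s z p) *
      ((1 - ((p : ℕ) : ℂ) ^ (-(1 + (z 0 - s))))⁻¹ *
    (1 - ((p : ℕ) : ℂ) ^ (-(1 + (z 1 - s))))⁻¹ * (1 - ((p : ℕ) : ℂ) ^ (-(1 + (z 0 + s))))⁻¹ *
    (1 - ((p : ℕ) : ℂ) ^ (-(1 + (z 1 + s))))⁻¹)) =
    (fun p : Nat.Primes => ap q s z p *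
      ((1 - ((p : ℕ) : ℂ) ^ (-(1 + 2 * s)))⁻¹ * (1 - ((p : ℕ) : ℂ) ^ (-(1 + (z 0 + z 1))))⁻¹)) := by
    funext p
    exact key q s z hs hz p p.2
  have hval : Zq q s * DD5 q s z * (riemannZeta (1 + (z 0 - s)) * riemannZeta (1 + (z 1 - s)) *
      riemannZeta (1 + (z 0 + s)) * riemannZeta (1 + (z 1 + s))) =
      (∏' p : Nat.Primes, ap q s z p) * (riemannZeta (1 + 2 * s) *
        riemannZeta (1 + (z 0 + z 1))) := by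
    refine HasProd.unique (f := fun p : Nat.Primes => (zl q s p * lf5 q s z p) *
      ((1 - ((p : ℕ) : ℂ) ^ (-(1 + (z 0 - s))))⁻¹ *
    (1 - ((p : ℕ) : ℂ) ^ (-(1 + (z 1 - s))))⁻¹ * (1 - ((p : ℕ) : ℂ) ^ (-(1 + (z 0 + s))))⁻¹ *
    (1 - ((p : ℕ) : ℂ) ^ (-(1 + (z 1 + s))))⁻¹)) hL ?_
    rw [hfun]
    exact hR
  have n3 := riemannZeta_ne_zero_of_one_lt_re r3
  have n4 := riemannZeta_ne_zero_of_one_lt_re r4
  have n5 := riemannZeta_ne_zero_of_one_lt_re r5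
  have n6 := riemannZeta_ne_zero_of_one_lt_re r6
  rw [← eq_div_iff (mul_ne_zero (mul_ne_zero (mul_ne_zero n3 n4) n5) n6)] at hval
  rw [hval]
  field_simp

/-- the local factors -/
def A5 (L : ℝ) (τ : Fin 3 → ℝ) (p : Nat.Primes) : ℂ :=
  ap 2 (zz 1 (τ 0) / (L : ℂ)) (fun i : Fin 2 => zz 2 (τ i.succ) / (L : ℂ)) p

def B5 (L : ℝ) (τ : Fin 3 → ℝ) (p : Nat.Primes) : ℂ :=
  ap 0 (zz 1 (τ 0) / (L : ℂ)) (fun i : Fin 2 => zz 2 (τ i.succ) / (L : ℂ)) p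

/-- the zeta functions -/
def ZZ5 (L : ℝ) (τ : Fin 3 → ℝ) : ℂ :=
  riemannZeta (1 + (2 * zz 1 (τ 0)) / (L : ℂ)) *
    riemannZeta (1 + (zz 2 (τ 1) + zz 2 (τ 2)) / (L : ℂ)) *
    (riemannZeta (1 + (zz 2 (τ 1) - zz 1 (τ 0)) / (L : ℂ)))⁻¹ *
    (riemannZeta (1 + (zz 2 (τ 2) - zz 1 (τ 0)) / (L : ℂ)))⁻¹ *
    (riemannZeta (1 + (zz 2 (τ 1) + zz 1 (τ 0)) / (L : ℂ)))⁻¹ *
    (riemannZeta (1 + (zz 2 (τ 2) + zz 1 (τ 0)) / (L : ℂ)))⁻¹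

theorem reS (L : ℝ) (hL : 0 < L) (τ : Fin 3 → ℝ) : 0 < (zz 1 (τ 0) / (L : ℂ)).re := by
  rw [Complex.div_ofReal_re, zz_re]; positivity

theorem reZ (L : ℝ) (hL : 0 < L) (τ : Fin 3 → ℝ) (i : Fin 2) :
    (zz 1 (τ 0) / (L : ℂ)).re < (zz 2 (τ i.succ) / (L : ℂ)).re := by
  rw [Complex.div_ofReal_re, Complex.div_ofReal_re, zz_re, zz_re]
  exact div_lt_div_of_pos_right (by norm_num) hL

theorem D5_fac {e : ℕ} (he : Odd e) (hs : Squarefree e) (L : ℝ) (hL : 0 < L) (τ : Fin 3 → ℝ) :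
    Zq (2 * e) (zz 1 (τ 0) / (L : ℂ)) * DD5 (2 * e) (zz 1 (τ 0) / (L : ℂ))
      (fun i : Fin 2 => zz 2 (τ i.succ) / (L : ℂ)) =
      ZZ5 L τ * Vn (A5 L τ) (B5 L τ) e := by
  have h2e : 2 * e ≠ 0 := Nat.mul_ne_zero two_ne_zero hs.ne_zero
  have h1 := DD5_prod (2 * e) h2e _ _ (reS L hL τ) (reZ L hL τ)
  have h5 : Vn (A5 L τ) (B5 L τ) e = (∏' p : Nat.Primes,
      ap (2 * e) (zz 1 (τ 0) / (L : ℂ)) (fun i : Fin 2 => zz 2 (τ i.succ) / (L : ℂ)) p) := by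
    unfold Vn A5 B5
    refine tprod_congr fun p => ?_
    rw [ap_two_mul he]
  rw [h5, h1]
  unfold ZZ5
  simp only [add_div, sub_div, mul_div_assoc]
  have e5 : (Fin.succ (0 : Fin 2)) = (1 : Fin 3) := rfl
  have e6 : (Fin.succ (1 : Fin 2)) = (2 : Fin 3) := rfl
  rw [e5, e6]

theorem ZZ5_bound : ∃ C : ℝ, 0 ≤ C ∧ ∀ L : ℝ, 1 ≤ L → ∀ τ : Fin 3 → ℝ,
    ‖(L : ℂ) ^ 2 * ZZ5 L τ‖ ≤ C * ∏ i, (1 + |τ i|) ^ 8 := by
  obtain ⟨⟨C4, hC4, hz4⟩, -⟩ := Pool.Agent.H727R2.RZMZ.MZ 4 four_pos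
  obtain ⟨⟨C3, hC3, hz3⟩, -⟩ := Pool.Agent.H727R2.RZMZ.MZ 3 three_pos
  obtain ⟨⟨C2, hC2, hz2⟩, -⟩ := Pool.Agent.H727R2.RZMZ.MZ 2 two_pos
  obtain ⟨⟨C1, hC1, hz1⟩, -⟩ := Pool.Agent.H727R2.RZMZ.MZ 1 one_pos
  refine ⟨C2 * C4 * (C1 ^ 2 * C3 ^ 2), by positivity, fun L hL τ => ?_⟩
  have hL0 : 0 < L := by linarith
  have e0 : ∀ t : ℝ, (2 * zz 1 t).re = 2 := fun t => by simp [zz]
  have e1 : ∀ t u : ℝ, (zz 2 t + zz 2 u).re = 4 := fun t u => by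
    rw [Complex.add_re, zz_re, zz_re]; norm_num
  have e3 : ∀ t u : ℝ, (zz 2 t - zz 1 u).re = 1 := fun t u => by
    rw [Complex.sub_re, zz_re, zz_re]; norm_num
  have e4 : ∀ t u : ℝ, (zz 2 t - zz 1 u).im = t - u := fun t u => by
    rw [Complex.sub_im, zz_im, zz_im]
  have e5 : ∀ t u : ℝ, (zz 2 t + zz 1 u).re = 3 := fun t u => by
    rw [Complex.add_re, zz_re, zz_re]; norm_num
  have e6 : ∀ t u : ℝ, (zz 2 t + zz 1 u).im = t + u := fun t u => by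
    rw [Complex.add_im, zz_im, zz_im]
  have b1 : ∀ t u : ℝ, ‖(riemannZeta (1 + (zz 2 t - zz 1 u) / (L : ℂ)))⁻¹‖ ≤
      C1 * ((1 + |t|) ^ 2 * (1 + |u|) ^ 2) / L := by
    intro t u
    refine ((hz1 L _ hL (e3 t u)).2).trans ?_
    rw [e4, ← mul_pow]
    gcongr
    exact sub_le_mul t u
  have b3 : ∀ t u : ℝ, ‖(riemannZeta (1 + (zz 2 t + zz 1 u) / (L : ℂ)))⁻¹‖ ≤
      C3 * ((1 + |t|) ^ 2 * (1 + |u|) ^ 2) / L := by
    intro t u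
    refine ((hz3 L _ hL (e5 t u)).2).trans ?_
    rw [e6, ← mul_pow]
    gcongr
    exact add_le_mul t u
  have b2 : ∀ t u : ℝ, ‖riemannZeta (1 + (zz 2 t + zz 2 u) / (L : ℂ))‖ ≤ C4 * L :=
    fun t u => (hz4 L _ hL (e1 t u)).1
  have b0 : ∀ t : ℝ, ‖riemannZeta (1 + (2 * zz 1 t) / (L : ℂ))‖ ≤ C2 * L :=
    fun t => (hz2 L _ hL (e0 t)).1
  unfold ZZ5
  simp only [norm_mul, norm_pow]
  rw [Complex.norm_real, Real.norm_eq_abs, abs_of_pos hL0]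
  have m : ∀ x : ℝ, (1 + |x|) ^ 4 ≤ (1 + |x|) ^ 8 := fun x =>
      pow_le_pow_right₀ (by linarith [abs_nonneg x]) (by norm_num)
  calc _ ≤ L ^ 2 * ((C2 * L) * (C4 * L) *
        (C1 * ((1 + |τ 1|) ^ 2 * (1 + |τ 0|) ^ 2) / L) *
        (C1 * ((1 + |τ 2|) ^ 2 * (1 + |τ 0|) ^ 2) / L) *
        (C3 * ((1 + |τ 1|) ^ 2 * (1 + |τ 0|) ^ 2) / L) *
        (C3 * ((1 + |τ 2|) ^ 2 * (1 + |τ 0|) ^ 2) / L)) := by
        gcongr
        · exact b0 _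
        · exact b2 _ _
        · exact b1 _ _
        · exact b1 _ _
        · exact b3 _ _
        · exact b3 _ _
    _ = C2 * C4 * (C1 ^ 2 * C3 ^ 2) * ((1 + |τ 0|) ^ 8 * (1 + |τ 1|) ^ 4 * (1 + |τ 2|) ^ 4) := by
        field_simp
    _ ≤ C2 * C4 * (C1 ^ 2 * C3 ^ 2) * ((1 + |τ 0|) ^ 8 * (1 + |τ 1|) ^ 8 * (1 + |τ 2|) ^ 8) := by
        have := m (τ 1)
        have := m (τ 2)
        gcongr
    _ = C2 * C4 * (C1 ^ 2 * C3 ^ 2) * ∏ i, (1 + |τ i|) ^ 8 := by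
        rw [Fin.prod_univ_three]

theorem ZZ5_lim (τ : Fin 3 → ℝ) :
    Tendsto (fun L : ℝ => (L : ℂ) ^ 2 * ZZ5 L τ) atTop
      (𝓝 (1 / (2 * zz 1 (τ 0)) * (1 / (zz 2 (τ 1) + zz 2 (τ 2))) *
        (zz 2 (τ 1) - zz 1 (τ 0)) * (zz 2 (τ 2) - zz 1 (τ 0)) *
        (zz 2 (τ 1) + zz 1 (τ 0)) * (zz 2 (τ 2) + zz 1 (τ 0)))) := by
  obtain ⟨-, hz⟩ := Pool.Agent.H727R2.RZMZ.MZ 2 two_pos
  have e0 : ∀ t : ℝ, 0 < (2 * zz 1 t).re := fun t => by simp [zz]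
  have e1 : ∀ t u : ℝ, 0 < (zz 2 t + zz 2 u).re := fun t u => by
    rw [Complex.add_re, zz_re, zz_re]; norm_num
  have e3 : ∀ t u : ℝ, 0 < (zz 2 t - zz 1 u).re := fun t u => by
    rw [Complex.sub_re, zz_re, zz_re]; norm_num
  have e5 : ∀ t u : ℝ, 0 < (zz 2 t + zz 1 u).re := fun t u => by
    rw [Complex.add_re, zz_re, zz_re]; norm_num
  have l1 : ∀ t u : ℝ, Tendsto (fun L : ℝ => (riemannZeta (1 + (zz 2 t + zz 1 u) / (L : ℂ)) / (L : ℂ))⁻¹)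
      atTop (𝓝 (1 / (zz 2 t + zz 1 u))⁻¹) := fun t u =>
    (hz _ (e5 t u)).inv₀ (one_div_ne_zero (ne_zero_of_re (e5 t u)))
  have l1' : ∀ t u : ℝ, Tendsto (fun L : ℝ => (riemannZeta (1 + (zz 2 t - zz 1 u) / (L : ℂ)) / (L : ℂ))⁻¹)
      atTop (𝓝 (1 / (zz 2 t - zz 1 u))⁻¹) := fun t u =>
    (hz _ (e3 t u)).inv₀ (one_div_ne_zero (ne_zero_of_re (e3 t u)))
  have l2 : ∀ t u : ℝ, Tendsto (fun L : ℝ => riemannZeta (1 + (zz 2 t + zz 2 u) / (L : ℂ)) / (L : ℂ))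
      atTop (𝓝 (1 / (zz 2 t + zz 2 u))) := fun t u => hz _ (e1 t u)
  have l3 : ∀ t : ℝ, Tendsto (fun L : ℝ => riemannZeta (1 + (2 * zz 1 t) / (L : ℂ)) / (L : ℂ))
      atTop (𝓝 (1 / (2 * zz 1 t))) := fun t => hz _ (e0 t)
  have key := (((((l3 (τ 0)).mul (l2 (τ 1) (τ 2))).mul (l1' (τ 1) (τ 0))).mul
    (l1' (τ 2) (τ 0))).mul (l1 (τ 1) (τ 0))).mul (l1 (τ 2) (τ 0))
  refine Tendsto.congr' ?_ (key.trans (le_of_eq ?_))
  · filter_upwards [eventually_gt_atTop 0] with L hL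
    unfold ZZ5
    have hLC : (L : ℂ) ≠ 0 := by exact_mod_cast hL.ne'
    simp only [inv_div]
    field_simp
  · congr 1
    simp only [one_div, inv_inv]

/-- the prefactor -/
def Z5 (H : ℂ → ℂ) (c : ℝ) (w2 : ℝ → ℝ) (L : ℝ) (τ : Fin 3 → ℝ) : ℂ :=
  G H c L (τ 0) * (2 * Real.pi * fh 1 w2 (τ 0)) * ((L : ℂ) * ZZ5 L τ)

theorem Z5_bound (H : ℂ → ℂ) (z : ℝ) (hH : HPl H z) (c : ℝ) (hc : 0 < c) :
    ∃ C : ℝ, 0 ≤ C ∧ ∀ (w2 : ℝ → ℝ) (M : ℝ), (∀ t, ‖fh 1 w2 t‖ ≤ M) →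
      ∀ L : ℝ, 4 ≤ L → ∀ τ : Fin 3 → ℝ, ‖Z5 H c w2 L τ‖ ≤ (C * M) * ∏ i, (1 + |τ i|) ^ 10 := by
  obtain ⟨C1, h10, h1⟩ := G_bound H z hH c hc
  obtain ⟨C2, h20, h2⟩ := ZZ5_bound
  refine ⟨C1 * (2 * Real.pi) * C2, by positivity, fun w2 M hM L hL τ => ?_⟩
  have hM0 : 0 ≤ M := (norm_nonneg _).trans (hM 0)
  have hL0 : 0 < L := by linarith
  have k1 := h1 L hL (τ 0)
  have k2 := h2 L (by linarith) τ
  have k3 := hM (τ 0)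
  set U := ZZ5 L τ with hU
  rw [norm_mul, norm_pow, Complex.norm_real, Real.norm_eq_abs, abs_of_pos hL0] at k2
  have hpi : ‖(2 * Real.pi : ℂ)‖ = 2 * Real.pi := by
    rw [norm_mul, Complex.norm_real, Real.norm_eq_abs, abs_of_pos Real.pi_pos]
    simp
  have hLn : ‖(L : ℂ)‖ = L := by rw [Complex.norm_real, Real.norm_eq_abs, abs_of_pos hL0]
  unfold Z5
  rw [← hU, norm_mul, norm_mul, norm_mul (2 * Real.pi : ℂ) (fh 1 w2 (τ 0)), norm_mul (L : ℂ) U,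
    hpi, hLn]
  have hprod : (1 + |τ 0|) ^ 2 * ∏ i, (1 + |τ i|) ^ 8 ≤ ∏ i, (1 + |τ i|) ^ 10 := by
    rw [Fin.prod_univ_three, Fin.prod_univ_three]
    have m : ∀ x : ℝ, (1 + |x|) ^ 8 ≤ (1 + |x|) ^ 10 := fun x =>
      pow_le_pow_right₀ (by linarith [abs_nonneg x]) (by norm_num)
    calc (1 + |τ 0|) ^ 2 * ((1 + |τ 0|) ^ 8 * (1 + |τ 1|) ^ 8 * (1 + |τ 2|) ^ 8) =
        (1 + |τ 0|) ^ 10 * (1 + |τ 1|) ^ 8 * (1 + |τ 2|) ^ 8 := by ring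
      _ ≤ (1 + |τ 0|) ^ 10 * (1 + |τ 1|) ^ 10 * (1 + |τ 2|) ^ 10 := by
        have := m (τ 1)
        have := m (τ 2)
        gcongr
  calc ‖G H c L (τ 0)‖ * (2 * Real.pi * ‖fh 1 w2 (τ 0)‖) * (L * ‖U‖)
      ≤ (C1 * (1 + |τ 0|) ^ 2 * L) * (2 * Real.pi * M) * (L * ‖U‖) := by
        gcongr
    _ = (C1 * (1 + |τ 0|) ^ 2) * (2 * Real.pi * M) * (L ^ 2 * ‖U‖) := by ring
    _ ≤ (C1 * (1 + |τ 0|) ^ 2) * (2 * Real.pi * M) * (C2 * ∏ i, (1 + |τ i|) ^ 8) := by gcongr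
    _ = C1 * (2 * Real.pi) * C2 * M * ((1 + |τ 0|) ^ 2 * ∏ i, (1 + |τ i|) ^ 8) := by ring
    _ ≤ C1 * (2 * Real.pi) * C2 * M * ∏ i, (1 + |τ i|) ^ 10 := by gcongr

theorem Z5_lim (H : ℂ → ℂ) (z : ℝ) (hH : HPl H z) (c : ℝ) (hc : 0 < c)
    (w2 : ℝ → ℝ) (τ : Fin 3 → ℝ) :
    Tendsto (fun L : ℝ => Z5 H c w2 L τ) atTop
      (𝓝 ((z : ℂ) / 2 * ((2 * Real.pi * fh 1 w2 (τ 0)) * Pool.Agent.H357R3.RZMT2d.K3 τ))) := by
  have l1 := ((G_lim H z hH c hc (τ 0)).mul_const (2 * Real.pi * fh 1 w2 (τ 0))).mul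
    (ZZ5_lim τ)
  have hz1 : ∀ t, zz 1 t = 1 + (t : ℂ) * Complex.I := fun t => by unfold zz; simp
  have hz2 : ∀ t, zz 2 t = 2 + (t : ℂ) * Complex.I := fun t => by unfold zz; simp
  refine Tendsto.congr' ?_ (l1.trans (le_of_eq ?_))
  · filter_upwards [eventually_gt_atTop 0] with L hL
    have hLC : (L : ℂ) ≠ 0 := by exact_mod_cast hL.ne'
    unfold Z5
    field_simp
  · congr 1
    have n1 : ∀ t : ℝ, (1 + (t : ℂ) * Complex.I) ≠ 0 := fun t => by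
      apply ne_zero_of_re; simp
    have n3 : ∀ t u : ℝ, ((2 + (t : ℂ) * Complex.I) + (2 + (u : ℂ) * Complex.I)) ≠ 0 := fun t u => by
      apply ne_zero_of_re; simp
    rw [hz1, hz2, hz2]
    unfold Pool.Agent.H357R3.RZMT2d.K3
    have m1 := n1 (τ 0)
    have m3 := n3 (τ 1) (τ 2)
    generalize Complex.exp (-(1 + (τ 0 : ℂ) * Complex.I)) = E at *
    generalize (1 + (τ 0 : ℂ) * Complex.I) = u at *
    generalize (2 + (τ 1 : ℂ) * Complex.I) = a at *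
    generalize (2 + (τ 2 : ℂ) * Complex.I) = b at *
    field_simp
    ring

theorem hM5s : M5sst := fun q s hs η hη => Pool.Agent.H648R2.RZM5.M5s q s hs η hη

theorem ker5 (H : ℂ → ℂ) (z : ℝ) (hH : HPl H z) (c : ℝ) (hc : 0 < c) : ∃ C : ℝ, 0 ≤ C ∧
    ∀ (s : ℝ) (w2 : ℝ → ℝ), Wt s w2 → ∀ M : ℝ, (∀ t, ‖fh 1 w2 t‖ ≤ M) →
    Ker 3 4 (fun e L τ => D H c (2 * e) w2 L τ) (Z5 H c w2) A5 B5 2240 (C * M) 10 := by
  obtain ⟨C, hC, hb⟩ := Z5_bound H z hH c hc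
  refine ⟨C, hC, fun s w2 hw2 M hM => ⟨?_, ?_, ?_, ?_, ?_, ?_⟩⟩
  · intro e he hs L hL
    have h2e : 2 * e ≠ 0 := Nat.mul_ne_zero two_ne_zero hs.ne_zero
    exact D_cont hM5s H z hH c hc (2 * e) (Pool.Agent.H532R2.RZ6ZQ.ZQ (2 * e) h2e).1 s w2 hw2 L hL
  · intro e he hs
    have h2e : 2 * e ≠ 0 := Nat.mul_ne_zero two_ne_zero hs.ne_zero
    obtain ⟨C, hC0, hC⟩ := D_bound H z hH c hc (2 * e) (Pool.Agent.H486R4.RZM5.M5 (2 * e) h2e)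
    exact ⟨C * M, fun L hL τ => hC w2 M hM L hL τ⟩
  · intro e he hs L hL τ
    have := D5_fac he hs L (by linarith) τ
    unfold D Z5
    rw [this]
    ring
  · intro L hL τ p
    have hL0 : 0 < L := by linarith
    refine (ap_bound 2 two_ne_zero _ _ (reS L hL0 τ) (reZ L hL0 τ) p p.2).trans (le_of_eq ?_)
    norm_num
  · intro L hL τ p
    have hL0 : 0 < L := by linarith
    refine (ap0_bound _ _ (reS L hL0 τ) (reZ L hL0 τ) p p.2).trans ?_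
    exact div_le_div_of_nonneg_right (by norm_num) (by positivity)
  · intro L hL τ
    exact hb w2 M hM L hL τ

/-- the doubly approximated term for the modulus `2 e` -/
def M5e (H : ℂ → ℂ) (c L : ℝ) (w1 w2 Q1 Q2 : ℝ → ℝ) (e : ℕ) : ℂ :=
  T2dg H (c * Real.exp L) (2 * e) L w1 w2 Q1 Q2 (1 / L)

theorem M5e_repr (H : ℂ → ℂ) (z : ℝ) (hH : HPl H z) (c : ℝ) (hc : 0 < c) (P : ℝ → ℝ) (L : ℝ)
    (hL : 4 ≤ L) (s : ℝ) (w1 w2 Q1 Q2 : ℝ → ℝ) (h1 : Wt s w1)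
    (h2 : Wt s w2) (h3 : Wt s Q1) (h4 : Wt s Q2) :
    SW P L (M5e H c L w1 w2 Q1 Q2) = SW P L (fun e => ∫ τ : Fin 3 → ℝ,
      (∏ i, fh (cc i) ((Fin.cons w1 ![Q1, Q2] : Fin 3 → ℝ → ℝ) i) (τ i)) *
        D H c (2 * e) w2 L τ) := by
  refine SW_congr P L _ _ fun e he hs => ?_
  have h2e : 2 * e ≠ 0 := Nat.mul_ne_zero two_ne_zero hs.ne_zero
  obtain ⟨C, hC0, hC⟩ := D_bound H z hH c hc (2 * e) (Pool.Agent.H486R4.RZM5.M5 (2 * e) h2e)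
  have hfw := fh_le w2
  unfold M5e
  exact repr H c (2 * e) hM5s L hL s w1 w2 Q1 Q2 h1 h3 h4
    (D_cont hM5s H z hH c hc (2 * e) (Pool.Agent.H532R2.RZ6ZQ.ZQ (2 * e) h2e).1 s w2 h2 L hL)
    _ (hC w2 _ hfw L hL)

theorem MW5 (s' : ℝ) (P : ℝ → ℝ) (hP : Wt s' P) (BP : ℝ) (hBP : Bd 4 P BP)
    (H : ℂ → ℂ) (z : ℝ) (hH : HPl H z) (c : ℝ) (hc : 0 < c) (s : ℝ) (hs : s < 1) :
    (∃ (C : ℝ) (k : ℕ), 0 < C ∧ ∀ L : ℝ, 4 ≤ L → ∀ (w1 w2 Q1 Q2 : ℝ → ℝ) (B1 B2 B3 B4 : ℝ),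
      Wt s w1 → Wt s w2 → Wt s Q1 → Wt s Q2 → Bd k w1 B1 → Bd k w2 B2 → Bd k Q1 B3 → Bd k Q2 B4 →
      ‖(L : ℂ) * SW P L (M5e H c L w1 w2 Q1 Q2)‖ ≤ C * B1 * B2 * B3 * B4) ∧
    (∀ w1 w2 Q1 Q2 : ℝ → ℝ, Wt s w1 → Wt s w2 → Wt s Q1 → Wt s Q2 →
      Tendsto (fun L : ℝ => (L : ℂ) * SW P L (M5e H c L w1 w2 Q1 Q2)) atTop
        (𝓝 ((z / 2 * (∫ t in Set.Ioi (0 : ℝ), ∫ y in Set.Ioi (0 : ℝ),
        al w1 Q1 (1 - y) t * al w2 Q2 y t) * (2 * Pn P) : ℝ) : ℂ))) := by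
  obtain ⟨C0, hC0, hker⟩ := ker5 H z hH c hc
  refine ⟨?_, ?_⟩
  · obtain ⟨K, hK, hb⟩ := ker_bound 3 cc s 10 2240 (by norm_num) s' P hP BP hBP
    obtain ⟨Cw, hCw, hw⟩ := (Pool.Agent.H375R3.RZFR.FR 1 s).2.1 10
    refine ⟨K * ((C0 + 1) * Cw), 10 + 2, by positivity, ?_⟩
    intro L hL w1 w2 Q1 Q2 B1 B2 B3 B4 h1 h2 h3 h4 g1 g2 g3 g4
    have b1 : 0 ≤ B1 := (abs_nonneg _).trans (g1 0 (by norm_num) 0)
    have b2 : 0 ≤ B2 := (abs_nonneg _).trans (g2 0 (by norm_num) 0)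
    have b3 : 0 ≤ B3 := (abs_nonneg _).trans (g3 0 (by norm_num) 0)
    have b4 : 0 ≤ B4 := (abs_nonneg _).trans (g4 0 (by norm_num) 0)
    have hfw : ∀ t, ‖fh 1 w2 t‖ ≤ Cw * B2 := by
      intro t
      refine ((hw w2 B2 h2 g2).1 t).trans ?_
      exact div_le_self (by positivity) (one_le_pow₀ (by linarith [abs_nonneg t]))
    rw [M5e_repr H z hH c hc P L hL s w1 w2 Q1 Q2 h1 h2 h3 h4]
    refine (hb 4 _ _ _ _ _ (hker s w2 h2 _ hfw) L hL (by linarith) _ (Fin.cons B1 ![B3, B4])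
      (wts h1 h3 h4) (by
        intro i
        fin_cases i
        · exact g1
        · exact g3
        · exact g4)).trans ?_
    rw [Fin.prod_univ_three]
    show K * (C0 * (Cw * B2)) * (B1 * B3 * B4) ≤ _
    have h5 : 0 ≤ K * Cw * (B1 * B2 * B3 * B4) := by positivity
    nlinarith
  · intro w1 w2 Q1 Q2 h1 h2 h3 h4
    have hfw := fh_le w2
    have key := ker_lim (hker s w2 h2 _ hfw) (by norm_num) cc s (Fin.cons w1 ![Q1, Q2])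
      (wts h1 h3 h4) s' P hP BP hBP _ (fun p => 1) (Z5_lim H z hH c hc w2)
      (fun τ p => ap_tendsto 2 (zz 1 (τ 0)) (fun i : Fin 2 => zz 2 (τ i.succ)) p p.2)
      (fun τ p _ => ap_tendsto 0 (zz 1 (τ 0)) (fun i : Fin 2 => zz 2 (τ i.succ)) p p.2)
    have hid := Pool.Agent.H418R2.RZ6.ID2d s hs w1 w2 Q1 Q2 h1 h2 h3 h4
    have e1 : (∫ τ : Fin 3 → ℝ, (∏ i, fh (cc i) ((Fin.cons w1 ![Q1, Q2] : Fin 3 → ℝ → ℝ) i) (τ i)) *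
        ((z : ℂ) / 2 * ((2 * Real.pi * fh 1 w2 (τ 0)) * Pool.Agent.H357R3.RZMT2d.K3 τ))) =
        (z : ℂ) / 2 *
        ((∫ t in Set.Ioi (0 : ℝ), ∫ y in Set.Ioi (0 : ℝ),
        al w1 Q1 (1 - y) t * al w2 Q2 y t : ℝ) : ℂ) := by
      rw [← hid, ← integral_const_mul]
      refine integral_congr_ae (Eventually.of_forall fun τ => ?_)
      have hw2 : ∫ y : ℝ, (w2 y : ℂ) * Complex.exp ((1 + τ 0 * Complex.I) * y) =
          2 * Real.pi * fh 1 w2 (τ 0) := by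
        rw [← w2int]
        simp
      simp only [Fin.prod_univ_three]
      rw [hw2]
      show fh 1 w1 (τ 0) * fh 2 Q1 (τ 1) * fh 2 Q2 (τ 2) *
        ((z : ℂ) / 2 * ((2 * Real.pi * fh 1 w2 (τ 0)) * Pool.Agent.H357R3.RZMT2d.K3 τ)) =
        (z : ℂ) / 2 * (fh 1 w1 (τ 0) * (2 * Real.pi * fh 1 w2 (τ 0)) * fh 2 Q1 (τ 1) *
          fh 2 Q2 (τ 2) * Pool.Agent.H357R3.RZMT2d.K3 τ)
      ring
    rw [e1, tprod_one] at key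
    refine Tendsto.congr' ?_ (key.trans (le_of_eq ?_))
    · filter_upwards [eventually_ge_atTop 4] with L hL
      rw [M5e_repr H z hH c hc P L hL s w1 w2 Q1 Q2 h1 h2 h3 h4]
    · congr 1
      unfold Pn
      push_cast
      ring

end

end Pool.Agent.N782.KV
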