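import Pool.Agent.N782.KW1

set_option autoImplicit false

/-! Weighted diagonal: bound and limit (helper782). -/

namespace Pool.Agent.N782.KW

open Finset Filter Topology MeasureTheory Pool.Agent.N782.LX Pool.Agent.N782.EW
open Pool.Agent.H306R2.RZ Pool.Agent.H930R3.RZID
open Pool.Agent.H130R2.RZ1 (zz zz_re zz_im KR)

noncomputable section

/-- `∫ P'^2` -/
def Pn (P : ℝ → ℝ) : ℝ := ∫ t in Set.Ioi (0 : ℝ), deriv P t ^ 2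

/-- the diagonal for the modulus `2 e` -/
def M1e (L : ℝ) (w1 w2 Q1 Q2 : ℝ → ℝ) (e : ℕ) : ℂ :=
  ((∑' a : Fin 4 → ℕ, t1c (2 * e) a * w4 L w1 w2 Q1 Q2 a : ℝ) : ℂ)

theorem wt4 {s : ℝ} {w1 w2 Q1 Q2 : ℝ → ℝ} (h1 : Wt s w1) (h2 : Wt s w2) (h3 : Wt s Q1)
    (h4 : Wt s Q2) (i : Fin 4) : Wt s ((![w1, w2, Q1, Q2] : Fin 4 → ℝ → ℝ) i) := by
  fin_cases i
  · exact h1
  · exact h2
  · exact h3
  · exact h4

theorem bd4 {k : ℕ} {w1 w2 Q1 Q2 : ℝ → ℝ} {B1 B2 B3 B4 : ℝ} (h1 : Bd k w1 B1) (h2 : Bd k w2 B2)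
    (h3 : Bd k Q1 B3) (h4 : Bd k Q2 B4) (i : Fin 4) :
    Bd k ((![w1, w2, Q1, Q2] : Fin 4 → ℝ → ℝ) i) ((![B1, B2, B3, B4] : Fin 4 → ℝ) i) := by
  fin_cases i
  · exact h1
  · exact h2
  · exact h3
  · exact h4

theorem MW1 (s' : ℝ) (P : ℝ → ℝ) (hP : Wt s' P) (BP : ℝ) (hBP : Bd 4 P BP) (s : ℝ) :
    (∃ (C : ℝ) (k : ℕ), 0 < C ∧ ∀ L : ℝ, 1 ≤ L → ∀ (w1 w2 Q1 Q2 : ℝ → ℝ) (B1 B2 B3 B4 : ℝ),
      Wt s w1 → Wt s w2 → Wt s Q1 → Wt s Q2 → Bd k w1 B1 → Bd k w2 B2 → Bd k Q1 B3 → Bd k Q2 B4 →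
      ‖(L : ℂ) * SW P L (M1e L w1 w2 Q1 Q2)‖ ≤ C * B1 * B2 * B3 * B4) ∧
    (∀ w1 w2 Q1 Q2 : ℝ → ℝ, Wt s w1 → Wt s w2 → Wt s Q1 → Wt s Q2 →
      Tendsto (fun L : ℝ => (L : ℂ) * SW P L (M1e L w1 w2 Q1 Q2)) atTop
        (𝓝 (((mn w1 Q1 * mn w2 Q2 + ∫ t in Set.Ioi (0 : ℝ), ∫ y in Set.Ioi (0 : ℝ),
        al w1 Q1 y t * al w2 Q2 y t) / 4 * (2 * Pn P) : ℝ) : ℂ))) := by
  obtain ⟨CZ, hker⟩ := ker1
  have hCZ := CZ_nonneg hker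
  refine ⟨?_, ?_⟩
  · obtain ⟨K, hK, hb⟩ := ker_bound 4 (fun _ => 1) s 4 1448 (by norm_num) s' P hP BP hBP
    refine ⟨K * (CZ + 1), 4 + 2, by positivity, ?_⟩
    intro L hL w1 w2 Q1 Q2 B1 B2 B3 B4 h1 h2 h3 h4 g1 g2 g3 g4
    have hL0 : 0 < L := by linarith
    have e1 : SW P L (M1e L w1 w2 Q1 Q2) = SW P L (fun e => ∫ τ : Fin 4 → ℝ,
        (∏ i, fh ((fun _ => 1 : Fin 4 → ℝ) i) (![w1, w2, Q1, Q2] i) (τ i)) *
        DD1 (2 * e) (fun i => zz 1 (τ i) / (L : ℂ))) := by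
      refine SW_congr P L _ _ fun e he hs => ?_
      exact (Pool.Agent.H130R2.RZ1.repr (2 * e) L hL0 s w1 w2 Q1 Q2 h1 h2 h3 h4).1
    rw [e1]
    refine (hb 1 _ _ _ _ CZ hker L hL hL _ ![B1, B2, B3, B4] (wt4 h1 h2 h3 h4)
      (bd4 g1 g2 g3 g4)).trans ?_
    have b1 : 0 ≤ B1 := (abs_nonneg _).trans (g1 0 (by norm_num) 0)
    have b2 : 0 ≤ B2 := (abs_nonneg _).trans (g2 0 (by norm_num) 0)
    have b3 : 0 ≤ B3 := (abs_nonneg _).trans (g3 0 (by norm_num) 0)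
    have b4 : 0 ≤ B4 := (abs_nonneg _).trans (g4 0 (by norm_num) 0)
    rw [Fin.prod_univ_four]
    show K * CZ * (B1 * B2 * B3 * B4) ≤ _
    have h5 : 0 ≤ B1 * B2 * B3 * B4 := by positivity
    nlinarith [mul_nonneg hK.le h5]
  · intro w1 w2 Q1 Q2 h1 h2 h3 h4
    have key := ker_lim hker (by norm_num) (fun _ => 1) s ![w1, w2, Q1, Q2] (wt4 h1 h2 h3 h4)
      s' P hP BP hBP KR (fun _ => 1) Z1_lim
      (fun τ p => Pool.Agent.H25R2.RZM1.aa_lim 2 (fun i => zz 1 (τ i)) p)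
      (fun τ p _ => Pool.Agent.H25R2.RZM1.aa_lim 0 (fun i => zz 1 (τ i)) p)
    have hid := Pool.Agent.H930R3.RZID.ID1 Pool.Agent.H375R3.RZFR.FR s w1 w2 Q1 Q2 h1 h2 h3 h4
    have e1 : (∫ τ : Fin 4 → ℝ, (∏ i, fh ((fun _ => 1 : Fin 4 → ℝ) i)
        (![w1, w2, Q1, Q2] i) (τ i)) * KR τ) =
        (((mn w1 Q1 * mn w2 Q2 + ∫ t in Set.Ioi (0 : ℝ), ∫ y in Set.Ioi (0 : ℝ),
        al w1 Q1 y t * al w2 Q2 y t) / 4 : ℝ) : ℂ) := by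
      rw [← hid]
      refine integral_congr_ae (Eventually.of_forall fun τ => ?_)
      simp only [Fin.prod_univ_four]
      rfl
    rw [e1, tprod_one] at key
    refine Tendsto.congr' ?_ (key.trans (le_of_eq ?_))
    · filter_upwards [eventually_gt_atTop 0] with L hL
      congr 1
      refine (SW_congr P L _ _ fun e he hs => ?_).symm
      exact (Pool.Agent.H130R2.RZ1.repr (2 * e) L hL s w1 w2 Q1 Q2 h1 h2 h3 h4).1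
    · congr 1
      unfold Pn
      push_cast
      ring

end

end Pool.Agent.N782.KW
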