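import Pool.Agent.N782.KW2

set_option autoImplicit false

/-! Weighted off-diagonal: bound and limit (helper782). -/

namespace Pool.Agent.N782.KW

open Finset Filter Topology MeasureTheory Pool.Agent.N782.LX Pool.Agent.N782.EW
open Pool.Agent.H306R2.RZ Pool.Agent.H306R2.RG Pool.Agent.H930R3.RZID
open Pool.Agent.H423R2.RZL.M2n (ap_tendsto bp bp_prod)
open Pool.Agent.H80R2.RG.MT2Gn (zz zz_re D cc wts Pc_pos)

noncomputable section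

/-- the off-diagonal for the modulus `2 e` -/
def M2e (H : ℂ → ℂ) (c L : ℝ) (w1 w2 Q1 Q2 : ℝ → ℝ) (e : ℕ) : ℂ :=
  T2mg H (c * Real.exp L) (2 * e) L w1 w2 Q1 Q2 (1 / L)

theorem M2e_repr (H : ℂ → ℂ) (z : ℝ) (hH : HPl H z) (c : ℝ) (hc : 0 < c) (P : ℝ → ℝ) (L : ℝ)
    (hL : 4 ≤ L) (s : ℝ) (w1 w2 Q1 Q2 : ℝ → ℝ) (h1 : Wt s w1)
    (h2 : Wt s w2) (h3 : Wt s Q1) (h4 : Wt s Q2) :
    SW P L (M2e H c L w1 w2 Q1 Q2) = SW P L (fun e => ∫ τ : Fin 4 → ℝ,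
      (∏ i, fh (cc i) ((Fin.cons w1 ![w2, Q1, Q2] : Fin 4 → ℝ → ℝ) i) (τ i)) *
        ((Pc (2 * e) : ℂ) * D H c (2 * e) L τ)) := by
  refine SW_congr P L _ _ fun e he hs => ?_
  have h2e : 2 * e ≠ 0 := Nat.mul_ne_zero two_ne_zero hs.ne_zero
  unfold M2e
  rw [Pool.Agent.H80R2.RG.MT2Gn.repr H z hH c hc (2 * e) (Pool.Agent.H423R2.RZL.M2n.M2 (2 * e) h2e)
    L hL s w1 w2 Q1 Q2 h1 h2 h3 h4, ← integral_const_mul]
  refine integral_congr_ae (Eventually.of_forall fun τ => ?_)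
  simp only
  ring

theorem MW2 (s' : ℝ) (P : ℝ → ℝ) (hP : Wt s' P) (BP : ℝ) (hBP : Bd 4 P BP)
    (H : ℂ → ℂ) (z : ℝ) (hH : HPl H z) (c : ℝ) (hc : 0 < c) (s : ℝ) (hs : s < 1) :
    (∃ (C : ℝ) (k : ℕ), 0 < C ∧ ∀ L : ℝ, 4 ≤ L → ∀ (w1 w2 Q1 Q2 : ℝ → ℝ) (B1 B2 B3 B4 : ℝ),
      Wt s w1 → Wt s w2 → Wt s Q1 → Wt s Q2 → Bd k w1 B1 → Bd k w2 B2 → Bd k Q1 B3 → Bd k Q2 B4 →
      ‖(L : ℂ) * SW P L (M2e H c L w1 w2 Q1 Q2)‖ ≤ C * B1 * B2 * B3 * B4) ∧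
    (∀ w1 w2 Q1 Q2 : ℝ → ℝ, Wt s w1 → Wt s w2 → Wt s Q1 → Wt s Q2 →
      Tendsto (fun L : ℝ => (L : ℂ) * SW P L (M2e H c L w1 w2 Q1 Q2)) atTop
        (𝓝 ((z / 2 * (∫ t in Set.Ioi (0 : ℝ), ∫ y in Set.Ioi (0 : ℝ),
        al w1 Q1 (1 - y) t * al w2 Q2 y t) * (2 * Pn P) : ℝ) : ℂ))) := by
  obtain ⟨CZ, hker⟩ := ker2 H z hH c hc
  have hCZ := CZ_nonneg hker
  refine ⟨?_, ?_⟩
  · obtain ⟨K, hK, hb⟩ := ker_bound 4 cc s 6 2496 (by norm_num) s' P hP BP hBP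
    refine ⟨K * (CZ + 1), 6 + 2, by positivity, ?_⟩
    intro L hL w1 w2 Q1 Q2 B1 B2 B3 B4 h1 h2 h3 h4 g1 g2 g3 g4
    rw [M2e_repr H z hH c hc P L hL s w1 w2 Q1 Q2 h1 h2 h3 h4]
    refine (hb 4 _ _ _ _ CZ hker L hL (by linarith) _ (Fin.cons B1 ![B2, B3, B4])
      (wts h1 h2 h3 h4) (by
        intro i
        fin_cases i
        · exact g1
        · exact g2
        · exact g3
        · exact g4)).trans ?_
    have b1 : 0 ≤ B1 := (abs_nonneg _).trans (g1 0 (by norm_num) 0)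
    have b2 : 0 ≤ B2 := (abs_nonneg _).trans (g2 0 (by norm_num) 0)
    have b3 : 0 ≤ B3 := (abs_nonneg _).trans (g3 0 (by norm_num) 0)
    have b4 : 0 ≤ B4 := (abs_nonneg _).trans (g4 0 (by norm_num) 0)
    rw [Fin.prod_univ_four]
    show K * CZ * (B1 * B2 * B3 * B4) ≤ _
    have h5 : 0 ≤ B1 * B2 * B3 * B4 := by positivity
    nlinarith [mul_nonneg hK.le h5]
  · intro w1 w2 Q1 Q2 h1 h2 h3 h4
    have key := ker_lim hker (by norm_num) cc s (Fin.cons w1 ![w2, Q1, Q2]) (wts h1 h2 h3 h4)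
      s' P hP BP hBP _ (fun p => bp 2 p) (Z2_lim H z hH c hc)
      (fun τ p => ap_tendsto 2 (zz 1 (τ 0)) (fun i : Fin 3 => zz 2 (τ i.succ)) p p.2)
      (fun τ p hp => B2_lim (zz 1 (τ 0)) (fun i : Fin 3 => zz 2 (τ i.succ)) p hp)
    have hid := Pool.Agent.H930R3.RZID.ID2 Pool.Agent.H375R3.RZFR.FR s hs w1 w2 Q1 Q2 h1 h2 h3 h4
    have e1 : (∫ τ : Fin 4 → ℝ, (∏ i, fh (cc i) ((Fin.cons w1 ![w2, Q1, Q2] : Fin 4 → ℝ → ℝ) i) (τ i)) *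
        ((Pc 2 : ℂ) * ((z : ℂ) / 2 * Pool.Agent.H80R2.RG.MT2Gn.K2 τ))) =
        ((Pc 2 : ℂ) * ((z : ℂ) / 2)) *
        ((∫ t in Set.Ioi (0 : ℝ), ∫ y in Set.Ioi (0 : ℝ),
        al w1 Q1 (1 - y) t * al w2 Q2 y t : ℝ) : ℂ) := by
      rw [← hid, ← integral_const_mul]
      refine integral_congr_ae (Eventually.of_forall fun τ => ?_)
      simp only [Fin.prod_univ_four]
      show fh 1 w1 (τ 0) * fh 2 w2 (τ 1) * fh 2 Q1 (τ 2) * fh 2 Q2 (τ 3) *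
        ((Pc 2 : ℂ) * ((z : ℂ) / 2 * Pool.Agent.H80R2.RG.MT2Gn.K2 τ)) =
        ((Pc 2 : ℂ) * ((z : ℂ) / 2)) *
        (fh 1 w1 (τ 0) * fh 2 w2 (τ 1) * fh 2 Q1 (τ 2) * fh 2 Q2 (τ 3) *
          Pool.Agent.H80R2.RG.MT2Gn.K2 τ)
      ring
    rw [e1, (bp_prod 2 two_ne_zero).tprod_eq] at key
    refine Tendsto.congr' ?_ (key.trans (le_of_eq ?_))
    · filter_upwards [eventually_ge_atTop 4] with L hL
      rw [M2e_repr H z hH c hc P L hL s w1 w2 Q1 Q2 h1 h2 h3 h4]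
    · congr 1
      have hPc : (Pc 2 : ℂ) ≠ 0 := by exact_mod_cast (Pc_pos 2).ne'
      unfold Pn
      push_cast
      field_simp

end

end Pool.Agent.N782.KW
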