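import Pool.Agent.H995R2.RG_S4G
import Pool.Agent.H841R2.RZ6_SD1
import Pool.Agent.H864R2.RZ6_S3d

set_option autoImplicit false
set_option linter.unusedVariables false

/-! The contribution of the squares, uniformly in the modulus (helper782; adapted from
RZ6_SD1, RZ6_S3d, RG_S4G of the starting files). -/

namespace Pool.Agent.N782.SU

open Finset Filter Topology MeasureTheory
open Pool.Agent.H306R2.RZ Pool.Agent.H306R2.RG

noncomputable section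

/-- dependence on the modulus -/
def Cqf (q : ℕ) : ℝ := ∏ p ∈ q.primeFactors, (248 * (p : ℝ))

theorem Cqf_pos (q : ℕ) : 0 < Cqf q := prod_pos fun p hp => by
  have := (Nat.prime_of_mem_primeFactors hp).pos
  positivity

section A

open Pool.Agent.H305R2.RZS1 Pool.Agent.H305R2.RZS2 Pool.Agent.H841R2.RZ6
open Pool.Agent.H841R2.RZSD1

theorem SD1u (a : ℝ) (ha : 0 < a) (ha1 : a ≤ 1 / 8) : ∃ C : ℝ, 0 < C ∧ ∀ (q : ℕ), q ≠ 0 →
    ∀ (r : ℕ) (s : ℂ), r ≠ 0 → r.Coprime q → s.re = 1 / 2 + a →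
      Summable (fun b : ℕ × ℕ => ‖GG q r s b.1 b.2‖ * ((b.1 : ℝ) * b.2) ^ (-(2 * a))) ∧
      (∑' b : ℕ × ℕ, ‖GG q r s b.1 b.2‖ * ((b.1 : ℝ) * b.2) ^ (-(2 * a))) ≤
        C * Cqf q * (r : ℝ) ^ (3 * a) := by
  obtain ⟨C1, hC1, hC1b⟩ := omega_bound 242 (2 * a) (by norm_num) (by positivity)
  set Z : ℝ := ∑' n : ℕ, (n : ℝ) ^ (-1 - a : ℝ) with hZ
  have hZs : Summable (fun n : ℕ => (n : ℝ) ^ (-1 - a : ℝ)) :=
    Real.summable_nat_rpow.2 (by linarith)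
  refine ⟨C1 * Real.exp (226 * Z), by positivity, fun q hq0 r s hr hrq hs => ?_⟩
  set Cq : ℝ := ∏ p ∈ q.primeFactors, (248 * (p : ℝ)) with hCq
  have hCq0 : 0 < Cq := prod_pos fun p hp => by
    have := (Nat.prime_of_mem_primeFactors hp).pos
    positivity
  have hCC : C1 * Real.exp (226 * Z) * Cqf q * (r : ℝ) ^ (3 * a) =
      Cq * C1 * Real.exp (226 * Z) * (r : ℝ) ^ (3 * a) := by
    have : Cqf q = Cq := rfl
    rw [this]; ring
  rw [hCC]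
  set f : ℕ × ℕ → ℝ := fun b => ‖GG q r s b.1 b.2‖ * ((b.1 : ℝ) * b.2) ^ (-(2 * a)) with hf
  have hf0 : ∀ b, 0 ≤ f b := fun b => by simp only [hf]; positivity
  have key : ∀ F : Finset (ℕ × ℕ), ∑ b ∈ F, f b ≤ Cq * C1 * Real.exp (226 * Z) * (r : ℝ) ^ (3 * a) := by
    intro F
    obtain ⟨N, hN⟩ : ∃ N : ℕ, ∀ b ∈ F, b.1 ≤ N ∧ b.2 ≤ N := by
      refine ⟨F.sup (fun b => max b.1 b.2), fun b hb => ?_⟩
      have := le_sup (f := fun b : ℕ × ℕ => max b.1 b.2) hb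
      exact ⟨(le_max_left _ _).trans this, (le_max_right _ _).trans this⟩
    set P : Finset ℕ := N.succ.primesBelow ∪ r.primeFactors with hPd
    have hP : ∀ p ∈ P, p.Prime := by
      intro p hp
      rcases mem_union.1 hp with h | h
      · exact (Nat.mem_primesBelow.1 h).2
      · exact Nat.prime_of_mem_primeFactors h
    have hsubN : ∀ n : ℕ, 1 ≤ n → n ≤ N → n.primeFactors ⊆ P := by
      intro n hn hnN p hp
      refine mem_union_left _ (Nat.mem_primesBelow.2 ⟨?_, Nat.prime_of_mem_primeFactors hp⟩)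
      have := Nat.le_of_dvd (by omega) (Nat.dvd_of_mem_primeFactors hp)
      omega
    have h1 : ∑ b ∈ F, f b ≤ ∑ b ∈ Icc 1 N ×ˢ Icc 1 N, f b := by
      have e : ∑ b ∈ F, f b = ∑ b ∈ F.filter (fun b => b.1 ≠ 0 ∧ b.2 ≠ 0), f b := by
        rw [sum_filter]
        refine sum_congr rfl fun b _ => ?_
        split_ifs with h
        · rfl
        · by_cases hb1 : b.1 = 0
          · simp only [hf, hb1, GG_zero_left, norm_zero, zero_mul]
          · have hb2 : b.2 = 0 := by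
              by_contra h2
              exact h ⟨hb1, h2⟩
            simp only [hf, hb2, GG_zero_right, norm_zero, zero_mul]
      rw [e]
      refine sum_le_sum_of_subset_of_nonneg ?_ (fun b _ _ => hf0 b)
      intro b hb
      rw [mem_filter] at hb
      rw [mem_product, mem_Icc, mem_Icc]
      have := hN b hb.1
      omega
    have h2 : ∑ b ∈ Icc 1 N ×ˢ Icc 1 N, f b = ∑ b ∈ Icc 1 N ×ˢ Icc 1 N,
        ∏ p ∈ P, tt a q r s p (b.1.factorization p) (b.2.factorization p) := by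
      refine sum_congr rfl fun b hb => ?_
      rw [mem_product, mem_Icc, mem_Icc] at hb
      exact term_prod hr hP (by omega) (by omega) (hsubN _ hb.1.1 hb.1.2)
        (hsubN _ hb.2.1 hb.2.2) subset_union_right
    have h3 := prod_le_sum P (N + 2) N (tt a q r s) (fun p i j => tt_nonneg _ _ _ _ _ _ _)
      subset_union_left (by omega)
    have h4 : ∏ p ∈ P, ∑ i ∈ range (N + 2), ∑ j ∈ range (N + 2), tt a q r s p i j ≤
        ∏ p ∈ P, Ap a q r p :=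
      prod_le_prod (fun p _ => sum_nonneg fun i _ => sum_nonneg fun j _ =>
        tt_nonneg _ _ _ _ _ _ _) (fun p hp => local_bound (hP p hp) ha ha1 hs q r N hrq hr)
    have h5 : ∏ p ∈ P, Ap a q r p ≤ Cq * (C1 * (r : ℝ) ^ (3 * a)) * Real.exp (226 * Z) := by
      unfold Ap
      rw [prod_mul_distrib, prod_mul_distrib]
      have g1 : ∏ p ∈ P, (if p ∣ q then 248 * (p : ℝ) else 1) ≤ Cq := by
        rw [← prod_filter]
        refine prod_le_prod_of_subset_of_one_le ?_ (fun p hp => ?_) (fun p hp _ => ?_)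
        · intro p hp
          rw [mem_filter] at hp
          exact Nat.mem_primeFactors.2 ⟨hP p hp.1, hp.2, hq0⟩
        · positivity
        · have : (1 : ℝ) ≤ p := by
            exact_mod_cast (Nat.prime_of_mem_primeFactors hp).one_lt.le
          linarith
      have g2 : ∏ p ∈ P, (if p ∣ r then 242 * (p : ℝ) ^ a else 1) ≤ C1 * (r : ℝ) ^ (3 * a) := by
        rw [← prod_filter]
        have hsub : P.filter (fun p => p ∣ r) ⊆ r.primeFactors := by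
          intro p hp
          rw [mem_filter] at hp
          exact Nat.mem_primeFactors.2 ⟨hP p hp.1, hp.2, hr⟩
        calc ∏ p ∈ P.filter (fun p => p ∣ r), 242 * (p : ℝ) ^ a
            ≤ ∏ p ∈ r.primeFactors, 242 * (p : ℝ) ^ a := by
              refine prod_le_prod_of_subset_of_one_le hsub (fun p hp => by positivity)
                (fun p hp _ => ?_)
              have h : (1 : ℝ) ≤ p := by
                exact_mod_cast (Nat.prime_of_mem_primeFactors hp).one_lt.le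
              have := Real.one_le_rpow h ha.le
              linarith
          _ = (∏ _p ∈ r.primeFactors, (242 : ℝ)) * ∏ p ∈ r.primeFactors, (p : ℝ) ^ a :=
              prod_mul_distrib
          _ ≤ (C1 * (r : ℝ) ^ (2 * a)) * (r : ℝ) ^ a :=
              mul_le_mul (hC1b r hr) (rad_le ha hr)
                (prod_nonneg fun p _ => by positivity) (by positivity)
          _ = C1 * (r : ℝ) ^ (3 * a) := by
              have hr0 : (0 : ℝ) < r := by exact_mod_cast Nat.pos_of_ne_zero hr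
              rw [mul_assoc, ← Real.rpow_add hr0]
              congr 2; ring
      have g3 : ∏ p ∈ P, Real.exp (226 * (p : ℝ) ^ (-1 - a : ℝ)) ≤ Real.exp (226 * Z) := by
        rw [← Real.exp_sum, ← mul_sum]
        apply Real.exp_le_exp.2
        apply mul_le_mul_of_nonneg_left _ (by norm_num)
        exact hZs.sum_le_tsum P (fun p _ => by positivity)
      have g1' : 0 ≤ ∏ p ∈ P, (if p ∣ r then 242 * (p : ℝ) ^ a else 1) :=
        prod_nonneg fun p _ => by split_ifs <;> positivity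
      exact mul_le_mul (mul_le_mul g1 g2 g1' hCq0.le) g3
        (prod_nonneg fun p _ => (Real.exp_pos _).le) (by positivity)
    calc ∑ b ∈ F, f b ≤ _ := h1
      _ = _ := h2
      _ ≤ _ := h3
      _ ≤ _ := h4
      _ ≤ _ := h5
      _ = _ := by ring
  have hsm : Summable f := summable_of_sum_le hf0 key
  exact ⟨hsm, hsm.tsum_le_of_sum_le key⟩

end A

section B

open Pool.Agent.H864R2.RZ6

open Pool.Agent.H864R2.RZ6.S3D in
/-- the double sum -/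
theorem S3du_of (h0 : SD0st) (h2 : SD2st) (h3 : SD3st)
    (a : ℝ) (ha : 0 < a) (ha1 : a ≤ 1 / 8) : ∃ C : ℝ, 0 < C ∧ ∀ (q : ℕ), q ≠ 0 →
    ∀ (r : ℕ) (s : ℂ) (L r1 B1 B2 : ℝ) (w1 w2 : ℝ → ℝ), r ≠ 0 → r.Coprime q →
      s.re = 1 / 2 + a → 1 ≤ L → Wt r1 w1 → Wt r1 w2 → Bd 1 w1 B1 → Bd 1 w2 B2 →
      ‖(∑' m : ℕ × ℕ, K2 q r s m.1 m.2 * ((w1 (Real.log m.1 / L) * w2 (Real.log m.2 / L) : ℝ) : ℂ)) -
        (L : ℂ) * Pc q * (∫ y : ℝ, (w1 y : ℂ) * Complex.exp (s * L * y)) *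
          (∑' n : ℕ, if n ≠ 0 ∧ n.Coprime q then (n : ℂ) ^ (-(1 / 2) : ℂ) * nu (n * r) *
            ((r0 (n * r) : ℕ) : ℂ) ^ (s - 1 / 2) * (w2 (Real.log n / L) : ℂ) else 0) -
        (L : ℂ) * Pc q * (∫ y : ℝ, (w2 y : ℂ) * Complex.exp (s * L * y)) *
          (∑' n : ℕ, if n ≠ 0 ∧ n.Coprime q then (n : ℂ) ^ (-(1 / 2) : ℂ) * nu (n * r) *
            ((r0 (n * r) : ℕ) : ℂ) ^ (s - 1 / 2) * (w1 (Real.log n / L) : ℂ) else 0) +
        (L : ℂ) ^ 2 * (∫ y : ℝ, (w1 y : ℂ) * Complex.exp (s * L * y)) *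
          (∫ y : ℝ, (w2 y : ℂ) * Complex.exp (s * L * y)) * (Zq q s * hd s r)‖ ≤
      C * Cqf q * (1 + ‖s‖) ^ 2 * B1 * B2 * (r : ℝ) ^ (3 * a) *
        Real.exp (4 * a * (|r1| * L)) := by
  obtain ⟨C1, hC1, hb⟩ := Pool.Agent.H598R3.RZ.S1b a ha ha1
  obtain ⟨C2', hC2', hsd⟩ := SD1u a ha ha1
  refine ⟨C1 ^ 2 * C2', by positivity, ?_⟩
  intro q hq0 r s L r1 B1 B2 w1 w2 hr hrq hs hL hw1 hw2 hB1 hB2
  have hCq0 := Cqf_pos q
  obtain ⟨C2, hC2d⟩ : ∃ C2 : ℝ, C2 = C2' * Cqf q := ⟨_, rfl⟩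
  have hC2 : 0 < C2 := by rw [hC2d]; positivity
  obtain ⟨hS, hSb⟩ := hsd q hq0 r s hr hrq hs
  rw [← hC2d] at hSb
  rw [mul_assoc (C1 ^ 2) C2' (Cqf q), ← hC2d]
  have hG1 : ∀ b, GG q r s 0 b = 0 := fun b => by unfold GG; simp
  have hG2 : ∀ b, GG q r s b 0 = 0 := fun b => by unfold GG; simp
  have hB10 : 0 ≤ B1 := (abs_nonneg _).trans (Pool.Agent.H598R3.RZ.S1b_wbd hB1 0)
  have hB20 : 0 ≤ B2 := (abs_nonneg _).trans (Pool.Agent.H598R3.RZ.S1b_wbd hB2 0)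
  have hL0 : 0 ≤ L := by linarith
  have hR : ∀ (w : ℝ → ℝ) (B : ℝ), Wt r1 w → Bd 1 w B → 0 ≤ B →
      Dec a (fun b => Ysum s L w b - Mm s L w b)
        (C1 * (1 + ‖s‖) * B * Real.exp (2 * a * (r1 * L))) := by
    intro w B hw hB hB0
    refine ⟨by positivity, fun b hb0 => ?_⟩
    have h := hb s L (Real.log b) r1 B w hs hL (Real.log_natCast_nonneg b) hw hB
    rw [exp_log_cpow hb0, exp_log_rpow hb0] at h
    calc _ ≤ _ := h
      _ = _ := by ring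
  have hM : ∀ w : ℝ → ℝ, Dec a (Mm s L w)
      (L * ‖∫ y : ℝ, (w y : ℂ) * Complex.exp (s * L * y)‖) := fun w =>
    ⟨by positivity, fun b hb0 => M_bound ha1 hs hL w hb0⟩
  have hY : ∀ (w : ℝ → ℝ) (B : ℝ), Wt r1 w → Bd 1 w B → 0 ≤ B →
      Dec a (Ysum s L w) (C1 * (1 + ‖s‖) * B * Real.exp (2 * a * (r1 * L)) +
        L * ‖∫ y : ℝ, (w y : ℂ) * Complex.exp (s * L * y)‖) := by
    intro w B hw hB hB0
    refine ⟨add_nonneg (hR w B hw hB hB0).1 (hM w).1, fun b hb0 => ?_⟩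
    have e : Ysum s L w b = (Ysum s L w b - Mm s L w b) + Mm s L w b := by ring
    rw [e, add_mul]
    exact (norm_add_le _ _).trans
      (add_le_add ((hR w B hw hB hB0).2 b hb0) ((hM w).2 b hb0))
  have hY1 := hY w1 B1 hw1 hB1 hB10
  have hY2 := hY w2 B2 hw2 hB2 hB20
  -- the double sum
  have eU := red1 (s := s) hL hw1 hw2 hG1 hG2 (K := K2 q r s)
    (fun n1 n2 hn1 hn2 => h0 q r s n1 n2 hn1 hn2)
    (fun n => by unfold K2; simp) (fun n => by unfold K2; simp)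
  -- first main term
  have e2 : (L : ℂ) * Pc q * (∫ y : ℝ, (w1 y : ℂ) * Complex.exp (s * L * y)) *
      (∑' n : ℕ, if n ≠ 0 ∧ n.Coprime q then (n : ℂ) ^ (-(1 / 2) : ℂ) * nu (n * r) *
        ((r0 (n * r) : ℕ) : ℂ) ^ (s - 1 / 2) * (w2 (Real.log n / L) : ℂ) else 0) =
      tt (GG q r s) (Mm s L w1) (Ysum s L w2) := by
    rw [red2 ha1 hs hL w1 hw2 hG1 hG2 hS (hM w1) hY2]
    have e : ∀ n : ℕ, (if n = 0 then 0 else (∑' b : ℕ, (∑ y ∈ n.divisorsAntidiagonal,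
        GG q r s b y.1 * (y.2 : ℂ) ^ (s - 1)) * (b : ℂ) ^ (-s)) * (w2 (Real.log n / L) : ℂ)) =
        (Pc q : ℂ) * (if n ≠ 0 ∧ n.Coprime q then (n : ℂ) ^ (-(1 / 2) : ℂ) * nu (n * r) *
        ((r0 (n * r) : ℕ) : ℂ) ^ (s - 1 / 2) * (w2 (Real.log n / L) : ℂ) else 0) := by
      intro n
      by_cases hn : n = 0
      · simp [hn]
      · rw [if_neg hn, (h2 a ha ha1 q hq0 r hr hrq s hs n hn).1]
        by_cases hc : n.Coprime q
        · rw [if_pos hc, if_pos ⟨hn, hc⟩]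
          ring
        · rw [if_neg hc, if_neg (fun h => hc h.2)]
          ring
    simp only [e]
    rw [tsum_mul_left]
    ring
  -- second main term
  have e3 : (L : ℂ) * Pc q * (∫ y : ℝ, (w2 y : ℂ) * Complex.exp (s * L * y)) *
      (∑' n : ℕ, if n ≠ 0 ∧ n.Coprime q then (n : ℂ) ^ (-(1 / 2) : ℂ) * nu (n * r) *
        ((r0 (n * r) : ℕ) : ℂ) ^ (s - 1 / 2) * (w1 (Real.log n / L) : ℂ) else 0) =
      tt (GG q r s) (Ysum s L w1) (Mm s L w2) := by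
    rw [tt_swap, red2 (G := fun b c => GG q r s c b) ha1 hs hL w2 hw1 hG2 hG1
      (swap_summable hS) (hM w2) hY1]
    have e : ∀ n : ℕ, (if n = 0 then 0 else (∑' b : ℕ, (∑ y ∈ n.divisorsAntidiagonal,
        GG q r s y.1 b * (y.2 : ℂ) ^ (s - 1)) * (b : ℂ) ^ (-s)) * (w1 (Real.log n / L) : ℂ)) =
        (Pc q : ℂ) * (if n ≠ 0 ∧ n.Coprime q then (n : ℂ) ^ (-(1 / 2) : ℂ) * nu (n * r) *
        ((r0 (n * r) : ℕ) : ℂ) ^ (s - 1 / 2) * (w1 (Real.log n / L) : ℂ) else 0) := by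
      intro n
      by_cases hn : n = 0
      · simp [hn]
      · rw [if_neg hn, (h2 a ha ha1 q hq0 r hr hrq s hs n hn).2]
        by_cases hc : n.Coprime q
        · rw [if_pos hc, if_pos ⟨hn, hc⟩]
          ring
        · rw [if_neg hc, if_neg (fun h => hc h.2)]
          ring
    simp only [e]
    rw [tsum_mul_left]
    ring
  -- both main terms
  have e4 : (L : ℂ) ^ 2 * (∫ y : ℝ, (w1 y : ℂ) * Complex.exp (s * L * y)) *
      (∫ y : ℝ, (w2 y : ℂ) * Complex.exp (s * L * y)) * (Zq q s * hd s r) =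
      tt (GG q r s) (Mm s L w1) (Mm s L w2) := by
    rw [← h3 a ha ha1 q hq0 r hr hrq s hs]
    unfold PD tt
    rw [← tsum_mul_left]
    congr 1
    funext b
    rw [Nat.cast_mul, Complex.natCast_mul_natCast_cpow]
    unfold Mm
    ring
  rw [eU, e2, e3, e4, tt_diff hG1 hG2 hS hY1 hY2 (hM w1) (hM w2)]
  refine (tt_bound hG1 hG2 hS (hR w1 B1 hw1 hB1 hB10) (hR w2 B2 hw2 hB2 hB20)).trans ?_
  have hE : Real.exp (2 * a * (r1 * L)) * Real.exp (2 * a * (r1 * L)) ≤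
      Real.exp (4 * a * (|r1| * L)) := by
    rw [← Real.exp_add]
    apply Real.exp_le_exp.2
    have : r1 * L ≤ |r1| * L := mul_le_mul_of_nonneg_right (le_abs_self r1) hL0
    nlinarith
  have hpos : 0 ≤ C1 ^ 2 * (1 + ‖s‖) ^ 2 * B1 * B2 := by positivity
  have hr0 : 0 ≤ C2 * (r : ℝ) ^ (3 * a) := by positivity
  calc C1 * (1 + ‖s‖) * B1 * Real.exp (2 * a * (r1 * L)) *
        (C1 * (1 + ‖s‖) * B2 * Real.exp (2 * a * (r1 * L))) *
        ∑' b : ℕ × ℕ, ‖GG q r s b.1 b.2‖ * ((b.1 : ℝ) * b.2) ^ (-(2 * a))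
      = (C1 ^ 2 * (1 + ‖s‖) ^ 2 * B1 * B2) *
        (Real.exp (2 * a * (r1 * L)) * Real.exp (2 * a * (r1 * L))) *
        ∑' b : ℕ × ℕ, ‖GG q r s b.1 b.2‖ * ((b.1 : ℝ) * b.2) ^ (-(2 * a)) := by ring
    _ ≤ (C1 ^ 2 * (1 + ‖s‖) ^ 2 * B1 * B2) *
        (Real.exp (2 * a * (r1 * L)) * Real.exp (2 * a * (r1 * L))) *
        (C2 * (r : ℝ) ^ (3 * a)) := mul_le_mul_of_nonneg_left hSb (by positivity)
    _ ≤ (C1 ^ 2 * (1 + ‖s‖) ^ 2 * B1 * B2) * Real.exp (4 * a * (|r1| * L)) *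
        (C2 * (r : ℝ) ^ (3 * a)) :=
        mul_le_mul_of_nonneg_right (mul_le_mul_of_nonneg_left hE hpos) hr0
    _ = _ := by ring


theorem S3du (a : ℝ) (ha : 0 < a) (ha1 : a ≤ 1 / 8) : ∃ C : ℝ, 0 < C ∧ ∀ (q : ℕ), q ≠ 0 →
    ∀ (r : ℕ) (s : ℂ) (L r1 B1 B2 : ℝ) (w1 w2 : ℝ → ℝ), r ≠ 0 → r.Coprime q →
      s.re = 1 / 2 + a → 1 ≤ L → Wt r1 w1 → Wt r1 w2 → Bd 1 w1 B1 → Bd 1 w2 B2 →
      ‖(∑' m : ℕ × ℕ, K2 q r s m.1 m.2 * ((w1 (Real.log m.1 / L) * w2 (Real.log m.2 / L) : ℝ) : ℂ)) -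
        (L : ℂ) * Pc q * (∫ y : ℝ, (w1 y : ℂ) * Complex.exp (s * L * y)) *
          (∑' n : ℕ, if n ≠ 0 ∧ n.Coprime q then (n : ℂ) ^ (-(1 / 2) : ℂ) * nu (n * r) *
            ((r0 (n * r) : ℕ) : ℂ) ^ (s - 1 / 2) * (w2 (Real.log n / L) : ℂ) else 0) -
        (L : ℂ) * Pc q * (∫ y : ℝ, (w2 y : ℂ) * Complex.exp (s * L * y)) *
          (∑' n : ℕ, if n ≠ 0 ∧ n.Coprime q then (n : ℂ) ^ (-(1 / 2) : ℂ) * nu (n * r) *
            ((r0 (n * r) : ℕ) : ℂ) ^ (s - 1 / 2) * (w1 (Real.log n / L) : ℂ) else 0) +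
        (L : ℂ) ^ 2 * (∫ y : ℝ, (w1 y : ℂ) * Complex.exp (s * L * y)) *
          (∫ y : ℝ, (w2 y : ℂ) * Complex.exp (s * L * y)) * (Zq q s * hd s r)‖ ≤
      C * Cqf q * (1 + ‖s‖) ^ 2 * B1 * B2 * (r : ℝ) ^ (3 * a) *
        Real.exp (4 * a * (|r1| * L)) :=
  S3du_of Pool.Agent.H415R6.RZ6.SD0 Pool.Agent.H677R2.RZ6.SD2
    (Pool.Agent.H372R2.RZSD3.SD3_of Pool.Agent.H841R2.RZSD1.SD1 Pool.Agent.H677R2.RZ6.SD2) a ha ha1

end B

section C

open Pool.Agent.H145R2 Pool.Agent.H145R2.RZS4 Pool.Agent.H435R2.RZS4d Pool.Agent.H995R2.RGS4G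

theorem S4Gu (H : ℂ → ℂ) (hH : HPh H) (c : ℝ) (hc : 0 < c)
    (s θ : ℝ) (hs : 1 / 2 ≤ s) (hs1 : s < 1) (hθ : 0 < θ) (hθ1 : θ < 1 / 2) (κ : ℝ) (hκ : 0 < κ) :
    ∃ C a : ℝ, 0 < C ∧ 0 < a ∧ a ≤ 1 / 8 ∧ ∀ (q : ℕ), q ≠ 0 → ∀ L : ℝ, 1 ≤ L →
      ∀ (w1 w2 Q1 Q2 : ℝ → ℝ) (B1 B2 B3 B4 : ℝ),
      Wt s w1 → Wt s w2 → Wt θ Q1 → Wt θ Q2 → Bd 1 w1 B1 → Bd 1 w2 B2 → Bd 1 Q1 B3 → Bd 1 Q2 B4 →
      ‖(∑' a' : Fin 4 → ℕ, ((t4c q a' * w4 L w1 w2 Q1 Q2 a' : ℝ) : ℂ) *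
          Dsg H (c * Real.exp L) (∏ i, a' i) (1 / 2 + a)) -
        T2mg H (c * Real.exp L) q L w1 w2 Q1 Q2 (1 / 2 + a) -
        T2mg H (c * Real.exp L) q L w2 w1 Q2 Q1 (1 / 2 + a) +
        T2dg H (c * Real.exp L) q L w1 w2 Q1 Q2 (1 / 2 + a)‖ ≤
        C * Cqf q * B1 * B2 * B3 * B4 * Real.exp (-((1 / 2 - θ - κ) * L)) := by
  have hδ : 0 < 1 / 2 - θ := by linarith
  set a : ℝ := min (1 / 8) (κ / 8) with ha_def
  have ha : 0 < a := lt_min (by norm_num) (by linarith)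
  have ha1 : a ≤ 1 / 8 := min_le_left _ _
  have ha2 : a ≤ κ / 8 := min_le_right _ _
  obtain ⟨CH, hCH⟩ := hH.bd 4 (1 / 2 + a) (by linarith)
  have hCH0 : 0 ≤ CH := by
    have h1 := hCH 1 (by rw [Complex.one_re]; linarith) (by rw [Complex.one_re])
    have h2 : (0 : ℝ) < (1 + ‖(1 : ℂ)‖) ^ 4 := by simp
    have h3 := (norm_nonneg _).trans h1
    rw [le_div_iff₀ h2] at h3
    linarith
  obtain ⟨C3', hC3', hS3'⟩ := S3du a ha ha1
  set K0 : ℝ := CH * c ^ (-(1 / 2 + a)) with hK0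
  have hK00 : 0 ≤ K0 := by positivity
  refine ⟨2 * K0 * C3' + 1, a, by positivity, ha, ha1, ?_⟩
  intro q hq0 L hL w1 w2 Q1 Q2 B1 B2 B3 B4 h1 h2 h3 h4 b1 b2 b3 b4
  have hCq0 := Cqf_pos q
  obtain ⟨C3, hC3d⟩ : ∃ C3 : ℝ, C3 = C3' * Cqf q := ⟨_, rfl⟩
  have hC3 : 0 < C3 := by rw [hC3d]; positivity
  have hS3 := hS3' q hq0
  rw [← hC3d] at hS3
  obtain ⟨hZqd, hZqb⟩ := Pool.Agent.H532R2.RZ6ZQ.ZQ q hq0
  have hL0 : 0 < L := by linarith
  have e1 := RZS4.wt_nonneg b1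
  have e2 := RZS4.wt_nonneg b2
  have e3 := RZS4.wt_nonneg b3
  have e4 := RZS4.wt_nonneg b4
  set X : ℝ := c * Real.exp L with hX_def
  have hX : 0 < X := by positivity
  set σ : ℝ := 1 / 2 + a with hσ_def
  have hσ0 : 1 / 2 < σ := by rw [hσ_def]; linarith
  have hσ1 : σ ≤ 1 := by rw [hσ_def]; linarith
  have hσp : 0 < σ := by linarith
  have hZb : ∃ C : ℝ, ∀ t : ℝ, ‖Zq q ((σ : ℂ) + t * Complex.I)‖ ≤ C := by
    obtain ⟨C, hC⟩ := hZqb σ hσp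
    exact ⟨C, fun t => hC _ (by rw [RZS4.lin_re]) (by rw [RZS4.lin_re]; exact hσ1)⟩
  set K : ℝ := CH * X ^ (-σ) with hK_def
  have hKnn : 0 ≤ K := by positivity
  have hGc : Continuous (GN H X σ) := GN_cont H hH X σ hX hσ0 hσ1
  have hGb2 : ∀ t, ‖GN H X σ t‖ * (1 + ‖(σ : ℂ) + t * Complex.I‖) ^ 2 ≤ K * (1 + t ^ 2)⁻¹ :=
    fun t => GN_bd H CH hCH0 σ hCH X hX hσ1 t
  have hGb : ∀ t, ‖GN H X σ t‖ * (1 + ‖(σ : ℂ) + t * Complex.I‖) ≤ K * (1 + t ^ 2)⁻¹ :=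
    G_bd1 (GN H X σ) σ K hGb2
  set N1 : ℕ := ⌊Real.exp (s * L)⌋₊ with hN1
  set N2 : ℕ := ⌊Real.exp (θ * L)⌋₊ with hN2
  have E0 := total_eq H X σ K hGc hGb q L hL0 s θ w1 w2 Q1 Q2 h1 h2 h3 h4
  rw [← hN1, ← hN2, regroup (GN H X σ) σ K hGc hGb q L w2 Q1 Q2 N1 N2
    (fun r t => RZS4.SB q L w1 N1 r σ t) (fun r => RZS4.SB_cont q L w1 N1 r σ)
    (fun r => RZS4.SB_bdd q L w1 N1 r σ)] at E0
  have E1 := main_eq H X σ K hGc hGb q L hL0 s θ w1 w2 Q1 Q2 h1 h2 h3 h4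
  rw [← hN1, ← hN2, regroup (GN H X σ) σ K hGc hGb q L w2 Q1 Q2 N1 N2
    (fun r t => RZS4.MB q L w1 r σ t) (fun r => RZS4.MB_cont h1 q L r σ)
    (fun r => RZS4.MB_bdd w1 q L r σ)] at E1
  have E2 := main_eq H X σ K hGc hGb q L hL0 s θ w2 w1 Q2 Q1 h2 h1 h4 h3
  rw [← hN1, ← hN2, regroup (GN H X σ) σ K hGc hGb q L w1 Q2 Q1 N1 N2
    (fun r t => RZS4.MB q L w2 r σ t) (fun r => RZS4.MB_cont h2 q L r σ)
    (fun r => RZS4.MB_bdd w2 q L r σ)] at E2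
  have E2' : T2mg H X q L w2 w1 Q2 Q1 σ = ∑ p ∈ Icc 1 N2 ×ˢ Icc 1 N2, (c2 q L Q1 Q2 p : ℂ) *
        (((1 / (2 * Real.pi) : ℂ) * ∫ t, GN H X σ t *
          ∑ n ∈ Icc 1 N1, u1 q L w1 n * RZS4.MB q L w2 (n * (p.1 * p.2)) σ t)) := by
    rw [E2]
    refine Finset.sum_nbij' Prod.swap Prod.swap ?_ ?_ ?_ ?_ ?_
    · intro p hp
      rw [Finset.mem_product] at hp ⊢
      exact ⟨hp.2, hp.1⟩
    · intro p hp
      rw [Finset.mem_product] at hp ⊢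
      exact ⟨hp.2, hp.1⟩
    · intro p _
      rfl
    · intro p _
      rfl
    · intro p _
      rw [← c2_swap q L Q2 Q1 p]
      simp only [Prod.fst_swap, Prod.snd_swap]
      rw [Nat.mul_comm p.2 p.1]
  have E3 := dbl_eq H X σ K hσp hGc hGb q hZqd hZb L hL0 s θ w1 w2 Q1 Q2 h1 h2 h3 h4
  rw [← hN2] at E3
  rw [E0, E1, E2', E3, ← Finset.sum_sub_distrib, ← Finset.sum_sub_distrib,
    ← Finset.sum_add_distrib]
  -- the estimate for one pair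
  have hone : ∀ p ∈ Icc 1 N2 ×ˢ Icc 1 N2,
      ‖(c2 q L Q1 Q2 p : ℂ) * (((1 / (2 * Real.pi) : ℂ) * ∫ t, GN H X σ t *
          ∑ n ∈ Icc 1 N1, u1 q L w2 n * RZS4.SB q L w1 N1 (n * (p.1 * p.2)) σ t)) -
        (c2 q L Q1 Q2 p : ℂ) * (((1 / (2 * Real.pi) : ℂ) * ∫ t, GN H X σ t *
          ∑ n ∈ Icc 1 N1, u1 q L w2 n * RZS4.MB q L w1 (n * (p.1 * p.2)) σ t)) -
        (c2 q L Q1 Q2 p : ℂ) * (((1 / (2 * Real.pi) : ℂ) * ∫ t, GN H X σ t *
          ∑ n ∈ Icc 1 N1, u1 q L w1 n * RZS4.MB q L w2 (n * (p.1 * p.2)) σ t)) +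
        (c2 q L Q1 Q2 p : ℂ) * (((1 / (2 * Real.pi) : ℂ) *
          ∫ t, GN H X σ t * DB q L w1 w2 (p.1 * p.2) σ t))‖ ≤
      (1 / 2 * K * C3 * B1 * B2 * B3 * B4 * Real.exp (4 * a * (s * L))) *
        (((p.1 : ℝ) ^ (3 * a) / Real.sqrt (p.1 : ℝ)) *
          ((p.2 : ℝ) ^ (3 * a) / Real.sqrt (p.2 : ℝ))) := by
    intro p _
    by_cases hcond : (p.1 ≠ 0 ∧ p.1.Coprime q) ∧ (p.2 ≠ 0 ∧ p.2.Coprime q)
    · have hr0 : p.1 * p.2 ≠ 0 := Nat.mul_ne_zero hcond.1.1 hcond.2.1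
      have hrc : (p.1 * p.2).Coprime q := Nat.Coprime.mul_left hcond.1.2 hcond.2.2
      have hE : ∀ t, ‖(∑ n ∈ Icc 1 N1, u1 q L w2 n * RZS4.SB q L w1 N1 (n * (p.1 * p.2)) σ t) -
          (∑ n ∈ Icc 1 N1, u1 q L w2 n * RZS4.MB q L w1 (n * (p.1 * p.2)) σ t) -
          (∑ n ∈ Icc 1 N1, u1 q L w1 n * RZS4.MB q L w2 (n * (p.1 * p.2)) σ t) +
          DB q L w1 w2 (p.1 * p.2) σ t‖ ≤
          (C3 * B1 * B2 * ((p.1 * p.2 : ℕ) : ℝ) ^ (3 * a) * Real.exp (4 * a * (s * L))) *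
            (1 + ‖(σ : ℂ) + t * Complex.I‖) ^ 2 := by
        intro t
        have h5 := hS3 (p.1 * p.2) ((σ : ℂ) + t * Complex.I) L s B1 B2 w1 w2 hr0 hrc
          (by rw [RZS4.lin_re]) hL h1 h2 b1 b2
        rw [SS_tsum q L hL0 s w1 w2 h1 h2 (p.1 * p.2) σ t,
          MM_tsum q L hL0 s w1 w2 h2 (p.1 * p.2) σ t,
          MM_tsum q L hL0 s w2 w1 h1 (p.1 * p.2) σ t, abs_of_nonneg (show (0 : ℝ) ≤ s by linarith)]
          at h5
        have h6 : (L : ℂ) ^ 2 *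
            (∫ y : ℝ, (w1 y : ℂ) * Complex.exp (((σ : ℂ) + t * Complex.I) * L * y)) *
            (∫ y : ℝ, (w2 y : ℂ) * Complex.exp (((σ : ℂ) + t * Complex.I) * L * y)) *
            (Zq q ((σ : ℂ) + t * Complex.I) * hd ((σ : ℂ) + t * Complex.I) (p.1 * p.2)) =
            DB q L w1 w2 (p.1 * p.2) σ t := rfl
        rw [h6, ← hN1] at h5
        refine h5.trans (le_of_eq ?_)
        ring
      have h7 := one_p (GN H X σ) σ K hGc hGb2 _ _ _ _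
        (u1_cont q L w2 N1 (p.1 * p.2) (fun r t => RZS4.SB q L w1 N1 r σ t)
          (fun r => RZS4.SB_cont q L w1 N1 r σ))
        (u1_cont q L w2 N1 (p.1 * p.2) (fun r t => RZS4.MB q L w1 r σ t)
          (fun r => RZS4.MB_cont h1 q L r σ))
        (u1_cont q L w1 N1 (p.1 * p.2) (fun r t => RZS4.MB q L w2 r σ t)
          (fun r => RZS4.MB_cont h2 q L r σ))
        (DB_cont h1 h2 q L (p.1 * p.2) σ hσp hZqd)
        (u1_bdd q L w2 N1 (p.1 * p.2) (fun r t => RZS4.SB q L w1 N1 r σ t)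
          (fun r => RZS4.SB_bdd q L w1 N1 r σ))
        (u1_bdd q L w2 N1 (p.1 * p.2) (fun r t => RZS4.MB q L w1 r σ t)
          (fun r => RZS4.MB_bdd w1 q L r σ))
        (u1_bdd q L w1 N1 (p.1 * p.2) (fun r t => RZS4.MB q L w2 r σ t)
          (fun r => RZS4.MB_bdd w2 q L r σ))
        (DB_bdd w1 w2 q L (p.1 * p.2) σ hσp hZb) _ (by positivity) hE
      have h8 := c2_bd q L Q1 Q2 B3 B4 b3 b4 p
      have h9 : ‖(1 / (2 * Real.pi) : ℂ)‖ = 1 / (2 * Real.pi) := by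
        rw [norm_div, norm_mul, Complex.norm_real]
        simp [abs_of_pos Real.pi_pos]
      rw [← mul_sub, ← mul_sub, ← mul_add, ← mul_sub, ← mul_sub, ← mul_add,
        norm_mul, norm_mul, h9, Complex.norm_real, Real.norm_eq_abs]
      have h10 : ((p.1 * p.2 : ℕ) : ℝ) ^ (3 * a) / Real.sqrt ((p.1 * p.2 : ℕ) : ℝ) =
          ((p.1 : ℝ) ^ (3 * a) / Real.sqrt (p.1 : ℝ)) *
            ((p.2 : ℝ) ^ (3 * a) / Real.sqrt (p.2 : ℝ)) := by
        push_cast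
        rw [Real.sqrt_mul (by positivity), Real.mul_rpow (by positivity) (by positivity),
          mul_div_mul_comm]
      have hpi := Real.pi_pos
      refine (mul_le_mul h8 (mul_le_mul_of_nonneg_left h7
        (by positivity)) (by positivity) (by positivity)).trans (le_of_eq ?_)
      rw [← h10]
      have hpi0 := Real.pi_ne_zero
      field_simp
    · have hz : c2 q L Q1 Q2 p = 0 := by
        unfold c2
        rw [if_neg hcond]
      rw [hz]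
      simp only [Complex.ofReal_zero, zero_mul, sub_zero, add_zero, norm_zero]
      positivity
  refine (norm_sum_le _ _).trans ((Finset.sum_le_sum hone).trans ?_)
  rw [← Finset.mul_sum, Finset.sum_product]
  simp_rw [← Finset.mul_sum]
  rw [← Finset.sum_mul]
  have hY2 : (N2 : ℝ) ≤ Real.exp (θ * L) := Nat.floor_le (Real.exp_pos _).le
  have s2 := RZS4.sum_rpow a ha.le N2 _ (Real.exp_pos (θ * L)) hY2
  have s2' : 0 ≤ ∑ b ∈ Icc 1 N2, ((b : ℝ) ^ (3 * a) / Real.sqrt (b : ℝ)) :=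
    Finset.sum_nonneg (fun i _ => by positivity)
  have hKX : K = K0 * Real.exp (-(1 / 2 + a) * L) := by
    rw [hK_def, hK0, hX_def, hσ_def, Real.mul_rpow (by positivity) (by positivity),
      ← Real.exp_mul, mul_comm L]
    ring
  calc (1 / 2 * K * C3 * B1 * B2 * B3 * B4 * Real.exp (4 * a * (s * L))) *
        ((∑ n ∈ Icc 1 N2, ((n : ℝ) ^ (3 * a) / Real.sqrt (n : ℝ))) *
          (∑ n ∈ Icc 1 N2, ((n : ℝ) ^ (3 * a) / Real.sqrt (n : ℝ))))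
      ≤ (1 / 2 * K * C3 * B1 * B2 * B3 * B4 * Real.exp (4 * a * (s * L))) *
        ((2 * Real.exp (θ * L) ^ (1 / 2 + 3 * a)) * (2 * Real.exp (θ * L) ^ (1 / 2 + 3 * a))) := by
        gcongr
    _ = 2 * K0 * C3 * B1 * B2 * B3 * B4 * Real.exp (-(1 / 2 + a) * L + 4 * a * (s * L) +
          (1 / 2 + 3 * a) * (θ * L) + (1 / 2 + 3 * a) * (θ * L)) := by
        rw [hKX, Real.exp_add, Real.exp_add, Real.exp_add, ← Real.exp_mul,
          mul_comm (θ * L) (1 / 2 + 3 * a)]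
        ring
    _ ≤ 2 * K0 * C3 * B1 * B2 * B3 * B4 * Real.exp (-((1 / 2 - θ - κ) * L)) := by
        apply mul_le_mul_of_nonneg_left _ (by positivity)
        refine Real.exp_le_exp.mpr ?_
        have g1 : a * s ≤ a := by nlinarith
        have g2 : a * θ ≤ a * (1 / 2) := by nlinarith
        have g3 : -(1 / 2 + a) + 4 * a * s + (1 / 2 + 3 * a) * θ + (1 / 2 + 3 * a) * θ ≤
            -(1 / 2 - θ - κ) := by nlinarith
        nlinarith [mul_le_mul_of_nonneg_right g3 hL0.le]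
    _ ≤ (2 * K0 * C3' + 1) * Cqf q * B1 * B2 * B3 * B4 * Real.exp (-((1 / 2 - θ - κ) * L)) := by
        apply mul_le_mul_of_nonneg_right _ (Real.exp_pos _).le
        have : 0 ≤ B1 * B2 * B3 * B4 := by positivity
        rw [hC3d]
        nlinarith [mul_nonneg hCq0.le this]

end C

end

end Pool.Agent.N782.SU
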