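import Pool.Agent.N782.FWa
import Pool.Agent.N782.MW1
import Pool.Agent.N782.MW2
import Pool.Agent.N782.KW5
import Pool.Agent.N782.SUu
import Pool.Agent.N782.EZGu
import Pool.Agent.H317R2.RG_UBG
import Pool.Agent.H423R2.RGL.S5G
import Pool.Agent.H423R2.RGL.HPw
import Pool.Agent.Helper112.Arith

set_option autoImplicit false

/-! The weighted second moment: decomposition and error (helper782). -/

namespace Pool.Agent.N782.FW

open Finset Filter Topology MeasureTheory Pool.Agent.N782.LX Pool.Agent.N782.EW Pool.Agent.N782.KW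
open Pool.Agent.H306R2.RZ Pool.Agent.H306R2.RG Pool.Agent.N782.FE Pool.Agent.N782.SU
open Pool.Agent.N782.KV
open Pool.Agent.H317R2.RG (summR summC t1_t4 odd_prod t4_ne Bd_mono Bd_nonneg Wt_mono wt_bd swapI)

noncomputable section

/-- admissible lengths for the weighted second moment -/
structure AdmW (s θ s' : ℝ) : Prop where
  adm : Adm2 s θ
  hs' : 0 < s'
  m1 : 4 * s' + s + θ < 1

/-- the main part -/
def Mn (F : ℝ → ℝ) (H : ℂ → ℂ) (c L : ℝ) (w1 w2 Q1 Q2 : ℝ → ℝ) (e : ℕ) : ℂ :=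
  ((1 / 2 * Ft F 0 : ℝ) : ℂ) * M1e L w1 w2 Q1 Q2 e + M2e H c L w1 w2 Q1 Q2 e +
    M2e H c L w2 w1 Q2 Q1 e - M5e H c L w1 w2 Q1 Q2 e

/-- the decomposition of the second moment over the multiples of `e` -/
theorem decompE (ε : ℤ) (F : ℝ → ℝ) (hF : TF F) (H : ℂ → ℂ) (e : ℕ) (he : Odd e)
    (hE : ∀ X : ℝ, 0 < X → ∀ n : ℕ, Odd n → Nat.Coprime n e → ∀ σ0 : ℝ, 1 / 2 < σ0 → σ0 ≤ 1 →
      (((e : ℝ) * EAg (Fe ε e) F X (fun d => js ((Fe ε e).e * (d : ℤ)) n) : ℝ) : ℂ) =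
        ((1 / 2 * Ft F 0 * (if IsSquare n then (n.totient : ℝ) / n else 0) : ℝ) : ℂ) +
        Dsg H X n σ0 + ((1 / 2 * Dng F (be e) ((ε : ℝ) / (2 * (e : ℝ) ^ 2)) X n : ℝ) : ℂ))
    (X : ℝ) (hX : 0 < X) (L : ℝ) (hL : 0 < L) (s : ℝ)
    (w1 w2 Q1 Q2 : ℝ → ℝ) (h1 : Wt s w1) (h2 : Wt s w2) (h3 : Wt s Q1) (h4 : Wt s Q2)
    (σ0 : ℝ) (hσ : 1 / 2 < σ0) (hσ1 : σ0 ≤ 1) :
    (((e : ℝ) * TTg (Fe ε e) F X (2 * e) L w1 Q1 w2 Q2 : ℝ) : ℂ) =
      ((1 / 2 * Ft F 0 * ∑' a : Fin 4 → ℕ, t1c (2 * e) a * w4 L w1 w2 Q1 Q2 a : ℝ) : ℂ) +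
      (∑' a : Fin 4 → ℕ, ((t4c (2 * e) a * w4 L w1 w2 Q1 Q2 a : ℝ) : ℂ) *
        Dsg H X (∏ i, a i) σ0) +
      ((1 / 2 * (∑' a : Fin 4 → ℕ, t4c (2 * e) a * w4 L w1 w2 Q1 Q2 a *
        Dng F (be e) ((ε : ℝ) / (2 * (e : ℝ) ^ 2)) X (∏ i, a i)) : ℝ) : ℂ) := by
  have he0 : e ≠ 0 := by rintro rfl; exact absurd he (by decide)
  have hq : Even (2 * e) := even_two_mul e
  have hq0 : 2 * e ≠ 0 := Nat.mul_ne_zero two_ne_zero he0
  have sC := fun f => summC (2 * e) hL h1 h2 h3 h4 f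
  rw [Pool.Agent.H935R2.RGX1.X1G (Fe ε e) (fun d hd => hd.1) F hF X hX (2 * e) hq hq0 L hL s
    w1 w2 Q1 Q2 h1 h2 h3 h4]
  have e0 : (e : ℝ) * ∑' a : Fin 4 → ℕ, t4c (2 * e) a * w4 L w1 w2 Q1 Q2 a *
      EAg (Fe ε e) F X (fun d => js ((Fe ε e).e * (d : ℤ)) (∏ i, a i)) =
      ∑' a : Fin 4 → ℕ, t4c (2 * e) a * w4 L w1 w2 Q1 Q2 a *
      ((e : ℝ) * EAg (Fe ε e) F X (fun d => js ((Fe ε e).e * (d : ℤ)) (∏ i, a i))) := by
    rw [← tsum_mul_left]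
    apply tsum_congr
    intro a
    ring
  have e1 : (1 / 2 * Ft F 0 * ∑' a : Fin 4 → ℕ, t1c (2 * e) a * w4 L w1 w2 Q1 Q2 a) =
      ∑' a : Fin 4 → ℕ, t4c (2 * e) a * w4 L w1 w2 Q1 Q2 a * (1 / 2 * Ft F 0 *
        (if IsSquare (∏ i, a i) then (((∏ i, a i : ℕ).totient : ℝ) / ((∏ i, a i : ℕ) : ℝ)) else 0)) := by
    rw [← tsum_mul_left]
    apply tsum_congr
    intro a
    rw [t1_t4]
    ring
  have e2 : (1 / 2 * (∑' a : Fin 4 → ℕ, t4c (2 * e) a * w4 L w1 w2 Q1 Q2 a *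
        Dng F (be e) ((ε : ℝ) / (2 * (e : ℝ) ^ 2)) X (∏ i, a i))) =
      ∑' a : Fin 4 → ℕ, t4c (2 * e) a * w4 L w1 w2 Q1 Q2 a * (1 / 2 *
        Dng F (be e) ((ε : ℝ) / (2 * (e : ℝ) ^ 2)) X (∏ i, a i)) := by
    rw [← tsum_mul_left]
    apply tsum_congr
    intro a
    ring
  rw [e0, e1, e2]
  simp only [Complex.ofReal_tsum]
  have hC : ∀ (a : Fin 4 → ℕ) (y : ℝ),
      ((t4c (2 * e) a * w4 L w1 w2 Q1 Q2 a * y : ℝ) : ℂ) =
      ((t4c (2 * e) a * w4 L w1 w2 Q1 Q2 a : ℝ) : ℂ) * (y : ℂ) := fun a y =>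
    Complex.ofReal_mul _ _
  simp only [hC]
  rw [← (sC _).tsum_add (sC _), ← Summable.tsum_add ((sC _).add (sC _)) (sC _)]
  apply tsum_congr
  intro a
  by_cases h0 : t4c (2 * e) a = 0
  · rw [h0]; simp
  · have hn := t4_ne h0
    have ho := odd_prod hq hn
    have hco : Nat.Coprime (∏ i, a i) e := by
      apply Nat.Coprime.prod_left
      intro i _
      exact Nat.Coprime.coprime_mul_left_right (hn i).2
    rw [hE X hX _ ho hco σ0 hσ hσ1]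
    ring

/-- `248^ω` is small -/
theorem Cqf_le (κ : ℝ) (hκ : 0 < κ) : ∃ C : ℝ, 0 < C ∧ ∀ e : ℕ, Odd e → Squarefree e →
    Cqf (2 * e) ≤ C * (e : ℝ) * (e : ℝ) ^ κ := by
  obtain ⟨C, hC, hd⟩ := Pool.Agent.Helper112.divisor_bound (κ / 8) (by positivity)
  refine ⟨496 * C ^ 8, by positivity, ?_⟩
  intro e he hsq
  have he0 : e ≠ 0 := hsq.ne_zero
  have hepos : 0 < e := Nat.pos_of_ne_zero he0
  have heR : (0 : ℝ) < e := by exact_mod_cast hepos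
  have hcop : Nat.Coprime 2 e := (Nat.coprime_two_left).2 he
  have h1 : (2 * e).primeFactors = insert 2 e.primeFactors := by
    rw [Nat.primeFactors_mul two_ne_zero he0, Nat.prime_two.primeFactors]
    rfl
  have h2 : 2 ∉ e.primeFactors := by
    intro h
    have h3 := Nat.dvd_of_mem_primeFactors h
    exact (Nat.not_even_iff_odd.2 he) (even_iff_two_dvd.2 h3)
  have h3 : ∏ p ∈ e.primeFactors, (p : ℝ) = e := by
    rw [← Nat.cast_prod, Nat.prod_primeFactors_of_squarefree hsq]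
  have h4 : (e.divisors.card : ℝ) = (2 : ℝ) ^ e.primeFactors.card := by
    have h7 : e.divisors.card = 2 ^ e.primeFactors.card := by
      rw [Nat.card_divisors he0, Finset.prod_congr rfl (g := fun _ => 2), Finset.prod_const]
      intro p hp
      have h8 := hsq.natFactorization_le_one p
      have h9 : e.factorization p ≠ 0 := by
        rw [← Nat.support_factorization] at hp
        exact Finsupp.mem_support_iff.1 hp
      omega
    exact_mod_cast h7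
  have h5 : ((248 : ℝ)) ^ e.primeFactors.card ≤ (C * (e : ℝ) ^ (κ / 8)) ^ 8 := by
    calc ((248 : ℝ)) ^ e.primeFactors.card ≤ ((2 : ℝ) ^ 8) ^ e.primeFactors.card := by
          gcongr
          norm_num
      _ = ((2 : ℝ) ^ e.primeFactors.card) ^ 8 := by rw [← pow_mul, ← pow_mul, mul_comm]
      _ = (e.divisors.card : ℝ) ^ 8 := by rw [h4]
      _ ≤ _ := by
          gcongr
          exact hd e hepos
  have h6 : ((e : ℝ) ^ (κ / 8)) ^ 8 = (e : ℝ) ^ κ := by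
    rw [← Real.rpow_natCast, ← Real.rpow_mul heR.le]
    congr 1
    push_cast
    ring
  unfold Cqf
  rw [h1, prod_insert h2, prod_mul_distrib, prod_const, h3]
  calc 248 * ((2 : ℕ) : ℝ) * ((248 : ℝ) ^ e.primeFactors.card * e)
      ≤ 248 * ((2 : ℕ) : ℝ) * ((C * (e : ℝ) ^ (κ / 8)) ^ 8 * e) := by gcongr
    _ = 496 * C ^ 8 * e * ((e : ℝ) ^ (κ / 8)) ^ 8 := by push_cast; ring
    _ = _ := by rw [h6]

end

end Pool.Agent.N782.FW
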