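import Pool.Agent.N782.FWb

set_option autoImplicit false

/-! The weighted second moment: error (helper782). -/

namespace Pool.Agent.N782.FW

open Finset Filter Topology MeasureTheory Pool.Agent.N782.LX Pool.Agent.N782.EW Pool.Agent.N782.KW
open Pool.Agent.H306R2.RZ Pool.Agent.H306R2.RG Pool.Agent.N782.FE Pool.Agent.N782.SU
open Pool.Agent.N782.KV
open Pool.Agent.H317R2.RG (summR summC t1_t4 odd_prod t4_ne Bd_mono Bd_nonneg Wt_mono wt_bd swapI)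

noncomputable section

theorem err_bound (ε : ℤ) (hε : ε = 1 ∨ ε = -1) (F : ℝ → ℝ) (hF : TF F) (c : ℝ) (hc : 0 < c)
    (s θ s' : ℝ) (hA : AdmW s θ s') : ∃ H : ℂ → ℂ, HP H (-(1 / 4 * Ft F 0)) ∧
    ∃ (C η : ℝ) (k : ℕ), 0 < C ∧ 0 < η ∧ ∀ L : ℝ, 4 ≤ L → ∀ (w1 w2 Q1 Q2 : ℝ → ℝ)
      (B1 B2 B3 B4 : ℝ), Wt s w1 → Wt s w2 → Wt θ Q1 → Wt θ Q2 →
      Bd k w1 B1 → Bd k w2 B2 → Bd k Q1 B3 → Bd k Q2 B4 →
      ∀ e : ℕ, Odd e → Squarefree e → (e : ℝ) ≤ Real.exp (2 * s' * L) →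
      ‖(((e : ℝ) * TTg (Fe ε e) F (c * Real.exp L) (2 * e) L w1 Q1 w2 Q2 : ℝ) : ℂ) -
        Mn F H c L w1 w2 Q1 Q2 e‖ ≤ C * (B1 * B2 * B3 * B4) * Real.exp (-(η * L)) := by
  obtain ⟨H, hH, hE⟩ := DECe ε hε F hF
  refine ⟨H, hH, ?_⟩
  obtain ⟨hHl, hHh⟩ := Pool.Agent.H306R2.RG.LnkA.HPw H _ hH
  have hs := hA.adm.hs
  have hθ := hA.adm.hθ
  have hθ1 := hA.adm.hθ1
  have hs1 := hA.adm.hs1
  have hs' := hA.hs'
  have hm := hA.m1
  obtain ⟨η, hηd⟩ : ∃ η : ℝ, η = (1 - s - θ - 4 * s') / 4 := ⟨_, rfl⟩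
  have hη : 0 < η := by rw [hηd]; linarith
  have hη1 : η ≤ 1 := by rw [hηd]; linarith
  have hη2 : 2 * s' + θ - 1 / 2 ≤ -(4 * η) := by rw [hηd]; linarith
  have hη3 : 4 * s' + (s + θ - 1) ≤ -(4 * η) := by rw [hηd]; linarith
  obtain ⟨C4, a, hC4, ha, ha1, h4⟩ := S4Gu H hHh c hc s θ hs hs1 hθ hθ1 η hη
  obtain ⟨C7, k7, hC7, h7⟩ := Pool.Agent.N782.EZGu.EZGu F hF c hc s θ hA.adm η hη hη1
  obtain ⟨Cq, hCq, hq⟩ := Cqf_le η hη
  refine ⟨C4 * Cq + 2 * C7, η, k7 ⊔ 1, by positivity, hη, ?_⟩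
  intro L hL w1 w2 Q1 Q2 B1 B2 B3 B4 hw1 hw2 hQ1 hQ2 d1 d2 d3 d4 e he hsq hle
  have hL0 : 0 < L := by linarith
  have he0 : e ≠ 0 := hsq.ne_zero
  have hepos : 0 < e := Nat.pos_of_ne_zero he0
  have heR : (1 : ℝ) ≤ e := by exact_mod_cast hepos
  have hθs : θ ≤ s := by linarith
  have hQ1' := Wt_mono hQ1 hθs
  have hQ2' := Wt_mono hQ2 hθs
  have hX : 0 < c * Real.exp L := by positivity
  have m7 : k7 ≤ k7 ⊔ 1 := le_sup_left
  have mt : 1 ≤ k7 ⊔ 1 := le_sup_right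
  have hq0 : 2 * e ≠ 0 := Nat.mul_ne_zero two_ne_zero he0
  have b1 := Bd_nonneg d1
  have b2 := Bd_nonneg d2
  have b3 := Bd_nonneg d3
  have b4 := Bd_nonneg d4
  set B : ℝ := B1 * B2 * B3 * B4 with hB
  have hB0 : 0 ≤ B := by positivity
  -- squares
  have e4 := h4 (2 * e) hq0 L (by linarith) w1 w2 Q1 Q2 B1 B2 B3 B4 hw1 hw2 hQ1 hQ2 (Bd_mono d1 mt)
    (Bd_mono d2 mt) (Bd_mono d3 mt) (Bd_mono d4 mt)
  have hσ1 : (0 : ℝ) < 1 / L := by positivity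
  have hσ : 1 / L ≤ 1 / 2 + a := by
    rw [div_le_iff₀ (by linarith)]
    nlinarith
  obtain ⟨f1, f1d⟩ := Pool.Agent.H306R2.RG.LnkA.S5G H _ hH (c * Real.exp L) hX (2 * e) hq0 L hL0 s
    w1 w2 Q1 Q2 hw1 hw2 hQ1' hQ2' (1 / 2 + a) (1 / L) hσ1 hσ (by linarith)
  obtain ⟨f2, -⟩ := Pool.Agent.H306R2.RG.LnkA.S5G H _ hH (c * Real.exp L) hX (2 * e) hq0 L hL0 s
    w2 w1 Q2 Q1 hw2 hw1 hQ2' hQ1' (1 / 2 + a) (1 / L) hσ1 hσ (by linarith)
  rw [f1, f2, f1d] at e4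
  -- non-squares
  set c0 : ℝ := (ε : ℝ) / (2 * (e : ℝ) ^ 2) with hc0
  have hεabs : |(ε : ℝ)| = 1 := by rcases hε with rfl | rfl <;> norm_num
  have hc0abs : |c0| = 1 / (2 * (e : ℝ) ^ 2) := by
    rw [hc0, abs_div, hεabs, abs_of_pos (by positivity : (0 : ℝ) < 2 * (e : ℝ) ^ 2)]
  have hc0ne : c0 ≠ 0 := by
    intro h
    rw [h, abs_zero] at hc0abs
    have : 0 < 1 / (2 * (e : ℝ) ^ 2) := by positivity
    linarith
  have hc0inv : |c0|⁻¹ = 2 * (e : ℝ) ^ 2 := by rw [hc0abs, one_div, inv_inv]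
  have hc0pos : 0 < |c0| := abs_pos.2 hc0ne
  have he2 : (e : ℝ) ^ 2 ≤ Real.exp (4 * s' * L) := by
    calc (e : ℝ) ^ 2 ≤ (Real.exp (2 * s' * L)) ^ 2 := by gcongr
      _ = Real.exp (4 * s' * L) := by
          rw [← Real.exp_nat_mul]; congr 1; push_cast; ring
  have h2exp : (2 : ℝ) ≤ Real.exp L := by
    have := Real.add_one_le_exp L
    linarith
  have hs8 : s' ≤ 1 / 8 := by linarith
  have hsL : 4 * s' * L ≤ L := by nlinarith
  have hc0inv2 : |c0|⁻¹ ≤ Real.exp (4 * L) := by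
    rw [hc0inv]
    calc 2 * (e : ℝ) ^ 2 ≤ Real.exp L * Real.exp (4 * s' * L) := by gcongr
      _ = Real.exp (L + 4 * s' * L) := by rw [Real.exp_add]
      _ ≤ Real.exp (4 * L) := Real.exp_le_exp.2 (by nlinarith)
  have hc0ge : Real.exp (-(4 * L)) ≤ |c0| := by
    rw [Real.exp_neg]
    have := inv_anti₀ (inv_pos.2 hc0pos) hc0inv2
    rwa [inv_inv] at this
  have hc0le : |c0| ≤ 1 := by
    rw [hc0abs, div_le_one (by positivity)]
    nlinarith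
  have hqL : ((2 * e : ℕ) : ℝ) ≤ Real.exp (4 * L) := by
    push_cast
    calc 2 * (e : ℝ) ≤ Real.exp L * Real.exp (2 * s' * L) := by gcongr
      _ = Real.exp (L + 2 * s' * L) := by rw [Real.exp_add]
      _ ≤ Real.exp (4 * L) := Real.exp_le_exp.2 (by nlinarith)
  have e7 := h7 (be e) (be_abs e) c0 hc0ne (2 * e) (even_two_mul e) hq0 L (by linarith) hc0ge hc0le
    hqL w1 w2 Q1 Q2 B1 B2 B3 B4 hw1 hw2 hQ1 hQ2 (Bd_mono d1 m7)
    (Bd_mono d2 m7) (Bd_mono d3 m7) (Bd_mono d4 m7)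
  have hdec := decompE ε F hF H e he (fun X hX n hn hn' σ0 h1 h2 => hE e he hsq X hX n hn hn' σ0
    h1 h2) (c * Real.exp L) hX L hL0 s w1 w2 Q1 Q2 hw1 hw2 hQ1' hQ2' (1 / 2 + a) (by linarith)
    (by linarith)
  rw [hdec]
  unfold Mn M1e M2e M5e
  set D1 : ℝ := ∑' a : Fin 4 → ℕ, t1c (2 * e) a * w4 L w1 w2 Q1 Q2 a
  set D2 : ℂ := ∑' a' : Fin 4 → ℕ, ((t4c (2 * e) a' * w4 L w1 w2 Q1 Q2 a' : ℝ) : ℂ) *
    Dsg H (c * Real.exp L) (∏ i, a' i) (1 / 2 + a)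
  set D3 : ℝ := ∑' a : Fin 4 → ℕ, t4c (2 * e) a * w4 L w1 w2 Q1 Q2 a *
    Dng F (be e) c0 (c * Real.exp L) (∏ i, a i)
  set T2 : ℂ := T2mg H (c * Real.exp L) (2 * e) L w1 w2 Q1 Q2 (1 / L)
  set T2' : ℂ := T2mg H (c * Real.exp L) (2 * e) L w2 w1 Q2 Q1 (1 / L)
  set T3 : ℂ := T2dg H (c * Real.exp L) (2 * e) L w1 w2 Q1 Q2 (1 / L)
  have hrw : ((1 / 2 * Ft F 0 * D1 : ℝ) : ℂ) + D2 + ((1 / 2 * D3 : ℝ) : ℂ) -
      (((1 / 2 * Ft F 0 : ℝ) : ℂ) * (D1 : ℂ) + T2 + T2' - T3) =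
      (D2 - T2 - T2' + T3) + ((1 / 2 * D3 : ℝ) : ℂ) := by
    push_cast
    ring
  rw [hrw]
  refine (norm_add_le _ _).trans ?_
  rw [Complex.norm_real, Real.norm_eq_abs, abs_mul]
  -- the two error terms
  have r1 : C4 * Cqf (2 * e) * B1 * B2 * B3 * B4 * Real.exp (-((1 / 2 - θ - η) * L)) ≤
      C4 * Cq * B * Real.exp (-(η * L)) := by
    have h1 := hq e he hsq
    have h2 : (e : ℝ) ^ η ≤ Real.exp (η * L) := by
      calc (e : ℝ) ^ η ≤ (Real.exp (2 * s' * L)) ^ η := by gcongr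
        _ = Real.exp (2 * s' * L * η) := by rw [← Real.exp_mul]
        _ ≤ Real.exp (η * L) := Real.exp_le_exp.2 (by nlinarith [mul_pos hη hL0])
    calc C4 * Cqf (2 * e) * B1 * B2 * B3 * B4 * Real.exp (-((1 / 2 - θ - η) * L))
        = C4 * Cqf (2 * e) * B * Real.exp (-((1 / 2 - θ - η) * L)) := by rw [hB]; ring
      _ ≤ C4 * (Cq * (e : ℝ) * (e : ℝ) ^ η) * B * Real.exp (-((1 / 2 - θ - η) * L)) := by gcongr
      _ ≤ C4 * (Cq * Real.exp (2 * s' * L) * Real.exp (η * L)) * B *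
            Real.exp (-((1 / 2 - θ - η) * L)) := by gcongr
      _ = C4 * Cq * B * Real.exp (2 * s' * L + η * L + -((1 / 2 - θ - η) * L)) := by
          rw [Real.exp_add, Real.exp_add]; ring
      _ ≤ _ := by
          gcongr
          nlinarith
  have hhalf : |c0| ^ (-(1 / 2) : ℝ) ≤ 2 * (e : ℝ) := by
    have h1 : |c0| ^ (-(1 / 2) : ℝ) = (2 * (e : ℝ) ^ 2) ^ (1 / 2 : ℝ) := by
      rw [← hc0inv, Real.inv_rpow hc0pos.le, Real.rpow_neg hc0pos.le]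
    rw [h1, ← Real.sqrt_eq_rpow]
    apply Real.sqrt_le_iff.2
    refine ⟨by positivity, ?_⟩
    nlinarith
  have r2 : C7 * B * Real.exp (η * L) * (|c0|⁻¹ * Real.exp ((s + θ - 1) * L) +
      |c0| ^ (-(1 / 2) : ℝ) * Real.exp ((θ - 1 / 2) * L)) ≤
      C7 * B * (4 * Real.exp (-(η * L))) := by
    have h1 : Real.exp (η * L) * (|c0|⁻¹ * Real.exp ((s + θ - 1) * L)) ≤
        2 * Real.exp (-(η * L)) := by
      calc Real.exp (η * L) * (|c0|⁻¹ * Real.exp ((s + θ - 1) * L)) ≤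
          Real.exp (η * L) * (2 * Real.exp (4 * s' * L) * Real.exp ((s + θ - 1) * L)) := by
            rw [hc0inv]; gcongr
        _ = 2 * Real.exp (η * L + 4 * s' * L + (s + θ - 1) * L) := by
            rw [Real.exp_add, Real.exp_add]; ring
        _ ≤ _ := by
            gcongr
            nlinarith
    have h2 : Real.exp (η * L) * (|c0| ^ (-(1 / 2) : ℝ) * Real.exp ((θ - 1 / 2) * L)) ≤
        2 * Real.exp (-(η * L)) := by
      calc Real.exp (η * L) * (|c0| ^ (-(1 / 2) : ℝ) * Real.exp ((θ - 1 / 2) * L)) ≤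
          Real.exp (η * L) * (2 * (e : ℝ) * Real.exp ((θ - 1 / 2) * L)) := by
            gcongr
        _ ≤ Real.exp (η * L) * (2 * Real.exp (2 * s' * L) * Real.exp ((θ - 1 / 2) * L)) := by
            gcongr
        _ = 2 * Real.exp (η * L + 2 * s' * L + (θ - 1 / 2) * L) := by
            rw [Real.exp_add, Real.exp_add]; ring
        _ ≤ _ := by
            gcongr
            nlinarith
    calc C7 * B * Real.exp (η * L) * (|c0|⁻¹ * Real.exp ((s + θ - 1) * L) +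
          |c0| ^ (-(1 / 2) : ℝ) * Real.exp ((θ - 1 / 2) * L))
        = C7 * B * (Real.exp (η * L) * (|c0|⁻¹ * Real.exp ((s + θ - 1) * L)) +
          Real.exp (η * L) * (|c0| ^ (-(1 / 2) : ℝ) * Real.exp ((θ - 1 / 2) * L))) := by ring
      _ ≤ C7 * B * (2 * Real.exp (-(η * L)) + 2 * Real.exp (-(η * L))) := by gcongr
      _ = _ := by ring
  have e4' := e4.trans r1
  have e7' := e7.trans r2
  have h12 : |(1 / 2 : ℝ)| = 1 / 2 := by norm_num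
  rw [h12]
  calc ‖D2 - T2 - T2' + T3‖ + 1 / 2 * |D3| ≤ C4 * Cq * B * Real.exp (-(η * L)) +
        1 / 2 * (C7 * B * (4 * Real.exp (-(η * L)))) := by gcongr
    _ = _ := by ring

/-- a power against an exponential -/
theorem pow_exp (δ : ℝ) (hδ : 0 < δ) : ∃ C : ℝ, 0 < C ∧ ∀ L : ℝ, 0 ≤ L →
    (1 + L) ^ 4 ≤ C * Real.exp (δ * L) := by
  refine ⟨24 / δ ^ 4 * Real.exp δ, by positivity, ?_⟩
  intro L hL
  have h1 := Real.pow_div_factorial_le_exp (δ * (1 + L)) (by positivity) 4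
  have h2 : ((Nat.factorial 4 : ℕ) : ℝ) = 24 := by norm_num [Nat.factorial]
  rw [h2, div_le_iff₀ (by norm_num), mul_pow] at h1
  have h3 : Real.exp (δ * (1 + L)) = Real.exp δ * Real.exp (δ * L) := by
    rw [← Real.exp_add]; congr 1; ring
  rw [h3] at h1
  calc (1 + L) ^ 4 = (δ ^ 4 * (1 + L) ^ 4) / δ ^ 4 := by field_simp
    _ ≤ (Real.exp δ * Real.exp (δ * L) * 24) / δ ^ 4 := by gcongr
    _ = _ := by ring

end

end Pool.Agent.N782.FW
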