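import Pool.Agent.N782.FWc

set_option autoImplicit false

/-! The weighted second moment: bound and limit (helper782). -/

namespace Pool.Agent.N782.FW

open Finset Filter Topology MeasureTheory Pool.Agent.N782.LX Pool.Agent.N782.EW Pool.Agent.N782.KW
open Pool.Agent.H306R2.RZ Pool.Agent.H306R2.RG Pool.Agent.N782.FE Pool.Agent.N782.SU
open Pool.Agent.N782.KV
open Pool.Agent.H317R2.RG (summR summC t1_t4 odd_prod t4_ne Bd_mono Bd_nonneg Wt_mono wt_bd swapI)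

noncomputable section

/-- the integrand of the second moment -/
def TTf (ε : ℤ) (L : ℝ) (w1 Q1 w2 Q2 : ℝ → ℝ) (d : ℕ) : ℝ :=
  Ndg (F8 ε) 2 L w1 d * Mdg (F8 ε) 2 L Q1 d * (Ndg (F8 ε) 2 L w2 d * Mdg (F8 ε) 2 L Q2 d)

/-- splitting of the weighted second moment -/
theorem split (ε : ℤ) {s' : ℝ} {P : ℝ → ℝ} (hP : Wt s' P) {L : ℝ} (hL : 0 < L) {F : ℝ → ℝ}
    (hF : TF F) (H : ℂ → ℂ) {c : ℝ} (hc : 0 < c) (w1 w2 Q1 Q2 : ℝ → ℝ) :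
    (L : ℂ) * ((EWt ε P L F (c * Real.exp L) (TTf ε L w1 Q1 w2 Q2) : ℝ) : ℂ) =
      ((1 / 2 * Ft F 0 : ℝ) : ℂ) * ((L : ℂ) * SW P L (M1e L w1 w2 Q1 Q2)) +
      (L : ℂ) * SW P L (M2e H c L w1 w2 Q1 Q2) + (L : ℂ) * SW P L (M2e H c L w2 w1 Q2 Q1) -
      (L : ℂ) * SW P L (M5e H c L w1 w2 Q1 Q2) +
      (L : ℂ) * SW P L (fun e => (((e : ℝ) * TTg (Fe ε e) F (c * Real.exp L) (2 * e) L w1 Q1 w2 Q2 :
        ℝ) : ℂ) - Mn F H c L w1 w2 Q1 Q2 e) := by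
  rw [EWt_eq ε hP hL hF (by positivity : 0 < c * Real.exp L)]
  have h1 : (fun e : ℕ => (((e : ℝ) * EAg (Fe ε e) F (c * Real.exp L) (TTf ε L w1 Q1 w2 Q2) :
      ℝ) : ℂ)) = fun e => (((1 / 2 * Ft F 0 : ℝ) : ℂ) * M1e L w1 w2 Q1 Q2 e +
        (M2e H c L w1 w2 Q1 Q2 e + (M2e H c L w2 w1 Q2 Q1 e +
          ((-1) * M5e H c L w1 w2 Q1 Q2 e + ((((e : ℝ) * TTg (Fe ε e) F (c * Real.exp L) (2 * e) L
            w1 Q1 w2 Q2 : ℝ) : ℂ) - Mn F H c L w1 w2 Q1 Q2 e))))) := by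
    funext e
    have h2 : EAg (Fe ε e) F (c * Real.exp L) (TTf ε L w1 Q1 w2 Q2) =
        TTg (Fe ε e) F (c * Real.exp L) (2 * e) L w1 Q1 w2 Q2 := TT_2e ε e F _ L w1 Q1 w2 Q2
    rw [h2]
    unfold Mn
    ring
  rw [h1, SW_add hP hL, SW_add hP hL, SW_add hP hL, SW_add hP hL, SW_const_mul, SW_const_mul]
  ring

theorem err_SW (ε : ℤ) (hε : ε = 1 ∨ ε = -1) (F : ℝ → ℝ) (hF : TF F) (c : ℝ) (hc : 0 < c)
    (s θ s' : ℝ) (hA : AdmW s θ s') (P : ℝ → ℝ) (hP : Wt s' P) (BP : ℝ) (hBP : Bd 4 P BP) :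
    ∃ H : ℂ → ℂ, HP H (-(1 / 4 * Ft F 0)) ∧
    ∃ (C η : ℝ) (k : ℕ), 0 < C ∧ 0 < η ∧ ∀ L : ℝ, 4 ≤ L → ∀ (w1 w2 Q1 Q2 : ℝ → ℝ)
      (B1 B2 B3 B4 : ℝ), Wt s w1 → Wt s w2 → Wt θ Q1 → Wt θ Q2 →
      Bd k w1 B1 → Bd k w2 B2 → Bd k Q1 B3 → Bd k Q2 B4 →
      ‖(L : ℂ) * SW P L (fun e => (((e : ℝ) * TTg (Fe ε e) F (c * Real.exp L) (2 * e) L w1 Q1 w2 Q2 :
        ℝ) : ℂ) - Mn F H c L w1 w2 Q1 Q2 e)‖ ≤ C * (B1 * B2 * B3 * B4) * Real.exp (-(η * L)) := by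
  obtain ⟨H, hH, C, η, k, hC, hη, h⟩ := err_bound ε hε F hF c hc s θ s' hA
  refine ⟨H, hH, ?_⟩
  obtain ⟨C', hC', hp⟩ := pow_exp (η / 2) (by positivity)
  have hs' := hA.hs'
  have hs8 : s' ≤ 1 := by
    have h1 := hA.adm.hs
    have h2 := hA.adm.hθ
    have h3 := hA.m1
    linarith
  refine ⟨(BP ^ 2 + 1) * C * C', η / 2, k, by positivity, by positivity, ?_⟩
  intro L hL w1 w2 Q1 Q2 B1 B2 B3 B4 hw1 hw2 hQ1 hQ2 d1 d2 d3 d4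
  have hL0 : 0 < L := by linarith
  have b1 := Bd_nonneg d1
  have b2 := Bd_nonneg d2
  have b3 := Bd_nonneg d3
  have b4 := Bd_nonneg d4
  set B : ℝ := B1 * B2 * B3 * B4 with hB
  have hB0 : 0 ≤ B := by positivity
  have h1 := Pool.Agent.N782.SWc.SW_crude s' hs'.le P hP BP (Bd_mono hBP (Nat.zero_le _)) L
    (by linarith) (fun e => (((e : ℝ) * TTg (Fe ε e) F (c * Real.exp L) (2 * e) L w1 Q1 w2 Q2 :
        ℝ) : ℂ) - Mn F H c L w1 w2 Q1 Q2 e) (C * B * Real.exp (-(η * L))) (by positivity)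
    (fun e he hsq hle => h L hL w1 w2 Q1 Q2 B1 B2 B3 B4 hw1 hw2 hQ1 hQ2 d1 d2 d3 d4 e he hsq hle)
  rw [norm_mul, Complex.norm_real, Real.norm_of_nonneg hL0.le]
  have h2 : L * (1 + s' * L) ^ 3 ≤ (1 + L) ^ 4 := by
    calc L * (1 + s' * L) ^ 3 ≤ (1 + L) * (1 + L) ^ 3 := by
          gcongr
          · linarith
          · nlinarith
      _ = (1 + L) ^ 4 := by ring
  calc L * ‖SW P L _‖ ≤ L * (BP ^ 2 * (C * B * Real.exp (-(η * L))) * (1 + s' * L) ^ 3) := by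
        gcongr
    _ = BP ^ 2 * (C * B * Real.exp (-(η * L))) * (L * (1 + s' * L) ^ 3) := by ring
    _ ≤ (BP ^ 2 + 1) * (C * B * Real.exp (-(η * L))) * (C' * Real.exp (η / 2 * L)) := by
        apply mul_le_mul _ (h2.trans (hp L hL0.le)) (by positivity) (by positivity)
        gcongr
        linarith
    _ = (BP ^ 2 + 1) * C * C' * B * (Real.exp (-(η * L)) * Real.exp (η / 2 * L)) := by ring
    _ = _ := by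
        rw [← Real.exp_add]
        congr 2
        ring

theorem UBW (ε : ℤ) (hε : ε = 1 ∨ ε = -1) (F : ℝ → ℝ) (hF : TF F) (c : ℝ) (hc : 0 < c)
    (s θ s' : ℝ) (hA : AdmW s θ s') (P : ℝ → ℝ) (hP : Wt s' P) :
    ∃ (C : ℝ) (k : ℕ), 0 < C ∧ ∀ L : ℝ, 4 ≤ L → ∀ (w1 w2 Q1 Q2 : ℝ → ℝ)
      (B1 B2 B3 B4 : ℝ), Wt s w1 → Wt s w2 → Wt θ Q1 → Wt θ Q2 →
      Bd k w1 B1 → Bd k w2 B2 → Bd k Q1 B3 → Bd k Q2 B4 →
      |L * EWt ε P L F (c * Real.exp L) (TTf ε L w1 Q1 w2 Q2)| ≤ C * B1 * B2 * B3 * B4 := by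
  obtain ⟨BP, hBP⟩ := wt_bd s' P hP 4
  obtain ⟨H, hH, C4, η, k4, hC4, hη, h4⟩ := err_SW ε hε F hF c hc s θ s' hA P hP BP hBP
  obtain ⟨hHl, hHh⟩ := Pool.Agent.H306R2.RG.LnkA.HPw H _ hH
  have hs1 := hA.adm.hs1
  obtain ⟨⟨C1, k1, hC1, h1⟩, -⟩ := MW1 s' P hP BP hBP s
  obtain ⟨⟨C2, k2, hC2, h2⟩, -⟩ := MW2 s' P hP BP hBP H _ hHl c hc s hs1
  obtain ⟨⟨C3, k3, hC3, h3⟩, -⟩ := MW5 s' P hP BP hBP H _ hHl c hc s hs1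
  have hθs : θ ≤ s := by linarith [hA.adm.hs, hA.adm.hθ1]
  refine ⟨|1 / 2 * Ft F 0| * C1 + C2 + C2 + C3 + C4, k1 ⊔ k2 ⊔ k3 ⊔ k4, by positivity, ?_⟩
  intro L hL w1 w2 Q1 Q2 B1 B2 B3 B4 hw1 hw2 hQ1 hQ2 d1 d2 d3 d4
  have hL0 : 0 < L := by linarith
  have m1 : k1 ≤ k1 ⊔ k2 ⊔ k3 ⊔ k4 := le_sup_left.trans (le_sup_left.trans le_sup_left)
  have m2 : k2 ≤ k1 ⊔ k2 ⊔ k3 ⊔ k4 := le_sup_right.trans (le_sup_left.trans le_sup_left)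
  have m3 : k3 ≤ k1 ⊔ k2 ⊔ k3 ⊔ k4 := le_sup_right.trans le_sup_left
  have m4 : k4 ≤ k1 ⊔ k2 ⊔ k3 ⊔ k4 := le_sup_right
  have hQ1' := Wt_mono hQ1 hθs
  have hQ2' := Wt_mono hQ2 hθs
  have e1 := h1 L (by linarith) w1 w2 Q1 Q2 B1 B2 B3 B4 hw1 hw2 hQ1' hQ2' (Bd_mono d1 m1)
    (Bd_mono d2 m1) (Bd_mono d3 m1) (Bd_mono d4 m1)
  have e2 := h2 L hL w1 w2 Q1 Q2 B1 B2 B3 B4 hw1 hw2 hQ1' hQ2' (Bd_mono d1 m2)
    (Bd_mono d2 m2) (Bd_mono d3 m2) (Bd_mono d4 m2)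
  have e2' := h2 L hL w2 w1 Q2 Q1 B2 B1 B4 B3 hw2 hw1 hQ2' hQ1' (Bd_mono d2 m2)
    (Bd_mono d1 m2) (Bd_mono d4 m2) (Bd_mono d3 m2)
  have e3 := h3 L hL w1 w2 Q1 Q2 B1 B2 B3 B4 hw1 hw2 hQ1' hQ2' (Bd_mono d1 m3)
    (Bd_mono d2 m3) (Bd_mono d3 m3) (Bd_mono d4 m3)
  have e4 := h4 L hL w1 w2 Q1 Q2 B1 B2 B3 B4 hw1 hw2 hQ1 hQ2 (Bd_mono d1 m4)
    (Bd_mono d2 m4) (Bd_mono d3 m4) (Bd_mono d4 m4)
  have b1 := Bd_nonneg d1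
  have b2 := Bd_nonneg d2
  have b3 := Bd_nonneg d3
  have b4 := Bd_nonneg d4
  have e4' : C4 * (B1 * B2 * B3 * B4) * Real.exp (-(η * L)) ≤ C4 * (B1 * B2 * B3 * B4) := by
    have h0 : Real.exp (-(η * L)) ≤ 1 := by
      rw [Real.exp_le_one_iff]
      have : 0 ≤ η * L := by positivity
      linarith
    exact mul_le_of_le_one_right (by positivity) h0
  have g0 : |L * EWt ε P L F (c * Real.exp L) (TTf ε L w1 Q1 w2 Q2)| =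
      ‖(L : ℂ) * ((EWt ε P L F (c * Real.exp L) (TTf ε L w1 Q1 w2 Q2) : ℝ) : ℂ)‖ := by
    rw [← Complex.ofReal_mul, Complex.norm_real, Real.norm_eq_abs]
  rw [g0, split ε hP hL0 hF H hc w1 w2 Q1 Q2]
  set T1 : ℂ := (L : ℂ) * SW P L (M1e L w1 w2 Q1 Q2)
  set T2 : ℂ := (L : ℂ) * SW P L (M2e H c L w1 w2 Q1 Q2)
  set T2' : ℂ := (L : ℂ) * SW P L (M2e H c L w2 w1 Q2 Q1)
  set T3 : ℂ := (L : ℂ) * SW P L (M5e H c L w1 w2 Q1 Q2)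
  set T4 : ℂ := (L : ℂ) * SW P L (fun e => (((e : ℝ) * TTg (Fe ε e) F (c * Real.exp L) (2 * e) L w1 Q1 w2 Q2 :
        ℝ) : ℂ) - Mn F H c L w1 w2 Q1 Q2 e)
  calc ‖((1 / 2 * Ft F 0 : ℝ) : ℂ) * T1 + T2 + T2' - T3 + T4‖
      ≤ ‖((1 / 2 * Ft F 0 : ℝ) : ℂ) * T1‖ + ‖T2‖ + ‖T2'‖ + ‖T3‖ + ‖T4‖ := by
        refine (norm_add_le _ _).trans ?_
        gcongr
        refine (norm_sub_le _ _).trans ?_
        gcongr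
        refine (norm_add_le _ _).trans ?_
        gcongr
        exact norm_add_le _ _
    _ ≤ |1 / 2 * Ft F 0| * (C1 * B1 * B2 * B3 * B4) + C2 * B1 * B2 * B3 * B4 +
        C2 * B2 * B1 * B4 * B3 + C3 * B1 * B2 * B3 * B4 + C4 * (B1 * B2 * B3 * B4) := by
        rw [norm_mul, Complex.norm_real, Real.norm_eq_abs]
        have e4'' := e4.trans e4'
        gcongr
    _ = _ := by ring

theorem LIMW (ε : ℤ) (hε : ε = 1 ∨ ε = -1) (F : ℝ → ℝ) (hF : TF F) (c : ℝ) (hc : 0 < c)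
    (s θ s' : ℝ) (hA : AdmW s θ s') (P : ℝ → ℝ) (hP : Wt s' P)
    (w1 w2 Q1 Q2 : ℝ → ℝ) (h1 : Wt s w1) (h2 : Wt s w2) (h3 : Wt θ Q1) (h4 : Wt θ Q2) :
    Tendsto (fun L : ℝ => L * EWt ε P L F (c * Real.exp L) (TTf ε L w1 Q1 w2 Q2)) atTop
      (𝓝 (1 / 2 * Ft F 0 * BB w1 Q1 w2 Q2 * (2 * Pn P))) := by
  obtain ⟨BP, hBP⟩ := wt_bd s' P hP 4
  obtain ⟨H, hH, C4, η, k4, hC4, hη, hE⟩ := err_SW ε hε F hF c hc s θ s' hA P hP BP hBP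
  obtain ⟨hHl, hHh⟩ := Pool.Agent.H306R2.RG.LnkA.HPw H _ hH
  have hs1 := hA.adm.hs1
  have hθs : θ ≤ s := by linarith [hA.adm.hs, hA.adm.hθ1]
  have h3' : Wt s Q1 := Wt_mono h3 hθs
  have h4' : Wt s Q2 := Wt_mono h4 hθs
  obtain ⟨B1, hB1⟩ := wt_bd s w1 h1 k4
  obtain ⟨B2, hB2⟩ := wt_bd s w2 h2 k4
  obtain ⟨B3, hB3⟩ := wt_bd θ Q1 h3 k4
  obtain ⟨B4, hB4⟩ := wt_bd θ Q2 h4 k4
  have hDg := (MW1 s' P hP BP hBP s).2 w1 w2 Q1 Q2 h1 h2 h3' h4'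
  have hO := (MW2 s' P hP BP hBP H _ hHl c hc s hs1).2 w1 w2 Q1 Q2 h1 h2 h3' h4'
  have hO' := (MW2 s' P hP BP hBP H _ hHl c hc s hs1).2 w2 w1 Q2 Q1 h2 h1 h4' h3'
  have hOd := (MW5 s' P hP BP hBP H _ hHl c hc s hs1).2 w1 w2 Q1 Q2 h1 h2 h3' h4'
  have hexp : ∀ (K η : ℝ), 0 < η → Tendsto (fun L : ℝ => K * Real.exp (-(η * L))) atTop (𝓝 0) := by
    intro K η hη
    have : Tendsto (fun L : ℝ => Real.exp (-(η * L))) atTop (𝓝 0) := by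
      apply Real.tendsto_exp_neg_atTop_nhds_zero.comp
      exact tendsto_id.const_mul_atTop hη
    simpa using this.const_mul K
  have hN : Tendsto (fun L : ℝ => (L : ℂ) * SW P L (fun e => (((e : ℝ) *
      TTg (Fe ε e) F (c * Real.exp L) (2 * e) L w1 Q1 w2 Q2 : ℝ) : ℂ) -
        Mn F H c L w1 w2 Q1 Q2 e)) atTop (𝓝 0) := by
    apply squeeze_zero_norm' _ (hexp (C4 * (B1 * B2 * B3 * B4)) η hη)
    filter_upwards [eventually_ge_atTop 4] with L hL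
    exact hE L hL w1 w2 Q1 Q2 B1 B2 B3 B4 h1 h2 h3 h4 hB1 hB2 hB3 hB4
  set z : ℝ := -(1 / 4 * Ft F 0) with hz
  set I2 : ℝ := ∫ t in Set.Ioi (0 : ℝ), ∫ y in Set.Ioi (0 : ℝ), al w1 Q1 (1 - y) t * al w2 Q2 y t
    with hI2
  have hI2' : (∫ t in Set.Ioi (0 : ℝ), ∫ y in Set.Ioi (0 : ℝ),
      al w2 Q2 (1 - y) t * al w1 Q1 y t) = I2 := by
    rw [hI2]
    refine setIntegral_congr_fun measurableSet_Ioi fun t _ => ?_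
    exact swapI hs1 h1 h2 t
  rw [hI2'] at hO'
  have hsum := (((((hDg.const_mul ((1 / 2 * Ft F 0 : ℝ) : ℂ)).add hO).add hO').sub hOd).add hN)
  have hlim : ((1 / 2 * Ft F 0 : ℝ) : ℂ) * (((mn w1 Q1 * mn w2 Q2 + ∫ t in Set.Ioi (0 : ℝ),
        ∫ y in Set.Ioi (0 : ℝ), al w1 Q1 y t * al w2 Q2 y t) / 4 * (2 * Pn P) : ℝ) : ℂ) +
        ((z / 2 * I2 * (2 * Pn P) : ℝ) : ℂ) + ((z / 2 * I2 * (2 * Pn P) : ℝ) : ℂ) -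
        ((z / 2 * I2 * (2 * Pn P) : ℝ) : ℂ) + 0 =
        ((1 / 2 * Ft F 0 * BB w1 Q1 w2 Q2 * (2 * Pn P) : ℝ) : ℂ) := by
    rw [Pool.Agent.H930R3.RZID.ID3 s hs1 w1 w2 Q1 Q2 h1 h2 h3' h4', ← hI2, hz]
    push_cast
    ring
  rw [hlim] at hsum
  have hT : Tendsto (fun L : ℝ => ((L * EWt ε P L F (c * Real.exp L) (TTf ε L w1 Q1 w2 Q2) : ℝ) : ℂ))
      atTop (𝓝 ((1 / 2 * Ft F 0 * BB w1 Q1 w2 Q2 * (2 * Pn P) : ℝ) : ℂ)) := by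
    refine hsum.congr' ?_
    filter_upwards [eventually_gt_atTop (0 : ℝ)] with L hL
    exact (split ε hP hL hF H hc w1 w2 Q1 Q2).symm.trans (Complex.ofReal_mul _ _).symm
  have := (Complex.continuous_re.tendsto _).comp hT
  simpa [Function.comp_def] using this

end

end Pool.Agent.N782.FW
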