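import Pool.Agent.N782.MW1
import Pool.Agent.H423R2.RZL.LIM1

set_option autoImplicit false

/-! Weighted kernel of the first moment (helper782). -/

namespace Pool.Agent.N782.KW

open Finset Filter Topology MeasureTheory Pool.Agent.N782.LX Pool.Agent.N782.EW
open Pool.Agent.H306R2.RZ Pool.Agent.H930R3.RZID
open Pool.Agent.H423R2.RZL.M3n (af af_eq' af_bound af_tendsto one_sub_norm norm_cpow_le hasProd_inv
  cpow_one_add)
open Pool.Agent.H130R2.RZ1 (zz zz_re zz_im add_le_mul ne_zero_of_re)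

noncomputable section

theorem af0_bound (z : Fin 2 → ℂ) (p : ℕ) (hp : 2 ≤ p)
    (hz : ∀ i, 0 < (z i).re) : ‖af 0 z p - 1‖ ≤ 8 / (p : ℝ) := by
  have hU := norm_cpow_le p hp (z 0) (hz 0)
  have hA := norm_cpow_le p hp (z 1) (hz 1)
  have hp2 : (2 : ℝ) ≤ p := by exact_mod_cast hp
  have hp0 : (0 : ℝ) < p := by linarith
  have hden : 1 / 2 ≤ ‖1 - (p : ℂ) ^ (-(z 0)) * (p : ℂ) ^ (-(z 1)) / (p : ℂ)‖ :=
    one_sub_norm p hp _ (by rw [norm_mul]; exact mul_le_one₀ hU (norm_nonneg _) hA)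
  have hnum : ‖(p : ℂ) ^ (-(z 0)) * ((p : ℂ) ^ (-(z 0)) - (p : ℂ) ^ (-(z 1)))‖ ≤ 2 := by
    rw [norm_mul]
    have h3 : ‖(p : ℂ) ^ (-(z 0)) - (p : ℂ) ^ (-(z 1))‖ ≤ 2 := by
      refine (norm_sub_le _ _).trans ?_
      linarith
    calc ‖(p : ℂ) ^ (-(z 0))‖ * ‖(p : ℂ) ^ (-(z 0)) - (p : ℂ) ^ (-(z 1))‖ ≤ 1 * 2 :=
          mul_le_mul hU h3 (norm_nonneg _) (by norm_num)
      _ = 2 := by norm_num
  rw [af_eq' 0 z p hp hz (dvd_zero _)]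
  have e : (1 - (p : ℂ) ^ (-(z 0)) * ((p : ℂ) ^ (-(z 0)) - (p : ℂ) ^ (-(z 1))) /
    (p : ℂ) / (1 - (p : ℂ) ^ (-(z 0)) * (p : ℂ) ^ (-(z 1)) / p)) - 1 =
    -((p : ℂ) ^ (-(z 0)) * ((p : ℂ) ^ (-(z 0)) - (p : ℂ) ^ (-(z 1))) /
    (p : ℂ) / (1 - (p : ℂ) ^ (-(z 0)) * (p : ℂ) ^ (-(z 1)) / p)) := by ring
  rw [e, norm_neg, norm_div, norm_div, Complex.norm_natCast]
  calc ‖(p : ℂ) ^ (-(z 0)) * ((p : ℂ) ^ (-(z 0)) - (p : ℂ) ^ (-(z 1)))‖ / (p : ℝ) /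
        ‖1 - (p : ℂ) ^ (-(z 0)) * (p : ℂ) ^ (-(z 1)) / (p : ℂ)‖ ≤ 2 / (p : ℝ) / (1 / 2) := by
        gcongr
    _ = 4 / (p : ℝ) := by ring
    _ ≤ 8 / (p : ℝ) := by gcongr; norm_num

theorem lf3_congr {q q' : ℕ} (z : Fin 2 → ℂ) (p : ℕ) (h : p ∣ q ↔ p ∣ q') :
    af q z p = af q' z p := by
  unfold af lf3
  by_cases h1 : p ∣ q
  · rw [if_pos h1, if_pos (h.1 h1)]
  · rw [if_neg h1, if_neg (fun h2 => h1 (h.2 h2))]

theorem af_two_mul {e : ℕ} (he : Odd e) (z : Fin 2 → ℂ) (p : Nat.Primes) :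
    af (2 * e) z p = if (p : ℕ) ∣ e then af 0 z p else af 2 z p := by
  have h := dvd_two_mul he p
  split_ifs with h1
  · exact lf3_congr z _ ⟨fun _ => dvd_zero _, fun _ => h.2 (Or.inr h1)⟩
  · exact lf3_congr z _ ⟨fun h2 => (h.1 h2).elim id (fun h3 => absurd h3 h1),
      fun h2 => h.2 (Or.inl h2)⟩

/-- the zeta factors -/
def Z3 (L : ℝ) (τ : Fin 2 → ℝ) : ℂ :=
  riemannZeta (1 + (2 * zz 1 (τ 0)) / (L : ℂ)) *
    (riemannZeta (1 + (zz 1 (τ 0) + zz 1 (τ 1)) / (L : ℂ)))⁻¹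

theorem DD3_prod (q : ℕ) (z : Fin 2 → ℂ) (hz : ∀ i, 0 < (z i).re) : DD3 q z =
      riemannZeta (1 + 2 * z 0) * (riemannZeta (1 + (z 0 + z 1)))⁻¹ *
        ∏' p : Nat.Primes, af q z p := by
  have hM := Pool.Agent.H429R3.RZM3e.M3e_of Pool.Agent.H992R2.RZM3s.M3s
  have h0 := hz 0
  have h1 := hz 1
  have hr1 : 1 < (1 + 2 * z 0).re := by
    simp only [Complex.add_re, Complex.one_re, Complex.mul_re, Complex.re_ofNat,
      Complex.im_ofNat, zero_mul, sub_zero]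
    linarith
  have hr2 : 1 < (1 + (z 0 + z 1)).re := by
    simp only [Complex.add_re, Complex.one_re]
    linarith
  have z1 := riemannZeta_ne_zero_of_one_lt_re hr1
  have z2 := riemannZeta_ne_zero_of_one_lt_re hr2
  have P1 := hasProd_inv (riemannZeta_eulerProduct_hasProd hr1) z1
  have P2 := riemannZeta_eulerProduct_hasProd hr2
  have P := ((hM q z hz).mul P1).mul P2
  have hE' : HasProd (fun p : Nat.Primes => af q z p)
      (DD3 q z * (riemannZeta (1 + 2 * z 0))⁻¹ * riemannZeta (1 + (z 0 + z 1))) := by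
    refine P.congr_fun ?_
    intro p
    have hp : 2 ≤ (p : ℕ) := p.2.two_le
    have e2 : (1 + 2 * z 0) = (1 + (z 0 + z 0)) := by ring
    rw [e2, cpow_one_add p hp, cpow_one_add p hp, inv_inv, af, div_eq_mul_inv, ← sq]
  rw [hE'.tprod_eq]
  field_simp

theorem D3_fac {e : ℕ} (he : Odd e) (L : ℝ) (hL : 0 < L) (τ : Fin 2 → ℝ) :
    DD3 (2 * e) (fun i => zz 1 (τ i) / (L : ℂ)) = Z3 L τ *
      Vn (fun p => af 2 (fun i => zz 1 (τ i) / (L : ℂ)) p)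
        (fun p => af 0 (fun i => zz 1 (τ i) / (L : ℂ)) p) e := by
  have hz : ∀ i : Fin 2, 0 < (zz 1 (τ i) / (L : ℂ)).re := fun i => by
    rw [Complex.div_ofReal_re, zz_re]; positivity
  rw [DD3_prod (2 * e) _ hz]
  have hV : Vn (fun p => af 2 (fun i => zz 1 (τ i) / (L : ℂ)) p)
      (fun p => af 0 (fun i => zz 1 (τ i) / (L : ℂ)) p) e =
      ∏' p : Nat.Primes, af (2 * e) (fun i => zz 1 (τ i) / (L : ℂ)) p := by
    unfold Vn
    refine tprod_congr fun p => ?_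
    rw [af_two_mul he]
  rw [hV]
  unfold Z3
  have e1 : 2 * (zz 1 (τ 0) / (L : ℂ)) = (2 * zz 1 (τ 0)) / (L : ℂ) := by ring
  have e2 : zz 1 (τ 0) / (L : ℂ) + zz 1 (τ 1) / (L : ℂ) = (zz 1 (τ 0) + zz 1 (τ 1)) / (L : ℂ) := by
    ring
  rw [e1, e2]

theorem Z3_bound : ∃ C : ℝ, 0 ≤ C ∧ ∀ L : ℝ, 1 ≤ L → ∀ τ : Fin 2 → ℝ,
    ‖Z3 L τ‖ ≤ C * ∏ i, (1 + |τ i|) ^ 2 := by
  obtain ⟨⟨C, hC, hz⟩, -⟩ := Pool.Agent.H727R2.RZMZ.MZ 2 two_pos
  refine ⟨C ^ 2, by positivity, fun L hL τ => ?_⟩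
  have hL0 : 0 < L := by linarith
  have e0 : (2 * zz 1 (τ 0)).re = 2 := by simp [zz]
  have e1 : (zz 1 (τ 0) + zz 1 (τ 1)).re = 2 := by
    rw [Complex.add_re, zz_re, zz_re]; norm_num
  have e2 : (zz 1 (τ 0) + zz 1 (τ 1)).im = τ 0 + τ 1 := by
    rw [Complex.add_im, zz_im, zz_im]
  have b1 := (hz L _ hL e0).1
  have b2 : ‖(riemannZeta (1 + (zz 1 (τ 0) + zz 1 (τ 1)) / (L : ℂ)))⁻¹‖ ≤
      C * ((1 + |τ 0|) ^ 2 * (1 + |τ 1|) ^ 2) / L := by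
    refine ((hz L _ hL e1).2).trans ?_
    rw [e2, ← mul_pow]
    gcongr
    exact add_le_mul _ _
  unfold Z3
  rw [norm_mul, Fin.prod_univ_two]
  calc _ ≤ (C * L) * (C * ((1 + |τ 0|) ^ 2 * (1 + |τ 1|) ^ 2) / L) :=
        mul_le_mul b1 b2 (norm_nonneg _) (by positivity)
    _ = _ := by field_simp

/-- the limit kernel of the first moment -/
def KR3 (τ : Fin 2 → ℝ) : ℂ :=
  ((1 + τ 0 * Complex.I) + (1 + τ 1 * Complex.I)) / (2 * (1 + τ 0 * Complex.I))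

theorem Z3_lim (τ : Fin 2 → ℝ) : Tendsto (fun L : ℝ => Z3 L τ) atTop (𝓝 (KR3 τ)) := by
  obtain ⟨-, hz⟩ := Pool.Agent.H727R2.RZMZ.MZ 2 two_pos
  have e0 : 0 < (2 * zz 1 (τ 0)).re := by simp [zz]
  have e1 : 0 < (zz 1 (τ 0) + zz 1 (τ 1)).re := by
    rw [Complex.add_re, zz_re, zz_re]; norm_num
  have hz0 : (1 + (τ 0 : ℂ) * Complex.I) ≠ 0 := by
    intro h
    have := congrArg Complex.re h
    simp at this
  have hz01 : ((1 + (τ 0 : ℂ) * Complex.I) + (1 + τ 1 * Complex.I)) ≠ 0 := by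
    intro h
    have := congrArg Complex.re h
    simp at this
    try norm_num at this
  have l1 := hz _ e0
  have l2 := (hz _ e1).inv₀ (one_div_ne_zero (ne_zero_of_re e1))
  have key := l1.mul l2
  refine Tendsto.congr' ?_ (key.trans (le_of_eq ?_))
  · filter_upwards [eventually_gt_atTop 0] with L hL
    unfold Z3
    have hLC : (L : ℂ) ≠ 0 := by exact_mod_cast hL.ne'
    simp only [inv_div]
    field_simp
  · congr 1
    unfold KR3 zz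
    simp only [Complex.ofReal_one, one_div, inv_inv]
    field_simp

theorem DD3_cont (q : ℕ) (L : ℝ) (hL : 0 < L) :
    Continuous (fun τ : Fin 2 → ℝ => DD3 q (fun i => zz 1 (τ i) / (L : ℂ))) ∧
    ∀ (s : ℝ) (w Q : ℝ → ℝ), Wt s w → Wt s Q →
    ((∑' a : Fin 2 → ℕ, t3c q a * (w (Real.log (a 0) / L) * Q (Real.log (a 1) / L)) : ℝ) : ℂ) =
      ∫ τ : Fin 2 → ℝ, (∏ i, fh ((fun _ => 1 : Fin 2 → ℝ) i) (![w, Q] i) (τ i)) *
        DD3 q (fun i => zz 1 (τ i) / (L : ℂ)) := by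
  have hsum : Summable (fun a : Fin 2 → ℕ =>
      ‖((t3c q a : ℝ) : ℂ)‖ * ∏ i, (a i : ℝ) ^ (-((1 : ℝ) / L))) := by
    have := Pool.Agent.H992R2.RZM3s.M3s q (1 / L) (by positivity)
    refine this.congr fun a => ?_
    rw [Complex.norm_real, Real.norm_eq_abs]
  have h0 : ∀ a : Fin 2 → ℕ, (∃ i, a i = 0) → ((t3c q a : ℝ) : ℂ) = 0 := by
    rintro a ⟨i, hi⟩
    rw [t3c, if_neg (fun h => (h.1 i).1 hi), Complex.ofReal_zero]
  have hML := fun (s : ℝ) (w Q : ℝ → ℝ) (hw : Wt s w) (hQ : Wt s Q) =>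
    Pool.Agent.H310R2.RZML.ML Pool.Agent.H375R3.RZFR.FR 2 (fun _ => 1) (fun _ => one_pos)
    (fun a => ((t3c q a : ℝ) : ℂ)) h0 L hL hsum ![w, Q] s
    (by intro i; fin_cases i; exacts [hw, hQ])
  refine ⟨?_, ?_⟩
  · have hw : Wt (0 : ℝ) (fun _ => 0) := ⟨contDiff_const, fun y h => absurd rfl h⟩
    exact (hML 0 _ _ hw hw).2
  · intro s w Q hw hQ
    have h3 := (hML s w Q hw hQ).1
    have h4 : ∑' a : Fin 2 → ℕ, ((t3c q a : ℝ) : ℂ) * ∏ i, ((![w, Q] : Fin 2 → ℝ → ℝ) i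
        (Real.log (a i) / L) : ℂ) = ((∑' a : Fin 2 → ℕ,
        t3c q a * (w (Real.log (a 0) / L) * Q (Real.log (a 1) / L)) : ℝ) : ℂ) := by
      rw [Complex.ofReal_tsum]
      refine tsum_congr fun a => ?_
      rw [Fin.prod_univ_two, Complex.ofReal_mul, Complex.ofReal_mul]
      rfl
    rw [h4] at h3
    rw [h3]
    rfl

theorem DD3_bound (q : ℕ) (hq0 : q ≠ 0) : ∃ C : ℝ, ∀ L : ℝ, 1 ≤ L → ∀ τ : Fin 2 → ℝ,
    ‖DD3 q (fun i => zz 1 (τ i) / (L : ℂ))‖ ≤ C * ∏ i, (1 + |τ i|) ^ 2 := by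
  obtain ⟨A, hA1, ⟨CA, hA2⟩, hA3⟩ := Pool.Agent.H423R2.RZL.M3n.M3' Pool.Agent.H83R2.RZ.EPg
    (Pool.Agent.H429R3.RZM3e.M3e_of Pool.Agent.H992R2.RZM3s.M3s) q hq0
  obtain ⟨C, hC, hb⟩ := Z3_bound
  refine ⟨C * CA, fun L hL τ => ?_⟩
  have hL0 : 0 < L := by linarith
  have hz : ∀ i : Fin 2, 0 < (zz 1 (τ i) / (L : ℂ)).re := fun i => by
    rw [Complex.div_ofReal_re, zz_re]; positivity
  rw [hA1 _ hz]
  have e1 : 2 * (zz 1 (τ 0) / (L : ℂ)) = (2 * zz 1 (τ 0)) / (L : ℂ) := by ring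
  have e2 : zz 1 (τ 0) / (L : ℂ) + zz 1 (τ 1) / (L : ℂ) = (zz 1 (τ 0) + zz 1 (τ 1)) / (L : ℂ) := by
    ring
  rw [e1, e2, norm_mul]
  have h1 := hb L hL τ
  unfold Z3 at h1
  have h2 := hA2 _ hz
  calc _ ≤ (C * ∏ i, (1 + |τ i|) ^ 2) * CA :=
        mul_le_mul h1 h2 (norm_nonneg _) (by positivity)
    _ = _ := by ring

/-- the kernel of the first moment -/
theorem ker3 : ∃ CZ : ℝ, Ker 2 1 (fun e L τ => DD3 (2 * e) (fun i => zz 1 (τ i) / (L : ℂ)))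
    Z3 (fun L τ p => af 2 (fun i => zz 1 (τ i) / (L : ℂ)) p)
    (fun L τ p => af 0 (fun i => zz 1 (τ i) / (L : ℂ)) p) 8 CZ 2 := by
  obtain ⟨CZ, hCZ, hb⟩ := Z3_bound
  have hre : ∀ (L : ℝ), 1 ≤ L → ∀ (τ : Fin 2 → ℝ) (i : Fin 2), 0 < (zz 1 (τ i) / (L : ℂ)).re :=
    fun L hL τ i => by rw [Complex.div_ofReal_re, zz_re]; positivity
  refine ⟨CZ, ⟨?_, ?_, ?_, ?_, ?_, ?_⟩⟩
  · intro e he hs L hL
    exact (DD3_cont (2 * e) L (by linarith)).1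
  · intro e he hs
    exact DD3_bound (2 * e) (Nat.mul_ne_zero two_ne_zero hs.ne_zero)
  · intro e he hs L hL τ
    exact D3_fac he L (by linarith) τ
  · intro L hL τ p
    refine (af_bound 2 two_ne_zero _ p p.2.two_le (hre L hL τ)).trans (le_of_eq ?_)
    norm_num
  · intro L hL τ p
    exact af0_bound _ p p.2.two_le (hre L hL τ)
  · intro L hL τ
    exact hb L hL τ

/-- the main part of the first moment -/
def M3e (L : ℝ) (w Q : ℝ → ℝ) (e : ℕ) : ℂ :=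
  ((∑' a : Fin 2 → ℕ, t3c (2 * e) a * (w (Real.log (a 0) / L) * Q (Real.log (a 1) / L)) : ℝ) : ℂ)

theorem MW3 (s' : ℝ) (P : ℝ → ℝ) (hP : Wt s' P) (BP : ℝ) (hBP : Bd 4 P BP) (s : ℝ)
    (w Q : ℝ → ℝ) (h1 : Wt s w) (h2 : Wt s Q) :
    Tendsto (fun L : ℝ => (L : ℂ) * SW P L (M3e L w Q)) atTop
        (𝓝 ((mn w Q / 2 * (2 * Pn P) : ℝ) : ℂ)) := by
  obtain ⟨CZ, hker⟩ := ker3
  have hw : ∀ i, Wt s ((![w, Q] : Fin 2 → ℝ → ℝ) i) := by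
    intro i; fin_cases i; exacts [h1, h2]
  have key := ker_lim hker (by norm_num) (fun _ => 1) s ![w, Q] hw
    s' P hP BP hBP KR3 (fun _ => 1) Z3_lim
    (fun τ p => af_tendsto 2 (fun i => zz 1 (τ i)) p p.2.two_le (fun i => by
      rw [zz_re]; exact one_pos))
    (fun τ p _ => af_tendsto 0 (fun i => zz 1 (τ i)) p p.2.two_le (fun i => by
      rw [zz_re]; exact one_pos))
  have hR : ∫ τ : Fin 2 → ℝ, (∏ i, fh ((fun _ => 1 : Fin 2 → ℝ) i) ((![w, Q] : Fin 2 → ℝ → ℝ) i)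
      (τ i)) * KR3 τ = ((mn w Q / 2 : ℝ) : ℂ) := by
    rw [← Pool.Agent.H930R3.RZID.ID4 Pool.Agent.H375R3.RZFR.FR s w Q h1 h2]
    refine integral_congr_ae (Eventually.of_forall fun τ => ?_)
    beta_reduce
    rw [Fin.prod_univ_two]
    rfl
  rw [hR, tprod_one] at key
  refine Tendsto.congr' ?_ (key.trans (le_of_eq ?_))
  · filter_upwards [eventually_gt_atTop 0] with L hL
    congr 1
    refine (SW_congr P L _ _ fun e he hs => ?_).symm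
    exact (DD3_cont (2 * e) L hL).2 s w Q h1 h2
  · congr 1
    unfold Pn
    push_cast
    ring

end

end Pool.Agent.N782.KW
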