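import Pool.Agent.N782.FWd
import Pool.Agent.N782.KW3
import Pool.Agent.H423R2.RGL.K.H884R2_RG_LM1G

set_option autoImplicit false

/-! The weighted first moment (helper782). -/

namespace Pool.Agent.N782.FW

open Finset Filter Topology MeasureTheory Pool.Agent.N782.LX Pool.Agent.N782.EW Pool.Agent.N782.KW
open Pool.Agent.H306R2.RZ Pool.Agent.H306R2.RG Pool.Agent.N782.FE Pool.Agent.N782.SU
open Pool.Agent.H306R2.RG.LnkA (bb8 PG8)
open Pool.Agent.H884R2.RG (dual_error TOg_eq)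
open Pool.Agent.H423R2.RZL.LIM1n (main_part wt_bdd cf_abs floor_exp_le odd_of_coprime)
open Pool.Agent.H317R2.RG (Bd_mono Bd_nonneg Wt_mono wt_bd)

noncomputable section

theorem dual8 (ε : ℤ) (hε : ε = 1 ∨ ε = -1) (F : ℝ → ℝ) (hF : TF F) (A : ℕ) (hA : Even A)
    (hA2 : 2 ≤ A) : ∃ C : ℝ, 0 ≤ C ∧ ∀ (X : ℝ) (n : ℕ), 0 < X → Odd n →
    |EAg (F8 ε) F X (fun d => js ((F8 ε).e * (d : ℤ)) n) - 1 / 2 * (Gk 0 n * Ft F 0 / n)| ≤
      C * ((n : ℝ) / X) ^ A := by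
  have hε0 : ((ε : ℝ) / 2) ≠ 0 := by rcases hε with rfl | rfl <;> norm_num
  obtain ⟨C, hC, h⟩ := dual_error F hF A hA hA2 bb8 (by
    intro k; rw [bb8, abs_pow, abs_neg, abs_one, one_pow]) ((ε : ℝ) / 2) hε0
  refine ⟨1 / 2 * C, by positivity, fun X n hX hn => ?_⟩
  obtain ⟨hsum, heq⟩ := PG8 ε hε F hF X hX n hn
  have h1 := h X n hX hn hsum
  have h0 : bb8 0 = 1 := by simp [bb8]
  rw [h0, one_mul] at h1
  rw [heq]
  rw [← mul_sub, abs_mul, abs_of_pos (by norm_num : (0 : ℝ) < 1 / 2), mul_assoc]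
  exact mul_le_mul_of_nonneg_left h1 (by norm_num)

/-- the average over the multiples of `e` -/
theorem dualE (ε : ℤ) (hε : ε = 1 ∨ ε = -1) (F : ℝ → ℝ) (hF : TF F) (A : ℕ) (hA : Even A)
    (hA2 : 2 ≤ A) : ∃ C : ℝ, 0 ≤ C ∧ ∀ (e : ℕ), Odd e → ∀ (X : ℝ) (n : ℕ), 0 < X → Odd n →
    Nat.Coprime n e →
    |(e : ℝ) * EAg (Fe ε e) F X (fun d => js ((Fe ε e).e * (d : ℤ)) n) -
      1 / 2 * (Gk 0 n * Ft F 0 / n)| ≤ C * ((n : ℝ) * e / X) ^ A := by
  obtain ⟨C, hC, h⟩ := dual8 ε hε F hF A hA hA2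
  refine ⟨C, hC, fun e he X n hX hn hc => ?_⟩
  have he0 : e ≠ 0 := by rintro rfl; exact absurd he (by decide)
  have heR : (0 : ℝ) < e := by exact_mod_cast Nat.pos_of_ne_zero he0
  rw [EAe_js ε he F hX n]
  have hj : js (e : ℤ) n * (Gk 0 n * Ft F 0 / n) = Gk 0 n * Ft F 0 / n := by
    rw [Pool.Agent.H66R2.RZP4.P4a _ hn]
    by_cases hs : IsSquare n
    · obtain ⟨m, hm⟩ := hs
      have hm0 : m ≠ 0 := by
        rintro rfl
        rw [hm] at hn
        exact absurd hn (by decide)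
      have hcm : Nat.Coprime m e := by
        rw [hm] at hc
        exact Nat.Coprime.coprime_mul_right hc
      have h1 : js (e : ℤ) n = 1 := by
        rw [hm, Pool.Agent.H935R2.RGX1.js_mul _ _ _ hm0 hm0]
        exact js_sq_one hcm
      rw [h1, one_mul]
    · rw [if_neg hs]
      ring
  have h1 := h (X / e) n (by positivity) hn
  have h2 : js (e : ℤ) n * EAg (F8 ε) F (X / e) (fun d => js ((F8 ε).e * (d : ℤ)) n) -
      1 / 2 * (Gk 0 n * Ft F 0 / n) = js (e : ℤ) n *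
      (EAg (F8 ε) F (X / e) (fun d => js ((F8 ε).e * (d : ℤ)) n) -
        1 / 2 * (Gk 0 n * Ft F 0 / n)) := by
    rw [mul_sub]
    congr 1
    rw [mul_left_comm, hj]
  rw [h2, abs_mul]
  have h3 : |js (e : ℤ) n| ≤ 1 := Pool.Agent.H423R2.RZL.LIM1n.abs_js_le _ _
  have h4 : (n : ℝ) / (X / e) = (n : ℝ) * e / X := by field_simp
  rw [h4] at h1
  calc |js (e : ℤ) n| * _ ≤ 1 * (C * ((n : ℝ) * e / X) ^ A) :=
        mul_le_mul h3 h1 (abs_nonneg _) zero_le_one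
    _ = _ := one_mul _

/-- the error of the first moment -/
theorem err1 (ε : ℤ) (hε : ε = 1 ∨ ε = -1) (F : ℝ → ℝ) (hF : TF F) (c : ℝ) (hc : 0 < c)
    (s θ s' : ℝ) (hA : AdmW s θ s') (w Q : ℝ → ℝ) (h1 : Wt s w) (h2 : Wt θ Q) :
    ∃ (C η : ℝ), 0 < C ∧ 0 < η ∧ ∀ L : ℝ, 1 ≤ L →
      ∀ e : ℕ, Odd e → Squarefree e → (e : ℝ) ≤ Real.exp (2 * s' * L) →
      ‖(((e : ℝ) * TOg (Fe ε e) F (c * Real.exp L) (2 * e) L w Q : ℝ) : ℂ) -
        ((1 / 2 * Ft F 0 : ℝ) : ℂ) * M3e L w Q e‖ ≤ C * Real.exp (-(η * L)) := by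
  obtain ⟨B1, hB1, hw⟩ := wt_bdd h1
  obtain ⟨B2, hB2, hQ⟩ := wt_bdd h2
  have hs := hA.adm.hs
  have hθ := hA.adm.hθ
  have hs'0 := hA.hs'
  have hm1 := hA.m1
  obtain ⟨δ, hδd⟩ : ∃ δ : ℝ, δ = 1 - (s + θ + 2 * s') := ⟨_, rfl⟩
  have hδ : 0 < δ := by rw [hδd]; linarith
  obtain ⟨m, hm⟩ := exists_nat_gt ((s + θ) / δ)
  set A : ℕ := 2 * (m + 1) with hAd
  have hAm : (s + θ) < A * δ := by
    rw [div_lt_iff₀ hδ] at hm
    have : (m : ℝ) ≤ A := by rw [hAd]; push_cast; linarith [(Nat.cast_nonneg m : (0 : ℝ) ≤ m)]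
    nlinarith
  obtain ⟨C, hC, hE⟩ := dualE ε hε F hF A ⟨m + 1, by omega⟩ (by omega)
  refine ⟨B1 * B2 * (C * (1 / c) ^ A) + 1, A * δ - (s + θ), by positivity, by linarith, ?_⟩
  intro L hL e he hsq hle
  have hL0 : 0 < L := by linarith
  have he0 : e ≠ 0 := hsq.ne_zero
  have heR : (0 : ℝ) < e := by exact_mod_cast Nat.pos_of_ne_zero he0
  have hX : 0 < c * Real.exp L := by positivity
  have hq : Even (2 * e) := even_two_mul e
  set Ns : ℕ := ⌊Real.exp (s * L)⌋₊ with hNs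
  set Nt : ℕ := ⌊Real.exp (θ * L)⌋₊ with hNt
  have hNs' : (Ns : ℝ) ≤ Real.exp (s * L) := floor_exp_le _
  have hNt' : (Nt : ℝ) ≤ Real.exp (θ * L) := floor_exp_le _
  have hst : Real.exp (s * L) * Real.exp (θ * L) = Real.exp ((s + θ) * L) := by
    rw [← Real.exp_add]; ring_nf
  have hmp : 1 / 2 * Ft F 0 * ∑' a : Fin 2 → ℕ, t3c (2 * e) a *
      (w (Real.log (a 0) / L) * Q (Real.log (a 1) / L)) =
      ∑ p ∈ Icc 1 Ns ×ˢ Icc 1 Nt,
        Pool.Agent.H423R2.RZL.LIM1n.cf (2 * e) L w Q p * (1 / 2 * (Gk 0 (p.1 * p.2) * Ft F 0 /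
          ((p.1 * p.2 : ℕ) : ℝ))) := by
    rw [← main_part F (2 * e) hq L hL0 s θ w Q h1 h2]
    refine Finset.sum_congr rfl fun p hp => ?_
    rw [mem_product, mem_Icc, mem_Icc] at hp
    obtain ⟨⟨hp1, -⟩, ⟨hp2, -⟩⟩ := hp
    have hp0 : (((p.1 * p.2 : ℕ)) : ℝ) ≠ 0 := by
      have : 0 < p.1 * p.2 := Nat.mul_pos hp1 hp2
      exact_mod_cast this.ne'
    rw [D0]
    field_simp
  have hTO : (e : ℝ) * TOg (Fe ε e) F (c * Real.exp L) (2 * e) L w Q =
      ∑ p ∈ Icc 1 Ns ×ˢ Icc 1 Nt, Pool.Agent.H423R2.RZL.LIM1n.cf (2 * e) L w Q p *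
        ((e : ℝ) * EAg (Fe ε e) F (c * Real.exp L) (fun d => js ((Fe ε e).e * (d : ℤ))
          (p.1 * p.2))) := by
    rw [TOg_eq (Fe ε e) F hF _ hX (2 * e) hq L hL0 s θ w Q h1 h2, mul_sum]
    refine Finset.sum_congr rfl fun p hp => ?_
    ring
  have hreal : (((e : ℝ) * TOg (Fe ε e) F (c * Real.exp L) (2 * e) L w Q : ℝ) : ℂ) -
      ((1 / 2 * Ft F 0 : ℝ) : ℂ) * M3e L w Q e =
      (((e : ℝ) * TOg (Fe ε e) F (c * Real.exp L) (2 * e) L w Q -
        1 / 2 * Ft F 0 * ∑' a : Fin 2 → ℕ, t3c (2 * e) a *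
      (w (Real.log (a 0) / L) * Q (Real.log (a 1) / L)) : ℝ) : ℂ) := by
    unfold M3e
    rw [Complex.ofReal_sub]
    congr 1
    rw [← Complex.ofReal_mul]
  rw [hreal, Complex.norm_real, Real.norm_eq_abs, hTO, hmp, ← Finset.sum_sub_distrib]
  have hr0 : 0 ≤ Real.exp ((s + θ) * L) * Real.exp (2 * s' * L) / (c * Real.exp L) := by
    positivity
  calc |∑ p ∈ Icc 1 Ns ×ˢ Icc 1 Nt, (Pool.Agent.H423R2.RZL.LIM1n.cf (2 * e) L w Q p *
        ((e : ℝ) * EAg (Fe ε e) F (c * Real.exp L) (fun d => js ((Fe ε e).e * (d : ℤ))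
          (p.1 * p.2))) - Pool.Agent.H423R2.RZL.LIM1n.cf (2 * e) L w Q p * (1 / 2 *
            (Gk 0 (p.1 * p.2) * Ft F 0 / ((p.1 * p.2 : ℕ) : ℝ))))|
      ≤ ∑ p ∈ Icc 1 Ns ×ˢ Icc 1 Nt, |(Pool.Agent.H423R2.RZL.LIM1n.cf (2 * e) L w Q p *
        ((e : ℝ) * EAg (Fe ε e) F (c * Real.exp L) (fun d => js ((Fe ε e).e * (d : ℤ))
          (p.1 * p.2))) - Pool.Agent.H423R2.RZL.LIM1n.cf (2 * e) L w Q p * (1 / 2 *
            (Gk 0 (p.1 * p.2) * Ft F 0 / ((p.1 * p.2 : ℕ) : ℝ))))| :=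
        Finset.abs_sum_le_sum_abs _ _
    _ ≤ ∑ p ∈ Icc 1 Ns ×ˢ Icc 1 Nt, ((B1 * B2) * (C * (Real.exp ((s + θ) * L) *
          Real.exp (2 * s' * L) / (c * Real.exp L)) ^ A)) := by
        refine Finset.sum_le_sum fun p hp => ?_
        rw [mem_product, mem_Icc, mem_Icc] at hp
        obtain ⟨⟨hp1, hp1'⟩, ⟨hp2, hp2'⟩⟩ := hp
        rw [← mul_sub, abs_mul]
        by_cases hcp : Nat.Coprime p.1 (2 * e) ∧ Nat.Coprime p.2 (2 * e)
        · have hodd : Odd (p.1 * p.2) := (odd_of_coprime hq hcp.1).mul (odd_of_coprime hq hcp.2)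
          have hce : Nat.Coprime (p.1 * p.2) e :=
            Nat.Coprime.mul_left (Nat.Coprime.coprime_mul_left_right hcp.1)
              (Nat.Coprime.coprime_mul_left_right hcp.2)
          have b1 := cf_abs (2 * e) L w Q B1 B2 hB1 hw hQ hB2 p hp1 hp2
          have b3 := hE e he (c * Real.exp L) (p.1 * p.2) hX hodd hce
          have b4 : C * (((p.1 * p.2 : ℕ) : ℝ) * e / (c * Real.exp L)) ^ A ≤
              C * (Real.exp ((s + θ) * L) * Real.exp (2 * s' * L) / (c * Real.exp L)) ^ A := by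
            apply mul_le_mul_of_nonneg_left _ hC
            apply pow_le_pow_left₀ (by positivity)
            apply div_le_div_of_nonneg_right _ hX.le
            apply mul_le_mul _ hle heR.le (Real.exp_pos _).le
            rw [← hst]
            push_cast
            have e1 : (p.1 : ℝ) ≤ Real.exp (s * L) := le_trans (by exact_mod_cast hp1') hNs'
            have e2 : (p.2 : ℝ) ≤ Real.exp (θ * L) := le_trans (by exact_mod_cast hp2') hNt'
            exact mul_le_mul e1 e2 (Nat.cast_nonneg _) (Real.exp_pos _).le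
          exact mul_le_mul b1 (b3.trans b4) (abs_nonneg _) (by positivity)
        · rw [Pool.Agent.H423R2.RZL.LIM1n.cf, if_neg hcp, abs_zero, zero_mul]
          positivity
    _ = (Ns : ℝ) * Nt * ((B1 * B2) * (C * (Real.exp ((s + θ) * L) *
          Real.exp (2 * s' * L) / (c * Real.exp L)) ^ A)) := by
        rw [Finset.sum_const, card_product, Nat.card_Icc, Nat.card_Icc, nsmul_eq_mul]
        push_cast
        simp
    _ ≤ Real.exp ((s + θ) * L) * ((B1 * B2) * (C * (Real.exp ((s + θ) * L) *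
          Real.exp (2 * s' * L) / (c * Real.exp L)) ^ A)) := by
        apply mul_le_mul_of_nonneg_right _ (by positivity)
        rw [← hst]
        exact mul_le_mul hNs' hNt' (Nat.cast_nonneg _) (Real.exp_pos _).le
    _ = (B1 * B2 * (C * (1 / c) ^ A)) * Real.exp (-((A * δ - (s + θ)) * L)) := by
        have e1 : Real.exp ((s + θ) * L) * Real.exp (2 * s' * L) / (c * Real.exp L) =
            (1 / c) * Real.exp (-(δ * L)) := by
          rw [show -(δ * L) = (s + θ) * L + 2 * s' * L - L by rw [hδd]; ring, Real.exp_sub,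
            Real.exp_add]
          field_simp
        rw [e1, mul_pow, ← Real.exp_nat_mul]
        have e2 : Real.exp (-((A * δ - (s + θ)) * L)) =
            Real.exp ((s + θ) * L) * Real.exp ((A : ℝ) * -(δ * L)) := by
          rw [← Real.exp_add]; ring_nf
        rw [e2]
        ring
    _ ≤ _ := by
        apply mul_le_mul_of_nonneg_right _ (Real.exp_pos _).le
        linarith

/-- a weighted sum of small terms tends to `0` -/
theorem SW_small (s' : ℝ) (hs' : 0 < s') (hs8 : s' ≤ 1) (P : ℝ → ℝ) (hP : Wt s' P) (C η : ℝ)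
    (hC : 0 < C) (hη : 0 < η) (g : ℝ → ℕ → ℂ)
    (hg : ∀ L : ℝ, 1 ≤ L → ∀ e : ℕ, Odd e → Squarefree e → (e : ℝ) ≤ Real.exp (2 * s' * L) →
      ‖g L e‖ ≤ C * Real.exp (-(η * L))) :
    Tendsto (fun L : ℝ => (L : ℂ) * SW P L (g L)) atTop (𝓝 0) := by
  obtain ⟨BP, hBP⟩ := wt_bd s' P hP 4
  obtain ⟨C', hC', hp⟩ := pow_exp (η / 2) (by positivity)
  have hexp : Tendsto (fun L : ℝ => ((BP ^ 2 + 1) * C * C') * Real.exp (-(η / 2 * L))) atTop
      (𝓝 0) := by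
    have : Tendsto (fun L : ℝ => Real.exp (-(η / 2 * L))) atTop (𝓝 0) := by
      apply Real.tendsto_exp_neg_atTop_nhds_zero.comp
      exact tendsto_id.const_mul_atTop (by positivity)
    simpa using this.const_mul ((BP ^ 2 + 1) * C * C')
  refine squeeze_zero_norm' ?_ hexp
  filter_upwards [eventually_ge_atTop (1 : ℝ)] with L hL
  have hL0 : 0 < L := by linarith
  have h1 := Pool.Agent.N782.SWc.SW_crude s' hs'.le P hP BP (Bd_mono hBP (Nat.zero_le _)) L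
    hL (g L) (C * Real.exp (-(η * L))) (by positivity) (fun e he hsq hle => hg L hL e he hsq hle)
  rw [norm_mul, Complex.norm_real, Real.norm_of_nonneg hL0.le]
  have h2 : L * (1 + s' * L) ^ 3 ≤ (1 + L) ^ 4 := by
    calc L * (1 + s' * L) ^ 3 ≤ (1 + L) * (1 + L) ^ 3 := by
          gcongr
          · linarith
          · nlinarith
      _ = (1 + L) ^ 4 := by ring
  calc L * ‖SW P L _‖ ≤ L * (BP ^ 2 * (C * Real.exp (-(η * L))) * (1 + s' * L) ^ 3) := by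
        gcongr
    _ = BP ^ 2 * (C * Real.exp (-(η * L))) * (L * (1 + s' * L) ^ 3) := by ring
    _ ≤ (BP ^ 2 + 1) * (C * Real.exp (-(η * L))) * (C' * Real.exp (η / 2 * L)) := by
        apply mul_le_mul _ (h2.trans (hp L hL0.le)) (by positivity) (by positivity)
        gcongr
        linarith
    _ = (BP ^ 2 + 1) * C * C' * (Real.exp (-(η * L)) * Real.exp (η / 2 * L)) := by ring
    _ = _ := by
        rw [← Real.exp_add]
        congr 2
        ring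

theorem LIM1W (ε : ℤ) (hε : ε = 1 ∨ ε = -1) (F : ℝ → ℝ) (hF : TF F) (c : ℝ) (hc : 0 < c)
    (s θ s' : ℝ) (hA : AdmW s θ s') (P : ℝ → ℝ) (hP : Wt s' P)
    (w Q : ℝ → ℝ) (h1 : Wt s w) (h2 : Wt θ Q) :
    Tendsto (fun L : ℝ => L * EWt ε P L F (c * Real.exp L)
        (fun d => Ndg (F8 ε) 2 L w d * Mdg (F8 ε) 2 L Q d)) atTop
      (𝓝 (1 / 2 * Ft F 0 * (mn w Q / 2) * (2 * Pn P))) := by
  obtain ⟨BP, hBP⟩ := wt_bd s' P hP 4
  have hθs : θ ≤ s := by linarith [hA.adm.hs, hA.adm.hθ1]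
  have h2' : Wt s Q := Wt_mono h2 hθs
  have hs8 : s' ≤ 1 := by
    have h1 := hA.adm.hs
    have h2 := hA.adm.hθ
    have h3 := hA.m1
    linarith
  obtain ⟨C, η, hC, hη, hE⟩ := err1 ε hε F hF c hc s θ s' hA w Q h1 h2
  have hN := SW_small s' hA.hs' hs8 P hP C η hC hη (fun L e => (((e : ℝ) *
    TOg (Fe ε e) F (c * Real.exp L) (2 * e) L w Q : ℝ) : ℂ) -
        ((1 / 2 * Ft F 0 : ℝ) : ℂ) * M3e L w Q e) hE
  have hM := (MW3 s' P hP BP hBP s w Q h1 h2').const_mul ((1 / 2 * Ft F 0 : ℝ) : ℂ)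
  have hsum := hM.add hN
  have hlim : ((1 / 2 * Ft F 0 : ℝ) : ℂ) * ((mn w Q / 2 * (2 * Pn P) : ℝ) : ℂ) + 0 =
      ((1 / 2 * Ft F 0 * (mn w Q / 2) * (2 * Pn P) : ℝ) : ℂ) := by
    push_cast
    ring
  rw [hlim] at hsum
  have hT : Tendsto (fun L : ℝ => ((L * EWt ε P L F (c * Real.exp L)
      (fun d => Ndg (F8 ε) 2 L w d * Mdg (F8 ε) 2 L Q d) : ℝ) : ℂ)) atTop
      (𝓝 ((1 / 2 * Ft F 0 * (mn w Q / 2) * (2 * Pn P) : ℝ) : ℂ)) := by
    refine hsum.congr' ?_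
    filter_upwards [eventually_gt_atTop (0 : ℝ)] with L hL
    rw [Complex.ofReal_mul (r := L), EWt_eq ε hP hL hF (by positivity : 0 < c * Real.exp L)]
    have h3 : (fun e : ℕ => (((e : ℝ) * EAg (Fe ε e) F (c * Real.exp L)
        (fun d => Ndg (F8 ε) 2 L w d * Mdg (F8 ε) 2 L Q d) : ℝ) : ℂ)) =
        fun e => (((1 / 2 * Ft F 0 : ℝ) : ℂ) * M3e L w Q e +
          ((((e : ℝ) * TOg (Fe ε e) F (c * Real.exp L) (2 * e) L w Q : ℝ) : ℂ) -
          ((1 / 2 * Ft F 0 : ℝ) : ℂ) * M3e L w Q e)) := by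
      funext e
      rw [TO_2e]
      ring
    rw [h3, SW_add hP hL, SW_const_mul]
    ring
  have := (Complex.continuous_re.tendsto _).comp hT
  simpa [Function.comp_def] using this

/-- the limit of the weights themselves -/
theorem SW_one (s' : ℝ) (P : ℝ → ℝ) (hP : Wt s' P) :
    Tendsto (fun L : ℝ => (L : ℂ) * SW P L (fun _ => 1)) atTop (𝓝 ((2 * Pn P : ℝ) : ℂ)) := by
  have h := SS_lim s' P hP 0 le_rfl (fun _ _ => 1) (fun _ _ => 1) 0 (fun _ => 1)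
    (fun L _ p => by simp) (fun L _ p => by simp) (fun p => tendsto_const_nhds)
    (fun p _ => tendsto_const_nhds)
  rw [tprod_one] at h
  have e1 : ∀ L : ℝ, SS P L (fun _ => 1) (fun _ => 1) = SW P L (fun _ => 1) := by
    intro L
    rw [← SW_Vn]
    refine SW_congr P L _ _ fun e _ _ => ?_
    unfold Vn
    simp
  simp only [e1] at h
  refine h.trans (le_of_eq ?_)
  congr 1
  unfold Pn
  push_cast
  ring

theorem EF1W (ε : ℤ) (hε : ε = 1 ∨ ε = -1) (F : ℝ → ℝ) (hF : TF F) (c : ℝ) (hc : 0 < c)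
    (s' : ℝ) (hs' : 0 < s') (hs8 : s' ≤ 1 / 4) (P : ℝ → ℝ) (hP : Wt s' P) :
    Tendsto (fun L : ℝ => L * EWt ε P L F (c * Real.exp L) (fun _ => 1)) atTop
      (𝓝 (1 / 2 * Ft F 0 * (2 * Pn P))) := by
  obtain ⟨C, hC, hE⟩ := dualE ε hε F hF 2 even_two le_rfl
  have hg : ∀ L : ℝ, 1 ≤ L → ∀ e : ℕ, Odd e → Squarefree e → (e : ℝ) ≤ Real.exp (2 * s' * L) →
      ‖(((e : ℝ) * EAg (Fe ε e) F (c * Real.exp L) (fun _ => 1) : ℝ) : ℂ) -
        ((1 / 2 * Ft F 0 : ℝ) : ℂ)‖ ≤ (C * (1 / c) ^ 2 + 1) * Real.exp (-(1 * L)) := by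
    intro L hL e he hsq hle
    have heR : (0 : ℝ) < e := by exact_mod_cast Nat.pos_of_ne_zero hsq.ne_zero
    have h1 := hE e he (c * Real.exp L) 1 (by positivity) odd_one (Nat.coprime_one_left e)
    have hj : ∀ k : ℤ, js k 1 = 1 := by
      intro k
      unfold js
      simp
    have h2 : Gk 0 1 = 1 := by
      rw [Pool.Agent.H66R2.RZP4.P4a 1 odd_one, if_pos ⟨1, rfl⟩]
      simp
    simp only [hj] at h1
    rw [h2, one_mul, Nat.cast_one, div_one] at h1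
    rw [← Complex.ofReal_sub, Complex.norm_real, Real.norm_eq_abs]
    refine h1.trans ?_
    have h3 : 1 * (e : ℝ) / (c * Real.exp L) ≤ 1 / c * Real.exp (-(L / 2)) := by
      rw [one_mul, div_le_iff₀ (by positivity)]
      have h4 : 1 / c * Real.exp (-(L / 2)) * (c * Real.exp L) = Real.exp (L / 2) := by
        have h5 : Real.exp (-(L / 2)) * Real.exp L = Real.exp (L / 2) := by
          rw [← Real.exp_add]; congr 1; ring
        calc 1 / c * Real.exp (-(L / 2)) * (c * Real.exp L) =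
            (Real.exp (-(L / 2)) * Real.exp L) * (1 / c * c) := by ring
          _ = _ := by rw [h5, one_div, inv_mul_cancel₀ hc.ne', mul_one]
      rw [h4]
      exact hle.trans (Real.exp_le_exp.2 (by nlinarith))
    calc C * (1 * (e : ℝ) / (c * Real.exp L)) ^ 2 ≤ C * (1 / c * Real.exp (-(L / 2))) ^ 2 := by
          gcongr
      _ = C * (1 / c) ^ 2 * Real.exp (-(1 * L)) := by
          rw [mul_pow, ← Real.exp_nat_mul]
          push_cast
          rw [show (2 : ℝ) * -(L / 2) = -(1 * L) by ring]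
          ring
      _ ≤ _ := by
          apply mul_le_mul_of_nonneg_right _ (Real.exp_pos _).le
          linarith
  have hN := SW_small s' hs' (by linarith) P hP (C * (1 / c) ^ 2 + 1) 1 (by positivity) one_pos
    (fun L e => (((e : ℝ) * EAg (Fe ε e) F (c * Real.exp L) (fun _ => 1) : ℝ) : ℂ) -
        ((1 / 2 * Ft F 0 : ℝ) : ℂ)) hg
  have hM := (SW_one s' P hP).const_mul ((1 / 2 * Ft F 0 : ℝ) : ℂ)
  have hsum := hM.add hN
  have hlim : ((1 / 2 * Ft F 0 : ℝ) : ℂ) * ((2 * Pn P : ℝ) : ℂ) + 0 =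
      ((1 / 2 * Ft F 0 * (2 * Pn P) : ℝ) : ℂ) := by
    push_cast
    ring
  rw [hlim] at hsum
  have hT : Tendsto (fun L : ℝ => ((L * EWt ε P L F (c * Real.exp L) (fun _ => 1) : ℝ) : ℂ)) atTop
      (𝓝 ((1 / 2 * Ft F 0 * (2 * Pn P) : ℝ) : ℂ)) := by
    refine hsum.congr' ?_
    filter_upwards [eventually_gt_atTop (0 : ℝ)] with L hL
    rw [Complex.ofReal_mul (r := L), EWt_eq ε hP hL hF (by positivity : 0 < c * Real.exp L)]
    have h3 : (fun e : ℕ => (((e : ℝ) * EAg (Fe ε e) F (c * Real.exp L) (fun _ => 1) : ℝ) : ℂ)) =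
        fun e : ℕ => (((1 / 2 * Ft F 0 : ℝ) : ℂ) * 1 +
          ((((e : ℝ) * EAg (Fe ε e) F (c * Real.exp L) (fun _ => 1) : ℝ) : ℂ) -
          ((1 / 2 * Ft F 0 : ℝ) : ℂ))) := by
      funext e
      ring
    rw [h3, SW_add hP hL, SW_const_mul]
    ring
  have := (Complex.continuous_re.tendsto _).comp hT
  simpa [Function.comp_def] using this

end

end Pool.Agent.N782.FW
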