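import Pool.Agent.H306R2.RG.Defs

set_option autoImplicit false

/-! General averages over a family of real characters (helper782). -/

namespace Pool.Agent.N782.GA

open Finset Filter Topology MeasureTheory Pool.Agent.H306R2.RZ Pool.Agent.H306R2.RG

noncomputable section

/-- admissible lengths -/
structure AdmV (s θ s' : ℝ) : Prop extends Adm2 s θ where
  hs' : 0 < s'
  m1 : 2 * s' + s + θ < 1

/-- the average with the weights `ω` -/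
def EA (ω : ℕ → ℝ) (f : ℕ → ℝ) : ℝ := ∑' d : ℕ, ω d * f d

/-- a family of weights -/
structure GW (φ : FD) (ω : ℝ → ℕ → ℝ) : Prop where
  nn : ∀ L d, 0 ≤ ω L d
  supp : ∃ R : ℝ, 1 ≤ R ∧ ∀ L d, ω L d ≠ 0 → φ.A d ∧ Real.exp L ≤ R * d ∧ (d : ℝ) ≤ R * Real.exp L

/-- a family of weights with a bounded mollified second moment -/
structure GE (φ : FD) (s' : ℝ) (ω : ℝ → ℕ → ℝ) : Prop extends GW φ ω where
  ub : ∀ s θ : ℝ, AdmV s θ s' → ∃ (C L0 : ℝ) (k : ℕ), 0 < C ∧ ∀ L : ℝ, L0 ≤ L →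
    ∀ (w Q : ℝ → ℝ) (B B' : ℝ), Wt s w → Wt θ Q → Bd k w B → Bd k Q B' →
      EA (ω L) (fun d => (Ndg φ 2 L w d * Mdg φ 2 L Q d) ^ 2) ≤ C * B ^ 2 * B' ^ 2
  one : ∃ C L0 : ℝ, 0 < C ∧ ∀ L : ℝ, L0 ≤ L → EA (ω L) (fun _ => 1) ≤ C

variable {φ : FD} {ω : ℝ → ℕ → ℝ}

theorem EA_fin (h : GW φ ω) (L : ℝ) : ∃ N : ℕ, ∀ f : ℕ → ℝ,
    EA (ω L) f = ∑ d ∈ range N, ω L d * f d := by
  obtain ⟨R, hR, hs⟩ := h.supp
  obtain ⟨N, hN⟩ := exists_nat_gt (R * Real.exp L)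
  refine ⟨N, fun f => ?_⟩
  unfold EA
  refine tsum_eq_sum fun d hd => ?_
  rw [Finset.mem_range, not_lt] at hd
  have : ω L d = 0 := by
    by_contra h0
    have h1 := (hs L d h0).2.2
    have h2 : (N : ℝ) ≤ d := by exact_mod_cast hd
    linarith
  rw [this, zero_mul]

theorem EA_congr (L : ℝ) {f g : ℕ → ℝ} (hfg : ∀ d, ω L d ≠ 0 → f d = g d) :
    EA (ω L) f = EA (ω L) g := by
  unfold EA
  refine tsum_congr fun d => ?_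
  by_cases h0 : ω L d = 0
  · rw [h0, zero_mul, zero_mul]
  · rw [hfg d h0]

theorem EA_mono (h : GW φ ω) (L : ℝ) {f g : ℕ → ℝ} (hfg : ∀ d, ω L d ≠ 0 → f d ≤ g d) :
    EA (ω L) f ≤ EA (ω L) g := by
  obtain ⟨N, hN⟩ := EA_fin h L
  rw [hN, hN]
  refine sum_le_sum fun d _ => ?_
  by_cases h0 : ω L d = 0
  · rw [h0, zero_mul, zero_mul]
  · exact mul_le_mul_of_nonneg_left (hfg d h0) (h.nn L d)

theorem EA_nonneg (h : GW φ ω) (L : ℝ) {f : ℕ → ℝ} (hf : ∀ d, ω L d ≠ 0 → 0 ≤ f d) :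
    0 ≤ EA (ω L) f := by
  obtain ⟨N, hN⟩ := EA_fin h L
  rw [hN]
  refine sum_nonneg fun d _ => ?_
  by_cases h0 : ω L d = 0
  · rw [h0, zero_mul]
  · exact mul_nonneg (h.nn L d) (hf d h0)

theorem EA_add (h : GW φ ω) (L : ℝ) (f g : ℕ → ℝ) :
    EA (ω L) (fun d => f d + g d) = EA (ω L) f + EA (ω L) g := by
  obtain ⟨N, hN⟩ := EA_fin h L
  rw [hN, hN, hN, ← sum_add_distrib]
  refine sum_congr rfl fun d _ => ?_
  ring

theorem EA_sub (h : GW φ ω) (L : ℝ) (f g : ℕ → ℝ) :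
    EA (ω L) (fun d => f d - g d) = EA (ω L) f - EA (ω L) g := by
  obtain ⟨N, hN⟩ := EA_fin h L
  rw [hN, hN, hN, ← sum_sub_distrib]
  refine sum_congr rfl fun d _ => ?_
  ring

theorem EA_smul (ω : ℕ → ℝ) (a : ℝ) (f : ℕ → ℝ) :
    EA ω (fun d => a * f d) = a * EA ω f := by
  unfold EA
  rw [← tsum_mul_left]
  refine tsum_congr fun d => ?_
  ring

theorem EA_sum (h : GW φ ω) (L : ℝ) {ι : Type*} (S : Finset ι) (c : ι → ℝ) (g : ι → ℕ → ℝ) :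
    EA (ω L) (fun d => ∑ p ∈ S, c p * g p d) = ∑ p ∈ S, c p * EA (ω L) (g p) := by
  obtain ⟨N, hN⟩ := EA_fin h L
  simp only [hN, mul_sum]
  rw [sum_comm]
  refine sum_congr rfl fun p _ => sum_congr rfl fun d _ => ?_
  ring

theorem EA_CS (h : GW φ ω) (L : ℝ) (f g : ℕ → ℝ) :
    (EA (ω L) (fun d => f d * g d)) ^ 2 ≤
      EA (ω L) (fun d => f d ^ 2) * EA (ω L) (fun d => g d ^ 2) := by
  obtain ⟨N, hN⟩ := EA_fin h L
  rw [hN, hN, hN]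
  have hw := h.nn L
  have h := Finset.sum_mul_sq_le_sq_mul_sq (range N)
    (fun d => Real.sqrt (ω L d) * f d) (fun d => Real.sqrt (ω L d) * g d)
  have e1 : ∀ d : ℕ, Real.sqrt (ω L d) * f d * (Real.sqrt (ω L d) * g d) =
      ω L d * (f d * g d) := by
    intro d
    have := Real.mul_self_sqrt (hw d)
    calc _ = (Real.sqrt (ω L d) * Real.sqrt (ω L d)) * (f d * g d) := by ring
      _ = _ := by rw [this]
  have e2 : ∀ (k : ℕ → ℝ) (d : ℕ), (Real.sqrt (ω L d) * k d) ^ 2 = ω L d * k d ^ 2 := by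
    intro k d
    rw [mul_pow, Real.sq_sqrt (hw d)]
  simp only [e1, e2] at h
  exact h

/-- bounds for `G0` and `G1` -/
theorem GBG {s' : ℝ} (hG : GE φ s' ω) (s θ : ℝ) (hA : AdmV s θ s') :
    ∃ (C L0 : ℝ) (k : ℕ), 0 < C ∧ ∀ L : ℝ, L0 ≤ L → ∀ (w w' Q Q' : ℝ → ℝ) (B B' m m' : ℝ),
      Wt s w → Wt s w' → Wt θ Q → Wt θ Q' → Bd k w B → Bd k w' B → Bd k Q B' → Bd k Q' B' →
      EA (ω L) (fun d => (Ndg φ 2 L w d * Mdg φ 2 L Q d) ^ 2) ≤ C * B ^ 2 * B' ^ 2 ∧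
      EA (ω L) (fun d => G0g φ 2 L m w Q d ^ 2) ≤ C * (1 + m ^ 2 * B ^ 2 * B' ^ 2) ∧
      EA (ω L) (fun d => G1g φ 2 L m m' w w' Q Q' d ^ 2) ≤
        C * ((m ^ 2 + m' ^ 2) * B ^ 2 * B' ^ 2) := by
  obtain ⟨C, L1, k, hC, hU⟩ := hG.ub s θ hA
  obtain ⟨A, L2, hApos, hL2⟩ := hG.one
  refine ⟨2 * A + 6 * C, max L1 L2, k, by positivity, ?_⟩
  intro L hL w w' Q Q' B B' m m' hw hw' hQ hQ' bw bw' bQ bQ'
  have hL1 : L1 ≤ L := (le_max_left _ _).trans hL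
  have hL22 : L2 ≤ L := (le_max_right _ _).trans hL
  have key : ∀ (u V : ℝ → ℝ), Wt s u → Wt θ V → Bd k u B → Bd k V B' →
      EA (ω L) (fun d => (Ndg φ 2 L u d * Mdg φ 2 L V d) ^ 2) ≤ C * B ^ 2 * B' ^ 2 :=
    fun u V hu hV bu bV => hU L hL1 u V B B' hu hV bu bV
  have hEA : EA (ω L) (fun _ => 1) ≤ A := hL2 L hL22
  have hBB : 0 ≤ B ^ 2 * B' ^ 2 := by positivity
  have k1 := key w Q hw hQ bw bQ
  have k2 := key w' Q hw' hQ bw' bQ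
  have k3 := key w Q' hw hQ' bw bQ'
  have hCB : 0 ≤ C * B ^ 2 * B' ^ 2 := by positivity
  have hW := hG.toGW
  refine ⟨?_, ?_, ?_⟩
  · have : C * B ^ 2 * B' ^ 2 ≤ (2 * A + 6 * C) * B ^ 2 * B' ^ 2 := by
      nlinarith [mul_nonneg hApos.le hBB, mul_nonneg hC.le hBB]
    exact k1.trans this
  · have e1 : EA (ω L) (fun d => G0g φ 2 L m w Q d ^ 2) ≤
        EA (ω L) (fun d => 2 * 1 + (2 * m ^ 2) * (Ndg φ 2 L w d * Mdg φ 2 L Q d) ^ 2) := by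
      refine EA_mono hW L fun d _ => ?_
      unfold G0g
      nlinarith [sq_nonneg (1 + m * (Ndg φ 2 L w d * Mdg φ 2 L Q d))]
    rw [EA_add hW L (fun _ => 2 * 1) (fun d => (2 * m ^ 2) * (Ndg φ 2 L w d * Mdg φ 2 L Q d) ^ 2),
      EA_smul (ω L) 2 (fun _ => 1),
      EA_smul (ω L) (2 * m ^ 2) (fun d => (Ndg φ 2 L w d * Mdg φ 2 L Q d) ^ 2)] at e1
    have e2 := mul_le_mul_of_nonneg_left k1 (show 0 ≤ 2 * m ^ 2 by positivity)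
    have e3 : 0 ≤ m ^ 2 * (B ^ 2 * B' ^ 2) := by positivity
    nlinarith [mul_nonneg hApos.le e3, mul_nonneg hC.le e3]
  · have e1 : EA (ω L) (fun d => G1g φ 2 L m m' w w' Q Q' d ^ 2) ≤
        EA (ω L) (fun d => (3 * m' ^ 2) * (Ndg φ 2 L w d * Mdg φ 2 L Q d) ^ 2 +
          ((3 * m ^ 2) * (Ndg φ 2 L w' d * Mdg φ 2 L Q d) ^ 2 +
            (3 * m ^ 2) * (Ndg φ 2 L w d * Mdg φ 2 L Q' d) ^ 2)) := by
      refine EA_mono hW L fun d _ => ?_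
      unfold G1g
      nlinarith [sq_nonneg (m' * (Ndg φ 2 L w d * Mdg φ 2 L Q d) - m * (Ndg φ 2 L w' d * Mdg φ 2 L Q d)),
        sq_nonneg (m' * (Ndg φ 2 L w d * Mdg φ 2 L Q d) - m * (Ndg φ 2 L w d * Mdg φ 2 L Q' d)),
        sq_nonneg (m * (Ndg φ 2 L w' d * Mdg φ 2 L Q d) - m * (Ndg φ 2 L w d * Mdg φ 2 L Q' d))]
    rw [EA_add hW L (fun d => (3 * m' ^ 2) * (Ndg φ 2 L w d * Mdg φ 2 L Q d) ^ 2)
        (fun d => (3 * m ^ 2) * (Ndg φ 2 L w' d * Mdg φ 2 L Q d) ^ 2 +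
            (3 * m ^ 2) * (Ndg φ 2 L w d * Mdg φ 2 L Q' d) ^ 2),
      EA_add hW L (fun d => (3 * m ^ 2) * (Ndg φ 2 L w' d * Mdg φ 2 L Q d) ^ 2)
        (fun d => (3 * m ^ 2) * (Ndg φ 2 L w d * Mdg φ 2 L Q' d) ^ 2),
      EA_smul (ω L) (3 * m' ^ 2) (fun d => (Ndg φ 2 L w d * Mdg φ 2 L Q d) ^ 2),
      EA_smul (ω L) (3 * m ^ 2) (fun d => (Ndg φ 2 L w' d * Mdg φ 2 L Q d) ^ 2),
      EA_smul (ω L) (3 * m ^ 2) (fun d => (Ndg φ 2 L w d * Mdg φ 2 L Q' d) ^ 2)] at e1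
    have e2 := mul_le_mul_of_nonneg_left k1 (show 0 ≤ 3 * m' ^ 2 by positivity)
    have e3 := mul_le_mul_of_nonneg_left k2 (show 0 ≤ 3 * m ^ 2 by positivity)
    have e4 := mul_le_mul_of_nonneg_left k3 (show 0 ≤ 3 * m ^ 2 by positivity)
    have e5 : 0 ≤ (m ^ 2 + m' ^ 2) * (B ^ 2 * B' ^ 2) := by positivity
    have e6 : 0 ≤ m' ^ 2 * (B ^ 2 * B' ^ 2) := by positivity
    nlinarith [mul_nonneg hApos.le e5, mul_nonneg hC.le e6]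

end

end Pool.Agent.N782.GA
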