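import Pool.Agent.N782.GV
import Pool.Agent.N782.FWe

set_option autoImplicit false

/-! The sieve-weighted average and the average over primes (helper782). -/

namespace Pool.Agent.N782.GI

open Finset Filter Topology MeasureTheory Pool.Agent.H306R2.RZ Pool.Agent.H306R2.RG
open Pool.Agent.N782.GA Pool.Agent.N782.FW
open Pool.Agent.N782.KW (Pn)

noncomputable section

open Classical in
/-- the weights of the sieve -/
def omW (ε : ℤ) (P F : ℝ → ℝ) (L : ℝ) (d : ℕ) : ℝ :=
  if (F8 ε).A d ∧ 1 ≤ L then L / (2 * Pn P) * (F ((d : ℝ) / Real.exp L) / Real.exp L) * Wd P L d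
  else 0

open Classical in
/-- the weights of the primes -/
def omp (ε : ℤ) (s' : ℝ) (F : ℝ → ℝ) (L : ℝ) (d : ℕ) : ℝ :=
  if (F8 ε).A d ∧ d.Prime ∧ 1 ≤ L ∧ s' * L < Real.log d then
    1 / 2 * Real.log d * (F ((d : ℝ) / Real.exp L) / Real.exp L) else 0

theorem TF_supp {F : ℝ → ℝ} (hF : TF F) : ∃ R : ℝ, 1 ≤ R ∧ ∀ x, F x ≠ 0 → 1 / R ≤ x ∧ x ≤ R := by
  obtain ⟨r, hr⟩ := hF.cpt.isCompact.isBounded.subset_closedBall (0 : ℝ)
  have h1 : ∀ x, F x ≠ 0 → 0 < x ∧ x ≤ |r| := by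
    intro x hx
    have hm : x ∈ tsupport F := subset_tsupport F hx
    have h2 := hr hm
    rw [Metric.mem_closedBall, Real.dist_eq, sub_zero] at h2
    exact ⟨hF.pos hm, (le_abs_self x).trans (h2.trans (le_abs_self r))⟩
  by_cases hne : (tsupport F).Nonempty
  · obtain ⟨m, hm, hmin⟩ := hF.cpt.isCompact.exists_isMinOn hne continuousOn_id
    have hm0 : 0 < m := hF.pos hm
    refine ⟨max (max 1 |r|) (1 / m), le_trans (le_max_left _ _) (le_max_left _ _), fun x hx => ?_⟩
    obtain ⟨h2, h3⟩ := h1 x hx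
    refine ⟨?_, h3.trans ((le_max_right _ _).trans (le_max_left _ _))⟩
    have h4 : m ≤ x := hmin (subset_tsupport F hx)
    refine le_trans ?_ h4
    rw [div_le_iff₀ (lt_of_lt_of_le one_pos (le_trans (le_max_left _ _) (le_max_left _ _)))]
    calc 1 = m * (1 / m) := by field_simp
      _ ≤ m * max (max 1 |r|) (1 / m) := mul_le_mul_of_nonneg_left (le_max_right _ _) hm0.le
  · refine ⟨1, le_rfl, fun x hx => ?_⟩
    exact absurd ⟨x, subset_tsupport F hx⟩ hne

theorem supp_exp {F : ℝ → ℝ} {R : ℝ} (hR : 1 ≤ R) (h : ∀ x, F x ≠ 0 → 1 / R ≤ x ∧ x ≤ R)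
    (L : ℝ) (d : ℕ) (hd : F ((d : ℝ) / Real.exp L) ≠ 0) :
    Real.exp L ≤ R * d ∧ (d : ℝ) ≤ R * Real.exp L := by
  obtain ⟨h1, h2⟩ := h _ hd
  have hX := Real.exp_pos L
  have hR0 : 0 < R := by linarith
  constructor
  · rw [div_le_div_iff₀ hR0 hX] at h1
    linarith
  · rwa [div_le_iff₀ hX] at h2

theorem gw_W (ε : ℤ) {P F : ℝ → ℝ} (hF : TF F) (hF0 : ∀ x, 0 ≤ F x) (hPn : 0 < Pn P) :
    GW (F8 ε) (omW ε P F) where
  nn := by
    intro L d
    unfold omW
    split_ifs with h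
    · have : 0 ≤ L := by linarith [h.2]
      have h1 : 0 ≤ Wd P L d := by unfold Wd; positivity
      have h2 := hF0 ((d : ℝ) / Real.exp L)
      positivity
    · exact le_rfl
  supp := by
    obtain ⟨R, hR, h⟩ := TF_supp hF
    refine ⟨R, hR, fun L d hd => ?_⟩
    unfold omW at hd
    split_ifs at hd with h1
    · refine ⟨h1.1, supp_exp hR h L d ?_⟩
      intro h0
      apply hd
      rw [h0]
      ring
    · exact absurd rfl hd

theorem gw_p (ε : ℤ) (s' : ℝ) {F : ℝ → ℝ} (hF : TF F) (hF0 : ∀ x, 0 ≤ F x) :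
    GW (F8 ε) (omp ε s' F) where
  nn := by
    intro L d
    unfold omp
    split_ifs with h
    · have h2 := hF0 ((d : ℝ) / Real.exp L)
      have h3 := Real.log_natCast_nonneg d
      positivity
    · exact le_rfl
  supp := by
    obtain ⟨R, hR, h⟩ := TF_supp hF
    refine ⟨R, hR, fun L d hd => ?_⟩
    unfold omp at hd
    split_ifs at hd with h1
    · refine ⟨h1.1, supp_exp hR h L d ?_⟩
      intro h0
      apply hd
      rw [h0]
      ring
    · exact absurd rfl hd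

theorem Wd_prime {P : ℝ → ℝ} (hP0 : P 0 = 1) {s' : ℝ} (hP : Wt s' P) {L : ℝ} (hL : 1 ≤ L) {d : ℕ}
    (hd : d.Prime) (h : s' * L < Real.log d) : Wd P L d = 1 := by
  unfold Wd lam
  rw [hd.sum_divisors]
  have h1 : P (Real.log d / L) = 0 := by
    by_contra hne
    have := (hP.supp _ hne).2
    rw [div_le_iff₀ (by linarith)] at this
    linarith
  rw [h1]
  simp [hP0]


open Classical in
theorem dom (ε : ℤ) {P F : ℝ → ℝ} (hF0 : ∀ x, 0 ≤ F x) (hF1 : ∀ x, 1 < x → F x = 0)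
    (hPn : 0 < Pn P) (hP0 : P 0 = 1) {s' : ℝ} (hP : Wt s' P) (L : ℝ) (d : ℕ) :
    omp ε s' F L d ≤ Pn P * omW ε P F L d := by
  unfold omp omW
  by_cases h : (F8 ε).A d ∧ d.Prime ∧ 1 ≤ L ∧ s' * L < Real.log d
  · obtain ⟨h1, h2, h3, h4⟩ := h
    rw [if_pos ⟨h1, h2, h3, h4⟩, if_pos ⟨h1, h3⟩, Wd_prime hP0 hP h3 h2 h4]
    have hX := Real.exp_pos L
    have e : Pn P * (L / (2 * Pn P) * (F ((d : ℝ) / Real.exp L) / Real.exp L) * 1) =
        1 / 2 * L * (F ((d : ℝ) / Real.exp L) / Real.exp L) := by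
      field_simp
    rw [e]
    by_cases h5 : F ((d : ℝ) / Real.exp L) = 0
    · rw [h5]; simp
    · have h6 : (d : ℝ) / Real.exp L ≤ 1 := by
        by_contra hc
        exact h5 (hF1 _ (not_le.1 hc))
      have h7 : Real.log d ≤ L := by
        rw [div_le_one hX] at h6
        have := Real.log_le_log (by exact_mod_cast h2.pos) h6
        rwa [Real.log_exp] at this
      have h8 := hF0 ((d : ℝ) / Real.exp L)
      apply mul_le_mul_of_nonneg_right _ (by positivity)
      linarith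
  · rw [if_neg h]
    have h2 := (show 0 ≤ Pn P * (if (F8 ε).A d ∧ 1 ≤ L then
      L / (2 * Pn P) * (F ((d : ℝ) / Real.exp L) / Real.exp L) * Wd P L d else 0) by
        split_ifs with h'
        · have : 0 ≤ L := by linarith [h'.2]
          have h1 : 0 ≤ Wd P L d := by unfold Wd; positivity
          have h2 := hF0 ((d : ℝ) / Real.exp L)
          positivity
        · simp)
    exact h2

end

end Pool.Agent.N782.GI
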