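import Pool.Agent.N782.GS
import Pool.Agent.H423R2.RGL.K.H987R2_RG_KEG
import Pool.Agent.H692R2.RZ2_FI3

set_option autoImplicit false

/-! General averages: the kernel (helper782; adapted from `RG_KEG`). -/

namespace Pool.Agent.N782.GA

open Finset Filter Topology MeasureTheory Pool.Agent.H306R2.RZ Pool.Agent.H306R2.RG
open Pool.Agent.H987R2.RGKEG (cs_int sq3 idd_succ leib wt_mul Md_bound Nd_sum log_large)

noncomputable section

variable {φ : FD} {ω : ℝ → ℕ → ℝ}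

theorem EA_int (hW : GW φ ω) (L : ℝ) (a b : ℝ) (g : ℝ → ℕ → ℝ)
    (hg : ∀ d, IntervalIntegrable (fun β => g β d) volume a b) :
    EA (ω L) (fun d => ∫ β in a..b, g β d) = ∫ β in a..b, EA (ω L) (fun d => g β d) := by
  obtain ⟨N, hN⟩ := EA_fin hW L
  simp only [hN]
  rw [intervalIntegral.integral_finsetSum]
  · refine Finset.sum_congr rfl fun d _ => ?_
    rw [intervalIntegral.integral_const_mul]
  · intro d _
    exact (hg d).const_mul _

theorem EA_intble (hW : GW φ ω) (L : ℝ) (a b : ℝ) (g : ℝ → ℕ → ℝ)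
    (hg : ∀ d, IntervalIntegrable (fun β => g β d) volume a b) :
    IntervalIntegrable (fun β => EA (ω L) (fun d => g β d)) volume a b := by
  obtain ⟨N, hN⟩ := EA_fin hW L
  simp only [hN]
  have : (fun β => ∑ d ∈ range N, ω L d * g β d) =
      ∑ d ∈ range N, fun β => ω L d * g β d := by
    funext β
    rw [Finset.sum_apply]
  rw [this]
  exact IntervalIntegrable.sum _ fun d _ => (hg d).const_mul _

/-- a test function which does not vanish on `[1/R, R]` -/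
theorem exists_TF (R : ℝ) (hR : 1 ≤ R) : ∃ F : ℝ → ℝ, TF F ∧ (∀ x, 0 ≤ F x) ∧
    ∀ x, 1 / R ≤ x → x ≤ R → F x ≠ 0 := by
  have hR0 : 0 < R := by linarith
  obtain ⟨F, hF, hF0, hF1, -⟩ := Pool.Agent.H692R2.RZ2FI3.FI3 (1 / (2 * R ^ 2)) (by positivity) (by
    rw [div_lt_one (by positivity)]
    nlinarith)
  have hc : Continuous (fun x : ℝ => x / R) := continuous_id.div_const R
  have hco : Topology.IsClosedEmbedding (fun x : ℝ => x / R) := by
    have h1 : (fun x : ℝ => x / R) = (fun x => (Homeomorph.mulRight₀ R⁻¹ (by positivity)) x) := by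
      funext x
      simp [div_eq_mul_inv]
    rw [h1]
    exact (Homeomorph.mulRight₀ R⁻¹ (by positivity)).isClosedEmbedding
  refine ⟨fun x => F (x / R), ⟨?_, ?_, ?_⟩, fun x => hF0 _, ?_⟩
  · exact hF.smooth.comp (contDiff_id.div_const R)
  · exact hF.cpt.comp_isClosedEmbedding hco
  · intro x hx
    have h1 : tsupport (fun x => F (x / R)) ⊆ (fun x : ℝ => x / R) ⁻¹' tsupport F :=
      tsupport_comp_subset_preimage F hc
    have h2 := hF.pos (h1 hx)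
    have h3 : 0 < x / R := h2
    have h4 : 0 < x := by
      have := mul_pos h3 hR0
      rwa [div_mul_cancel₀ _ hR0.ne'] at this
    exact h4
  · intro x h1 h2
    have h3 := hF1 (x / R) (by
      rw [div_le_div_iff₀ (by positivity) hR0]
      rw [div_le_iff₀ hR0] at h1
      nlinarith [sq_nonneg R]) (by rwa [div_le_one hR0])
    show F (x / R) ≠ 0
    linarith

theorem C8 (hφ : FG φ) (hW : GW φ ω) : ∃ c1 c2 b L0 : ℝ, 0 < c1 ∧ 0 < b ∧
    ∀ L : ℝ, L0 ≤ L → ∀ d : ℕ, ω L d ≠ 0 → |beg φ L d| ≤ b / L ∧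
      ∀ x : ℝ, 0 ≤ x → x ≤ L / 2 → c1 ≤ KEg φ L d x ∧ KEg φ L d x ≤ c2 := by
  obtain ⟨R, hR, hs⟩ := hW.supp
  obtain ⟨F, hF, hF0, hF1⟩ := exists_TF R hR
  obtain ⟨c1, c2, b, L0, h1, h2, h3⟩ := LnkB.C8G φ hφ F hF
  refine ⟨c1, c2, b, L0, h1, h2, fun L hL d hd => h3 L hL d ?_⟩
  obtain ⟨-, h4, h5⟩ := hs L d hd
  have hR0 : 0 < R := by linarith
  apply hF1
  · rw [div_le_div_iff₀ hR0 (Real.exp_pos L)]
    linarith
  · rw [div_le_iff₀ (Real.exp_pos L)]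
    exact h5

open Classical in
/-- Sobolev inequality in the parameter -/
theorem sobv (hW : GW φ ω) (L : ℝ) (ℓ : ℝ)
    (hℓ : 0 < ℓ) (v v' : ℝ → ℕ → ℝ) (βd : ℕ → ℝ) (M : ℝ)
    (hv : ∀ β d, |β| ≤ ℓ → HasDerivAt (fun z => v z d) (v' β d) β)
    (hc : ∀ d, ContinuousOn (fun β => v' β d) (Set.Icc (-ℓ) ℓ))
    (hM : ∀ β, |β| ≤ ℓ → EA (ω L) (fun d => v' β d ^ 2) ≤ M)
    (hβ : ∀ d : ℕ, ω L d ≠ 0 → |βd d| ≤ ℓ) :
    EA (ω L) (fun d => (v (βd d) d - v 0 d) ^ 2) ≤ 4 * ℓ ^ 2 * M := by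
  have hle : -ℓ ≤ ℓ := by linarith
  have hsub : ∀ β : ℝ, |β| ≤ ℓ → Set.uIcc 0 β ⊆ Set.Icc (-ℓ) ℓ := by
    intro β hb z hz
    rw [abs_le] at hb
    rw [Set.mem_uIcc] at hz
    constructor <;> rcases hz with ⟨h1, h2⟩ | ⟨h1, h2⟩ <;> linarith
  have h1 : ∀ d : ℕ, ω L d ≠ 0 →
      (v (βd d) d - v 0 d) ^ 2 ≤ 2 * ℓ * ∫ β in (-ℓ)..ℓ, v' β d ^ 2 := by
    intro d hd
    have hb := hβ d hd
    have hs := hsub _ hb
    have e1 : ∫ β in (0 : ℝ)..(βd d), v' β d = v (βd d) d - v 0 d := by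
      refine intervalIntegral.integral_eq_sub_of_hasDerivAt (f := fun z => v z d) (fun z hz => ?_) ?_
      · have := hs hz
        exact hv z d (abs_le.2 ⟨this.1, this.2⟩)
      · exact ((hc d).mono hs).intervalIntegrable
    have e2 : |v (βd d) d - v 0 d| ≤ ∫ β in (-ℓ)..ℓ, |v' β d| := by
      rw [← e1]
      have hi : IntegrableOn (fun β => |v' β d|) (Set.Icc (-ℓ) ℓ) volume :=
        (hc d).abs.integrableOn_Icc
      calc |∫ β in (0 : ℝ)..(βd d), v' β d| ≤ ∫ β in Set.uIoc 0 (βd d), |v' β d| := by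
            have := intervalIntegral.norm_integral_le_integral_norm_uIoc (f := fun β => v' β d)
              (a := 0) (b := βd d) (μ := volume)
            simpa [Real.norm_eq_abs] using this
        _ ≤ ∫ β in Set.Icc (-ℓ) ℓ, |v' β d| := by
            refine setIntegral_mono_set hi (Filter.Eventually.of_forall fun _ => abs_nonneg _) ?_
            exact (Set.uIoc_subset_uIcc.trans hs).eventuallyLE
        _ = ∫ β in (-ℓ)..ℓ, |v' β d| := by
            rw [intervalIntegral.integral_of_le hle, integral_Icc_eq_integral_Ioc]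
    calc (v (βd d) d - v 0 d) ^ 2 = |v (βd d) d - v 0 d| ^ 2 := (sq_abs _).symm
      _ ≤ (∫ β in (-ℓ)..ℓ, |v' β d|) ^ 2 := pow_le_pow_left₀ (abs_nonneg _) e2 2
      _ ≤ _ := cs_int ℓ hℓ _ (hc d)
  have hint : ∀ d, IntervalIntegrable (fun β => v' β d ^ 2) volume (-ℓ) ℓ := by
    intro d
    have : ContinuousOn (fun β => v' β d) (Set.uIcc (-ℓ) ℓ) := by
      rw [Set.uIcc_of_le hle]
      exact hc d
    exact (this.pow 2).intervalIntegrable
  calc EA (ω L) (fun d => (v (βd d) d - v 0 d) ^ 2)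
      ≤ EA (ω L) (fun d => 2 * ℓ * ∫ β in (-ℓ)..ℓ, v' β d ^ 2) := EA_mono hW L h1
    _ = 2 * ℓ * ∫ β in (-ℓ)..ℓ, EA (ω L) (fun d => v' β d ^ 2) := by
        rw [EA_smul (ω L), EA_int hW L _ _ (fun β d => v' β d ^ 2) hint]
    _ ≤ 2 * ℓ * ∫ β in (-ℓ)..ℓ, M := by
        refine mul_le_mul_of_nonneg_left ?_ (by linarith)
        refine intervalIntegral.integral_mono_on hle
          (EA_intble hW L _ _ (fun β d => v' β d ^ 2) hint) intervalIntegrable_const ?_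
        intro β hb
        exact hM β (abs_le.2 ⟨hb.1, hb.2⟩)
    _ = 4 * ℓ ^ 2 * M := by
        rw [intervalIntegral.integral_const, smul_eq_mul]
        ring

theorem KEG {s' : ℝ} (hφ : FG φ) (hG : GE φ s' ω) (δ e θ : ℝ)
    (hδ : 0 < δ) (he : 0 < e) (he1 : e ≤ 1) (hA : AdmV (1 / 2 + 3 * δ) θ s') (κ : ℝ → ℝ)
    (hκ : KP δ e κ) (X1 : ℝ) (hX1 : 0 ≤ X1) :
    ∃ (C L0 : ℝ) (k : ℕ), 0 < C ∧ 0 < L0 ∧ ∀ (L : ℝ) (Φ Q : ℝ → ℝ) (B B' : ℝ), L0 ≤ L →
      ContDiff ℝ ((⊤ : ℕ∞) : WithTop ℕ∞) Φ → (∀ τ, τ ≤ -δ → Φ τ = 0) →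
      (∀ j ≤ k, ∀ τ, |iteratedDeriv j Φ τ| ≤ B * Real.exp (X1 * |τ|)) →
      (∀ j : ℕ, ∃ B' : ℝ, ∀ τ, |iteratedDeriv j Φ τ| ≤ B' * Real.exp (X1 * |τ|)) →
      Wt θ Q → Bd k Q B' →
      EA (ω L) (fun d => ((Nfg φ L (KGg φ L (beg φ L d) Φ) d -
        ceg φ * Ndg φ 2 L (fun y => Φ (1 / 2 - y) * κ y) d) * Mdg φ 2 L Q d) ^ 2) ≤
        C * B ^ 2 * B' ^ 2 / L ^ 2 := by
  obtain ⟨c1, c2, b, L8, hc1, hb, h8⟩ := C8 hφ hG.toGW
  obtain ⟨CU, LU, kU, hCU, hU⟩ := hG.ub _ _ hA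
  obtain ⟨CC, LC, hCC, hLC, hC⟩ := LnkB.KCG φ hφ kU b X1 hb.le hX1
  obtain ⟨CT, LT, hCT, hT⟩ := LnkB.TRUG φ hφ δ e b 3 hδ he hb.le κ hκ
  obtain ⟨K, hK, hLeib⟩ := leib kU δ e κ hκ he1 hA.hs1
  -- the average of `1`
  obtain ⟨E1, LE, hE1, hE⟩ := hG.one
  have hW := hG.toGW
  set s := 1 / 2 + 3 * δ with hs
  refine ⟨3 * (4 * CT ^ 2 * E1) + 3 * (CU * (K * CC) ^ 2) + 3 * (4 * b ^ 2 * (CU * (K * CC) ^ 2)),
    max (max (max L8 LU) (max LC LT)) (max (max LE X1) 1), kU + 2, by positivity, by positivity,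
    fun L Φ Q B B' hL hΦ hΦ0 hΦB hΦB' hQ hQB => ?_⟩
  have hL8 : L8 ≤ L := le_trans (by simp) hL
  have hLU : LU ≤ L := le_trans (by simp) hL
  have hLC' : LC ≤ L := le_trans (by simp) hL
  have hLT : LT ≤ L := le_trans (by simp) hL
  have hLE : LE ≤ L := le_trans (by simp) hL
  have hLX : X1 ≤ L := le_trans (by simp) hL
  have hL1 : 1 ≤ L := le_trans (by simp) hL
  have hL0 : 0 < L := by linarith
  have hX : 0 < Real.exp L := Real.exp_pos L
  have hB0 : 0 ≤ B := by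
    have h := hΦB 0 (Nat.zero_le _) 0
    rw [abs_zero, mul_zero, Real.exp_zero, mul_one] at h
    exact le_trans (abs_nonneg _) h
  have hQB0 : ∀ y, |Q y| ≤ B' := by
    intro y
    have := hQB 0 (Nat.zero_le _) y
    rwa [iteratedDeriv_zero] at this
  have hB'0 : 0 ≤ B' := le_trans (abs_nonneg _) (hQB0 0)
  have hQBk : Bd kU Q B' := fun j hj y => hQB j (by omega) y
  have hℓ : 0 < b / L := div_pos hb hL0
  -- consequences of KC
  have hKC : ∀ β : ℝ, |β| ≤ b / L → (∀ y, -1 ≤ y → y ≤ 2 → ∀ j ≤ kU,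
      |iteratedDeriv j (KGg φ L β Φ) y| ≤ CC * B ∧
      |iteratedDeriv j (KGg φ L β Φ) y - ceg φ * iteratedDeriv j (fun z => Φ (1 / 2 - z)) y| ≤
        CC * B / L) ∧
    ContDiff ℝ ((⊤ : ℕ∞) : WithTop ℕ∞) (KGg φ L β Φ) ∧
    (∀ y, HasDerivAt (fun z => KGg φ L z Φ y) (KGg φ L β (deriv Φ) y) β) := fun β hβ =>
    hC L β B Φ hLC' hβ hΦ (fun j hj τ => hΦB j (by omega) τ) hΦB'
  have hΦd : ContDiff ℝ ((⊤ : ℕ∞) : WithTop ℕ∞) (deriv Φ) := by
    have := hΦ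
    rw [show ((⊤ : ℕ∞) : WithTop ℕ∞) = ((⊤ : ℕ∞) : WithTop ℕ∞) + 1 by rfl] at this
    exact (contDiff_succ_iff_deriv.1 this).2.2
  have hKC' : ∀ β : ℝ, |β| ≤ b / L → (∀ y, -1 ≤ y → y ≤ 2 → ∀ j ≤ kU,
      |iteratedDeriv j (KGg φ L β (deriv Φ)) y| ≤ CC * B ∧
      |iteratedDeriv j (KGg φ L β (deriv Φ)) y -
        ceg φ * iteratedDeriv j (fun z => (deriv Φ) (1 / 2 - z)) y| ≤ CC * B / L) ∧
    ContDiff ℝ ((⊤ : ℕ∞) : WithTop ℕ∞) (KGg φ L β (deriv Φ)) ∧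
    (∀ y, HasDerivAt (fun z => KGg φ L z (deriv Φ) y) (KGg φ L β (deriv (deriv Φ)) y) β) := fun β hβ =>
    hC L β B (deriv Φ) hLC' hβ hΦd (fun j hj τ => by
      rw [idd_succ]
      exact hΦB (j + 1) (by omega) τ) (fun j => by
      rw [idd_succ]
      exact hΦB' (j + 1))
  -- finite sums
  set N := ⌊Real.exp (s * L)⌋₊ + 1 with hN
  have hNz : ∀ f : ℝ → ℝ, ∀ n : ℕ, N ≤ n → (fun y => f y * κ y) (Real.log n / L) = 0 := by
    intro f n hn
    have h1 := log_large L s hL0 n hn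
    have h2 : κ (Real.log n / L) = 0 := by
      by_contra h
      have := (hκ.supp _ h).2
      linarith
    simp only [h2, mul_zero]
  -- the three pieces
  set U : ℝ → ℕ → ℝ := fun β d => Ndg φ 2 L (fun y => KGg φ L β Φ y * κ y) d with hUdef
  set U' : ℝ → ℕ → ℝ := fun β d => Ndg φ 2 L (fun y => KGg φ L β (deriv Φ) y * κ y) d with hU'def
  set D0 : ℕ → ℝ := fun d => Ndg φ 2 L (fun y => (KGg φ L 0 Φ y - ceg φ * Φ (1 / 2 - y)) * κ y) d with hD0
  have hder : ∀ (Ψ : ℝ → ℝ) (β : ℝ) (d : ℕ),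
      (∀ y, HasDerivAt (fun z => KGg φ L z Ψ y) (KGg φ L β (deriv Ψ) y) β) →
      HasDerivAt (fun z => Ndg φ 2 L (fun y => KGg φ L z Ψ y * κ y) d)
        (Ndg φ 2 L (fun y => KGg φ L β (deriv Ψ) y * κ y) d) β := by
    intro Ψ β d hΨ
    have e1 : (fun z => Ndg φ 2 L (fun y => KGg φ L z Ψ y * κ y) d) = fun z => ∑ n ∈ range N,
        if Nat.Coprime n 2 then jo φ d n / Real.sqrt n *
          (KGg φ L z Ψ (Real.log n / L) * κ (Real.log n / L)) else 0 := by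
      funext z
      exact Nd_sum 2 L _ N (hNz _) d
    rw [e1, Nd_sum 2 L _ N (hNz _) d]
    refine HasDerivAt.fun_sum fun n _ => ?_
    by_cases hn : Nat.Coprime n 2
    · simp only [if_pos hn]
      exact ((hΨ _).mul_const _).const_mul _
    · simp only [if_neg hn]
      exact hasDerivAt_const _ _
  have hU0 : ∀ β d, |β| ≤ b / L → HasDerivAt (fun z => U z d) (U' β d) β := fun β d hβ =>
    hder Φ β d (hKC β hβ).2.2
  have hU'c : ∀ d, ContinuousOn (fun β => U' β d) (Set.Icc (-(b / L)) (b / L)) := by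
    intro d β hβ
    exact (hder (deriv Φ) β d (hKC' β (abs_le.2 ⟨hβ.1, hβ.2⟩)).2.2).continuousAt.continuousWithinAt
  have hsplit : ∀ β d, ceg φ * Ndg φ 2 L (fun y => Φ (1 / 2 - y) * κ y) d =
      U β d - D0 d - (U β d - U 0 d) := by
    intro β d
    rw [hUdef, hD0]
    simp only
    rw [Nd_sum 2 L _ N (hNz (fun y => Φ (1 / 2 - y))) d,
      Nd_sum 2 L (fun y => KGg φ L 0 Φ y * κ y) N (hNz (fun y => KGg φ L 0 Φ y)) d,
      Nd_sum 2 L (fun y => (KGg φ L 0 Φ y - ceg φ * Φ (1 / 2 - y)) * κ y) N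
        (hNz (fun y => KGg φ L 0 Φ y - ceg φ * Φ (1 / 2 - y))) d]
    have e : ∀ x y z w : ℝ, z = w - x → x = y - z - (y - w) := fun x y z w h => by linarith
    apply e
    rw [Finset.mul_sum, ← Finset.sum_sub_distrib]
    refine Finset.sum_congr rfl fun n _ => ?_
    by_cases hn : Nat.Coprime n 2
    · simp only [if_pos hn]
      ring
    · simp only [if_neg hn]
      ring
  have h00 : |(0 : ℝ)| ≤ b / L := by rw [abs_zero]; exact hℓ.le
  -- UBA in the form of a bound for the mean square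
  have hUBA : ∀ (w : ℝ → ℝ) (A : ℝ), Wt s w → Bd kU w A →
      EA (ω L) (fun d => (Ndg φ 2 L w d * Mdg φ 2 L Q d) ^ 2) ≤ CU * A ^ 2 * B' ^ 2 := by
    intro w A hw hA
    exact hU L hLU w Q A B' hw hQ hA hQBk
  -- piece 1
  have hP1 : EA (ω L) (fun d => ((Nfg φ L (KGg φ L (beg φ L d) Φ) d - U (beg φ L d) d) *
      Mdg φ 2 L Q d) ^ 2) ≤ 4 * CT ^ 2 * E1 * B ^ 2 * B' ^ 2 / L ^ 2 := by
    have h1 : ∀ d : ℕ, ω L d ≠ 0 →
        ((Nfg φ L (KGg φ L (beg φ L d) Φ) d - U (beg φ L d) d) * Mdg φ 2 L Q d) ^ 2 ≤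
          4 * CT ^ 2 * B ^ 2 * B' ^ 2 / L ^ 2 * 1 := by
      intro d hFd
      have hβ := (h8 L hL8 d hFd).1
      have hR := hT L (beg φ L d) B Φ d hLT hβ hΦ.continuous.measurable hΦ0 (fun τ => by
        have h := hΦB 0 (Nat.zero_le _) τ
        rw [iteratedDeriv_zero] at h
        refine h.trans (mul_le_mul_of_nonneg_left (Real.exp_le_exp.2 ?_) hB0)
        exact mul_le_mul_of_nonneg_right hLX (abs_nonneg _))
      have hM := Md_bound (φ := φ) 2 (by norm_num) L θ B' hL0 hA.hθ (by linarith [hA.hθ1]) Q hQ hQB0 d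
      have h2 : |(Nfg φ L (KGg φ L (beg φ L d) Φ) d - U (beg φ L d) d) * Mdg φ 2 L Q d| ≤
          (CT * B * Real.exp (-(3 * L))) * (2 * Real.exp L * B') := by
        rw [abs_mul]
        exact mul_le_mul hR hM (abs_nonneg _) (by positivity)
      have h3 : (CT * B * Real.exp (-(3 * L))) * (2 * Real.exp L * B') ≤ 2 * CT * B * B' / L := by
        have e1 : Real.exp (-(3 * L)) * Real.exp L = Real.exp (-(2 * L)) := by
          rw [← Real.exp_add]
          congr 1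
          ring
        have e2 : Real.exp (-(2 * L)) ≤ 1 / L := by
          rw [Real.exp_neg, one_div]
          apply inv_anti₀ hL0
          have := Real.add_one_le_exp (2 * L)
          linarith
        calc (CT * B * Real.exp (-(3 * L))) * (2 * Real.exp L * B')
            = 2 * CT * B * B' * (Real.exp (-(3 * L)) * Real.exp L) := by ring
          _ ≤ 2 * CT * B * B' * (1 / L) := by
              rw [e1]
              exact mul_le_mul_of_nonneg_left e2 (by positivity)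
          _ = _ := by ring
      rw [← sq_abs]
      calc |(Nfg φ L (KGg φ L (beg φ L d) Φ) d - U (beg φ L d) d) * Mdg φ 2 L Q d| ^ 2
          ≤ (2 * CT * B * B' / L) ^ 2 := pow_le_pow_left₀ (abs_nonneg _) (h2.trans h3) 2
        _ = _ := by ring
    calc _ ≤ EA (ω L) (fun d => 4 * CT ^ 2 * B ^ 2 * B' ^ 2 / L ^ 2 * 1) :=
          EA_mono hW L h1
      _ = 4 * CT ^ 2 * B ^ 2 * B' ^ 2 / L ^ 2 * EA (ω L) (fun _ => 1) :=
          EA_smul (ω L) _ (fun _ => 1)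
      _ ≤ 4 * CT ^ 2 * B ^ 2 * B' ^ 2 / L ^ 2 * E1 :=
          mul_le_mul_of_nonneg_left (hE L hLE) (by positivity)
      _ = _ := by ring
  -- piece 2
  have hP2 : EA (ω L) (fun d => (D0 d * Mdg φ 2 L Q d) ^ 2) ≤
      CU * (K * CC) ^ 2 * B ^ 2 * B' ^ 2 / L ^ 2 := by
    have hcΦ : ContDiff ℝ ((⊤ : ℕ∞) : WithTop ℕ∞) (fun z => Φ (1 / 2 - z)) :=
      hΦ.comp (contDiff_const.sub contDiff_id)
    have hcd : ContDiff ℝ ((⊤ : ℕ∞) : WithTop ℕ∞) (fun y => KGg φ L 0 Φ y - ceg φ * Φ (1 / 2 - y)) :=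
      (hKC 0 h00).2.1.sub (contDiff_const.mul hcΦ)
    have hbd := hLeib (fun y => KGg φ L 0 Φ y - ceg φ * Φ (1 / 2 - y)) (CC * B / L) hcd (by
      intro y h1 h2 j hj
      have h3 := ((hKC 0 h00).1 y h1 h2 j hj).2
      have h4 : iteratedDeriv j (fun y => KGg φ L 0 Φ y - ceg φ * Φ (1 / 2 - y)) y =
          iteratedDeriv j (KGg φ L 0 Φ) y - ceg φ * iteratedDeriv j (fun z => Φ (1 / 2 - z)) y := by
        have h5 := iteratedDeriv_sub (n := j) (f := KGg φ L 0 Φ)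
          (g := fun z => ceg φ * Φ (1 / 2 - z)) (x := y)
          ((hKC 0 h00).2.1.contDiffAt.of_le (by exact_mod_cast le_top))
          ((contDiff_const.mul hcΦ).contDiffAt.of_le (by exact_mod_cast le_top))
        have h6 : iteratedDeriv j (fun z => ceg φ * Φ (1 / 2 - z)) y =
            ceg φ * iteratedDeriv j (fun z => Φ (1 / 2 - z)) y :=
          iteratedDeriv_const_mul_field (ceg φ) (fun z => Φ (1 / 2 - z))
        rw [← h6]
        exact h5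
      rw [h4]
      exact h3)
    have hw := wt_mul δ e κ hκ he1 _ hcd
    calc _ ≤ CU * (K * (CC * B / L)) ^ 2 * B' ^ 2 := hUBA _ _ hw hbd
      _ = _ := by ring
  -- piece 3
  have hP3 : EA (ω L) (fun d => ((U (beg φ L d) d - U 0 d) * Mdg φ 2 L Q d) ^ 2) ≤
      4 * b ^ 2 * (CU * (K * CC) ^ 2) * B ^ 2 * B' ^ 2 / L ^ 2 := by
    have h := sobv hW L (b / L) hℓ (fun β d => U β d * Mdg φ 2 L Q d)
      (fun β d => U' β d * Mdg φ 2 L Q d) (fun d => beg φ L d) (CU * (K * (CC * B)) ^ 2 * B' ^ 2)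
      (fun β d hβ => (hU0 β d hβ).mul_const _) (fun d => (hU'c d).mul continuousOn_const)
      (fun β hβ => by
        have hbd := hLeib (KGg φ L β (deriv Φ)) (CC * B) (hKC' β hβ).2.1 (by
          intro y h1 h2 j hj
          exact ((hKC' β hβ).1 y h1 h2 j hj).1)
        have hw := wt_mul δ e κ hκ he1 _ (hKC' β hβ).2.1
        exact hUBA _ _ hw hbd)
      (fun d hd => (h8 L hL8 d hd).1)
    calc _ = EA (ω L) (fun d => (U (beg φ L d) d * Mdg φ 2 L Q d - U 0 d * Mdg φ 2 L Q d) ^ 2) := by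
          congr 1
          funext d
          ring
      _ ≤ _ := h
      _ = _ := by
          rw [div_pow]
          ring
  -- assembly
  calc EA (ω L) (fun d => ((Nfg φ L (KGg φ L (beg φ L d) Φ) d -
        ceg φ * Ndg φ 2 L (fun y => Φ (1 / 2 - y) * κ y) d) * Mdg φ 2 L Q d) ^ 2)
      ≤ EA (ω L) (fun d => 3 * ((Nfg φ L (KGg φ L (beg φ L d) Φ) d - U (beg φ L d) d) *
          Mdg φ 2 L Q d) ^ 2 + 3 * (D0 d * Mdg φ 2 L Q d) ^ 2 +
          3 * ((U (beg φ L d) d - U 0 d) * Mdg φ 2 L Q d) ^ 2) := by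
        refine EA_mono hW L fun d _ => ?_
        rw [hsplit (beg φ L d) d]
        have e1 : (Nfg φ L (KGg φ L (beg φ L d) Φ) d - (U (beg φ L d) d - D0 d - (U (beg φ L d) d - U 0 d))) *
            Mdg φ 2 L Q d = (Nfg φ L (KGg φ L (beg φ L d) Φ) d - U (beg φ L d) d) * Mdg φ 2 L Q d +
            D0 d * Mdg φ 2 L Q d + (U (beg φ L d) d - U 0 d) * Mdg φ 2 L Q d := by ring
        rw [e1]
        exact sq3 _ _ _
    _ = 3 * EA (ω L) (fun d => ((Nfg φ L (KGg φ L (beg φ L d) Φ) d - U (beg φ L d) d) *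
          Mdg φ 2 L Q d) ^ 2) + 3 * EA (ω L) (fun d => (D0 d * Mdg φ 2 L Q d) ^ 2) +
        3 * EA (ω L) (fun d => ((U (beg φ L d) d - U 0 d) * Mdg φ 2 L Q d) ^ 2) := by
        rw [EA_add hW L (fun d => 3 * ((Nfg φ L (KGg φ L (beg φ L d) Φ) d - U (beg φ L d) d) *
          Mdg φ 2 L Q d) ^ 2 + 3 * (D0 d * Mdg φ 2 L Q d) ^ 2),
          EA_add hW L (fun d => 3 * ((Nfg φ L (KGg φ L (beg φ L d) Φ) d - U (beg φ L d) d) *
          Mdg φ 2 L Q d) ^ 2), EA_smul (ω L), EA_smul (ω L), EA_smul (ω L)]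
    _ ≤ 3 * (4 * CT ^ 2 * E1 * B ^ 2 * B' ^ 2 / L ^ 2) +
        3 * (CU * (K * CC) ^ 2 * B ^ 2 * B' ^ 2 / L ^ 2) +
        3 * (4 * b ^ 2 * (CU * (K * CC) ^ 2) * B ^ 2 * B' ^ 2 / L ^ 2) := by
        linarith
    _ = _ := by ring

end

end Pool.Agent.N782.GA
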