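import Pool.Agent.N782.GK
import Pool.Agent.H423R2.RGM.MR4
import Pool.Agent.H66R2.RZ_W3
import Pool.Agent.H423R2.RGL.OldW

set_option autoImplicit false

/-! General averages: the perturbation step (helper782; adapted from `MR4`). -/

namespace Pool.Agent.N782.GA

open Finset Filter Topology MeasureTheory Pool.Agent.H306R2.RZ Pool.Agent.H306R2.RG
open Pool.Agent.H423R2.RGM (perturb Gr_Ph Gr_Ph1 Nf_cont Nd_cont Md_cont Ph_cont Ph1_cont)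

noncomputable section

variable {φ : FD} {ω : ℝ → ℕ → ℝ}

theorem MR4G {s' : ℝ} (hφ : FG φ) (hG : GE φ s' ω)
    (δ e : ℝ) (hδ : 0 < δ) (_hδ1 : δ < 1 / 8) (he : 0 < e) (he1 : e ≤ 1)
    (ρ κ ζ χ : ℝ → ℝ) (hρ : RH δ ρ)
    (hκ : KP δ e κ) (hζ : ST (-1 / 2) (-1 / 4) ζ) (θ' θ : ℝ) (hθ' : 0 < θ') (hθθ : θ' < θ)
    (hA : AdmV (1 / 2 + 3 * δ) θ s') (hχ : ST θ' θ χ) (c c' : ℝ → ℝ)
    (hc : ∀ x, HasDerivAt c (c' x) x) (hc' : Continuous c') (X0 : ℝ) (hX0 : 0 ≤ X0) (ε : ℝ)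
    (hε : 0 < ε) :
    ∃ L0 : ℝ, ∀ L : ℝ, L0 ≤ L →
      EA (ω L) (fun d =>
        |(Gtg φ L ρ ζ χ c d X0 ^ 2 + ∫ x in (0 : ℝ)..X0, 2 * |Gtg φ L ρ ζ χ c d x| * |Gt1g φ L ρ ζ χ c c' d x|)
        - (G0g φ 2 L (c X0) (Wf ρ κ X0) (qf ζ χ X0) d ^ 2 +
          ∫ x in (0 : ℝ)..X0, 2 * |G0g φ 2 L (c x) (Wf ρ κ x) (qf ζ χ x) d| *
          |G1g φ 2 L (c x) (c' x) (Wf ρ κ x) (Wf1 ρ κ x) (qf ζ χ x) (qf1 ζ χ x) d|)|) ≤ ε := by
  obtain ⟨CK, LK, kK, hCK, hLK, hKEb⟩ :=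
    KEG hφ hG δ e θ hδ he he1 hA κ hκ (X0 + 1) (by linarith)
  obtain ⟨CG, LG, kG, hCG, hGBb⟩ :=
    GBG hG (1 / 2 + 3 * δ) θ hA
  obtain ⟨BP, hBP⟩ := Gr_Ph kK δ ρ hρ X0
  obtain ⟨BP1, hBP1⟩ := Gr_Ph1 kK δ ρ hρ X0
  obtain ⟨h3a, -, h3c, h3d, h3e⟩ := Pool.Agent.H66R2.RZW3.W3 ζ χ hζ θ' θ hθ' hθθ hA.hθ1 hχ
  obtain ⟨h4a, -, h4c, h4d, h4e⟩ := Pool.Agent.H423R2.RGL.OldW.W4 δ e hδ he he1 ρ κ hρ hκ
  obtain ⟨BQ, hBQ⟩ := h3c kK X0
  obtain ⟨BG, hBG⟩ := h3c kG X0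
  obtain ⟨BW, hBW⟩ := h4c kG X0
  have hcc : Continuous c := continuous_iff_continuousAt.2 fun x => (hc x).continuousAt
  obtain ⟨m1, hm1⟩ := (isCompact_Icc (a := (0 : ℝ)) (b := X0)).exists_bound_of_continuousOn
    hcc.continuousOn
  obtain ⟨m2, hm2⟩ := (isCompact_Icc (a := (0 : ℝ)) (b := X0)).exists_bound_of_continuousOn
    hc'.continuousOn
  -- squares of `c`, `c'`
  set M : ℝ := 4 * (m1 ^ 2 + m2 ^ 2) with hM
  have hM0 : 0 ≤ M := by positivity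
  have hcM : ∀ x ∈ Set.Icc 0 X0, c x ^ 2 ≤ M := by
    intro x hx
    have h1 := hm1 x hx
    rw [Real.norm_eq_abs] at h1
    have h2 : c x ^ 2 ≤ m1 ^ 2 := by
      rw [← sq_abs (c x)]
      exact pow_le_pow_left₀ (abs_nonneg _) h1 2
    have := sq_nonneg m2
    have := sq_nonneg m1
    linarith
  have hcM' : ∀ x ∈ Set.Icc 0 X0, c' x ^ 2 ≤ M := by
    intro x hx
    have h1 := hm2 x hx
    rw [Real.norm_eq_abs] at h1
    have h2 : c' x ^ 2 ≤ m2 ^ 2 := by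
      rw [← sq_abs (c' x)]
      exact pow_le_pow_left₀ (abs_nonneg _) h1 2
    have := sq_nonneg m1
    have := sq_nonneg m2
    linarith
  have hη : |φ.η| ≤ 1 := by
    rcases hφ.hη with h | h | h <;> rw [h] <;> norm_num
  have hsq : (1 : ℝ) < Real.sqrt 2 := by
    rw [Real.lt_sqrt (by norm_num)]; norm_num
  have hη2 : |φ.η / Real.sqrt 2| < 1 := by
    rw [abs_div, abs_of_pos (show (0 : ℝ) < Real.sqrt 2 by linarith), div_lt_one (by linarith)]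
    linarith
  have hη3 := abs_lt.1 hη2
  have hce : ceg φ ≠ 0 := by
    unfold ceg
    have h1 : 0 < 1 - φ.η / Real.sqrt 2 := by linarith [hη3.2]
    positivity
  have hcei : (1 / ceg φ) ^ 2 ≤ 4 := by
    unfold ceg
    rw [one_div_one_div]
    nlinarith [hη3.1, hη3.2]
  have hcN : ∀ x ∈ Set.Icc 0 X0, (c x / ceg φ) ^ 2 ≤ M := by
    intro x hx
    have h1 := hm1 x hx
    rw [Real.norm_eq_abs] at h1
    have h2 : c x ^ 2 ≤ m1 ^ 2 := by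
      rw [← sq_abs (c x)]
      exact pow_le_pow_left₀ (abs_nonneg _) h1 2
    have h3 : (c x / ceg φ) ^ 2 = c x ^ 2 * (1 / ceg φ) ^ 2 := by ring
    rw [h3]
    have h4 := mul_le_mul h2 hcei (sq_nonneg _) (sq_nonneg m1)
    have := sq_nonneg m2
    linarith
  have hcN' : ∀ x ∈ Set.Icc 0 X0, (c' x / ceg φ) ^ 2 ≤ M := by
    intro x hx
    have h1 := hm2 x hx
    rw [Real.norm_eq_abs] at h1
    have h2 : c' x ^ 2 ≤ m2 ^ 2 := by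
      rw [← sq_abs (c' x)]
      exact pow_le_pow_left₀ (abs_nonneg _) h1 2
    have h3 : (c' x / ceg φ) ^ 2 = c' x ^ 2 * (1 / ceg φ) ^ 2 := by ring
    rw [h3]
    have h4 := mul_le_mul h2 hcei (sq_nonneg _) (sq_nonneg m2)
    have := sq_nonneg m1
    linarith
  set e1 : ℝ := CK * BP ^ 2 * BQ ^ 2 with he1'
  set e2 : ℝ := CK * BP1 ^ 2 * BQ ^ 2 with he2'
  set e3 : ℝ := CG * (BW ^ 2 * BG ^ 2) with he3'
  have he10 : 0 ≤ e1 := by positivity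
  have he20 : 0 ≤ e2 := by positivity
  have he30 : 0 ≤ e3 := by positivity
  set K : ℝ := 1 + 3 * M * (2 * e1 + e2) + CG + 2 * M * e3 with hK
  have hMe1 : 0 ≤ M * e1 := mul_nonneg hM0 he10
  have hMe2 : 0 ≤ M * e2 := mul_nonneg hM0 he20
  have hMe3 : 0 ≤ M * e3 := mul_nonneg hM0 he30
  have hKx : K = 1 + 6 * (M * e1) + 3 * (M * e2) + CG + 2 * (M * e3) := by rw [hK]; ring
  have hK1 : 1 ≤ K := by rw [hKx]; linarith
  have hK0 : 0 ≤ K := by linarith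
  have hKK : K ≤ K ^ 2 := by nlinarith
  refine ⟨max (max LK LG) (max (max 1 (2 * (X0 + 1))) (K ^ 2 * (3 + 6 * X0) / ε)),
    fun L hL => ?_⟩
  have hL1 : LK ≤ L := (le_max_left _ _).trans ((le_max_left _ _).trans hL)
  have hL2 : LG ≤ L := (le_max_right _ _).trans ((le_max_left _ _).trans hL)
  have hL3 : 1 ≤ L := (le_max_left _ _).trans ((le_max_left _ _).trans ((le_max_right _ _).trans hL))
  have hL4 : 2 * (X0 + 1) ≤ L :=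
    (le_max_right _ _).trans ((le_max_left _ _).trans ((le_max_right _ _).trans hL))
  have hL5 : K ^ 2 * (3 + 6 * X0) / ε ≤ L := (le_max_right _ _).trans ((le_max_right _ _).trans hL)
  have hL0 : 0 < L := by linarith
  obtain ⟨S, wt, hwt, hS⟩ : ∃ (S : Finset ℕ) (wt : ℕ → ℝ), (∀ d, 0 ≤ wt d) ∧
      ∀ f : ℕ → ℝ, EA (ω L) f = ∑ d ∈ S, wt d * f d := by
    obtain ⟨N, hN⟩ := EA_fin hG.toGW L
    exact ⟨range N, ω L, hG.nn L, hN⟩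
  rw [hS]
  -- the three errors
  have hE1 : ∀ x ∈ Set.Icc 0 X0, ∑ d ∈ S, wt d * ((Nfg φ L (KGg φ L (beg φ L d) (Ph ρ x)) d -
      ceg φ * Ndg φ 2 L (Wf ρ κ x) d) * Mdg φ 2 L (qf ζ χ x) d) ^ 2 ≤ e1 / L ^ 2 := by
    intro x hx
    have h1 := hKEb L (Ph ρ x) (qf ζ χ x) BP BQ hL1 (hBP x hx.1 hx.2).smooth
      (fun τ hτ => by unfold Ph; rw [hρ.zero τ hτ, mul_zero]) (hBP x hx.1 hx.2).bd
      (fun j => by
        obtain ⟨B', hB'⟩ := Gr_Ph j δ ρ hρ X0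
        exact ⟨B', (hB' x hx.1 hx.2).bd j le_rfl⟩) (h3a x).1
      (hBQ x (by rw [abs_of_nonneg hx.1]; exact hx.2)).1
    rw [hS] at h1
    exact h1
  have hE2 : ∀ x ∈ Set.Icc 0 X0, ∑ d ∈ S, wt d * ((Nfg φ L (KGg φ L (beg φ L d) (Ph1 ρ x)) d -
      ceg φ * Ndg φ 2 L (Wf1 ρ κ x) d) * Mdg φ 2 L (qf ζ χ x) d) ^ 2 ≤ e2 / L ^ 2 := by
    intro x hx
    have h1 := hKEb L (Ph1 ρ x) (qf ζ χ x) BP1 BQ hL1 (hBP1 x hx.1 hx.2).smooth
      (fun τ hτ => by unfold Ph1; rw [hρ.zero τ hτ, mul_zero]) (hBP1 x hx.1 hx.2).bd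
      (fun j => by
        obtain ⟨B', hB'⟩ := Gr_Ph1 j δ ρ hρ X0
        exact ⟨B', (hB' x hx.1 hx.2).bd j le_rfl⟩) (h3a x).1
      (hBQ x (by rw [abs_of_nonneg hx.1]; exact hx.2)).1
    rw [hS] at h1
    exact h1
  have hE3 : ∀ x ∈ Set.Icc 0 X0, ∑ d ∈ S, wt d * ((Nfg φ L (KGg φ L (beg φ L d) (Ph ρ x)) d -
      ceg φ * Ndg φ 2 L (Wf ρ κ x) d) * Mdg φ 2 L (qf1 ζ χ x) d) ^ 2 ≤ e1 / L ^ 2 := by
    intro x hx
    have h1 := hKEb L (Ph ρ x) (qf1 ζ χ x) BP BQ hL1 (hBP x hx.1 hx.2).smooth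
      (fun τ hτ => by unfold Ph; rw [hρ.zero τ hτ, mul_zero]) (hBP x hx.1 hx.2).bd
      (fun j => by
        obtain ⟨B', hB'⟩ := Gr_Ph j δ ρ hρ X0
        exact ⟨B', (hB' x hx.1 hx.2).bd j le_rfl⟩) (h3a x).2
      (hBQ x (by rw [abs_of_nonneg hx.1]; exact hx.2)).2
    rw [hS] at h1
    exact h1
  have hGG : ∀ x ∈ Set.Icc 0 X0,
      (∑ d ∈ S, wt d * G0g φ 2 L (c x) (Wf ρ κ x) (qf ζ χ x) d ^ 2 ≤ CG + M * e3) ∧
      ∑ d ∈ S, wt d * G1g φ 2 L (c x) (c' x) (Wf ρ κ x) (Wf1 ρ κ x) (qf ζ χ x) (qf1 ζ χ x) d ^ 2 ≤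
        2 * M * e3 := by
    intro x hx
    have hax : |x| ≤ X0 := by rw [abs_of_nonneg hx.1]; exact hx.2
    obtain ⟨-, h2, h3⟩ := hGBb L hL2 (Wf ρ κ x) (Wf1 ρ κ x) (qf ζ χ x) (qf1 ζ χ x) BW BG (c x) (c' x)
      (h4a x).1 (h4a x).2 (h3a x).1 (h3a x).2 (hBW x hax).1 (hBW x hax).2 (hBG x hax).1
      (hBG x hax).2
    rw [hS] at h2 h3
    constructor
    · refine h2.trans ?_
      have := mul_le_mul_of_nonneg_right (hcM x hx) he30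
      have h6 : CG * (1 + c x ^ 2 * BW ^ 2 * BG ^ 2) = CG + c x ^ 2 * e3 := by rw [he3']; ring
      rw [h6]
      linarith
    · refine h3.trans ?_
      have h5 := mul_le_mul_of_nonneg_right (add_le_add (hcM x hx) (hcM' x hx)) he30
      have h6 : CG * ((c x ^ 2 + c' x ^ 2) * BW ^ 2 * BG ^ 2) = (c x ^ 2 + c' x ^ 2) * e3 := by
        rw [he3']; ring
      rw [h6]
      linarith
  have hdiv : ∀ a : ℝ, a ≤ K → a / L ^ 2 ≤ (K / L) ^ 2 := by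
    intro a ha
    rw [div_pow]
    exact div_le_div_of_nonneg_right (ha.trans hKK) (by positivity)
  -- continuity
  have cNf : ∀ d, ContinuousOn (fun x => Nfg φ L (KGg φ L (beg φ L d) (Ph ρ x)) d) (Set.Icc 0 X0) := by
    intro d
    obtain ⟨B, hB⟩ := Gr_Ph 0 δ ρ hρ X0
    refine Nf_cont φ hη L (beg φ L d) δ B (X0 + 1) X0 hL0 (by linarith) hL4
      (hB 0 le_rfl hX0).nonneg (Ph ρ) (Ph_cont ρ hρ.smooth.continuous)
      (fun x τ hτ => by unfold Ph; rw [hρ.zero τ hτ, mul_zero]) (fun x hx τ => ?_) d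
    have := (hB x hx.1 hx.2).bd 0 le_rfl τ
    rwa [iteratedDeriv_zero] at this
  have cNf1 : ∀ d, ContinuousOn (fun x => Nfg φ L (KGg φ L (beg φ L d) (Ph1 ρ x)) d) (Set.Icc 0 X0) := by
    intro d
    obtain ⟨B, hB⟩ := Gr_Ph1 0 δ ρ hρ X0
    refine Nf_cont φ hη L (beg φ L d) δ B (X0 + 1) X0 hL0 (by linarith) hL4
      (hB 0 le_rfl hX0).nonneg (Ph1 ρ) (Ph1_cont ρ hρ.smooth.continuous)
      (fun x τ hτ => by unfold Ph1; rw [hρ.zero τ hτ, mul_zero]) (fun x hx τ => ?_) d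
    have := (hB x hx.1 hx.2).bd 0 le_rfl τ
    rwa [iteratedDeriv_zero] at this
  have cNd : ∀ d, Continuous (fun x => Ndg φ 2 L (Wf ρ κ x) d) := fun d =>
    Nd_cont φ (Wf ρ κ) _ h4d (fun x y h => ((h4a x).1.supp y h).2) L hL0 2 d
  have cNd1 : ∀ d, Continuous (fun x => Ndg φ 2 L (Wf1 ρ κ x) d) := fun d =>
    Nd_cont φ (Wf1 ρ κ) _ h4e (fun x y h => ((h4a x).2.supp y h).2) L hL0 2 d
  have cMd : ∀ d, Continuous (fun x => Mdg φ 2 L (qf ζ χ x) d) := fun d =>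
    Md_cont φ (qf ζ χ) _ h3d (fun x y h => ((h3a x).1.supp y h).2) L hL0 2 d
  have cMd1 : ∀ d, Continuous (fun x => Mdg φ 2 L (qf1 ζ χ x) d) := fun d =>
    Md_cont φ (qf1 ζ χ) _ h3e (fun x y h => ((h3a x).2.supp y h).2) L hL0 2 d
  have key := perturb S wt hwt X0 K L hX0 hL3 hK0 (fun d x => Gtg φ L ρ ζ χ c d x)
    (fun d x => Gt1g φ L ρ ζ χ c c' d x) (fun d x => G0g φ 2 L (c x) (Wf ρ κ x) (qf ζ χ x) d)
    (fun d x => G1g φ 2 L (c x) (c' x) (Wf ρ κ x) (Wf1 ρ κ x) (qf ζ χ x) (qf1 ζ χ x) d)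
    (fun d => by
      unfold Gtg
      exact continuousOn_const.sub ((hcc.continuousOn.div_const _).mul ((cNf d).mul (cMd d).continuousOn)))
    (fun d => by
      unfold Gt1g
      exact (((hc'.continuousOn.div_const _).mul ((cNf d).mul (cMd d).continuousOn)).add
        ((hcc.continuousOn.div_const _).mul (((cNf1 d).mul (cMd d).continuousOn).add
          ((cNf d).mul (cMd1 d).continuousOn)))).neg)
    (fun d => by
      unfold G0g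
      exact (continuous_const.sub (hcc.mul ((cNd d).mul (cMd d)))).continuousOn)
    (fun d => by
      unfold G1g
      exact (((hc'.mul ((cNd d).mul (cMd d))).add
        (hcc.mul (((cNd1 d).mul (cMd d)).add ((cNd d).mul (cMd1 d))))).neg).continuousOn)
    ?_ ?_ ?_ ?_
  · refine key.trans ?_
    rw [div_le_iff₀ hε] at hL5
    rw [div_mul_eq_mul_div, div_le_iff₀ hL0]
    linarith
  · intro x hx
    refine le_trans ?_ (hdiv (M * e1) (by rw [hKx]; linarith))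
    have h1 : ∑ d ∈ S, wt d * (Gtg φ L ρ ζ χ c d x - G0g φ 2 L (c x) (Wf ρ κ x) (qf ζ χ x) d) ^ 2 =
        (c x / ceg φ) ^ 2 * ∑ d ∈ S, wt d * ((Nfg φ L (KGg φ L (beg φ L d) (Ph ρ x)) d -
          ceg φ * Ndg φ 2 L (Wf ρ κ x) d) * Mdg φ 2 L (qf ζ χ x) d) ^ 2 := by
      rw [Finset.mul_sum]
      refine Finset.sum_congr rfl fun d _ => ?_
      unfold Gtg G0g
      field_simp
      ring
    rw [h1]
    calc _ ≤ M * (e1 / L ^ 2) := mul_le_mul (hcN x hx) (hE1 x hx)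
          (Finset.sum_nonneg fun d _ => mul_nonneg (hwt d) (sq_nonneg _)) hM0
      _ = _ := by ring
  · intro x hx
    refine le_trans ?_ (hdiv (3 * M * (2 * e1 + e2)) (by rw [hKx]; linarith))
    have h1 : ∀ d, (Gt1g φ L ρ ζ χ c c' d x -
        G1g φ 2 L (c x) (c' x) (Wf ρ κ x) (Wf1 ρ κ x) (qf ζ χ x) (qf1 ζ χ x) d) ^ 2 ≤
        3 * ((c' x / ceg φ) ^ 2 * ((Nfg φ L (KGg φ L (beg φ L d) (Ph ρ x)) d -
          ceg φ * Ndg φ 2 L (Wf ρ κ x) d) * Mdg φ 2 L (qf ζ χ x) d) ^ 2 +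
          (c x / ceg φ) ^ 2 * ((Nfg φ L (KGg φ L (beg φ L d) (Ph1 ρ x)) d -
          ceg φ * Ndg φ 2 L (Wf1 ρ κ x) d) * Mdg φ 2 L (qf ζ χ x) d) ^ 2 +
          (c x / ceg φ) ^ 2 * ((Nfg φ L (KGg φ L (beg φ L d) (Ph ρ x)) d -
          ceg φ * Ndg φ 2 L (Wf ρ κ x) d) * Mdg φ 2 L (qf1 ζ χ x) d) ^ 2) := by
      intro d
      set u := (c' x / ceg φ) * ((Nfg φ L (KGg φ L (beg φ L d) (Ph ρ x)) d -
          ceg φ * Ndg φ 2 L (Wf ρ κ x) d) * Mdg φ 2 L (qf ζ χ x) d) with hu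
      set v := (c x / ceg φ) * ((Nfg φ L (KGg φ L (beg φ L d) (Ph1 ρ x)) d -
          ceg φ * Ndg φ 2 L (Wf1 ρ κ x) d) * Mdg φ 2 L (qf ζ χ x) d) with hv
      set w := (c x / ceg φ) * ((Nfg φ L (KGg φ L (beg φ L d) (Ph ρ x)) d -
          ceg φ * Ndg φ 2 L (Wf ρ κ x) d) * Mdg φ 2 L (qf1 ζ χ x) d) with hw
      have e4 : Gt1g φ L ρ ζ χ c c' d x -
        G1g φ 2 L (c x) (c' x) (Wf ρ κ x) (Wf1 ρ κ x) (qf ζ χ x) (qf1 ζ χ x) d = -(u + v + w) := by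
        rw [hu, hv, hw]
        unfold Gt1g G1g
        field_simp
        ring
      rw [e4, ← mul_pow, ← mul_pow, ← mul_pow, ← hu, ← hv, ← hw]
      nlinarith [sq_nonneg (u - v), sq_nonneg (v - w), sq_nonneg (u - w)]
    have h2 : ∑ d ∈ S, wt d * (Gt1g φ L ρ ζ χ c c' d x -
        G1g φ 2 L (c x) (c' x) (Wf ρ κ x) (Wf1 ρ κ x) (qf ζ χ x) (qf1 ζ χ x) d) ^ 2 ≤
        3 * ((c' x / ceg φ) ^ 2 * ∑ d ∈ S, wt d * ((Nfg φ L (KGg φ L (beg φ L d) (Ph ρ x)) d -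
          ceg φ * Ndg φ 2 L (Wf ρ κ x) d) * Mdg φ 2 L (qf ζ χ x) d) ^ 2 +
          (c x / ceg φ) ^ 2 * ∑ d ∈ S, wt d * ((Nfg φ L (KGg φ L (beg φ L d) (Ph1 ρ x)) d -
          ceg φ * Ndg φ 2 L (Wf1 ρ κ x) d) * Mdg φ 2 L (qf ζ χ x) d) ^ 2 +
          (c x / ceg φ) ^ 2 * ∑ d ∈ S, wt d * ((Nfg φ L (KGg φ L (beg φ L d) (Ph ρ x)) d -
          ceg φ * Ndg φ 2 L (Wf ρ κ x) d) * Mdg φ 2 L (qf1 ζ χ x) d) ^ 2) := by
      rw [Finset.mul_sum, Finset.mul_sum, Finset.mul_sum, ← Finset.sum_add_distrib,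
        ← Finset.sum_add_distrib, Finset.mul_sum]
      refine Finset.sum_le_sum fun d _ => ?_
      calc _ ≤ _ := mul_le_mul_of_nonneg_left (h1 d) (hwt d)
        _ = _ := by ring
    refine h2.trans ?_
    have i1 := mul_le_mul (hcN' x hx) (hE1 x hx)
      (Finset.sum_nonneg fun d _ => mul_nonneg (hwt d) (sq_nonneg _)) hM0
    have i2 := mul_le_mul (hcN x hx) (hE2 x hx)
      (Finset.sum_nonneg fun d _ => mul_nonneg (hwt d) (sq_nonneg _)) hM0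
    have i3 := mul_le_mul (hcN x hx) (hE3 x hx)
      (Finset.sum_nonneg fun d _ => mul_nonneg (hwt d) (sq_nonneg _)) hM0
    have i4 : 3 * M * (2 * e1 + e2) / L ^ 2 =
        3 * (M * (e1 / L ^ 2) + M * (e2 / L ^ 2) + M * (e1 / L ^ 2)) := by ring
    rw [i4]
    linarith
  · intro x hx
    refine (hGG x hx).1.trans (le_trans ?_ hKK)
    rw [hKx]
    linarith
  · intro x hx
    refine (hGG x hx).2.trans (le_trans ?_ hKK)
    rw [hKx]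
    linarith

end

end Pool.Agent.N782.GA
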