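import Pool.Agent.N782.GA
import Pool.Agent.H828R2.RG_SUPG
import Pool.Agent.H587R3.RG_SBUG
import Pool.Agent.H532R3.RG_SBEG

set_option autoImplicit false

/-! General averages: superposition and Sobolev arguments (helper782; adapted from `RG_SUPG`,
`RG_SBUG`, `RG_SBEG`). -/

namespace Pool.Agent.N782.GA

open Finset Filter Topology MeasureTheory Pool.Agent.H306R2.RZ Pool.Agent.H306R2.RG
open Pool.Agent.H828R2.RGSUP (tc tsn tc_Wt tsn_Wt tw_Bd' hh hh_sq Ed_eq_int)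
open Pool.Agent.H587R3.RG_SBUG (NF Nd_eq)
open Pool.Agent.H532R3.RG_SBEG (Edg_fin)

noncomputable section

variable {φ : FD} {ω : ℝ → ℕ → ℝ}

/-- superposition: product weights twisted by `η(y+t)` -/
theorem SUPG {s' : ℝ} (hG : GE φ s' ω) (s θ : ℝ) (hA : AdmV s θ s') (η : ℝ → ℝ)
    (hη : ∃ u, Wt u η) :
    ∃ (C L0 : ℝ) (k : ℕ), 0 < C ∧ 0 < L0 ∧ ∀ (L : ℝ) (a b : ℝ → ℝ) (B B' : ℝ), L0 ≤ L →
      Wt s a → Wt θ b → Bd k a B → Bd k b B' →
      EA (ω L) (fun d => Edg φ 2 L a b η d ^ 2) ≤ C * B ^ 2 * B' ^ 2 := by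
  obtain ⟨u, hη⟩ := hη
  obtain ⟨C, L0, k, hC, hUB⟩ := hG.ub s θ hA
  have hI := (Pool.Agent.H375R3.RZFR.FR 0 u).2.2 (2 * k) η hη
  set J : ℝ := ∫ τ : ℝ, ‖fh 0 η τ‖ * (1 + |τ|) ^ (2 * k) with hJ
  have hJ0 : 0 ≤ J := integral_nonneg fun τ => by positivity
  refine ⟨16 * C * J ^ 2 + 1, max L0 1, k, by positivity, lt_of_lt_of_le one_pos (le_max_right _ _), ?_⟩
  intro L a b B B' hL ha hb hBa hBb
  have hL1 : L0 ≤ L := (le_max_left _ _).trans hL
  have hLpos : 0 < L := lt_of_lt_of_le one_pos ((le_max_right _ _).trans hL)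
  have hW := hG.toGW
  have hB : 0 ≤ B := le_trans (abs_nonneg _) (hBa 0 (Nat.zero_le _) 0)
  have hB' : 0 ≤ B' := le_trans (abs_nonneg _) (hBb 0 (Nat.zero_le _) 0)
  -- mean square of each product
  have hone : ∀ (w Q : ℝ → ℝ) (b1 b2 : ℝ), Wt s w → Wt θ Q → Bd k w b1 → Bd k Q b2 →
      EA (ω L) (fun d => (Ndg φ 2 L w d * Mdg φ 2 L Q d) ^ 2) ≤ C * b1 ^ 2 * b2 ^ 2 := by
    intro w Q b1 b2 hw hQ h1 h2
    exact hUB L hL1 w Q b1 b2 hw hQ h1 h2
  have hms : ∀ τ : ℝ, EA (ω L) (fun d => hh φ L a b η d τ ^ 2) ≤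
      16 * C * (‖fh 0 η τ‖ * (1 + |τ|) ^ (2 * k) * (B * B')) ^ 2 := by
    intro τ
    obtain ⟨ca, sa⟩ := tw_Bd' τ B k a ha.smooth hBa
    obtain ⟨cb, sb⟩ := tw_Bd' τ B' k b hb.smooth hBb
    have m1 := hone _ _ _ _ (tc_Wt ha τ) (tc_Wt hb τ) ca cb
    have m2 := hone _ _ _ _ (tsn_Wt ha τ) (tsn_Wt hb τ) sa sb
    have m3 := hone _ _ _ _ (tsn_Wt ha τ) (tc_Wt hb τ) sa cb
    have m4 := hone _ _ _ _ (tc_Wt ha τ) (tsn_Wt hb τ) ca sb
    have hle := EA_mono hW L (fun d _ => hh_sq (φ := φ) L a b η d τ)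
    obtain ⟨N, hN⟩ := EA_fin hW L
    have hlin : EA (ω L) (fun d => 4 * ‖fh 0 η τ‖ ^ 2 *
      ((Ndg φ 2 L (tc a τ) d * Mdg φ 2 L (tc b τ) d) ^ 2 + (Ndg φ 2 L (tsn a τ) d * Mdg φ 2 L (tsn b τ) d) ^ 2 +
       (Ndg φ 2 L (tsn a τ) d * Mdg φ 2 L (tc b τ) d) ^ 2 + (Ndg φ 2 L (tc a τ) d * Mdg φ 2 L (tsn b τ) d) ^ 2)) =
       4 * ‖fh 0 η τ‖ ^ 2 * (
        EA (ω L) (fun d => (Ndg φ 2 L (tc a τ) d * Mdg φ 2 L (tc b τ) d) ^ 2) +
        EA (ω L) (fun d => (Ndg φ 2 L (tsn a τ) d * Mdg φ 2 L (tsn b τ) d) ^ 2) +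
        EA (ω L) (fun d => (Ndg φ 2 L (tsn a τ) d * Mdg φ 2 L (tc b τ) d) ^ 2) +
        EA (ω L) (fun d => (Ndg φ 2 L (tc a τ) d * Mdg φ 2 L (tsn b τ) d) ^ 2)) := by
      simp only [hN]
      rw [← sum_add_distrib, ← sum_add_distrib, ← sum_add_distrib, mul_sum]
      refine sum_congr rfl fun d _ => ?_
      ring
    rw [hlin] at hle
    refine hle.trans ?_
    have hsum : EA (ω L) (fun d => (Ndg φ 2 L (tc a τ) d * Mdg φ 2 L (tc b τ) d) ^ 2) +
        EA (ω L) (fun d => (Ndg φ 2 L (tsn a τ) d * Mdg φ 2 L (tsn b τ) d) ^ 2) +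
        EA (ω L) (fun d => (Ndg φ 2 L (tsn a τ) d * Mdg φ 2 L (tc b τ) d) ^ 2) +
        EA (ω L) (fun d => (Ndg φ 2 L (tc a τ) d * Mdg φ 2 L (tsn b τ) d) ^ 2) ≤
        4 * (C * (B * (1 + |τ|) ^ k) ^ 2 * (B' * (1 + |τ|) ^ k) ^ 2) := by linarith
    calc _ ≤ 4 * ‖fh 0 η τ‖ ^ 2 * (4 * (C * (B * (1 + |τ|) ^ k) ^ 2 * (B' * (1 + |τ|) ^ k) ^ 2)) :=
          mul_le_mul_of_nonneg_left hsum (by positivity)
      _ = _ := by ring
  -- the quadratic form
  set E : ℝ := EA (ω L) (fun d => Edg φ 2 L a b η d ^ 2) with hE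
  have hE0 : 0 ≤ E := EA_nonneg hW L fun d _ => sq_nonneg _
  obtain ⟨N, hN⟩ := EA_fin hW L
  have hEint : E = ∫ τ : ℝ, EA (ω L) (fun d => Edg φ 2 L a b η d * hh φ L a b η d τ) := by
    rw [hE]
    simp only [hN]
    rw [integral_finsetSum]
    · refine sum_congr rfl fun d _ => ?_
      rw [integral_const_mul, integral_const_mul, ← (Ed_eq_int ha hb hη L hLpos d).2]
      ring
    · intro d _
      exact ((Ed_eq_int ha hb hη L hLpos d).1.const_mul _).const_mul _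
  have hpt : ∀ τ : ℝ, EA (ω L) (fun d => Edg φ 2 L a b η d * hh φ L a b η d τ) ≤
      Real.sqrt (16 * C * E) * (B * B') * (‖fh 0 η τ‖ * (1 + |τ|) ^ (2 * k)) := by
    intro τ
    have h1 := EA_CS hW L (fun d => Edg φ 2 L a b η d) (fun d => hh φ L a b η d τ)
    refine (le_abs_self _).trans (abs_le_of_sq_le_sq (h1.trans ?_) (by positivity)) |>.trans le_rfl
    rw [mul_pow, mul_pow, Real.sq_sqrt (by positivity)]
    calc _ ≤ E * (16 * C * (‖fh 0 η τ‖ * (1 + |τ|) ^ (2 * k) * (B * B')) ^ 2) :=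
          mul_le_mul_of_nonneg_left (hms τ) hE0
      _ = _ := by ring
  have hE1 : E ≤ Real.sqrt (16 * C * E) * (B * B') * J := by
    rw [hJ, ← integral_const_mul]
    calc E = ∫ τ : ℝ, EA (ω L) (fun d => Edg φ 2 L a b η d * hh φ L a b η d τ) := hEint
      _ ≤ _ := by
        refine integral_mono ?_ (hI.const_mul _) hpt
        simp only [hN]
        refine integrable_finsetSum _ fun d _ => ?_
        exact ((Ed_eq_int ha hb hη L hLpos d).1.const_mul _).const_mul _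
  -- conclude
  have h2 : E ^ 2 ≤ 16 * C * E * ((B * B') * J) ^ 2 := by
    calc E ^ 2 ≤ (Real.sqrt (16 * C * E) * (B * B') * J) ^ 2 := by gcongr
      _ = 16 * C * E * ((B * B') * J) ^ 2 := by
        rw [mul_assoc, mul_pow, Real.sq_sqrt (by positivity)]
  rcases eq_or_lt_of_le hE0 with h0 | h0
  · rw [← h0]; positivity
  · have h3 : E ≤ 16 * C * ((B * B') * J) ^ 2 := by
      have : E * E ≤ E * (16 * C * ((B * B') * J) ^ 2) := by nlinarith
      exact le_of_mul_le_mul_left this h0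
    calc E ≤ 16 * C * ((B * B') * J) ^ 2 := h3
      _ = (16 * C * J ^ 2) * B ^ 2 * B' ^ 2 := by ring
      _ ≤ (16 * C * J ^ 2 + 1) * B ^ 2 * B' ^ 2 := by gcongr; linarith

section

open Pool.Agent.H423R2.RZA.SBUn (sob)

theorem SBUG {s' : ℝ} (hG : GE φ s' ω) (s θ : ℝ)
    (hA : AdmV s θ s') (b : ℝ) (hb : 0 ≤ b) :
    ∃ (C L0 : ℝ) (k : ℕ), 0 < C ∧ 0 < L0 ∧ ∀ (L : ℝ) (a a' : ℝ → ℝ → ℝ) (Q : ℝ → ℝ) (B B' : ℝ)
      (βd : ℕ → ℝ), L0 ≤ L →
      (∀ β y, |β| ≤ b / L → HasDerivAt (fun z => a z y) (a' β y) β) →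
      (∀ y, ContinuousOn (fun β => a' β y) (Set.Icc (-(b / L)) (b / L))) →
      (∀ β, |β| ≤ b / L → Wt s (a β) ∧ Wt s (a' β) ∧ Bd k (a β) B ∧ Bd k (a' β) B) →
      Wt θ Q → Bd k Q B' → (∀ d : ℕ, ω L d ≠ 0 → |βd d| ≤ b / L) →
      EA (ω L) (fun d => (Ndg φ 2 L (a (βd d)) d * Mdg φ 2 L Q d) ^ 2) ≤ C * B ^ 2 * B' ^ 2 := by
  obtain ⟨C, L0, k, hC, hU⟩ := hG.ub s θ hA
  refine ⟨(2 + 8 * b ^ 2) * C, max L0 1, k, by positivity, by positivity, ?_⟩
  intro L a a' Q B B' βd hL hder hcont hWB hQ hQB hβ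
  have hL0 : L0 ≤ L := (le_max_left _ _).trans hL
  have hL1 : 1 ≤ L := (le_max_right _ _).trans hL
  have hLpos : 0 < L := by linarith
  set h : ℝ := b / L with hh
  have hh0 : 0 ≤ h := by positivity
  have hhb : h ≤ b := by
    rw [hh, div_le_iff₀ hLpos]; nlinarith
  have hW := hG.toGW
  obtain ⟨D', hD'⟩ := EA_fin hW L
  obtain ⟨D, hDD⟩ : ∃ D : Finset ℕ, D = range D' := ⟨_, rfl⟩
  have hD : ∀ f : ℕ → ℝ, EA (ω L) f = ∑ d ∈ D, ω L d * f d := by rw [hDD]; exact hD'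
  have hcw : ∀ d, 0 ≤ ω L d := hW.nn L
  set N := ⌊Real.exp (s * L)⌋₊ + 1 with hN
  -- the bounds of the second moment
  have hTT : ∀ w : ℝ → ℝ, Wt s w → Bd k w B →
      ∑ d ∈ D, ω L d * (Ndg φ 2 L w d * Mdg φ 2 L Q d) ^ 2 ≤ C * B ^ 2 * B' ^ 2 := by
    intro w hw hwB
    have h1 := hU L hL0 w Q B B' hw hQ hwB hQB
    rw [hD] at h1
    exact h1
  rw [hD]
  -- Sobolev for every `d`
  set u' : ℕ → ℝ → ℝ := fun d z => NF φ N L (a' z) d * Mdg φ 2 L Q d with hu'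
  have hu'c : ∀ d, ContinuousOn (u' d) (Set.Icc (-h) h) := by
    intro d
    apply ContinuousOn.mul _ continuousOn_const
    unfold NF
    refine continuousOn_finset_sum _ fun n _ => ?_
    split_ifs
    · exact continuousOn_const.mul (hcont _)
    · exact continuousOn_const
  have hsob : ∀ d ∈ D, ω L d * (Ndg φ 2 L (a (βd d)) d * Mdg φ 2 L Q d) ^ 2 ≤
      ω L d * (2 * (Ndg φ 2 L (a 0) d * Mdg φ 2 L Q d) ^ 2 + 4 * h * ∫ z in (-h)..h, u' d z ^ 2) := by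
    intro d _
    by_cases h0 : ω L d = 0
    · rw [h0, zero_mul, zero_mul]
    · have hβd := hβ d h0
      apply mul_le_mul_of_nonneg_left _ (hcw d)
      have h1 := sob h hh0 (fun z => NF φ N L (a z) d * Mdg φ 2 L Q d) (u' d) (βd d) hβd (by
        intro z hz
        have hz' : |z| ≤ h := abs_le.2 ⟨hz.1, hz.2⟩
        apply HasDerivAt.mul_const
        unfold NF
        apply HasDerivAt.fun_sum
        intro n _
        split_ifs
        · exact (hder z _ hz').const_mul _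
        · exact hasDerivAt_const _ _) (hu'c d)
      have h2 : Ndg φ 2 L (a (βd d)) d = NF φ N L (a (βd d)) d :=
        Nd_eq φ L s hLpos _ (hWB _ hβd).1 d
      have h3 : Ndg φ 2 L (a 0) d = NF φ N L (a 0) d :=
        Nd_eq φ L s hLpos _ (hWB 0 (by rw [abs_zero]; exact hh0)).1 d
      rw [h2, h3]
      exact h1
  refine (sum_le_sum hsob).trans ?_
  have hsplit : ∑ d ∈ D, ω L d * (2 * (Ndg φ 2 L (a 0) d * Mdg φ 2 L Q d) ^ 2 +
      4 * h * ∫ z in (-h)..h, u' d z ^ 2) =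
      2 * ∑ d ∈ D, ω L d * (Ndg φ 2 L (a 0) d * Mdg φ 2 L Q d) ^ 2 +
        4 * h * ∑ d ∈ D, ω L d * ∫ z in (-h)..h, u' d z ^ 2 := by
    rw [mul_sum, mul_sum, ← sum_add_distrib]
    refine sum_congr rfl fun d _ => ?_
    ring
  rw [hsplit]
  have hle : -h ≤ h := by linarith
  have huI : Set.uIcc (-h) h = Set.Icc (-h) h := Set.uIcc_of_le hle
  have hK0 : 0 ≤ C * B ^ 2 * B' ^ 2 := by positivity
  have hint : ∑ d ∈ D, ω L d * ∫ z in (-h)..h, u' d z ^ 2 ≤ 2 * h * (C * B ^ 2 * B' ^ 2) := by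
    have h1 : ∑ d ∈ D, ω L d * ∫ z in (-h)..h, u' d z ^ 2 =
        ∫ z in (-h)..h, ∑ d ∈ D, ω L d * u' d z ^ 2 := by
      rw [intervalIntegral.integral_finset_sum]
      · refine sum_congr rfl fun d _ => ?_
        rw [intervalIntegral.integral_const_mul]
      · intro d _
        apply ContinuousOn.intervalIntegrable
        rw [huI]
        exact continuousOn_const.mul ((hu'c d).pow 2)
    rw [h1]
    have h2 : ∫ z in (-h)..h, ∑ d ∈ D, ω L d * u' d z ^ 2 ≤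
        ∫ z in (-h)..h, (C * B ^ 2 * B' ^ 2) := by
      apply intervalIntegral.integral_mono_on hle
      · apply ContinuousOn.intervalIntegrable
        rw [huI]
        exact continuousOn_finset_sum _ fun d _ => continuousOn_const.mul ((hu'c d).pow 2)
      · exact intervalIntegrable_const
      · intro z hz
        have hz' : |z| ≤ h := abs_le.2 ⟨hz.1, hz.2⟩
        have h3 := hTT (a' z) (hWB z hz').2.1 (hWB z hz').2.2.2
        refine le_trans (le_of_eq ?_) h3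
        refine sum_congr rfl fun d _ => ?_
        rw [Nd_eq φ L s hLpos _ (hWB z hz').2.1 d]
    refine h2.trans (le_of_eq ?_)
    rw [intervalIntegral.integral_const, smul_eq_mul]; ring
  have h0W := hWB 0 (by rw [abs_zero]; exact hh0)
  have hfirst := hTT (a 0) h0W.1 h0W.2.2.1
  have hsec := mul_le_mul_of_nonneg_left hint (show 0 ≤ 4 * h by positivity)
  have hsq : h ^ 2 ≤ b ^ 2 := pow_le_pow_left₀ hh0 hhb 2
  have hfin : 4 * h * (2 * h * (C * B ^ 2 * B' ^ 2)) ≤ 8 * b ^ 2 * (C * B ^ 2 * B' ^ 2) := by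
    have : 4 * h * (2 * h * (C * B ^ 2 * B' ^ 2)) = 8 * h ^ 2 * (C * B ^ 2 * B' ^ 2) := by ring
    rw [this]
    gcongr
  calc _ ≤ 2 * (C * B ^ 2 * B' ^ 2) + 8 * b ^ 2 * (C * B ^ 2 * B' ^ 2) := by linarith
    _ = (2 + 8 * b ^ 2) * C * B ^ 2 * B' ^ 2 := by ring

end

section

open Pool.Agent.H423R2.RZA.SBEn (sob1)

/-- Sobolev inequality on average -/
theorem sob (hW : GW φ ω) (L : ℝ) {h K : ℝ}
    (hh : 0 ≤ h) (u u' : ℕ → ℝ → ℝ)
    (hu : ∀ d β, |β| ≤ h → HasDerivAt (u d) (u' d β) β)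
    (hc : ∀ d, ContinuousOn (u' d) (Set.Icc (-h) h))
    (h0 : EA (ω L) (fun d => u d 0 ^ 2) ≤ K)
    (h1 : ∀ β, |β| ≤ h → EA (ω L) (fun d => u' d β ^ 2) ≤ K)
    (βd : ℕ → ℝ) (hβ : ∀ d : ℕ, ω L d ≠ 0 → |βd d| ≤ h) :
    EA (ω L) (fun d => u d (βd d) ^ 2) ≤ (2 + 8 * h ^ 2) * K := by
  obtain ⟨N, hS⟩ := EA_fin hW L
  have hle : -h ≤ h := by linarith
  have hi : ∀ d, IntervalIntegrable (fun t => u' d t ^ 2) volume (-h) h := by
    intro d
    have : ContinuousOn (fun t => u' d t ^ 2) (Set.uIcc (-h) h) := by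
      rw [Set.uIcc_of_le hle]
      exact (hc d).pow 2
    exact this.intervalIntegrable
  -- pointwise
  have hpt : EA (ω L) (fun d => u d (βd d) ^ 2) ≤
      2 * EA (ω L) (fun d => u d 0 ^ 2) + 4 * h * ∫ t in (-h)..h, EA (ω L) (fun d => u' d t ^ 2) := by
    have hI : ∫ t in (-h)..h, EA (ω L) (fun d => u' d t ^ 2) =
        ∑ d ∈ range N, ω L d * ∫ t in (-h)..h, u' d t ^ 2 := by
      simp_rw [hS]
      rw [intervalIntegral.integral_finsetSum]
      · refine Finset.sum_congr rfl fun d _ => ?_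
        rw [intervalIntegral.integral_const_mul]
      · intro d _
        exact (hi d).const_mul _
    rw [hI, hS, hS]
    rw [Finset.mul_sum, Finset.mul_sum, ← Finset.sum_add_distrib]
    refine Finset.sum_le_sum fun d _ => ?_
    by_cases hz : ω L d = 0
    · rw [hz]; simp
    · have hs := sob1 hh (u d) (u' d) (hu d) (hc d) (hβ d hz)
      have := mul_le_mul_of_nonneg_left hs (hW.nn L d)
      nlinarith [this]
  have hbd : ∫ t in (-h)..h, EA (ω L) (fun d => u' d t ^ 2) ≤ 2 * h * K := by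
    have hint : IntervalIntegrable (fun t => EA (ω L) (fun d => u' d t ^ 2)) volume (-h) h := by
      simp_rw [hS]
      have h3 := IntervalIntegrable.sum (μ := volume) (a := -h) (b := h) (range N)
        (f := fun d => fun t => ω L d * u' d t ^ 2) (fun d _ => (hi d).const_mul _)
      have h4 : (fun t => ∑ d ∈ range N, ω L d * u' d t ^ 2) =
          ∑ d ∈ range N, fun t => ω L d * u' d t ^ 2 := by
        funext t
        simp [Finset.sum_apply]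
      rw [h4]
      exact h3
    have := intervalIntegral.integral_mono_on hle hint
      (intervalIntegrable_const (c := K)) (fun t ht => h1 t (abs_le.mpr ht))
    rw [intervalIntegral.integral_const, smul_eq_mul] at this
    linarith
  have := mul_le_mul_of_nonneg_left hbd (by linarith : (0 : ℝ) ≤ 4 * h)
  nlinarith [this, hpt, h0]

theorem SBEG {s' : ℝ} (hG : GE φ s' ω) (s θ : ℝ)
    (hA : AdmV s θ s') (η : ℝ → ℝ) (hη : ∃ u, Wt u η) (b : ℝ) (hb : 0 ≤ b) :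
    ∃ (C L0 : ℝ) (k : ℕ), 0 < C ∧ 0 < L0 ∧ ∀ (L : ℝ) (a a' : ℝ → ℝ → ℝ) (Q : ℝ → ℝ) (B B' : ℝ)
      (βd : ℕ → ℝ), L0 ≤ L →
      (∀ β y, |β| ≤ b / L → HasDerivAt (fun z => a z y) (a' β y) β) →
      (∀ y, ContinuousOn (fun β => a' β y) (Set.Icc (-(b / L)) (b / L))) →
      (∀ β, |β| ≤ b / L → Wt s (a β) ∧ Wt s (a' β) ∧ Bd k (a β) B ∧ Bd k (a' β) B) →
      Wt θ Q → Bd k Q B' → (∀ d : ℕ, ω L d ≠ 0 → |βd d| ≤ b / L) →
      EA (ω L) (fun d => Edg φ 2 L (a (βd d)) Q η d ^ 2) ≤ C * B ^ 2 * B' ^ 2 := by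
  obtain ⟨C, L0, k, hC, hL0, H⟩ := SUPG hG s θ hA η hη
  refine ⟨(2 + 8 * b ^ 2) * C, max L0 1, k, by positivity, lt_of_lt_of_le hL0 (le_max_left _ _),
    ?_⟩
  intro L a a' Q B B' βd hL ha hcont hW' hQ hQB hβ
  have hL0L : L0 ≤ L := le_trans (le_max_left _ _) hL
  have hL1 : 1 ≤ L := le_trans (le_max_right _ _) hL
  have hLpos : 0 < L := by linarith
  have hh : 0 ≤ b / L := by positivity
  obtain ⟨P, c, hP⟩ := Edg_fin φ (s := s) hLpos Q η hQ
  have hW := hG.toGW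
  set u : ℕ → ℝ → ℝ := fun d β => ∑ p ∈ P, c d p * a β (Real.log p.1 / L) with hu
  set u' : ℕ → ℝ → ℝ := fun d β => ∑ p ∈ P, c d p * a' β (Real.log p.1 / L) with hu'
  have h00 : |(0 : ℝ)| ≤ b / L := by simpa using hh
  have hK : ∀ w : ℝ → ℝ, Wt s w → Bd k w B →
      EA (ω L) (fun d => (∑ p ∈ P, c d p * w (Real.log p.1 / L)) ^ 2) ≤
        C * B ^ 2 * B' ^ 2 := by
    intro w hw hwB
    have := H L w Q B B' hL0L hw hQ hwB hQB
    have he : (fun d => Edg φ 2 L w Q η d ^ 2) =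
        fun d => (∑ p ∈ P, c d p * w (Real.log p.1 / L)) ^ 2 := by
      funext d
      rw [hP w hw d]
    rwa [he] at this
  have main := sob hW L hh u u'
    (fun d β hβ1 => by
      have : HasDerivAt (fun z => ∑ p ∈ P, c d p * a z (Real.log p.1 / L))
          (∑ p ∈ P, c d p * a' β (Real.log p.1 / L)) β :=
        HasDerivAt.fun_sum fun p _ => (ha β _ hβ1).const_mul _
      exact this)
    (fun d => by
      have : ContinuousOn (fun β => ∑ p ∈ P, c d p * a' β (Real.log p.1 / L))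
          (Set.Icc (-(b / L)) (b / L)) :=
        continuousOn_finsetSum P fun p _ => continuousOn_const.mul (hcont _)
      exact this)
    (hK (a 0) (hW' 0 h00).1 (hW' 0 h00).2.2.1)
    (fun β hβ1 => hK (a' β) (hW' β hβ1).2.1 (hW' β hβ1).2.2.2)
    βd hβ
  have hEq : EA (ω L) (fun d => Edg φ 2 L (a (βd d)) Q η d ^ 2) =
      EA (ω L) (fun d => u d (βd d) ^ 2) := by
    refine EA_congr L fun d hz => ?_
    rw [hP _ (hW' _ (hβ d hz)).1 d]
  rw [hEq]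
  refine main.trans ?_
  have hb2 : (b / L) ^ 2 ≤ b ^ 2 := by
    refine pow_le_pow_left₀ hh ?_ 2
    exact div_le_self hb hL1
  have hpos : 0 ≤ C * B ^ 2 * B' ^ 2 := by positivity
  nlinarith [mul_le_mul_of_nonneg_right hb2 hpos]

end

end

end Pool.Agent.N782.GA
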