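import Pool.Agent.N782.GK
import Pool.Agent.H568R3.RG_TR1G
import Pool.Agent.H423R2.RGL.TR2G

set_option autoImplicit false
set_option maxHeartbeats 4000000

/-! General averages: the tail (helper782; adapted from `RG_TR1G`, `RG_TRG`). -/

namespace Pool.Agent.N782.GA

open Finset Filter Topology MeasureTheory Pool.Agent.H306R2.RZ Pool.Agent.H306R2.RG
open Pool.Agent.H568R3.TR1Gn (fam md_le pw_id kgg_sub kw_ex1 ed_zero)
open Pool.Agent.H228R2.RGTR2 (TR2G)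
open Pool.Agent.H423R2.RZA.TR1n (fin_n Gr Gr.deriv cd_deriv idmul id_zero bd_mul bd_exists bd_mono
  bd_mono' Gr.sub sq6 exp_sq_le u123 ebd sups poly_exp ph_le q_bd cd_ex cd_ex1 cd_ph cd_ph1 gr_ex
  gr_ex1 gr_ph gr_ph1)

noncomputable section

variable {φ : FD} {ω : ℝ → ℕ → ℝ}

/-- application of `SBU` and `SBE` -/
theorem terms {s' : ℝ} (hφ : FG φ) (hG : GE φ s' ω)
    (s θ : ℝ) (hA : AdmV s θ s') (b : ℝ)
    (hb : 0 ≤ b) (η : ℝ → ℝ) (hη : ∃ u, Wt u η) : ∃ (C L0 : ℝ) (k : ℕ), 0 < C ∧ 0 < L0 ∧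
    ∀ (L x : ℝ) (Φ c Q : ℝ → ℝ) (a0 b0 M1 Kc B' : ℝ) (βd : ℕ → ℝ), L0 ≤ L → 0 ≤ x → x ≤ L / 2 →
    ContDiff ℝ ((⊤ : ℕ∞) : WithTop ℕ∞) Φ → Gr x Φ →
    ContDiff ℝ ((⊤ : ℕ∞) : WithTop ℕ∞) c → (∀ y, c y ≠ 0 → a0 ≤ y ∧ y ≤ b0) → -1 ≤ a0 → b0 ≤ s →
    0 ≤ M1 →
    (∀ β, |β| ≤ b / L → ∀ j ≤ k + 1, ∀ y, a0 ≤ y → y ≤ b0 →
      |iteratedDeriv j (KGg φ L β Φ) y| ≤ M1) → Bd k c Kc → Wt θ Q → Bd k Q B' →
    (∀ d : ℕ, ω L d ≠ 0 → |βd d| ≤ b / L) →
    EA (ω L) (fun d => (Ndg φ 2 L (fun y => KGg φ L (βd d) Φ y * c y) d * Mdg φ 2 L Q d) ^ 2) ≤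
      C * (M1 * Kc * B') ^ 2 ∧
    EA (ω L) (fun d => Edg φ 2 L (fun y => KGg φ L (βd d) Φ y * c y) Q η d ^ 2) ≤
      C * (M1 * Kc * B') ^ 2 := by
  obtain ⟨L1, hL1, h1⟩ := fam hφ b hb
  obtain ⟨C2, L2, k2, hC2, hL2, h2⟩ := SBUG hG s θ hA b hb
  obtain ⟨C3, L3, k3, hC3, hL3, h3⟩ := SBEG hG s θ hA η hη b hb
  refine ⟨(C2 + C3) * (2 ^ max k2 k3) ^ 2, max L1 (max L2 L3), max k2 k3, by positivity,
    lt_max_of_lt_left hL1, ?_⟩
  intro L x Φ c Q a0 b0 M1 Kc B' βd hL hx hxL hΦ hG hc hcs ha0 hb0 hM hbd hcb hQ hQB hβ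
  have hLa : L1 ≤ L := (le_max_left _ _).trans hL
  have hLb : L2 ≤ L := ((le_max_left _ _).trans (le_max_right _ _)).trans hL
  have hLc : L3 ≤ L := ((le_max_right _ _).trans (le_max_right _ _)).trans hL
  obtain ⟨f1, f2, f3⟩ := h1 L x Φ c a0 b0 M1 Kc s (max k2 k3) hLa hx hxL hΦ hG hc hcs ha0 hb0 hM
    hbd hcb
  have hsq : 0 ≤ (M1 * Kc * B') ^ 2 := sq_nonneg _
  constructor
  · have := h2 L (fun β y => KGg φ L β Φ y * c y) (fun β y => KGg φ L β (deriv Φ) y * c y) Q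
      (2 ^ max k2 k3 * M1 * Kc) B' βd hLb f1 f2
      (fun β hβ' => ⟨(f3 β hβ').1, (f3 β hβ').2.1, bd_mono (le_max_left _ _) (f3 β hβ').2.2.1,
        bd_mono (le_max_left _ _) (f3 β hβ').2.2.2⟩) hQ (bd_mono (le_max_left _ _) hQB) hβ
    refine this.trans ?_
    have e : C2 * (2 ^ max k2 k3 * M1 * Kc) ^ 2 * B' ^ 2 =
      C2 * (2 ^ max k2 k3) ^ 2 * (M1 * Kc * B') ^ 2 := by ring
    rw [e]
    apply mul_le_mul_of_nonneg_right _ hsq
    apply mul_le_mul_of_nonneg_right _ (by positivity)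
    linarith
  · have := h3 L (fun β y => KGg φ L β Φ y * c y) (fun β y => KGg φ L β (deriv Φ) y * c y) Q
      (2 ^ max k2 k3 * M1 * Kc) B' βd hLc f1 f2
      (fun β hβ' => ⟨(f3 β hβ').1, (f3 β hβ').2.1, bd_mono (le_max_right _ _) (f3 β hβ').2.2.1,
        bd_mono (le_max_right _ _) (f3 β hβ').2.2.2⟩) hQ (bd_mono (le_max_right _ _) hQB) hβ
    refine this.trans ?_
    have e : C3 * (2 ^ max k2 k3 * M1 * Kc) ^ 2 * B' ^ 2 =
      C3 * (2 ^ max k2 k3) ^ 2 * (M1 * Kc * B') ^ 2 := by ring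
    rw [e]
    apply mul_le_mul_of_nonneg_right _ hsq
    apply mul_le_mul_of_nonneg_right _ (by positivity)
    linarith

theorem core {s' : ℝ} (hφ : FG φ) (hG : GE φ s' ω)
    (δ e θ : ℝ) (hδ : 0 < δ)
    (he : 0 < e) (he1 : e ≤ θ / 100) (hA : AdmV (1 / 2 + 3 * δ) θ s')
    (r κ : ℝ → ℝ) (hr : ST (θ / 4) θ r) (hκ : KP δ e κ) (b : ℝ) (hb : 0 ≤ b)
    (hbe : ∃ L0 : ℝ, ∀ L : ℝ, L0 ≤ L → ∀ d : ℕ, ω L d ≠ 0 → |beg φ L d| ≤ b / L)
    (p : ℝ → ℝ) (hp : ST (θ / 32) (θ / 16) p) (η : ℝ → ℝ) (hη : ∃ u, Wt u η)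
    (hη1 : ∀ u, 0 ≤ u → u ≤ θ / 8 → η u = 1) :
    ∃ (C L0 : ℝ) (k : ℕ), 0 < C ∧ ∀ (L x : ℝ) (Φ Ψ q : ℝ → ℝ) (M M' : ℝ), L0 ≤ L → 1 ≤ x →
      x ≤ L / 2 → 0 ≤ M → 0 ≤ M' → ContDiff ℝ ((⊤ : ℕ∞) : WithTop ℕ∞) Φ →
      ContDiff ℝ ((⊤ : ℕ∞) : WithTop ℕ∞) Ψ → Gr x Φ → Gr x Ψ →
      (∀ τ, τ ≤ -δ → Ψ τ = 0) → (∀ τ, |Ψ τ| ≤ M * Real.exp (L * |τ|)) →
      (∀ β, |β| ≤ b / L → ∀ j ≤ k + 1, ∀ y, |iteratedDeriv j (KGg φ L β Φ) y| ≤
        M * (1 + |y|) * Real.exp (-(x * y))) →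
      (∀ β, |β| ≤ b / L → ∀ j ≤ k + 1, ∀ y, |iteratedDeriv j (KGg φ L β (fun τ => Φ τ - Ψ τ)) y| ≤
        M * (1 + |y|) * Real.exp (-(x / 4))) →
      ContDiff ℝ ((⊤ : ℕ∞) : WithTop ℕ∞) q →
      (∀ j ≤ k, ∀ t, -1 ≤ t → t ≤ 1 → |iteratedDeriv j q t| ≤ M' * Real.exp (-(x * t))) →
      EA (ω L) (fun d => (Edg φ 2 L (fun y => KGg φ L (beg φ L d) Φ y * κ y)
        (fun t => q t * r t * κ t) η d - Nfg φ L (KGg φ L (beg φ L d) Ψ) d *
          Mdg φ 2 L (fun t => q t * r t * κ t) d) ^ 2) ≤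
        C * M ^ 2 * M' ^ 2 * Real.exp (-(θ / 50 * x)) := by
  have hθ := hA.hθ
  have hθ1 := hA.hθ1
  have hs1 := hA.hs1
  obtain ⟨C1, L1, k, hC1, hL1, ht⟩ := terms hφ hG (1 / 2 + 3 * δ) θ hA b hb η hη
  obtain ⟨C2, L2, hC2, hL2, hKB⟩ := Pool.Agent.H831R3.RGKBG.KBG φ hφ 0 b hb
  obtain ⟨C3, L3, hC3, hT⟩ := Pool.Agent.H115R6.RGTRUG.TRUG φ hφ δ e b 3 hδ he hb κ hκ
  obtain ⟨L4, hL4⟩ := hbe
  obtain ⟨C5, L5, hC5, hL5⟩ := hG.one
  have hW := hG.toGW
  -- the cutoffs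
  have cκ := hκ.smooth
  have cp := hp.smooth
  have cr := hr.smooth
  obtain ⟨s0, s1, s2, s3, s4⟩ := sups hr hκ hp
  have d0 : ContDiff ℝ ((⊤ : ℕ∞) : WithTop ℕ∞) (fun y => κ y * p y) := cκ.mul cp
  have d1 : ContDiff ℝ ((⊤ : ℕ∞) : WithTop ℕ∞) (fun y => κ y * (1 - p y)) :=
    cκ.mul (contDiff_const.sub cp)
  have d2 : ContDiff ℝ ((⊤ : ℕ∞) : WithTop ℕ∞) (fun y => r y * κ y) := cr.mul cκ
  have d3 : ContDiff ℝ ((⊤ : ℕ∞) : WithTop ℕ∞) (fun y => r y * κ y * p y) := d2.mul cp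
  have d4 : ContDiff ℝ ((⊤ : ℕ∞) : WithTop ℕ∞) (fun y => r y * κ y * (1 - p y)) :=
    d2.mul (contDiff_const.sub cp)
  obtain ⟨B0, hB0, hb0⟩ := bd_exists d0 s0 k
  obtain ⟨B1, hB1, hb1⟩ := bd_exists d1 s1 k
  obtain ⟨B2, hB2, hb2⟩ := bd_exists d2 s2 k
  obtain ⟨B3, hB3, hb3⟩ := bd_exists d3 s3 k
  obtain ⟨B4, hB4, hb4⟩ := bd_exists d4 s4 k
  set K := B0 + B1 + B2 + B3 + B4 + 1 with hK
  have hK0 : 0 < K := by positivity
  have hbk0 : Bd k (fun y => κ y * p y) K := bd_mono' hb0 (by linarith)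
  have hbk1 : Bd k (fun y => κ y * (1 - p y)) K := bd_mono' hb1 (by linarith)
  have hbk2 : Bd k (fun y => r y * κ y) K := bd_mono' hb2 (by linarith)
  have hbk3 : Bd k (fun y => r y * κ y * p y) K := bd_mono' hb3 (by linarith)
  have hbk4 : Bd k (fun y => r y * κ y * (1 - p y)) K := bd_mono' hb4 (by linarith)
  refine ⟨6 * (5 * (C1 * (4 * 2 ^ k * K ^ 2) ^ 2) + C5 * (C3 * 2 * 2 ^ k * K) ^ 2),
    max 1 (max L1 (max L2 (max L3 (max L4 L5)))), k, by positivity, ?_⟩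
  intro L x Φ Ψ q M M' hL hx hxL hM hM' cΦ cΨ gΦ gΨ zΨ bΨ bΦ bΔ cq bq
  have hLo : 1 ≤ L := (le_max_left _ _).trans hL
  have hLL := (le_max_right _ _).trans hL
  have hLa : L1 ≤ L := (le_max_left _ _).trans hLL
  have hLL2 := (le_max_right _ _).trans hLL
  have hLb : L2 ≤ L := (le_max_left _ _).trans hLL2
  have hLL3 := (le_max_right _ _).trans hLL2
  have hLc : L3 ≤ L := (le_max_left _ _).trans hLL3
  have hLL4 := (le_max_right _ _).trans hLL3
  have hLd : L4 ≤ L := (le_max_left _ _).trans hLL4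
  have hLe : L5 ≤ L := (le_max_right _ _).trans hLL4
  have hL0 : 0 < L := by linarith
  have hx0 : 0 ≤ x := by linarith
  have hX : 0 < Real.exp L := Real.exp_pos L
  -- growth constants
  obtain ⟨A1, hA1⟩ := gΦ 0
  obtain ⟨A2, hA2⟩ := gΨ 0
  simp only [iteratedDeriv_zero] at hA1 hA2
  have hsub : ∀ β y, KGg φ L β (fun τ => Φ τ - Ψ τ) y = KGg φ L β Φ y - KGg φ L β Ψ y := fun β y =>
    kgg_sub hφ cΦ.continuous cΨ.continuous hA1 hA2 hx0 hxL hLo y
  have gΔ : Gr x (fun τ => Φ τ - Ψ τ) := gΦ.sub gΨ cΦ cΨ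
  have cΔ : ContDiff ℝ ((⊤ : ℕ∞) : WithTop ℕ∞) (fun τ => Φ τ - Ψ τ) := cΦ.sub cΨ
  -- exponential bounds
  obtain ⟨u1, u2, u3⟩ := u123 hx0 hθ hθ1 he1 hxL hL0
  have hxθ : x * θ ≤ x * (1 / 2) := mul_le_mul_of_nonneg_left hθ1.le hx0
  have hxθ0 : 0 ≤ x * θ := by positivity
  have hxe0 : 0 ≤ x * e := by positivity
  have E0 : ∀ y, -e ≤ y → y ≤ θ / 16 → M * (1 + |y|) * Real.exp (-(x * y)) ≤
      2 * M * Real.exp (x * e) := fun y h1 h2 =>
    ebd hM hx0 h1 h2 (by linarith) (by linarith) (by linarith)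
  have E1 : ∀ y, θ / 32 ≤ y → y ≤ 1 / 2 + 3 * δ → M * (1 + |y|) * Real.exp (-(x * y)) ≤
      2 * M * Real.exp (-(x * (θ / 32))) := fun y h1 h2 =>
    ebd hM hx0 h1 h2 (by linarith) (by linarith) le_rfl
  have E2 : ∀ y, -1 ≤ y → y ≤ 1 → M * (1 + |y|) * Real.exp (-(x / 4)) ≤
      2 * M * Real.exp (-(x / 4)) := by
    intro y h1 h2
    have h3 : |y| ≤ 1 := abs_le.2 ⟨h1, h2⟩
    apply mul_le_mul_of_nonneg_right _ (Real.exp_pos _).le
    rw [mul_comm 2 M]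
    exact mul_le_mul_of_nonneg_left (by linarith) hM
  have e1 : Real.exp (-(x / 4)) ≤ Real.exp (x * e) := Real.exp_le_exp.2 (by linarith)
  have e2 : Real.exp (-(x / 4)) ≤ Real.exp (-(x * (θ / 32))) := Real.exp_le_exp.2 (by linarith)
  -- bounds for `Ψ`
  have bU : ∀ β, |β| ≤ b / L → ∀ j ≤ k + 1, ∀ y, |iteratedDeriv j (KGg φ L β Ψ) y| ≤
      M * (1 + |y|) * Real.exp (-(x * y)) + M * (1 + |y|) * Real.exp (-(x / 4)) := by
    intro β hβ j hj y
    have f1 : KGg φ L β Ψ = fun y => KGg φ L β Φ y - KGg φ L β (fun τ => Φ τ - Ψ τ) y := by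
      funext z; rw [hsub]; ring
    have f2 := (hKB L β x Φ hLb hβ hx0 hxL cΦ gΦ).1
    have f3 := (hKB L β x (fun τ => Φ τ - Ψ τ) hLb hβ hx0 hxL cΔ gΔ).1
    have f4 : iteratedDeriv j (KGg φ L β Ψ) y = iteratedDeriv j (KGg φ L β Φ) y -
        iteratedDeriv j (KGg φ L β (fun τ => Φ τ - Ψ τ)) y := by
      rw [f1]
      exact iteratedDeriv_fun_sub (f2.contDiffAt.of_le (by exact_mod_cast le_top))
        (f3.contDiffAt.of_le (by exact_mod_cast le_top))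
    rw [f4]
    exact (abs_sub _ _).trans (add_le_add (bΦ β hβ j hj y) (bΔ β hβ j hj y))
  -- mollifier weights
  have hQ : Wt θ (fun t => q t * r t * κ t) := by
    refine ⟨(cq.mul cr).mul cκ, fun y hy => ?_⟩
    have : r y * κ y ≠ 0 := by
      intro h; apply hy; rw [mul_assoc, h, mul_zero]
    have := s2 y this
    constructor <;> linarith
  have hQ0 : Wt θ (fun t => q t * (r t * κ t * p t)) := by
    refine ⟨cq.mul d3, fun y hy => ?_⟩
    have := s3 y (right_ne_zero_of_mul hy)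
    constructor <;> linarith
  have hQ1 : Wt θ (fun t => q t * (r t * κ t * (1 - p t))) := by
    refine ⟨cq.mul d4, fun y hy => ?_⟩
    have := s4 y (right_ne_zero_of_mul hy)
    constructor <;> linarith
  have mx0 : ∀ t, -e ≤ t → -(x * t) ≤ x * e := fun t h => by
    have := mul_le_mul_of_nonneg_left h hx0
    linarith
  have mx1 : ∀ t, θ / 32 ≤ t → -(x * t) ≤ -(x * (θ / 32)) := fun t h => by
    have := mul_le_mul_of_nonneg_left h hx0
    linarith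
  have mQ : Bd k (fun t => q t * r t * κ t) (2 ^ k * (M' * Real.exp (x * e)) * K) := by
    have h1 : (fun t => q t * r t * κ t) = fun t => q t * (r t * κ t) := by
      funext t; ring
    rw [h1]
    refine bd_mul cq d2 s2 (by positivity) (fun j hj t h2 h3 => ?_) hbk2
    refine (bq j hj t (by linarith) (by linarith)).trans ?_
    exact mul_le_mul_of_nonneg_left (Real.exp_le_exp.2 (mx0 t h2)) hM'
  have mQ0 : Bd k (fun t => q t * (r t * κ t * p t)) (2 ^ k * (M' * Real.exp (x * e)) * K) := by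
    refine bd_mul cq d3 s3 (by positivity) (fun j hj t h2 h3 => ?_) hbk3
    refine (bq j hj t (by linarith) (by linarith)).trans ?_
    exact mul_le_mul_of_nonneg_left (Real.exp_le_exp.2 (mx0 t h2)) hM'
  have mQ1 : Bd k (fun t => q t * (r t * κ t * (1 - p t)))
      (2 ^ k * (M' * Real.exp (-(x * (θ / 32)))) * K) := by
    refine bd_mul cq d4 s4 (by positivity) (fun j hj t h2 h3 => ?_) hbk4
    refine (bq j hj t (by linarith) (by linarith)).trans ?_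
    exact mul_le_mul_of_nonneg_left (Real.exp_le_exp.2 (mx1 t h2)) hM'
  -- the five terms
  have hβd := hL4 L hLd
  have t1 := (ht L x (fun τ => Φ τ - Ψ τ) (fun y => κ y * p y) (fun t => q t * (r t * κ t * p t))
    (-e) (θ / 16) (2 * M * Real.exp (-(x / 4))) K (2 ^ k * (M' * Real.exp (x * e)) * K)
    (beg φ L) hLa hx0 hxL cΔ gΔ d0 s0 (by linarith) (by linarith) (by positivity)
    (fun β hβ j hj y h1 h2 => (bΔ β hβ j hj y).trans (E2 y (by linarith) (by linarith)))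
    hbk0 hQ0 mQ0 hβd).1
  have t2 := (ht L x Φ (fun y => κ y * p y) (fun t => q t * (r t * κ t * (1 - p t)))
    (-e) (θ / 16) (2 * M * Real.exp (x * e)) K (2 ^ k * (M' * Real.exp (-(x * (θ / 32)))) * K)
    (beg φ L) hLa hx0 hxL cΦ gΦ d0 s0 (by linarith) (by linarith) (by positivity)
    (fun β hβ j hj y h1 h2 => (bΦ β hβ j hj y).trans (E0 y h1 h2))
    hbk0 hQ1 mQ1 hβd).2
  have t3 := (ht L x Φ (fun y => κ y * (1 - p y)) (fun t => q t * r t * κ t)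
    (θ / 32) (1 / 2 + 3 * δ) (2 * M * Real.exp (-(x * (θ / 32)))) K
    (2 ^ k * (M' * Real.exp (x * e)) * K)
    (beg φ L) hLa hx0 hxL cΦ gΦ d1 s1 (by linarith) (by linarith) (by positivity)
    (fun β hβ j hj y h1 h2 => (bΦ β hβ j hj y).trans (E1 y h1 h2))
    hbk1 hQ mQ hβd).2
  have t4 := (ht L x Ψ (fun y => κ y * p y) (fun t => q t * (r t * κ t * (1 - p t)))
    (-e) (θ / 16) (4 * M * Real.exp (x * e)) K (2 ^ k * (M' * Real.exp (-(x * (θ / 32)))) * K)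
    (beg φ L) hLa hx0 hxL cΨ gΨ d0 s0 (by linarith) (by linarith) (by positivity)
    (fun β hβ j hj y h1 h2 => (bU β hβ j hj y).trans (by
      have a1 := E0 y h1 h2
      have a2 := E2 y (by linarith) (by linarith)
      have a3 : 2 * M * Real.exp (-(x / 4)) ≤ 2 * M * Real.exp (x * e) :=
        mul_le_mul_of_nonneg_left e1 (by positivity)
      linarith))
    hbk0 hQ1 mQ1 hβd).1
  have t5 := (ht L x Ψ (fun y => κ y * (1 - p y)) (fun t => q t * r t * κ t)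
    (θ / 32) (1 / 2 + 3 * δ) (4 * M * Real.exp (-(x * (θ / 32)))) K
    (2 ^ k * (M' * Real.exp (x * e)) * K)
    (beg φ L) hLa hx0 hxL cΨ gΨ d1 s1 (by linarith) (by linarith) (by positivity)
    (fun β hβ j hj y h1 h2 => (bU β hβ j hj y).trans (by
      have a1 := E1 y h1 h2
      have a2 := E2 y (by linarith) (by linarith)
      have a3 : 2 * M * Real.exp (-(x / 4)) ≤ 2 * M * Real.exp (-(x * (θ / 32))) :=
        mul_le_mul_of_nonneg_left e2 (by positivity)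
      linarith))
    hbk1 hQ mQ hβd).1
  -- common form of the bounds
  set W0 := C1 * (4 * 2 ^ k * K ^ 2) ^ 2 * (M ^ 2 * M' ^ 2 * Real.exp (-(θ / 50 * x))) with hW0
  have fin : ∀ A u : ℝ, |A| ≤ 4 * 2 ^ k * K ^ 2 * M * M' → 2 * u ≤ -(θ / 50 * x) →
      C1 * (A * Real.exp u) ^ 2 ≤ W0 := by
    intro A u h1 h2
    have := exp_sq_le h1 h2
    calc C1 * (A * Real.exp u) ^ 2 ≤ C1 * ((4 * 2 ^ k * K ^ 2 * M * M') ^ 2 *
          Real.exp (-(θ / 50 * x))) := mul_le_mul_of_nonneg_left this hC1.le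
      _ = W0 := by rw [hW0]; ring
  have kk : 0 ≤ 2 ^ k * K ^ 2 * M * M' := by positivity
  have kk2 : |2 * 2 ^ k * K ^ 2 * M * M'| ≤ 4 * 2 ^ k * K ^ 2 * M * M' := by
    rw [abs_of_nonneg (by positivity)]; linarith
  have kk4 : |4 * 2 ^ k * K ^ 2 * M * M'| ≤ 4 * 2 ^ k * K ^ 2 * M * M' := by
    rw [abs_of_nonneg (by positivity)]
  have g1 : 2 * M * Real.exp (-(x / 4)) * K * (2 ^ k * (M' * Real.exp (x * e)) * K) =
        (2 * 2 ^ k * K ^ 2 * M * M') * Real.exp (-(x / 4) + x * e) := by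
      rw [Real.exp_add]; ring
  have g2 : 2 * M * Real.exp (x * e) * K * (2 ^ k * (M' * Real.exp (-(x * (θ / 32)))) * K) =
        (2 * 2 ^ k * K ^ 2 * M * M') * Real.exp (x * e + -(x * (θ / 32))) := by
      rw [Real.exp_add]; ring
  have g3 : 2 * M * Real.exp (-(x * (θ / 32))) * K * (2 ^ k * (M' * Real.exp (x * e)) * K) =
        (2 * 2 ^ k * K ^ 2 * M * M') * Real.exp (x * e + -(x * (θ / 32))) := by
      rw [Real.exp_add]; ring
  have g4 : 4 * M * Real.exp (x * e) * K * (2 ^ k * (M' * Real.exp (-(x * (θ / 32)))) * K) =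
        (4 * 2 ^ k * K ^ 2 * M * M') * Real.exp (x * e + -(x * (θ / 32))) := by
      rw [Real.exp_add]; ring
  have g5 : 4 * M * Real.exp (-(x * (θ / 32))) * K * (2 ^ k * (M' * Real.exp (x * e)) * K) =
        (4 * 2 ^ k * K ^ 2 * M * M') * Real.exp (x * e + -(x * (θ / 32))) := by
      rw [Real.exp_add]; ring
  rw [g1] at t1
  rw [g2] at t2
  rw [g3] at t3
  rw [g4] at t4
  rw [g5] at t5
  have w1 := t1.trans (fin _ _ kk2 u1)
  have w2 := t2.trans (fin _ _ kk2 u2)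
  have w3 := t3.trans (fin _ _ kk2 u2)
  have w4 := t4.trans (fin _ _ kk4 u2)
  have w5 := t5.trans (fin _ _ kk4 u2)
  -- truncation
  have w6 : EA (ω L) (fun d => ((Nfg φ L (KGg φ L (beg φ L d) Ψ) d -
      Ndg φ 2 L (fun y => KGg φ L (beg φ L d) Ψ y * κ y) d) * Mdg φ 2 L (fun t => q t * r t * κ t) d) ^ 2) ≤
      C5 * (C3 * 2 * 2 ^ k * K) ^ 2 * (M ^ 2 * M' ^ 2 * Real.exp (-(θ / 50 * x))) := by
    have h1 : EA (ω L) (fun d => ((Nfg φ L (KGg φ L (beg φ L d) Ψ) d -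
      Ndg φ 2 L (fun y => KGg φ L (beg φ L d) Ψ y * κ y) d) * Mdg φ 2 L (fun t => q t * r t * κ t) d) ^ 2) ≤
      EA (ω L) (fun _ => ((C3 * 2 * 2 ^ k * K) ^ 2 *
        (M ^ 2 * M' ^ 2 * Real.exp (-(θ / 50 * x)))) * 1) := by
      refine EA_mono hW L ?_
      intro d hFd
      have a1 := hT L (beg φ L d) M Ψ d hLc (hβd d hFd) cΨ.continuous.measurable zΨ bΨ
      have a2 := md_le (φ := φ) hL0 (fun y hy => (hQ.supp y hy).2) (fun y => by
        have := mQ 0 (Nat.zero_le _) y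
        simpa using this) 2 d
      have a3 : |(Nfg φ L (KGg φ L (beg φ L d) Ψ) d - Ndg φ 2 L (fun y => KGg φ L (beg φ L d) Ψ y * κ y) d) *
          Mdg φ 2 L (fun t => q t * r t * κ t) d| ≤ (C3 * 2 * 2 ^ k * K * M * M') *
            Real.exp (-(3 * L) + θ * L + x * e) := by
        rw [abs_mul]
        have a4 : Real.exp (θ * L) + 1 ≤ 2 * Real.exp (θ * L) := by
          have : 1 ≤ Real.exp (θ * L) := Real.one_le_exp (by positivity)
          linarith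
        calc _ ≤ C3 * M * Real.exp (-(3 * L)) * ((Real.exp (θ * L) + 1) *
              (2 ^ k * (M' * Real.exp (x * e)) * K)) :=
              mul_le_mul a1 a2 (abs_nonneg _) (by positivity)
          _ ≤ C3 * M * Real.exp (-(3 * L)) * ((2 * Real.exp (θ * L)) *
              (2 ^ k * (M' * Real.exp (x * e)) * K)) := by
              apply mul_le_mul_of_nonneg_left _ (by positivity)
              exact mul_le_mul_of_nonneg_right a4 (by positivity)
          _ = _ := by rw [Real.exp_add, Real.exp_add]; ring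
      rw [mul_one]
      rw [← sq_abs]
      have a5 : |(Nfg φ L (KGg φ L (beg φ L d) Ψ) d - Ndg φ 2 L (fun y => KGg φ L (beg φ L d) Ψ y * κ y) d) *
          Mdg φ 2 L (fun t => q t * r t * κ t) d| ^ 2 ≤ ((C3 * 2 * 2 ^ k * K * M * M') *
            Real.exp (-(3 * L) + θ * L + x * e)) ^ 2 :=
        pow_le_pow_left₀ (abs_nonneg _) a3 2
      refine a5.trans ?_
      have a6 := exp_sq_le (A := C3 * 2 * 2 ^ k * K * M * M') (B := C3 * 2 * 2 ^ k * K * M * M')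
        (u := -(3 * L) + θ * L + x * e) (w := -(θ / 50 * x))
        (by rw [abs_of_nonneg (by positivity)]) u3
      refine a6.trans (le_of_eq ?_)
      ring
    refine h1.trans ?_
    rw [EA_smul]
    have h2 := hL5 L hLe
    calc (C3 * 2 * 2 ^ k * K) ^ 2 * (M ^ 2 * M' ^ 2 * Real.exp (-(θ / 50 * x))) *
          EA (ω L) (fun _ => 1) ≤
          (C3 * 2 * 2 ^ k * K) ^ 2 * (M ^ 2 * M' ^ 2 * Real.exp (-(θ / 50 * x))) * C5 :=
          mul_le_mul_of_nonneg_left h2 (by positivity)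
      _ = _ := by ring
  -- pointwise identity
  have pw := fun d : ℕ => pw_id (φ := φ) hL0 hκ hp hr (by linarith) (by linarith) hη1
    (V := KGg φ L (beg φ L d) Φ) (U := KGg φ L (beg φ L d) Ψ) (Δ := KGg φ L (beg φ L d) (fun τ => Φ τ - Ψ τ))
    (fun y => hsub (beg φ L d) y) q (Nfg φ L (KGg φ L (beg φ L d) Ψ) d) d
  -- conclusion
  have main : EA (ω L) (fun d => (Edg φ 2 L (fun y => KGg φ L (beg φ L d) Φ y * κ y)
        (fun t => q t * r t * κ t) η d - Nfg φ L (KGg φ L (beg φ L d) Ψ) d *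
          Mdg φ 2 L (fun t => q t * r t * κ t) d) ^ 2) ≤ 6 *
      (EA (ω L) (fun d => (Ndg φ 2 L (fun y => KGg φ L (beg φ L d) (fun τ => Φ τ - Ψ τ) y *
          (κ y * p y)) d * Mdg φ 2 L (fun t => q t * (r t * κ t * p t)) d) ^ 2) +
      EA (ω L) (fun d => (Edg φ 2 L (fun y => KGg φ L (beg φ L d) Φ y * (κ y * p y))
        (fun t => q t * (r t * κ t * (1 - p t))) η d) ^ 2) +
      EA (ω L) (fun d => (Edg φ 2 L (fun y => KGg φ L (beg φ L d) Φ y * (κ y * (1 - p y)))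
        (fun t => q t * r t * κ t) η d) ^ 2) +
      EA (ω L) (fun d => (Ndg φ 2 L (fun y => KGg φ L (beg φ L d) Ψ y * (κ y * p y)) d *
        Mdg φ 2 L (fun t => q t * (r t * κ t * (1 - p t))) d) ^ 2) +
      EA (ω L) (fun d => (Ndg φ 2 L (fun y => KGg φ L (beg φ L d) Ψ y * (κ y * (1 - p y))) d *
        Mdg φ 2 L (fun t => q t * r t * κ t) d) ^ 2) +
      EA (ω L) (fun d => ((Nfg φ L (KGg φ L (beg φ L d) Ψ) d -
        Ndg φ 2 L (fun y => KGg φ L (beg φ L d) Ψ y * κ y) d) *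
        Mdg φ 2 L (fun t => q t * r t * κ t) d) ^ 2)) := by
    rw [← EA_add hW L, ← EA_add hW L, ← EA_add hW L, ← EA_add hW L, ← EA_add hW L, ← EA_smul]
    refine EA_mono hW L ?_
    intro d _
    rw [pw d]
    exact sq6 _ _ _ _ _ _
  refine main.trans ?_
  have fin2 : 6 * (W0 + W0 + W0 + W0 + W0 + C5 * (C3 * 2 * 2 ^ k * K) ^ 2 *
      (M ^ 2 * M' ^ 2 * Real.exp (-(θ / 50 * x)))) =
      6 * (5 * (C1 * (4 * 2 ^ k * K ^ 2) ^ 2) + C5 * (C3 * 2 * 2 ^ k * K) ^ 2) * M ^ 2 * M' ^ 2 *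
        Real.exp (-(θ / 50 * x)) := by
    rw [hW0]; ring
  rw [← fin2]
  apply mul_le_mul_of_nonneg_left _ (by norm_num)
  linarith

/-- `TR1G` -/
theorem TR1G {s' : ℝ} (hφ : FG φ) (hG : GE φ s' ω) (δ e θ : ℝ) (hδ : 0 < δ)
    (hδ1 : δ ≤ 1 / 64) (he : 0 < e) (he1 : e ≤ θ / 100) (hA : AdmV (1 / 2 + 3 * δ) θ s')
    (ρ r κ : ℝ → ℝ) (hρ : RH δ ρ) (hr : ST (θ / 4) θ r) (hκ : KP δ e κ) :
    ∃ C c0 L0 : ℝ, 0 < C ∧ 0 < c0 ∧ ∀ L : ℝ, L0 ≤ L → ∀ x : ℝ, 1 ≤ x → x ≤ L / 2 →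
      EA (ω L) (fun d => Gug φ L ρ r κ d x ^ 2) ≤ C * Real.exp (-(c0 * x)) ∧
      EA (ω L) (fun d => Gu1g φ L ρ r κ d x ^ 2) ≤ C * Real.exp (-(c0 * x)) := by
  have hAω : ∀ L d, ω L d ≠ 0 → φ.A d := by
    obtain ⟨R, -, hs⟩ := hG.supp
    exact fun L d hd => (hs L d hd).1
  have hθ := hA.hθ
  have hθ1 := hA.hθ1
  obtain ⟨_, _, hW0⟩ := Pool.Agent.H692R2.RZ2W0.W0
  obtain ⟨p, hp⟩ := hW0 (θ / 32) (θ / 16) (by linarith)
  obtain ⟨χ, hχ⟩ := hW0 (θ / 8) (θ / 4) (by linarith)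
  obtain ⟨ζ, hζ⟩ := hW0 (-1) (-(1 / 2)) (by norm_num)
  set η : ℝ → ℝ := fun u => χ u * (1 - ζ u) with hηdef
  have hη : ∃ u, Wt u η := by
    refine ⟨θ / 4, hχ.smooth.mul (contDiff_const.sub hζ.smooth), fun y hy => ⟨?_, ?_⟩⟩
    · by_contra h
      exact right_ne_zero_of_mul hy (by rw [hζ.one y (by linarith)]; ring)
    · by_contra h
      exact left_ne_zero_of_mul hy (hχ.zero y (by linarith))
  have hη1 : ∀ u, 0 ≤ u → u ≤ θ / 8 → η u = 1 := by
    intro u h1 h2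
    simp only [hηdef]
    rw [hχ.one u h2, hζ.zero u (by linarith)]
    norm_num
  have hη2 : ∀ u, θ / 4 ≤ u → η u = 0 := by
    intro u h1
    simp only [hηdef]
    rw [hχ.zero u h1, zero_mul]
  obtain ⟨_, _, b, L1, _, hb, hC8⟩ := C8 hφ hG.toGW
  have hbe : ∃ L0 : ℝ, ∀ L : ℝ, L0 ≤ L → ∀ d : ℕ, ω L d ≠ 0 →
      |beg φ L d| ≤ b / L := ⟨L1, fun L hL d hd => (hC8 L hL d hd).1⟩
  obtain ⟨C1, L2, k, hC1, hcore⟩ := core hφ hG δ e θ hδ he he1 hA r κ hr hκ b hb.le hbe p hp η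
    hη hη1
  obtain ⟨C2, L3, hC2, hL3, hTRw⟩ := Pool.Agent.H697R2.RGTRwG.TRwG_of φ
    (fun k b hb => Pool.Agent.H831R3.RGKBG.KBG φ hφ k b hb) δ b hδ (by linarith) hb.le ρ hρ (k + 1)
  obtain ⟨C3, hC3, hpe⟩ := poly_exp (4 * k + 2) (c := θ / 100) (by positivity)
  have hW := hG.toGW
  set A := C1 * (C2 + 3) ^ 2 * (2 ^ k * 4) ^ 2 * C3 with hAdef
  have hA0 : 0 < A := by positivity
  refine ⟨4 * A, θ / 100, max 4 (max L2 L3), by positivity, by positivity, ?_⟩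
  intro L hL x hx hxL
  have hL4 : 4 ≤ L := (le_max_left _ _).trans hL
  have hLL := (le_max_right _ _).trans hL
  have hLa : L2 ≤ L := (le_max_left _ _).trans hLL
  have hLb : L3 ≤ L := (le_max_right _ _).trans hLL
  have hL0 : 0 < L := by linarith
  have hx0 : 0 ≤ x := by linarith
  have hX : 0 < Real.exp L := Real.exp_pos L
  have hpow : (1 : ℝ) ≤ (1 + x) ^ (k + 1) := one_le_pow₀ (by linarith)
  set M := (C2 + 3) * (1 + x) ^ (k + 1) with hM
  set M' := 2 ^ k * 4 * (1 + x) ^ k with hM'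
  have hM0 : 0 ≤ M := by positivity
  have hM0' : 0 ≤ M' := by positivity
  have hM3 : 3 ≤ M := by
    rw [hM]; nlinarith
  have hMC : C2 * (1 + x) ^ (k + 1) ≤ M := by
    rw [hM]; nlinarith
  -- the bound for the final constant
  have fin : C1 * M ^ 2 * M' ^ 2 * Real.exp (-(θ / 50 * x)) ≤ A * Real.exp (-(θ / 100 * x)) := by
    have h1 := hpe x hx0
    have h2 : -(2 * (θ / 100) * x) = -(θ / 50 * x) := by ring
    rw [h2] at h1
    have h3 : C1 * M ^ 2 * M' ^ 2 * Real.exp (-(θ / 50 * x)) =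
        C1 * (C2 + 3) ^ 2 * (2 ^ k * 4) ^ 2 * ((1 + x) ^ (4 * k + 2) *
          Real.exp (-(θ / 50 * x))) := by
      rw [hM, hM']
      ring
    rw [h3, hAdef]
    have := mul_le_mul_of_nonneg_left h1 (show 0 ≤ C1 * (C2 + 3) ^ 2 * (2 ^ k * 4) ^ 2 by positivity)
    linarith
  have lift : ∀ {a y u : ℝ}, 0 ≤ u → a ≤ C2 * (1 + x) ^ (k + 1) * (1 + |y|) * u →
      a ≤ M * (1 + |y|) * u := by
    intro a y u hu h
    refine h.trans ?_
    apply mul_le_mul_of_nonneg_right _ hu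
    exact mul_le_mul_of_nonneg_right hMC (by positivity)
  have Pb : ∀ τ, |Ph ρ x τ| ≤ M * Real.exp (L * |τ|) := fun τ =>
    (ph_le hρ hx0 hxL hL4 τ).1.trans (mul_le_mul_of_nonneg_right hM3 (Real.exp_pos _).le)
  have Pb1 : ∀ τ, |Ph1 ρ x τ| ≤ M * Real.exp (L * |τ|) := fun τ =>
    (ph_le hρ hx0 hxL hL4 τ).2.trans (mul_le_mul_of_nonneg_right hM3 (Real.exp_pos _).le)
  have Pz : ∀ τ, τ ≤ -δ → Ph ρ x τ = 0 := fun τ h => by
    unfold Ph; rw [hρ.zero τ h, mul_zero]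
  have Pz1 : ∀ τ, τ ≤ -δ → Ph1 ρ x τ = 0 := fun τ h => by
    unfold Ph1; rw [hρ.zero τ h, mul_zero]
  have cq0 : ContDiff ℝ ((⊤ : ℕ∞) : WithTop ℕ∞) (fun t : ℝ => Real.exp (-(x * t))) := by fun_prop
  have cq1 : ContDiff ℝ ((⊤ : ℕ∞) : WithTop ℕ∞) (fun t : ℝ => -t * Real.exp (-(x * t))) := by
    fun_prop
  obtain ⟨qb0, qb1⟩ := q_bd hx0 k
  -- the three differences
  have D0 := hcore L x (Ex x) (Ph ρ x) (fun t => Real.exp (-(x * t))) M M' hLa hx hxL hM0 hM0'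
    (cd_ex x) (cd_ph hρ x) gr_ex (gr_ph hδ hρ hx0) Pz Pb
    (fun β hβ j hj y => lift (Real.exp_pos _).le (hTRw L β x hLb hβ hx hxL j y hj).1)
    (fun β hβ j hj y => lift (Real.exp_pos _).le (hTRw L β x hLb hβ hx hxL j y hj).2.2.1)
    cq0 qb0
  have D1 := hcore L x (Ex1 x) (Ph1 ρ x) (fun t => Real.exp (-(x * t))) M M' hLa hx hxL hM0 hM0'
    (cd_ex1 x) (cd_ph1 hρ x) gr_ex1 (gr_ph1 hδ hρ hx0) Pz1 Pb1
    (fun β hβ j hj y => lift (Real.exp_pos _).le (hTRw L β x hLb hβ hx hxL j y hj).2.1)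
    (fun β hβ j hj y => lift (Real.exp_pos _).le (hTRw L β x hLb hβ hx hxL j y hj).2.2.2)
    cq0 qb0
  have D2 := hcore L x (Ex x) (Ph ρ x) (fun t => -t * Real.exp (-(x * t))) M M' hLa hx hxL hM0 hM0'
    (cd_ex x) (cd_ph hρ x) gr_ex (gr_ph hδ hρ hx0) Pz Pb
    (fun β hβ j hj y => lift (Real.exp_pos _).le (hTRw L β x hLb hβ hx hxL j y hj).1)
    (fun β hβ j hj y => lift (Real.exp_pos _).le (hTRw L β x hLb hβ hx hxL j y hj).2.2.1)
    cq1 qb1
  have D0' := D0.trans fin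
  have D1' := D1.trans fin
  have D2' := D2.trans fin
  -- values of the cutoffs
  have κ1 : ∀ y, 0 ≤ y → y ≤ θ / 4 → κ y = 1 := fun y h1 h2 =>
    hκ.one y (by linarith) (by linarith)
  have r1 : ∀ y, y ≤ θ / 4 → r y = 1 := fun y h => hr.one y h
  have hη0 : η 0 = 1 := hη1 0 le_rfl (by positivity)
  constructor
  · refine le_trans (EA_mono hW L (g := fun d => (Edg φ 2 L (fun y => KGg φ L (beg φ L d) (Ex x) y * κ y)
        (fun t => Real.exp (-(x * t)) * r t * κ t) η d - Nfg φ L (KGg φ L (beg φ L d) (Ph ρ x)) d *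
          Mdg φ 2 L (fun t => Real.exp (-(x * t)) * r t * κ t) d) ^ 2) ?_) (D0'.trans ?_)
    · intro d hdw
      have hd := hAω L d hdw
      have hd0 : d ≠ 0 := by
        rintro rfl
        exact absurd (hφ.odd 0 hd) (by decide)
      have h1 := Pool.Agent.H37R1.RGTRa.TRaG φ hφ L hL0 (fun y => KGg φ L (beg φ L d) (Ex x) y * κ y)
        (fun t => Real.exp (-(x * t)) * r t * κ t) (fun _ => 0) (fun _ => 0) η
        (fun u => KEg φ L d x * Real.exp (-(x * u))) (θ / 4) (by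
          intro y t hy ht hyt
          rw [(Pool.Agent.H553R2.RGC7G.C7G φ hφ d hd0 L hL0 x hx0 y).1, κ1 y hy (by linarith), κ1 t ht (by linarith),
            r1 t (by linarith)]
          rw [mul_zero, add_zero, mul_one, mul_one, mul_one, mul_assoc, ← Real.exp_add]
          congr 2
          ring) hη2 d
      rw [ed_zero, add_zero, hη0] at h1
      apply le_of_eq
      rw [h1]
      unfold Gug
      simp
    · have : 0 ≤ A * Real.exp (-(θ / 100 * x)) := by positivity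
      linarith
  · refine le_trans (EA_mono hW L (g := fun d => 2 * ((Edg φ 2 L
        (fun y => KGg φ L (beg φ L d) (Ex1 x) y * κ y)
        (fun t => Real.exp (-(x * t)) * r t * κ t) η d - Nfg φ L (KGg φ L (beg φ L d) (Ph1 ρ x)) d *
          Mdg φ 2 L (fun t => Real.exp (-(x * t)) * r t * κ t) d) ^ 2 +
        (Edg φ 2 L (fun y => KGg φ L (beg φ L d) (Ex x) y * κ y)
        (fun t => -t * Real.exp (-(x * t)) * r t * κ t) η d - Nfg φ L (KGg φ L (beg φ L d) (Ph ρ x)) d *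
          Mdg φ 2 L (fun t => -t * Real.exp (-(x * t)) * r t * κ t) d) ^ 2)) ?_) ?_
    · intro d hdw
      have hd := hAω L d hdw
      have hd0 : d ≠ 0 := by
        rintro rfl
        exact absurd (hφ.odd 0 hd) (by decide)
      have h1 := Pool.Agent.H37R1.RGTRa.TRaG φ hφ L hL0 (fun y => KGg φ L (beg φ L d) (Ex1 x) y * κ y)
        (fun t => Real.exp (-(x * t)) * r t * κ t) (fun y => KGg φ L (beg φ L d) (Ex x) y * κ y)
        (fun t => -t * Real.exp (-(x * t)) * r t * κ t) η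
        (fun u => (KGg φ L (beg φ L d) (Ex1 x) 0 - u * KEg φ L d x) * Real.exp (-(x * u))) (θ / 4) (by
          intro y t hy ht hyt
          rw [kw_ex1 hφ d hd0 L hL0 x (by linarith) y,
            (Pool.Agent.H553R2.RGC7G.C7G φ hφ d hd0 L hL0 x hx0 y).1, κ1 y hy (by linarith), κ1 t ht (by linarith),
            r1 t (by linarith)]
          have e : Real.exp (-(x * (y + t))) = Real.exp (-(x * y)) * Real.exp (-(x * t)) := by
            rw [← Real.exp_add]; congr 1; ring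
          rw [e]
          ring) hη2 d
      rw [hη0] at h1
      have h2 : Gu1g φ L ρ r κ d x = (Edg φ 2 L
        (fun y => KGg φ L (beg φ L d) (Ex1 x) y * κ y)
        (fun t => Real.exp (-(x * t)) * r t * κ t) η d - Nfg φ L (KGg φ L (beg φ L d) (Ph1 ρ x)) d *
          Mdg φ 2 L (fun t => Real.exp (-(x * t)) * r t * κ t) d) +
        (Edg φ 2 L (fun y => KGg φ L (beg φ L d) (Ex x) y * κ y)
        (fun t => -t * Real.exp (-(x * t)) * r t * κ t) η d - Nfg φ L (KGg φ L (beg φ L d) (Ph ρ x)) d *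
          Mdg φ 2 L (fun t => -t * Real.exp (-(x * t)) * r t * κ t) d) := by
        have h3 : Edg φ 2 L (fun y => KGg φ L (beg φ L d) (Ex1 x) y * κ y)
          (fun t => Real.exp (-(x * t)) * r t * κ t) η d = KGg φ L (beg φ L d) (Ex1 x) 0 -
          Edg φ 2 L (fun y => KGg φ L (beg φ L d) (Ex x) y * κ y)
            (fun t => -t * Real.exp (-(x * t)) * r t * κ t) η d := by
          have : (KGg φ L (beg φ L d) (Ex1 x) 0 - 0 * KEg φ L d x) * Real.exp (-(x * 0)) * 1 =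
            KGg φ L (beg φ L d) (Ex1 x) 0 := by simp
          linarith
        rw [h3]
        unfold Gu1g
        ring
      rw [h2]
      nlinarith [sq_nonneg ((Edg φ 2 L
        (fun y => KGg φ L (beg φ L d) (Ex1 x) y * κ y)
        (fun t => Real.exp (-(x * t)) * r t * κ t) η d - Nfg φ L (KGg φ L (beg φ L d) (Ph1 ρ x)) d *
          Mdg φ 2 L (fun t => Real.exp (-(x * t)) * r t * κ t) d) -
        (Edg φ 2 L (fun y => KGg φ L (beg φ L d) (Ex x) y * κ y)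
        (fun t => -t * Real.exp (-(x * t)) * r t * κ t) η d - Nfg φ L (KGg φ L (beg φ L d) (Ph ρ x)) d *
          Mdg φ 2 L (fun t => -t * Real.exp (-(x * t)) * r t * κ t) d))]
    · rw [EA_smul, EA_add hW L]
      linarith

/-- abstract summation argument -/
theorem absum (hW : GW φ ω) (L X0 Y C c0 c1 : ℝ) (hC : 0 < C)
    (hc0 : 0 < c0) (hc1 : 0 < c1) (hXY : X0 ≤ Y) (A : Set ℕ)
    (u v : ℕ → ℝ → ℝ)
    (hu : ∀ x, X0 ≤ x → x ≤ Y → EA (ω L) (fun d => u d x ^ 2) ≤ C * Real.exp (-(c0 * x)))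
    (hv : ∀ x, X0 ≤ x → x ≤ Y → EA (ω L) (fun d => v d x ^ 2) ≤ C * Real.exp (-(c0 * x)))
    (h : ∀ d ∈ A, ω L d ≠ 0 → ∃ x0, X0 ≤ x0 ∧ x0 ≤ Y ∧
      c1 ^ 2 ≤ u d Y ^ 2 + ∫ x in x0..Y, 2 * |u d x| * |v d x|) :
    EA (ω L) (A.indicator (fun _ => 1)) ≤ (C + 2 * C / c0) / c1 ^ 2 * Real.exp (-(c0 * X0)) := by
  classical
  obtain ⟨N, hN⟩ := EA_fin hW L
  have hnn := hW.nn L
  set S := range N with hS
  have key : ∀ d : ℕ, ∃ g : ℝ → ℝ, IntegrableOn g (Set.Ioc X0 Y) ∧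
      (∀ x, g x ≤ u d x ^ 2 + v d x ^ 2) ∧
      (d ∈ A → ω L d ≠ 0 → c1 ^ 2 ≤ u d Y ^ 2 + ∫ x in Set.Ioc X0 Y, g x) := by
    intro d
    by_cases hd : d ∈ A ∧ ω L d ≠ 0
    · obtain ⟨x0, h1, h2, h3⟩ := h d hd.1 hd.2
      by_cases hi : IntegrableOn (fun x => 2 * |u d x| * |v d x|) (Set.Ioc x0 Y)
      · refine ⟨(Set.Ioc x0 Y).indicator (fun x => 2 * |u d x| * |v d x|), ?_, ?_, ?_⟩
        · exact ((integrable_indicator_iff measurableSet_Ioc).2 hi).integrableOn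
        · intro x
          by_cases hx : x ∈ Set.Ioc x0 Y
          · rw [Set.indicator_of_mem hx]
            nlinarith [sq_nonneg (|u d x| - |v d x|), sq_abs (u d x), sq_abs (v d x)]
          · rw [Set.indicator_of_notMem hx]
            positivity
        · intro _ _
          rw [intervalIntegral.integral_of_le h2] at h3
          rw [setIntegral_indicator measurableSet_Ioc]
          have : Set.Ioc X0 Y ∩ Set.Ioc x0 Y = Set.Ioc x0 Y :=
            Set.inter_eq_right.2 (Set.Ioc_subset_Ioc_left h1)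
          rw [this]
          exact h3
      · refine ⟨0, integrableOn_zero, ?_, ?_⟩
        · intro x
          simp only [Pi.zero_apply]
          positivity
        · intro _ _
          rw [intervalIntegral.integral_of_le h2, integral_undef hi] at h3
          simpa using h3
    · refine ⟨0, integrableOn_zero, ?_, ?_⟩
      · intro x
        simp only [Pi.zero_apply]
        positivity
      · intro h1 h2
        exact absurd ⟨h1, h2⟩ hd
  choose g hg1 hg2 hg3 using key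
  -- pointwise
  have hpt : ∀ d : ℕ, c1 ^ 2 * (ω L d * A.indicator (fun _ => (1 : ℝ)) d) ≤
      ω L d * u d Y ^ 2 + (if d ∈ A then ω L d * ∫ x in Set.Ioc X0 Y, g d x else 0) := by
    intro d
    by_cases hd : d ∈ A
    · rw [Set.indicator_of_mem hd, if_pos hd]
      by_cases hz : ω L d = 0
      · rw [hz]; simp
      · have := hg3 d hd hz
        have h0 := hnn d
        nlinarith [mul_le_mul_of_nonneg_left this h0]
    · rw [Set.indicator_of_notMem hd, if_neg hd, mul_zero, mul_zero, add_zero]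
      exact mul_nonneg (hnn d) (sq_nonneg _)
  have hsum : c1 ^ 2 * EA (ω L) (A.indicator (fun _ => 1)) ≤ EA (ω L) (fun d => u d Y ^ 2) +
      (∑ d ∈ S, if d ∈ A then ω L d * ∫ x in Set.Ioc X0 Y, g d x else 0) := by
    rw [hN, hN, Finset.mul_sum, ← Finset.sum_add_distrib]
    exact Finset.sum_le_sum fun d _ => hpt d
  have hswap : (∑ d ∈ S, if d ∈ A then ω L d * ∫ x in Set.Ioc X0 Y, g d x else 0) =
      ∫ x in Set.Ioc X0 Y, ∑ d ∈ S, (if d ∈ A then ω L d * g d x else 0) := by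
    rw [integral_finsetSum]
    · apply Finset.sum_congr rfl
      intro d _
      split_ifs
      · rw [integral_const_mul]
      · simp
    · intro d _
      by_cases hd : d ∈ A
      · simp only [if_pos hd]
        exact (hg1 d).const_mul _
      · simp only [if_neg hd]
        exact integrable_zero _ _ _
  have hint : IntegrableOn (fun x => ∑ d ∈ S, (if d ∈ A then ω L d * g d x else 0))
      (Set.Ioc X0 Y) := by
    apply integrable_finsetSum
    intro d _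
    by_cases hd : d ∈ A
    · simp only [if_pos hd]
      exact (hg1 d).const_mul _
    · simp only [if_neg hd]
      exact integrable_zero _ _ _
  have hbd : ∀ x ∈ Set.Ioc X0 Y, (∑ d ∈ S, (if d ∈ A then ω L d * g d x else 0)) ≤
      2 * C * Real.exp (-(c0 * x)) := by
    intro x hx
    have e1 := hu x hx.1.le hx.2
    have e2 := hv x hx.1.le hx.2
    rw [hN] at e1 e2
    have e3 : (∑ d ∈ S, (if d ∈ A then ω L d * g d x else 0)) ≤
        (∑ d ∈ S, ω L d * u d x ^ 2) + (∑ d ∈ S, ω L d * v d x ^ 2) := by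
      rw [← Finset.sum_add_distrib]
      apply Finset.sum_le_sum
      intro d _
      have h0 := hnn d
      have h1 := hg2 d x
      split_ifs
      · nlinarith [mul_le_mul_of_nonneg_left h1 h0]
      · positivity
    linarith
  have hexp : IntegrableOn (fun x => 2 * C * Real.exp (-(c0 * x))) (Set.Ioc X0 Y) := by
    apply Continuous.integrableOn_Ioc
    fun_prop
  have hmain : (∫ x in Set.Ioc X0 Y, ∑ d ∈ S, (if d ∈ A then ω L d * g d x else 0)) ≤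
      ∫ x in Set.Ioc X0 Y, 2 * C * Real.exp (-(c0 * x)) :=
    setIntegral_mono_on hint hexp measurableSet_Ioc hbd
  have hval : (∫ x in Set.Ioc X0 Y, 2 * C * Real.exp (-(c0 * x))) ≤
      2 * C / c0 * Real.exp (-(c0 * X0)) := by
    rw [← intervalIntegral.integral_of_le hXY]
    have hder : ∀ x ∈ Set.uIcc X0 Y, HasDerivAt
        (fun x => -(2 * C / c0 * Real.exp (-(c0 * x))))
        (2 * C * Real.exp (-(c0 * x))) x := by
      intro x _
      have h1 : HasDerivAt (fun x : ℝ => -(c0 * x)) (-c0) x := by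
        have h0 := ((hasDerivAt_id x).const_mul c0).neg
        rw [mul_one] at h0
        exact h0
      have h2 := ((h1.exp).const_mul (2 * C / c0)).neg
      have h3 : 2 * C * Real.exp (-(c0 * x)) =
          -(2 * C / c0 * (Real.exp (-(c0 * x)) * -c0)) := by
        field_simp
      rw [h3]
      exact h2
    rw [intervalIntegral.integral_eq_sub_of_hasDerivAt hder]
    · have : 0 ≤ 2 * C / c0 * Real.exp (-(c0 * Y)) := by positivity
      linarith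
    · apply Continuous.intervalIntegrable
      fun_prop
  have hfin : c1 ^ 2 * EA (ω L) (A.indicator (fun _ => 1)) ≤
      (C + 2 * C / c0) * Real.exp (-(c0 * X0)) := by
    have e1 := hu Y hXY le_rfl
    have e2 : Real.exp (-(c0 * Y)) ≤ Real.exp (-(c0 * X0)) := by
      apply Real.exp_le_exp.2
      have := mul_le_mul_of_nonneg_left hXY hc0.le
      linarith
    rw [hswap] at hsum
    have e4 : C * Real.exp (-(c0 * Y)) ≤ C * Real.exp (-(c0 * X0)) :=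
      mul_le_mul_of_nonneg_left e2 hC.le
    linarith
  have hc2 : 0 < c1 ^ 2 := by positivity
  rw [div_mul_eq_mul_div, le_div_iff₀ hc2]
  linarith

theorem TRG {s' : ℝ} (hφ : FG φ) (hC : CG φ) (hG : GE φ s' ω)
    (δ θ : ℝ) (hδ : 0 < δ) (hA : AdmV (1 / 2 + 3 * δ) θ s') :
    ∃ C c0 L0 : ℝ, 0 < C ∧ 0 < c0 ∧ ∀ L : ℝ, L0 ≤ L → ∀ X0 : ℝ, 1 ≤ X0 → X0 ≤ L / 2 →
      EA (ω L) ((SFg φ ∩ {d | bad2g φ L X0 d}).indicator (fun _ => 1)) ≤ C * Real.exp (-(c0 * X0)) := by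
  obtain ⟨W0a, W0b, W0c⟩ := Pool.Agent.H692R2.RZ2W0.W0
  have hδ' : 0 < min δ (1 / 64) := lt_min hδ (by norm_num)
  have hδ1 : min δ (1 / 64) ≤ 1 / 64 := min_le_right _ _
  have hδ2 : min δ (1 / 64) ≤ δ := min_le_left _ _
  set δ' := min δ (1 / 64) with hδdef
  have hθ := hA.hθ
  have hθ1 := hA.hθ1
  have hA' : AdmV (1 / 2 + 3 * δ') θ s' :=
    { hs := by linarith
      hθ := hθ
      hs1 := by linarith [hA.hs1]
      hθ1 := hθ1
      hst := by linarith [hA.hst]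
      main := by linarith [hA.main]
      hs' := hA.hs'
      m1 := by linarith [hA.m1] }
  have he : 0 < θ / 100 := by positivity
  obtain ⟨ρ, hρ⟩ := W0a δ' hδ'
  obtain ⟨κ, hκ⟩ := W0b δ' (θ / 100) hδ' he
  obtain ⟨r, hr⟩ := W0c (θ / 4) θ (by linarith)
  obtain ⟨C, c0, L1, hC0, hc0, hTR1⟩ :=
    TR1G hφ hG δ' (θ / 100) θ hδ' hδ1 he le_rfl hA' ρ r κ hρ hr hκ
  obtain ⟨c1, c2, b, L2, hc1, hb, hC8⟩ := C8 hφ hG.toGW
  refine ⟨(C + 2 * C / c0) / c1 ^ 2, c0, max (max L1 L2) 4, by positivity, hc0, ?_⟩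
  intro L hL X0 hX0 hX0L
  have hL1 : L1 ≤ L := le_trans (le_trans (le_max_left _ _) (le_max_left _ _)) hL
  have hL2 : L2 ≤ L := le_trans (le_trans (le_max_right _ _) (le_max_left _ _)) hL
  have hL4 : 4 ≤ L := le_trans (le_max_right _ _) hL
  apply absum hG.toGW L X0 (L / 2) C c0 c1 hC0 hc0 hc1 hX0L (SFg φ ∩ {d | bad2g φ L X0 d})
    (Gug φ L ρ r κ) (Gu1g φ L ρ r κ)
  · intro x hx1 hx2
    exact (hTR1 L hL1 x (le_trans hX0 hx1) hx2).1
  · intro x hx1 hx2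
    exact (hTR1 L hL1 x (le_trans hX0 hx1) hx2).2
  · rintro d ⟨hSF, x0, h1, h2, h3⟩ hFd
    refine ⟨x0, h1, h2, ?_⟩
    have k1 := TR2G φ hφ hC L hL4 δ' (θ / 100) θ hδ' hδ1 hθ hθ1 ρ r κ hρ hr hκ he d hSF x0
      (le_trans hX0 h1) h2 h3
    have k2 := ((hC8 L hL2 d hFd).2 x0 (by linarith) h2).1
    have k3 : c1 ^ 2 ≤ KEg φ L d x0 ^ 2 := by
      apply pow_le_pow_left₀ hc1.le k2
    linarith

end

end Pool.Agent.N782.GA
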