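import Pool.Agent.N782.GM
import Pool.Agent.H484R2.RG_MR3G
import Pool.Agent.H692R2.RZ2_W0
import Pool.Agent.H966R3.RZ2_MRc
import Pool.Agent.H423R2.RGL.MR3G
import Pool.Agent.H423R2.RGL.MR5G

set_option autoImplicit false
set_option maxHeartbeats 4000000

/-! General averages: the main range, by domination and the variance (helper782). -/

namespace Pool.Agent.N782.GA

open Finset Filter Topology MeasureTheory Pool.Agent.H306R2.RZ Pool.Agent.H306R2.RG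
open Pool.Agent.H484R2.RGMR3 (exch)
open Pool.Agent.H966R3.RZ2_MRc (cont_Sx cont_Sx1 cont_ax cont_ax1 cont_ax2 cBx)

noncomputable section

variable {φ : FD} {ω ν : ℝ → ℕ → ℝ}

/-- first moments -/
structure M1 (φ : FD) (s' K : ℝ) (ω : ℝ → ℕ → ℝ) : Prop where
  l0 : Tendsto (fun L : ℝ => EA (ω L) (fun _ => 1)) atTop (𝓝 K)
  l1 : ∀ s θ : ℝ, AdmV s θ s' → ∀ w Q : ℝ → ℝ, Wt s w → Wt θ Q →
    Tendsto (fun L : ℝ => EA (ω L) (fun d => Ndg φ 2 L w d * Mdg φ 2 L Q d)) atTop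
      (𝓝 (K * (mn w Q / 2)))

/-- second moments -/
structure M2 (φ : FD) (s' K : ℝ) (ω : ℝ → ℕ → ℝ) : Prop extends M1 φ s' K ω where
  l2 : ∀ s θ : ℝ, AdmV s θ s' → ∀ w1 w2 Q1 Q2 : ℝ → ℝ, Wt s w1 → Wt s w2 → Wt θ Q1 → Wt θ Q2 →
    Tendsto (fun L : ℝ => EA (ω L) (fun d => Ndg φ 2 L w1 d * Mdg φ 2 L Q1 d *
      (Ndg φ 2 L w2 d * Mdg φ 2 L Q2 d))) atTop (𝓝 (K * BB w1 Q1 w2 Q2))

theorem G0_lim1 {s' K : ℝ} (hW : GW φ ω) (h : M1 φ s' K ω) (s θ : ℝ) (hA : AdmV s θ s')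
    (w Q : ℝ → ℝ) (h1 : Wt s w) (h3 : Wt θ Q) (m : ℝ) :
    Tendsto (fun L : ℝ => EA (ω L) (fun d => G0g φ 2 L m w Q d)) atTop
      (𝓝 (K * (1 - m * (mn w Q / 2)))) := by
  have e1 : ∀ L : ℝ, EA (ω L) (fun d => G0g φ 2 L m w Q d) =
      EA (ω L) (fun _ => 1) + (-m) * EA (ω L) (fun d => Ndg φ 2 L w d * Mdg φ 2 L Q d) := by
    intro L
    rw [← EA_smul, ← EA_add hW]
    refine EA_congr L fun d _ => ?_
    unfold G0g
    ring
  have h5 := h.l0.add ((h.l1 s θ hA w Q h1 h3).const_mul (-m))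
  refine (h5.congr (fun L => (e1 L).symm)).trans (le_of_eq ?_)
  congr 1
  ring

theorem G1_lim1 {s' K : ℝ} (hW : GW φ ω) (h : M1 φ s' K ω) (s θ : ℝ) (hA : AdmV s θ s')
    (w w' Q Q' : ℝ → ℝ) (h1 : Wt s w) (h2 : Wt s w') (h3 : Wt θ Q) (h4 : Wt θ Q') (m m' : ℝ) :
    Tendsto (fun L : ℝ => EA (ω L) (fun d => G1g φ 2 L m m' w w' Q Q' d)) atTop
      (𝓝 (K * (-(m' * (mn w Q / 2) + m * ((mn w' Q + mn w Q') / 2))))) := by
  have e1 : ∀ L : ℝ, EA (ω L) (fun d => G1g φ 2 L m m' w w' Q Q' d) =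
      (-m') * EA (ω L) (fun d => Ndg φ 2 L w d * Mdg φ 2 L Q d) +
      ((-m) * EA (ω L) (fun d => Ndg φ 2 L w' d * Mdg φ 2 L Q d) +
       (-m) * EA (ω L) (fun d => Ndg φ 2 L w d * Mdg φ 2 L Q' d)) := by
    intro L
    simp only [← EA_smul, ← EA_add hW]
    refine EA_congr L fun d _ => ?_
    unfold G1g
    ring
  have h5 := ((h.l1 s θ hA w Q h1 h3).const_mul (-m')).add
    (((h.l1 s θ hA w' Q h2 h3).const_mul (-m)).add ((h.l1 s θ hA w Q' h1 h4).const_mul (-m)))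
  refine (h5.congr (fun L => (e1 L).symm)).trans (le_of_eq ?_)
  congr 1
  ring

theorem G0_lim2 {s' K : ℝ} (hW : GW φ ω) (h : M2 φ s' K ω) (s θ : ℝ) (hA : AdmV s θ s')
    (w Q : ℝ → ℝ) (h1 : Wt s w) (h3 : Wt θ Q) (m t : ℝ) :
    Tendsto (fun L : ℝ => EA (ω L) (fun d => (G0g φ 2 L m w Q d - t) ^ 2)) atTop
      (𝓝 (K * ((1 - t) ^ 2 - 2 * (1 - t) * m * (mn w Q / 2) + m ^ 2 * BB w Q w Q))) := by
  have e1 : ∀ L : ℝ, EA (ω L) (fun d => (G0g φ 2 L m w Q d - t) ^ 2) =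
      (1 - t) ^ 2 * EA (ω L) (fun _ => 1) +
      ((-2 * (1 - t) * m) * EA (ω L) (fun d => Ndg φ 2 L w d * Mdg φ 2 L Q d) +
      m ^ 2 * EA (ω L) (fun d => Ndg φ 2 L w d * Mdg φ 2 L Q d *
        (Ndg φ 2 L w d * Mdg φ 2 L Q d))) := by
    intro L
    simp only [← EA_smul, ← EA_add hW]
    refine EA_congr L fun d _ => ?_
    unfold G0g
    ring
  have h5 := (h.l0.const_mul ((1 - t) ^ 2)).add
    (((h.l1 s θ hA w Q h1 h3).const_mul (-2 * (1 - t) * m)).add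
    ((h.l2 s θ hA w w Q Q h1 h1 h3 h3).const_mul (m ^ 2)))
  refine (h5.congr (fun L => (e1 L).symm)).trans (le_of_eq ?_)
  congr 1
  ring

theorem G1_lim2 {s' K : ℝ} (hW : GW φ ω) (h : M2 φ s' K ω) (s θ : ℝ) (hA : AdmV s θ s')
    (w w' Q Q' : ℝ → ℝ) (h1 : Wt s w) (h2 : Wt s w') (h3 : Wt θ Q) (h4 : Wt θ Q') (m m' t : ℝ) :
    Tendsto (fun L : ℝ => EA (ω L) (fun d => (G1g φ 2 L m m' w w' Q Q' d - t) ^ 2)) atTop
      (𝓝 (K * (t ^ 2 + 2 * t * (m' * (mn w Q / 2) + m * ((mn w' Q + mn w Q') / 2)) +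
        (m' ^ 2 * BB w Q w Q + 2 * m * m' * (BB w Q w' Q + BB w Q w Q') +
        m ^ 2 * (BB w' Q w' Q + BB w' Q w Q' + (BB w Q' w' Q + BB w Q' w Q')))))) := by
  have e1 : ∀ L : ℝ, EA (ω L) (fun d => (G1g φ 2 L m m' w w' Q Q' d - t) ^ 2) =
      t ^ 2 * EA (ω L) (fun _ => 1) +
      ((2 * t * m') * EA (ω L) (fun d => Ndg φ 2 L w d * Mdg φ 2 L Q d) +
      ((2 * t * m) * EA (ω L) (fun d => Ndg φ 2 L w' d * Mdg φ 2 L Q d) +
      ((2 * t * m) * EA (ω L) (fun d => Ndg φ 2 L w d * Mdg φ 2 L Q' d) +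
      (m' ^ 2 * EA (ω L) (fun d => Ndg φ 2 L w d * Mdg φ 2 L Q d *
        (Ndg φ 2 L w d * Mdg φ 2 L Q d)) +
      (2 * m * m' * EA (ω L) (fun d => Ndg φ 2 L w d * Mdg φ 2 L Q d *
        (Ndg φ 2 L w' d * Mdg φ 2 L Q d)) +
      (2 * m * m' * EA (ω L) (fun d => Ndg φ 2 L w d * Mdg φ 2 L Q d *
        (Ndg φ 2 L w d * Mdg φ 2 L Q' d)) +
      (m ^ 2 * EA (ω L) (fun d => Ndg φ 2 L w' d * Mdg φ 2 L Q d *
        (Ndg φ 2 L w' d * Mdg φ 2 L Q d)) +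
      (m ^ 2 * EA (ω L) (fun d => Ndg φ 2 L w' d * Mdg φ 2 L Q d *
        (Ndg φ 2 L w d * Mdg φ 2 L Q' d)) +
      (m ^ 2 * EA (ω L) (fun d => Ndg φ 2 L w d * Mdg φ 2 L Q' d *
        (Ndg φ 2 L w' d * Mdg φ 2 L Q d)) +
      m ^ 2 * EA (ω L) (fun d => Ndg φ 2 L w d * Mdg φ 2 L Q' d *
        (Ndg φ 2 L w d * Mdg φ 2 L Q' d))))))))))) := by
    intro L
    simp only [← EA_smul, ← EA_add hW]
    refine EA_congr L fun d _ => ?_
    unfold G1g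
    ring
  have h5 := (h.l0.const_mul (t ^ 2)).add
    (((h.l1 s θ hA w Q h1 h3).const_mul (2 * t * m')).add
    (((h.l1 s θ hA w' Q h2 h3).const_mul (2 * t * m)).add
    (((h.l1 s θ hA w Q' h1 h4).const_mul (2 * t * m)).add
    (((h.l2 s θ hA w w Q Q h1 h1 h3 h3).const_mul (m' ^ 2)).add
    (((h.l2 s θ hA w w' Q Q h1 h2 h3 h3).const_mul (2 * m * m')).add
    (((h.l2 s θ hA w w Q Q' h1 h1 h3 h4).const_mul (2 * m * m')).add
    (((h.l2 s θ hA w' w' Q Q h2 h2 h3 h3).const_mul (m ^ 2)).add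
    (((h.l2 s θ hA w' w Q Q' h2 h1 h3 h4).const_mul (m ^ 2)).add
    (((h.l2 s θ hA w w' Q' Q h1 h2 h4 h3).const_mul (m ^ 2)).add
    ((h.l2 s θ hA w w Q' Q' h1 h1 h4 h4).const_mul (m ^ 2)))))))))))
  refine (h5.congr (fun L => (e1 L).symm)).trans (le_of_eq ?_)
  congr 1
  ring

/-- domination -/
theorem EA_dom (hW : GW φ ω) (hV : GW φ ν) {Cs : ℝ} (hd : ∀ L d, ω L d ≤ Cs * ν L d) (L : ℝ)
    {f : ℕ → ℝ} (hf : ∀ d, 0 ≤ f d) : EA (ω L) f ≤ Cs * EA (ν L) f := by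
  obtain ⟨N1, h1⟩ := EA_fin hW L
  obtain ⟨N2, h2⟩ := EA_fin hV L
  have key : ∀ (ρ : ℝ → ℕ → ℝ) (N M : ℕ) (g : ℕ → ℝ), (∀ f : ℕ → ℝ,
      EA (ρ L) f = ∑ d ∈ range N, ρ L d * f d) → N ≤ M → GW φ ρ → (∀ d, 0 ≤ g d) →
      EA (ρ L) g ≤ ∑ d ∈ range M, ρ L d * g d := by
    intro ρ N M g h hNM hρ hg
    rw [h]
    exact Finset.sum_le_sum_of_subset_of_nonneg (Finset.range_mono hNM)
      fun d _ _ => mul_nonneg (hρ.nn L d) (hg d)
  have key2 : ∑ d ∈ range (max N1 N2), ν L d * f d = EA (ν L) f := by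
    unfold EA
    symm
    refine tsum_eq_sum fun d hd => ?_
    by_contra hne
    have h3 := h2 (Pi.single d 1)
    have h4 : EA (ν L) (Pi.single d 1) = ν L d := by
      unfold EA
      rw [tsum_eq_single d]
      · simp
      · intro b hb
        simp [hb]
    rw [h4] at h3
    have h5 : ∑ x ∈ range N2, ν L x * (Pi.single d 1 : ℕ → ℝ) x = 0 := by
      refine Finset.sum_eq_zero fun x hx => ?_
      have : x ≠ d := by
        rintro rfl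
        rw [mem_range] at hd hx
        exact hd (lt_of_lt_of_le hx (le_max_right _ _))
      simp [this]
    rw [h5] at h3
    exact hne (by rw [h3, zero_mul])
  calc EA (ω L) f ≤ ∑ d ∈ range (max N1 N2), ω L d * f d :=
        key ω N1 _ f h1 (le_max_left _ _) hW hf
    _ ≤ ∑ d ∈ range (max N1 N2), Cs * (ν L d * f d) := by
        refine Finset.sum_le_sum fun d _ => ?_
        rw [← mul_assoc]
        exact mul_le_mul_of_nonneg_right (hd L d) (hf d)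
    _ = Cs * EA (ν L) f := by rw [← Finset.mul_sum, key2]

theorem GE_dom {s' : ℝ} (hW : GW φ ω) (hV : GE φ s' ν) {Cs : ℝ} (hCs : 0 < Cs)
    (hd : ∀ L d, ω L d ≤ Cs * ν L d) : GE φ s' ω where
  nn := hW.nn
  supp := hW.supp
  ub := by
    intro s θ hA
    obtain ⟨C, L0, k, hC, h⟩ := hV.ub s θ hA
    refine ⟨Cs * C, L0, k, by positivity, fun L hL w Q B B' h1 h2 h3 h4 => ?_⟩
    refine (EA_dom hW hV.toGW hd L (fun d => sq_nonneg _)).trans ?_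
    have := mul_le_mul_of_nonneg_left (h L hL w Q B B' h1 h2 h3 h4) hCs.le
    linarith
  one := by
    obtain ⟨C, L0, hC, h⟩ := hV.one
    refine ⟨Cs * C, L0, by positivity, fun L hL => ?_⟩
    refine (EA_dom hW hV.toGW hd L (fun d => zero_le_one)).trans ?_
    exact mul_le_mul_of_nonneg_left (h L hL) hCs.le

/-- the variance trick -/
theorem var_le (hW : GW φ ω) (hV : GW φ ν) {Cs : ℝ} (hd : ∀ L d, ω L d ≤ Cs * ν L d) (L : ℝ)
    (f : ℕ → ℝ) (m : ℝ) : EA (ω L) (fun d => f d ^ 2) ≤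
      2 * m * EA (ω L) f - m ^ 2 * EA (ω L) (fun _ => 1) +
        Cs * EA (ν L) (fun d => (f d - m) ^ 2) := by
  have h1 := EA_dom hW hV hd L (f := fun d => (f d - m) ^ 2) (fun d => sq_nonneg _)
  have h2 : EA (ω L) (fun d => (f d - m) ^ 2) = EA (ω L) (fun d => f d ^ 2) +
      ((-2 * m) * EA (ω L) f + m ^ 2 * EA (ω L) (fun _ => 1)) := by
    rw [← EA_smul, ← EA_smul, ← EA_add hW, ← EA_add hW]
    refine EA_congr L fun d _ => ?_
    ring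
  linarith

theorem MR3V {s' : ℝ} (hφ : FG φ) (hGp : GE φ s' ω) (hGW : GE φ s' ν) {Cs K : ℝ} (hCs : 0 ≤ Cs)
    (hd : ∀ L d, ω L d ≤ Cs * ν L d) (hK0 : 0 ≤ K) (hM1 : M1 φ s' K ω) (hM2 : M2 φ s' K ν)
    (δ e : ℝ) (hδ : 0 < δ) (hδ1 : δ < 1 / 8) (he : 0 < e) (he1 : e ≤ 1)
    (ρ κ ζ χ : ℝ → ℝ) (hρ : RH δ ρ)
    (hκ : KP δ e κ) (hζ : ST (-1 / 2) (-1 / 4) ζ) (θ' θ : ℝ) (hθ' : 0 < θ') (hθθ : θ' < θ)
    (hA : AdmV (1 / 2 + 3 * δ) θ s') (hχ : ST θ' θ χ) (c c' : ℝ → ℝ)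
    (hc : ∀ x, HasDerivAt c (c' x) x) (hc' : Continuous c') (X0 : ℝ) (hX0 : 0 ≤ X0) (ε : ℝ)
    (hε : 0 < ε) :
    ∃ L0 : ℝ, ∀ L : ℝ, L0 ≤ L →
      EA (ω L) (fun d =>
        G0g φ 2 L (c X0) (Wf ρ κ X0) (qf ζ χ X0) d ^ 2 +
        ∫ x in (0 : ℝ)..X0, 2 * |G0g φ 2 L (c x) (Wf ρ κ x) (qf ζ χ x) d| *
          |G1g φ 2 L (c x) (c' x) (Wf ρ κ x) (Wf1 ρ κ x) (qf ζ χ x) (qf1 ζ χ x) d|) ≤
      K * (vv (c X0) (Bx χ X0) (Cs * nx χ) (ax X0) +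
        ∫ x in (0 : ℝ)..X0, 2 * Real.sqrt (vv (c x) (Bx χ x) (Cs * nx χ) (ax x) *
          ww (c x) (c' x) (Bx χ x) (Bx1 χ x) (Cs * nx χ) (ax x) (ax1 x) (ax2 x))) + ε := by
  obtain ⟨hq1, _, hq3, hq4, hq5⟩ := Pool.Agent.H66R2.RZW3.W3 ζ χ hζ θ' θ hθ' hθθ hA.hθ1 hχ
  obtain ⟨hw1, _, hw3, hw4, hw5⟩ := Pool.Agent.H423R2.RGL.OldW.W4 δ e hδ he he1 ρ κ hρ hκ
  have hcc : Continuous c := continuous_iff_continuousAt.2 fun x => (hc x).continuousAt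
  set u : ℝ → ℝ → ℕ → ℝ := fun L x d => G0g φ 2 L (c x) (Wf ρ κ x) (qf ζ χ x) d with hu
  set v : ℝ → ℝ → ℕ → ℝ := fun L x d =>
    G1g φ 2 L (c x) (c' x) (Wf ρ κ x) (Wf1 ρ κ x) (qf ζ χ x) (qf1 ζ χ x) d with hv
  have hucont : ∀ L, 0 < L → ∀ d, Continuous fun x => u L x d := by
    intro L hL d
    have n1 := Pool.Agent.H484R2.RGMR3.Nd_cont φ hw4 (fun x => (hw1 x).1) 2 hL d
    have m1 := Pool.Agent.H484R2.RGMR3.Md_cont φ hq4 (fun x => (hq1 x).1) 2 hL d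
    exact continuous_const.sub (hcc.mul (n1.mul m1))
  have hvcont : ∀ L, 0 < L → ∀ d, Continuous fun x => v L x d := by
    intro L hL d
    have n1 := Pool.Agent.H484R2.RGMR3.Nd_cont φ hw4 (fun x => (hw1 x).1) 2 hL d
    have n2 := Pool.Agent.H484R2.RGMR3.Nd_cont φ hw5 (fun x => (hw1 x).2) 2 hL d
    have m1 := Pool.Agent.H484R2.RGMR3.Md_cont φ hq4 (fun x => (hq1 x).1) 2 hL d
    have m2 := Pool.Agent.H484R2.RGMR3.Md_cont φ hq5 (fun x => (hq1 x).2) 2 hL d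
    exact ((hc'.mul (n1.mul m1)).add (hcc.mul ((n2.mul m1).add (n1.mul m2)))).neg
  have hBc : Continuous (fun x => Bx χ x) := cBx Sx cont_Sx χ hχ.smooth.continuous
  have hB1c : Continuous (fun x => Bx1 χ x) := cBx Sx1 cont_Sx1 χ hχ.smooth.continuous
  set m0 : ℝ → ℝ := fun x => 1 - c x * Bx χ x with hm0
  set m1 : ℝ → ℝ := fun x => -(c' x * Bx χ x + c x * Bx1 χ x) with hm1
  have hm0c : Continuous m0 := continuous_const.sub (hcc.mul hBc)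
  have hm1c : Continuous m1 := ((hc'.mul hBc).add (hcc.mul hB1c)).neg
  set V : ℝ → ℝ := fun x => vv (c x) (Bx χ x) (Cs * nx χ) (ax x) with hV
  set W : ℝ → ℝ := fun x => ww (c x) (c' x) (Bx χ x) (Bx1 χ x) (Cs * nx χ) (ax x) (ax1 x) (ax2 x)
    with hW
  -- the majorants
  set U : ℝ → ℝ → ℝ := fun L x => 2 * m0 x * EA (ω L) (fun d => u L x d) -
    m0 x ^ 2 * EA (ω L) (fun _ => 1) + Cs * EA (ν L) (fun d => (u L x d - m0 x) ^ 2) with hU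
  set T : ℝ → ℝ → ℝ := fun L x => 2 * m1 x * EA (ω L) (fun d => v L x d) -
    m1 x ^ 2 * EA (ω L) (fun _ => 1) + Cs * EA (ν L) (fun d => (v L x d - m1 x) ^ 2) with hT
  have hUle : ∀ L x, EA (ω L) (fun d => u L x d ^ 2) ≤ U L x := fun L x =>
    var_le hGp.toGW hGW.toGW hd L (u L x) (m0 x)
  have hTle : ∀ L x, EA (ω L) (fun d => v L x d ^ 2) ≤ T L x := fun L x =>
    var_le hGp.toGW hGW.toGW hd L (v L x) (m1 x)
  -- the limits
  have hlim : ∀ x, Tendsto (fun L => U L x) atTop (𝓝 (K * V x)) ∧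
      Tendsto (fun L => T L x) atTop (𝓝 (K * W x)) := by
    intro x
    obtain ⟨b1, b2⟩ := Pool.Agent.H357R3.RZ2_CF1.CF1 δ e hδ hδ1 he he1 ρ κ ζ χ hρ hκ hζ θ' θ hθ' hθθ hA.hθ1 hχ x
    obtain ⟨d1, d2, d3⟩ := Pool.Agent.H423R2.RGL.OldW.CF3 δ e hδ hδ1 he he1 ρ κ ζ χ hρ hκ hζ θ' θ hθ' hθθ hA.hθ1 hχ x
    constructor
    · have a1 := G0_lim1 hGp.toGW hM1 _ _ hA (Wf ρ κ x) (qf ζ χ x) (hw1 x).1 (hq1 x).1 (c x)
      have a2 := G0_lim2 hGW.toGW hM2 _ _ hA (Wf ρ κ x) (qf ζ χ x) (hw1 x).1 (hq1 x).1 (c x)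
        (m0 x)
      rw [b1] at a1 a2
      rw [d1] at a2
      have a3 := ((a1.const_mul (2 * m0 x)).sub (hM1.l0.const_mul (m0 x ^ 2))).add
        (a2.const_mul Cs)
      refine a3.trans (le_of_eq ?_)
      congr 1
      simp only [hm0, hV, vv]
      ring
    · have a1 := G1_lim1 hGp.toGW hM1 _ _ hA (Wf ρ κ x) (Wf1 ρ κ x) (qf ζ χ x) (qf1 ζ χ x)
        (hw1 x).1 (hw1 x).2 (hq1 x).1 (hq1 x).2 (c x) (c' x)
      have a2 := G1_lim2 hGW.toGW hM2 _ _ hA (Wf ρ κ x) (Wf1 ρ κ x) (qf ζ χ x) (qf1 ζ χ x)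
        (hw1 x).1 (hw1 x).2 (hq1 x).1 (hq1 x).2 (c x) (c' x) (m1 x)
      rw [b1, b2] at a1 a2
      rw [d1, d2, d3] at a2
      have a3 := ((a1.const_mul (2 * m1 x)).sub (hM1.l0.const_mul (m1 x ^ 2))).add
        (a2.const_mul Cs)
      refine a3.trans (le_of_eq ?_)
      congr 1
      simp only [hm1, hW, ww]
      ring
  -- uniform bounds
  obtain ⟨C, L1, k, hC, hbd⟩ := GBG hGp (1 / 2 + 3 * δ) θ hA
  obtain ⟨C2, L2, k2, hC2, hbd2⟩ := GBG hGW (1 / 2 + 3 * δ) θ hA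
  obtain ⟨E1, L3, hE1, hone⟩ := hGp.one
  obtain ⟨E2, L4, hE2, hone2⟩ := hGW.one
  obtain ⟨B, hB⟩ := hw3 (max k k2) X0
  obtain ⟨B', hB'⟩ := hq3 (max k k2) X0
  have bmono : ∀ {k0 : ℕ} {f : ℝ → ℝ} {D : ℝ}, k0 ≤ max k k2 → Bd (max k k2) f D → Bd k0 f D :=
    fun hk h j hj y => h j (hj.trans hk) y
  have hbdd : ∀ f : ℝ → ℝ, Continuous f → ∃ M : ℝ, 0 ≤ M ∧ ∀ x ∈ Set.Icc (0 : ℝ) X0, f x ^ 2 ≤ M := by
    intro f hf
    obtain ⟨M, hM⟩ := (isCompact_Icc (a := (0 : ℝ)) (b := X0)).bddAbove_image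
      (f := fun x => f x ^ 2) (hf.pow 2).continuousOn
    have h0 : ∀ x ∈ Set.Icc (0 : ℝ) X0, f x ^ 2 ≤ M := fun x hx => hM (Set.mem_image_of_mem _ hx)
    exact ⟨M, (sq_nonneg _).trans (h0 0 ⟨le_rfl, hX0⟩), h0⟩
  obtain ⟨M1', hM10, hM1'⟩ := hbdd c hcc
  obtain ⟨M2', hM20, hM2'⟩ := hbdd c' hc'
  obtain ⟨M3', hM30, hM3'⟩ := hbdd m0 hm0c
  obtain ⟨M4', hM40, hM4'⟩ := hbdd m1 hm1c
  set D1 : ℝ := C * (1 + M1' * B ^ 2 * B' ^ 2) with hD1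
  set D2 : ℝ := C * ((M1' + M2') * B ^ 2 * B' ^ 2) with hD2
  set D1' : ℝ := C2 * (1 + M1' * B ^ 2 * B' ^ 2) with hD1'
  set D2' : ℝ := C2 * ((M1' + M2') * B ^ 2 * B' ^ 2) with hD2'
  set A1 : ℝ := D1 + M3' * E1 + Cs * (2 * D1' + 2 * M3' * E2) with hA1
  set A2 : ℝ := D2 + M4' * E1 + Cs * (2 * D2' + 2 * M4' * E2) with hA2
  -- an auxiliary inequality
  have aux : ∀ (L m D D' M : ℝ) (f : ℕ → ℝ), EA (ω L) (fun d => f d ^ 2) ≤ D →
      EA (ν L) (fun d => f d ^ 2) ≤ D' → m ^ 2 ≤ M → EA (ω L) (fun _ => 1) ≤ E1 →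
      EA (ν L) (fun _ => 1) ≤ E2 →
      2 * m * EA (ω L) f - m ^ 2 * EA (ω L) (fun _ => 1) + Cs * EA (ν L) (fun d => (f d - m) ^ 2) ≤
        D + M * E1 + Cs * (2 * D' + 2 * M * E2) := by
    intro L m D D' M f h1 h2 h3 h4 h5
    have n1 : 0 ≤ EA (ω L) (fun _ => 1) := EA_nonneg hGp.toGW L fun d _ => zero_le_one
    have n2 : 0 ≤ EA (ν L) (fun _ => 1) := EA_nonneg hGW.toGW L fun d _ => zero_le_one
    have i1 : 2 * m * EA (ω L) f ≤ EA (ω L) (fun d => f d ^ 2) + m ^ 2 * EA (ω L) (fun _ => 1) := by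
      rw [← EA_smul, ← EA_smul, ← EA_add hGp.toGW]
      refine EA_mono hGp.toGW L fun d _ => ?_
      nlinarith [sq_nonneg (f d - m)]
    have i2 : EA (ν L) (fun d => (f d - m) ^ 2) ≤ 2 * EA (ν L) (fun d => f d ^ 2) +
        2 * m ^ 2 * EA (ν L) (fun _ => 1) := by
      rw [← EA_smul, ← EA_smul, ← EA_add hGW.toGW]
      refine EA_mono hGW.toGW L fun d _ => ?_
      nlinarith [sq_nonneg (f d + m)]
    have i3 : m ^ 2 * EA (ν L) (fun _ => 1) ≤ M * E2 :=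
      mul_le_mul h3 h5 n2 ((sq_nonneg m).trans h3)
    have i4 : 0 ≤ M * E1 := mul_nonneg ((sq_nonneg m).trans h3) hE1.le
    have i5 : EA (ν L) (fun d => (f d - m) ^ 2) ≤ 2 * D' + 2 * M * E2 := by linarith
    have i6 := mul_le_mul_of_nonneg_left i5 hCs
    have i7 : 0 ≤ m ^ 2 * EA (ω L) (fun _ => 1) := mul_nonneg (sq_nonneg m) n1
    have i8 : m ^ 2 * EA (ω L) (fun _ => 1) ≤ M * E1 :=
      mul_le_mul h3 h4 n1 ((sq_nonneg m).trans h3)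
    linarith
  have hUT : ∀ L, max (max L1 L2) (max L3 L4) ≤ L → ∀ x ∈ Set.Icc (0 : ℝ) X0,
      0 ≤ U L x ∧ U L x ≤ A1 ∧ 0 ≤ T L x ∧ T L x ≤ A2 := by
    intro L hL x hx
    have hLa : L1 ≤ L := (le_max_left _ _).trans ((le_max_left _ _).trans hL)
    have hLb : L2 ≤ L := (le_max_right _ _).trans ((le_max_left _ _).trans hL)
    have hLc : L3 ≤ L := (le_max_left _ _).trans ((le_max_right _ _).trans hL)
    have hLd : L4 ≤ L := (le_max_right _ _).trans ((le_max_right _ _).trans hL)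
    have hx' : |x| ≤ X0 := by rw [abs_of_nonneg hx.1]; exact hx.2
    obtain ⟨_, g2, g3⟩ := hbd L hLa (Wf ρ κ x) (Wf1 ρ κ x) (qf ζ χ x)
      (qf1 ζ χ x) B B' (c x) (c' x) (hw1 x).1 (hw1 x).2 (hq1 x).1 (hq1 x).2
      (bmono (le_max_left _ _) (hB x hx').1) (bmono (le_max_left _ _) (hB x hx').2)
      (bmono (le_max_left _ _) (hB' x hx').1) (bmono (le_max_left _ _) (hB' x hx').2)
    obtain ⟨_, k2', k3⟩ := hbd2 L hLb (Wf ρ κ x) (Wf1 ρ κ x) (qf ζ χ x)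
      (qf1 ζ χ x) B B' (c x) (c' x) (hw1 x).1 (hw1 x).2 (hq1 x).1 (hq1 x).2
      (bmono (le_max_right _ _) (hB x hx').1) (bmono (le_max_right _ _) (hB x hx').2)
      (bmono (le_max_right _ _) (hB' x hx').1) (bmono (le_max_right _ _) (hB' x hx').2)
    have c1 := hM1' x hx
    have c2 := hM2' x hx
    have c3 := hM3' x hx
    have c4 := hM4' x hx
    refine ⟨?_, ?_, ?_, ?_⟩
    · exact (EA_nonneg hGp.toGW L fun d _ => sq_nonneg _).trans (hUle L x)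
    · refine aux L (m0 x) D1 D1' M3' (u L x) (g2.trans ?_) (k2'.trans ?_) c3 (hone L hLc)
        (hone2 L hLd)
      · rw [hD1]; gcongr
      · rw [hD1']; gcongr
    · exact (EA_nonneg hGp.toGW L fun d _ => sq_nonneg _).trans (hTle L x)
    · refine aux L (m1 x) D2 D2' M4' (v L x) (g3.trans ?_) (k3.trans ?_) c4 (hone L hLc)
        (hone2 L hLd)
      · rw [hD2]; gcongr
      · rw [hD2']; gcongr
  -- continuity of the majorants
  have hcontE : ∀ (ρ0 : ℝ → ℕ → ℝ), GW φ ρ0 → ∀ (L : ℝ) (f : ℝ → ℕ → ℝ),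
      (∀ d, Continuous fun x => f x d) → Continuous fun x => EA (ρ0 L) (fun d => f x d) := by
    intro ρ0 h0 L f hf
    obtain ⟨N, hN⟩ := EA_fin h0 L
    simp only [hN]
    exact continuous_finsetSum _ fun d _ => continuous_const.mul (hf d)
  have hUc : ∀ L, 0 < L → Continuous fun x => U L x := by
    intro L hL
    exact (((continuous_const.mul hm0c).mul (hcontE ω hGp.toGW L _ (hucont L hL))).sub
      ((hm0c.pow 2).mul continuous_const)).add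
      (continuous_const.mul (hcontE ν hGW.toGW L _ fun d => ((hucont L hL d).sub hm0c).pow 2))
  have hTc : ∀ L, 0 < L → Continuous fun x => T L x := by
    intro L hL
    exact (((continuous_const.mul hm1c).mul (hcontE ω hGp.toGW L _ (hvcont L hL))).sub
      ((hm1c.pow 2).mul continuous_const)).add
      (continuous_const.mul (hcontE ν hGW.toGW L _ fun d => ((hvcont L hL d).sub hm1c).pow 2))
  -- convergence of the integrals
  have hint : Tendsto (fun L => ∫ x in (0 : ℝ)..X0, 2 * Real.sqrt (U L x * T L x)) atTop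
      (𝓝 (∫ x in (0 : ℝ)..X0, 2 * Real.sqrt ((K * V x) * (K * W x)))) := by
    apply intervalIntegral.tendsto_integral_filter_of_dominated_convergence
      (fun _ => 2 * Real.sqrt (A1 * A2))
    · filter_upwards [eventually_ge_atTop (1 : ℝ)] with L hL
      have hL0 : 0 < L := by linarith
      apply Continuous.aestronglyMeasurable
      apply continuous_const.mul
      apply Continuous.sqrt
      exact (hUc L hL0).mul (hTc L hL0)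
    · filter_upwards [eventually_ge_atTop (max (max L1 L2) (max L3 L4))] with L hL
      apply Eventually.of_forall
      intro x hx
      rw [Set.uIoc_of_le hX0] at hx
      obtain ⟨u0, u1, t0, t1⟩ := hUT L hL x ⟨hx.1.le, hx.2⟩
      rw [Real.norm_of_nonneg (by positivity)]
      exact mul_le_mul_of_nonneg_left (Real.sqrt_le_sqrt (mul_le_mul u1 t1 t0 (u0.trans u1)))
        (by norm_num)
    · exact intervalIntegrable_const
    · apply Eventually.of_forall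
      intro x _
      obtain ⟨l1, l2⟩ := hlim x
      exact ((l1.mul l2).sqrt).const_mul 2
  have hKint : ∫ x in (0 : ℝ)..X0, 2 * Real.sqrt ((K * V x) * (K * W x)) =
      K * ∫ x in (0 : ℝ)..X0, 2 * Real.sqrt (V x * W x) := by
    rw [← intervalIntegral.integral_const_mul]
    apply intervalIntegral.integral_congr
    intro x _
    simp only
    have : (K * V x) * (K * W x) = K ^ 2 * (V x * W x) := by ring
    rw [this, Real.sqrt_mul (sq_nonneg K), Real.sqrt_sq hK0]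
    ring
  have htot := (hlim X0).1.add hint
  rw [hKint] at htot
  have hev := htot.eventually (gt_mem_nhds (show K * V X0 + K * ∫ x in (0 : ℝ)..X0,
    2 * Real.sqrt (V x * W x) < K * (V X0 + ∫ x in (0 : ℝ)..X0, 2 * Real.sqrt (V x * W x)) + ε by
      rw [mul_add]; linarith))
  obtain ⟨L0, hL0⟩ := eventually_atTop.1 (hev.and
    (eventually_ge_atTop (max 1 (max (max L1 L2) (max L3 L4)))))
  refine ⟨L0, fun L hL => ?_⟩
  obtain ⟨h1, h2⟩ := hL0 L hL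
  have hLpos : 0 < L := by
    have := (le_max_left (1 : ℝ) _).trans h2
    linarith
  have hLU := (le_max_right (1 : ℝ) _).trans h2
  obtain ⟨N, hrep⟩ := EA_fin hGp.toGW L
  have h3 := exch N (ω L) (hGp.nn L) (u L) (v L) (hucont L hLpos) (hvcont L hLpos) X0 hX0
  have e1 : ∀ x, ∑ d ∈ range N, ω L d * u L x d ^ 2 = EA (ω L) (fun d => u L x d ^ 2) :=
    fun x => (hrep _).symm
  have e2 : ∀ x, ∑ d ∈ range N, ω L d * v L x d ^ 2 = EA (ω L) (fun d => v L x d ^ 2) :=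
    fun x => (hrep _).symm
  simp only [e1, e2] at h3
  rw [← hrep] at h3
  refine h3.trans (le_trans (add_le_add (hUle L X0) ?_) h1.le)
  apply intervalIntegral.integral_mono_on hX0
  · apply Continuous.intervalIntegrable
    apply continuous_const.mul
    apply Continuous.sqrt
    exact (hcontE ω hGp.toGW L _ fun d => (hucont L hLpos d).pow 2).mul
      (hcontE ω hGp.toGW L _ fun d => (hvcont L hLpos d).pow 2)
  · apply Continuous.intervalIntegrable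
    apply continuous_const.mul
    apply Continuous.sqrt
    exact (hUc L hLpos).mul (hTc L hLpos)
  · intro x hx
    apply mul_le_mul_of_nonneg_left _ (by norm_num : (0 : ℝ) ≤ 2)
    apply Real.sqrt_le_sqrt
    refine mul_le_mul (hUle L x) (hTle L x) (EA_nonneg hGp.toGW L fun d _ => sq_nonneg _) ?_
    exact (hUT L hLU x hx).1

/-- the main range for a general average -/
theorem MRV {s' : ℝ} (hφ : FG φ) (hC : CG φ) (hGp : GE φ s' ω) (hGW : GE φ s' ν) {Cs K : ℝ}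
    (hCs : 0 ≤ Cs) (hd : ∀ L d, ω L d ≤ Cs * ν L d) (hK0 : 0 ≤ K) (hM1 : M1 φ s' K ω)
    (hM2 : M2 φ s' K ν) (δ : ℝ) (hδ : 0 < δ) (hδ1 : δ < 1 / 8) (χ : ℝ → ℝ)
    (θ' θ : ℝ) (hθ' : 0 < θ') (hθθ : θ' < θ)
    (hA : AdmV (1 / 2 + 3 * δ) θ s') (hχ : ST θ' θ χ) (c c' : ℝ → ℝ)
    (hc : ∀ x, HasDerivAt c (c' x) x) (hc' : Continuous c') (X0 : ℝ) (hX0 : 0 ≤ X0) (ε : ℝ)
    (hε : 0 < ε) :
    ∃ L0 : ℝ, ∀ L : ℝ, L0 ≤ L →
      EA (ω L) ((SFg φ ∩ {d | bad1g φ L X0 d}).indicator (fun _ => 1)) ≤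
      K * (vv (c X0) (Bx χ X0) (Cs * nx χ) (ax X0) +
        ∫ x in (0 : ℝ)..X0, 2 * Real.sqrt (vv (c x) (Bx χ x) (Cs * nx χ) (ax x) *
          ww (c x) (c' x) (Bx χ x) (Bx1 χ x) (Cs * nx χ) (ax x) (ax1 x) (ax2 x))) + ε := by
  obtain ⟨w1, w2, w3⟩ := Pool.Agent.H692R2.RZ2W0.W0
  obtain ⟨ρ, hρ⟩ := w1 δ hδ
  obtain ⟨κ, hκ⟩ := w2 δ 1 hδ one_pos
  obtain ⟨ζ, hζ⟩ := w3 (-1 / 2) (-1 / 4) (by norm_num)
  obtain ⟨L1, h1⟩ := MR3V hφ hGp hGW hCs hd hK0 hM1 hM2 δ 1 hδ hδ1 one_pos le_rfl ρ κ ζ χ hρ hκ hζ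
    θ' θ hθ' hθθ hA hχ c c' hc hc' X0 hX0 (ε / 2) (by linarith)
  obtain ⟨L2, h2⟩ := MR4G hφ hGp δ 1 hδ hδ1 one_pos le_rfl ρ κ ζ χ hρ hκ hζ θ' θ hθ' hθθ
    hA hχ c c' hc hc' X0 hX0 (ε / 2) (by linarith)
  refine ⟨max (max L1 L2) (4 * X0 + 1), fun L hL => ?_⟩
  have hL1 : L1 ≤ L := le_trans (le_trans (le_max_left _ _) (le_max_left _ _)) hL
  have hL2 : L2 ≤ L := le_trans (le_trans (le_max_right _ _) (le_max_left _ _)) hL
  have hL3 : 4 * X0 + 1 ≤ L := le_trans (le_max_right _ _) hL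
  have k1 := h1 L hL1
  have k2 := h2 L hL2
  obtain ⟨A, hAd⟩ : ∃ A : ℕ → ℝ, A = fun d => Gtg φ L ρ ζ χ c d X0 ^ 2 +
      ∫ x in (0 : ℝ)..X0, 2 * |Gtg φ L ρ ζ χ c d x| * |Gt1g φ L ρ ζ χ c c' d x| := ⟨_, rfl⟩
  obtain ⟨B, hBd⟩ : ∃ B : ℕ → ℝ, B = fun d => G0g φ 2 L (c X0) (Wf ρ κ X0) (qf ζ χ X0) d ^ 2 +
        ∫ x in (0 : ℝ)..X0, 2 * |G0g φ 2 L (c x) (Wf ρ κ x) (qf ζ χ x) d| *
          |G1g φ 2 L (c x) (c' x) (Wf ρ κ x) (Wf1 ρ κ x) (qf ζ χ x) (qf1 ζ χ x) d| := ⟨_, rfl⟩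
  have hB0 : ∀ d, 0 ≤ B d := by
    intro d
    rw [hBd]
    refine add_nonneg (sq_nonneg _) (intervalIntegral.integral_nonneg hX0 fun x _ => ?_)
    positivity
  rw [← hBd] at k1
  have k2' : EA (ω L) (fun d => |A d - B d|) ≤ ε / 2 := by
    rw [hAd, hBd]
    exact k2
  have k3 : EA (ω L) ((SFg φ ∩ {d | bad1g φ L X0 d}).indicator (fun _ => 1)) ≤
      EA (ω L) B + EA (ω L) (fun d => |A d - B d|) := by
    rw [← EA_add hGp.toGW]
    refine EA_mono hGp.toGW L fun d _ => ?_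
    by_cases hd : d ∈ SFg φ ∩ {d | bad1g φ L X0 d}
    · rw [Set.indicator_of_mem hd]
      obtain ⟨⟨ho, hsq⟩, hbad⟩ := hd
      have h5 : 1 ≤ A d := by
        rw [hAd]
        exact LnkB.MR5G φ hφ hC δ hδ hδ1 ρ ζ χ hρ hζ θ' θ hθ' hθθ hA.hθ1 hχ c c' hc hc' X0 hX0 L hL3
          d ⟨ho, hsq⟩ hbad
      have := le_abs_self (A d - B d)
      linarith
    · rw [Set.indicator_of_notMem hd]
      have := abs_nonneg (A d - B d)
      have := hB0 d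
      linarith
  linarith

end

end Pool.Agent.N782.GA
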