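import Pool.Agent.N782.KWa
import Pool.Agent.H130R2.RZ_MT1

set_option autoImplicit false

/-! Weighted kernel of the diagonal (helper782). -/

namespace Pool.Agent.N782.KW

open Finset Filter Topology MeasureTheory Pool.Agent.N782.LX Pool.Agent.N782.EW
open Pool.Agent.H306R2.RZ Pool.Agent.H930R3.RZID
open Pool.Agent.H25R2.RZM1 (aa En Ed aa_prod aa_bound aa_lim zeta_ne lf1_eq half_le le_half
  mul_le_one' Ed_ge En_eq Ed_eq cp_norm)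
open Pool.Agent.H130R2.RZ1 (zz zz_re zz_im add_le_mul KR ne_zero_of_re)

noncomputable section

theorem dvd_two_mul {e : ℕ} (_he : Odd e) (p : Nat.Primes) :
    (p : ℕ) ∣ 2 * e ↔ (p : ℕ) ∣ 2 ∨ (p : ℕ) ∣ e := by
  rw [p.2.dvd_mul]

theorem one_sub_prod4 {x : ℝ} (hx : 0 ≤ x) (hx1 : x ≤ 1) {a b c d : ℂ} (ha : ‖a‖ ≤ 1) (hb : ‖b‖ ≤ 1)
    (hc : ‖c‖ ≤ 1) (hd : ‖d‖ ≤ 1) :
    ‖(1 - x * a) * (1 - x * b) * ((1 - x * c) * (1 - x * d)) - 1‖ ≤ 15 * x := by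
  have hxn : ‖(x : ℂ)‖ = x := by rw [Complex.norm_real, Real.norm_of_nonneg hx]
  have h1 : ∀ u : ℂ, ‖u‖ ≤ 1 → ‖1 - (x : ℂ) * u‖ ≤ 2 := fun u hu => by
    refine (norm_sub_le _ _).trans ?_
    rw [norm_one, norm_mul, hxn]
    nlinarith [norm_nonneg u]
  have h2 : ∀ u v : ℂ, ‖u‖ ≤ 1 → ‖v - 1‖ ≤ 15 * x → True := fun _ _ _ _ => trivial
  have step : ∀ (u v : ℂ) (k : ℝ), ‖u‖ ≤ 1 → 0 ≤ k → ‖v - 1‖ ≤ k * x →
      ‖(1 - x * u) * v - 1‖ ≤ (2 * k + 1) * x := by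
    intro u v k hu hk hv
    have e : (1 - x * u) * v - 1 = (1 - x * u) * (v - 1) + (-(x * u)) := by ring
    rw [e]
    refine (norm_add_le _ _).trans ?_
    rw [norm_mul, norm_neg, norm_mul, hxn]
    have := mul_le_mul (h1 u hu) hv (norm_nonneg _) (by norm_num)
    nlinarith [norm_nonneg u]
  have t0 : ‖(1 : ℂ) - 1‖ ≤ 0 * x := by simp
  have t1 := step d 1 0 hd le_rfl t0
  have t2 := step c _ _ hc (by norm_num) t1
  have t3 := step b _ _ hb (by norm_num) t2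
  have t4 := step a _ _ ha (by norm_num) t3
  have e : (1 - x * a) * (1 - x * b) * ((1 - x * c) * (1 - x * d)) =
      (1 - x * a) * ((1 - x * b) * ((1 - x * c) * ((1 - x * d) * 1))) := by ring
  rw [e]
  refine t4.trans ?_
  nlinarith

/-- the local factor at the primes dividing the modulus -/
theorem aa0_bound (z : Fin 4 → ℂ) (hz : ∀ i, 0 < (z i).re) (p : Nat.Primes) :
    ‖aa 0 z p - 1‖ ≤ 1448 / ((p : ℕ) : ℝ) := by
  have hU := cp_norm p (z 0) (hz 0).le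
  have hV := cp_norm p (z 1) (hz 1).le
  have hA := cp_norm p (z 2) (hz 2).le
  have hB := cp_norm p (z 3) (hz 3).le
  unfold aa
  rw [lf1_eq, if_pos (dvd_zero _), one_mul]
  generalize ((p : ℕ) : ℂ) ^ (-(z 0)) = U at *
  generalize ((p : ℕ) : ℂ) ^ (-(z 1)) = V at *
  generalize ((p : ℕ) : ℂ) ^ (-(z 2)) = A at *
  generalize ((p : ℕ) : ℂ) ^ (-(z 3)) = B at *
  have hp0 : (0 : ℝ) < (p : ℕ) := by exact_mod_cast p.2.pos
  set x : ℝ := ((p : ℕ) : ℝ)⁻¹ with hxd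
  have hx : 0 ≤ x := by positivity
  have hx1 : x ≤ 1 / 2 := by
    rw [hxd, inv_le_comm₀ hp0 (by norm_num)]
    norm_num
    exact p.2.two_le
  have hxc : (((p : ℕ) : ℂ))⁻¹ = (x : ℂ) := by rw [hxd]; push_cast; rfl
  have hU2 : ‖U ^ 2‖ ≤ 1 := by rw [norm_pow]; exact pow_le_one₀ (norm_nonneg _) hU
  have hV2 : ‖V ^ 2‖ ≤ 1 := by rw [norm_pow]; exact pow_le_one₀ (norm_nonneg _) hV
  have hd := Ed_ge hx hx1 hU hV hA hB
  rw [En_eq, Ed_eq, hxc]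
  have h1 := one_sub_prod4 hx (by linarith) hU2 hV2 (mul_le_one' hU hV) (mul_le_one' hA hB)
  have h2 := one_sub_prod4 hx (by linarith) (mul_le_one' hU hA) (mul_le_one' hU hB)
    (mul_le_one' hV hA) (mul_le_one' hV hB)
  generalize (1 - (x:ℂ) * U ^ 2) * (1 - x * V ^ 2) * ((1 - x * (U * V)) * (1 - x * (A * B))) = N at *
  generalize (1 - (x:ℂ) * (U * A)) * (1 - x * (U * B)) *
        ((1 - x * (V * A)) * (1 - x * (V * B))) = G at *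
  have hG : G ≠ 0 := by
    intro h
    rw [h, norm_zero] at hd
    norm_num at hd
  have e : N / G - 1 = (N - G) / G := by field_simp
  rw [e, norm_div, div_le_iff₀ (by linarith)]
  have h3 : ‖N - G‖ ≤ 30 * x := by
    have : N - G = (N - 1) - (G - 1) := by ring
    rw [this]
    refine (norm_sub_le _ _).trans ?_
    linarith
  have h4 : (1448 : ℝ) / ((p : ℕ) : ℝ) = 1448 * x := by rw [hxd]; rfl
  rw [h4]
  nlinarith

theorem aa_two_mul {e : ℕ} (he : Odd e) (z : Fin 4 → ℂ) (p : Nat.Primes) :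
    aa (2 * e) z p = if (p : ℕ) ∣ e then aa 0 z p else aa 2 z p := by
  have h := dvd_two_mul he p
  unfold aa
  rw [lf1_eq, lf1_eq, lf1_eq]
  by_cases h1 : (p : ℕ) ∣ e
  · rw [if_pos (h.2 (Or.inr h1)), if_pos (dvd_zero _), if_pos h1]
  · rw [if_neg h1]
    by_cases h2 : (p : ℕ) ∣ 2
    · rw [if_pos (h.2 (Or.inl h2)), if_pos h2]
    · rw [if_neg (fun h' => (h.1 h').elim h2 h1), if_neg h2]

/-- the factor with the zeta functions -/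
def Z1 (L : ℝ) (τ : Fin 4 → ℝ) : ℂ :=
  riemannZeta (1 + (2 * zz 1 (τ 0)) / (L : ℂ)) * riemannZeta (1 + (2 * zz 1 (τ 1)) / (L : ℂ)) *
      riemannZeta (1 + (zz 1 (τ 0) + zz 1 (τ 1)) / (L : ℂ)) *
      riemannZeta (1 + (zz 1 (τ 2) + zz 1 (τ 3)) / (L : ℂ)) *
      (riemannZeta (1 + (zz 1 (τ 0) + zz 1 (τ 2)) / (L : ℂ)))⁻¹ *
      (riemannZeta (1 + (zz 1 (τ 0) + zz 1 (τ 3)) / (L : ℂ)))⁻¹ *
      (riemannZeta (1 + (zz 1 (τ 1) + zz 1 (τ 2)) / (L : ℂ)))⁻¹ *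
      (riemannZeta (1 + (zz 1 (τ 1) + zz 1 (τ 3)) / (L : ℂ)))⁻¹

theorem D1_fac {e : ℕ} (he : Odd e) (L : ℝ) (hL : 0 < L) (τ : Fin 4 → ℝ) :
    DD1 (2 * e) (fun i => zz 1 (τ i) / (L : ℂ)) = Z1 L τ *
      Vn (aa 2 (fun i => zz 1 (τ i) / (L : ℂ))) (aa 0 (fun i => zz 1 (τ i) / (L : ℂ))) e := by
  have hz : ∀ i : Fin 4, 0 < (zz 1 (τ i) / (L : ℂ)).re := fun i => by
    rw [Complex.div_ofReal_re, zz_re]; positivity
  have h := (aa_prod (2 * e) (fun i => zz 1 (τ i) / (L : ℂ)) hz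
    (Pool.Agent.H166R2.RZ.M1e (2 * e) _ hz)).tprod_eq
  have hV : Vn (aa 2 (fun i => zz 1 (τ i) / (L : ℂ))) (aa 0 (fun i => zz 1 (τ i) / (L : ℂ))) e =
      ∏' p : Nat.Primes, aa (2 * e) (fun i => zz 1 (τ i) / (L : ℂ)) p := by
    unfold Vn
    refine tprod_congr fun p => ?_
    rw [aa_two_mul he]
  rw [hV, h]
  unfold Z1
  have hre : ∀ i j : Fin 4, 0 < (zz 1 (τ i) / (L : ℂ) + zz 1 (τ j) / (L : ℂ)).re := fun i j => by
    rw [Complex.add_re]; exact add_pos (hz i) (hz j)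
  have h2 : ∀ i : Fin 4, 0 < (2 * (zz 1 (τ i) / (L : ℂ))).re := fun i => by
    rw [two_mul]; exact hre i i
  simp only [add_div, mul_div_assoc]
  have n1 := zeta_ne (h2 0)
  have n2 := zeta_ne (h2 1)
  have n3 := zeta_ne (hre 0 1)
  have n4 := zeta_ne (hre 2 3)
  have n5 := zeta_ne (hre 0 2)
  have n6 := zeta_ne (hre 0 3)
  have n7 := zeta_ne (hre 1 2)
  have n8 := zeta_ne (hre 1 3)
  generalize riemannZeta (1 + 2 * (zz 1 (τ 0) / (L : ℂ))) = x1 at *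
  generalize riemannZeta (1 + 2 * (zz 1 (τ 1) / (L : ℂ))) = x2 at *
  generalize riemannZeta (1 + (zz 1 (τ 0) / (L : ℂ) + zz 1 (τ 1) / (L : ℂ))) = x3 at *
  generalize riemannZeta (1 + (zz 1 (τ 2) / (L : ℂ) + zz 1 (τ 3) / (L : ℂ))) = x4 at *
  generalize riemannZeta (1 + (zz 1 (τ 0) / (L : ℂ) + zz 1 (τ 2) / (L : ℂ))) = x5 at *
  generalize riemannZeta (1 + (zz 1 (τ 0) / (L : ℂ) + zz 1 (τ 3) / (L : ℂ))) = x6 at *
  generalize riemannZeta (1 + (zz 1 (τ 1) / (L : ℂ) + zz 1 (τ 2) / (L : ℂ))) = x7 at *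
  generalize riemannZeta (1 + (zz 1 (τ 1) / (L : ℂ) + zz 1 (τ 3) / (L : ℂ))) = x8 at *
  field_simp

theorem Z1_bound : ∃ C : ℝ, 0 ≤ C ∧ ∀ L : ℝ, 1 ≤ L → ∀ τ : Fin 4 → ℝ,
    ‖Z1 L τ‖ ≤ C * ∏ i, (1 + |τ i|) ^ 4 := by
  obtain ⟨⟨C, hC, hz⟩, -⟩ := Pool.Agent.H727R2.RZMZ.MZ 2 two_pos
  refine ⟨C ^ 8, by positivity, fun L hL τ => ?_⟩
  have hL0 : 0 < L := by linarith
  have e0 : ∀ t : ℝ, (2 * zz 1 t).re = 2 := fun t => by simp [zz]
  have e1 : ∀ t u : ℝ, (zz 1 t + zz 1 u).re = 2 := fun t u => by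
    rw [Complex.add_re, zz_re, zz_re]; norm_num
  have e2 : ∀ t u : ℝ, (zz 1 t + zz 1 u).im = t + u := fun t u => by
    rw [Complex.add_im, zz_im, zz_im]
  have b1 : ∀ t u : ℝ, ‖(riemannZeta (1 + (zz 1 t + zz 1 u) / (L : ℂ)))⁻¹‖ ≤
      C * ((1 + |t|) ^ 2 * (1 + |u|) ^ 2) / L := by
    intro t u
    refine ((hz L _ hL (e1 t u)).2).trans ?_
    rw [e2, ← mul_pow]
    gcongr
    exact add_le_mul t u
  have b2 : ∀ t u : ℝ, ‖riemannZeta (1 + (zz 1 t + zz 1 u) / (L : ℂ))‖ ≤ C * L :=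
    fun t u => (hz L _ hL (e1 t u)).1
  have b3 : ∀ t : ℝ, ‖riemannZeta (1 + (2 * zz 1 t) / (L : ℂ))‖ ≤ C * L :=
    fun t => (hz L _ hL (e0 t)).1
  unfold Z1
  simp only [norm_mul]
  calc _ ≤ (C * L) * (C * L) * (C * L) * (C * L) * (C * ((1 + |τ 0|) ^ 2 * (1 + |τ 2|) ^ 2) / L) *
        (C * ((1 + |τ 0|) ^ 2 * (1 + |τ 3|) ^ 2) / L) *
        (C * ((1 + |τ 1|) ^ 2 * (1 + |τ 2|) ^ 2) / L) *
        (C * ((1 + |τ 1|) ^ 2 * (1 + |τ 3|) ^ 2) / L) := by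
        gcongr
        · exact b3 _
        · exact b3 _
        · exact b2 _ _
        · exact b2 _ _
        · exact b1 _ _
        · exact b1 _ _
        · exact b1 _ _
        · exact b1 _ _
    _ = C ^ 8 * ∏ i, (1 + |τ i|) ^ 4 := by
        rw [Fin.prod_univ_four]
        field_simp

theorem Z1_lim (τ : Fin 4 → ℝ) : Tendsto (fun L : ℝ => Z1 L τ) atTop (𝓝 (KR τ)) := by
  obtain ⟨-, hz⟩ := Pool.Agent.H727R2.RZMZ.MZ 2 two_pos
  have hp : ∀ t : ℝ, 0 < (zz 1 t).re := fun t => by rw [zz_re]; exact one_pos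
  have e0 : ∀ t : ℝ, 0 < (2 * zz 1 t).re := fun t => by simp [zz]
  have e1 : ∀ t u : ℝ, 0 < (zz 1 t + zz 1 u).re := fun t u => by
    rw [Complex.add_re, zz_re, zz_re]; norm_num
  have l1 : ∀ t u : ℝ, Tendsto (fun L : ℝ => (riemannZeta (1 + (zz 1 t + zz 1 u) / (L : ℂ)) / (L : ℂ))⁻¹)
      atTop (𝓝 (1 / (zz 1 t + zz 1 u))⁻¹) := fun t u =>
    (hz _ (e1 t u)).inv₀ (one_div_ne_zero (ne_zero_of_re (e1 t u)))
  have l2 : ∀ t u : ℝ, Tendsto (fun L : ℝ => riemannZeta (1 + (zz 1 t + zz 1 u) / (L : ℂ)) / (L : ℂ))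
      atTop (𝓝 (1 / (zz 1 t + zz 1 u))) := fun t u => hz _ (e1 t u)
  have l3 : ∀ t : ℝ, Tendsto (fun L : ℝ => riemannZeta (1 + (2 * zz 1 t) / (L : ℂ)) / (L : ℂ))
      atTop (𝓝 (1 / (2 * zz 1 t))) := fun t => hz _ (e0 t)
  have key := (((((((l3 (τ 0)).mul (l3 (τ 1))).mul (l2 (τ 0) (τ 1))).mul (l2 (τ 2) (τ 3))).mul
    (l1 (τ 0) (τ 2))).mul (l1 (τ 0) (τ 3))).mul (l1 (τ 1) (τ 2))).mul (l1 (τ 1) (τ 3))
  refine Tendsto.congr' ?_ (key.trans (le_of_eq ?_))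
  · filter_upwards [eventually_gt_atTop 0] with L hL
    unfold Z1
    have hLC : (L : ℂ) ≠ 0 := by exact_mod_cast hL.ne'
    simp only [inv_div]
    field_simp
  · congr 1
    have n1 : ∀ t : ℝ, (1 + (t : ℂ) * Complex.I) ≠ 0 := fun t => by
      have := ne_zero_of_re (hp t)
      simpa [zz] using this
    have n2 : ∀ t u : ℝ, ((1 + (t : ℂ) * Complex.I) + (1 + (u : ℂ) * Complex.I)) ≠ 0 := fun t u => by
      have := ne_zero_of_re (e1 t u)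
      simpa [zz] using this
    unfold KR zz
    simp only [Complex.ofReal_one, one_div, inv_inv]
    have m1 := n1 (τ 0)
    have m2 := n1 (τ 1)
    have m3 := n2 (τ 0) (τ 1)
    have m4 := n2 (τ 2) (τ 3)
    generalize (1 + (τ 0 : ℂ) * Complex.I) = u at *
    generalize (1 + (τ 1 : ℂ) * Complex.I) = v at *
    generalize (1 + (τ 2 : ℂ) * Complex.I) = a at *
    generalize (1 + (τ 3 : ℂ) * Complex.I) = b at *
    field_simp
    ring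

/-- the kernel of the diagonal -/
theorem ker1 : ∃ CZ : ℝ, Ker 4 1 (fun e L τ => DD1 (2 * e) (fun i => zz 1 (τ i) / (L : ℂ)))
    Z1 (fun L τ => aa 2 (fun i => zz 1 (τ i) / (L : ℂ)))
    (fun L τ => aa 0 (fun i => zz 1 (τ i) / (L : ℂ))) 1448 CZ 4 := by
  obtain ⟨CZ, hCZ, hb⟩ := Z1_bound
  have hre : ∀ (L : ℝ), 1 ≤ L → ∀ (τ : Fin 4 → ℝ) (i : Fin 4), 0 < (zz 1 (τ i) / (L : ℂ)).re :=
    fun L hL τ i => by rw [Complex.div_ofReal_re, zz_re]; positivity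
  refine ⟨CZ, ⟨?_, ?_, ?_, ?_, ?_, ?_⟩⟩
  · intro e he hs L hL
    have hw : Wt (0 : ℝ) (fun _ => 0) := ⟨contDiff_const, fun y h => absurd rfl h⟩
    exact (Pool.Agent.H130R2.RZ1.repr (2 * e) L (by linarith) 0 _ _ _ _ hw hw hw hw).2
  · intro e he hs
    obtain ⟨C, hC⟩ := Pool.Agent.H130R2.RZ1.dd1_bound (2 * e)
      (Nat.mul_ne_zero two_ne_zero hs.ne_zero)
    exact ⟨C, hC⟩
  · intro e he hs L hL τ
    exact D1_fac he L (by linarith) τ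
  · intro L hL τ p
    refine (aa_bound 2 two_ne_zero _ (hre L hL τ) p).trans (le_of_eq ?_)
    norm_num
  · intro L hL τ p
    exact aa0_bound _ (hre L hL τ) p
  · intro L hL τ
    exact hb L hL τ

end

end Pool.Agent.N782.KW
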