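import Pool.Agent.N782.MW1
import Pool.Agent.H80R2.RG.MT2G

set_option autoImplicit false

/-! Weighted kernel of the off-diagonal (helper782). -/

namespace Pool.Agent.N782.KW

open Finset Filter Topology MeasureTheory Pool.Agent.N782.LX Pool.Agent.N782.EW
open Pool.Agent.H306R2.RZ Pool.Agent.H306R2.RG Pool.Agent.H930R3.RZID
open Pool.Agent.H423R2.RZL.M2n (ap ap_bound ap_tendsto bp bp_prod q_bound norm_pw norm_inv_le
  numq denq key)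

noncomputable section

/-! ### multiplicative factors in `Vn` -/

theorem ind_prod (S : Finset Nat.Primes) (r : Nat.Primes → ℂ) :
    HasProd (fun p : Nat.Primes => if (p : ℕ) ∣ nn S then r p else 1) (∏ p ∈ S, r p) := by
  have h : HasProd (fun p : Nat.Primes => if (p : ℕ) ∣ nn S then r p else 1)
      (∏ p ∈ S, (if (p : ℕ) ∣ nn S then r p else 1)) := by
    refine hasProd_prod_of_ne_finset_one ?_
    intro p hp
    rw [if_neg]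
    intro hd
    exact hp ((dvd_nn S p).1 hd)
  have e : ∏ p ∈ S, (if (p : ℕ) ∣ nn S then r p else 1) = ∏ p ∈ S, r p :=
    Finset.prod_congr rfl fun p hp => by rw [if_pos ((dvd_nn S p).2 hp)]
  rw [e] at h
  exact h

theorem Vn_mul_left (S : Finset Nat.Primes) (r A B : Nat.Primes → ℂ)
    (hm : Multipliable (fun p : Nat.Primes => if (p : ℕ) ∣ nn S then B p else A p)) :
    Vn A (fun p => r p * B p) (nn S) = (∏ p ∈ S, r p) * Vn A B (nn S) := by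
  have h := (ind_prod S r).mul hm.hasProd
  unfold Vn
  rw [← h.tprod_eq]
  refine tprod_congr fun p => ?_
  split_ifs
  · rfl
  · rw [one_mul]

theorem primeFactors_nn (S : Finset Nat.Primes) :
    (nn S).primeFactors = S.map ⟨fun p : Nat.Primes => (p : ℕ), Subtype.coe_injective⟩ := by
  ext p
  rw [Finset.mem_map]
  constructor
  · intro h
    have hp := Nat.prime_of_mem_primeFactors h
    refine ⟨⟨p, hp⟩, ?_, rfl⟩
    exact (dvd_nn S ⟨p, hp⟩).1 (Nat.dvd_of_mem_primeFactors h)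
  · rintro ⟨r, hr, rfl⟩
    exact Nat.mem_primeFactors.2 ⟨r.2, (dvd_nn S r).2 hr, nn_ne S⟩

theorem nu_two_mul (S : Finset Nat.Primes) (hS : Odd (nn S)) :
    nu (2 * nn S) = nu 2 * ∏ p ∈ S, ((p : ℕ) : ℝ) / (((p : ℕ) : ℝ) + 1) := by
  unfold nu
  have hc : Nat.Coprime 2 (nn S) := Nat.coprime_two_left.2 hS
  rw [hc.primeFactors_mul, Finset.prod_union (hc.disjoint_primeFactors), primeFactors_nn S,
    Finset.prod_map]
  rfl

theorem Pc_two_mul (S : Finset Nat.Primes) (hS : Odd (nn S)) :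
    (Pc (2 * nn S) : ℂ) = (Pc 2 : ℂ) *
      ∏ p ∈ S, (((p : ℕ) : ℂ) / (((p : ℕ) : ℂ) + 1)) := by
  unfold Pc
  rw [nu_two_mul S hS]
  push_cast
  ring

/-! ### local factors -/

/-- `p/(p+1)` -/
def rp (p : Nat.Primes) : ℂ := ((p : ℕ) : ℂ) / (((p : ℕ) : ℂ) + 1)

theorem rp_bound (p : Nat.Primes) : ‖rp p‖ ≤ 1 ∧ ‖rp p - 1‖ ≤ 1 / ((p : ℕ) : ℝ) := by
  have hp : (0 : ℝ) < (p : ℕ) := by exact_mod_cast p.2.pos
  have e : rp p = ((((p : ℕ) : ℝ) / (((p : ℕ) : ℝ) + 1) : ℝ) : ℂ) := by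
    unfold rp; push_cast; rfl
  have e1 : rp p - 1 = (((((p : ℕ) : ℝ) / (((p : ℕ) : ℝ) + 1) - 1 : ℝ)) : ℂ) := by
    rw [e]; push_cast; rfl
  rw [e1, e, Complex.norm_real, Complex.norm_real, Real.norm_eq_abs, Real.norm_eq_abs]
  constructor
  · rw [abs_of_pos (by positivity), div_le_one (by positivity)]
    linarith
  · have : ((p : ℕ) : ℝ) / (((p : ℕ) : ℝ) + 1) - 1 = -(1 / (((p : ℕ) : ℝ) + 1)) := by
      field_simp
      ring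
    rw [this, abs_neg, abs_of_pos (by positivity)]
    exact one_div_le_one_div_of_le hp (by linarith)

theorem ap_two_mul {e : ℕ} (he : Odd e) (s : ℂ) (z : Fin 3 → ℂ) (p : Nat.Primes) :
    ap (2 * e) s z p = if (p : ℕ) ∣ e then ap 0 s z p else ap 2 s z p := by
  have h := dvd_two_mul he p
  unfold ap
  by_cases h1 : (p : ℕ) ∣ e
  · rw [if_pos (h.2 (Or.inr h1)), if_pos (dvd_zero _), if_pos h1]
  · rw [if_neg h1]
    by_cases h2 : (p : ℕ) ∣ 2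
    · rw [if_pos (h.2 (Or.inl h2)), if_pos h2]
    · rw [if_neg (fun h' => (h.1 h').elim h2 h1), if_neg h2]

theorem ap0_bound (s : ℂ) (z : Fin 3 → ℂ) (hs : 0 < s.re)
    (hz : ∀ i, s.re < (z i).re) (p : ℕ) (hp : p.Prime) :
    ‖ap 0 s z p - 1‖ ≤ 352 / (p : ℝ) := by
  have hz0 : ∀ i, 0 < (z i).re := fun i => lt_trans hs (hz i)
  have hzs : ∀ i, 0 < (z i - s).re := fun i => by rw [Complex.sub_re]; linarith [hz i]
  have hx := norm_inv_le hp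
  have hxn : ‖1 / (p : ℂ)‖ = 1 / (p : ℝ) := by
    rw [norm_div, norm_one, Complex.norm_natCast]
  unfold ap
  rw [if_pos (dvd_zero _)]
  refine le_trans (q_bound (norm_pw hp (hz0 1)) (norm_pw hp (hz0 2)) (norm_pw hp (hz0 0))
      (norm_pw hp (hzs 0)) (norm_pw hp (hzs 1)) (norm_pw hp (hzs 2)) hx) ?_
  rw [hxn]
  exact le_of_eq (by ring)

theorem B2_bound (s : ℂ) (z : Fin 3 → ℂ) (hs : 0 < s.re)
    (hz : ∀ i, s.re < (z i).re) (p : Nat.Primes) :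
    ‖rp p * ap 0 s z p - 1‖ ≤ 353 / ((p : ℕ) : ℝ) := by
  obtain ⟨h1, h2⟩ := rp_bound p
  have h3 := ap0_bound s z hs hz p p.2
  have e : rp p * ap 0 s z p - 1 = rp p * (ap 0 s z p - 1) + (rp p - 1) := by ring
  rw [e]
  refine (norm_add_le _ _).trans ?_
  rw [norm_mul]
  have : ‖rp p‖ * ‖ap 0 s z p - 1‖ ≤ 1 * (352 / ((p : ℕ) : ℝ)) :=
    mul_le_mul h1 h3 (norm_nonneg _) zero_le_one
  have e2 : (353 : ℝ) / ((p : ℕ) : ℝ) = 1 * (352 / ((p : ℕ) : ℝ)) + 1 / ((p : ℕ) : ℝ) := by ring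
  linarith

theorem B2_lim (s : ℂ) (z : Fin 3 → ℂ) (p : Nat.Primes) (hp : p ≠ P2) :
    Tendsto (fun L : ℝ => rp p * ap 0 (s / (L : ℂ)) (fun i => z i / (L : ℂ)) p) atTop
      (𝓝 (bp 2 p)) := by
  have h := (ap_tendsto 0 s z p p.2).const_mul (rp p)
  refine h.trans (le_of_eq ?_)
  congr 1
  unfold bp rp
  rw [if_pos (dvd_zero _), if_neg]
  · have h0 : ((p : ℕ) : ℂ) ≠ 0 := by exact_mod_cast p.2.ne_zero
    have h1 : ((p : ℕ) : ℂ) + 1 ≠ 0 := by exact_mod_cast Nat.succ_ne_zero (p : ℕ)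
    field_simp
  · intro h2
    have h3 := (Nat.prime_dvd_prime_iff_eq p.2 Nat.prime_two).1 h2
    exact hp (Subtype.ext h3)

/-- the Euler product of the off-diagonal -/
theorem DD2_prod (q : ℕ) (hq0 : q ≠ 0) (s : ℂ) (z : Fin 3 → ℂ) (hs : 0 < s.re)
    (hz : ∀ i, s.re < (z i).re) : DD2 q s z =
      riemannZeta (1 + (z 1 + z 2)) * riemannZeta (1 + 2 * z 0) * riemannZeta (1 + (z 0 - s)) *
      (riemannZeta (1 + (z 1 + z 0)))⁻¹ * (riemannZeta (1 + (z 2 + z 0)))⁻¹ *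
      (riemannZeta (1 + (z 1 - s)))⁻¹ * (riemannZeta (1 + (z 2 - s)))⁻¹ *
      (∏' p : Nat.Primes, ap q s z p) ∧ Multipliable (fun p : Nat.Primes => ap q s z p) := by
  have hz0 : ∀ i, 0 < (z i).re := fun i => lt_trans hs (hz i)
  have hM := Pool.Agent.H853R2.RZM2e.M2e q s hs z hz
  have hE := Pool.Agent.H83R2.RZ.EPg (fun _ p => ap q s z p) (fun p => ap q s z p) (1792 + 352 * (q : ℝ))
    (fun _ p => ap_bound q hq0 s z hs hz p p.2) (fun p => tendsto_const_nhds)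
  refine ⟨?_, hE.2.2.1⟩
  have hA : HasProd (fun p : Nat.Primes => ap q s z p) (∏' p : Nat.Primes, ap q s z p) :=
    (hE.2.2.1).hasProd
  have r1 : 1 < (1 + (z 1 + z 2)).re := by
    simp only [Complex.add_re, Complex.one_re]; linarith [hz0 1, hz0 2]
  have r2 : 1 < (1 + 2 * z 0).re := by
    simp only [Complex.add_re, Complex.one_re, Complex.mul_re, Complex.re_ofNat, Complex.im_ofNat]
    linarith [hz0 0]
  have r3 : 1 < (1 + (z 0 - s)).re := by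
    simp only [Complex.add_re, Complex.one_re, Complex.sub_re]; linarith [hz 0]
  have r4 : 1 < (1 + (z 1 + z 0)).re := by
    simp only [Complex.add_re, Complex.one_re]; linarith [hz0 1, hz0 0]
  have r5 : 1 < (1 + (z 2 + z 0)).re := by
    simp only [Complex.add_re, Complex.one_re]; linarith [hz0 2, hz0 0]
  have r6 : 1 < (1 + (z 1 - s)).re := by
    simp only [Complex.add_re, Complex.one_re, Complex.sub_re]; linarith [hz 1]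
  have r7 : 1 < (1 + (z 2 - s)).re := by
    simp only [Complex.add_re, Complex.one_re, Complex.sub_re]; linarith [hz 2]
  have hL := hM.mul ((((riemannZeta_eulerProduct_hasProd r4).mul
    (riemannZeta_eulerProduct_hasProd r5)).mul (riemannZeta_eulerProduct_hasProd r6)).mul
    (riemannZeta_eulerProduct_hasProd r7))
  have hR := hA.mul (((riemannZeta_eulerProduct_hasProd r1).mul
    (riemannZeta_eulerProduct_hasProd r2)).mul (riemannZeta_eulerProduct_hasProd r3))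
  have hfun : (fun p : Nat.Primes => lf2 q s z p *
      ((1 - ((p : ℕ) : ℂ) ^ (-(1 + (z 1 + z 0))))⁻¹ * (1 - ((p : ℕ) : ℂ) ^ (-(1 + (z 2 + z 0))))⁻¹ *
    (1 - ((p : ℕ) : ℂ) ^ (-(1 + (z 1 - s))))⁻¹ * (1 - ((p : ℕ) : ℂ) ^ (-(1 + (z 2 - s))))⁻¹)) =
    (fun p : Nat.Primes => ap q s z p *
      ((1 - ((p : ℕ) : ℂ) ^ (-(1 + (z 1 + z 2))))⁻¹ * (1 - ((p : ℕ) : ℂ) ^ (-(1 + 2 * z 0)))⁻¹ *
    (1 - ((p : ℕ) : ℂ) ^ (-(1 + (z 0 - s))))⁻¹)) := by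
    funext p
    exact key q s z hs hz p p.2
  have hval : DD2 q s z * (riemannZeta (1 + (z 1 + z 0)) * riemannZeta (1 + (z 2 + z 0)) *
      riemannZeta (1 + (z 1 - s)) * riemannZeta (1 + (z 2 - s))) =
      (∏' p : Nat.Primes, ap q s z p) * (riemannZeta (1 + (z 1 + z 2)) *
        riemannZeta (1 + 2 * z 0) * riemannZeta (1 + (z 0 - s))) := by
    refine HasProd.unique (f := fun p : Nat.Primes => lf2 q s z p *
      ((1 - ((p : ℕ) : ℂ) ^ (-(1 + (z 1 + z 0))))⁻¹ * (1 - ((p : ℕ) : ℂ) ^ (-(1 + (z 2 + z 0))))⁻¹ *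
    (1 - ((p : ℕ) : ℂ) ^ (-(1 + (z 1 - s))))⁻¹ * (1 - ((p : ℕ) : ℂ) ^ (-(1 + (z 2 - s))))⁻¹)) hL ?_
    rw [hfun]
    exact hR
  have n4 := riemannZeta_ne_zero_of_one_lt_re r4
  have n5 := riemannZeta_ne_zero_of_one_lt_re r5
  have n6 := riemannZeta_ne_zero_of_one_lt_re r6
  have n7 := riemannZeta_ne_zero_of_one_lt_re r7
  rw [← eq_div_iff (mul_ne_zero (mul_ne_zero (mul_ne_zero n4 n5) n6) n7)] at hval
  rw [hval]
  field_simp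

/-- the local factors -/
def A2 (L : ℝ) (τ : Fin 4 → ℝ) (p : Nat.Primes) : ℂ :=
  ap 2 (Pool.Agent.H80R2.RG.MT2Gn.zz 1 (τ 0) / (L : ℂ))
    (fun i : Fin 3 => Pool.Agent.H80R2.RG.MT2Gn.zz 2 (τ i.succ) / (L : ℂ)) p

def B2 (L : ℝ) (τ : Fin 4 → ℝ) (p : Nat.Primes) : ℂ :=
  rp p * ap 0 (Pool.Agent.H80R2.RG.MT2Gn.zz 1 (τ 0) / (L : ℂ))
    (fun i : Fin 3 => Pool.Agent.H80R2.RG.MT2Gn.zz 2 (τ i.succ) / (L : ℂ)) p

open Pool.Agent.H80R2.RG.MT2Gn (zz zz_re zz_im zz_cont add_le_mul sub_le_mul ne_zero_of_re G G_cont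
  G_bound G_lim D D_cont D_bound M2st Pc_pos)

/-- the zeta functions -/
def ZZ2 (L : ℝ) (τ : Fin 4 → ℝ) : ℂ :=
  riemannZeta (1 + (zz 2 (τ 2) + zz 2 (τ 3)) / (L : ℂ)) *
    riemannZeta (1 + (2 * zz 2 (τ 1)) / (L : ℂ)) *
    riemannZeta (1 + (zz 2 (τ 1) - zz 1 (τ 0)) / (L : ℂ)) *
    (riemannZeta (1 + (zz 2 (τ 2) + zz 2 (τ 1)) / (L : ℂ)))⁻¹ *
    (riemannZeta (1 + (zz 2 (τ 3) + zz 2 (τ 1)) / (L : ℂ)))⁻¹ *
    (riemannZeta (1 + (zz 2 (τ 2) - zz 1 (τ 0)) / (L : ℂ)))⁻¹ *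
    (riemannZeta (1 + (zz 2 (τ 3) - zz 1 (τ 0)) / (L : ℂ)))⁻¹

theorem reS (L : ℝ) (hL : 0 < L) (τ : Fin 4 → ℝ) : 0 < (zz 1 (τ 0) / (L : ℂ)).re := by
  rw [Complex.div_ofReal_re, zz_re]; positivity

theorem reZ (L : ℝ) (hL : 0 < L) (τ : Fin 4 → ℝ) (i : Fin 3) :
    (zz 1 (τ 0) / (L : ℂ)).re < (zz 2 (τ i.succ) / (L : ℂ)).re := by
  rw [Complex.div_ofReal_re, Complex.div_ofReal_re, zz_re, zz_re]
  exact div_lt_div_of_pos_right (by norm_num) hL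

theorem D2_fac {e : ℕ} (he : Odd e) (hs : Squarefree e) (L : ℝ) (hL : 0 < L) (τ : Fin 4 → ℝ) :
    (Pc (2 * e) : ℂ) * DD2 (2 * e) (zz 1 (τ 0) / (L : ℂ))
      (fun i : Fin 3 => zz 2 (τ i.succ) / (L : ℂ)) =
      (Pc 2 : ℂ) * ZZ2 L τ * Vn (A2 L τ) (B2 L τ) e := by
  obtain ⟨S, rfl⟩ := exists_nn hs
  have h2e : 2 * nn S ≠ 0 := Nat.mul_ne_zero two_ne_zero hs.ne_zero
  obtain ⟨h1, h2⟩ := DD2_prod (2 * nn S) h2e _ _ (reS L hL τ) (reZ L hL τ)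
  have hf : (fun p : Nat.Primes => ap (2 * nn S) (zz 1 (τ 0) / (L : ℂ))
      (fun i : Fin 3 => zz 2 (τ i.succ) / (L : ℂ)) p) =
      fun p : Nat.Primes => if (p : ℕ) ∣ nn S then ap 0 (zz 1 (τ 0) / (L : ℂ))
      (fun i : Fin 3 => zz 2 (τ i.succ) / (L : ℂ)) p else ap 2 (zz 1 (τ 0) / (L : ℂ))
      (fun i : Fin 3 => zz 2 (τ i.succ) / (L : ℂ)) p := by
    funext p
    rw [ap_two_mul he]
  have h3 := h2
  rw [hf] at h3
  have h4 := Vn_mul_left S rp _ _ h3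
  have h5 : Vn (A2 L τ) (B2 L τ) (nn S) = (∏ p ∈ S, rp p) * (∏' p : Nat.Primes,
      ap (2 * nn S) (zz 1 (τ 0) / (L : ℂ)) (fun i : Fin 3 => zz 2 (τ i.succ) / (L : ℂ)) p) := by
    rw [hf]
    exact h4
  rw [h5, h1, Pc_two_mul S he]
  unfold ZZ2
  simp only [add_div, sub_div, mul_div_assoc]
  show (Pc 2 : ℂ) * (∏ p ∈ S, rp p) * _ = _
  have e5 : (Fin.succ (0 : Fin 3)) = (1 : Fin 4) := rfl
  have e6 : (Fin.succ (1 : Fin 3)) = (2 : Fin 4) := rfl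
  have e7 : (Fin.succ (2 : Fin 3)) = (3 : Fin 4) := rfl
  rw [e5, e6, e7]
  ring

theorem ZZ2_bound : ∃ C : ℝ, 0 ≤ C ∧ ∀ L : ℝ, 1 ≤ L → ∀ τ : Fin 4 → ℝ,
    ‖(L : ℂ) * ZZ2 L τ‖ ≤ C * ∏ i, (1 + |τ i|) ^ 4 := by
  obtain ⟨⟨C4, hC4, hz4⟩, -⟩ := Pool.Agent.H727R2.RZMZ.MZ 4 four_pos
  obtain ⟨⟨C1, hC1, hz1⟩, -⟩ := Pool.Agent.H727R2.RZMZ.MZ 1 one_pos
  refine ⟨C4 ^ 4 * C1 ^ 3, by positivity, fun L hL τ => ?_⟩
  have hL0 : 0 < L := by linarith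
  have e0 : ∀ t : ℝ, (2 * zz 2 t).re = 4 := fun t => by simp [zz]; norm_num
  have e1 : ∀ t u : ℝ, (zz 2 t + zz 2 u).re = 4 := fun t u => by
    rw [Complex.add_re, zz_re, zz_re]; norm_num
  have e2 : ∀ t u : ℝ, (zz 2 t + zz 2 u).im = t + u := fun t u => by
    rw [Complex.add_im, zz_im, zz_im]
  have e3 : ∀ t u : ℝ, (zz 2 t - zz 1 u).re = 1 := fun t u => by
    rw [Complex.sub_re, zz_re, zz_re]; norm_num
  have e4 : ∀ t u : ℝ, (zz 2 t - zz 1 u).im = t - u := fun t u => by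
    rw [Complex.sub_im, zz_im, zz_im]
  have b1 : ∀ t u : ℝ, ‖(riemannZeta (1 + (zz 2 t + zz 2 u) / (L : ℂ)))⁻¹‖ ≤
      C4 * ((1 + |t|) ^ 2 * (1 + |u|) ^ 2) / L := by
    intro t u
    refine ((hz4 L _ hL (e1 t u)).2).trans ?_
    rw [e2, ← mul_pow]
    gcongr
    exact add_le_mul t u
  have b1' : ∀ t u : ℝ, ‖(riemannZeta (1 + (zz 2 t - zz 1 u) / (L : ℂ)))⁻¹‖ ≤
      C1 * ((1 + |t|) ^ 2 * (1 + |u|) ^ 2) / L := by
    intro t u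
    refine ((hz1 L _ hL (e3 t u)).2).trans ?_
    rw [e4, ← mul_pow]
    gcongr
    exact sub_le_mul t u
  have b2 : ∀ t u : ℝ, ‖riemannZeta (1 + (zz 2 t + zz 2 u) / (L : ℂ))‖ ≤ C4 * L :=
    fun t u => (hz4 L _ hL (e1 t u)).1
  have b2' : ∀ t u : ℝ, ‖riemannZeta (1 + (zz 2 t - zz 1 u) / (L : ℂ))‖ ≤ C1 * L :=
    fun t u => (hz1 L _ hL (e3 t u)).1
  have b3 : ∀ t : ℝ, ‖riemannZeta (1 + (2 * zz 2 t) / (L : ℂ))‖ ≤ C4 * L :=
    fun t => (hz4 L _ hL (e0 t)).1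
  unfold ZZ2
  simp only [norm_mul]
  rw [Complex.norm_real, Real.norm_eq_abs, abs_of_pos hL0]
  calc _ ≤ L * ((C4 * L) * (C4 * L) * (C1 * L) *
        (C4 * ((1 + |τ 2|) ^ 2 * (1 + |τ 1|) ^ 2) / L) *
        (C4 * ((1 + |τ 3|) ^ 2 * (1 + |τ 1|) ^ 2) / L) *
        (C1 * ((1 + |τ 2|) ^ 2 * (1 + |τ 0|) ^ 2) / L) *
        (C1 * ((1 + |τ 3|) ^ 2 * (1 + |τ 0|) ^ 2) / L)) := by
        gcongr
        · exact b2 _ _
        · exact b3 _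
        · exact b2' _ _
        · exact b1 _ _
        · exact b1 _ _
        · exact b1' _ _
        · exact b1' _ _
    _ = C4 ^ 4 * C1 ^ 3 * ∏ i, (1 + |τ i|) ^ 4 := by
        rw [Fin.prod_univ_four]
        field_simp

theorem ZZ2_lim (τ : Fin 4 → ℝ) :
    Tendsto (fun L : ℝ => (L : ℂ) * ZZ2 L τ) atTop
      (𝓝 (1 / (zz 2 (τ 2) + zz 2 (τ 3)) * (1 / (2 * zz 2 (τ 1))) * (1 / (zz 2 (τ 1) - zz 1 (τ 0))) *
        (zz 2 (τ 2) + zz 2 (τ 1)) * (zz 2 (τ 3) + zz 2 (τ 1)) * (zz 2 (τ 2) - zz 1 (τ 0)) *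
        (zz 2 (τ 3) - zz 1 (τ 0)))) := by
  obtain ⟨-, hz⟩ := Pool.Agent.H727R2.RZMZ.MZ 2 two_pos
  have e0 : ∀ t : ℝ, 0 < (2 * zz 2 t).re := fun t => by simp [zz]
  have e1 : ∀ t u : ℝ, 0 < (zz 2 t + zz 2 u).re := fun t u => by
    rw [Complex.add_re, zz_re, zz_re]; norm_num
  have e3 : ∀ t u : ℝ, 0 < (zz 2 t - zz 1 u).re := fun t u => by
    rw [Complex.sub_re, zz_re, zz_re]; norm_num
  have l1 : ∀ t u : ℝ, Tendsto (fun L : ℝ => (riemannZeta (1 + (zz 2 t + zz 2 u) / (L : ℂ)) / (L : ℂ))⁻¹)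
      atTop (𝓝 (1 / (zz 2 t + zz 2 u))⁻¹) := fun t u =>
    (hz _ (e1 t u)).inv₀ (one_div_ne_zero (ne_zero_of_re (e1 t u)))
  have l1' : ∀ t u : ℝ, Tendsto (fun L : ℝ => (riemannZeta (1 + (zz 2 t - zz 1 u) / (L : ℂ)) / (L : ℂ))⁻¹)
      atTop (𝓝 (1 / (zz 2 t - zz 1 u))⁻¹) := fun t u =>
    (hz _ (e3 t u)).inv₀ (one_div_ne_zero (ne_zero_of_re (e3 t u)))
  have l2 : ∀ t u : ℝ, Tendsto (fun L : ℝ => riemannZeta (1 + (zz 2 t + zz 2 u) / (L : ℂ)) / (L : ℂ))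
      atTop (𝓝 (1 / (zz 2 t + zz 2 u))) := fun t u => hz _ (e1 t u)
  have l2' : ∀ t u : ℝ, Tendsto (fun L : ℝ => riemannZeta (1 + (zz 2 t - zz 1 u) / (L : ℂ)) / (L : ℂ))
      atTop (𝓝 (1 / (zz 2 t - zz 1 u))) := fun t u => hz _ (e3 t u)
  have l3 : ∀ t : ℝ, Tendsto (fun L : ℝ => riemannZeta (1 + (2 * zz 2 t) / (L : ℂ)) / (L : ℂ))
      atTop (𝓝 (1 / (2 * zz 2 t))) := fun t => hz _ (e0 t)
  have key := ((((((l2 (τ 2) (τ 3)).mul (l3 (τ 1))).mul (l2' (τ 1) (τ 0))).mul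
    (l1 (τ 2) (τ 1))).mul (l1 (τ 3) (τ 1))).mul (l1' (τ 2) (τ 0))).mul (l1' (τ 3) (τ 0))
  refine Tendsto.congr' ?_ (key.trans (le_of_eq ?_))
  · filter_upwards [eventually_gt_atTop 0] with L hL
    unfold ZZ2
    have hLC : (L : ℂ) ≠ 0 := by exact_mod_cast hL.ne'
    simp only [inv_div]
    field_simp
  · congr 1
    simp only [one_div, inv_inv]

/-- the prefactor -/
def Z2 (H : ℂ → ℂ) (c : ℝ) (L : ℝ) (τ : Fin 4 → ℝ) : ℂ :=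
  (Pc 2 : ℂ) * (G H c L (τ 0) * ZZ2 L τ)

theorem Z2_bound (H : ℂ → ℂ) (z : ℝ) (hH : HPl H z) (c : ℝ) (hc : 0 < c) :
    ∃ C : ℝ, 0 ≤ C ∧ ∀ L : ℝ, 4 ≤ L → ∀ τ : Fin 4 → ℝ, ‖Z2 H c L τ‖ ≤ C * ∏ i, (1 + |τ i|) ^ 6 := by
  obtain ⟨C1, h10, h1⟩ := G_bound H z hH c hc
  obtain ⟨C2, h20, h2⟩ := ZZ2_bound
  have hP := Pc_pos 2
  refine ⟨Pc 2 * (C1 * C2), by positivity, fun L hL τ => ?_⟩
  have hL0 : 0 < L := by linarith
  have k1 := h1 L hL (τ 0)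
  have k2 := h2 L (by linarith) τ
  rw [norm_mul, Complex.norm_real, Real.norm_eq_abs, abs_of_pos hL0] at k2
  unfold Z2
  rw [norm_mul, norm_mul, Complex.norm_real, Real.norm_eq_abs, abs_of_pos hP]
  have hprod : (1 + |τ 0|) ^ 2 * ∏ i, (1 + |τ i|) ^ 4 ≤ ∏ i, (1 + |τ i|) ^ 6 := by
    rw [Fin.prod_univ_four, Fin.prod_univ_four]
    have m : ∀ x : ℝ, (1 + |x|) ^ 4 ≤ (1 + |x|) ^ 6 := fun x =>
      pow_le_pow_right₀ (by linarith [abs_nonneg x]) (by norm_num)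
    calc (1 + |τ 0|) ^ 2 * ((1 + |τ 0|) ^ 4 * (1 + |τ 1|) ^ 4 * (1 + |τ 2|) ^ 4 * (1 + |τ 3|) ^ 4) =
        (1 + |τ 0|) ^ 6 * (1 + |τ 1|) ^ 4 * (1 + |τ 2|) ^ 4 * (1 + |τ 3|) ^ 4 := by ring
      _ ≤ (1 + |τ 0|) ^ 6 * (1 + |τ 1|) ^ 6 * (1 + |τ 2|) ^ 6 * (1 + |τ 3|) ^ 6 := by
        have := m (τ 1)
        have := m (τ 2)
        have := m (τ 3)
        have p0 : 0 ≤ (1 + |τ 0|) ^ 6 := by positivity
        refine mul_le_mul (mul_le_mul (mul_le_mul_of_nonneg_left (m _) p0) (m _) ?_ ?_) (m _) ?_ ?_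
        all_goals positivity
  calc Pc 2 * (‖G H c L (τ 0)‖ * ‖ZZ2 L τ‖)
      ≤ Pc 2 * ((C1 * (1 + |τ 0|) ^ 2 * L) * ‖ZZ2 L τ‖) := by gcongr
    _ = Pc 2 * ((C1 * (1 + |τ 0|) ^ 2) * (L * ‖ZZ2 L τ‖)) := by ring
    _ ≤ Pc 2 * ((C1 * (1 + |τ 0|) ^ 2) * (C2 * ∏ i, (1 + |τ i|) ^ 4)) := by gcongr
    _ = Pc 2 * (C1 * C2) * ((1 + |τ 0|) ^ 2 * ∏ i, (1 + |τ i|) ^ 4) := by ring
    _ ≤ Pc 2 * (C1 * C2) * ∏ i, (1 + |τ i|) ^ 6 := by gcongr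

theorem Z2_lim (H : ℂ → ℂ) (z : ℝ) (hH : HPl H z) (c : ℝ) (hc : 0 < c) (τ : Fin 4 → ℝ) :
    Tendsto (fun L : ℝ => Z2 H c L τ) atTop
      (𝓝 ((Pc 2 : ℂ) * ((z : ℂ) / 2 * Pool.Agent.H80R2.RG.MT2Gn.K2 τ))) := by
  have l1 := ((G_lim H z hH c hc (τ 0)).mul (ZZ2_lim τ)).const_mul (Pc 2 : ℂ)
  have hz1 : ∀ t, zz 1 t = 1 + (t : ℂ) * Complex.I := fun t => by unfold zz; simp
  have hz2 : ∀ t, zz 2 t = 2 + (t : ℂ) * Complex.I := fun t => by unfold zz; simp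
  refine Tendsto.congr' ?_ (l1.trans (le_of_eq ?_))
  · filter_upwards [eventually_gt_atTop 0] with L hL
    have hLC : (L : ℂ) ≠ 0 := by exact_mod_cast hL.ne'
    unfold Z2
    field_simp
  · congr 1
    have n1 : ∀ t : ℝ, (1 + (t : ℂ) * Complex.I) ≠ 0 := fun t => by
      apply ne_zero_of_re; simp
    have n2 : ∀ t : ℝ, (2 + (t : ℂ) * Complex.I) ≠ 0 := fun t => by
      apply ne_zero_of_re; simp
    have n3 : ∀ t u : ℝ, ((2 + (t : ℂ) * Complex.I) + (2 + (u : ℂ) * Complex.I)) ≠ 0 := fun t u => by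
      apply ne_zero_of_re; simp
    have n4 : ∀ t u : ℝ, ((2 + (t : ℂ) * Complex.I) - (1 + (u : ℂ) * Complex.I)) ≠ 0 := fun t u => by
      apply ne_zero_of_re; simp
    rw [hz1, hz2, hz2, hz2]
    unfold Pool.Agent.H80R2.RG.MT2Gn.K2
    have m1 := n1 (τ 0)
    have m2 := n2 (τ 1)
    have m3 := n3 (τ 2) (τ 3)
    have m4 := n4 (τ 1) (τ 0)
    generalize Complex.exp (-(1 + (τ 0 : ℂ) * Complex.I)) = E at *
    generalize (1 + (τ 0 : ℂ) * Complex.I) = u at *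
    generalize (2 + (τ 1 : ℂ) * Complex.I) = v at *
    generalize (2 + (τ 2 : ℂ) * Complex.I) = a at *
    generalize (2 + (τ 3 : ℂ) * Complex.I) = b at *
    field_simp
    ring

theorem ker2 (H : ℂ → ℂ) (z : ℝ) (hH : HPl H z) (c : ℝ) (hc : 0 < c) : ∃ CZ : ℝ,
    Ker 4 4 (fun e L τ => (Pc (2 * e) : ℂ) * D H c (2 * e) L τ) (Z2 H c) A2 B2 2496 CZ 6 := by
  obtain ⟨CZ, hCZ, hb⟩ := Z2_bound H z hH c hc
  refine ⟨CZ, ⟨?_, ?_, ?_, ?_, ?_, ?_⟩⟩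
  · intro e he hs L hL
    exact continuous_const.mul (D_cont H z hH c hc (2 * e) L hL)
  · intro e he hs
    have h2e : 2 * e ≠ 0 := Nat.mul_ne_zero two_ne_zero hs.ne_zero
    obtain ⟨C, hC0, hC⟩ := D_bound H z hH c hc (2 * e) (Pool.Agent.H423R2.RZL.M2n.M2 (2 * e) h2e)
    refine ⟨Pc (2 * e) * C, fun L hL τ => ?_⟩
    have hP := Pc_pos (2 * e)
    rw [norm_mul, Complex.norm_real, Real.norm_eq_abs, abs_of_pos hP, mul_assoc]
    exact mul_le_mul_of_nonneg_left (hC L hL τ) hP.le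
  · intro e he hs L hL τ
    have := D2_fac he hs L (by linarith) τ
    unfold D Z2
    calc (Pc (2 * e) : ℂ) * (G H c L (τ 0) * DD2 (2 * e) (zz 1 (τ 0) / (L : ℂ))
          (fun i : Fin 3 => zz 2 (τ i.succ) / (L : ℂ))) =
        G H c L (τ 0) * ((Pc (2 * e) : ℂ) * DD2 (2 * e) (zz 1 (τ 0) / (L : ℂ))
          (fun i : Fin 3 => zz 2 (τ i.succ) / (L : ℂ))) := by ring
      _ = _ := by rw [this]; ring
  · intro L hL τ p
    have hL0 : 0 < L := by linarith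
    refine (ap_bound 2 two_ne_zero _ _ (reS L hL0 τ) (reZ L hL0 τ) p p.2).trans (le_of_eq ?_)
    norm_num
  · intro L hL τ p
    have hL0 : 0 < L := by linarith
    refine (B2_bound _ _ (reS L hL0 τ) (reZ L hL0 τ) p).trans ?_
    exact div_le_div_of_nonneg_right (by norm_num) (by positivity)
  · intro L hL τ
    exact hb L hL τ

end

end Pool.Agent.N782.KW
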