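import Pool.Agent.N782.EWc

set_option autoImplicit false

/-! Weighted kernels: bound and limit (helper782). -/

namespace Pool.Agent.N782.KW

open Finset Filter Topology MeasureTheory Pool.Agent.N782.LX Pool.Agent.N782.EW
open Pool.Agent.H306R2.RZ Pool.Agent.H930R3.RZID

noncomputable section

/-- weighted sum over pairs -/
def SW (P : ℝ → ℝ) (L : ℝ) (g : ℕ → ℂ) : ℂ :=
  ∑' a : Fin 2 → ℕ, ((co a : ℝ) : ℂ) * g (Nat.lcm (a 0) (a 1)) *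
    ∏ i, ((P (Real.log (a i) / L) : ℝ) : ℂ)

theorem SW_Vn (P : ℝ → ℝ) (L : ℝ) (A B : Nat.Primes → ℂ) : SW P L (Vn A B) = SS P L A B := rfl

/-- the finite box -/
def bx (s L : ℝ) : Finset (Fin 2 → ℕ) :=
  Fintype.piFinset fun _ => Finset.range (⌊Real.exp (s * L)⌋₊ + 1)

theorem log_gt {n : ℕ} {s L : ℝ} (h : ⌊Real.exp (s * L)⌋₊ + 1 ≤ n) : s * L < Real.log n := by
  have h1 : Real.exp (s * L) < (n : ℝ) := by
    have := Nat.lt_floor_add_one (Real.exp (s * L))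
    have h2 : ((⌊Real.exp (s * L)⌋₊ + 1 : ℕ) : ℝ) ≤ (n : ℝ) := by exact_mod_cast h
    push_cast at h2
    linarith
  rw [Real.lt_log_iff_exp_lt ((Real.exp_pos _).trans h1)]
  exact h1

theorem P_zero {s : ℝ} {P : ℝ → ℝ} (hP : Wt s P) {L : ℝ} (hL : 0 < L) {n : ℕ}
    (h : ⌊Real.exp (s * L)⌋₊ + 1 ≤ n) : P (Real.log n / L) = 0 := by
  by_contra h1
  have h2 := (hP.supp _ h1).2
  rw [div_le_iff₀ hL] at h2
  exact absurd (log_gt h) (not_lt.2 h2)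

theorem prod_zero {s : ℝ} {P : ℝ → ℝ} (hP : Wt s P) {L : ℝ} (hL : 0 < L) {a : Fin 2 → ℕ}
    (ha : a ∉ bx s L) : (∏ i, ((P (Real.log (a i) / L) : ℝ) : ℂ)) = 0 := by
  unfold bx at ha
  rw [Fintype.mem_piFinset] at ha
  push Not at ha
  obtain ⟨i, hi⟩ := ha
  rw [Finset.mem_range, not_lt] at hi
  refine Finset.prod_eq_zero (Finset.mem_univ i) ?_
  rw [P_zero hP hL hi, Complex.ofReal_zero]

theorem SW_sum {s : ℝ} {P : ℝ → ℝ} (hP : Wt s P) {L : ℝ} (hL : 0 < L) (g : ℕ → ℂ) :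
    SW P L g = ∑ a ∈ bx s L, ((co a : ℝ) : ℂ) * g (Nat.lcm (a 0) (a 1)) *
      ∏ i, ((P (Real.log (a i) / L) : ℝ) : ℂ) := by
  unfold SW
  refine tsum_eq_sum fun a ha => ?_
  rw [prod_zero hP hL ha, mul_zero]

/-- the support of the coefficients -/
theorem co_ne {a : Fin 2 → ℕ} (h : co a ≠ 0) : Odd (Nat.lcm (a 0) (a 1)) ∧
    Squarefree (Nat.lcm (a 0) (a 1)) := by
  unfold co at h
  split_ifs at h with h1
  · have h2 : (ArithmeticFunction.moebius (a 0)) ≠ 0 := by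
      intro h0; apply h; rw [h0]; simp
    have h3 : (ArithmeticFunction.moebius (a 1)) ≠ 0 := by
      intro h0; apply h; rw [h0]; simp
    rw [ArithmeticFunction.moebius_ne_zero_iff_squarefree] at h2 h3
    obtain ⟨S, hS⟩ := exists_nn h2
    obtain ⟨T, hT⟩ := exists_nn h3
    refine ⟨?_, ?_⟩
    · exact (h1.2.1.mul h1.2.2).of_dvd_nat (Nat.lcm_dvd_mul _ _)
    · rw [← hS, ← hT, nn_lcm]
      exact nn_squarefree _
  · exact absurd rfl h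

theorem SW_congr (P : ℝ → ℝ) (L : ℝ) (g g' : ℕ → ℂ)
    (h : ∀ e, Odd e → Squarefree e → g e = g' e) : SW P L g = SW P L g' := by
  unfold SW
  refine tsum_congr fun a => ?_
  by_cases hc : co a = 0
  · rw [hc]; simp
  · rw [h _ (co_ne hc).1 (co_ne hc).2]

theorem SW_const_mul (P : ℝ → ℝ) (L : ℝ) (g : ℕ → ℂ) (x : ℂ) :
    SW P L (fun e => x * g e) = x * SW P L g := by
  unfold SW
  rw [← tsum_mul_left]
  refine tsum_congr fun a => ?_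
  ring

theorem SW_add {s : ℝ} {P : ℝ → ℝ} (hP : Wt s P) {L : ℝ} (hL : 0 < L) (g g' : ℕ → ℂ) :
    SW P L (fun e => g e + g' e) = SW P L g + SW P L g' := by
  rw [SW_sum hP hL, SW_sum hP hL, SW_sum hP hL, ← Finset.sum_add_distrib]
  refine Finset.sum_congr rfl fun a _ => ?_
  ring

/-- exchange with an integral -/
theorem SW_int {ι : Type*} [MeasurableSpace ι] {μ : Measure ι} {s : ℝ} {P : ℝ → ℝ} (hP : Wt s P)
    {L : ℝ} (hL : 0 < L) (D : ℕ → ι → ℂ)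
    (hD : ∀ e, Odd e → Squarefree e → Integrable (D e) μ) :
    SW P L (fun e => ∫ x, D e x ∂μ) = ∫ x, SW P L (fun e => D e x) ∂μ := by
  have h1 : ∀ x, SW P L (fun e => D e x) = ∑ a ∈ bx s L, ((co a : ℝ) : ℂ) *
      D (Nat.lcm (a 0) (a 1)) x * ∏ i, ((P (Real.log (a i) / L) : ℝ) : ℂ) := fun x =>
    SW_sum hP hL _
  simp only [h1]
  rw [SW_sum hP hL, integral_finset_sum]
  · refine Finset.sum_congr rfl fun a _ => ?_
    rw [integral_mul_const, integral_const_mul]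
  · intro a _
    by_cases hc : co a = 0
    · rw [hc]
      simp
    · exact ((hD _ (co_ne hc).1 (co_ne hc).2).const_mul _).mul_const _

theorem SW_cont {ι : Type*} [TopologicalSpace ι] {s : ℝ} {P : ℝ → ℝ} (hP : Wt s P)
    {L : ℝ} (hL : 0 < L) (D : ℕ → ι → ℂ)
    (hD : ∀ e, Odd e → Squarefree e → Continuous (D e)) :
    Continuous (fun x => SW P L (fun e => D e x)) := by
  have h1 : ∀ x, SW P L (fun e => D e x) = ∑ a ∈ bx s L, ((co a : ℝ) : ℂ) *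
      D (Nat.lcm (a 0) (a 1)) x * ∏ i, ((P (Real.log (a i) / L) : ℝ) : ℂ) := fun x =>
    SW_sum hP hL _
  simp only [h1]
  refine continuous_finsetSum _ fun a _ => ?_
  by_cases hc : co a = 0
  · rw [hc]
    simp only [Complex.ofReal_zero, zero_mul]
    exact continuous_const
  · exact (continuous_const.mul (hD _ (co_ne hc).1 (co_ne hc).2)).mul continuous_const

/-- `FR` -/
theorem FRp : Pool.Agent.H310R2.RZML.FRprop := Pool.Agent.H375R3.RZFR.FR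

/-- a weighted kernel -/
structure Ker (k : ℕ) (L0 : ℝ) (D : ℕ → ℝ → (Fin k → ℝ) → ℂ) (Z : ℝ → (Fin k → ℝ) → ℂ)
    (A B : ℝ → (Fin k → ℝ) → Nat.Primes → ℂ) (C CZ : ℝ) (m : ℕ) : Prop where
  cont : ∀ e, Odd e → Squarefree e → ∀ L, L0 ≤ L → Continuous (D e L)
  bde : ∀ e, Odd e → Squarefree e → ∃ C, ∀ L, L0 ≤ L → ∀ τ, ‖D e L τ‖ ≤ C * ∏ i, (1 + |τ i|) ^ m
  fac : ∀ e, Odd e → Squarefree e → ∀ L, L0 ≤ L → ∀ τ, D e L τ = Z L τ * Vn (A L τ) (B L τ) e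
  hA : ∀ L, L0 ≤ L → ∀ τ p, ‖A L τ p - 1‖ ≤ C / ((p : ℕ) : ℝ) ^ 2
  hB : ∀ L, L0 ≤ L → ∀ τ p, ‖B L τ p - 1‖ ≤ C / ((p : ℕ) : ℝ)
  hZ : ∀ L, L0 ≤ L → ∀ τ, ‖Z L τ‖ ≤ CZ * ∏ i, (1 + |τ i|) ^ m

theorem ker_int {k : ℕ} {L0 : ℝ} {D : ℕ → ℝ → (Fin k → ℝ) → ℂ} {Z : ℝ → (Fin k → ℝ) → ℂ}
    {A B : ℝ → (Fin k → ℝ) → Nat.Primes → ℂ} {C CZ : ℝ} {m : ℕ} (h : Ker k L0 D Z A B C CZ m)
    (c : Fin k → ℝ) (s' : ℝ) (w : Fin k → ℝ → ℝ) (hw : ∀ i, Wt s' (w i))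
    {s : ℝ} {P : ℝ → ℝ} (hP : Wt s P) {L : ℝ} (hL : L0 ≤ L) (hL1 : 1 ≤ L) :
    (L : ℂ) * SW P L (fun e => ∫ τ : Fin k → ℝ, (∏ i, fh (c i) (w i) (τ i)) * D e L τ) =
      ∫ τ : Fin k → ℝ, (∏ i, fh (c i) (w i) (τ i)) *
        ((L : ℂ) * (Z L τ * SS P L (A L τ) (B L τ))) := by
  have hL0 : 0 < L := by linarith
  rw [SW_int hP hL0 (fun e τ => (∏ i, fh (c i) (w i) (τ i)) * D e L τ), ← integral_const_mul]
  · refine integral_congr_ae (Filter.Eventually.of_forall fun τ => ?_)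
    simp only
    rw [SW_const_mul, SW_congr P L _ _ (fun e h1 h2 => h.fac e h1 h2 L hL τ), SW_const_mul,
      SW_Vn]
    ring
  · intro e h1 h2
    obtain ⟨Ce, hCe⟩ := h.bde e h1 h2
    refine (Pool.Agent.H310R2.RZML.int_maj FRp k c w s' hw m Ce).mono' ?_
      (Filter.Eventually.of_forall
        (Pool.Agent.H310R2.RZML.maj k c w m Ce (D e L) (hCe L hL)))
    exact ((Pool.Agent.H310R2.RZML.cont_prod FRp k c w s' hw).mul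
      (h.cont e h1 h2 L hL)).aestronglyMeasurable

theorem ker_meas {k : ℕ} {L0 : ℝ} {D : ℕ → ℝ → (Fin k → ℝ) → ℂ} {Z : ℝ → (Fin k → ℝ) → ℂ}
    {A B : ℝ → (Fin k → ℝ) → Nat.Primes → ℂ} {C CZ : ℝ} {m : ℕ} (h : Ker k L0 D Z A B C CZ m)
    {s : ℝ} {P : ℝ → ℝ} (hP : Wt s P) {L : ℝ} (hL : L0 ≤ L) (hL1 : 1 ≤ L) :
    Continuous (fun τ => (L : ℂ) * (Z L τ * SS P L (A L τ) (B L τ))) := by
  have hL0 : 0 < L := by linarith
  have h1 := SW_cont hP hL0 (fun e τ => D e L τ) (fun e h1 h2 => h.cont e h1 h2 L hL)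
  have h2 : (fun τ => SW P L (fun e => D e L τ)) =
      fun τ => Z L τ * SS P L (A L τ) (B L τ) := by
    funext τ
    rw [SW_congr P L _ _ (fun e h1 h2 => h.fac e h1 h2 L hL τ), SW_const_mul, SW_Vn]
  rw [h2] at h1
  exact continuous_const.mul h1

theorem CZ_nonneg {k : ℕ} {L0 : ℝ} {D : ℕ → ℝ → (Fin k → ℝ) → ℂ} {Z : ℝ → (Fin k → ℝ) → ℂ}
    {A B : ℝ → (Fin k → ℝ) → Nat.Primes → ℂ} {C CZ : ℝ} {m : ℕ} (h : Ker k L0 D Z A B C CZ m) :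
    0 ≤ CZ := by
  have := (norm_nonneg _).trans (h.hZ L0 le_rfl (fun _ => 0))
  simpa using this

theorem ker_bd {k : ℕ} {L0 : ℝ} {D : ℕ → ℝ → (Fin k → ℝ) → ℂ} {Z : ℝ → (Fin k → ℝ) → ℂ}
    {A B : ℝ → (Fin k → ℝ) → Nat.Primes → ℂ} {C CZ : ℝ} {m : ℕ} (h : Ker k L0 D Z A B C CZ m)
    {P : ℝ → ℝ} {K : ℝ}
    (hK : ∀ (L : ℝ) (A B : Nat.Primes → ℂ), 1 ≤ L →
      (∀ p, ‖A p - 1‖ ≤ C / ((p : ℕ) : ℝ) ^ 2) → (∀ p, ‖B p - 1‖ ≤ C / ((p : ℕ) : ℝ)) →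
      ‖SS P L A B‖ ≤ K / L) {L : ℝ} (hL : L0 ≤ L) (hL1 : 1 ≤ L) (τ : Fin k → ℝ) :
    ‖(L : ℂ) * (Z L τ * SS P L (A L τ) (B L τ))‖ ≤ K * CZ * ∏ i, (1 + |τ i|) ^ m := by
  have hL0 : 0 < L := by linarith
  rw [norm_mul, norm_mul, Complex.norm_real, Real.norm_of_nonneg hL0.le]
  have h1 := hK L (A L τ) (B L τ) hL1 (h.hA L hL τ) (h.hB L hL τ)
  have h2 := h.hZ L hL τ
  have h3 : 0 ≤ CZ * ∏ i, (1 + |τ i|) ^ m := (norm_nonneg _).trans h2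
  calc L * (‖Z L τ‖ * ‖SS P L (A L τ) (B L τ)‖) ≤ L * ((CZ * ∏ i, (1 + |τ i|) ^ m) * (K / L)) := by
        gcongr
    _ = _ := by field_simp

/-- bound of the weighted sum -/
theorem ker_bound (k : ℕ) (c : Fin k → ℝ) (s' : ℝ) (m : ℕ) (C : ℝ) (hC : 0 ≤ C) (s : ℝ) (P : ℝ → ℝ)
    (hP : Wt s P) (BP : ℝ) (hBP : Bd 4 P BP) : ∃ K : ℝ, 0 < K ∧
    ∀ (L0 : ℝ) (D : ℕ → ℝ → (Fin k → ℝ) → ℂ) (Z : ℝ → (Fin k → ℝ) → ℂ)
      (A B : ℝ → (Fin k → ℝ) → Nat.Primes → ℂ) (CZ : ℝ), Ker k L0 D Z A B C CZ m →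
      ∀ L, L0 ≤ L → 1 ≤ L → ∀ (w : Fin k → ℝ → ℝ) (Bs : Fin k → ℝ), (∀ i, Wt s' (w i)) →
      (∀ i, Bd (m + 2) (w i) (Bs i)) →
      ‖(L : ℂ) * SW P L (fun e => ∫ τ : Fin k → ℝ, (∏ i, fh (c i) (w i) (τ i)) * D e L τ)‖ ≤
        K * CZ * ∏ i, Bs i := by
  obtain ⟨K, hK, hb⟩ := SS_bound s P hP BP hBP C hC
  obtain ⟨C', hC', hb'⟩ := Pool.Agent.H310R2.RZML.MLbd FRp k c s' m
  refine ⟨C' * K, by positivity, ?_⟩
  intro L0 D Z A B CZ h L hL hL1 w Bs hw hBs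
  rw [ker_int h c s' w hw hP hL hL1]
  have := hb' (fun τ => (L : ℂ) * (Z L τ * SS P L (A L τ) (B L τ))) (K * CZ) w Bs
    (ker_meas h hP hL hL1).aestronglyMeasurable (ker_bd h hb hL hL1) hw hBs
  refine this.trans (le_of_eq ?_)
  ring

/-- limit of the weighted sum -/
theorem ker_lim {k : ℕ} {L0 : ℝ} {D : ℕ → ℝ → (Fin k → ℝ) → ℂ} {Z : ℝ → (Fin k → ℝ) → ℂ}
    {A B : ℝ → (Fin k → ℝ) → Nat.Primes → ℂ} {C CZ : ℝ} {m : ℕ} (h : Ker k L0 D Z A B C CZ m)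
    (hC : 0 ≤ C) (c : Fin k → ℝ) (s' : ℝ) (w : Fin k → ℝ → ℝ) (hw : ∀ i, Wt s' (w i))
    (s : ℝ) (P : ℝ → ℝ) (hP : Wt s P) (BP : ℝ) (hBP : Bd 4 P BP) (Zl : (Fin k → ℝ) → ℂ)
    (b : Nat.Primes → ℂ)
    (lZ : ∀ τ, Tendsto (fun L => Z L τ) atTop (𝓝 (Zl τ)))
    (lA : ∀ τ, ∀ p : Nat.Primes, Tendsto (fun L => A L τ p) atTop (𝓝 (b p)))
    (lB : ∀ τ, ∀ p : Nat.Primes, p ≠ P2 → Tendsto (fun L => B L τ p) atTop (𝓝 (b p))) :
    Tendsto (fun L : ℝ => (L : ℂ) * SW P L (fun e => ∫ τ : Fin k → ℝ,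
        (∏ i, fh (c i) (w i) (τ i)) * D e L τ)) atTop
      (𝓝 ((∫ τ : Fin k → ℝ, (∏ i, fh (c i) (w i) (τ i)) * Zl τ) *
        (2 * (∏' p, b p) * ((∫ t in Set.Ioi (0 : ℝ), deriv P t ^ 2 : ℝ) : ℂ)))) := by
  obtain ⟨K, hK, hb⟩ := SS_bound s P hP BP hBP C hC
  have key := Pool.Agent.H310R2.RZML.MLlim FRp k c
    (fun L τ => (L : ℂ) * (Z L τ * SS P L (A L τ) (B L τ)))
    (fun τ => Zl τ * (2 * (∏' p, b p) * ((∫ t in Set.Ioi (0 : ℝ), deriv P t ^ 2 : ℝ) : ℂ)))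
    (max L0 1) (K * CZ) m
    (fun L hL => (ker_meas h hP ((le_max_left _ _).trans hL)
      ((le_max_right _ _).trans hL)).aestronglyMeasurable)
    (fun L hL τ => ker_bd h hb ((le_max_left _ _).trans hL) ((le_max_right _ _).trans hL) τ)
    (fun τ => by
      have h1 := (lZ τ).mul (SS_lim s P hP C hC (fun L => A L τ) (fun L => B L τ) L0 b
        (fun L hL p => h.hA L hL τ p) (fun L hL p => h.hB L hL τ p) (lA τ) (lB τ))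
      refine h1.congr fun L => ?_
      ring) w s' hw
  have e1 : (∫ τ : Fin k → ℝ, (∏ i, fh (c i) (w i) (τ i)) *
      (Zl τ * (2 * (∏' p, b p) * ((∫ t in Set.Ioi (0 : ℝ), deriv P t ^ 2 : ℝ) : ℂ)))) =
      (∫ τ : Fin k → ℝ, (∏ i, fh (c i) (w i) (τ i)) * Zl τ) *
        (2 * (∏' p, b p) * ((∫ t in Set.Ioi (0 : ℝ), deriv P t ^ 2 : ℝ) : ℂ)) := by
    rw [← integral_mul_const]
    refine integral_congr_ae (Filter.Eventually.of_forall fun τ => ?_)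
    simp only
    ring
  rw [e1] at key
  refine key.congr' ?_
  filter_upwards [eventually_ge_atTop (max L0 1)] with L hL
  exact (ker_int h c s' w hw hP ((le_max_left _ _).trans hL) ((le_max_right _ _).trans hL)).symm

end

end Pool.Agent.N782.KW
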