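import Mathlib

set_option autoImplicit false

/-! Expansion of infinite products over finite sets (helper782). -/

namespace Pool.Agent.N782.LX

open Finset Filter Topology

noncomputable section

variable {ι : Type*} [DecidableEq ι]

/-- the summand over pairs of finite sets -/
def FF (x a : ι → ℂ) (p : Finset ι × Finset ι) : ℂ :=
  if Disjoint p.1 p.2 then (∏ i ∈ p.1, x i) * ∏ i ∈ p.2, a i else 0

theorem FF_norm (x a : ι → ℂ) (p : Finset ι × Finset ι) :
    ‖FF x a p‖ ≤ (∏ i ∈ p.1, ‖x i‖) * ∏ i ∈ p.2, ‖a i‖ := by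
  unfold FF
  split_ifs
  · rw [norm_mul, norm_prod, norm_prod]
  · rw [norm_zero]; positivity

theorem FF_summable (x a : ι → ℂ) (hx : Summable (fun i => ‖x i‖))
    (ha : Summable (fun i => ‖a i‖)) : Summable (FF x a) := by
  have h1 : Summable (fun S : Finset ι => ∏ i ∈ S, ‖x i‖) :=
    summable_finsetProd_of_summable_norm (by simpa using hx)
  have h2 : Summable (fun S : Finset ι => ∏ i ∈ S, ‖a i‖) :=
    summable_finsetProd_of_summable_norm (by simpa using ha)
  have h3 := h1.mul_of_nonneg h2 (fun S => by positivity) (fun S => by positivity)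
  exact Summable.of_norm_bounded h3 (fun p => FF_norm x a p)

theorem tprod_excl (a : ι → ℂ) (ha : Summable (fun i => ‖a i‖)) (S : Finset ι) :
    ∏' i, (if i ∈ S then (1 : ℂ) else 1 + a i) =
      ∑' T : Finset ι, if Disjoint S T then ∏ i ∈ T, a i else 0 := by
  have e : (fun i => if i ∈ S then (1 : ℂ) else 1 + a i) =
      fun i => 1 + (if i ∈ S then 0 else a i) := by
    funext i
    split_ifs <;> simp
  rw [e, tprod_one_add]
  · refine tsum_congr fun T => ?_
    split_ifs with h
    · refine Finset.prod_congr rfl fun i hi => ?_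
      rw [if_neg (fun hS => (Finset.disjoint_left.1 h hS) hi)]
    · rw [Finset.not_disjoint_iff] at h
      obtain ⟨i, h1, h2⟩ := h
      exact Finset.prod_eq_zero h2 (by rw [if_pos h1])
  · apply summable_finsetProd_of_summable_norm
    refine Summable.of_nonneg_of_le (fun i => norm_nonneg _) (fun i => ?_) ha
    split_ifs
    · rw [norm_zero]; exact norm_nonneg _
    · exact le_rfl

theorem lemX (x a : ι → ℂ) (hx : Summable (fun i => ‖x i‖)) (ha : Summable (fun i => ‖a i‖)) :
    HasSum (fun S : Finset ι => (∏ i ∈ S, x i) * ∏' i, (if i ∈ S then (1 : ℂ) else 1 + a i))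
      (∏' i, (1 + (x i + a i))) := by
  have hF := FF_summable x a hx ha
  have hs := hF.hasSum
  -- first way
  have h1 : HasSum (fun S : Finset ι => ∑' T, FF x a (S, T)) (∑' p, FF x a p) :=
    hs.prod_fiberwise (fun S => (hF.prod_factor S).hasSum)
  have e1 : (fun S : Finset ι => ∑' T, FF x a (S, T)) =
      fun S => (∏ i ∈ S, x i) * ∏' i, (if i ∈ S then (1 : ℂ) else 1 + a i) := by
    funext S
    rw [tprod_excl a ha S, ← tsum_mul_left]
    refine tsum_congr fun T => ?_
    unfold FF
    split_ifs <;> simp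
  rw [e1] at h1
  -- second way
  have h2 := hs.tsum_fiberwise (fun p : Finset ι × Finset ι => p.1 ∪ p.2)
  have e2 : (fun N : Finset ι => ∑' b : ((fun p : Finset ι × Finset ι => p.1 ∪ p.2) ⁻¹' {N}),
      FF x a b) = fun N => ∏ i ∈ N, (x i + a i) := by
    funext N
    rw [_root_.tsum_subtype, Finset.prod_add]
    rw [tsum_eq_sum (s := N.powerset.image (fun S => (S, N \ S)))]
    · rw [Finset.sum_image]
      · refine Finset.sum_congr rfl fun S hS => ?_
        rw [Finset.mem_powerset] at hS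
        have hm : (S, N \ S) ∈ ((fun p : Finset ι × Finset ι => p.1 ∪ p.2) ⁻¹' {N}) := by
          simp [Finset.union_eq_right.2 hS]
        rw [Set.indicator_of_mem hm]
        unfold FF
        rw [if_pos disjoint_sdiff]
      · intro S _ S' _ h
        exact (Prod.ext_iff.1 h).1
    · rintro ⟨S, T⟩ hST
      by_cases hm : (S, T) ∈ ((fun p : Finset ι × Finset ι => p.1 ∪ p.2) ⁻¹' {N})
      · rw [Set.indicator_of_mem hm]
        unfold FF
        split_ifs with hd
        · exfalso
          apply hST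
          have hm' : S ∪ T = N := by simpa using hm
          rw [Finset.mem_image]
          refine ⟨S, ?_, ?_⟩
          · rw [Finset.mem_powerset, ← hm']
            exact Finset.subset_union_left
          · rw [Prod.ext_iff]
            refine ⟨rfl, ?_⟩
            simp only
            rw [← hm', Finset.union_sdiff_left, Finset.sdiff_eq_self_iff_disjoint]
            exact hd.symm
        · rfl
      · rw [Set.indicator_of_notMem hm]
  rw [e2] at h2
  have h3 : Summable (fun i => ‖x i + a i‖) :=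
    Summable.of_nonneg_of_le (fun i => norm_nonneg _) (fun i => norm_add_le _ _) (hx.add ha)
  have h4 := tprod_one_add (summable_finsetProd_of_summable_norm h3)
  rw [h4, h2.tsum_eq]
  exact h1

/-- splitting off finitely many factors -/
theorem tprod_split (f g : ι → ℂ) (hg : Summable (fun i => ‖g i - 1‖)) (S : Finset ι) :
    ∏' i, (if i ∈ S then f i else g i) =
      (∏ i ∈ S, f i) * ∏' i, (if i ∈ S then (1 : ℂ) else g i) := by
  have e : (fun i => if i ∈ S then f i else g i) =
      fun i => (if i ∈ S then f i else 1) * (if i ∈ S then (1 : ℂ) else g i) := by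
    funext i
    split_ifs <;> simp
  have m1 : HasProd (fun i => if i ∈ S then f i else (1 : ℂ)) (∏ i ∈ S, f i) := by
    have h : HasProd (fun i => if i ∈ S then f i else (1 : ℂ))
        (∏ i ∈ S, if i ∈ S then f i else (1 : ℂ)) :=
      hasProd_prod_of_ne_finset_one (fun i hi => by simp only [if_neg hi])
    rwa [Finset.prod_congr rfl (g := f) (fun i hi => by simp only [if_pos hi])] at h
  have m2 : Multipliable (fun i => if i ∈ S then (1 : ℂ) else g i) := by
    have h : Multipliable (fun i => 1 + ((if i ∈ S then (1 : ℂ) else g i) - 1)) := by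
      apply multipliable_one_add_of_summable
      refine Summable.of_nonneg_of_le (fun i => norm_nonneg _) (fun i => ?_) hg
      split_ifs
      · rw [sub_self, norm_zero]; exact norm_nonneg _
      · exact le_rfl
    simpa using h
  rw [e, (m1.multipliable).tprod_mul m2, m1.tprod_eq]

/-- the finite identity behind the summability -/
theorem fin_id (b v0 v1 : ι → ℝ) (N : Finset ι) :
    ∑ S ∈ N.powerset, ∑ T ∈ N.powerset,
      (∏ i ∈ S, v0 i) * (∏ i ∈ T, v1 i) * ∏ i ∈ S ∪ T, b i =
      ∏ i ∈ N, (b i * (v0 i + v1 i + v0 i * v1 i) + 1) := by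
  have h1 : ∀ S ∈ N.powerset, ∑ T ∈ N.powerset,
      (∏ i ∈ S, v0 i) * (∏ i ∈ T, v1 i) * ∏ i ∈ S ∪ T, b i =
      (∏ i ∈ S, (b i * v0 i * (1 + v1 i))) * ∏ i ∈ N \ S, (b i * v1 i + 1) := by
    intro S hS
    rw [Finset.mem_powerset] at hS
    have h2 : ∀ T ∈ N.powerset, (∏ i ∈ S, v0 i) * (∏ i ∈ T, v1 i) * ∏ i ∈ S ∪ T, b i =
        (∏ i ∈ S, (b i * v0 i)) * ((∏ i ∈ T, (v1 i * (if i ∈ S then 1 else b i))) *
          ∏ _i ∈ N \ T, (1 : ℝ)) := by
      intro T _
      have e1 : ∏ i ∈ S ∪ T, b i = (∏ i ∈ S, b i) * ∏ i ∈ T, (if i ∈ S then 1 else b i) := by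
        rw [← Finset.union_sdiff_self_eq_union, Finset.prod_union disjoint_sdiff]
        congr 1
        rw [← Finset.prod_filter_mul_prod_filter_not T (fun i => i ∈ S)
          (fun i => if i ∈ S then 1 else b i)]
        rw [Finset.prod_eq_one (s := T.filter (fun i => i ∈ S)), one_mul]
        · have : T \ S = T.filter (fun i => ¬ i ∈ S) := by
            ext i; simp
          rw [this]
          exact Finset.prod_congr rfl fun i hi => by rw [if_neg (Finset.mem_filter.1 hi).2]
        · intro i hi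
          rw [if_pos (Finset.mem_filter.1 hi).2]
      rw [e1, Finset.prod_mul_distrib, Finset.prod_mul_distrib, Finset.prod_const_one]
      ring
    rw [Finset.sum_congr rfl h2, ← Finset.mul_sum, ← Finset.prod_add]
    rw [← Finset.prod_sdiff hS (f := fun i => v1 i * (if i ∈ S then 1 else b i) + 1)]
    have e3 : ∏ i ∈ N \ S, (v1 i * (if i ∈ S then 1 else b i) + 1) =
        ∏ i ∈ N \ S, (b i * v1 i + 1) :=
      Finset.prod_congr rfl fun i hi => by
        rw [if_neg (Finset.mem_sdiff.1 hi).2]; ring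
    have e4 : ∏ i ∈ S, (v1 i * (if i ∈ S then 1 else b i) + 1) = ∏ i ∈ S, (1 + v1 i) :=
      Finset.prod_congr rfl fun i hi => by rw [if_pos hi]; ring
    rw [e3, e4, Finset.prod_mul_distrib (f := fun i => b i * v0 i)]
    ring
  rw [Finset.sum_congr rfl h1, ← Finset.prod_add]
  exact Finset.prod_congr rfl fun i _ => by ring

theorem maj_summable (b v0 v1 : ι → ℝ) (hb : ∀ i, 0 ≤ b i) (h0 : ∀ i, 0 ≤ v0 i)
    (h1 : ∀ i, 0 ≤ v1 i) (h1' : ∀ i, v1 i ≤ 1) (s0 : Summable (fun i => b i * v0 i))
    (s1 : Summable (fun i => b i * v1 i)) :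
    Summable (fun p : Finset ι × Finset ι =>
      (∏ i ∈ p.1, v0 i) * (∏ i ∈ p.2, v1 i) * ∏ i ∈ p.1 ∪ p.2, b i) := by
  have hsum : Summable (fun i => b i * (v0 i + v1 i + v0 i * v1 i)) := by
    refine Summable.of_nonneg_of_le (fun i => ?_) (fun i => ?_) ((s0.mul_left 2).add s1)
    · have := hb i; have := h0 i; have := h1 i; positivity
    · have h3 : b i * (v0 i * v1 i) ≤ b i * v0 i := by
        have := mul_le_mul_of_nonneg_left (h1' i) (mul_nonneg (hb i) (h0 i))
        nlinarith
      nlinarith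
  have hnn : ∀ p : Finset ι × Finset ι,
      0 ≤ (∏ i ∈ p.1, v0 i) * (∏ i ∈ p.2, v1 i) * ∏ i ∈ p.1 ∪ p.2, b i := fun p =>
    mul_nonneg (mul_nonneg (Finset.prod_nonneg fun i _ => h0 i)
      (Finset.prod_nonneg fun i _ => h1 i)) (Finset.prod_nonneg fun i _ => hb i)
  refine summable_of_sum_le (c := Real.exp (∑' i, b i * (v0 i + v1 i + v0 i * v1 i))) hnn ?_
  intro u
  set N : Finset ι := u.biUnion (fun p => p.1 ∪ p.2) with hN
  have hsub : u ⊆ N.powerset ×ˢ N.powerset := by
    intro p hp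
    rw [Finset.mem_product, Finset.mem_powerset, Finset.mem_powerset, hN]
    constructor
    · exact fun i hi => Finset.mem_biUnion.2 ⟨p, hp, Finset.mem_union_left _ hi⟩
    · exact fun i hi => Finset.mem_biUnion.2 ⟨p, hp, Finset.mem_union_right _ hi⟩
  refine (Finset.sum_le_sum_of_subset_of_nonneg hsub (fun p _ _ => hnn p)).trans ?_
  rw [Finset.sum_product]
  rw [fin_id b v0 v1 N]
  calc ∏ i ∈ N, (b i * (v0 i + v1 i + v0 i * v1 i) + 1)
      ≤ ∏ i ∈ N, Real.exp (b i * (v0 i + v1 i + v0 i * v1 i)) := by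
        refine Finset.prod_le_prod (fun i _ => ?_) (fun i _ => Real.add_one_le_exp _)
        have := hb i; have := h0 i; have := h1 i; positivity
    _ = Real.exp (∑ i ∈ N, b i * (v0 i + v1 i + v0 i * v1 i)) := by rw [Real.exp_sum]
    _ ≤ _ := Real.exp_le_exp.2 (hsum.sum_le_tsum N (fun i _ => by
        have := hb i; have := h0 i; have := h1 i; positivity))

/-- the product attached to a finite set of indices -/
def VV (A B : ι → ℂ) (S : Finset ι) : ℂ := ∏' i, (if i ∈ S then B i else A i)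

/-- a bound for the infinite product -/
theorem tprod_norm_le (a : ι → ℂ) (ha : Summable (fun i => ‖a i - 1‖)) :
    ‖∏' i, a i‖ ≤ Real.exp (∑' i, ‖a i - 1‖) := by
  have hm : Multipliable a := by
    have h : Multipliable (fun i => 1 + (a i - 1)) := multipliable_one_add_of_summable ha
    simpa using h
  have ht : Tendsto (fun s : Finset ι => ‖∏ i ∈ s, a i‖) atTop (𝓝 ‖∏' i, a i‖) :=
    Tendsto.norm hm.hasProd
  refine le_of_tendsto ht (Eventually.of_forall fun s => ?_)
  rw [norm_prod]
  calc ∏ i ∈ s, ‖a i‖ ≤ ∏ i ∈ s, Real.exp ‖a i - 1‖ := by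
        refine Finset.prod_le_prod (fun i _ => norm_nonneg _) fun i _ => ?_
        have h1 : ‖a i‖ ≤ ‖a i - 1‖ + 1 := by
          calc ‖a i‖ = ‖(a i - 1) + 1‖ := by ring_nf
            _ ≤ ‖a i - 1‖ + ‖(1 : ℂ)‖ := norm_add_le _ _
            _ = _ := by rw [norm_one]
        exact h1.trans (Real.add_one_le_exp _)
    _ = Real.exp (∑ i ∈ s, ‖a i - 1‖) := by rw [Real.exp_sum]
    _ ≤ _ := Real.exp_le_exp.2 (ha.sum_le_tsum s (fun i _ => norm_nonneg _))

theorem VV_norm (A B : ι → ℂ) (hA : Summable (fun i => ‖A i - 1‖)) (S : Finset ι) :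
    ‖VV A B S‖ ≤ Real.exp (∑' i, ‖A i - 1‖) * ∏ i ∈ S, ‖B i‖ := by
  unfold VV
  rw [tprod_split B A hA S, norm_mul, norm_prod, mul_comm]
  have h1 : Summable (fun i => ‖(if i ∈ S then (1 : ℂ) else A i) - 1‖) := by
    refine Summable.of_nonneg_of_le (fun i => norm_nonneg _) (fun i => ?_) hA
    split_ifs
    · rw [sub_self, norm_zero]; exact norm_nonneg _
    · exact le_rfl
  have h2 := tprod_norm_le _ h1
  refine mul_le_mul_of_nonneg_right (h2.trans (Real.exp_le_exp.2 ?_)) (by positivity)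
  refine h1.tsum_le_tsum (fun i => ?_) hA
  split_ifs
  · rw [sub_self, norm_zero]; exact norm_nonneg _
  · exact le_rfl

/-- the summand over pairs of finite sets -/
def GP (A B c v0 v1 : ι → ℂ) (p : Finset ι × Finset ι) : ℂ :=
  (∏ i ∈ p.1, (-v0 i)) * (∏ i ∈ p.2, (-v1 i)) * (∏ i ∈ p.1 ∪ p.2, c i) * VV A B (p.1 ∪ p.2)

theorem GP_norm (A B c v0 v1 : ι → ℂ) (hA : Summable (fun i => ‖A i - 1‖))
    (p : Finset ι × Finset ι) : ‖GP A B c v0 v1 p‖ ≤ Real.exp (∑' i, ‖A i - 1‖) *
      ((∏ i ∈ p.1, ‖v0 i‖) * (∏ i ∈ p.2, ‖v1 i‖) * ∏ i ∈ p.1 ∪ p.2, (‖c i‖ * ‖B i‖)) := by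
  unfold GP
  rw [norm_mul, norm_mul, norm_mul, norm_prod, norm_prod, norm_prod]
  simp only [norm_neg]
  have h := VV_norm A B hA (p.1 ∪ p.2)
  rw [Finset.prod_mul_distrib]
  calc _ ≤ (∏ i ∈ p.1, ‖v0 i‖) * (∏ i ∈ p.2, ‖v1 i‖) * (∏ i ∈ p.1 ∪ p.2, ‖c i‖) *
        (Real.exp (∑' i, ‖A i - 1‖) * ∏ i ∈ p.1 ∪ p.2, ‖B i‖) :=
        mul_le_mul_of_nonneg_left h (by positivity)
    _ = _ := by ring

theorem GP_summable (A B c v0 v1 : ι → ℂ) (hA : Summable (fun i => ‖A i - 1‖))
    (h1 : ∀ i, ‖v1 i‖ ≤ 1) (s0 : Summable (fun i => ‖c i‖ * ‖B i‖ * ‖v0 i‖))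
    (s1 : Summable (fun i => ‖c i‖ * ‖B i‖ * ‖v1 i‖)) : Summable (GP A B c v0 v1) := by
  have h := maj_summable (fun i => ‖c i‖ * ‖B i‖) (fun i => ‖v0 i‖) (fun i => ‖v1 i‖)
    (fun i => by positivity) (fun i => norm_nonneg _) (fun i => norm_nonneg _) h1 s0 s1
  exact Summable.of_norm_bounded (h.mul_left _) (fun p => GP_norm A B c v0 v1 hA p)

theorem GP_hasSum (A B c v0 v1 : ι → ℂ) (hA : Summable (fun i => ‖A i - 1‖))
    (_h0 : ∀ i, ‖v0 i‖ ≤ 1) (h1 : ∀ i, ‖v1 i‖ ≤ 1)
    (s0 : Summable (fun i => ‖c i‖ * ‖B i‖ * ‖v0 i‖))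
    (s1 : Summable (fun i => ‖c i‖ * ‖B i‖ * ‖v1 i‖)) :
    HasSum (GP A B c v0 v1) (∏' i, (A i - c i * B i * (v0 i + v1 i - v0 i * v1 i))) := by
  have hS := GP_summable A B c v0 v1 hA h1 s0 s1
  have hx1 : Summable (fun i => ‖-(v1 i) * c i * B i‖) := by
    refine s1.congr fun i => ?_
    rw [norm_mul, norm_mul, norm_neg]; ring
  -- the inner sums
  have inner : ∀ S : Finset ι, HasSum (fun T : Finset ι => GP A B c v0 v1 (S, T))
      ((∏ i ∈ S, (-(v0 i) * (c i * B i * (1 - v1 i)))) *
        ∏' i, (if i ∈ S then (1 : ℂ) else 1 + (A i - v1 i * c i * B i - 1))) := by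
    intro S
    set a : ι → ℂ := fun i => (if i ∈ S then c i * B i else A i) - 1 with ha
    have ha1 : Summable (fun i => ‖a i‖) := by
      have h2 : Summable (fun i => ‖a i‖ - ‖A i - 1‖) := by
        apply summable_of_ne_finset_zero (s := S)
        intro i hi
        simp only [ha, if_neg hi, sub_self]
      have := h2.add hA
      simpa using this
    have h2 := lemX (fun i => -(v1 i) * c i * B i) a hx1 ha1
    have h3 := h2.mul_left (∏ i ∈ S, (-(v0 i)))
    have e1 : (fun T : Finset ι => (∏ i ∈ S, (-(v0 i))) * ((∏ i ∈ T, (-(v1 i) * c i * B i)) *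
        ∏' i, (if i ∈ T then (1 : ℂ) else 1 + a i))) =
        fun T : Finset ι => GP A B c v0 v1 (S, T) := by
      funext T
      unfold GP VV
      simp only
      rw [tprod_split B A hA (S ∪ T)]
      have e2 : (fun i => if i ∈ T then (1 : ℂ) else 1 + a i) =
          fun i => if i ∈ S \ T then c i * B i else (if i ∈ S ∪ T then (1 : ℂ) else A i) := by
        funext i
        simp only [ha, Finset.mem_sdiff, Finset.mem_union]
        by_cases hT : i ∈ T
        · simp [hT]
        · by_cases hSi : i ∈ S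
          · simp [hT, hSi]
          · simp [hT, hSi]
      have hA2 : Summable (fun i => ‖(if i ∈ S ∪ T then (1 : ℂ) else A i) - 1‖) := by
        refine Summable.of_nonneg_of_le (fun i => norm_nonneg _) (fun i => ?_) hA
        split_ifs
        · rw [sub_self, norm_zero]; exact norm_nonneg _
        · exact le_rfl
      rw [e2, tprod_split _ _ hA2 (S \ T)]
      have e3 : (fun i => if i ∈ S \ T then (1 : ℂ) else (if i ∈ S ∪ T then (1 : ℂ) else A i)) =
          fun i => if i ∈ S ∪ T then (1 : ℂ) else A i := by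
        funext i
        by_cases h : i ∈ S \ T
        · rw [if_pos h, if_pos]
          exact Finset.mem_union_left _ (Finset.mem_sdiff.1 h).1
        · rw [if_neg h]
      rw [e3]
      have e4 : (∏ i ∈ S ∪ T, c i) * (∏ i ∈ S ∪ T, B i) =
          (∏ i ∈ T, (c i * B i)) * ∏ i ∈ S \ T, (c i * B i) := by
        rw [← Finset.prod_mul_distrib, Finset.union_comm, ← Finset.union_sdiff_self_eq_union,
          Finset.prod_union disjoint_sdiff]
      have e5 : ∏ i ∈ T, (-(v1 i) * c i * B i) = (∏ i ∈ T, (-(v1 i))) * ∏ i ∈ T, (c i * B i) := by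
        rw [← Finset.prod_mul_distrib]
        exact Finset.prod_congr rfl fun i _ => by ring
      rw [e5]
      linear_combination (-(∏ i ∈ S, (-v0 i)) * (∏ i ∈ T, (-v1 i)) *
        (∏' i, if i ∈ S ∪ T then (1 : ℂ) else A i)) * e4
    rw [e1] at h3
    have hA1 : Summable (fun i => ‖(A i - v1 i * c i * B i) - 1‖) := by
      refine Summable.of_nonneg_of_le (fun i => norm_nonneg _) (fun i => ?_) (hA.add s1)
      have e : (A i - v1 i * c i * B i) - 1 = (A i - 1) - v1 i * c i * B i := by ring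
      rw [e]
      refine (norm_sub_le _ _).trans (add_le_add le_rfl (le_of_eq ?_))
      rw [norm_mul, norm_mul]; ring
    have e6 : (∏ i ∈ S, (-(v0 i))) * ∏' i, (1 + (-(v1 i) * c i * B i + a i)) =
        (∏ i ∈ S, (-(v0 i) * (c i * B i * (1 - v1 i)))) *
        ∏' i, (if i ∈ S then (1 : ℂ) else 1 + (A i - v1 i * c i * B i - 1)) := by
      have e7 : (fun i => 1 + (-(v1 i) * c i * B i + a i)) =
          fun i => if i ∈ S then c i * B i * (1 - v1 i) else A i - v1 i * c i * B i := by
        funext i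
        simp only [ha]
        split_ifs <;> ring
      have e8 : (fun i => if i ∈ S then (1 : ℂ) else 1 + (A i - v1 i * c i * B i - 1)) =
          fun i => if i ∈ S then (1 : ℂ) else A i - v1 i * c i * B i := by
        funext i
        split_ifs <;> ring
      rw [e7, e8, tprod_split _ _ hA1 S, Finset.prod_mul_distrib (f := fun i => -(v0 i))]
      ring
    rw [← e6]
    exact h3
  have h4 := hS.hasSum.prod_fiberwise inner
  -- the outer sum
  have hx2 : Summable (fun i => ‖-(v0 i) * (c i * B i * (1 - v1 i))‖) := by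
    refine Summable.of_nonneg_of_le (fun i => norm_nonneg _) (fun i => ?_) (s0.mul_left 2)
    rw [norm_mul, norm_neg, norm_mul, norm_mul]
    have h5 : ‖1 - v1 i‖ ≤ 2 := (norm_sub_le _ _).trans (by rw [norm_one]; linarith [h1 i])
    have h6 : 0 ≤ ‖c i‖ * ‖B i‖ * ‖v0 i‖ := by positivity
    nlinarith
  have ha2 : Summable (fun i => ‖A i - v1 i * c i * B i - 1‖) := by
    refine Summable.of_nonneg_of_le (fun i => norm_nonneg _) (fun i => ?_) (hA.add s1)
    have e : A i - v1 i * c i * B i - 1 = (A i - 1) - v1 i * c i * B i := by ring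
    rw [e]
    refine (norm_sub_le _ _).trans (add_le_add le_rfl (le_of_eq ?_))
    rw [norm_mul, norm_mul]; ring
  have h5 := lemX (fun i => -(v0 i) * (c i * B i * (1 - v1 i)))
    (fun i => A i - v1 i * c i * B i - 1) hx2 ha2
  have h6 := h4.unique h5
  have e9 : (fun i => 1 + (-(v0 i) * (c i * B i * (1 - v1 i)) + (A i - v1 i * c i * B i - 1))) =
      fun i => A i - c i * B i * (v0 i + v1 i - v0 i * v1 i) := by
    funext i; ring
  rw [e9] at h6
  rw [← h6]
  exact hS.hasSum

end

end Pool.Agent.N782.LX
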