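import Pool.Agent.N782.GV

set_option autoImplicit false
set_option maxHeartbeats 4000000

/-! The main range with the two sided Sobolev inequality (helper782). -/

namespace Pool.Agent.N782.GA

open Finset Filter Topology MeasureTheory Pool.Agent.H306R2.RZ Pool.Agent.H306R2.RG
open Pool.Agent.H228R2.RGN
open Pool.Agent.H228R2.RGMR5 (Mdg_eq)

noncomputable section

/-- two sided form of the Sobolev inequality: a zero forces `G` to go up and down -/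
theorem MR5V (φ : FD) (hφ : FG φ) (hC : CG φ) (δ : ℝ) (hδ : 0 < δ) (hδ1 : δ < 1 / 8)
    (ρ ζ χ : ℝ → ℝ) (hρ : RH δ ρ)
    (hζ : ST (-1 / 2) (-1 / 4) ζ) (θ' θ : ℝ) (hθ' : 0 < θ') (hθθ : θ' < θ) (hθ : θ < 1 / 2)
    (hχ : ST θ' θ χ) (c c' : ℝ → ℝ) (hc : ∀ x, HasDerivAt c (c' x) x) (hc' : Continuous c')
    (X0 : ℝ) (hX0 : 0 ≤ X0) (L : ℝ) (hL : 4 * X0 + 1 ≤ L) (d : ℕ) (hd : d ∈ SFg φ)
    (hbad : bad1g φ L X0 d) :
    2 ≤ Gtg φ L ρ ζ χ c d 0 ^ 2 + (Gtg φ L ρ ζ χ c d X0 ^ 2 +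
      ∫ x in (0 : ℝ)..X0, 2 * |Gtg φ L ρ ζ χ c d x| * |Gt1g φ L ρ ζ χ c c' d x|) := by
  have hL0 : 0 < L := by linarith
  obtain ⟨hw1, hw2, -, hw4, hw5⟩ := Pool.Agent.H66R2.RZW3.W3 ζ χ hζ θ' θ hθ' hθθ hθ hχ
  have hcc : Continuous c := continuous_iff_continuousAt.2 fun x => (hc x).continuousAt
  set β := beg φ L d with hβ
  have hfc : ContinuousOn (fun x => Nfg φ L (KGg φ L β (Ph ρ x)) d) (Set.Icc 0 X0) :=
    (Nfg_Ph_continuous hφ hρ hL0 β d).continuousOn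
  have hf1c : ContinuousOn (fun x => Nfg φ L (KGg φ L β (Ph1 ρ x)) d) (Set.Icc 0 X0) :=
    (Nfg_Ph1_continuous hφ hρ hL0 β d).continuousOn
  have hfd : ∀ x ∈ Set.Ioo 0 X0, HasDerivAt (fun z => Nfg φ L (KGg φ L β (Ph ρ z)) d)
      (Nfg φ L (KGg φ L β (Ph1 ρ x)) d) x := fun x _ => Nfg_Ph_hasDerivAt hφ hρ hL0 β d x
  have hmd : ∀ x, HasDerivAt (fun z => Mdg φ 2 L (qf ζ χ z) d) (Mdg φ 2 L (qf1 ζ χ x) d) x := by
    intro x
    rw [Mdg_eq φ hL0 (hw1 x).2 d]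
    have e : (fun z => Mdg φ 2 L (qf ζ χ z) d) = fun z =>
        ∑ n ∈ range (⌊Real.exp (θ * L)⌋₊ + 1), if Nat.Coprime n 2 then
        ((ArithmeticFunction.moebius n : ℤ) : ℝ) * jo φ d n / Real.sqrt n *
        qf ζ χ z (Real.log n / L) else 0 := by
      funext z
      exact Mdg_eq φ hL0 (hw1 z).1 d
    rw [e]
    apply HasDerivAt.fun_sum
    intro n _
    split_ifs
    · exact (hw2 x _).const_mul _
    · exact hasDerivAt_const _ _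
  have hmc : Continuous (fun z => Mdg φ 2 L (qf ζ χ z) d) :=
    continuous_iff_continuousAt.2 fun x => (hmd x).continuousAt
  have hm1c : Continuous (fun z => Mdg φ 2 L (qf1 ζ χ z) d) := by
    have e : (fun z => Mdg φ 2 L (qf1 ζ χ z) d) = fun z =>
        ∑ n ∈ range (⌊Real.exp (θ * L)⌋₊ + 1), if Nat.Coprime n 2 then
        ((ArithmeticFunction.moebius n : ℤ) : ℝ) * jo φ d n / Real.sqrt n *
        qf1 ζ χ z (Real.log n / L) else 0 := by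
      funext z
      exact Mdg_eq φ hL0 (hw1 z).2 d
    rw [e]
    refine continuous_finsetSum _ fun n _ => ?_
    split_ifs
    · refine continuous_const.mul ?_
      exact hw5.comp (continuous_id.prodMk continuous_const)
    · exact continuous_const
  have hGc : ContinuousOn (fun x => Gtg φ L ρ ζ χ c d x) (Set.Icc 0 X0) := by
    unfold Gtg
    exact continuousOn_const.sub ((hcc.div_const _).continuousOn.mul (hfc.mul hmc.continuousOn))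
  have hG1c : ContinuousOn (fun x => Gt1g φ L ρ ζ χ c c' d x) (Set.Icc 0 X0) := by
    unfold Gt1g
    exact (((hc'.div_const _).continuousOn.mul (hfc.mul hmc.continuousOn)).add
      ((hcc.div_const _).continuousOn.mul
      ((hf1c.mul hmc.continuousOn).add (hfc.mul hm1c.continuousOn)))).neg
  have hGd : ∀ x ∈ Set.Ioo 0 X0, HasDerivAt (fun z => Gtg φ L ρ ζ χ c d z)
      (Gt1g φ L ρ ζ χ c c' d x) x := by
    intro x hx
    unfold Gtg Gt1g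
    have h1 := (((hc x).div_const (ceg φ)).mul ((hfd x hx).mul (hmd x))).const_sub 1
    refine h1.congr_deriv ?_
    simp only [Pi.mul_apply]
    ring
  -- the zero
  obtain ⟨x0, h0, h1, h2⟩ := hbad
  have hG0 : Gtg φ L ρ ζ χ c d x0 = 1 := by
    unfold Gtg
    rw [hC.afe d hd.1 hd.2 δ hδ ρ hρ L hL0 x0 h0, h2]
    ring
  have hcont2 : ContinuousOn (fun x => 2 * |Gtg φ L ρ ζ χ c d x| * |Gt1g φ L ρ ζ χ c c' d x|)
      (Set.Icc 0 X0) := (continuousOn_const.mul hGc.abs).mul hG1c.abs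
  have hcont1 : ContinuousOn (fun x => 2 * Gtg φ L ρ ζ χ c d x * Gt1g φ L ρ ζ χ c c' d x)
      (Set.Icc 0 X0) := (continuousOn_const.mul hGc).mul hG1c
  -- the general step
  have hstep : ∀ a b : ℝ, 0 ≤ a → a ≤ b → b ≤ X0 →
      |Gtg φ L ρ ζ χ c d b ^ 2 - Gtg φ L ρ ζ χ c d a ^ 2| ≤
      ∫ x in a..b, 2 * |Gtg φ L ρ ζ χ c d x| * |Gt1g φ L ρ ζ χ c c' d x| := by
    intro a b ha hab hb
    have hsub : Set.Icc a b ⊆ Set.Icc 0 X0 := Set.Icc_subset_Icc ha hb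
    have hftc : ∫ x in a..b, 2 * Gtg φ L ρ ζ χ c d x * Gt1g φ L ρ ζ χ c c' d x =
        Gtg φ L ρ ζ χ c d b ^ 2 - Gtg φ L ρ ζ χ c d a ^ 2 := by
      apply intervalIntegral.integral_eq_sub_of_hasDerivAt_of_le hab
        ((hGc.mono hsub).pow 2)
      · intro x hx
        have h3 := (hGd x ⟨lt_of_le_of_lt ha hx.1, lt_of_lt_of_le hx.2 hb⟩).pow 2
        refine h3.congr_deriv ?_
        norm_num
      · apply ContinuousOn.intervalIntegrable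
        rw [Set.uIcc_of_le hab]
        exact hcont1.mono hsub
    rw [← hftc]
    refine (intervalIntegral.abs_integral_le_integral_abs hab).trans (le_of_eq ?_)
    apply intervalIntegral.integral_congr
    intro x _
    simp only
    rw [abs_mul, abs_mul, abs_of_pos (show (0 : ℝ) < 2 by norm_num)]
  have i1 := hstep 0 x0 le_rfl h0 h1
  have i2 := hstep x0 X0 h0 h1 le_rfl
  have hi2' : IntervalIntegrable (fun x => 2 * |Gtg φ L ρ ζ χ c d x| * |Gt1g φ L ρ ζ χ c c' d x|)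
      volume x0 X0 := by
    apply ContinuousOn.intervalIntegrable
    rw [Set.uIcc_of_le h1]
    exact hcont2.mono (Set.Icc_subset_Icc_left h0)
  have hi2'' : IntervalIntegrable (fun x => 2 * |Gtg φ L ρ ζ χ c d x| * |Gt1g φ L ρ ζ χ c c' d x|)
      volume 0 x0 := by
    apply ContinuousOn.intervalIntegrable
    rw [Set.uIcc_of_le h0]
    exact hcont2.mono (Set.Icc_subset_Icc_right h1)
  have hadd := intervalIntegral.integral_add_adjacent_intervals hi2'' hi2'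
  rw [hG0] at i1 i2
  have j1 := (le_abs_self _).trans i1
  have j2 := (neg_abs_le _).trans' (neg_le_neg i2)
  linarith

variable {φ : FD} {ω ν : ℝ → ℕ → ℝ}

/-- the main range for a general average, two sided -/
theorem MRW {s' : ℝ} (hφ : FG φ) (hC : CG φ) (hGp : GE φ s' ω) (hGW : GE φ s' ν) {Cs K : ℝ}
    (hCs : 0 ≤ Cs) (hd : ∀ L d, ω L d ≤ Cs * ν L d) (hK0 : 0 ≤ K) (hM1 : M1 φ s' K ω)
    (hM2 : M2 φ s' K ν) (δ : ℝ) (hδ : 0 < δ) (hδ1 : δ < 1 / 8) (χ : ℝ → ℝ)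
    (θ' θ : ℝ) (hθ' : 0 < θ') (hθθ : θ' < θ)
    (hA : AdmV (1 / 2 + 3 * δ) θ s') (hχ : ST θ' θ χ) (c c' : ℝ → ℝ)
    (hc : ∀ x, HasDerivAt c (c' x) x) (hc' : Continuous c') (X0 : ℝ) (hX0 : 0 ≤ X0) (ε : ℝ)
    (hε : 0 < ε) :
    ∃ L0 : ℝ, ∀ L : ℝ, L0 ≤ L →
      EA (ω L) ((SFg φ ∩ {d | bad1g φ L X0 d}).indicator (fun _ => 1)) ≤
      K / 2 * (vv (c 0) (Bx χ 0) (Cs * nx χ) (ax 0) +
        (vv (c X0) (Bx χ X0) (Cs * nx χ) (ax X0) +
        ∫ x in (0 : ℝ)..X0, 2 * Real.sqrt (vv (c x) (Bx χ x) (Cs * nx χ) (ax x) *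
          ww (c x) (c' x) (Bx χ x) (Bx1 χ x) (Cs * nx χ) (ax x) (ax1 x) (ax2 x)))) + ε := by
  obtain ⟨w1, w2, w3⟩ := Pool.Agent.H692R2.RZ2W0.W0
  obtain ⟨ρ, hρ⟩ := w1 δ hδ
  obtain ⟨κ, hκ⟩ := w2 δ 1 hδ one_pos
  obtain ⟨ζ, hζ⟩ := w3 (-1 / 2) (-1 / 4) (by norm_num)
  obtain ⟨L1, h1⟩ := MR3V hφ hGp hGW hCs hd hK0 hM1 hM2 δ 1 hδ hδ1 one_pos le_rfl ρ κ ζ χ hρ hκ hζ
    θ' θ hθ' hθθ hA hχ c c' hc hc' X0 hX0 (ε / 2) (by linarith)
  obtain ⟨L2, h2⟩ := MR4G hφ hGp δ 1 hδ hδ1 one_pos le_rfl ρ κ ζ χ hρ hκ hζ θ' θ hθ' hθθ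
    hA hχ c c' hc hc' X0 hX0 (ε / 2) (by linarith)
  obtain ⟨L1', h1'⟩ := MR3V hφ hGp hGW hCs hd hK0 hM1 hM2 δ 1 hδ hδ1 one_pos le_rfl ρ κ ζ χ hρ hκ
    hζ θ' θ hθ' hθθ hA hχ c c' hc hc' 0 le_rfl (ε / 2) (by linarith)
  obtain ⟨L2', h2'⟩ := MR4G hφ hGp δ 1 hδ hδ1 one_pos le_rfl ρ κ ζ χ hρ hκ hζ θ' θ hθ' hθθ
    hA hχ c c' hc hc' 0 le_rfl (ε / 2) (by linarith)
  refine ⟨max (max (max L1 L1') (max L2 L2')) (4 * X0 + 1), fun L hL => ?_⟩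
  have hLL := le_trans (le_max_left _ _) hL
  have hL1 : L1 ≤ L := le_trans (le_trans (le_max_left _ _) (le_max_left _ _)) hLL
  have hL1' : L1' ≤ L := le_trans (le_trans (le_max_right _ _) (le_max_left _ _)) hLL
  have hL2 : L2 ≤ L := le_trans (le_trans (le_max_left _ _) (le_max_right _ _)) hLL
  have hL2' : L2' ≤ L := le_trans (le_trans (le_max_right _ _) (le_max_right _ _)) hLL
  have hL3 : 4 * X0 + 1 ≤ L := le_trans (le_max_right _ _) hL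
  have k1 := h1 L hL1
  have k2 := h2 L hL2
  have k1' := h1' L hL1'
  have k2' := h2' L hL2'
  simp only [intervalIntegral.integral_same, add_zero] at k1' k2'
  obtain ⟨A, hAd⟩ : ∃ A : ℕ → ℝ, A = fun d => Gtg φ L ρ ζ χ c d X0 ^ 2 +
      ∫ x in (0 : ℝ)..X0, 2 * |Gtg φ L ρ ζ χ c d x| * |Gt1g φ L ρ ζ χ c c' d x| := ⟨_, rfl⟩
  obtain ⟨B, hBd⟩ : ∃ B : ℕ → ℝ, B = fun d => G0g φ 2 L (c X0) (Wf ρ κ X0) (qf ζ χ X0) d ^ 2 +
        ∫ x in (0 : ℝ)..X0, 2 * |G0g φ 2 L (c x) (Wf ρ κ x) (qf ζ χ x) d| *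
          |G1g φ 2 L (c x) (c' x) (Wf ρ κ x) (Wf1 ρ κ x) (qf ζ χ x) (qf1 ζ χ x) d| := ⟨_, rfl⟩
  obtain ⟨A', hAd'⟩ : ∃ A' : ℕ → ℝ, A' = fun d => Gtg φ L ρ ζ χ c d 0 ^ 2 := ⟨_, rfl⟩
  obtain ⟨B', hBd'⟩ : ∃ B' : ℕ → ℝ, B' = fun d =>
      G0g φ 2 L (c 0) (Wf ρ κ 0) (qf ζ χ 0) d ^ 2 := ⟨_, rfl⟩
  have hB0 : ∀ d, 0 ≤ B d := by
    intro d
    rw [hBd]
    refine add_nonneg (sq_nonneg _) (intervalIntegral.integral_nonneg hX0 fun x _ => ?_)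
    positivity
  have hB0' : ∀ d, 0 ≤ B' d := by
    intro d
    rw [hBd']
    exact sq_nonneg _
  rw [← hBd] at k1
  rw [← hBd'] at k1'
  have j2 : EA (ω L) (fun d => |A d - B d|) ≤ ε / 2 := by
    rw [hAd, hBd]
    exact k2
  have j2' : EA (ω L) (fun d => |A' d - B' d|) ≤ ε / 2 := by
    rw [hAd', hBd']
    exact k2'
  have k3 : 2 * EA (ω L) ((SFg φ ∩ {d | bad1g φ L X0 d}).indicator (fun _ => 1)) ≤
      (EA (ω L) B + EA (ω L) (fun d => |A d - B d|)) +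
      (EA (ω L) B' + EA (ω L) (fun d => |A' d - B' d|)) := by
    rw [← EA_smul, ← EA_add hGp.toGW, ← EA_add hGp.toGW, ← EA_add hGp.toGW]
    refine EA_mono hGp.toGW L fun d _ => ?_
    by_cases hd : d ∈ SFg φ ∩ {d | bad1g φ L X0 d}
    · rw [Set.indicator_of_mem hd]
      obtain ⟨⟨ho, hsq⟩, hbad⟩ := hd
      have h5 : 2 ≤ A' d + A d := by
        rw [hAd, hAd']
        exact MR5V φ hφ hC δ hδ hδ1 ρ ζ χ hρ hζ θ' θ hθ' hθθ hA.hθ1 hχ c c' hc hc' X0 hX0 L hL3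
          d ⟨ho, hsq⟩ hbad
      have := le_abs_self (A d - B d)
      have := le_abs_self (A' d - B' d)
      linarith
    · rw [Set.indicator_of_notMem hd]
      have := abs_nonneg (A d - B d)
      have := abs_nonneg (A' d - B' d)
      have := hB0 d
      have := hB0' d
      linarith
  linarith

end

end Pool.Agent.N782.GA
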