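import Pool.Agent.H423R2.RGL.OldN
import Pool.Agent.H66R2.RZ3_ND1

set_option autoImplicit false

/-! Numerical bound with a larger variance (helper782). -/

namespace Pool.Agent.N782.ND

open Finset Filter Topology MeasureTheory Pool.Agent.H306R2.RZ
open Pool.Agent.H166R2.RZ3 (Bn_zero ax_zero)

noncomputable section

/-- the choice of the parameters -/
def cK (k θ x : ℝ) : ℝ := 1 / (Bn θ x + k * Real.sqrt (ax x))
def cK1 (k θ x : ℝ) : ℝ :=
  -(Bn1 θ x + k * (ax1 x / (2 * Real.sqrt (ax x)))) / (Bn θ x + k * Real.sqrt (ax x)) ^ 2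
def zK (k θ x : ℝ) : ℝ := cK k θ x * Real.sqrt (ax x)
def PhK (k n C z : ℝ) : ℝ :=
  (k ^ 2 + n) * z ^ 2 + 4 * n * C / k ^ 2 * (1 / (1 - k * z) + Real.log (1 - k * z) - 1)

/-- the final bound -/
def JK (r C : ℝ) : ℝ := r / (1 + r) + 4 * C * ((r - Real.log (1 + r)) / r)

theorem cK_deriv (k θ : ℝ) (hk : 0 < k) (hθ : 0 < θ) :
    (∀ x, HasDerivAt (cK k θ) (cK1 k θ x) x) ∧ Continuous (cK1 k θ) ∧ Continuous (cK k θ) := by
  obtain ⟨hB, hBc, hBp⟩ := Pool.Agent.H372R2.RZNA1.NA1 θ hθ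
  obtain ⟨ha, hac, -, hap⟩ := Pool.Agent.H662R2.RZNA2.NA2
  have hq : ∀ x, 0 < Bn θ x + k * Real.sqrt (ax x) := fun x =>
    add_pos_of_pos_of_nonneg (hBp x) (mul_nonneg hk.le (Real.sqrt_nonneg _))
  have hd : ∀ x, HasDerivAt (cK k θ) (cK1 k θ x) x := by
    intro x
    have h1 : HasDerivAt (fun x => Bn θ x + k * Real.sqrt (ax x))
        (Bn1 θ x + k * (ax1 x / (2 * Real.sqrt (ax x)))) x :=
      (hB x).add (((ha x).sqrt (hap x).ne').const_mul k)
    have h2 := h1.inv (hq x).ne'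
    have h3 : cK k θ = fun x => (Bn θ x + k * Real.sqrt (ax x))⁻¹ := by
      funext y
      unfold cK
      rw [one_div]
    rw [h3]
    exact h2
  refine ⟨hd, ?_, continuous_iff_continuousAt.mpr fun x => (hd x).continuousAt⟩
  have cB : Continuous (Bn θ) := continuous_iff_continuousAt.mpr fun x => (hB x).continuousAt
  have ca : Continuous ax := continuous_iff_continuousAt.mpr fun x => (ha x).continuousAt
  have cs : Continuous fun x => Real.sqrt (ax x) := Real.continuous_sqrt.comp ca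
  unfold cK1
  refine Continuous.div ?_ ?_ ?_
  · refine (hBc.add (continuous_const.mul (hac.div (continuous_const.mul cs) ?_))).neg
    intro x
    exact mul_ne_zero two_ne_zero (Real.sqrt_pos.mpr (hap x)).ne'
  · exact (cB.add (continuous_const.mul cs)).pow 2
  · intro x
    exact pow_ne_zero 2 (hq x).ne'

theorem PhK_deriv (k n C z : ℝ) (hk : 0 < k) (hz : 0 < 1 - k * z) :
    HasDerivAt (PhK k n C) (2 * (k ^ 2 + n) * z + 4 * n * C * z / (1 - k * z) ^ 2) z := by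
  have h1 : HasDerivAt (fun z : ℝ => 1 - k * z) (-k) z := by
    have := ((hasDerivAt_id z).const_mul k).const_sub 1
    simpa using this
  have h2 : HasDerivAt (fun z : ℝ => 1 / (1 - k * z)) (k / (1 - k * z) ^ 2) z := by
    have h6 := h1.inv hz.ne'
    have e6 : (fun z : ℝ => 1 / (1 - k * z)) = (fun z : ℝ => 1 - k * z)⁻¹ := by
      funext z; simp
    rw [e6]
    have e7 : k / (1 - k * z) ^ 2 = -(-k) / (1 - k * z) ^ 2 := by rw [neg_neg]
    rw [e7]
    exact h6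
  have h3 : HasDerivAt (fun z : ℝ => Real.log (1 - k * z)) (-k / (1 - k * z)) z :=
    h1.log hz.ne'
  have h4 : HasDerivAt (fun z : ℝ => (k ^ 2 + n) * z ^ 2) ((k ^ 2 + n) * (2 * z)) z := by
    have := (hasDerivAt_pow 2 z).const_mul (k ^ 2 + n)
    simpa using this
  have h5 := h4.add (((h2.add h3).sub_const 1).const_mul (4 * n * C / k ^ 2))
  have e : (k ^ 2 + n) * (2 * z) + 4 * n * C / k ^ 2 *
      (k / (1 - k * z) ^ 2 + -k / (1 - k * z)) =
      2 * (k ^ 2 + n) * z + 4 * n * C * z / (1 - k * z) ^ 2 := by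
    field_simp
    ring
  rw [← e]
  exact h5

theorem ND1 (k n θ C x : ℝ) (hk : 0 < k) (hn : 0 < n) (hθ : 0 < θ) (hC : 0 ≤ C) (hy : 0 < yN θ x)
    (hV : VN x ≤ C * yN θ x ^ 2) :
    ∃ D : ℝ, HasDerivAt (fun t => PhK k n C (zK k θ t)) D x ∧
      2 * Real.sqrt (vv (cK k θ x) (Bn θ x) n (ax x) *
        ww (cK k θ x) (cK1 k θ x) (Bn θ x) (Bn1 θ x) n (ax x) (ax1 x) (ax2 x)) ≤ -D := by
  obtain ⟨hB, -, hBpos⟩ := Pool.Agent.H372R2.RZNA1.NA1 θ hθ
  obtain ⟨ha, -, -, hapos⟩ := Pool.Agent.H662R2.RZNA2.NA2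
  have hB0 := hBpos x
  have ha0 := hapos x
  set w := Real.sqrt (ax x) with hw
  have hw0 : 0 < w := Real.sqrt_pos.mpr ha0
  have hw2 : w ^ 2 = ax x := Real.sq_sqrt ha0.le
  have hdw : HasDerivAt (fun t => Real.sqrt (ax t)) (ax1 x / (2 * w)) x := (ha x).sqrt ha0.ne'
  have hq0 : 0 < Bn θ x + k * w := by positivity
  have hc : HasDerivAt (cK k θ) (cK1 k θ x) x := (cK_deriv k θ hk hθ).1 x
  have hz : HasDerivAt (zK k θ) (cK1 k θ x * w + cK k θ x * (ax1 x / (2 * w))) x := hc.mul hdw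
  have hzval : zK k θ x = w / (Bn θ x + k * w) := by
    unfold zK cK
    rw [← hw]; ring
  have hzpos : 0 < zK k θ x := by rw [hzval]; positivity
  have hm : 1 - k * zK k θ x = Bn θ x / (Bn θ x + k * w) := by
    rw [hzval]; field_simp; ring
  have hmpos : 0 < 1 - k * zK k θ x := by rw [hm]; positivity
  set Z := cK1 k θ x * w + cK k θ x * (ax1 x / (2 * w)) with hZ
  have hZval : Z = -(zK k θ x * (1 - k * zK k θ x) * yN θ x / 2) := by
    rw [hm, hzval, hZ]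
    unfold cK1 cK yN
    rw [← hw, ← hw2]
    field_simp
    ring
  refine ⟨(2 * (k ^ 2 + n) * zK k θ x + 4 * n * C * zK k θ x / (1 - k * zK k θ x) ^ 2) * Z,
    (PhK_deriv k n C (zK k θ x) hk hmpos).comp x hz, ?_⟩
  have hvv : vv (cK k θ x) (Bn θ x) n (ax x) = (k ^ 2 + n) * zK k θ x ^ 2 := by
    unfold vv
    rw [hzval]
    unfold cK
    rw [← hw, ← hw2]
    field_simp
    ring
  have hww : ww (cK k θ x) (cK1 k θ x) (Bn θ x) (Bn1 θ x) n (ax x) (ax1 x) (ax2 x) =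
      (k ^ 2 + n) * Z ^ 2 + n * zK k θ x ^ 2 * VN x := by
    unfold ww VN
    rw [hzval, hZ]
    unfold cK1 cK
    rw [← hw, ← hw2]
    field_simp
    ring
  rw [hvv, hww]
  exact Pool.Agent.H66R2.RZND1.ineq (k ^ 2 + n) n C (VN x) (zK k θ x) Z (yN θ x)
    (1 - k * zK k θ x) (by positivity) hn hC hV hzpos hmpos hy hZval

theorem zK_eq (k θ x : ℝ) : zK k θ x = Real.sqrt (ax x) / (Bn θ x + k * Real.sqrt (ax x)) := by
  unfold zK cK
  ring

theorem den_pos {k θ : ℝ} (hk : 0 < k) (hθ : 0 < θ) (x : ℝ) :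
    0 < Bn θ x + k * Real.sqrt (ax x) := by
  have h1 := (Pool.Agent.H372R2.RZNA1.NA1 θ hθ).2.2 x
  positivity

theorem one_sub_kz {k θ : ℝ} (hk : 0 < k) (hθ : 0 < θ) (x : ℝ) :
    1 - k * zK k θ x = Bn θ x / (Bn θ x + k * Real.sqrt (ax x)) := by
  have h := (den_pos hk hθ x).ne'
  rw [zK_eq]
  field_simp
  ring

theorem one_sub_kz_pos {k θ : ℝ} (hk : 0 < k) (hθ : 0 < θ) (x : ℝ) : 0 < 1 - k * zK k θ x := by
  rw [one_sub_kz hk hθ x]
  exact div_pos ((Pool.Agent.H372R2.RZNA1.NA1 θ hθ).2.2 x) (den_pos hk hθ x)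

theorem vv_eq {k θ : ℝ} (hk : 0 < k) (hθ : 0 < θ) (n x : ℝ) :
    vv (cK k θ x) (Bn θ x) n (ax x) = (k ^ 2 + n) * zK k θ x ^ 2 := by
  have h := (den_pos hk hθ x).ne'
  have hs : Real.sqrt (ax x) ^ 2 = ax x := Real.sq_sqrt (Pool.Agent.H662R2.RZNA2.NA2.2.2.2 x).le
  have e1 : 1 - cK k θ x * Bn θ x = k * zK k θ x := by
    unfold zK cK
    field_simp
    ring
  unfold vv
  rw [e1]
  have e2 : cK k θ x ^ 2 * n * ax x = n * zK k θ x ^ 2 := by
    unfold zK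
    rw [mul_pow, hs]
    ring
  rw [e2]
  ring

theorem PhK_ge {k n C z : ℝ} (hk : 0 < k) (hn : 0 < n) (hC : 0 ≤ C) (h : 0 < 1 - k * z) :
    (k ^ 2 + n) * z ^ 2 ≤ PhK k n C z := by
  unfold PhK
  have h1 := Real.one_sub_inv_le_log_of_pos h
  have h2 : 0 ≤ 4 * n * C / k ^ 2 := by positivity
  have h3 : 0 ≤ 1 / (1 - k * z) + Real.log (1 - k * z) - 1 := by
    rw [one_div]
    linarith
  have := mul_nonneg h2 h3
  linarith

theorem cont_PhK {k θ : ℝ} (n C : ℝ) (hk : 0 < k) (hθ : 0 < θ) :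
    Continuous (fun x => PhK k n C (zK k θ x)) := by
  have ca : Continuous ax := continuous_iff_continuousAt.mpr fun x =>
    (Pool.Agent.H662R2.RZNA2.NA2.1 x).continuousAt
  have h1 : Continuous (zK k θ) := by
    have := (cK_deriv k θ hk hθ).2.2
    unfold zK
    fun_prop
  have h2 : ∀ x, 1 - k * zK k θ x ≠ 0 := fun x => (one_sub_kz_pos hk hθ x).ne'
  have h3 : Continuous (fun x => 1 - k * zK k θ x) := by fun_prop
  unfold PhK
  refine Continuous.add (by fun_prop) (continuous_const.mul ?_)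
  exact ((continuous_const.div h3 h2).add (h3.log h2)).sub continuous_const

/-- the value at `0` -/
theorem PhK_zero {Cs θ : ℝ} (C : ℝ) (hθ : 0 < θ) (hCs : 0 < Cs) :
    PhK (Cs * kN θ) (Cs * θ) C (zK (Cs * kN θ) θ 0) = JK (Cs * rN θ) C := by
  have hs6 : (0 : ℝ) < Real.sqrt 6 := Real.sqrt_pos.2 (by norm_num)
  have hs6' : Real.sqrt 6 ^ 2 = 6 := Real.sq_sqrt (by norm_num)
  have h1 : Real.sqrt (ax 0) = 1 / (2 * Real.sqrt 6) := by
    rw [ax_zero]
    rw [show (1 : ℝ) / 24 = (1 / (2 * Real.sqrt 6)) ^ 2 by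
      rw [div_pow, mul_pow, hs6']; norm_num]
    exact Real.sqrt_sq (by positivity)
  have hr : 0 < rN θ := by unfold rN; positivity
  have hk : kN θ ^ 2 = 1 / (6 * (1 + θ) ^ 2) := by
    unfold kN
    rw [div_pow, mul_pow, hs6']
    norm_num
  have hkpos : 0 < kN θ := by unfold kN; positivity
  set k := Cs * kN θ with hkk
  have hkp : 0 < k := by positivity
  set r := Cs * rN θ with hrr
  have hrp : 0 < r := by positivity
  have hkz : k * zK k θ 0 = r / (1 + r) := by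
    rw [zK_eq, h1, Bn_zero]
    have e1 : kN θ * (1 / (2 * Real.sqrt 6)) = 1 / (12 * (1 + θ)) := by
      unfold kN
      have : 1 / (Real.sqrt 6 * (1 + θ)) * (1 / (2 * Real.sqrt 6)) =
        1 / (2 * Real.sqrt 6 ^ 2 * (1 + θ)) := by
        field_simp
      rw [this, hs6']
      norm_num
    have e2 : k * (1 / (2 * Real.sqrt 6)) = Cs * (1 / (12 * (1 + θ))) := by
      rw [hkk, mul_assoc, e1]
    rw [← mul_div_assoc, e2, hrr]
    unfold rN
    have : (0 : ℝ) < 1 + θ := by linarith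
    field_simp
    ring
  have h2 : 1 - k * zK k θ 0 = 1 / (1 + r) := by
    rw [hkz]
    field_simp
    ring
  have h3 : zK k θ 0 ^ 2 = (r / (1 + r)) ^ 2 / k ^ 2 := by
    rw [← hkz]
    field_simp
  have h4 : Cs * θ / k ^ 2 = 1 / r := by
    rw [hkk, mul_pow, hk, hrr]
    unfold rN
    have : (0 : ℝ) < 1 + θ := by linarith
    field_simp
  unfold PhK JK
  rw [h2, h3]
  have e5 : (k ^ 2 + Cs * θ) * ((r / (1 + r)) ^ 2 / k ^ 2) =
      (r / (1 + r)) ^ 2 * (1 + Cs * θ / k ^ 2) := by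
    field_simp
  have e6 : 4 * (Cs * θ) * C / k ^ 2 = 4 * C * (Cs * θ / k ^ 2) := by ring
  rw [e5, e6, h4, one_div (1 + r), Real.log_inv]
  field_simp
  ring

theorem ND2 (Cs θ C X0 : ℝ) (hCs : 0 < Cs) (hθ : 0 < θ) (hC : 0 ≤ C) (hX0 : 0 ≤ X0)
    (h : ∀ x : ℝ, 0 < x → 0 < yN θ x ∧ VN x ≤ C * yN θ x ^ 2) :
    vv (cK (Cs * kN θ) θ X0) (Bn θ X0) (Cs * θ) (ax X0) + (∫ x in (0 : ℝ)..X0, 2 * Real.sqrt (
        vv (cK (Cs * kN θ) θ x) (Bn θ x) (Cs * θ) (ax x) *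
        ww (cK (Cs * kN θ) θ x) (cK1 (Cs * kN θ) θ x) (Bn θ x) (Bn1 θ x) (Cs * θ) (ax x) (ax1 x)
          (ax2 x))) ≤ JK (Cs * rN θ) C := by
  have hkpos : 0 < kN θ := by unfold kN; positivity
  set k := Cs * kN θ with hkk
  have hk : 0 < k := by positivity
  have hn : 0 < Cs * θ := by positivity
  have hNA1 := Pool.Agent.H372R2.RZNA1.NA1 θ hθ
  have hNA2 := Pool.Agent.H662R2.RZNA2.NA2
  obtain ⟨hd, hc1, hc⟩ := cK_deriv k θ hk hθ
  have hB : Continuous (Bn θ) := continuous_iff_continuousAt.mpr fun x => (hNA1.1 x).continuousAt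
  have hB1 := hNA1.2.1
  have ha : Continuous ax := continuous_iff_continuousAt.mpr fun x => (hNA2.1 x).continuousAt
  have ha1 := hNA2.2.1
  have ha2 := hNA2.2.2.1
  have hcont : Continuous (fun x : ℝ => 2 * Real.sqrt (
        vv (cK k θ x) (Bn θ x) (Cs * θ) (ax x) *
        ww (cK k θ x) (cK1 k θ x) (Bn θ x) (Bn1 θ x) (Cs * θ) (ax x) (ax1 x) (ax2 x))) := by
    unfold vv ww
    fun_prop
  have hF := (cont_PhK (Cs * θ) C hk hθ).neg
  have key := intervalIntegral.integral_le_sub_of_hasDeriv_right_of_le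
    (g := fun x => - PhK k (Cs * θ) C (zK k θ x))
    (g' := deriv (fun x => - PhK k (Cs * θ) C (zK k θ x)))
    (φ := fun x : ℝ => 2 * Real.sqrt (
        vv (cK k θ x) (Bn θ x) (Cs * θ) (ax x) *
        ww (cK k θ x) (cK1 k θ x) (Bn θ x) (Bn1 θ x) (Cs * θ) (ax x) (ax1 x) (ax2 x)))
    hX0 hF.continuousOn ?_ hcont.integrableOn_Icc ?_
  · have h1 : vv (cK k θ X0) (Bn θ X0) (Cs * θ) (ax X0) ≤ PhK k (Cs * θ) C (zK k θ X0) := by
      rw [vv_eq hk hθ]
      exact PhK_ge hk hn hC (one_sub_kz_pos hk hθ X0)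
    have h2 := PhK_zero C hθ hCs
    rw [← hkk] at h2
    linarith
  · intro x hx
    obtain ⟨D, hD, -⟩ := ND1 k (Cs * θ) θ C x hk hn hθ hC (h x hx.1).1 (h x hx.1).2
    exact (hD.neg.differentiableAt.hasDerivAt).hasDerivWithinAt
  · intro x hx
    obtain ⟨D, hD, hle⟩ := ND1 k (Cs * θ) θ C x hk hn hθ hC (h x hx.1).1 (h x hx.1).2
    have e : deriv (fun x => - PhK k (Cs * θ) C (zK k θ x)) x = -D := hD.neg.deriv
    rw [e]
    exact hle

end

end Pool.Agent.N782.ND
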