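import Pool.Agent.N782.QG
import Pool.Agent.N782.GI
import Mathlib.NumberTheory.Chebyshev

set_option autoImplicit false

/-! The average over primes and sums with the von Mangoldt function (helper782). -/

namespace Pool.Agent.N782.Q

open Finset Filter Topology MeasureTheory
open Pool.Agent.H306R2.RZ (js osf sqf TF Ft cas)
open Pool.Agent.H306R2.RG (F8)
open H343 (Test PSm)
open Pool.Agent.N782.GI (omp TF_supp)
open Pool.Agent.N782.GA (EA)
open Pool.Agent.H355R3.RZ4HE (mem_osf)
open Pool.Agent.H423R2.RZL.LS4n (dc dc_spec js_mulL abs_js_le)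

noncomputable section

theorem sum_card_sq_div (Y : ℕ) :
    ∑ n ∈ Icc 1 Y, (n.divisors.card : ℝ) ^ 2 / n ≤ (1 + Real.log Y) ^ 4 := by
  have hl : 0 ≤ 1 + Real.log Y := by
    have := Real.log_natCast_nonneg Y
    linarith
  have h1 : ∑ n ∈ Icc 1 Y, (n.divisors.card : ℝ) ^ 2 / n ≤
      ∑ c ∈ Icc 1 Y, ∑ b ∈ Icc 1 (Y / c), ((b.divisors.card : ℝ) / b) * ((c.divisors.card : ℝ) / c) := by
    rw [← Pool.Agent.H398R2.BV.hyperC Y
      (fun b c => ((b.divisors.card : ℝ) / b) * ((c.divisors.card : ℝ) / c))]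
    apply sum_le_sum
    intro n hn
    rw [mem_Icc] at hn
    have : ∀ i ∈ n.divisorsAntidiagonal, (n.divisors.card : ℝ) / n ≤
        ((i.1.divisors.card : ℝ) / i.1) * ((i.2.divisors.card : ℝ) / i.2) := by
      intro i hi
      rw [Nat.mem_divisorsAntidiagonal] at hi
      rw [div_mul_div_comm]
      have e1 : ((i.1 : ℝ) * i.2) = n := by rw [← hi.1]; push_cast; ring
      rw [e1]
      apply div_le_div_of_nonneg_right _ (Nat.cast_nonneg _)
      rw [← hi.1]
      exact_mod_cast Pool.Agent.H398R2.BV.card_div_mul_le i.1 i.2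
    calc (n.divisors.card : ℝ) ^ 2 / n = ∑ i ∈ n.divisorsAntidiagonal, (n.divisors.card : ℝ) / n := by
          rw [sum_const, nsmul_eq_mul, ← Nat.map_div_right_divisors, card_map]
          ring
      _ ≤ _ := sum_le_sum this
  refine h1.trans ?_
  calc _ ≤ ∑ c ∈ Icc 1 Y, (1 + Real.log Y) ^ 2 * ((c.divisors.card : ℝ) / c) := by
        apply sum_le_sum
        intro c _
        rw [← sum_mul]
        apply mul_le_mul_of_nonneg_right _ (by positivity)
        refine le_trans ?_ (Pool.Agent.H398R2.BV.sum_card_div_div Y)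
        apply sum_le_sum_of_subset_of_nonneg
        · exact Icc_subset_Icc_right (Nat.div_le_self _ _)
        · intro i _ _; positivity
    _ = (1 + Real.log Y) ^ 2 * ∑ c ∈ Icc 1 Y, ((c.divisors.card : ℝ) / c) := by rw [mul_sum]
    _ ≤ (1 + Real.log Y) ^ 2 * (1 + Real.log Y) ^ 2 :=
        mul_le_mul_of_nonneg_left (Pool.Agent.H398R2.BV.sum_card_div_div Y) (by positivity)
    _ = _ := by ring

/-- the test function in the logarithm -/
def fl (F : ℝ → ℝ) (v : ℝ) : ℝ := F (Real.exp v)

theorem test_fl {F : ℝ → ℝ} (hF : TF F) : ∃ B : ℝ, 0 < B ∧ Test B (fl F) ∧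
    ∀ x, F x ≠ 0 → Real.exp (-B) ≤ x ∧ x ≤ Real.exp B := by
  obtain ⟨R, hR, h⟩ := TF_supp hF
  have hR0 : 0 < R := by linarith
  have hlR : 0 ≤ Real.log R := Real.log_nonneg hR
  have key : ∀ x, F x ≠ 0 → Real.exp (-Real.log R) ≤ x ∧ x ≤ Real.exp (Real.log R) := by
    intro x hx
    rw [Real.exp_neg, Real.exp_log hR0, ← one_div]
    exact h x hx
  refine ⟨Real.log R + 1, by linarith, ⟨?_, ?_⟩, ?_⟩
  · exact hF.smooth.comp Real.contDiff_exp
  · intro v hv
    unfold fl
    by_contra hne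
    obtain ⟨h1, h2⟩ := key _ hne
    rw [Real.exp_le_exp] at h1 h2
    have : |v| ≤ Real.log R := abs_le.2 ⟨h1, h2⟩
    linarith
  · intro x hx
    obtain ⟨h1, h2⟩ := key x hx
    exact ⟨(Real.exp_le_exp.2 (by linarith)).trans h1, h2.trans (Real.exp_le_exp.2 (by linarith))⟩

theorem int_fl {F : ℝ → ℝ} (hF : TF F) : ∫ v, fl F v * Real.exp v = Ft F 0 := by
  have h := MeasureTheory.integral_image_eq_integral_abs_deriv_smul (s := Set.univ)
    (f := Real.exp) (f' := Real.exp) MeasurableSet.univ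
    (fun x _ => (Real.hasDerivAt_exp x).hasDerivWithinAt) (Real.exp_injective.injOn) F
  rw [Set.image_univ, Real.range_exp, MeasureTheory.setIntegral_univ] at h
  have h1 : ∫ x in Set.Ioi 0, F x = ∫ x, F x := by
    apply MeasureTheory.setIntegral_eq_integral_of_forall_compl_eq_zero
    intro x hx
    by_contra hne
    exact hx (hF.pos (subset_tsupport F hne))
  unfold Ft
  have h2 : ∫ x, F x * cas (2 * Real.pi * 0 * x) = ∫ x, F x := by
    congr 1
    funext x
    unfold cas
    rw [mul_zero, zero_mul, Real.cos_zero, Real.sin_zero]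
    ring
  rw [h2, ← h1, h]
  congr 1
  funext v
  rw [abs_of_pos (Real.exp_pos v), smul_eq_mul]
  unfold fl
  ring

/-- the average over primes as a finite sum -/
theorem EA_p (ε : ℤ) {s' : ℝ} (hs' : s' ≤ 1 / 4) {F : ℝ → ℝ} {B : ℝ} (hB : 0 < B)
    (hsupp : ∀ x, F x ≠ 0 → Real.exp (-B) ≤ x ∧ x ≤ Real.exp B) :
    ∃ L1 : ℝ, 1 ≤ L1 ∧ ∀ L : ℝ, L1 ≤ L → (∀ d : ℕ, F ((d : ℝ) / Real.exp L) ≠ 0 →
        Real.exp (3 / 4 * L) < d) ∧
      ∀ M : ℕ, Real.exp B * Real.exp L ≤ M → ∀ g : ℕ → ℝ,
        EA (omp ε s' F L) g = 1 / 2 / Real.exp L *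
          ∑ n ∈ (Icc 1 M).filter Nat.Prime, Real.log n * F ((n : ℝ) / Real.exp L) * g n := by
  refine ⟨4 * B + 4, by linarith, ?_⟩
  intro L hL
  have hX := Real.exp_pos L
  have hlow : ∀ d : ℕ, F ((d : ℝ) / Real.exp L) ≠ 0 → Real.exp (L - B) ≤ d := by
    intro d hd
    have h1 := (hsupp _ hd).1
    rw [le_div_iff₀ hX, ← Real.exp_add] at h1
    rwa [show L - B = -B + L by ring]
  have hlow2 : ∀ d : ℕ, F ((d : ℝ) / Real.exp L) ≠ 0 → Real.exp (3 / 4 * L) < d := by
    intro d hd
    refine lt_of_lt_of_le ?_ (hlow d hd)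
    rw [Real.exp_lt_exp]
    linarith
  refine ⟨hlow2, ?_⟩
  intro M hM g
  unfold EA
  rw [tsum_eq_sum (s := (Icc 1 M).filter Nat.Prime)]
  · rw [mul_sum]
    refine sum_congr rfl fun n hn => ?_
    rw [mem_filter, mem_Icc] at hn
    unfold omp
    by_cases h0 : F ((n : ℝ) / Real.exp L) = 0
    · rw [h0]
      simp
    · have h1 := hlow2 n h0
      have hn0 : (0 : ℝ) < n := by exact_mod_cast hn.1.1
      have hlog : 3 / 4 * L < Real.log n := by
        rwa [Real.lt_log_iff_exp_lt hn0]
      have hn2 : 2 < n := by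
        have : (2 : ℝ) < n := by
          refine lt_of_le_of_lt ?_ h1
          have := Real.add_one_le_exp (3 / 4 * L)
          linarith
        exact_mod_cast this
      have hodd : Odd n := hn.2.odd_of_ne_two (by omega)
      have hsl : s' * L < Real.log n := by
        have : s' * L ≤ 1 / 4 * L := mul_le_mul_of_nonneg_right hs' (by linarith)
        linarith
      have hA : (F8 ε).A n := hodd
      rw [if_pos ⟨hA, hn.2, by linarith, hsl⟩]
      field_simp
  · intro d hd
    unfold omp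
    split_ifs with h
    · have h0 : F ((d : ℝ) / Real.exp L) = 0 := by
        by_contra hne
        apply hd
        rw [mem_filter, mem_Icc]
        refine ⟨⟨h.2.1.one_le, ?_⟩, h.2.1⟩
        have h2 := (hsupp _ hne).2
        rw [div_le_iff₀ hX] at h2
        have h3 : (d : ℝ) ≤ M := h2.trans hM
        exact_mod_cast h3
      rw [h0]
      simp
    · simp

/-- prime powers -/
theorem prime_powers (M : ℕ) (hM : 1 ≤ M) (h : ℕ → ℝ) (H : ℝ) (hH : ∀ n, |h n| ≤ H) :
    |∑ n ∈ Icc 1 M, ArithmeticFunction.vonMangoldt n * h n -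
      ∑ n ∈ (Icc 1 M).filter Nat.Prime, Real.log n * h n| ≤
      H * (2 * Real.sqrt M * Real.log M) := by
  have hH0 : 0 ≤ H := (abs_nonneg _).trans (hH 0)
  have hMR : (1 : ℝ) ≤ M := by exact_mod_cast hM
  have h1 := sum_filter_add_sum_filter_not (Icc 1 M) Nat.Prime
    (fun n => ArithmeticFunction.vonMangoldt n * h n)
  have h2 : ∑ n ∈ (Icc 1 M).filter Nat.Prime, ArithmeticFunction.vonMangoldt n * h n =
      ∑ n ∈ (Icc 1 M).filter Nat.Prime, Real.log n * h n := by
    refine sum_congr rfl fun n hn => ?_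
    rw [mem_filter] at hn
    rw [ArithmeticFunction.vonMangoldt_apply_prime hn.2]
  have h3 : ∑ n ∈ (Icc 1 M).filter (fun n => ¬ n.Prime), ArithmeticFunction.vonMangoldt n =
      Chebyshev.psi M - Chebyshev.theta M := by
    have h4 := sum_filter_add_sum_filter_not (Icc 1 M) Nat.Prime
      (fun n => ArithmeticFunction.vonMangoldt n)
    have h5 : ∑ n ∈ (Icc 1 M).filter Nat.Prime, ArithmeticFunction.vonMangoldt n =
        Chebyshev.theta M := by
      unfold Chebyshev.theta
      rw [Nat.floor_natCast]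
      refine sum_congr rfl fun n hn => ?_
      rw [mem_filter] at hn
      rw [ArithmeticFunction.vonMangoldt_apply_prime hn.2]
    have h6 : ∑ n ∈ Icc 1 M, ArithmeticFunction.vonMangoldt n = Chebyshev.psi M := by
      unfold Chebyshev.psi
      rw [Nat.floor_natCast]
      rfl
    linarith
  have h7 := Chebyshev.abs_psi_sub_theta_le_sqrt_mul_log hMR
  have h8 : ∑ n ∈ Icc 1 M, ArithmeticFunction.vonMangoldt n * h n -
      ∑ n ∈ (Icc 1 M).filter Nat.Prime, Real.log n * h n =
      ∑ n ∈ (Icc 1 M).filter (fun n => ¬ n.Prime), ArithmeticFunction.vonMangoldt n * h n := by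
    linarith
  rw [h8]
  calc |∑ n ∈ (Icc 1 M).filter (fun n => ¬ n.Prime), ArithmeticFunction.vonMangoldt n * h n|
      ≤ ∑ n ∈ (Icc 1 M).filter (fun n => ¬ n.Prime), H * ArithmeticFunction.vonMangoldt n := by
        refine (abs_sum_le_sum_abs _ _).trans (sum_le_sum fun n _ => ?_)
        rw [abs_mul, abs_of_nonneg ArithmeticFunction.vonMangoldt_nonneg, mul_comm]
        exact mul_le_mul_of_nonneg_right (hH n) ArithmeticFunction.vonMangoldt_nonneg
    _ = H * (Chebyshev.psi M - Chebyshev.theta M) := by rw [← mul_sum, h3]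
    _ ≤ H * (2 * Real.sqrt M * Real.log M) :=
        mul_le_mul_of_nonneg_left ((le_abs_self _).trans h7) hH0

theorem TF_bdd {F : ℝ → ℝ} (hF : TF F) : ∃ H : ℝ, 0 < H ∧ ∀ x, |F x| ≤ H := by
  obtain ⟨C, hC⟩ := hF.smooth.continuous.bounded_above_of_compact_support hF.cpt
  refine ⟨|C| + 1, by positivity, fun x => ?_⟩
  have := hC x
  rw [Real.norm_eq_abs] at this
  linarith [le_abs_self C]

/-- the total mass of the prime average -/
theorem one_p (ε : ℤ) {s' : ℝ} (hs' : s' ≤ 1 / 4) {F : ℝ → ℝ} (hF : TF F) :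
    Tendsto (fun L : ℝ => EA (omp ε s' F L) (fun _ => 1)) atTop (𝓝 (1 / 2 * Ft F 0)) := by
  obtain ⟨B, hB, hT, hsupp⟩ := test_fl hF
  obtain ⟨H, hH, hFH⟩ := TF_bdd hF
  obtain ⟨L1, hL1, hEA⟩ := EA_p ε hs' hB hsupp
  rw [Metric.tendsto_atTop]
  intro η hη
  obtain ⟨X0, hX0, hpnt⟩ := H343.pnt_full hT (η / 2) (by positivity)
  -- error of prime powers
  have herr : Tendsto (fun L : ℝ => H * (2 * Real.sqrt (2 * Real.exp B * Real.exp L) *
      Real.log (2 * Real.exp B * Real.exp L)) / Real.exp L) atTop (𝓝 0) := by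
    have e1 : ∀ L : ℝ, H * (2 * Real.sqrt (2 * Real.exp B * Real.exp L) *
        Real.log (2 * Real.exp B * Real.exp L)) / Real.exp L =
        (H * 2 * Real.sqrt (2 * Real.exp B)) * ((Real.log (2 * Real.exp B) + L) *
          Real.exp (-(1 / 2) * L)) := by
      intro L
      have h2 : Real.sqrt (2 * Real.exp B * Real.exp L) = Real.sqrt (2 * Real.exp B) *
          Real.exp (1 / 2 * L) := by
        rw [Real.sqrt_mul (by positivity)]
        congr 1
        rw [Real.sqrt_eq_iff_mul_self_eq (by positivity) (by positivity), ← Real.exp_add]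
        congr 1; ring
      have h3 : Real.log (2 * Real.exp B * Real.exp L) = Real.log (2 * Real.exp B) + L := by
        rw [Real.log_mul (by positivity) (by positivity), Real.log_exp]
      rw [h2, h3]
      have h4 : Real.exp L = Real.exp (1 / 2 * L) * Real.exp (1 / 2 * L) := by
        rw [← Real.exp_add]; congr 1; ring
      have h5 : Real.exp (-(1 / 2) * L) = 1 / Real.exp (1 / 2 * L) := by
        rw [eq_div_iff (Real.exp_pos _).ne', ← Real.exp_add,
          show -(1 / 2) * L + 1 / 2 * L = (0 : ℝ) by ring, Real.exp_zero]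
      rw [h4, h5]
      field_simp
    have h6 : Tendsto (fun L : ℝ => (Real.log (2 * Real.exp B) + L) * Real.exp (-(1 / 2) * L))
        atTop (𝓝 0) := by
      have a1 : Tendsto (fun L : ℝ => Real.exp (-(1 / 2) * L)) atTop (𝓝 0) := by
        have := Real.tendsto_exp_neg_atTop_nhds_zero.comp
          (tendsto_id.const_mul_atTop (show (0 : ℝ) < 1 / 2 by norm_num))
        refine this.congr fun L => ?_
        simp only [Function.comp, id]
        congr 1; ring
      have a2 : Tendsto (fun L : ℝ => L * Real.exp (-(1 / 2) * L)) atTop (𝓝 0) := by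
        have h7 := Real.tendsto_pow_mul_exp_neg_atTop_nhds_zero 1
        have h8 := (h7.comp (tendsto_id.const_mul_atTop (show (0 : ℝ) < 1 / 2 by norm_num))).const_mul 2
        rw [mul_zero] at h8
        refine h8.congr fun L => ?_
        simp only [Function.comp, id, pow_one]
        have : -(1 / 2 * L) = -(1 / 2) * L := by ring
        rw [this]
        ring
      have a3 := (a1.const_mul (Real.log (2 * Real.exp B))).add a2
      rw [mul_zero, add_zero] at a3
      refine a3.congr fun L => ?_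
      ring
    have h7 := h6.const_mul (H * 2 * Real.sqrt (2 * Real.exp B))
    rw [mul_zero] at h7
    exact h7.congr fun L => (e1 L).symm
  have h9 := herr.eventually (gt_mem_nhds hη)
  have h10 : ∀ᶠ L : ℝ in atTop, X0 ≤ Real.exp L := Real.tendsto_exp_atTop.eventually_ge_atTop X0
  obtain ⟨L2, hL2⟩ := eventually_atTop.1 (h9.and h10)
  refine ⟨max L1 L2, fun L hL => ?_⟩
  obtain ⟨-, hEAL⟩ := hEA L ((le_max_left _ _).trans hL)
  obtain ⟨hlt, hXL⟩ := hL2 L ((le_max_right _ _).trans hL)
  have hL0 : 1 ≤ L := hL1.trans ((le_max_left _ _).trans hL)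
  have hX := Real.exp_pos L
  set M : ℕ := ⌈Real.exp B * Real.exp L⌉₊ with hM
  have hM1 : Real.exp B * Real.exp L ≤ M := Nat.le_ceil _
  have hBX : 1 ≤ Real.exp B * Real.exp L := by
    rw [← Real.exp_add]
    exact Real.one_le_exp (by linarith)
  have hM2 : (M : ℝ) ≤ 2 * Real.exp B * Real.exp L := by
    have := Nat.ceil_lt_add_one (a := Real.exp B * Real.exp L) (by positivity)
    linarith
  have hM1' : (1 : ℝ) ≤ M := hBX.trans hM1
  have hM1n : 1 ≤ M := by exact_mod_cast hM1'
  have p1 := hpnt (Real.exp L) M hXL hM1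
  rw [int_fl hF] at p1
  have p2 := prime_powers M hM1n (fun n => fl F (Real.log (n / Real.exp L))) H
    (fun n => hFH _)
  have e3 : ∑ n ∈ (Icc 1 M).filter Nat.Prime, Real.log n * fl F (Real.log (n / Real.exp L)) =
      ∑ n ∈ (Icc 1 M).filter Nat.Prime, Real.log n * F ((n : ℝ) / Real.exp L) * 1 := by
    refine sum_congr rfl fun n hn => ?_
    rw [mem_filter, mem_Icc] at hn
    have hn0 : (0 : ℝ) < n := by exact_mod_cast hn.1.1
    unfold fl
    rw [Real.exp_log (by positivity), mul_one]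
  rw [e3] at p2
  rw [hEAL M hM1 (fun _ => 1), Real.dist_eq]
  set S : ℝ := ∑ n ∈ (Icc 1 M).filter Nat.Prime, Real.log n * F ((n : ℝ) / Real.exp L) * 1 with hS
  have p3 : H * (2 * Real.sqrt M * Real.log M) ≤ H * (2 * Real.sqrt (2 * Real.exp B * Real.exp L) *
      Real.log (2 * Real.exp B * Real.exp L)) := by
    have b1 : Real.sqrt M ≤ Real.sqrt (2 * Real.exp B * Real.exp L) := Real.sqrt_le_sqrt hM2
    have b2 : Real.log M ≤ Real.log (2 * Real.exp B * Real.exp L) :=
      Real.log_le_log (by linarith) hM2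
    have b3 : 0 ≤ Real.log M := Real.log_nonneg hM1'
    gcongr
  have p4 : |S - Real.exp L * Ft F 0| ≤ η / 2 * Real.exp L +
      H * (2 * Real.sqrt (2 * Real.exp B * Real.exp L) *
      Real.log (2 * Real.exp B * Real.exp L)) := by
    rw [abs_le] at p1 p2 ⊢
    constructor <;> linarith [p1.1, p1.2, p2.1, p2.2]
  have p5 : 1 / 2 / Real.exp L * S - 1 / 2 * Ft F 0 = 1 / 2 / Real.exp L * (S - Real.exp L * Ft F 0) := by
    field_simp
  rw [p5, abs_mul, abs_of_pos (by positivity)]
  calc 1 / 2 / Real.exp L * |S - Real.exp L * Ft F 0|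
      ≤ 1 / 2 / Real.exp L * (η / 2 * Real.exp L +
      H * (2 * Real.sqrt (2 * Real.exp B * Real.exp L) *
      Real.log (2 * Real.exp B * Real.exp L))) := by gcongr
    _ = η / 4 + 1 / 2 * (H * (2 * Real.sqrt (2 * Real.exp B * Real.exp L) *
      Real.log (2 * Real.exp B * Real.exp L)) / Real.exp L) := by
        field_simp
        ring
    _ < η := by linarith

end

end Pool.Agent.N782.Q
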