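import Pool.Agent.N782.ND
import Pool.Agent.N782.MW1
import Pool.Agent.N782.QH
import Pool.Agent.H966R3.RZ2_MRc

set_option autoImplicit false

/-! Choice of the weights (helper782). -/

namespace Pool.Agent.N782.PA

open Finset Filter Topology MeasureTheory Pool.Agent.H306R2.RZ
open Pool.Agent.H966R3.RZ2_MRc
open Pool.Agent.N782.KW (Pn)
open Pool.Agent.N782.ND

noncomputable section

/-- the sieve weight -/
theorem exists_P (a s' : ℝ) (ha : 0 < a) (has : a < s') : ∃ P : ℝ → ℝ, Wt s' P ∧ P 0 = 1 ∧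
    0 < Pn P ∧ Pn P ≤ 1 / a := by
  obtain ⟨χ, hχ⟩ := exists_ST a s' has
  have hs' : 0 < s' := by linarith
  have hχc : Continuous χ := hχ.smooth.continuous
  have hint : ∀ x y : ℝ, IntervalIntegrable χ volume x y := fun x y => hχc.intervalIntegrable x y
  set c0 : ℝ := ∫ u in (0 : ℝ)..s', χ u with hc0
  have hc0a : a ≤ c0 := by
    rw [hc0, ← intervalIntegral.integral_add_adjacent_intervals (hint 0 a) (hint a s')]
    have h1 : ∫ u in (0 : ℝ)..a, χ u = a := by
      have : ∫ u in (0 : ℝ)..a, χ u = ∫ _u in (0 : ℝ)..a, (1 : ℝ) := by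
        apply intervalIntegral.integral_congr
        intro u hu
        rw [Set.uIcc_of_le ha.le] at hu
        exact hχ.one u hu.2
      rw [this]; simp
    have h2 : 0 ≤ ∫ u in a..s', χ u :=
      intervalIntegral.integral_nonneg has.le (fun u _ => hχ.nonneg u)
    linarith
  have hc0p : 0 < c0 := by linarith
  set g : ℝ → ℝ := fun t => c0 - ∫ u in (0 : ℝ)..t, χ u with hg
  have hgd : ∀ t, HasDerivAt g (-χ t) t := by
    intro t
    have h1 : HasDerivAt (fun t => ∫ u in (0 : ℝ)..t, χ u) (χ t) t :=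
      intervalIntegral.integral_hasDerivAt_right (hint 0 t)
        (hχc.stronglyMeasurableAtFilter _ _) hχc.continuousAt
    exact h1.const_sub c0
  have hgs : ContDiff ℝ ((⊤ : ℕ∞) : WithTop ℕ∞) g := by
    rw [contDiff_infty_iff_deriv]
    refine ⟨fun t => (hgd t).differentiableAt, ?_⟩
    have : deriv g = fun t => -χ t := funext fun t => (hgd t).deriv
    rw [this]
    exact hχ.smooth.neg
  set κ : ℝ → ℝ := fun t => Real.smoothTransition (2 * (t + 1)) with hκ
  have hκs : ContDiff ℝ ((⊤ : ℕ∞) : WithTop ℕ∞) κ :=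
    Real.smoothTransition.contDiff.comp (contDiff_const.mul (contDiff_id.add contDiff_const))
  have hκ1 : ∀ t, -1 / 2 ≤ t → κ t = 1 := by
    intro t ht
    exact Real.smoothTransition.one_of_one_le (by linarith)
  have hκ0 : ∀ t, t ≤ -1 → κ t = 0 := by
    intro t ht
    exact Real.smoothTransition.zero_of_nonpos (by linarith)
  have hg0 : ∀ t, s' ≤ t → g t = 0 := by
    intro t ht
    simp only [hg]
    rw [hc0, ← intervalIntegral.integral_add_adjacent_intervals (hint 0 s') (hint s' t)]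
    have h1 : ∫ u in s'..t, χ u = 0 := by
      have : ∫ u in s'..t, χ u = ∫ _u in s'..t, (0 : ℝ) := by
        apply intervalIntegral.integral_congr
        intro u hu
        rw [Set.uIcc_of_le ht] at hu
        exact hχ.zero u hu.1
      rw [this]; simp
    rw [h1]; ring
  refine ⟨fun t => κ t * g t / c0, ⟨?_, ?_⟩, ?_, ?_⟩
  · exact (hκs.mul hgs).div_const c0
  · intro y hy
    constructor
    · by_contra h
      apply hy
      show κ y * g y / c0 = 0
      rw [hκ0 y (by linarith)]; simp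
    · by_contra h
      apply hy
      show κ y * g y / c0 = 0
      rw [hg0 y (by linarith)]; simp
  · simp only
    rw [hκ1 0 (by norm_num)]
    simp only [hg]
    rw [intervalIntegral.integral_same]
    field_simp
    ring
  · have hder : ∀ t : ℝ, 0 < t → deriv (fun t => κ t * g t / c0) t = -χ t / c0 := by
      intro t ht
      have hev : (fun t => κ t * g t / c0) =ᶠ[𝓝 t] fun t => g t / c0 := by
        filter_upwards [lt_mem_nhds ht] with y hy
        rw [hκ1 y (by linarith), one_mul]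
      rw [hev.deriv_eq]
      exact ((hgd t).div_const c0).deriv
    have hPn : Pn (fun t => κ t * g t / c0) = (∫ u in (0 : ℝ)..s', χ u ^ 2) / c0 ^ 2 := by
      unfold Pn
      have h1 : ∫ t in Set.Ioi (0 : ℝ), deriv (fun t => κ t * g t / c0) t ^ 2 =
          ∫ t in Set.Ioi (0 : ℝ), χ t ^ 2 / c0 ^ 2 := by
        apply setIntegral_congr_fun measurableSet_Ioi
        intro t ht
        simp only
        rw [hder t ht]
        ring
      rw [h1, integral_div]
      congr 1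
      rw [intervalIntegral.integral_of_le hs'.le]
      apply setIntegral_eq_of_subset_of_forall_sdiff_eq_zero measurableSet_Ioi
      · intro t ht
        exact ht.1
      · intro t ht
        have : s' ≤ t := by
          by_contra h
          exact ht.2 ⟨ht.1, (not_le.1 h).le⟩
        rw [hχ.zero t this]
        norm_num
    rw [hPn]
    have hsq : ∫ u in (0 : ℝ)..s', χ u ^ 2 ≤ c0 := by
      apply intervalIntegral.integral_mono_on hs'.le
        ((hχc.pow 2).intervalIntegrable _ _) (hint _ _)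
      intro u _
      have h1 := hχ.nonneg u
      have h2 := hχ.le_one u
      show χ u ^ 2 ≤ χ u
      nlinarith
    have hsq2 : a ≤ ∫ u in (0 : ℝ)..s', χ u ^ 2 := by
      have hi2 : ∀ x y : ℝ, IntervalIntegrable (fun u => χ u ^ 2) volume x y :=
        fun x y => (hχc.pow 2).intervalIntegrable x y
      rw [← intervalIntegral.integral_add_adjacent_intervals (hi2 0 a) (hi2 a s')]
      have h1 : ∫ u in (0 : ℝ)..a, χ u ^ 2 = a := by
        have : ∫ u in (0 : ℝ)..a, χ u ^ 2 = ∫ _u in (0 : ℝ)..a, (1 : ℝ) := by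
          apply intervalIntegral.integral_congr
          intro u hu
          rw [Set.uIcc_of_le ha.le] at hu
          show χ u ^ 2 = 1
          rw [hχ.one u hu.2]; norm_num
        rw [this]; simp
      have h2 : 0 ≤ ∫ u in a..s', χ u ^ 2 :=
        intervalIntegral.integral_nonneg has.le (fun u _ => by positivity)
      linarith
    constructor
    · exact div_pos (by linarith) (by positivity)
    · calc (∫ u in (0 : ℝ)..s', χ u ^ 2) / c0 ^ 2 ≤ c0 / c0 ^ 2 := by gcongr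
        _ = 1 / c0 := by field_simp
        _ ≤ 1 / a := by gcongr

/-- the smooth weight on `[0,1]` -/
theorem exists_F (η : ℝ) (hη : 0 < η) (hη1 : η < 1 / 4) : ∃ F : ℝ → ℝ, TF F ∧ (∀ x, 0 ≤ F x) ∧
    (∀ x, F x ≤ 1) ∧ (∀ x, 1 < x → F x = 0) ∧ 1 - 3 * η ≤ Ft F 0 := by
  set F : ℝ → ℝ := fun x => Real.smoothTransition ((x - η) / η) *
    Real.smoothTransition ((1 - x) / η) with hF
  have h0 : ∀ x, 0 ≤ F x := fun x => mul_nonneg (Real.smoothTransition.nonneg _)
    (Real.smoothTransition.nonneg _)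
  have h1 : ∀ x, F x ≤ 1 := fun x => mul_le_one₀ (Real.smoothTransition.le_one _)
    (Real.smoothTransition.nonneg _) (Real.smoothTransition.le_one _)
  have hz1 : ∀ x, x ≤ η → F x = 0 := by
    intro x hx
    have : Real.smoothTransition ((x - η) / η) = 0 :=
      Real.smoothTransition.zero_of_nonpos (div_nonpos_of_nonpos_of_nonneg (by linarith) hη.le)
    simp only [hF]
    rw [this, zero_mul]
  have hz2 : ∀ x, 1 ≤ x → F x = 0 := by
    intro x hx
    have : Real.smoothTransition ((1 - x) / η) = 0 :=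
      Real.smoothTransition.zero_of_nonpos (div_nonpos_of_nonpos_of_nonneg (by linarith) hη.le)
    simp only [hF]
    rw [this, mul_zero]
  have ho : ∀ x, 2 * η ≤ x → x ≤ 1 - η → F x = 1 := by
    intro x hx hx2
    have e1 : Real.smoothTransition ((x - η) / η) = 1 := by
      apply Real.smoothTransition.one_of_one_le
      rw [le_div_iff₀ hη]; linarith
    have e2 : Real.smoothTransition ((1 - x) / η) = 1 := by
      apply Real.smoothTransition.one_of_one_le
      rw [le_div_iff₀ hη]; linarith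
    simp only [hF]
    rw [e1, e2, one_mul]
  have hsm : ContDiff ℝ ((⊤ : ℕ∞) : WithTop ℕ∞) F :=
    (Real.smoothTransition.contDiff.comp ((contDiff_id.sub contDiff_const).div_const _)).mul
      (Real.smoothTransition.contDiff.comp ((contDiff_const.sub contDiff_id).div_const _))
  have hsupp : tsupport F ⊆ Set.Icc η 1 := by
    apply closure_minimal _ isClosed_Icc
    intro x hx
    rw [Function.mem_support] at hx
    constructor
    · by_contra h
      exact hx (hz1 x (by linarith))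
    · by_contra h
      exact hx (hz2 x (by linarith))
  have hcs : HasCompactSupport F := IsCompact.of_isClosed_subset isCompact_Icc
    (isClosed_tsupport F) hsupp
  have hTF : TF F := ⟨hsm, hcs, fun x hx => lt_of_lt_of_le hη (hsupp hx).1⟩
  refine ⟨F, hTF, h0, h1, fun x hx => hz2 x hx.le, ?_⟩
  have e1 : Ft F 0 = ∫ x, F x := by
    unfold Ft
    congr 1
    funext x
    unfold cas
    rw [mul_zero, zero_mul, Real.cos_zero, Real.sin_zero]
    ring
  have hi : Integrable F := hsm.continuous.integrable_of_hasCompactSupport hcs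
  rw [e1]
  calc 1 - 3 * η = ∫ _x in (2 * η)..(1 - η), (1 : ℝ) := by simp; ring
    _ = ∫ x in (2 * η)..(1 - η), F x := by
        apply intervalIntegral.integral_congr
        intro x hx
        rw [Set.uIcc_of_le (by linarith)] at hx
        exact (ho x hx.1 hx.2).symm
    _ = ∫ x in Set.Ioc (2 * η) (1 - η), F x := intervalIntegral.integral_of_le (by linarith)
    _ ≤ ∫ x, F x := setIntegral_le_integral hi (Eventually.of_forall h0)

/-- dominated convergence for the integrand -/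
theorem tIm (c c' : ℝ → ℝ) (hc : Continuous c) (hc' : Continuous c') (X0 : ℝ) (hX0 : 0 ≤ X0)
    (M M1 M2 : ℝ) (f f1 : ℕ → ℝ → ℝ) (m : ℕ → ℝ) (g g1 : ℝ → ℝ) (m0 : ℝ)
    (hf : ∀ n, Continuous (f n)) (hf1 : ∀ n, Continuous (f1 n))
    (bf : ∀ n, ∀ x ∈ Set.Icc (0 : ℝ) X0, |f n x| ≤ M)
    (bf1 : ∀ n, ∀ x ∈ Set.Icc (0 : ℝ) X0, |f1 n x| ≤ M1) (bm : ∀ n, |m n| ≤ M2)
    (tf : ∀ x, Tendsto (fun n => f n x) atTop (𝓝 (g x)))
    (tf1 : ∀ x, Tendsto (fun n => f1 n x) atTop (𝓝 (g1 x))) (tm : Tendsto m atTop (𝓝 m0)) :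
    Tendsto (fun n => ∫ x in (0 : ℝ)..X0, Gf c c' (f n x) (f1 n x) (m n) x) atTop
      (𝓝 (∫ x in (0 : ℝ)..X0, Gf c c' (g x) (g1 x) m0 x)) := by
  have hGf := cont_Gf c c' hc hc'
  obtain ⟨C, hC⟩ : ∃ C : ℝ, ∀ p ∈ (Set.Icc (-M) M ×ˢ (Set.Icc (-M1) M1 ×ˢ
      (Set.Icc (-M2) M2 ×ˢ Set.Icc (0 : ℝ) X0))), ‖Gf c c' p.1 p.2.1 p.2.2.1 p.2.2.2‖ ≤ C :=
    (isCompact_Icc.prod (isCompact_Icc.prod
      (isCompact_Icc.prod isCompact_Icc))).exists_bound_of_continuousOn hGf.continuousOn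
  apply intervalIntegral.tendsto_integral_filter_of_dominated_convergence (fun _ => C)
  · refine Eventually.of_forall fun n => Continuous.aestronglyMeasurable ?_
    exact hGf.comp (((hf n)).prodMk ((hf1 n).prodMk (continuous_const.prodMk continuous_id)))
  · refine Eventually.of_forall fun n => Eventually.of_forall fun x hx => ?_
    rw [Set.uIoc_of_le hX0] at hx
    have hx' : x ∈ Set.Icc (0 : ℝ) X0 := ⟨hx.1.le, hx.2⟩
    exact hC (f n x, f1 n x, m n, x)
      ⟨abs_le.1 (bf n x hx'), abs_le.1 (bf1 n x hx'), abs_le.1 (bm n), hx'⟩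
  · exact intervalIntegrable_const
  · refine Eventually.of_forall fun x _ => ?_
    have hx0 : Tendsto (fun _ : ℕ => x) atTop (𝓝 x) := tendsto_const_nhds
    have h2 : Tendsto (fun n => (f n x, f1 n x, m n, x)) atTop (𝓝 (g x, g1 x, m0, x)) :=
      (tf x).prodMk_nhds ((tf1 x).prodMk_nhds (tm.prodMk_nhds hx0))
    have h3 := (hGf.tendsto (g x, g1 x, m0, x)).comp h2
    exact h3

/-- smooth cutoffs approximate the sharp one -/
theorem MRm (Cs θ' : ℝ) (hCs : 0 ≤ Cs) (hθ' : 0 < θ') (hθ1 : θ' ≤ 1) (c c' : ℝ → ℝ)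
    (hc : ∀ x, HasDerivAt c (c' x) x) (hc' : Continuous c') (X0 : ℝ) (hX0 : 0 ≤ X0) (ε : ℝ)
    (hε : 0 < ε) : ∃ (θ'' : ℝ) (χ : ℝ → ℝ), 0 < θ'' ∧ θ'' < θ' ∧ ST θ'' θ' χ ∧
      vv (c X0) (Bx χ X0) (Cs * nx χ) (ax X0) +
        (∫ x in (0 : ℝ)..X0, 2 * Real.sqrt (vv (c x) (Bx χ x) (Cs * nx χ) (ax x) *
          ww (c x) (c' x) (Bx χ x) (Bx1 χ x) (Cs * nx χ) (ax x) (ax1 x) (ax2 x))) ≤
      vv (c X0) (∫ u in (0 : ℝ)..θ', Sx X0 (u + 1 / 2)) (Cs * θ') (ax X0) +
        (∫ x in (0 : ℝ)..X0, 2 * Real.sqrt (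
          vv (c x) (∫ u in (0 : ℝ)..θ', Sx x (u + 1 / 2)) (Cs * θ') (ax x) *
          ww (c x) (c' x) (∫ u in (0 : ℝ)..θ', Sx x (u + 1 / 2))
            (∫ u in (0 : ℝ)..θ', Sx1 x (u + 1 / 2)) (Cs * θ') (ax x) (ax1 x) (ax2 x))) + ε := by
  have hcc : Continuous c := continuous_iff_continuousAt.2 fun x => (hc x).continuousAt
  obtain ⟨a, ha0, ha1, hat⟩ := exists_seq θ' hθ'
  choose χ hχ using fun n => exists_ST (a n) θ' (ha1 n)
  obtain ⟨M, hM⟩ : ∃ M : ℝ, ∀ p ∈ (Set.Icc (0 : ℝ) X0 ×ˢ Set.Icc (0 : ℝ) 2), ‖Sx p.1 p.2‖ ≤ M :=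
    (isCompact_Icc.prod isCompact_Icc).exists_bound_of_continuousOn cont_Sx.continuousOn
  obtain ⟨M1, hM1⟩ : ∃ M : ℝ, ∀ p ∈ (Set.Icc (0 : ℝ) X0 ×ˢ Set.Icc (0 : ℝ) 2), ‖Sx1 p.1 p.2‖ ≤ M :=
    (isCompact_Icc.prod isCompact_Icc).exists_bound_of_continuousOn cont_Sx1.continuousOn
  have tnn : Tendsto (fun n => Cs * nx (χ n)) atTop (𝓝 (Cs * θ')) :=
    (tn θ' hθ' hθ1 a hat χ hχ).const_mul Cs
  have t1 := tIm c c' hcc hc' X0 hX0 M M1 Cs (fun n x => Bx (χ n) x) (fun n x => Bx1 (χ n) x)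
    (fun n => Cs * nx (χ n)) (fun x => ∫ u in (0 : ℝ)..θ', Sx x (u + 1 / 2))
    (fun x => ∫ u in (0 : ℝ)..θ', Sx1 x (u + 1 / 2)) (Cs * θ')
    (fun n => cBx Sx cont_Sx (χ n) (hχ n).smooth.continuous)
    (fun n => cBx Sx1 cont_Sx1 (χ n) (hχ n).smooth.continuous)
    (fun n x hx => bB Sx X0 M hM (χ n) (ST_abs (hχ n)) x hx)
    (fun n x hx => bB Sx1 X0 M1 hM1 (χ n) (ST_abs (hχ n)) x hx)
    (fun n => by
      rw [abs_mul, abs_of_nonneg hCs]
      calc Cs * |nx (χ n)| ≤ Cs * 1 := mul_le_mul_of_nonneg_left (bn (χ n) (ST_abs (hχ n))) hCs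
        _ = Cs := mul_one _)
    (tB θ' hθ' hθ1 a hat χ hχ) (tB1 θ' hθ' hθ1 a hat χ hχ) tnn
  have t2 : Tendsto (fun n => vv (c X0) (Bx (χ n) X0) (Cs * nx (χ n)) (ax X0)) atTop
      (𝓝 (vv (c X0) (∫ u in (0 : ℝ)..θ', Sx X0 (u + 1 / 2)) (Cs * θ') (ax X0))) := by
    have h2 := (tB θ' hθ' hθ1 a hat χ hχ X0).prodMk_nhds tnn
    have h3 := ((cont_vv (c X0) (ax X0)).tendsto
      ((∫ u in (0 : ℝ)..θ', Sx X0 (u + 1 / 2)), Cs * θ')).comp h2
    exact h3
  have tt := t2.add t1
  obtain ⟨n, hn⟩ := (tt.eventually (gt_mem_nhds (lt_add_of_pos_right _ hε))).exists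
  refine ⟨a n, χ n, ha0 n, ha1 n, hχ n, ?_⟩
  unfold Gf at hn
  exact hn.le

/-- the numerical bound -/
theorem JK_num : JK (16 * rN (249 / 1000)) (73 / 2000) ≤ 977 / 1000 := by
  have hl := Pool.Agent.H133R2.RZ3.log_lower
  have e1 : 16 * rN (249 / 1000) = 16 / (6 * (249 / 1000) * (1 + 249 / 1000) ^ 2) := by
    unfold rN; ring
  set r : ℝ := 16 * rN (249 / 1000) with hr
  have hr1 : 6865 / 1000 ≤ r := by rw [e1]; norm_num
  have hr2 : r ≤ 6866 / 1000 := by rw [e1]; norm_num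
  have hr0 : 0 < r := by linarith
  -- log (1 + r) ≥ 2
  have hlog : 2 ≤ Real.log (1 + r) := by
    rw [Real.le_log_iff_exp_le (by linarith)]
    have h1 : Real.exp 2 = Real.exp 1 * Real.exp 1 := by rw [← Real.exp_add]; norm_num
    have h2 := Real.exp_one_lt_d9
    have h3 := Real.exp_pos 1
    rw [h1]
    nlinarith
  unfold JK
  have h1 : r / (1 + r) ≤ 8729 / 10000 := by
    rw [div_le_iff₀ (by linarith)]
    linarith
  have h2 : (r - Real.log (1 + r)) / r ≤ 709 / 1000 := by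
    rw [div_le_iff₀ hr0]
    linarith
  have h3 : 4 * (73 / 2000 : ℝ) * ((r - Real.log (1 + r)) / r) ≤ 4 * (73 / 2000) * (709 / 1000) := by
    gcongr
  refine (add_le_add h1 h3).trans ?_
  norm_num

end

end Pool.Agent.N782.PA
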