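import Pool.Agent.N782.QJ

set_option autoImplicit false

/-! The first moment over primes, conclusion (helper782). -/

namespace Pool.Agent.N782.Q

open Finset Filter Topology MeasureTheory
open Pool.Agent.H306R2.RZ (js osf sqf TF Ft cas Wt mn)
open Pool.Agent.H306R2.RG (F8 Ndg Mdg)
open H343 (Test PSm)
open Pool.Agent.N782.GI (omp TF_supp gw_p)
open Pool.Agent.N782.GA (EA EA_congr EA_sum AdmV M1)
open Pool.Agent.N782.QI (tp main_limP)
open Pool.Agent.H355R3.RZ4HE (mem_osf)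
open Pool.Agent.H423R2.RZL.LS4n (dc dc_spec js_mulL abs_js_le)
open Pool.Agent.H423R2.RZL.LIM1n (wt_mono wt_bdd wt_supp odd_of_coprime floor_exp_le cf)
open Pool.Agent.H884R2.RG (prodg_eq kf_abs)

noncomputable section

theorem dc_one {k : ℕ} (hk : 1 ≤ k) : (dc k).2 = 1 ↔ IsSquare k := by
  obtain ⟨h1, h2⟩ := dc_spec hk
  constructor
  · intro h
    rw [h, mul_one] at h1
    exact ⟨(dc k).1, by rw [← pow_two]; exact h1.symm⟩
  · rintro ⟨c, hc⟩
    have h3 : (dc k).1 ^ 2 ∣ c ^ 2 := by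
      refine ⟨(dc k).2, ?_⟩
      rw [h1, pow_two]
      exact hc.symm
    have h4 : (dc k).1 ∣ c := (Nat.pow_dvd_pow_iff (by norm_num)).1 h3
    obtain ⟨e, he⟩ := h4
    have hr0 : 0 < (dc k).1 ^ 2 := by
      rcases Nat.eq_zero_or_pos ((dc k).1 ^ 2) with h5 | h5
      · rw [h5, zero_mul] at h1
        omega
      · exact h5
    have h5 : (dc k).2 = e * e := by
      have h6 : (dc k).1 ^ 2 * (dc k).2 = (dc k).1 ^ 2 * (e * e) := by
        calc (dc k).1 ^ 2 * (dc k).2 = k := h1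
          _ = c * c := hc
          _ = ((dc k).1 * e) * ((dc k).1 * e) := by rw [← he]
          _ = _ := by ring
      exact Nat.eq_of_mul_eq_mul_left hr0 h6
    have h7 : IsUnit e := h2 e (by rw [h5])
    rw [Nat.isUnit_iff] at h7
    rw [h5, h7]

theorem sum_prod_le (a b : ℕ) (g : ℕ → ℝ) (hg : ∀ k, 0 ≤ g k) :
    ∑ p ∈ Icc 1 a ×ˢ Icc 1 b, g (p.1 * p.2) ≤ ∑ k ∈ Icc 1 (a * b), (k.divisors.card : ℝ) * g k := by
  have hmap : ∀ p ∈ Icc 1 a ×ˢ Icc 1 b, p.1 * p.2 ∈ Icc 1 (a * b) := by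
    intro p hp
    rw [mem_product, mem_Icc, mem_Icc] at hp
    rw [mem_Icc]
    exact ⟨Nat.mul_pos hp.1.1 hp.2.1, Nat.mul_le_mul hp.1.2 hp.2.2⟩
  rw [← sum_fiberwise_of_maps_to hmap]
  refine sum_le_sum fun k hk => ?_
  rw [mem_Icc] at hk
  have h1 : ∑ p ∈ (Icc 1 a ×ˢ Icc 1 b).filter (fun p => p.1 * p.2 = k), g (p.1 * p.2) =
      (((Icc 1 a ×ˢ Icc 1 b).filter (fun p => p.1 * p.2 = k)).card : ℝ) * g k := by
    rw [← nsmul_eq_mul, ← sum_const]
    refine sum_congr rfl fun p hp => ?_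
    rw [mem_filter] at hp
    rw [hp.2]
  rw [h1]
  apply mul_le_mul_of_nonneg_right _ (hg k)
  have h2 : (Icc 1 a ×ˢ Icc 1 b).filter (fun p => p.1 * p.2 = k) ⊆ k.divisorsAntidiagonal := by
    intro p hp
    rw [mem_filter] at hp
    rw [Nat.mem_divisorsAntidiagonal]
    exact ⟨hp.2, by omega⟩
  have h3 := card_le_card h2
  rw [← Nat.map_div_right_divisors, card_map] at h3
  exact_mod_cast h3

theorem sum_kern_le (Z : ℕ) (E : ℕ → ℝ) (hE : ∀ m, 0 ≤ E m) :
    ∑ k ∈ Icc 1 Z, (k.divisors.card : ℝ) * (if Odd k ∧ (dc k).2 ≠ 1 then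
      1 / Real.sqrt k * E (dc k).2 else 0) ≤
      (1 + Real.log Z) ^ 4 * ∑ m ∈ (osf Z).filter (fun m => 1 < m),
        (m.divisors.card : ℝ) / Real.sqrt m * E m := by
  set T : Finset ℕ := (osf Z).filter (fun m => 1 < m) with hT
  set S : Finset ℕ := (Icc 1 Z).filter (fun k => Odd k ∧ (dc k).2 ≠ 1) with hS
  set g : ℕ × ℕ → ℝ := fun x => ((x.1.divisors.card : ℝ) ^ 2 / x.1) *
    ((x.2.divisors.card : ℝ) / Real.sqrt x.2 * E x.2) with hg
  have hg0 : ∀ x, 0 ≤ g x := by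
    intro x
    have := hE x.2
    simp only [hg]
    positivity
  have h1 : ∑ k ∈ Icc 1 Z, (k.divisors.card : ℝ) * (if Odd k ∧ (dc k).2 ≠ 1 then
      1 / Real.sqrt k * E (dc k).2 else 0) = ∑ k ∈ S, (k.divisors.card : ℝ) *
        (1 / Real.sqrt k * E (dc k).2) := by
    rw [hS, sum_filter]
    refine sum_congr rfl fun k _ => ?_
    split_ifs
    · rfl
    · ring
  have hmem : ∀ k ∈ S, 1 ≤ k ∧ k ≤ Z ∧ Odd k ∧ (dc k).2 ≠ 1 := by
    intro k hk
    rw [hS, mem_filter, mem_Icc] at hk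
    exact ⟨hk.1.1, hk.1.2, hk.2.1, hk.2.2⟩
  have h2 : ∀ k ∈ S, (k.divisors.card : ℝ) * (1 / Real.sqrt k * E (dc k).2) ≤ g (dc k) := by
    intro k hk
    obtain ⟨a1, a2, a3, a4⟩ := hmem k hk
    obtain ⟨b1, b2⟩ := dc_spec a1
    have hr0 : (dc k).1 ≠ 0 := by
      intro h0
      rw [h0] at b1
      simp at b1
      omega
    have hm0 : (dc k).2 ≠ 0 := b2.ne_zero
    have hr1 : (0 : ℝ) < (dc k).1 := by exact_mod_cast Nat.pos_of_ne_zero hr0
    have hm1 : (0 : ℝ) < (dc k).2 := by exact_mod_cast Nat.pos_of_ne_zero hm0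
    have hsm : 0 < Real.sqrt (dc k).2 := Real.sqrt_pos.2 hm1
    have hsk : Real.sqrt k = (dc k).1 * Real.sqrt (dc k).2 := by
      have : (k : ℝ) = ((dc k).1 : ℝ) ^ 2 * (dc k).2 := by exact_mod_cast b1.symm
      rw [this, Real.sqrt_mul (by positivity), Real.sqrt_sq hr1.le]
    have hd : (k.divisors.card : ℝ) ≤ ((dc k).1.divisors.card : ℝ) ^ 2 * (dc k).2.divisors.card := by
      have c1 : k.divisors.card ≤ ((dc k).1.divisors.card * (dc k).1.divisors.card) *
          (dc k).2.divisors.card := by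
        calc k.divisors.card = ((dc k).1 * (dc k).1 * (dc k).2).divisors.card := by
              rw [← pow_two, b1]
          _ ≤ ((dc k).1 * (dc k).1).divisors.card * (dc k).2.divisors.card :=
              Pool.Agent.H398R2.BV.card_div_mul_le _ _
          _ ≤ _ := Nat.mul_le_mul_right _ (Pool.Agent.H398R2.BV.card_div_mul_le _ _)
      have c2 : (k.divisors.card : ℝ) ≤ (((dc k).1.divisors.card * (dc k).1.divisors.card) *
          (dc k).2.divisors.card : ℕ) := by exact_mod_cast c1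
      refine c2.trans (le_of_eq ?_)
      push_cast
      ring
    have hEk := hE (dc k).2
    rw [hsk]
    calc (k.divisors.card : ℝ) * (1 / ((dc k).1 * Real.sqrt (dc k).2) * E (dc k).2)
        ≤ (((dc k).1.divisors.card : ℝ) ^ 2 * (dc k).2.divisors.card) *
          (1 / ((dc k).1 * Real.sqrt (dc k).2) * E (dc k).2) :=
          mul_le_mul_of_nonneg_right hd (by positivity)
      _ = _ := by
          simp only [hg]
          field_simp
  have hinj : Set.InjOn dc (S : Set ℕ) := by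
    intro k hk k' hk' h
    obtain ⟨b1, -⟩ := dc_spec (hmem k hk).1
    obtain ⟨b1', -⟩ := dc_spec (hmem k' hk').1
    rw [← b1, ← b1', h]
  have hsub : S.image dc ⊆ Icc 1 Z ×ˢ T := by
    intro x hx
    rw [mem_image] at hx
    obtain ⟨k, hk, rfl⟩ := hx
    obtain ⟨a1, a2, a3, a4⟩ := hmem k hk
    obtain ⟨b1, b2⟩ := dc_spec a1
    have hr0 : (dc k).1 ≠ 0 := by
      intro h0
      rw [h0] at b1
      simp at b1
      omega
    have hm0 : (dc k).2 ≠ 0 := b2.ne_zero
    have hmk : (dc k).2 ∣ k := Dvd.intro_left _ b1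
    have hrk : (dc k).1 ∣ k := (dvd_pow_self (dc k).1 two_ne_zero).trans (Dvd.intro _ b1)
    rw [mem_product, mem_Icc, hT, mem_filter]
    refine ⟨⟨Nat.one_le_iff_ne_zero.2 hr0, (Nat.le_of_dvd a1 hrk).trans a2⟩, ?_, ?_⟩
    · unfold osf
      rw [mem_filter, mem_Icc]
      exact ⟨⟨Nat.one_le_iff_ne_zero.2 hm0, (Nat.le_of_dvd a1 hmk).trans a2⟩,
        Odd.of_dvd_nat a3 hmk, b2⟩
    · omega
  rw [h1]
  calc ∑ k ∈ S, (k.divisors.card : ℝ) * (1 / Real.sqrt k * E (dc k).2)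
      ≤ ∑ k ∈ S, g (dc k) := sum_le_sum h2
    _ = ∑ x ∈ S.image dc, g x := (sum_image hinj).symm
    _ ≤ ∑ x ∈ Icc 1 Z ×ˢ T, g x := sum_le_sum_of_subset_of_nonneg hsub (fun x _ _ => hg0 x)
    _ = (∑ r ∈ Icc 1 Z, (r.divisors.card : ℝ) ^ 2 / r) *
        ∑ m ∈ T, (m.divisors.card : ℝ) / Real.sqrt m * E m := by
        rw [sum_mul_sum, ← sum_product']
    _ ≤ _ := by
        apply mul_le_mul_of_nonneg_right (sum_card_sq_div Z)
        exact sum_nonneg fun m _ => mul_nonneg (by positivity) (hE m)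

/-- the square part of the first moment -/
theorem sq_part (L : ℝ) (hL : 0 < L) (s θ : ℝ) (w Q : ℝ → ℝ) (hw : Wt s w) (hQ : Wt θ Q) :
    ∑ p ∈ Icc 1 ⌊Real.exp (s * L)⌋₊ ×ˢ Icc 1 ⌊Real.exp (θ * L)⌋₊,
        (if (dc (p.1 * p.2)).2 = 1 then cf 2 L w Q p else 0) =
      ∑' a : Fin 2 → ℕ, tp a * (w (Real.log (a 0) / L) * Q (Real.log (a 1) / L)) := by
  have e : ∑' a : Fin 2 → ℕ, tp a * (w (Real.log (a 0) / L) * Q (Real.log (a 1) / L)) =
      ∑' p : ℕ × ℕ, tp ![p.1, p.2] * (w (Real.log p.1 / L) * Q (Real.log p.2 / L)) := by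
    rw [← (finTwoArrowEquiv ℕ).symm.tsum_eq]
    rfl
  rw [e, tsum_eq_sum (s := Icc 1 ⌊Real.exp (s * L)⌋₊ ×ˢ Icc 1 ⌊Real.exp (θ * L)⌋₊)]
  · refine Finset.sum_congr rfl fun p hp => ?_
    rw [mem_product, mem_Icc, mem_Icc] at hp
    obtain ⟨⟨hp1, -⟩, ⟨hp2, -⟩⟩ := hp
    have hpr : ∏ i, (![p.1, p.2] : Fin 2 → ℕ) i = p.1 * p.2 := by
      rw [Fin.prod_univ_two]; rfl
    have hall : (∀ i, (![p.1, p.2] : Fin 2 → ℕ) i ≠ 0 ∧ Nat.Coprime ((![p.1, p.2] : Fin 2 → ℕ) i) 2) ↔
        (Nat.Coprime p.1 2 ∧ Nat.Coprime p.2 2) := by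
      constructor
      · intro h
        exact ⟨(h 0).2, (h 1).2⟩
      · rintro ⟨h1, h2⟩ i
        fin_cases i
        · exact ⟨by simpa using (by omega : p.1 ≠ 0), h1⟩
        · exact ⟨by simpa using (by omega : p.2 ≠ 0), h2⟩
    have hk : 1 ≤ p.1 * p.2 := Nat.mul_pos hp1 hp2
    have hsq := dc_one hk
    by_cases hc : Nat.Coprime p.1 2 ∧ Nat.Coprime p.2 2
    · by_cases hs : IsSquare (p.1 * p.2)
      · have hs' : IsSquare (∏ i, (![p.1, p.2] : Fin 2 → ℕ) i) := by rw [hpr]; exact hs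
        rw [if_pos (hsq.2 hs), cf, if_pos hc, tp, if_pos ⟨hall.2 hc, hs'⟩, hpr]
        have h4 : (![p.1, p.2] : Fin 2 → ℕ) 1 = p.2 := rfl
        have h3 : ((p.1 * p.2 : ℕ) : ℝ) = (p.1 : ℝ) * p.2 := by push_cast; ring
        rw [h4, h3, Real.sqrt_mul (Nat.cast_nonneg _)]
      · have hs' : ¬ IsSquare (∏ i, (![p.1, p.2] : Fin 2 → ℕ) i) := by rw [hpr]; exact hs
        rw [if_neg (fun h => hs (hsq.1 h)), tp, if_neg (fun h => hs' h.2), zero_mul]
    · have h9 : tp ![p.1, p.2] = 0 := by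
        rw [tp, if_neg (fun h => hc (hall.1 h.1))]
      have h10 : cf 2 L w Q p = 0 := by
        rw [cf, if_neg hc]
      rw [h9, h10, zero_mul]
      split_ifs <;> rfl
  · intro p hp
    rw [tp]
    split_ifs with h
    · have h0 : p.1 ≠ 0 := (h.1 0).1
      have h1 : p.2 ≠ 0 := (h.1 1).1
      by_cases hw0 : w (Real.log p.1 / L) = 0
      · rw [hw0, zero_mul, mul_zero]
      by_cases hQ0 : Q (Real.log p.2 / L) = 0
      · rw [hQ0, mul_zero, mul_zero]
      refine absurd ?_ hp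
      rw [mem_product, mem_Icc, mem_Icc]
      exact ⟨⟨Nat.one_le_iff_ne_zero.2 h0, wt_supp hL hw h0 hw0⟩,
        ⟨Nat.one_le_iff_ne_zero.2 h1, wt_supp hL hQ h1 hQ0⟩⟩
    · rw [zero_mul]

/-- the first moment over primes -/
theorem m1_p (ε : ℤ) (hε : ε = 1 ∨ ε = -1) {s' : ℝ} (hs' : s' ≤ 1 / 4) {F : ℝ → ℝ} (hF : TF F)
    (hF0 : ∀ x, 0 ≤ F x) : M1 (F8 ε) s' (1 / 2 * Ft F 0) (omp ε s' F) where
  l0 := one_p ε hs' hF
  l1 := by
    intro s θ hA w Q hw hQ
    have hGW := gw_p ε s' hF hF0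
    obtain ⟨B1, hB1, hwB⟩ := wt_bdd hw
    obtain ⟨B2, hB2, hQB⟩ := wt_bdd hQ
    have hs0 : 0 < s := by linarith [hA.hs]
    have hθ0 := hA.hθ
    set σ : ℝ := s + θ with hσ
    have hσ0 : 0 < σ := by rw [hσ]; linarith
    have hσ1 : σ < 1 := hA.main
    obtain ⟨L1, hL1, hkern⟩ := kern ε hε hs' hF
    obtain ⟨L2, hL2, hws⟩ := ws ε hs' hF σ hσ0 hσ1 5
    have hmain := main_limP (max s θ) w Q (wt_mono (le_max_left _ _) hw)
      (wt_mono (le_max_right _ _) hQ)
    have hone := one_p ε hs' hF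
    have hprod := (hone.mul hmain)
    have herr : Tendsto (fun L : ℝ => EA (omp ε s' F L) (fun d => Ndg (F8 ε) 2 L w d * Mdg (F8 ε) 2 L Q d) -
        EA (omp ε s' F L) (fun _ => 1) *
        ∑' a : Fin 2 → ℕ, tp a * (w (Real.log (a 0) / L) * Q (Real.log (a 1) / L))) atTop (𝓝 0) := by
      have hb : Tendsto (fun L : ℝ => (16 * (B1 * B2)) * (1 / L)) atTop (𝓝 0) := by
        have := (tendsto_const_nhds (x := (1 : ℝ))).div_atTop (tendsto_id (α := ℝ) (x := atTop))
        have h2 := this.const_mul (16 * (B1 * B2))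
        rw [mul_zero] at h2
        exact h2
      refine squeeze_zero_norm' ?_ hb
      filter_upwards [eventually_ge_atTop (max L1 L2)] with L hL
      have hLL1 : L1 ≤ L := (le_max_left _ _).trans hL
      have hLL2 : L2 ≤ L := (le_max_right _ _).trans hL
      have hL1' : 1 ≤ L := hL1.trans hLL1
      have hL0 : 0 < L := by linarith
      set Ns : ℕ := ⌊Real.exp (s * L)⌋₊ with hNs
      set Nt : ℕ := ⌊Real.exp (θ * L)⌋₊ with hNt
      have hNs' : (Ns : ℝ) ≤ Real.exp (s * L) := floor_exp_le _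
      have hNt' : (Nt : ℝ) ≤ Real.exp (θ * L) := floor_exp_le _
      have hst : Real.exp (s * L) * Real.exp (θ * L) = Real.exp (σ * L) := by
        rw [← Real.exp_add, hσ]; ring_nf
      set Z : ℕ := Ns * Nt with hZ
      have hZle : (Z : ℝ) ≤ Real.exp (σ * L) := by
        rw [hZ, ← hst]
        push_cast
        exact mul_le_mul hNs' hNt' (Nat.cast_nonneg _) (Real.exp_pos _).le
      have hZL : (Z : ℝ) ≤ Real.exp L := hZle.trans (Real.exp_le_exp.2 (by nlinarith))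
      have hexp : EA (omp ε s' F L) (fun d => Ndg (F8 ε) 2 L w d * Mdg (F8 ε) 2 L Q d) =
          ∑ p ∈ Icc 1 Ns ×ˢ Icc 1 Nt, cf 2 L w Q p * Em ε s' F L (p.1 * p.2) := by
        simp only [prodg_eq (F8 ε) 2 (by decide) L hL0 s θ w Q hw hQ]
        rw [EA_sum hGW]
        rfl
      have hEm1 : Em ε s' F L 1 = EA (omp ε s' F L) (fun _ => 1) := by
        unfold Em
        refine EA_congr L fun d _ => ?_
        unfold js
        rw [jacobiSym.one_right]
        norm_num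
      have hodd : ∀ p ∈ Icc 1 Ns ×ˢ Icc 1 Nt, cf 2 L w Q p ≠ 0 → Odd (p.1 * p.2) := by
        intro p _ hne
        rw [cf] at hne
        split_ifs at hne with h
        · exact (odd_of_coprime (by decide) h.1).mul (odd_of_coprime (by decide) h.2)
        · exact absurd rfl hne
      have hterm : ∀ p ∈ Icc 1 Ns ×ˢ Icc 1 Nt, cf 2 L w Q p * Em ε s' F L (p.1 * p.2) =
          (if (dc (p.1 * p.2)).2 = 1 then cf 2 L w Q p else 0) * EA (omp ε s' F L) (fun _ => 1) +
          (if (dc (p.1 * p.2)).2 ≠ 1 then cf 2 L w Q p * Em ε s' F L (dc (p.1 * p.2)).2 else 0) := by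
        intro p hp
        by_cases h0 : cf 2 L w Q p = 0
        · rw [h0]; simp
        have ho := hodd p hp h0
        rw [mem_product, mem_Icc, mem_Icc] at hp
        have hk : ((p.1 * p.2 : ℕ) : ℝ) ≤ Real.exp L := by
          refine le_trans ?_ hZL
          exact_mod_cast Nat.mul_le_mul hp.1.2 hp.2.2
        rw [hkern L hLL1 _ ho hk]
        by_cases h1 : (dc (p.1 * p.2)).2 = 1
        · rw [if_pos h1, if_neg (fun h => h h1), h1, hEm1, add_zero]
        · rw [if_neg h1, if_pos h1, zero_mul, zero_add]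
      rw [hexp, sum_congr rfl hterm, sum_add_distrib, ← sum_mul,
        sq_part L hL0 s θ w Q hw hQ, mul_comm (EA (omp ε s' F L) (fun _ => 1)),
        add_sub_cancel_left, Real.norm_eq_abs]
      set g : ℕ → ℝ := fun k => if Odd k ∧ (dc k).2 ≠ 1 then
        1 / Real.sqrt k * |Em ε s' F L (dc k).2| else 0 with hg
      have hg0 : ∀ k, 0 ≤ g k := by
        intro k
        simp only [hg]
        split_ifs <;> positivity
      have hb1 : ∀ p ∈ Icc 1 Ns ×ˢ Icc 1 Nt,
          |(if (dc (p.1 * p.2)).2 ≠ 1 then cf 2 L w Q p * Em ε s' F L (dc (p.1 * p.2)).2 else 0)| ≤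
          (B1 * B2) * g (p.1 * p.2) := by
        intro p hp
        have hR : 0 ≤ (B1 * B2) * g (p.1 * p.2) := mul_nonneg (by positivity) (hg0 _)
        by_cases h0 : cf 2 L w Q p = 0
        · rw [h0]; simpa using hR
        have ho := hodd p hp h0
        rw [mem_product, mem_Icc, mem_Icc] at hp
        split_ifs with h1
        · simp only [hg]
          rw [if_pos ⟨ho, h1⟩, abs_mul]
          have h3 := kf_abs 2 L w Q B1 B2 hB1 hwB hQB hB2 p hp.1.1 hp.2.1
          have h4 : 1 / Real.sqrt ((p.1 * p.2 : ℕ) : ℝ) = 1 / Real.sqrt p.1 * (1 / Real.sqrt p.2) := by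
            push_cast
            rw [Real.sqrt_mul (Nat.cast_nonneg _), one_div_mul_one_div]
          rw [h4]
          calc |cf 2 L w Q p| * |Em ε s' F L (dc (p.1 * p.2)).2|
              ≤ (B1 * B2 * (1 / Real.sqrt p.1 * (1 / Real.sqrt p.2))) *
                |Em ε s' F L (dc (p.1 * p.2)).2| := mul_le_mul_of_nonneg_right h3 (abs_nonneg _)
            _ = _ := by ring
        · rw [abs_zero]; exact hR
      have hlZ : 1 + Real.log Z ≤ 2 * L := by
        rcases Nat.eq_zero_or_pos Z with h0 | h0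
        · rw [h0]; simp; linarith
        · have h1 : Real.log Z ≤ Real.log (Real.exp L) :=
            Real.log_le_log (by exact_mod_cast h0) hZL
          rw [Real.log_exp] at h1
          linarith
      have hlZ0 : 0 ≤ 1 + Real.log Z := by
        have := Real.log_natCast_nonneg Z
        linarith
      calc |∑ p ∈ Icc 1 Ns ×ˢ Icc 1 Nt,
            (if (dc (p.1 * p.2)).2 ≠ 1 then cf 2 L w Q p * Em ε s' F L (dc (p.1 * p.2)).2 else 0)|
          ≤ ∑ p ∈ Icc 1 Ns ×ˢ Icc 1 Nt, (B1 * B2) * g (p.1 * p.2) :=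
            (Finset.abs_sum_le_sum_abs _ _).trans (sum_le_sum hb1)
        _ = (B1 * B2) * ∑ p ∈ Icc 1 Ns ×ˢ Icc 1 Nt, g (p.1 * p.2) := by rw [mul_sum]
        _ ≤ (B1 * B2) * ((1 + Real.log Z) ^ 4 * ∑ m ∈ (osf Z).filter (fun m => 1 < m),
            (m.divisors.card : ℝ) / Real.sqrt m * |Em ε s' F L m|) := by
            apply mul_le_mul_of_nonneg_left _ (by positivity)
            exact (sum_prod_le Ns Nt g hg0).trans
              (sum_kern_le Z (fun m => |Em ε s' F L m|) (fun m => abs_nonneg _))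
        _ ≤ (B1 * B2) * ((2 * L) ^ 4 * (1 / L ^ 5)) := by
            apply mul_le_mul_of_nonneg_left _ (by positivity)
            apply mul_le_mul _ (hws L hLL2 Z hZle)
              (sum_nonneg fun _ _ => by positivity) (by positivity)
            exact pow_le_pow_left₀ hlZ0 hlZ 4
        _ = _ := by
            field_simp
            ring
    have := herr.add hprod
    simp only [sub_add_cancel, zero_add] at this
    exact this

end

end Pool.Agent.N782.Q
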