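import Pool.Agent.N782.PA

set_option autoImplicit false

/-! Choice of the weights, two sided form (helper782). -/

namespace Pool.Agent.N782.PA

open Finset Filter Topology MeasureTheory Pool.Agent.H306R2.RZ
open Pool.Agent.H966R3.RZ2_MRc
open Pool.Agent.N782.ND

noncomputable section

/-- smooth cutoffs approximate the sharp one -/
theorem MRn (Cs θ' : ℝ) (hCs : 0 ≤ Cs) (hθ' : 0 < θ') (hθ1 : θ' ≤ 1) (c c' : ℝ → ℝ)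
    (hc : ∀ x, HasDerivAt c (c' x) x) (hc' : Continuous c') (X0 : ℝ) (hX0 : 0 ≤ X0) (ε : ℝ)
    (hε : 0 < ε) : ∃ (θ'' : ℝ) (χ : ℝ → ℝ), 0 < θ'' ∧ θ'' < θ' ∧ ST θ'' θ' χ ∧
      vv (c 0) (Bx χ 0) (Cs * nx χ) (ax 0) + (vv (c X0) (Bx χ X0) (Cs * nx χ) (ax X0) +
        (∫ x in (0 : ℝ)..X0, 2 * Real.sqrt (vv (c x) (Bx χ x) (Cs * nx χ) (ax x) *
          ww (c x) (c' x) (Bx χ x) (Bx1 χ x) (Cs * nx χ) (ax x) (ax1 x) (ax2 x)))) ≤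
      vv (c 0) (∫ u in (0 : ℝ)..θ', Sx 0 (u + 1 / 2)) (Cs * θ') (ax 0) +
      (vv (c X0) (∫ u in (0 : ℝ)..θ', Sx X0 (u + 1 / 2)) (Cs * θ') (ax X0) +
        (∫ x in (0 : ℝ)..X0, 2 * Real.sqrt (
          vv (c x) (∫ u in (0 : ℝ)..θ', Sx x (u + 1 / 2)) (Cs * θ') (ax x) *
          ww (c x) (c' x) (∫ u in (0 : ℝ)..θ', Sx x (u + 1 / 2))
            (∫ u in (0 : ℝ)..θ', Sx1 x (u + 1 / 2)) (Cs * θ') (ax x) (ax1 x) (ax2 x)))) + ε := by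
  have hcc : Continuous c := continuous_iff_continuousAt.2 fun x => (hc x).continuousAt
  obtain ⟨a, ha0, ha1, hat⟩ := exists_seq θ' hθ'
  choose χ hχ using fun n => exists_ST (a n) θ' (ha1 n)
  obtain ⟨M, hM⟩ : ∃ M : ℝ, ∀ p ∈ (Set.Icc (0 : ℝ) X0 ×ˢ Set.Icc (0 : ℝ) 2), ‖Sx p.1 p.2‖ ≤ M :=
    (isCompact_Icc.prod isCompact_Icc).exists_bound_of_continuousOn cont_Sx.continuousOn
  obtain ⟨M1, hM1⟩ : ∃ M : ℝ, ∀ p ∈ (Set.Icc (0 : ℝ) X0 ×ˢ Set.Icc (0 : ℝ) 2), ‖Sx1 p.1 p.2‖ ≤ M :=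
    (isCompact_Icc.prod isCompact_Icc).exists_bound_of_continuousOn cont_Sx1.continuousOn
  have tnn : Tendsto (fun n => Cs * nx (χ n)) atTop (𝓝 (Cs * θ')) :=
    (tn θ' hθ' hθ1 a hat χ hχ).const_mul Cs
  have t1 := tIm c c' hcc hc' X0 hX0 M M1 Cs (fun n x => Bx (χ n) x) (fun n x => Bx1 (χ n) x)
    (fun n => Cs * nx (χ n)) (fun x => ∫ u in (0 : ℝ)..θ', Sx x (u + 1 / 2))
    (fun x => ∫ u in (0 : ℝ)..θ', Sx1 x (u + 1 / 2)) (Cs * θ')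
    (fun n => cBx Sx cont_Sx (χ n) (hχ n).smooth.continuous)
    (fun n => cBx Sx1 cont_Sx1 (χ n) (hχ n).smooth.continuous)
    (fun n x hx => bB Sx X0 M hM (χ n) (ST_abs (hχ n)) x hx)
    (fun n x hx => bB Sx1 X0 M1 hM1 (χ n) (ST_abs (hχ n)) x hx)
    (fun n => by
      rw [abs_mul, abs_of_nonneg hCs]
      calc Cs * |nx (χ n)| ≤ Cs * 1 := mul_le_mul_of_nonneg_left (bn (χ n) (ST_abs (hχ n))) hCs
        _ = Cs := mul_one _)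
    (tB θ' hθ' hθ1 a hat χ hχ) (tB1 θ' hθ' hθ1 a hat χ hχ) tnn
  have t2 : ∀ y : ℝ, Tendsto (fun n => vv (c y) (Bx (χ n) y) (Cs * nx (χ n)) (ax y)) atTop
      (𝓝 (vv (c y) (∫ u in (0 : ℝ)..θ', Sx y (u + 1 / 2)) (Cs * θ') (ax y))) := by
    intro y
    have h2 := (tB θ' hθ' hθ1 a hat χ hχ y).prodMk_nhds tnn
    have h3 := ((cont_vv (c y) (ax y)).tendsto
      ((∫ u in (0 : ℝ)..θ', Sx y (u + 1 / 2)), Cs * θ')).comp h2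
    exact h3
  have tt := (t2 0).add ((t2 X0).add t1)
  obtain ⟨n, hn⟩ := (tt.eventually (gt_mem_nhds (lt_add_of_pos_right _ hε))).exists
  refine ⟨a n, χ n, ha0 n, ha1 n, hχ n, ?_⟩
  unfold Gf at hn
  exact hn.le

/-- the numerical bound, two sided -/
theorem NDV (Cs θ C X0 : ℝ) (hCs : 0 < Cs) (hθ : 0 < θ) (hC : 0 ≤ C) (hX0 : 0 ≤ X0)
    (h : ∀ x : ℝ, 0 < x → 0 < yN θ x ∧ VN x ≤ C * yN θ x ^ 2) :
    vv (cK (Cs * kN θ) θ 0) (Bn θ 0) (Cs * θ) (ax 0) +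
    (vv (cK (Cs * kN θ) θ X0) (Bn θ X0) (Cs * θ) (ax X0) +
      (∫ x in (0 : ℝ)..X0, 2 * Real.sqrt (
        vv (cK (Cs * kN θ) θ x) (Bn θ x) (Cs * θ) (ax x) *
        ww (cK (Cs * kN θ) θ x) (cK1 (Cs * kN θ) θ x) (Bn θ x) (Bn1 θ x) (Cs * θ) (ax x) (ax1 x)
          (ax2 x)))) ≤ JK (Cs * rN θ) 0 + JK (Cs * rN θ) C := by
  refine add_le_add ?_ (ND2 Cs θ C X0 hCs hθ hC hX0 h)
  have hk : 0 < Cs * kN θ := by
    unfold kN; positivity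
  rw [vv_eq hk hθ, ← PhK_zero 0 hθ hCs]
  apply PhK_ge hk (by positivity) le_rfl
  exact one_sub_kz_pos hk hθ 0

end

end Pool.Agent.N782.PA
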