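import Pool.Agent.H423R2.RZL.HBLS
import Pool.Agent.H355R3.RZ4_HE
import Pool.Agent.H423R2.RZL.LS4
import Pool.Agent.H379R2.W.JChar
import Pool.Agent.H343R2.KF9

set_option autoImplicit false

/-! Large sieve bounds for Jacobi symbols (helper782). -/

namespace Pool.Agent.N782.Q

open Finset Filter Topology MeasureTheory Pool.Agent.H306R2.RZ
open Pool.Agent.H423R2.RZL.LS4n (dc dc_spec js_mulL abs_js_le)
open Pool.Agent.H355R3.RZ4HE (pv expand mem_osf js_abs)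

noncomputable section

/-- duality -/
theorem dualG {S T : Finset ℕ} {c : ℕ → ℕ → ℝ} {B : ℝ} (hB : 0 ≤ B)
    (h : ∀ b : ℕ → ℂ, ∑ k ∈ S, ‖∑ m ∈ T, b m * (c k m : ℂ)‖ ^ 2 ≤ B * ∑ m ∈ T, ‖b m‖ ^ 2)
    (a : ℕ → ℂ) :
    ∑ m ∈ T, ‖∑ k ∈ S, a k * (c k m : ℂ)‖ ^ 2 ≤ B * ∑ k ∈ S, ‖a k‖ ^ 2 := by
  set t : ℕ → ℂ := fun m => ∑ k ∈ S, a k * (c k m : ℂ) with ht
  set W : ℝ := ∑ m ∈ T, ‖t m‖ ^ 2 with hW
  set d : ℕ → ℂ := fun k => ∑ m ∈ T, (starRingEnd ℂ) (t m) * (c k m : ℂ) with hd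
  have hW0 : 0 ≤ W := Finset.sum_nonneg fun n _ => by positivity
  have h1 : ∑ k ∈ S, ‖d k‖ ^ 2 ≤ B * W := by
    have := h (fun n => (starRingEnd ℂ) (t n))
    simpa [RCLike.norm_conj] using this
  have h2 : (W : ℂ) = ∑ k ∈ S, a k * d k := by
    have e1 : (W : ℂ) = ∑ n ∈ T, (starRingEnd ℂ) (t n) * t n := by
      rw [hW]
      push_cast
      refine Finset.sum_congr rfl fun n _ => ?_
      rw [Complex.conj_mul']
    rw [e1]
    simp only [hd, Finset.mul_sum]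
    rw [Finset.sum_comm]
    refine Finset.sum_congr rfl fun n _ => ?_
    rw [ht]
    simp only [Finset.mul_sum]
    refine Finset.sum_congr rfl fun m _ => ?_
    ring
  have h3 : W ≤ ∑ k ∈ S, ‖a k‖ * ‖d k‖ := by
    have e1 : W = ‖(W : ℂ)‖ := by rw [Complex.norm_real, Real.norm_of_nonneg hW0]
    rw [e1, h2]
    refine (norm_sum_le _ _).trans (Finset.sum_le_sum fun m _ => by rw [norm_mul])
  have h4 : W ^ 2 ≤ (∑ k ∈ S, ‖a k‖ ^ 2) * (B * W) := by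
    calc W ^ 2 ≤ (∑ m ∈ S, ‖a m‖ * ‖d m‖) ^ 2 := pow_le_pow_left₀ hW0 h3 2
      _ ≤ (∑ m ∈ S, ‖a m‖ ^ 2) * ∑ m ∈ S, ‖d m‖ ^ 2 := Finset.sum_mul_sq_le_sq_mul_sq _ _ _
      _ ≤ _ := mul_le_mul_of_nonneg_left h1 (Finset.sum_nonneg fun m _ => by positivity)
  have hb0 : 0 ≤ ∑ m ∈ S, ‖a m‖ ^ 2 := Finset.sum_nonneg fun m _ => by positivity
  rcases eq_or_lt_of_le hW0 with h5 | h5
  · rw [← h5]
    exact mul_nonneg hB hb0
  · have h6 : W * W ≤ W * (B * ∑ m ∈ S, ‖a m‖ ^ 2) := by nlinarith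
    exact le_of_mul_le_mul_left h6 h5

/-- elementary bound -/
theorem sml0 : ∃ C : ℝ, 0 < C ∧ ∀ (K D : ℕ) (a : ℕ → ℂ), 1 ≤ D →
    ∑ k ∈ Icc 1 K, ‖∑ m ∈ osf D, a m * (js k m : ℂ)‖ ^ 2 ≤
      (K + C * (D : ℝ) ^ 3) * ∑ m ∈ osf D, ‖a m‖ ^ 2 := by
  obtain ⟨C, hC, hpv⟩ := pv (1 / 4) (by norm_num)
  refine ⟨C, hC, ?_⟩
  intro M N a hN
  have hN1 : (1 : ℝ) ≤ N := by exact_mod_cast hN
  set S2 : ℝ := ∑ n ∈ osf N, ‖a n‖ ^ 2 with hS2
  have hS20 : 0 ≤ S2 := sum_nonneg fun _ _ => by positivity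
  have h2 : ∀ n1 ∈ osf N, ∀ n2 ∈ osf N, ‖a n1‖ * ‖a n2‖ * |∑ m ∈ Icc 1 M, js m (n1 * n2)| ≤
      (if n1 = n2 then ‖a n1‖ ^ 2 * M else 0) +
        ‖a n1‖ * ‖a n2‖ * (C * (N : ℝ) ^ 2) := by
    intro n1 hn1 n2 hn2
    by_cases h : n1 = n2
    · subst h
      rw [if_pos rfl]
      have h3 : |∑ m ∈ Icc 1 M, js m (n1 * n1)| ≤ M := by
        refine (abs_sum_le_sum_abs _ _).trans ?_
        have h5 : ∀ m ∈ Icc 1 M, |js (m : ℤ) (n1 * n1)| ≤ 1 := fun m _ => js_abs _ _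
        refine (sum_le_sum h5).trans ?_
        simp
      have h4 : 0 ≤ ‖a n1‖ * ‖a n1‖ * (C * (N : ℝ) ^ 2) := by positivity
      calc ‖a n1‖ * ‖a n1‖ * |∑ m ∈ Icc 1 M, js m (n1 * n1)| ≤ ‖a n1‖ * ‖a n1‖ * M := by gcongr
        _ ≤ _ := by rw [← pow_two]; linarith [h4]
    · rw [if_neg h, zero_add]
      have h5 := hpv M N n1 n2 hN hn1 hn2 h
      have e : (N : ℝ) ^ (1 + 4 * (1 / 4) : ℝ) = (N : ℝ) ^ 2 := by
        rw [show (1 + 4 * (1 / 4) : ℝ) = ((2 : ℕ) : ℝ) by norm_num, Real.rpow_natCast]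
      rw [e] at h5
      gcongr
  have h3 : (∑ n ∈ osf N, ‖a n‖) ^ 2 ≤ N * S2 := by
    refine (sq_sum_le_card_mul_sum_sq).trans ?_
    have hc : ((osf N).card : ℝ) ≤ N := by
      have : (osf N).card ≤ N := by
        unfold osf
        refine (card_filter_le _ _).trans ?_
        simp
      exact_mod_cast this
    gcongr
  refine (expand M N a).trans ?_
  refine (sum_le_sum fun n1 hn1 => sum_le_sum fun n2 hn2 => h2 n1 hn1 n2 hn2).trans ?_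
  simp only [sum_add_distrib]
  have e1 : ∑ n1 ∈ osf N, ∑ n2 ∈ osf N, (if n1 = n2 then ‖a n1‖ ^ 2 * (M : ℝ) else 0) = M * S2 := by
    rw [hS2, mul_sum]
    refine sum_congr rfl fun n1 hn1 => ?_
    rw [sum_ite_eq, if_pos hn1]
    ring
  have e2 : ∑ n1 ∈ osf N, ∑ n2 ∈ osf N, ‖a n1‖ * ‖a n2‖ * (C * (N : ℝ) ^ 2) =
      C * (N : ℝ) ^ 2 * (∑ n ∈ osf N, ‖a n‖) ^ 2 := by
    rw [pow_two (∑ n ∈ osf N, ‖a n‖), sum_mul_sum, mul_sum]
    refine sum_congr rfl fun n1 _ => ?_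
    rw [mul_sum]
    exact sum_congr rfl fun n2 _ => by ring
  rw [e1, e2]
  calc M * S2 + C * (N : ℝ) ^ 2 * (∑ n ∈ osf N, ‖a n‖) ^ 2
      ≤ M * S2 + C * (N : ℝ) ^ 2 * (N * S2) := by gcongr
    _ = _ := by ring

/-- dual form of the elementary bound -/
theorem sml : ∃ C : ℝ, 0 < C ∧ ∀ (K D : ℕ) (a : ℕ → ℂ), 1 ≤ D →
    ∑ m ∈ osf D, ‖∑ k ∈ Icc 1 K, a k * (js k m : ℂ)‖ ^ 2 ≤
      (K + C * (D : ℝ) ^ 3) * ∑ k ∈ Icc 1 K, ‖a k‖ ^ 2 := by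
  obtain ⟨C, hC, h⟩ := sml0
  refine ⟨C, hC, fun K D a hD => ?_⟩
  exact dualG (c := fun k m => js k m) (by positivity) (fun b => h K D b hD) a

theorem fib (K r : ℕ) (hr : 1 ≤ r) (g : ℕ → ℂ) :
    ∑ k ∈ (Icc 1 K).filter (fun k => (dc k).1 = r), g k =
      ∑ k0 ∈ sqf (K / r ^ 2), if (dc (r ^ 2 * k0)).1 = r then g (r ^ 2 * k0) else 0 := by
  have hr2 : 0 < r ^ 2 := by positivity
  rw [← sum_filter]
  refine sum_nbij' (fun k => (dc k).2) (fun k0 => r ^ 2 * k0) ?_ ?_ ?_ ?_ ?_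
  · intro k hk
    rw [mem_filter, mem_Icc] at hk
    obtain ⟨⟨h1, h2⟩, h3⟩ := hk
    obtain ⟨h4, h5⟩ := dc_spec h1
    rw [h3] at h4
    rw [mem_filter]
    unfold sqf
    rw [mem_filter, mem_Icc]
    refine ⟨⟨⟨?_, ?_⟩, h5⟩, ?_⟩
    · exact Nat.one_le_iff_ne_zero.2 h5.ne_zero
    · rw [Nat.le_div_iff_mul_le hr2, mul_comm, h4]
      exact h2
    · show (dc (r ^ 2 * (dc k).2)).1 = r
      rw [h4]; exact h3
  · intro k0 hk
    rw [mem_filter] at hk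
    unfold sqf at hk
    rw [mem_filter, mem_Icc] at hk
    obtain ⟨⟨⟨h1, h2⟩, h3⟩, h4⟩ := hk
    rw [mem_filter, mem_Icc]
    refine ⟨⟨Nat.mul_pos hr2 h1, ?_⟩, h4⟩
    rw [Nat.le_div_iff_mul_le hr2, mul_comm] at h2
    exact h2
  · intro k hk
    rw [mem_filter, mem_Icc] at hk
    obtain ⟨⟨h1, h2⟩, h3⟩ := hk
    obtain ⟨h4, h5⟩ := dc_spec h1
    rw [h3] at h4
    exact h4
  · intro k0 hk
    rw [mem_filter] at hk
    unfold sqf at hk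
    rw [mem_filter, mem_Icc] at hk
    obtain ⟨⟨⟨h1, h2⟩, h3⟩, h4⟩ := hk
    have h6 : 1 ≤ r ^ 2 * k0 := Nat.mul_pos hr2 h1
    obtain ⟨h7, h8⟩ := dc_spec h6
    rw [h4] at h7
    exact Nat.eq_of_mul_eq_mul_left hr2 h7
  · intro k hk
    rw [mem_filter, mem_Icc] at hk
    obtain ⟨⟨h1, h2⟩, h3⟩ := hk
    obtain ⟨h4, h5⟩ := dc_spec h1
    rw [h3] at h4
    rw [h4]

theorem harm (K : ℕ) : ∑ r ∈ Icc 1 K, (1 : ℝ) / r ≤ 1 + Real.log K := by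
  have h := harmonic_le_one_add_log K
  rw [harmonic_eq_sum_Icc] at h
  push_cast at h
  simpa using h

/-- the large sieve bound for all integers -/
theorem lrg (ε : ℝ) (hε : 0 < ε) : ∃ C : ℝ, 0 < C ∧ ∀ (K D : ℕ) (a : ℕ → ℂ) (b : ℝ), 1 ≤ D →
    1 ≤ K → 0 ≤ b → (∀ k ∈ Icc 1 K, ‖a k‖ ≤ b) →
    ∑ m ∈ osf D, ‖∑ k ∈ Icc 1 K, a k * (js k m : ℂ)‖ ^ 2 ≤
      C * ((K : ℝ) * D) ^ ε * (K + D) * K * b ^ 2 * (1 + Real.log K) ^ 2 := by
  obtain ⟨C, hC, h⟩ := Pool.Agent.H423R2.RZL.HBLSn.HBLS ε hε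
  refine ⟨C, hC, ?_⟩
  intro K D a b hD hK hb ha
  have hK1 : (1 : ℝ) ≤ K := by exact_mod_cast hK
  have hD1 : (1 : ℝ) ≤ D := by exact_mod_cast hD
  have hlK : 0 ≤ Real.log K := Real.log_nonneg hK1
  set ar : ℕ → ℕ → ℂ := fun r k0 => if (dc (r ^ 2 * k0)).1 = r then a (r ^ 2 * k0) else 0 with har
  -- decomposition
  have e1 : ∀ m : ℕ, ∑ k ∈ Icc 1 K, a k * (js k m : ℂ) =
      ∑ r ∈ Icc 1 K, (js ((r : ℤ) ^ 2) m : ℂ) * ∑ k0 ∈ sqf (K / r ^ 2), ar r k0 * (js k0 m : ℂ) := by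
    intro m
    have hmap : ∀ k ∈ Icc 1 K, (dc k).1 ∈ Icc 1 K := by
      intro k hk
      rw [mem_Icc] at hk
      obtain ⟨h4, h5⟩ := dc_spec hk.1
      have h6 : (dc k).1 ≠ 0 := by
        intro h0
        rw [h0] at h4
        simp at h4
        omega
      rw [mem_Icc]
      refine ⟨Nat.one_le_iff_ne_zero.2 h6, ?_⟩
      have h7 : (dc k).1 ∣ k := (dvd_pow_self (dc k).1 two_ne_zero).trans (Dvd.intro _ h4)
      exact (Nat.le_of_dvd hk.1 h7).trans hk.2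
    rw [← sum_fiberwise_of_maps_to hmap]
    refine sum_congr rfl fun r hr => ?_
    rw [mem_Icc] at hr
    rw [fib K r hr.1, mul_sum]
    refine sum_congr rfl fun k0 _ => ?_
    simp only [har]
    split_ifs
    · have : js ((r ^ 2 * k0 : ℕ) : ℤ) m = js ((r : ℤ) ^ 2) m * js k0 m := by
        push_cast
        exact js_mulL _ _ _
      rw [this]
      push_cast
      ring
    · simp
  have e2 : ∀ m : ℕ, ‖∑ k ∈ Icc 1 K, a k * (js k m : ℂ)‖ ^ 2 ≤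
      (1 + Real.log K) * ∑ r ∈ Icc 1 K, (r : ℝ) *
        ‖∑ k0 ∈ sqf (K / r ^ 2), ar r k0 * (js k0 m : ℂ)‖ ^ 2 := by
    intro m
    rw [e1 m]
    have h1 : ‖∑ r ∈ Icc 1 K, (js ((r : ℤ) ^ 2) m : ℂ) *
        ∑ k0 ∈ sqf (K / r ^ 2), ar r k0 * (js k0 m : ℂ)‖ ≤
        ∑ r ∈ Icc 1 K, (1 / Real.sqrt r) * (Real.sqrt r *
          ‖∑ k0 ∈ sqf (K / r ^ 2), ar r k0 * (js k0 m : ℂ)‖) := by
      refine (norm_sum_le _ _).trans (sum_le_sum fun r hr => ?_)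
      rw [mem_Icc] at hr
      have hr0 : 0 < Real.sqrt r := Real.sqrt_pos.2 (by exact_mod_cast hr.1)
      rw [norm_mul, ← mul_assoc, one_div, inv_mul_cancel₀ hr0.ne', Complex.norm_real,
        Real.norm_eq_abs]
      exact mul_le_mul_of_nonneg_right (abs_js_le _ _) (norm_nonneg _)
    calc _ ≤ (∑ r ∈ Icc 1 K, (1 / Real.sqrt r) * (Real.sqrt r *
          ‖∑ k0 ∈ sqf (K / r ^ 2), ar r k0 * (js k0 m : ℂ)‖)) ^ 2 :=
          pow_le_pow_left₀ (norm_nonneg _) h1 2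
      _ ≤ (∑ r ∈ Icc 1 K, (1 / Real.sqrt r) ^ 2) * ∑ r ∈ Icc 1 K, (Real.sqrt r *
          ‖∑ k0 ∈ sqf (K / r ^ 2), ar r k0 * (js k0 m : ℂ)‖) ^ 2 :=
          Finset.sum_mul_sq_le_sq_mul_sq _ _ _
      _ ≤ _ := by
          have h2 : ∑ r ∈ Icc 1 K, (1 / Real.sqrt (r : ℝ)) ^ 2 ≤ 1 + Real.log K := by
            refine le_trans (le_of_eq ?_) (harm K)
            refine sum_congr rfl fun r _ => ?_
            rw [div_pow, one_pow, Real.sq_sqrt (Nat.cast_nonneg _)]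
          have h3 : ∑ r ∈ Icc 1 K, (Real.sqrt r *
              ‖∑ k0 ∈ sqf (K / r ^ 2), ar r k0 * (js k0 m : ℂ)‖) ^ 2 =
              ∑ r ∈ Icc 1 K, (r : ℝ) *
                ‖∑ k0 ∈ sqf (K / r ^ 2), ar r k0 * (js k0 m : ℂ)‖ ^ 2 := by
            refine sum_congr rfl fun r _ => ?_
            rw [mul_pow, Real.sq_sqrt (Nat.cast_nonneg _)]
          rw [h3]
          exact mul_le_mul_of_nonneg_right h2 (sum_nonneg fun _ _ => by positivity)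
  -- each r
  have e3 : ∀ r ∈ Icc 1 K, ∑ m ∈ osf D, ‖∑ k0 ∈ sqf (K / r ^ 2), ar r k0 * (js k0 m : ℂ)‖ ^ 2 ≤
      C * ((K : ℝ) * D) ^ ε * (K + D) * (K / (r : ℝ) ^ 2) * b ^ 2 := by
    intro r hr
    rw [mem_Icc] at hr
    have hr1 : (1 : ℝ) ≤ r := by exact_mod_cast hr.1
    rcases Nat.eq_zero_or_pos (K / r ^ 2) with h0 | h0
    · rw [h0]
      have : sqf 0 = ∅ := by simp [sqf]
      rw [this]
      simp
      positivity
    · have h1 := h (K / r ^ 2) D h0 hD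
      set B : ℝ := C * (((K / r ^ 2 : ℕ) : ℝ) * D) ^ ε * (((K / r ^ 2 : ℕ) : ℝ) + D) with hB
      have hB0 : 0 ≤ B := by rw [hB]; positivity
      have h2 : ∑ m ∈ osf D, ‖∑ k0 ∈ sqf (K / r ^ 2), ar r k0 * (js k0 m : ℂ)‖ ^ 2 ≤
          B * ∑ k0 ∈ sqf (K / r ^ 2), ‖ar r k0‖ ^ 2 :=
        dualG (c := fun k m => js k m) hB0 (fun c => h1 c) (ar r)
      have hKr : ((K / r ^ 2 : ℕ) : ℝ) ≤ K / (r : ℝ) ^ 2 := by
        have := Nat.cast_div_le (α := ℝ) (m := K) (n := r ^ 2)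
        push_cast at this
        exact this
      have hKr2 : ((K / r ^ 2 : ℕ) : ℝ) ≤ K := by
        exact_mod_cast Nat.div_le_self _ _
      have h3 : ∑ k0 ∈ sqf (K / r ^ 2), ‖ar r k0‖ ^ 2 ≤ (K / (r : ℝ) ^ 2) * b ^ 2 := by
        have h4 : ∀ k0 ∈ sqf (K / r ^ 2), ‖ar r k0‖ ^ 2 ≤ b ^ 2 := by
          intro k0 hk0
          apply pow_le_pow_left₀ (norm_nonneg _)
          simp only [har]
          split_ifs
          · apply ha
            unfold sqf at hk0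
            rw [mem_filter, mem_Icc] at hk0
            rw [mem_Icc]
            have hr2 : 0 < r ^ 2 := pow_pos hr.1 2
            refine ⟨Nat.mul_pos hr2 hk0.1.1, ?_⟩
            have := hk0.1.2
            rw [Nat.le_div_iff_mul_le hr2, mul_comm] at this
            exact this
          · simpa using hb
        refine (sum_le_sum h4).trans ?_
        rw [sum_const, nsmul_eq_mul]
        apply mul_le_mul_of_nonneg_right _ (by positivity)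
        refine le_trans ?_ hKr
        have : (sqf (K / r ^ 2)).card ≤ K / r ^ 2 := by
          unfold sqf
          refine (card_filter_le _ _).trans ?_
          simp
        exact_mod_cast this
      refine h2.trans ?_
      calc B * ∑ k0 ∈ sqf (K / r ^ 2), ‖ar r k0‖ ^ 2 ≤
          (C * ((K : ℝ) * D) ^ ε * (K + D)) * ((K / (r : ℝ) ^ 2) * b ^ 2) := by
            apply mul_le_mul _ h3 (sum_nonneg fun _ _ => by positivity) (by positivity)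
            rw [hB]
            gcongr
        _ = _ := by ring
  calc ∑ m ∈ osf D, ‖∑ k ∈ Icc 1 K, a k * (js k m : ℂ)‖ ^ 2
      ≤ ∑ m ∈ osf D, (1 + Real.log K) * ∑ r ∈ Icc 1 K, (r : ℝ) *
        ‖∑ k0 ∈ sqf (K / r ^ 2), ar r k0 * (js k0 m : ℂ)‖ ^ 2 := sum_le_sum fun m _ => e2 m
    _ = (1 + Real.log K) * ∑ r ∈ Icc 1 K, (r : ℝ) *
        ∑ m ∈ osf D, ‖∑ k0 ∈ sqf (K / r ^ 2), ar r k0 * (js k0 m : ℂ)‖ ^ 2 := by
        rw [← mul_sum, sum_comm]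
        congr 1
        refine sum_congr rfl fun r _ => ?_
        rw [mul_sum]
    _ ≤ (1 + Real.log K) * ∑ r ∈ Icc 1 K, (r : ℝ) *
        (C * ((K : ℝ) * D) ^ ε * (K + D) * (K / (r : ℝ) ^ 2) * b ^ 2) := by
        apply mul_le_mul_of_nonneg_left _ (by positivity)
        exact sum_le_sum fun r hr => mul_le_mul_of_nonneg_left (e3 r hr) (Nat.cast_nonneg _)
    _ = (1 + Real.log K) * ((C * ((K : ℝ) * D) ^ ε * (K + D) * K * b ^ 2) *
        ∑ r ∈ Icc 1 K, (1 : ℝ) / r) := by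
        congr 1
        rw [mul_sum]
        refine sum_congr rfl fun r hr => ?_
        rw [mem_Icc] at hr
        have : (0 : ℝ) < r := by exact_mod_cast hr.1
        field_simp
    _ ≤ (1 + Real.log K) * ((C * ((K : ℝ) * D) ^ ε * (K + D) * K * b ^ 2) *
        (1 + Real.log K)) := by
        have := harm K
        gcongr
    _ = _ := by ring

end

end Pool.Agent.N782.Q
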