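import Pool.Agent.N782.QA
import Pool.Agent.H398R2.BV1

set_option autoImplicit false

/-! Jacobi symbols as characters: bilinear and smooth sums (helper782). -/

namespace Pool.Agent.N782.Q

open Finset Filter Topology MeasureTheory Pool.Agent.H306R2.RZ
open H343 H343.KF
open Pool.Agent.Helper112 (betaV LamII divisor_bound)
open Pool.Agent.Helper112.TI (mu1 l1 mu1_apply l1_apply vaughan)
open Pool.Agent.H379R2.W (jchar jchar_apply exists_neg_one)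
open Pool.Agent.H423R2.RZL.LS4n (js_mulL abs_js_le)
open Pool.Agent.H355R3.RZ4HE (mem_osf)

noncomputable section

/-- the Jacobi symbol as a character -/
def ch (m : ℕ) : DirichletCharacter ℂ m :=
  if h : m = 0 then 1 else haveI : NeZero m := ⟨h⟩; jchar m

theorem ch_apply {m : ℕ} (hm : m ≠ 0) (n : ℕ) : ch m (n : ZMod m) = (js n m : ℂ) := by
  haveI : NeZero m := ⟨hm⟩
  unfold ch
  rw [dif_neg hm, jchar_apply]
  unfold js
  push_cast
  rfl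

theorem PPj {m : ℕ} (hm : m ≠ 0) (α : ℕ → ℂ) (K : ℕ) (η : ℝ) : PP α 1 K η (ch m) =
    ∑ k ∈ Icc 1 K, (α k * ex (η * Real.log k)) * (js k m : ℂ) := by
  unfold PP tw
  refine sum_congr rfl fun k _ => ?_
  rw [if_pos (Nat.coprime_one_right k), ch_apply hm]

theorem osf_ne {D m : ℕ} (h : m ∈ osf D) : m ≠ 0 := by
  have := (mem_osf h).1
  omega

theorem lsS : ∃ C : ℝ, 0 < C ∧ ∀ (K D : ℕ) (α : ℕ → ℂ) (η : ℝ), 1 ≤ D →
    ∑ m ∈ osf D, ‖PP α 1 K η (ch m)‖ ^ 2 ≤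
      (K + C * (D : ℝ) ^ 3) * ∑ k ∈ Icc 1 K, ‖α k‖ ^ 2 := by
  obtain ⟨C, hC, h⟩ := sml
  refine ⟨C, hC, fun K D α η hD => ?_⟩
  have h1 := h K D (fun k => α k * ex (η * Real.log k)) hD
  have e1 : ∑ m ∈ osf D, ‖PP α 1 K η (ch m)‖ ^ 2 =
      ∑ m ∈ osf D, ‖∑ k ∈ Icc 1 K, (α k * ex (η * Real.log k)) * (js k m : ℂ)‖ ^ 2 :=
    sum_congr rfl fun m hm => by rw [PPj (osf_ne hm)]
  rw [e1]
  refine h1.trans (le_of_eq ?_)
  congr 1
  refine sum_congr rfl fun k _ => ?_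
  rw [norm_mul, norm_ex, mul_one]

theorem lsL (ε : ℝ) (hε : 0 < ε) : ∃ C : ℝ, 0 < C ∧ ∀ (K D : ℕ) (α : ℕ → ℂ) (b η : ℝ), 1 ≤ D →
    1 ≤ K → 0 ≤ b → (∀ k ∈ Icc 1 K, ‖α k‖ ≤ b) →
    ∑ m ∈ osf D, ‖PP α 1 K η (ch m)‖ ^ 2 ≤
      C * ((K : ℝ) * D) ^ ε * (K + D) * K * b ^ 2 * (1 + Real.log K) ^ 2 := by
  obtain ⟨C, hC, h⟩ := lrg ε hε
  refine ⟨C, hC, fun K D α b η hD hK hb hα => ?_⟩
  have h1 := h K D (fun k => α k * ex (η * Real.log k)) b hD hK hb (fun k hk => by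
    rw [norm_mul, norm_ex, mul_one]; exact hα k hk)
  have e1 : ∑ m ∈ osf D, ‖PP α 1 K η (ch m)‖ ^ 2 =
      ∑ m ∈ osf D, ‖∑ k ∈ Icc 1 K, (α k * ex (η * Real.log k)) * (js k m : ℂ)‖ ^ 2 :=
    sum_congr rfl fun m hm => by rw [PPj (osf_ne hm)]
  rw [e1]
  exact h1

/-- summation of bilinear forms over the moduli -/
theorem tts {G : ℝ → ℂ} (hGc : Continuous G) (hGi : Integrable (fun ξ => (1 + |ξ|) * ‖G ξ‖))
    {f : ℝ → ℝ} (hfG : ∀ v : ℝ, (f v : ℂ) = ∫ ξ, G ξ * ex (ξ * v)) {B : ℝ} (hf : Test B f)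
    (x : ℝ) (hx : 0 < x) (M J : ℕ) (hM : Real.exp B * x ≤ M) (hJ : Real.exp B * x ≤ 2 ^ J)
    (α β : ℕ → ℂ) (S : Finset ℕ) (Kb : ℝ) (hKb : ∀ j ∈ range J, ∀ η : ℝ,
      ∑ m ∈ S, ‖PP (dy j α) 1 (2 ^ (j + 1)) η (ch m)‖ *
        ‖PP β 1 ⌊Real.exp B * x / 2 ^ j⌋₊ η (ch m)‖ ≤ Kb * (1 + |η|)) :
    ∑ m ∈ S, ‖TT f x M 1 α β (ch m)‖ ≤ J * (Kb * ∫ η, (1 + |η|) * ‖G η‖) := by
  have hG1 : Integrable G := by
    refine hGi.mono' hGc.aestronglyMeasurable (Filter.Eventually.of_forall fun ξ => ?_)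
    have : 0 ≤ |ξ| * ‖G ξ‖ := by positivity
    linarith
  have hint : ∀ (j m : ℕ), Integrable (fun η => ‖G η‖ *
      (‖PP (dy j α) 1 (2 ^ (j + 1)) η (ch m)‖ *
        ‖PP β 1 ⌊Real.exp B * x / 2 ^ j⌋₊ η (ch m)‖)) := by
    intro j m
    obtain ⟨C1, h1⟩ := PP_bdd (dy j α) 1 (2 ^ (j + 1)) (ch m)
    obtain ⟨C2, h2⟩ := PP_bdd β 1 ⌊Real.exp B * x / 2 ^ j⌋₊ (ch m)
    have hC1 : 0 ≤ C1 := (norm_nonneg _).trans (h1 0)
    refine Integrable.mono' (hG1.norm.mul_const (C1 * C2)) ?_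
      (Filter.Eventually.of_forall fun η => ?_)
    · exact (hGc.norm.mul ((PP_cont _ _ _ _).norm.mul (PP_cont _ _ _ _).norm)).aestronglyMeasurable
    · rw [Real.norm_of_nonneg (by positivity)]
      exact mul_le_mul_of_nonneg_left (mul_le_mul (h1 η) (h2 η) (norm_nonneg _) hC1)
        (norm_nonneg _)
  calc ∑ m ∈ S, ‖TT f x M 1 α β (ch m)‖
      ≤ ∑ m ∈ S, ∑ j ∈ range J, ∫ η, ‖G η‖ * (‖PP (dy j α) 1 (2 ^ (j + 1)) η (ch m)‖ *
        ‖PP β 1 ⌊Real.exp B * x / 2 ^ j⌋₊ η (ch m)‖) :=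
        sum_le_sum fun m _ => TT_bound hGc hG1 hfG hf x hx M 1 J hM hJ α β (ch m)
    _ = ∑ j ∈ range J, ∫ η, ∑ m ∈ S, ‖G η‖ * (‖PP (dy j α) 1 (2 ^ (j + 1)) η (ch m)‖ *
        ‖PP β 1 ⌊Real.exp B * x / 2 ^ j⌋₊ η (ch m)‖) := by
        rw [sum_comm]
        refine sum_congr rfl fun j _ => ?_
        rw [integral_finset_sum S fun m _ => hint j m]
    _ ≤ ∑ j ∈ range J, ∫ η, Kb * ((1 + |η|) * ‖G η‖) := by
        refine sum_le_sum fun j hj => ?_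
        apply integral_mono (integrable_finset_sum S fun m _ => hint j m) (hGi.const_mul Kb)
        intro η
        simp only
        rw [← mul_sum]
        calc ‖G η‖ * ∑ m ∈ S, ‖PP (dy j α) 1 (2 ^ (j + 1)) η (ch m)‖ *
              ‖PP β 1 ⌊Real.exp B * x / 2 ^ j⌋₊ η (ch m)‖ ≤ ‖G η‖ * (Kb * (1 + |η|)) :=
              mul_le_mul_of_nonneg_left (hKb j hj η) (norm_nonneg _)
          _ = _ := by ring
    _ = _ := by
        rw [sum_const, card_range, nsmul_eq_mul, integral_const_mul]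

theorem ch_ne_one {D m : ℕ} (h : m ∈ osf D) (h1 : 1 < m) : ch m ≠ 1 := by
  obtain ⟨a1, a2, a3, a4⟩ := mem_osf h
  obtain ⟨a, ha⟩ := exists_neg_one (s := m) (s' := 1) a4 squarefree_one a3 odd_one (by omega)
  rw [mul_one] at ha
  intro hc
  have h2 := ch_apply (by omega : m ≠ 0) a
  have h3 : (js a m : ℂ) = -1 := by
    unfold js
    rw [ha]
    norm_num
  rw [hc, h3] at h2
  by_cases hu : IsUnit (a : ZMod m)
  · rw [MulChar.one_apply hu] at h2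
    norm_num at h2
  · rw [MulChar.map_nonunit _ hu] at h2
    norm_num at h2

theorem cond_ge {D m : ℕ} (h : m ∈ osf D) (h1 : 1 < m) :
    2 ≤ (ch m).conductor ∧ (ch m).conductor ≤ m := by
  haveI : NeZero m := ⟨by omega⟩
  have hc1 : (ch m).conductor ≠ 1 := fun h2 =>
    ch_ne_one h h1 (((ch m).eq_one_iff_conductor_eq_one).mpr h2)
  have hc0 : (ch m).conductor ≠ 0 := (ch m).conductor_ne_zero
  have hcd := (ch m).conductor_dvd_level
  have hcM : (ch m).conductor ≤ m := Nat.le_of_dvd (by omega) hcd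
  omega

theorem prim_apply {m : ℕ} (hm : m ≠ 0) {a : ℕ} (hco : a.Coprime m) :
    (ch m).primitiveCharacter (a : ZMod (ch m).conductor) = (js a m : ℂ) := by
  have h3 : IsCoprime (a : ℤ) (m : ℤ) := Nat.isCoprime_iff_coprime.mpr hco
  have h4 := (ch m).primitiveCharacter_apply_of_isCoprime h3
  push_cast at h4
  rw [h4, ch_apply hm]

theorem js_zero {a m : ℕ} (hco : ¬ a.Coprime m) (hm : m ≠ 0) : js a m = 0 := by
  haveI : NeZero m := ⟨hm⟩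
  unfold js
  have : jacobiSym (a : ℤ) m = 0 := by
    rw [jacobiSym.eq_zero_iff_not_coprime, Int.gcd_natCast_natCast]
    exact hco
  rw [this]
  norm_num

theorem PP_prim {m : ℕ} (hm : m ≠ 0) (α : ℕ → ℂ) (K : ℕ) (η : ℝ) :
    PP α 1 K η (ch m) = PP α m K η (ch m).primitiveCharacter := by
  rw [PPj hm]
  unfold PP tw
  refine sum_congr rfl fun k _ => ?_
  split_ifs with h
  · rw [prim_apply hm h]
  · rw [js_zero h hm]
    simp

theorem pvj (i : ℕ) (hi : i ≤ 1) (η : ℝ) (L : ℕ) {D m : ℕ} (h : m ∈ osf D) (h1 : 1 < m) :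
    ‖PP (fun n => (((Real.log n) ^ i : ℝ) : ℂ)) 1 L η (ch m)‖ ≤
      2 * (7 * (1 + |η|) * (1 + Real.log L) ^ 2) *
        (m.divisors.card * (2 * Real.sqrt m * (1 + Real.log m))) := by
  obtain ⟨hc2, hcm⟩ := cond_ge h h1
  rw [PP_prim (by omega)]
  refine (PP_smooth i hi η m L (ch m).conductor (by omega) hc2 (ch m).primitiveCharacter
    (ch m).primitiveCharacter_isPrimitive).trans ?_
  have hc1' : (1 : ℝ) ≤ (ch m).conductor := by exact_mod_cast (by omega : 1 ≤ (ch m).conductor)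
  have hcM' : ((ch m).conductor : ℝ) ≤ m := by exact_mod_cast hcm
  have h5 : Real.sqrt (ch m).conductor ≤ Real.sqrt m := Real.sqrt_le_sqrt hcM'
  have h6 : Real.log (ch m).conductor ≤ Real.log m := Real.log_le_log (by linarith) hcM'
  have h7 : 0 ≤ Real.log (ch m).conductor := Real.log_nonneg hc1'
  have h8 : 0 ≤ Real.log L := Real.log_natCast_nonneg L
  gcongr

end

end Pool.Agent.N782.Q
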