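import Pool.Agent.N782.QB

set_option autoImplicit false

/-! Parameters, Vaughan's identity, sums of type I (helper782). -/

namespace Pool.Agent.N782.Q

open Finset Filter Topology MeasureTheory
open Pool.Agent.H306R2.RZ (js osf sqf)
open H343 H343.KF
open Pool.Agent.Helper112 (betaV LamII divisor_bound)
open Pool.Agent.Helper112.TI (mu1 l1 mu1_apply l1_apply vaughan)
open Pool.Agent.H355R3.RZ4HE (mem_osf)

noncomputable section

/-- parameters -/
structure Pa (B x : ℝ) (M J U : ℕ) : Prop where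
  hx : 1 ≤ x
  hM : Real.exp B * x ≤ M
  hJ : Real.exp B * x ≤ 2 ^ J
  hJ' : ∀ j < J, (2 : ℝ) ^ j ≤ Real.exp B * x + 1
  hU1 : 1 ≤ U
  hcut : Real.exp |B| * U ≤ x

section
variable {B x : ℝ} {M J U : ℕ}

theorem Pa.one_le (P : Pa B x M J U) : 1 ≤ 1 + Real.log x := by
  have := Real.log_nonneg P.hx
  linarith

theorem Pa.K_le (P : Pa B x M J U) {j : ℕ} (hj : j < J) :
    ((2 ^ (j + 1) : ℕ) : ℝ) ≤ 4 * Real.exp |B| * x := by
  have h1 := P.hJ' j hj
  have h3 : Real.exp B ≤ Real.exp |B| := Real.exp_le_exp.2 (le_abs_self B)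
  have h4 : 1 ≤ Real.exp |B| := Real.one_le_exp (abs_nonneg B)
  have hx := P.hx
  push_cast
  calc (2 : ℝ) ^ (j + 1) = 2 * 2 ^ j := by ring
    _ ≤ 2 * (Real.exp B * x + 1) := by gcongr
    _ ≤ 2 * (Real.exp |B| * x + Real.exp |B| * x) := by
        have h5 : Real.exp B * x ≤ Real.exp |B| * x := by gcongr
        have h6 : 1 ≤ Real.exp |B| * x := by nlinarith
        linarith
    _ = _ := by ring

theorem Pa.L_le (P : Pa B x M J U) (j : ℕ) :
    ((⌊Real.exp B * x / 2 ^ j⌋₊ : ℕ) : ℝ) ≤ Real.exp B * x / 2 ^ j := by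
  have hx := P.hx
  exact Nat.floor_le (by positivity)

theorem Pa.L_le' (P : Pa B x M J U) (j : ℕ) :
    ((⌊Real.exp B * x / 2 ^ j⌋₊ : ℕ) : ℝ) ≤ Real.exp |B| * x := by
  have hx := P.hx
  refine (P.L_le j).trans ?_
  have h3 : Real.exp B ≤ Real.exp |B| := Real.exp_le_exp.2 (le_abs_self B)
  calc Real.exp B * x / 2 ^ j ≤ Real.exp B * x / 1 := by
        have : (1 : ℝ) ≤ 2 ^ j := one_le_pow₀ (by norm_num)
        gcongr
    _ ≤ Real.exp |B| * x := by rw [div_one]; gcongr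

theorem Pa.KL (P : Pa B x M J U) (j : ℕ) :
    ((2 ^ (j + 1) : ℕ) : ℝ) * (⌊Real.exp B * x / 2 ^ j⌋₊ : ℕ) ≤ 2 * Real.exp |B| * x := by
  have hx := P.hx
  have h1 := P.L_le j
  have h3 : Real.exp B ≤ Real.exp |B| := Real.exp_le_exp.2 (le_abs_self B)
  push_cast
  calc (2 : ℝ) ^ (j + 1) * (⌊Real.exp B * x / 2 ^ j⌋₊ : ℕ)
      ≤ (2 : ℝ) ^ (j + 1) * (Real.exp B * x / 2 ^ j) := by gcongr
    _ = 2 * Real.exp B * x := by
        rw [pow_succ]
        field_simp
    _ ≤ _ := by gcongr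

theorem Pa.logK (P : Pa B x M J U) {j : ℕ} (hj : j < J) :
    1 + Real.log ((2 ^ (j + 1) : ℕ) : ℝ) ≤ (|B| + 3) * (1 + Real.log x) := by
  have hx := P.hx
  have hlx : 0 ≤ Real.log x := Real.log_nonneg hx
  have hB := abs_nonneg B
  have h1 := P.K_le hj
  have h2 : Real.log ((2 ^ (j + 1) : ℕ) : ℝ) ≤ Real.log (4 * Real.exp |B| * x) :=
    Real.log_le_log (by positivity) h1
  rw [Real.log_mul (by positivity) (by positivity), Real.log_mul (by norm_num)
    (Real.exp_pos _).ne', Real.log_exp] at h2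
  have h3 : Real.log 4 = 2 * Real.log 2 := by
    rw [show (4 : ℝ) = 2 ^ 2 by norm_num, Real.log_pow]; norm_num
  rw [h3] at h2
  have h5 := Real.log_two_lt_d9
  nlinarith

theorem Pa.logL (P : Pa B x M J U) (j : ℕ) :
    1 + Real.log (⌊Real.exp B * x / 2 ^ j⌋₊ : ℕ) ≤ (|B| + 3) * (1 + Real.log x) := by
  have hx := P.hx
  have hlx : 0 ≤ Real.log x := Real.log_nonneg hx
  have hB := abs_nonneg B
  rcases Nat.eq_zero_or_pos ⌊Real.exp B * x / 2 ^ j⌋₊ with h0 | h0
  · rw [h0]; simp only [Nat.cast_zero, Real.log_zero]; nlinarith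
  · have h1 := P.L_le' j
    have h2 : Real.log (⌊Real.exp B * x / 2 ^ j⌋₊ : ℕ) ≤ Real.log (Real.exp |B| * x) :=
      Real.log_le_log (by exact_mod_cast h0) h1
    rw [Real.log_mul (Real.exp_pos _).ne' (by positivity), Real.log_exp] at h2
    nlinarith

theorem Pa.J_le (P : Pa B x M J U) : (J : ℝ) ≤ 2 * (|B| + 3) * (1 + Real.log x) := by
  have hx := P.hx
  have hlx : 0 ≤ Real.log x := Real.log_nonneg hx
  have hB := abs_nonneg B
  rcases Nat.eq_zero_or_pos J with h0 | h0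
  · rw [h0]; simp only [Nat.cast_zero]; positivity
  · have h1 := P.logK (j := J - 1) (by omega)
    have h2 : J - 1 + 1 = J := by omega
    rw [h2] at h1
    push_cast at h1
    rw [Real.log_pow] at h1
    have h4 := Real.log_two_gt_d9
    have hJ : (0 : ℝ) ≤ J := Nat.cast_nonneg J
    nlinarith

theorem Pa.cut (P : Pa B x M J U) {f : ℝ → ℝ} (hf : Test B f) {n : ℕ} (hn : 1 ≤ n)
    (hnU : n ≤ U) : f (Real.log (n / x)) = 0 := by
  have hx := P.hx
  have hn' : (0 : ℝ) < n := by exact_mod_cast hn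
  have hnU' : (n : ℝ) ≤ U := by exact_mod_cast hnU
  have h1 : Real.exp |B| * n ≤ x := le_trans (by gcongr) P.hcut
  have h3 : n / x ≤ Real.exp (-|B|) := by
    rw [div_le_iff₀ (by linarith), Real.exp_neg, ← div_eq_inv_mul, le_div_iff₀ (Real.exp_pos _)]
    linarith
  have h4 : Real.log (n / x) ≤ -|B| := by
    rw [← Real.log_exp (-|B|)]
    exact Real.log_le_log (by positivity) h3
  apply hf.supp
  have h5 : |B| ≤ |Real.log (n / x)| := by
    rw [le_abs]; right; linarith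
  exact (le_abs_self B).trans h5

/-- Vaughan's identity -/
theorem Pa.split (P : Pa B x M J U) {f : ℝ → ℝ} (hf : Test B f) {q m : ℕ}
    (χ : DirichletCharacter ℂ q) :
    PSm f x M m χ = TT f x M m (fun n => (betaV U n : ℂ)) (LU U) χ +
      TT f x M m (fun n => ((mu1 U n : ℝ) : ℂ)) (fun n => (((Real.log n) ^ 1 : ℝ) : ℂ)) χ -
      TT f x M m (fun n => (((mu1 U * l1 U) n : ℝ) : ℂ)) (fun n => (((Real.log n) ^ 0 : ℝ) : ℂ)) χ := by
  unfold PSm TT
  rw [← sum_add_distrib, ← sum_sub_distrib]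
  apply sum_congr rfl
  intro n hn
  rw [mem_filter, mem_Icc] at hn
  have hn1 := hn.1.1
  have hv := vaughan U U n
  have e1 : (∑ i ∈ n.divisorsAntidiagonal, (betaV U i.1 : ℂ) * LU U i.2) = ((LamII U U n : ℝ) : ℂ) := by
    unfold LamII LU
    push_cast
    rfl
  have e2 : (∑ i ∈ n.divisorsAntidiagonal, ((mu1 U i.1 : ℝ) : ℂ) * (((Real.log i.2) ^ 1 : ℝ) : ℂ)) =
      (((ArithmeticFunction.log * mu1 U) n : ℝ) : ℂ) := by
    rw [mul_comm, ArithmeticFunction.mul_apply]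
    push_cast
    apply sum_congr rfl
    intro i _
    rw [ArithmeticFunction.log_apply, pow_one]
    rw [Complex.natCast_log]
  have e3 : (∑ i ∈ n.divisorsAntidiagonal, (((mu1 U * l1 U) i.1 : ℝ) : ℂ) *
      (((Real.log i.2) ^ 0 : ℝ) : ℂ)) =
      (((((ArithmeticFunction.zeta : ArithmeticFunction ℕ) : ArithmeticFunction ℝ) *
        (mu1 U * l1 U)) n : ℝ) : ℂ) := by
    rw [mul_comm ((ArithmeticFunction.zeta : ArithmeticFunction ℕ) : ArithmeticFunction ℝ),
      ArithmeticFunction.mul_apply]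
    push_cast
    apply sum_congr rfl
    intro i hi
    have h1 := Nat.mem_divisorsAntidiagonal.1 hi
    have h2 : i.2 ≠ 0 := by
      intro h
      rw [h, mul_zero] at h1
      exact h1.2 h1.1.symm
    rw [ArithmeticFunction.natCoe_apply, ArithmeticFunction.zeta_apply_ne h2]
    simp
  rw [e1, e2, e3]
  by_cases hU : n ≤ U
  · rw [P.cut hf hn1 hU]
    simp
  · have h3 : l1 U n = 0 := by rw [l1_apply, if_neg hU]
    rw [h3, zero_add] at hv
    have h4 : ArithmeticFunction.vonMangoldt n = LamII U U n + (ArithmeticFunction.log * mu1 U) n -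
      (((ArithmeticFunction.zeta : ArithmeticFunction ℕ) : ArithmeticFunction ℝ) *
        (mu1 U * l1 U)) n := by linarith
    rw [h4]
    push_cast
    ring

end

theorem PP_triv (α : ℕ → ℂ) (K W j m : ℕ) (η : ℝ) (hW : ∀ n, W < n → α n = 0)
    (hα : ∀ n, 1 ≤ n → ‖α n‖ ≤ 1 + Real.log n) (χ : DirichletCharacter ℂ m) :
    ‖PP (dy j α) 1 K η χ‖ ≤ W * (1 + Real.log W) := by
  unfold PP
  calc ‖∑ k ∈ Icc 1 K, tw (dy j α) 1 η k * χ (k : ZMod m)‖
      ≤ ∑ k ∈ Icc 1 K, (if k ≤ W then 1 + Real.log W else 0) := by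
        refine (norm_sum_le _ _).trans (sum_le_sum fun k hk => ?_)
        rw [mem_Icc] at hk
        rw [norm_mul]
        have h1 : ‖tw (dy j α) 1 η k‖ * ‖χ (k : ZMod m)‖ ≤ ‖α k‖ * 1 :=
          mul_le_mul ((tw_norm _ _ _ _).trans (dy_norm _ _ _)) (χ.norm_le_one _) (norm_nonneg _)
            (norm_nonneg _)
        refine h1.trans ?_
        rw [mul_one]
        split_ifs with h
        · refine (hα k hk.1).trans ?_
          have : Real.log k ≤ Real.log W :=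
            Real.log_le_log (by exact_mod_cast hk.1) (by exact_mod_cast h)
          linarith
        · rw [hW k (not_le.1 h)]; simp
    _ = ((Icc 1 K).filter (fun k => k ≤ W)).card * (1 + Real.log W) := by
        rw [← sum_filter, sum_const, nsmul_eq_mul]
    _ ≤ W * (1 + Real.log W) := by
        have h0 : 0 ≤ 1 + Real.log W := by
          have := Real.log_natCast_nonneg W
          linarith
        apply mul_le_mul_of_nonneg_right _ h0
        have : ((Icc 1 K).filter (fun k => k ≤ W)).card ≤ (Icc 1 W).card := by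
          apply card_le_card
          intro k hk
          rw [mem_filter, mem_Icc] at hk
          rw [mem_Icc]
          exact ⟨hk.1.1, hk.2⟩
        rw [Nat.card_Icc] at this
        exact_mod_cast this

/-- sums of type I -/
theorem tI {G : ℝ → ℂ} (hGc : Continuous G) (hGi : Integrable (fun ξ => (1 + |ξ|) * ‖G ξ‖))
    {f : ℝ → ℝ} (hfG : ∀ v : ℝ, (f v : ℂ) = ∫ ξ, G ξ * ex (ξ * v)) {B : ℝ} (hf : Test B f) :
    ∃ C : ℝ, 0 < C ∧ ∀ (x : ℝ) (M J U : ℕ), Pa B x M J U → ∀ (i W : ℕ) (α : ℕ → ℂ), i ≤ 1 →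
      (∀ n, W < n → α n = 0) → (∀ n, 1 ≤ n → ‖α n‖ ≤ 1 + Real.log n) → (W : ℝ) ≤ x →
      ∀ D m : ℕ, m ∈ osf D → 1 < m → (m : ℝ) ≤ 2 * x →
      ‖TT f x M 1 α (fun n => (((Real.log n) ^ i : ℝ) : ℂ)) (ch m)‖ ≤
        C * W * (1 + Real.log x) ^ 5 * (m.divisors.card * Real.sqrt m) := by
  set I : ℝ := ∫ η, (1 + |η|) * ‖G η‖ with hI
  have hI0 : 0 ≤ I := integral_nonneg fun η => by positivity
  refine ⟨112 * (|B| + 3) ^ 3 * (I + 1), by positivity, ?_⟩
  intro x M J U P i W α hi hW hα hWx D m hm hm1 hmx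
  have hx := P.hx
  have hx0 : 0 < x := by linarith
  have hlx : 0 ≤ Real.log x := Real.log_nonneg hx
  have hB := abs_nonneg B
  have hmR : (1 : ℝ) ≤ m := by exact_mod_cast hm1.le
  have hlm : Real.log m ≤ Real.log 2 + Real.log x := by
    rw [← Real.log_mul (by norm_num) (by positivity)]
    exact Real.log_le_log (by linarith) hmx
  have hlm0 : 0 ≤ Real.log m := Real.log_nonneg hmR
  have hl2 := Real.log_two_lt_d9
  set ℓ : ℝ := 1 + Real.log x with hℓ
  have hℓ1 : 1 ≤ ℓ := by rw [hℓ]; linarith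
  have hlW : 1 + Real.log W ≤ ℓ := by
    rcases Nat.eq_zero_or_pos W with h0 | h0
    · rw [h0]; simp; exact hℓ1
    · have : Real.log W ≤ Real.log x := Real.log_le_log (by exact_mod_cast h0) hWx
      rw [hℓ]; linarith
  have hlW0 : 0 ≤ 1 + Real.log W := by
    have := Real.log_natCast_nonneg W
    linarith
  have hKb : ∀ j ∈ range J, ∀ η : ℝ,
      ∑ m' ∈ ({m} : Finset ℕ), ‖PP (dy j α) 1 (2 ^ (j + 1)) η (ch m')‖ *
        ‖PP (fun n => (((Real.log n) ^ i : ℝ) : ℂ)) 1 ⌊Real.exp B * x / 2 ^ j⌋₊ η (ch m')‖ ≤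
        (56 * (|B| + 3) ^ 2 * W * ℓ ^ 4 * (m.divisors.card * Real.sqrt m)) * (1 + |η|) := by
    intro j hj η
    rw [mem_range] at hj
    rw [sum_singleton]
    have h1 := PP_triv α (2 ^ (j + 1)) W j m η hW hα (ch m)
    have h2 := pvj i hi η ⌊Real.exp B * x / 2 ^ j⌋₊ hm hm1
    have h3 := P.logL j
    rw [← hℓ] at h3
    have h4 : 0 ≤ Real.log (⌊Real.exp B * x / 2 ^ j⌋₊ : ℕ) := Real.log_natCast_nonneg _
    have h5 : 1 + Real.log m ≤ 2 * ℓ := by rw [hℓ]; linarith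
    have hη := abs_nonneg η
    calc ‖PP (dy j α) 1 (2 ^ (j + 1)) η (ch m)‖ *
        ‖PP (fun n => (((Real.log n) ^ i : ℝ) : ℂ)) 1 ⌊Real.exp B * x / 2 ^ j⌋₊ η (ch m)‖
        ≤ (W * (1 + Real.log W)) * (2 * (7 * (1 + |η|) *
          (1 + Real.log (⌊Real.exp B * x / 2 ^ j⌋₊ : ℕ)) ^ 2) *
          (m.divisors.card * (2 * Real.sqrt m * (1 + Real.log m)))) :=
          mul_le_mul h1 h2 (norm_nonneg _) (by positivity)
      _ ≤ (W * ℓ) * (2 * (7 * (1 + |η|) * ((|B| + 3) * ℓ) ^ 2) *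
          (m.divisors.card * (2 * Real.sqrt m * (2 * ℓ)))) := by gcongr
      _ = _ := by ring
  have h := tts hGc hGi hfG hf x hx0 M J P.hM P.hJ α
    (fun n => (((Real.log n) ^ i : ℝ) : ℂ)) {m} _ hKb
  rw [sum_singleton] at h
  refine h.trans ?_
  rw [← hI]
  have hJ := P.J_le
  rw [← hℓ] at hJ
  calc (J : ℝ) * ((56 * (|B| + 3) ^ 2 * W * ℓ ^ 4 * (m.divisors.card * Real.sqrt m)) * I)
      ≤ (2 * (|B| + 3) * ℓ) * ((56 * (|B| + 3) ^ 2 * W * ℓ ^ 4 *
        (m.divisors.card * Real.sqrt m)) * (I + 1)) := by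
        gcongr
        linarith
    _ = _ := by ring

end

end Pool.Agent.N782.Q
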