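import Pool.Agent.N782.QD

set_option autoImplicit false

/-! Sums over primes against Jacobi symbols, one block of moduli (helper782). -/

namespace Pool.Agent.N782.Q

open Finset Filter Topology MeasureTheory
open Pool.Agent.H306R2.RZ (js osf sqf)
open H343 H343.KF
open Pool.Agent.Helper112 (betaV LamII divisor_bound)
open Pool.Agent.Helper112.TI (mu1 l1 mu1_apply l1_apply vaughan)
open Pool.Agent.H355R3.RZ4HE (mem_osf)

noncomputable section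

theorem large2 (u : ℝ) (hu : 0 < u) (K : ℝ) : ∃ x0 : ℝ, 1 ≤ x0 ∧ ∀ x : ℝ, x0 ≤ x →
    (1 + Real.log x) ^ 5 ≤ x ^ u ∧ K ≤ x ^ u := by
  obtain ⟨H0, h0, h1⟩ := large 1 u 5 hu
  obtain ⟨H1, h2, h3⟩ := large K u 0 hu
  refine ⟨max H0 H1, h0.trans (le_max_left _ _), fun x hx => ⟨?_, ?_⟩⟩
  · have := h1 x ((le_max_left _ _).trans hx)
    linarith
  · have := h3 x ((le_max_right _ _).trans hx)
    rw [pow_zero, mul_one] at this
    exact this

/-- the sum of type I over the moduli -/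
theorem tIsum {G : ℝ → ℂ} (hGc : Continuous G) (hGi : Integrable (fun ξ => (1 + |ξ|) * ‖G ξ‖))
    {f : ℝ → ℝ} (hfG : ∀ v : ℝ, (f v : ℂ) = ∫ ξ, G ξ * ex (ξ * v)) {B : ℝ} (hf : Test B f)
    (ε : ℝ) (hε : 0 < ε) :
    ∃ C : ℝ, 0 < C ∧ ∀ (x : ℝ) (M J U : ℕ), Pa B x M J U → (U : ℝ) * U ≤ x →
      ∀ N : ℕ, 1 ≤ N → (N : ℝ) ≤ 2 * x →
      ∑ m ∈ (osf N).filter (fun m => 1 < m),
        (‖TT f x M 1 (fun n => ((mu1 U n : ℝ) : ℂ)) (fun n => (((Real.log n) ^ 1 : ℝ) : ℂ)) (ch m)‖ +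
        ‖TT f x M 1 (fun n => (((mu1 U * l1 U) n : ℝ) : ℂ))
          (fun n => (((Real.log n) ^ 0 : ℝ) : ℂ)) (ch m)‖) ≤
        C * (U : ℝ) ^ 2 * (1 + Real.log x) ^ 5 * ((N : ℝ) ^ ε * (Real.sqrt N * N)) := by
  obtain ⟨C1, hC1, hdiv⟩ := divisor_bound ε hε
  obtain ⟨C, hC, h⟩ := tI hGc hGi hfG hf
  refine ⟨2 * C * C1, by positivity, ?_⟩
  intro x M J U P hUx N hN hNx
  have hx := P.hx
  have hx0 : 0 < x := by linarith
  have hU1 : (1 : ℝ) ≤ U := by exact_mod_cast P.hU1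
  set ℓ : ℝ := 1 + Real.log x with hℓ
  have hℓ1 : 1 ≤ ℓ := P.one_le
  have hN1 : (1 : ℝ) ≤ N := by exact_mod_cast hN
  have hb : ∀ m ∈ (osf N).filter (fun m => 1 < m),
      (‖TT f x M 1 (fun n => ((mu1 U n : ℝ) : ℂ)) (fun n => (((Real.log n) ^ 1 : ℝ) : ℂ)) (ch m)‖ +
        ‖TT f x M 1 (fun n => (((mu1 U * l1 U) n : ℝ) : ℂ))
          (fun n => (((Real.log n) ^ 0 : ℝ) : ℂ)) (ch m)‖) ≤
      2 * C * (U : ℝ) ^ 2 * ℓ ^ 5 * ((C1 * (N : ℝ) ^ ε) * Real.sqrt N) := by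
    intro m hm
    rw [mem_filter] at hm
    obtain ⟨hm1, hm2⟩ := hm
    obtain ⟨a1, a2, a3, a4⟩ := mem_osf hm1
    have hmN : (m : ℝ) ≤ N := by exact_mod_cast a2
    have hmx : (m : ℝ) ≤ 2 * x := hmN.trans hNx
    have h1 := h x M J U P 1 U (fun n => ((mu1 U n : ℝ) : ℂ)) le_rfl (fun n hn => by
      beta_reduce
      rw [mu1_apply, if_neg (by omega)]; simp) (fun n hn => by
      have h3 := mu1_norm U n
      have h4 : 0 ≤ Real.log n := Real.log_natCast_nonneg n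
      linarith) (by nlinarith) N m hm1 hm2 hmx
    have h2 := h x M J U P 0 (U * U) (fun n => (((mu1 U * l1 U) n : ℝ) : ℂ)) (by norm_num)
      (fun n hn => by
      beta_reduce
      rw [mul1_zero U n hn]; simp) (fun n hn => by
      have h3 := mul1_norm U U n
      linarith) (by push_cast; exact hUx) N m hm1 hm2 hmx
    have hd : (m.divisors.card : ℝ) ≤ C1 * (N : ℝ) ^ ε := by
      refine (hdiv m a1).trans ?_
      gcongr
    have hs : Real.sqrt m ≤ Real.sqrt N := Real.sqrt_le_sqrt hmN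
    have hUU : (U : ℝ) ≤ (U : ℝ) ^ 2 := by nlinarith
    calc _ ≤ C * U * ℓ ^ 5 * (m.divisors.card * Real.sqrt m) +
          C * ((U * U : ℕ) : ℝ) * ℓ ^ 5 * (m.divisors.card * Real.sqrt m) := add_le_add h1 h2
      _ ≤ C * (U : ℝ) ^ 2 * ℓ ^ 5 * ((C1 * (N : ℝ) ^ ε) * Real.sqrt N) +
          C * (U : ℝ) ^ 2 * ℓ ^ 5 * ((C1 * (N : ℝ) ^ ε) * Real.sqrt N) := by
          push_cast
          rw [← pow_two]
          gcongr
      _ = _ := by ring
  refine (sum_le_sum hb).trans ?_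
  rw [sum_const, nsmul_eq_mul]
  have hc : (((osf N).filter (fun m => 1 < m)).card : ℝ) ≤ N := by
    have : ((osf N).filter (fun m => 1 < m)).card ≤ N := by
      refine (card_filter_le _ _).trans ?_
      unfold osf
      refine (card_filter_le _ _).trans ?_
      simp
    exact_mod_cast this
  calc (((osf N).filter (fun m => 1 < m)).card : ℝ) *
        (2 * C * (U : ℝ) ^ 2 * ℓ ^ 5 * ((C1 * (N : ℝ) ^ ε) * Real.sqrt N))
      ≤ N * (2 * C * (U : ℝ) ^ 2 * ℓ ^ 5 * ((C1 * (N : ℝ) ^ ε) * Real.sqrt N)) := by gcongr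
    _ = _ := by ring

/-- existence of the parameters -/
theorem pa_exists (B u : ℝ) (hu : 0 < u) (hu1 : u ≤ 1 / 8) : ∃ x0 : ℝ, 1 ≤ x0 ∧ ∀ x : ℝ, x0 ≤ x →
    ∀ M : ℕ, Real.exp B * x ≤ M → ∃ J U : ℕ, Pa B x M J U ∧ x ^ u ≤ U ∧ (U : ℝ) ≤ 2 * x ^ u ∧
      (U : ℝ) * U ≤ x := by
  obtain ⟨x0, h0, h1⟩ := large2 (1 / 4) (by norm_num) (4 + 2 * Real.exp |B|)
  refine ⟨x0, h0, ?_⟩
  intro x hx M hM
  obtain ⟨-, h2⟩ := h1 x hx
  have hx1 : 1 ≤ x := h0.trans hx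
  have hx0 : 0 < x := by linarith
  have hxu1 : 1 ≤ x ^ u := Real.one_le_rpow hx1 hu.le
  have hxu : x ^ u ≤ x ^ (1 / 8 : ℝ) := Real.rpow_le_rpow_of_exponent_le hx1 hu1
  have hU1 : x ^ u ≤ (⌈x ^ u⌉₊ : ℕ) := Nat.le_ceil _
  have hU2 : ((⌈x ^ u⌉₊ : ℕ) : ℝ) ≤ 2 * x ^ u := by
    have := Nat.ceil_lt_add_one (a := x ^ u) (by positivity)
    linarith
  have hE := Real.exp_pos |B|
  have e1 : x ^ (1 / 8 : ℝ) * x ^ (1 / 8 : ℝ) = x ^ (1 / 4 : ℝ) := by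
    rw [← Real.rpow_add hx0]; norm_num
  have e2 : x ^ (1 / 4 : ℝ) * x ^ (1 / 4 : ℝ) ≤ x := by
    rw [← Real.rpow_add hx0]
    calc x ^ (1 / 4 + 1 / 4 : ℝ) ≤ x ^ (1 : ℝ) :=
          Real.rpow_le_rpow_of_exponent_le hx1 (by norm_num)
      _ = x := Real.rpow_one x
  have e3 : x ^ (1 / 8 : ℝ) ≤ x ^ (1 / 4 : ℝ) :=
    Real.rpow_le_rpow_of_exponent_le hx1 (by norm_num)
  have h4 : 0 < x ^ (1 / 4 : ℝ) := by positivity
  refine ⟨Nat.clog 2 ⌈Real.exp B * x⌉₊, ⌈x ^ u⌉₊, ?_, hU1, hU2, ?_⟩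
  · exact {
      hx := hx1
      hM := hM
      hJ := by
        refine (Nat.le_ceil _).trans ?_
        exact_mod_cast Nat.le_pow_clog (by norm_num) _
      hJ' := by
        intro j hj
        have h6 : 2 ^ j < ⌈Real.exp B * x⌉₊ := (Nat.lt_clog_iff_pow_lt (by norm_num)).1 hj
        have h7 : ((2 ^ j : ℕ) : ℝ) < (⌈Real.exp B * x⌉₊ : ℕ) := by exact_mod_cast h6
        have h8 := Nat.ceil_lt_add_one (a := Real.exp B * x) (by positivity)
        push_cast at h7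
        linarith
      hU1 := by
        have h7 : (1 : ℝ) ≤ (⌈x ^ u⌉₊ : ℕ) := hxu1.trans hU1
        exact_mod_cast h7
      hcut := by
        calc Real.exp |B| * (⌈x ^ u⌉₊ : ℕ) ≤ Real.exp |B| * (2 * x ^ (1 / 4 : ℝ)) := by
              gcongr
              linarith
          _ = (2 * Real.exp |B|) * x ^ (1 / 4 : ℝ) := by ring
          _ ≤ x ^ (1 / 4 : ℝ) * x ^ (1 / 4 : ℝ) := by
              gcongr
              linarith
          _ ≤ x := e2 }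
  · calc ((⌈x ^ u⌉₊ : ℕ) : ℝ) * (⌈x ^ u⌉₊ : ℕ) ≤ (2 * x ^ (1 / 8 : ℝ)) * (2 * x ^ (1 / 8 : ℝ)) := by
          have : ((⌈x ^ u⌉₊ : ℕ) : ℝ) ≤ 2 * x ^ (1 / 8 : ℝ) := by linarith
          gcongr
      _ = 4 * (x ^ (1 / 8 : ℝ) * x ^ (1 / 8 : ℝ)) := by ring
      _ = 4 * x ^ (1 / 4 : ℝ) := by rw [e1]
      _ ≤ x ^ (1 / 4 : ℝ) * x ^ (1 / 4 : ℝ) := by
          gcongr
          linarith
      _ ≤ x := e2

/-- one block -/
theorem blk {f : ℝ → ℝ} {B : ℝ} (hf : Test B f) (σ : ℝ) (hσ0 : 0 < σ) (hσ : σ < 1) :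
    ∃ C x0 : ℝ, 0 < C ∧ 1 ≤ x0 ∧ ∀ x : ℝ, x0 ≤ x → ∀ M : ℕ, Real.exp B * x ≤ M →
      ∀ N : ℕ, 1 ≤ N → (N : ℝ) ≤ 2 * x ^ σ →
      ∑ m ∈ (osf N).filter (fun m => 1 < m), ‖PSm f x M 1 (ch m)‖ ≤
        C * (x * (1 + Real.log x) ^ 5 + Real.sqrt N * x / x ^ ((1 - σ) / 80)) := by
  obtain ⟨G, hGc, hGi, hfG⟩ := separation hf
  set u : ℝ := (1 - σ) / 8 with hu
  have hu0 : 0 < u := by rw [hu]; linarith
  have hu1 : u ≤ 1 / 8 := by rw [hu]; linarith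
  set ε : ℝ := u / 60 with hε
  have hε0 : 0 < ε := by rw [hε]; linarith
  have hε1 : ε ≤ 1 := by rw [hε]; linarith
  obtain ⟨C1, hC1, hI⟩ := tIsum hGc hGi hfG hf ε hε0
  obtain ⟨C2, hC2, hs⟩ := tIIs hGc hGi hfG hf
  obtain ⟨C3, hC3, hl⟩ := tIIl hGc hGi hfG hf ε hε0
  obtain ⟨x1, hx1, hpa⟩ := pa_exists B u hu0 hu1
  obtain ⟨x2, hx2, hlg⟩ := large2 ε hε0 1
  refine ⟨(8 * C1 + C2) + (2 * C3 + 32 * C1), max x1 x2, by positivity,
    hx1.trans (le_max_left _ _), ?_⟩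
  intro x hx M hM N hN hNx
  have hx1' : x1 ≤ x := (le_max_left _ _).trans hx
  have hx2' : x2 ≤ x := (le_max_right _ _).trans hx
  obtain ⟨J, U, P, hU1, hU2, hUU⟩ := hpa x hx1' M hM
  obtain ⟨hl5, -⟩ := hlg x hx2'
  have hxx : 1 ≤ x := hx1.trans hx1'
  have hx0 : 0 < x := by linarith
  set ℓ : ℝ := 1 + Real.log x with hℓ
  have hℓ1 : 1 ≤ ℓ := P.one_le
  set e : ℝ := x ^ ε with he
  have he1 : 1 ≤ e := Real.one_le_rpow hxx hε0.le
  have he0 : 0 < e := by linarith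
  have epow : ∀ k : ℕ, e ^ k = x ^ (ε * k) := by
    intro k
    rw [he, ← Real.rpow_natCast, ← Real.rpow_mul hx0.le]
  have hxu : x ^ u = e ^ 60 := by
    rw [epow]; congr 1; rw [hε]; push_cast; ring
  have hxσ : x ^ σ = x / e ^ 480 := by
    rw [epow, eq_div_iff (by positivity), ← Real.rpow_add hx0]
    conv_rhs => rw [← Real.rpow_one x]
    congr 1
    rw [hε, hu]; push_cast; ring
  have hx80 : x ^ ((1 - σ) / 80) = e ^ 6 := by
    rw [epow]; congr 1; rw [hε, hu]; push_cast; ring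
  have hx3u : (e ^ 60) ^ 3 ≤ x := by
    rw [← pow_mul, epow]
    calc x ^ (ε * ((60 * 3 : ℕ) : ℝ)) ≤ x ^ (1 : ℝ) := by
          apply Real.rpow_le_rpow_of_exponent_le hxx
          rw [hε]; push_cast; linarith
      _ = x := Real.rpow_one x
  rw [hxu] at hU1 hU2
  rw [hxσ] at hNx
  rw [hx80]
  have hN1 : (1 : ℝ) ≤ N := by exact_mod_cast hN
  have hN0 : (0 : ℝ) < N := by linarith
  have hNx2 : (N : ℝ) ≤ 2 * x := by
    refine hNx.trans ?_
    have : x / e ^ 480 ≤ x := div_le_self hx0.le (one_le_pow₀ he1)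
    linarith
  have hU0 : (0 : ℝ) < U := by exact_mod_cast P.hU1
  -- the sum
  have hsum : ∑ m ∈ (osf N).filter (fun m => 1 < m), ‖PSm f x M 1 (ch m)‖ ≤
      ∑ m ∈ osf N, ‖TT f x M 1 (fun n => (betaV U n : ℂ)) (LU U) (ch m)‖ +
      C1 * (U : ℝ) ^ 2 * ℓ ^ 5 * ((N : ℝ) ^ ε * (Real.sqrt N * N)) := by
    calc ∑ m ∈ (osf N).filter (fun m => 1 < m), ‖PSm f x M 1 (ch m)‖
        ≤ ∑ m ∈ (osf N).filter (fun m => 1 < m),
          (‖TT f x M 1 (fun n => (betaV U n : ℂ)) (LU U) (ch m)‖ +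
          (‖TT f x M 1 (fun n => ((mu1 U n : ℝ) : ℂ)) (fun n => (((Real.log n) ^ 1 : ℝ) : ℂ)) (ch m)‖ +
          ‖TT f x M 1 (fun n => (((mu1 U * l1 U) n : ℝ) : ℂ))
            (fun n => (((Real.log n) ^ 0 : ℝ) : ℂ)) (ch m)‖)) := by
          refine sum_le_sum fun m _ => ?_
          rw [P.split hf (ch m)]
          refine (norm_sub_le _ _).trans ?_
          have := norm_add_le (TT f x M 1 (fun n => (betaV U n : ℂ)) (LU U) (ch m))
            (TT f x M 1 (fun n => ((mu1 U n : ℝ) : ℂ)) (fun n => (((Real.log n) ^ 1 : ℝ) : ℂ)) (ch m))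
          linarith
      _ = ∑ m ∈ (osf N).filter (fun m => 1 < m),
          ‖TT f x M 1 (fun n => (betaV U n : ℂ)) (LU U) (ch m)‖ +
          ∑ m ∈ (osf N).filter (fun m => 1 < m),
          (‖TT f x M 1 (fun n => ((mu1 U n : ℝ) : ℂ)) (fun n => (((Real.log n) ^ 1 : ℝ) : ℂ)) (ch m)‖ +
          ‖TT f x M 1 (fun n => (((mu1 U * l1 U) n : ℝ) : ℂ))
            (fun n => (((Real.log n) ^ 0 : ℝ) : ℂ)) (ch m)‖) := sum_add_distrib
      _ ≤ _ := by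
          apply add_le_add _ (hI x M J U P hUU N hN hNx2)
          exact sum_le_sum_of_subset_of_nonneg (filter_subset _ _) (fun _ _ _ => norm_nonneg _)
  refine hsum.trans ?_
  have hA0 : 0 ≤ x * ℓ ^ 5 := by positivity
  have hB0 : 0 ≤ Real.sqrt N * x / e ^ 6 := by positivity
  by_cases hc : (N : ℝ) ^ 3 ≤ U
  · have h1 := hs x M J U P N hN hc
    have h2 : C2 * x * ℓ ^ 4 ≤ C2 * (x * ℓ ^ 5) := by
      have : ℓ ^ 4 ≤ ℓ ^ 5 := pow_le_pow_right₀ hℓ1 (by norm_num)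
      calc C2 * x * ℓ ^ 4 = C2 * (x * ℓ ^ 4) := by ring
        _ ≤ _ := by gcongr
    have h3 : (N : ℝ) ^ ε * (Real.sqrt N * N) ≤ U := by
      refine le_trans ?_ hc
      have e1 : (N : ℝ) ^ ε ≤ N := by
        calc (N : ℝ) ^ ε ≤ (N : ℝ) ^ (1 : ℝ) := Real.rpow_le_rpow_of_exponent_le hN1 hε1
          _ = N := Real.rpow_one _
      have e2 : Real.sqrt N ≤ N := by
        rw [Real.sqrt_le_left (by linarith)]
        nlinarith
      calc (N : ℝ) ^ ε * (Real.sqrt N * N) ≤ N * (N * N) := by gcongr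
        _ = _ := by ring
    have h4 : C1 * (U : ℝ) ^ 2 * ℓ ^ 5 * ((N : ℝ) ^ ε * (Real.sqrt N * N)) ≤
        8 * C1 * (x * ℓ ^ 5) := by
      calc C1 * (U : ℝ) ^ 2 * ℓ ^ 5 * ((N : ℝ) ^ ε * (Real.sqrt N * N))
          ≤ C1 * (U : ℝ) ^ 2 * ℓ ^ 5 * U := by gcongr
        _ = C1 * (U : ℝ) ^ 3 * ℓ ^ 5 := by ring
        _ ≤ C1 * (2 * e ^ 60) ^ 3 * ℓ ^ 5 := by gcongr
        _ = 8 * C1 * ((e ^ 60) ^ 3 * ℓ ^ 5) := by ring
        _ ≤ 8 * C1 * (x * ℓ ^ 5) := by gcongr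
    have h5 : 0 ≤ (2 * C3 + 32 * C1) * (x * ℓ ^ 5) := by positivity
    have h6 : 0 ≤ ((8 * C1 + C2) + (2 * C3 + 32 * C1)) * (Real.sqrt N * x / e ^ 6) := by positivity
    linarith
  · push Not at hc
    have h1 := hl x M J U P N hN hNx2
    have hNe : e ^ 20 ≤ N := by
      have : (e ^ 20) ^ 3 ≤ (N : ℝ) ^ 3 := by
        rw [← pow_mul]
        exact hU1.trans hc.le
      exact le_of_pow_le_pow_left₀ (by norm_num) hN0.le this
    have hsq : Real.sqrt (x * (x + N * x / U + (N : ℝ) ^ 2)) ≤ 2 * (Real.sqrt N * x) / e ^ 10 := by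
      have e1 : x ≤ N * x / e ^ 20 := by
        rw [le_div_iff₀ (by positivity)]
        rw [mul_comm]
        gcongr
      have e2 : N * x / U ≤ N * x / e ^ 20 := by
        apply div_le_div_of_nonneg_left (by positivity) (by positivity)
        exact (pow_le_pow_right₀ he1 (by norm_num)).trans hU1
      have e3 : (N : ℝ) ^ 2 ≤ 2 * (N * x / e ^ 20) := by
        calc (N : ℝ) ^ 2 = N * N := by ring
          _ ≤ N * (2 * (x / e ^ 480)) := by gcongr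
          _ ≤ N * (2 * (x / e ^ 20)) := by
              have : e ^ 20 ≤ e ^ 480 := pow_le_pow_right₀ he1 (by norm_num)
              gcongr
          _ = _ := by ring
      have e4 : x * (x + N * x / U + (N : ℝ) ^ 2) ≤ (2 * (Real.sqrt N * x) / e ^ 10) ^ 2 := by
        calc x * (x + N * x / U + (N : ℝ) ^ 2) ≤ x * (4 * (N * x / e ^ 20)) := by
              gcongr
              linarith
          _ = _ := by
              rw [div_pow, mul_pow, mul_pow, Real.sq_sqrt hN0.le]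
              field_simp
              norm_num
      exact (Real.sqrt_le_sqrt e4).trans (le_of_eq (Real.sqrt_sq (by positivity)))
    have h2 : C3 * (x ^ ε) ^ 3 * ℓ ^ 4 * Real.sqrt (x * (x + N * x / U + (N : ℝ) ^ 2)) ≤
        2 * C3 * (Real.sqrt N * x / e ^ 6) := by
      rw [← he]
      have e5 : ℓ ^ 4 ≤ e := (pow_le_pow_right₀ hℓ1 (by norm_num)).trans hl5
      calc C3 * e ^ 3 * ℓ ^ 4 * Real.sqrt (x * (x + N * x / U + (N : ℝ) ^ 2))
          ≤ C3 * e ^ 3 * e * (2 * (Real.sqrt N * x) / e ^ 10) := by gcongr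
        _ = _ := by
            field_simp
    have h3 : C1 * (U : ℝ) ^ 2 * ℓ ^ 5 * ((N : ℝ) ^ ε * (Real.sqrt N * N)) ≤
        32 * C1 * (Real.sqrt N * x / e ^ 6) := by
      have e1 : (N : ℝ) ^ ε ≤ 2 * e := by
        calc (N : ℝ) ^ ε ≤ (2 * x) ^ ε := by gcongr
          _ = 2 ^ ε * e := by rw [Real.mul_rpow (by norm_num) hx0.le]
          _ ≤ 2 ^ (1 : ℝ) * e := by
              have := Real.rpow_le_rpow_of_exponent_le (x := 2) (by norm_num) hε1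
              gcongr
          _ = 2 * e := by rw [Real.rpow_one]
      calc C1 * (U : ℝ) ^ 2 * ℓ ^ 5 * ((N : ℝ) ^ ε * (Real.sqrt N * N))
          ≤ C1 * (2 * e ^ 60) ^ 2 * e * ((2 * e) * (Real.sqrt N * (2 * (x / e ^ 480)))) := by
            gcongr
        _ = 16 * C1 * (Real.sqrt N * x) * (e ^ 122 / e ^ 480) := by ring
        _ ≤ 32 * C1 * (Real.sqrt N * x) * (1 / e ^ 6) := by
            have e6 : e ^ 122 / e ^ 480 ≤ 1 / e ^ 6 := by
              rw [div_le_div_iff₀ (by positivity) (by positivity), ← pow_add, one_mul]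
              exact pow_le_pow_right₀ he1 (by norm_num)
            gcongr
            norm_num
        _ = _ := by ring
    have h5 : 0 ≤ (8 * C1 + C2) * (Real.sqrt N * x / e ^ 6) := by positivity
    have h6 : 0 ≤ ((8 * C1 + C2) + (2 * C3 + 32 * C1)) * (x * ℓ ^ 5) := by positivity
    linarith

end

end Pool.Agent.N782.Q
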