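import Pool.Agent.N782.QE
import Pool.Agent.H343R2.Pnt
import Pool.Agent.H343R2.EH.BVLog

set_option autoImplicit false

/-! Small moduli (helper782). -/

namespace Pool.Agent.N782.Q

open Finset Filter Topology MeasureTheory
open Pool.Agent.H306R2.RZ (js osf sqf)
open H343 H343.KF
open Pool.Agent.H410R2 (psiLog)
open Pool.Agent.H355R3.RZ4HE (mem_osf)

noncomputable section

theorem taylor {B : ℝ} {f : ℝ → ℝ} (hf : Test B f) (v : ℝ) :
    f v = ∫ u in (-(|B| + 1))..(|B| + 1), deriv (deriv f) u * max (u - v) 0 := by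
  set b : ℝ := |B| + 1 with hb
  have hb0 : 0 < b := by have := abs_nonneg B; rw [hb]; linarith
  have hz : ∀ y, |B| ≤ |y| → f y = 0 := fun y hy => hf.supp y ((le_abs_self B).trans hy)
  have hfd : Differentiable ℝ f := (contDiff_infty_iff_deriv.1 hf.smooth).1
  have hf1 : ContDiff ℝ ((⊤ : ℕ∞) : WithTop ℕ∞) (deriv f) := (contDiff_infty_iff_deriv.1 hf.smooth).2
  have hf1d : Differentiable ℝ (deriv f) := (contDiff_infty_iff_deriv.1 hf1).1
  have hf2c : Continuous (deriv (deriv f)) := (contDiff_infty_iff_deriv.1 hf1).2.continuous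
  have hd0 : ∀ y, |B| < |y| → deriv f y = 0 := by
    intro y hy
    have hev : f =ᶠ[𝓝 y] fun _ => (0 : ℝ) := by
      filter_upwards [(isOpen_lt continuous_const continuous_abs).mem_nhds hy] with z hz'
      exact hz z (le_of_lt hz')
    rw [hev.deriv_eq, deriv_const]
  have hlt : |B| < |b| := by rw [abs_of_pos hb0, hb]; linarith
  have hlt' : |B| < |(-b)| := by rw [abs_neg]; exact hlt
  have hB0 := abs_nonneg B
  have hint : ∀ a c : ℝ, IntervalIntegrable (fun u => deriv (deriv f) u * max (u - v) 0)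
      MeasureTheory.volume a c := by
    intro a c
    exact (hf2c.mul (by fun_prop)).intervalIntegrable a c
  rcases lt_or_ge b v with hv | hv
  · have h1 : ∫ u in (-b)..b, deriv (deriv f) u * max (u - v) 0 = ∫ _u in (-b)..b, (0 : ℝ) := by
      apply intervalIntegral.integral_congr
      intro u hu
      rw [Set.uIcc_of_le (by linarith)] at hu
      simp only
      rw [max_eq_right (by linarith [hu.2]), mul_zero]
    rw [h1, intervalIntegral.integral_zero]
    apply hz
    rw [abs_of_pos (by linarith : 0 < v)]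
    linarith
  · set w : ℝ := max v (-b) with hw
    have hw1 : -b ≤ w := le_max_right _ _
    have hw2 : w ≤ b := max_le hv (by linarith)
    have hvw : v ≤ w := le_max_left _ _
    rw [← intervalIntegral.integral_add_adjacent_intervals (hint (-b) w) (hint w b)]
    have h1 : ∫ u in (-b)..w, deriv (deriv f) u * max (u - v) 0 = 0 := by
      rcases le_total (-b) v with h | h
      · have hwv : w = v := max_eq_left h
        rw [hwv]
        have : ∫ u in (-b)..v, deriv (deriv f) u * max (u - v) 0 = ∫ _u in (-b)..v, (0 : ℝ) := by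
          apply intervalIntegral.integral_congr
          intro u hu
          rw [Set.uIcc_of_le h] at hu
          simp only
          rw [max_eq_right (by linarith [hu.2]), mul_zero]
        rw [this, intervalIntegral.integral_zero]
      · have hwv : w = -b := max_eq_right h
        rw [hwv, intervalIntegral.integral_same]
    have h2 : ∫ u in w..b, deriv (deriv f) u * max (u - v) 0 =
        ∫ u in w..b, (u - v) * deriv (deriv f) u := by
      apply intervalIntegral.integral_congr
      intro u hu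
      rw [Set.uIcc_of_le hw2] at hu
      simp only
      rw [max_eq_left (by linarith [hu.1]), mul_comm]
    have h3 := intervalIntegral.integral_mul_deriv_eq_deriv_mul (a := w) (b := b)
      (u := fun t => t - v) (v := deriv f) (u' := fun _ => 1) (v' := deriv (deriv f))
      (fun t _ => (hasDerivAt_id t).sub_const v) (fun t _ => (hf1d t).hasDerivAt)
      (by simp) (hf2c.intervalIntegrable _ _)
    have h4 : ∫ t in w..b, (1 : ℝ) * deriv f t = f b - f w := by
      simp only [one_mul]
      exact intervalIntegral.integral_deriv_eq_sub (fun t _ => hfd t)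
        (hf1.continuous.intervalIntegrable _ _)
    rw [h1, h2, h3, h4, hd0 b hlt, hz b hlt.le]
    have h5 : (w - v) * deriv f w = 0 := by
      rcases le_total (-b) v with h | h
      · have hwv : w = v := max_eq_left h
        rw [hwv]; ring
      · have hwv : w = -b := max_eq_right h
        rw [hwv, hd0 (-b) hlt', mul_zero]
    have h6 : f w = f v := by
      rcases le_total (-b) v with h | h
      · have hwv : w = v := max_eq_left h
        rw [hwv]
      · have hwv : w = -b := max_eq_right h
        rw [hwv, hz (-b) hlt'.le, hz v]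
        rw [abs_of_neg (show v < 0 by linarith)]
        linarith
    rw [h5, h6]
    ring

/-- the smooth sum in terms of logarithmic sums -/
theorem PS_bound {B : ℝ} {f : ℝ → ℝ} (hf : Test B f) : ∃ K : ℝ, 0 < K ∧
    ∀ (x D : ℝ) (M q : ℕ) (χ : DirichletCharacter ℂ q), 0 < x → Real.exp (|B| + 1) * x ≤ M →
    (∀ u : ℝ, |u| ≤ |B| + 1 → ‖psiLog (x * Real.exp u) q χ‖ ≤ D) →
    ‖PS f x M χ‖ ≤ K * D := by
  have hf1 : ContDiff ℝ ((⊤ : ℕ∞) : WithTop ℕ∞) (deriv f) := (contDiff_infty_iff_deriv.1 hf.smooth).2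
  have hf2c : Continuous (deriv (deriv f)) := (contDiff_infty_iff_deriv.1 hf1).2.continuous
  set b : ℝ := |B| + 1 with hb
  have hb0 : 0 < b := by have := abs_nonneg B; rw [hb]; linarith
  obtain ⟨K, hK⟩ := (isCompact_Icc (a := -b) (b := b)).exists_bound_of_continuousOn
    (hf2c.continuousOn)
  have hK0 : 0 ≤ K := (norm_nonneg _).trans (hK 0 ⟨by linarith, hb0.le⟩)
  refine ⟨K * (2 * b) + 1, by positivity, ?_⟩
  intro x D M q χ hx hM hD
  have hD0 : 0 ≤ D := (norm_nonneg _).trans (hD 0 (by rw [abs_zero]; exact hb0.le))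
  -- the identity
  have e1 : PS f x M χ = ∫ u in (-b)..b, ((deriv (deriv f) u : ℝ) : ℂ) *
      ∑ n ∈ Icc 1 M, (ArithmeticFunction.vonMangoldt n : ℂ) * χ (n : ZMod q) *
        ((max (u - Real.log (n / x)) 0 : ℝ) : ℂ) := by
    have h1 : ∀ n ∈ Icc 1 M, (ArithmeticFunction.vonMangoldt n : ℂ) * χ (n : ZMod q) *
        (f (Real.log (n / x)) : ℂ) = ∫ u in (-b)..b,
        (ArithmeticFunction.vonMangoldt n : ℂ) * χ (n : ZMod q) *
        ((deriv (deriv f) u * max (u - Real.log (n / x)) 0 : ℝ) : ℂ) := by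
      intro n _
      rw [intervalIntegral.integral_const_mul, intervalIntegral.integral_ofReal,
        ← taylor hf (Real.log (n / x))]
    unfold PS
    rw [sum_congr rfl h1, ← intervalIntegral.integral_finset_sum]
    · apply intervalIntegral.integral_congr
      intro u _
      simp only
      rw [mul_sum]
      refine sum_congr rfl fun n _ => ?_
      push_cast
      ring
    · intro n _
      apply Continuous.intervalIntegrable
      apply continuous_const.mul
      exact Complex.continuous_ofReal.comp (hf2c.mul (by fun_prop))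
  rw [e1]
  have hbd : ∀ u ∈ Set.uIoc (-b) b, ‖((deriv (deriv f) u : ℝ) : ℂ) *
      ∑ n ∈ Icc 1 M, (ArithmeticFunction.vonMangoldt n : ℂ) * χ (n : ZMod q) *
        ((max (u - Real.log (n / x)) 0 : ℝ) : ℂ)‖ ≤ K * D := by
    intro u hu
    rw [Set.uIoc_of_le (by linarith)] at hu
    have hu' : |u| ≤ b := abs_le.2 ⟨hu.1.le, hu.2⟩
    have h2 := hK u ⟨hu.1.le, hu.2⟩
    have h3 := hD u hu'
    have e2 : ∑ n ∈ Icc 1 M, (ArithmeticFunction.vonMangoldt n : ℂ) * χ (n : ZMod q) *
        ((max (u - Real.log (n / x)) 0 : ℝ) : ℂ) = psiLog (x * Real.exp u) q χ := by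
      unfold psiLog
      have hxu : 0 < x * Real.exp u := by positivity
      have hMle : ⌊x * Real.exp u⌋₊ ≤ M := by
        have h5 : ((⌊x * Real.exp u⌋₊ : ℕ) : ℝ) ≤ M := by
          refine (Nat.floor_le hxu.le).trans (le_trans ?_ hM)
          rw [mul_comm]
          gcongr
          exact hu.2
        exact_mod_cast h5
      symm
      calc ∑ n ∈ Icc 1 ⌊x * Real.exp u⌋₊, ((ArithmeticFunction.vonMangoldt n : ℝ) : ℂ) *
            χ (n : ZMod q) * ((Real.log (x * Real.exp u / n) : ℝ) : ℂ)
          = ∑ n ∈ Icc 1 ⌊x * Real.exp u⌋₊, (ArithmeticFunction.vonMangoldt n : ℂ) *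
            χ (n : ZMod q) * ((max (u - Real.log (n / x)) 0 : ℝ) : ℂ) := by
            refine sum_congr rfl fun n hn => ?_
            rw [mem_Icc] at hn
            have hn0 : (0 : ℝ) < n := by exact_mod_cast hn.1
            have hnx : (n : ℝ) ≤ x * Real.exp u := (Nat.le_floor_iff hxu.le).1 hn.2
            have h6 : Real.log (x * Real.exp u / n) = u - Real.log (n / x) := by
              rw [Real.log_div hxu.ne' hn0.ne', Real.log_mul hx.ne' (Real.exp_pos u).ne',
                Real.log_exp, Real.log_div hn0.ne' hx.ne']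
              ring
            have h7 : 0 ≤ Real.log (x * Real.exp u / n) := by
              apply Real.log_nonneg
              rw [le_div_iff₀ hn0]
              linarith
            rw [h6] at h7 ⊢
            rw [max_eq_left h7]
        _ = _ := by
            apply sum_subset
            · exact Icc_subset_Icc_right hMle
            · intro n hn hn2
              rw [mem_Icc] at hn hn2
              have hn0 : (0 : ℝ) < n := by exact_mod_cast hn.1
              have h8 : x * Real.exp u < n := by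
                have : ⌊x * Real.exp u⌋₊ < n := by
                  by_contra hc
                  exact hn2 ⟨hn.1, by omega⟩
                exact Nat.lt_of_floor_lt this
              have h9 : u ≤ Real.log (n / x) := by
                rw [Real.le_log_iff_exp_le (by positivity), le_div_iff₀ hx, mul_comm]
                exact h8.le
              rw [max_eq_right (by linarith)]
              simp
    rw [e2, norm_mul, Complex.norm_real]
    exact mul_le_mul h2 h3 (norm_nonneg _) hK0
  have h4 := intervalIntegral.norm_integral_le_of_norm_le_const hbd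
  refine h4.trans ?_
  rw [abs_of_pos (by linarith : 0 < b - -b)]
  nlinarith

theorem PS_M {B : ℝ} {f : ℝ → ℝ} (hf : Test B f) {x : ℝ} (hx : 0 < x) {M M' m q : ℕ}
    (hM : Real.exp B * x ≤ M) (hMM : M ≤ M') (χ : DirichletCharacter ℂ q) :
    PSm f x M m χ = PSm f x M' m χ := by
  unfold PSm
  apply sum_subset
  · intro n hn
    rw [mem_filter, mem_Icc] at hn ⊢
    exact ⟨⟨hn.1.1, hn.1.2.trans hMM⟩, hn.2⟩
  · intro n hn hn2
    rw [mem_filter, mem_Icc] at hn hn2
    have h1 : M < n := by
      by_contra hc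
      exact hn2 ⟨⟨hn.1.1, by omega⟩, hn.2⟩
    have h2 : (M : ℝ) ≤ n := by exact_mod_cast h1.le
    have hn0 : (0 : ℝ) < n := by exact_mod_cast hn.1.1
    have h3 : B ≤ Real.log (n / x) := by
      rw [Real.le_log_iff_exp_le (by positivity), le_div_iff₀ hx]
      linarith
    rw [hf.supp _ (h3.trans (le_abs_self _))]
    simp

theorem PSm_ch {B : ℝ} {f : ℝ → ℝ} {x : ℝ} {M m : ℕ} (hm : m ≠ 0) :
    PSm f x M 1 (ch m) = PS f x M (ch m).primitiveCharacter -
      ∑ n ∈ (Icc 1 M).filter (fun n => ¬ n.Coprime m), (ArithmeticFunction.vonMangoldt n : ℂ) *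
        (ch m).primitiveCharacter (n : ZMod (ch m).conductor) * (f (Real.log (n / x)) : ℂ) := by
  have h5 := sum_filter_add_sum_filter_not (Icc 1 M) (fun n => n.Coprime m)
    (fun n => (ArithmeticFunction.vonMangoldt n : ℂ) *
        (ch m).primitiveCharacter (n : ZMod (ch m).conductor) * (f (Real.log (n / x)) : ℂ))
  have h6 : PSm f x M 1 (ch m) = ∑ n ∈ (Icc 1 M).filter (fun n => n.Coprime m),
      (ArithmeticFunction.vonMangoldt n : ℂ) *
        (ch m).primitiveCharacter (n : ZMod (ch m).conductor) * (f (Real.log (n / x)) : ℂ) := by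
    unfold PSm
    rw [filter_true_of_mem (fun n _ => Nat.coprime_one_right n), sum_filter]
    refine sum_congr rfl fun n _ => ?_
    split_ifs with h
    · rw [prim_apply hm h, ch_apply hm]
    · rw [ch_apply hm, js_zero h hm]
      simp
  rw [h6]
  unfold PS
  rw [← h5]
  ring

/-- Siegel-Walfisz for Jacobi symbols -/
theorem swp {B : ℝ} {f : ℝ → ℝ} (hf : Test B f) (A E : ℕ) : ∃ x0 : ℝ, 1 ≤ x0 ∧ ∀ x : ℝ, x0 ≤ x →
    ∀ M : ℕ, Real.exp B * x ≤ M → ∀ D m : ℕ, m ∈ osf D → 1 < m → (m : ℝ) ≤ (Real.log x) ^ E →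
    ‖PSm f x M 1 (ch m)‖ ≤ x / (Real.log x) ^ A := by
  obtain ⟨K, hK, hPS⟩ := PS_bound hf
  obtain ⟨C, hC, hnc⟩ := not_coprime hf
  obtain ⟨y0, hy0⟩ := H343E.sw (A + 1) (E + 1)
  set b : ℝ := |B| + 1 with hb
  have hb0 : 0 < b := by have := abs_nonneg B; rw [hb]; linarith
  have t1 : Tendsto (fun x : ℝ => Real.log x) atTop atTop := Real.tendsto_log_atTop
  have t2 : ∀ᶠ x : ℝ in atTop, (2 : ℝ) ^ (E + 1) ≤ Real.log x ∧ 2 * b ≤ Real.log x ∧
      2 * (K * Real.exp b * 2 ^ (A + 1)) ≤ Real.log x ∧ max y0 1 * Real.exp b ≤ x ∧ 2 ≤ x ∧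
      2 * C * (1 + Real.log x) ^ (A + E + 1) ≤ x := by
    obtain ⟨H0, h0, h1⟩ := large (2 * C) 1 (A + E + 1) one_pos
    filter_upwards [t1.eventually_ge_atTop ((2 : ℝ) ^ (E + 1)), t1.eventually_ge_atTop (2 * b),
      t1.eventually_ge_atTop (2 * (K * Real.exp b * 2 ^ (A + 1))),
      eventually_ge_atTop (max y0 1 * Real.exp b), eventually_ge_atTop 2, eventually_ge_atTop H0]
      with x a1 a2 a3 a4 a5 a6
    have := h1 x a6
    rw [Real.rpow_one] at this
    exact ⟨a1, a2, a3, a4, a5, this⟩
  obtain ⟨x0, hx0⟩ := eventually_atTop.1 t2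
  refine ⟨max x0 1, le_max_right _ _, ?_⟩
  intro x hx M hM D m hm hm1 hmE
  obtain ⟨h1, h2, h3, h4, h5, h6⟩ := hx0 x ((le_max_left _ _).trans hx)
  have hx1 : 1 ≤ x := (le_max_right _ _).trans hx
  have hxp : 0 < x := by linarith
  set ℓ : ℝ := Real.log x with hℓ
  have hℓ0 : 0 < ℓ := by linarith
  have hℓ1 : 1 ≤ ℓ := by
    have : (1 : ℝ) ≤ 2 ^ (E + 1) := one_le_pow₀ (by norm_num)
    linarith
  obtain ⟨hc2, hcm⟩ := cond_ge hm hm1
  set M' : ℕ := max M ⌈Real.exp b * x⌉₊ with hM'
  have hM'1 : Real.exp b * x ≤ M' := by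
    refine (Nat.le_ceil _).trans ?_
    exact_mod_cast le_max_right _ _
  rw [PS_M hf hxp hM (le_max_left M ⌈Real.exp b * x⌉₊) (ch m), ← hM', PSm_ch (B := B) (by omega)]
  have hA : ‖PS f x M' (ch m).primitiveCharacter‖ ≤
      K * (x * Real.exp b * 2 ^ (A + 1) / ℓ ^ (A + 1)) := by
    apply hPS x _ M' (ch m).conductor (ch m).primitiveCharacter hxp hM'1
    intro u hu
    have hu2 := abs_le.1 hu
    have heu : Real.exp u ≤ Real.exp b := Real.exp_le_exp.2 hu2.2
    have heu2 : Real.exp (-b) ≤ Real.exp u := Real.exp_le_exp.2 hu2.1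
    have hxu : 0 < x * Real.exp u := by positivity
    have hy : max y0 1 ≤ x * Real.exp u := by
      have e1 : max y0 1 * Real.exp b * Real.exp (-b) ≤ x * Real.exp u := by
        apply mul_le_mul h4 heu2 (Real.exp_pos _).le hxp.le
      rwa [mul_assoc, ← Real.exp_add, add_neg_cancel, Real.exp_zero, mul_one] at e1
    have hlog : Real.log (x * Real.exp u) = ℓ + u := by
      rw [Real.log_mul hxp.ne' (Real.exp_pos u).ne', Real.log_exp]
    have hlog2 : ℓ / 2 ≤ Real.log (x * Real.exp u) := by
      rw [hlog]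
      linarith [hu2.1]
    have hq : ((ch m).conductor : ℝ) ≤ (Real.log (x * Real.exp u)) ^ (E + 1) := by
      have e2 : ((ch m).conductor : ℝ) ≤ m := by exact_mod_cast hcm
      refine e2.trans (hmE.trans ?_)
      calc ℓ ^ E = ℓ ^ E * 1 := (mul_one _).symm
        _ ≤ ℓ ^ E * (ℓ / 2 ^ (E + 1)) := by
            have : 1 ≤ ℓ / 2 ^ (E + 1) := by
              rw [le_div_iff₀ (by positivity)]
              linarith
            gcongr
        _ = (ℓ / 2) ^ (E + 1) := by
            rw [div_pow]; ring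
        _ ≤ _ := by gcongr
    have h7 := hy0 (x * Real.exp u) ((le_max_left _ _).trans hy) (ch m).conductor (by omega) hq
      (ch m).primitiveCharacter (ch m).primitiveCharacter_isPrimitive
    refine h7.trans ?_
    calc x * Real.exp u / Real.log (x * Real.exp u) ^ (A + 1)
        ≤ x * Real.exp b / (ℓ / 2) ^ (A + 1) := by gcongr
      _ = _ := by rw [div_pow]; field_simp
  have hB : ‖∑ n ∈ (Icc 1 M').filter (fun n => ¬ n.Coprime m),
      (ArithmeticFunction.vonMangoldt n : ℂ) *
        (ch m).primitiveCharacter (n : ZMod (ch m).conductor) * (f (Real.log (n / x)) : ℂ)‖ ≤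
      C * ℓ ^ E * ℓ := by
    have h8 := hnc x m M' h5 (by omega)
    calc _ ≤ ∑ n ∈ (Icc 1 M').filter (fun n => ¬ n.Coprime m),
          ArithmeticFunction.vonMangoldt n * |f (Real.log (n / x))| := by
          refine (norm_sum_le _ _).trans (sum_le_sum fun n _ => ?_)
          rw [norm_mul, norm_mul, Complex.norm_real, Complex.norm_real, Real.norm_eq_abs,
            Real.norm_eq_abs, abs_of_nonneg ArithmeticFunction.vonMangoldt_nonneg]
          have h9 := (ch m).primitiveCharacter.norm_le_one (n : ZMod (ch m).conductor)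
          have h10 : 0 ≤ ArithmeticFunction.vonMangoldt n := ArithmeticFunction.vonMangoldt_nonneg
          calc _ ≤ ArithmeticFunction.vonMangoldt n * 1 * |f (Real.log (n / x))| := by gcongr
            _ = _ := by ring
      _ ≤ _ := h8
      _ ≤ C * ℓ ^ E * ℓ := by
          have : (m.divisors.card : ℝ) ≤ ℓ ^ E := by
            refine le_trans ?_ hmE
            exact_mod_cast Nat.card_divisors_le_self m
          gcongr
  refine (norm_sub_le _ _).trans ((add_le_add hA hB).trans ?_)
  have g1 : K * (x * Real.exp b * 2 ^ (A + 1) / ℓ ^ (A + 1)) ≤ (1 / 2) * (x / ℓ ^ A) := by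
    have : K * (x * Real.exp b * 2 ^ (A + 1) / ℓ ^ (A + 1)) =
        (K * Real.exp b * 2 ^ (A + 1)) / ℓ * (x / ℓ ^ A) := by
      rw [pow_succ ℓ]
      field_simp
    rw [this]
    apply mul_le_mul_of_nonneg_right _ (by positivity)
    rw [div_le_iff₀ hℓ0]
    linarith
  have g2 : C * ℓ ^ E * ℓ ≤ (1 / 2) * (x / ℓ ^ A) := by
    have e3 : 2 * (C * ℓ ^ E * ℓ) * ℓ ^ A ≤ x := by
      calc 2 * (C * ℓ ^ E * ℓ) * ℓ ^ A = 2 * C * ℓ ^ (A + E + 1) := by ring
        _ ≤ 2 * C * (1 + ℓ) ^ (A + E + 1) := by
            gcongr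
            linarith
        _ ≤ x := h6
    have e4 : 2 * (C * ℓ ^ E * ℓ) ≤ x / ℓ ^ A := by
      rw [le_div_iff₀ (by positivity)]
      exact e3
    linarith
  linarith

end

end Pool.Agent.N782.Q
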