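import Pool.Agent.H423R2.RZL.LIM1

set_option autoImplicit false

/-! The diagonal of the first moment over primes (helper782). -/

namespace Pool.Agent.N782.QI

open Finset Filter Topology MeasureTheory
open Pool.Agent.H306R2.RZ
open Pool.Agent.H992R2.RZM3s (tuple_square_summable)

noncomputable section

/-- coefficients of the diagonal -/
def tp (a : Fin 2 → ℕ) : ℝ :=
  if (∀ i, a i ≠ 0 ∧ Nat.Coprime (a i) 2) ∧ IsSquare (∏ i, a i) then
    ((ArithmeticFunction.moebius (a 1) : ℤ) : ℝ) / Real.sqrt ((∏ i, a i : ℕ) : ℝ)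
  else 0

theorem tp_sum (η : ℝ) (hη : 0 < η) :
    Summable (fun a : Fin 2 → ℕ => |tp a| * ∏ i, (a i : ℝ) ^ (-η)) := by
  refine Summable.of_nonneg_of_le (fun a => by positivity) (fun a => ?_)
    (tuple_square_summable 2 η hη)
  unfold tp
  by_cases hc : (∀ i, a i ≠ 0 ∧ Nat.Coprime (a i) 2) ∧ IsSquare (∏ i, a i)
  · have hc' : (∀ i, a i ≠ 0) ∧ IsSquare (∏ i, a i) := ⟨fun i => (hc.1 i).1, hc.2⟩
    rw [if_pos hc, if_pos hc']
    have hN : ∏ i, a i ≠ 0 := Finset.prod_ne_zero_iff.mpr (fun i _ => hc'.1 i)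
    have hNr : (0 : ℝ) < ((∏ i, a i : ℕ) : ℝ) := by exact_mod_cast Nat.pos_of_ne_zero hN
    have hμ : |((ArithmeticFunction.moebius (a 1) : ℤ) : ℝ)| ≤ 1 := by
      have := ArithmeticFunction.abs_moebius_le_one (n := a 1)
      exact_mod_cast this
    have h1 : |((ArithmeticFunction.moebius (a 1) : ℤ) : ℝ) / Real.sqrt ((∏ i, a i : ℕ) : ℝ)| ≤
        ((∏ i, a i : ℕ) : ℝ) ^ (-(1 / 2) : ℝ) := by
      rw [abs_div, abs_of_nonneg (Real.sqrt_nonneg _), Real.rpow_neg hNr.le, ← Real.sqrt_eq_rpow,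
        ← one_div]
      exact div_le_div_of_nonneg_right hμ (Real.sqrt_nonneg _)
    have h2 : ∏ i, (a i : ℝ) ^ (-η) = ((∏ i, a i : ℕ) : ℝ) ^ (-η) := by
      rw [Nat.cast_prod, Real.finsetProd_rpow _ _ (fun i _ => by positivity)]
    rw [h2, neg_add, Real.rpow_add hNr]
    exact mul_le_mul_of_nonneg_right h1 (by positivity)
  · rw [if_neg hc, abs_zero, zero_mul]
    split_ifs
    · positivity
    · exact le_rfl

/-- its Dirichlet series -/
def DDp (z : Fin 2 → ℂ) : ℂ := ∑' a : Fin 2 → ℕ, (tp a : ℂ) * ∏ i, (a i : ℂ) ^ (-(z i))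

/-- parametrisation of the support -/
def Phi (p : ℕ × ℕ) : Fin 2 → ℕ := ![(p.1 + 1) * (p.2 + 1) ^ 2, p.1 + 1]

theorem Phi_inj : Function.Injective Phi := by
  rintro ⟨l, k⟩ ⟨l', k'⟩ h
  have h1 := congrFun h 1
  have h0 := congrFun h 0
  simp only [Phi, Matrix.cons_val_zero, Matrix.cons_val_one] at h0 h1
  have hl : l = l' := by omega
  subst hl
  have h2 : (k + 1) ^ 2 = (k' + 1) ^ 2 := Nat.eq_of_mul_eq_mul_left (by omega) h0
  have h3 : k + 1 = k' + 1 := Nat.pow_left_injective (by norm_num) h2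
  have : k = k' := by omega
  rw [this]

theorem supp_Phi (a : Fin 2 → ℕ) (h : tp a ≠ 0) : a ∈ Set.range Phi := by
  unfold tp at h
  split_ifs at h with hc
  · obtain ⟨h1, h2⟩ := hc
    rw [Fin.prod_univ_two] at h2
    have hμ : ArithmeticFunction.moebius (a 1) ≠ 0 := by
      intro h0
      rw [h0] at h
      simp at h
    have hsq : Squarefree (a 1) := ArithmeticFunction.moebius_ne_zero_iff_squarefree.1 hμ
    obtain ⟨c, hc⟩ := h2
    have hd : a 1 ∣ c * c := by rw [← hc]; exact Dvd.intro_left _ rfl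
    have hd2 : a 1 ∣ c := by
      have h3 : a 1 ∣ c ^ 2 := by rw [pow_two]; exact hd
      exact (hsq.dvd_pow_iff_dvd (by norm_num)).1 h3
    obtain ⟨k, hk⟩ := hd2
    have h10 : 0 < a 1 := Nat.pos_of_ne_zero (h1 1).1
    have h00 : 0 < a 0 := Nat.pos_of_ne_zero (h1 0).1
    have h3 : a 0 = a 1 * k ^ 2 := by
      have : a 0 * a 1 = (a 1 * k ^ 2) * a 1 := by
        rw [hc, hk]; ring
      exact Nat.eq_of_mul_eq_mul_right h10 this
    have hk0 : 0 < k := by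
      rcases Nat.eq_zero_or_pos k with h4 | h4
      · rw [h4] at h3
        simp at h3
        omega
      · exact h4
    refine ⟨(a 1 - 1, k - 1), ?_⟩
    have e1 : a 1 - 1 + 1 = a 1 := by omega
    have e2 : k - 1 + 1 = k := by omega
    funext i
    fin_cases i
    · show (a 1 - 1 + 1) * (k - 1 + 1) ^ 2 = a 0
      rw [e1, e2, h3]
    · show a 1 - 1 + 1 = a 1
      exact e1
  · exact absurd rfl h

theorem tp_Phi (l k : ℕ) : tp (Phi (l, k)) = (if Nat.Coprime (l + 1) 2 then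
    ((ArithmeticFunction.moebius (l + 1) : ℤ) : ℝ) / ((l + 1 : ℕ) : ℝ) else 0) *
    (if Nat.Coprime (k + 1) 2 then 1 / ((k + 1 : ℕ) : ℝ) else 0) := by
  have hp : ∏ i, Phi (l, k) i = ((l + 1) * (k + 1)) ^ 2 := by
    rw [Fin.prod_univ_two]
    show ((l + 1) * (k + 1) ^ 2) * (l + 1) = _
    ring
  have h1 : (∀ i, Phi (l, k) i ≠ 0 ∧ Nat.Coprime (Phi (l, k) i) 2) ↔
      (Nat.Coprime (l + 1) 2 ∧ Nat.Coprime (k + 1) 2) := by
    constructor
    · intro h
      have h0 : Nat.Coprime ((l + 1) * (k + 1) ^ 2) 2 := (h 0).2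
      have h1 : Nat.Coprime (l + 1) 2 := (h 1).2
      refine ⟨h1, ?_⟩
      have h2 : Nat.Coprime ((k + 1) ^ 2) 2 := Nat.Coprime.coprime_mul_left h0
      rw [pow_two] at h2
      exact Nat.Coprime.coprime_mul_left h2
    · rintro ⟨h2, h3⟩ i
      fin_cases i
      · refine ⟨?_, ?_⟩
        · show (l + 1) * (k + 1) ^ 2 ≠ 0
          positivity
        · show Nat.Coprime ((l + 1) * (k + 1) ^ 2) 2
          exact Nat.Coprime.mul_left h2 (Nat.Coprime.pow_left 2 h3)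
      · exact ⟨Nat.succ_ne_zero l, h2⟩
  have hsq : IsSquare (∏ i, Phi (l, k) i) := by
    rw [hp]
    exact ⟨(l + 1) * (k + 1), by ring⟩
  have hr : Real.sqrt ((∏ i, Phi (l, k) i : ℕ) : ℝ) = ((l + 1 : ℕ) : ℝ) * ((k + 1 : ℕ) : ℝ) := by
    rw [hp]
    push_cast
    rw [Real.sqrt_sq (by positivity)]
  have e1 : Phi (l, k) 1 = l + 1 := rfl
  unfold tp
  by_cases h2 : Nat.Coprime (l + 1) 2
  · by_cases h3 : Nat.Coprime (k + 1) 2
    · rw [if_pos ⟨h1.2 ⟨h2, h3⟩, hsq⟩, if_pos h2, if_pos h3, hr, e1]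
      field_simp
    · rw [if_neg (fun h => h3 (h1.1 h.1).2), if_neg h3, mul_zero]
  · rw [if_neg (fun h => h2 (h1.1 h.1).1), if_neg h2, zero_mul]

/-- the even Euler factor -/
def e2 (s : ℂ) : ℂ := 1 - (2 : ℂ) ^ (-s)

theorem L2 (s : ℂ) (hs : 1 < s.re) : LSeries (fun n : ℕ => ((1 : DirichletCharacter ℂ 2) n)) s =
    e2 s * riemannZeta s := by
  have h1 := DirichletCharacter.LFunction_eq_LSeries (1 : DirichletCharacter ℂ 2) hs
  have hs1 : s ≠ 1 := by
    rintro rfl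
    simp at hs
  have h2 := DirichletCharacter.LFunctionTrivChar_eq_mul_riemannZeta (N := 2) hs1
  rw [← h1]
  have h3 : DirichletCharacter.LFunction (1 : DirichletCharacter ℂ 2) s =
    DirichletCharacter.LFunctionTrivChar 2 s := rfl
  rw [h3, h2, Nat.prime_two.primeFactors, prod_singleton]
  rfl

theorem chi2 (n : ℕ) : ((1 : DirichletCharacter ℂ 2) (n : ZMod 2)) =
    if Nat.Coprime n 2 then 1 else 0 := by
  split_ifs with h
  · rw [MulChar.one_apply ((ZMod.isUnit_iff_coprime n 2).2 h)]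
  · exact MulChar.map_nonunit _ (fun hu => h ((ZMod.isUnit_iff_coprime n 2).1 hu))

theorem cast_sq (m : ℕ) (z : ℂ) (c : ℂ) (hm : m ≠ 0) :
    c / (m : ℂ) ^ (1 + z) = c / (m : ℂ) * (m : ℂ) ^ (-z) := by
  have hm0 : (m : ℂ) ≠ 0 := by exact_mod_cast hm
  rw [Complex.cpow_add _ _ hm0, Complex.cpow_one, Complex.cpow_neg]
  field_simp

/-- the Dirichlet series as a product -/
theorem DDp_eq (z : Fin 2 → ℂ) (hz : ∀ i, 0 < (z i).re) :
    DDp z = riemannZeta (1 + 2 * z 0) * (riemannZeta (1 + (z 0 + z 1)))⁻¹ *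
      (e2 (1 + 2 * z 0) / e2 (1 + (z 0 + z 1))) := by
  have hz0 := hz 0
  have hz1 := hz 1
  have r1 : 1 < (1 + 2 * z 0).re := by simp; exact hz0
  have r2 : 1 < (1 + (z 0 + z 1)).re := by simp; linarith
  -- the two series
  set g1 : ℕ → ℂ := fun l => (if Nat.Coprime (l + 1) 2 then
    ((ArithmeticFunction.moebius (l + 1) : ℤ) : ℂ) / ((l + 1 : ℕ) : ℂ) else 0) *
      ((l + 1 : ℕ) : ℂ) ^ (-(z 0 + z 1)) with hg1
  set g2 : ℕ → ℂ := fun k => (if Nat.Coprime (k + 1) 2 then 1 / ((k + 1 : ℕ) : ℂ) else 0) *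
      ((k + 1 : ℕ) : ℂ) ^ (-(2 * z 0)) with hg2
  have hμs : LSeriesSummable ((fun n : ℕ => (1 : DirichletCharacter ℂ 2) n) *
      (fun n : ℕ => ((ArithmeticFunction.moebius n : ℤ) : ℂ))) (1 + (z 0 + z 1)) := by
    refine LSeriesSummable_of_bounded_of_one_lt_re (m := 1) (fun n _ => ?_) r2
    show ‖(1 : DirichletCharacter ℂ 2) n * ((ArithmeticFunction.moebius n : ℤ) : ℂ)‖ ≤ 1
    rw [norm_mul]
    have h1 := DirichletCharacter.norm_le_one (1 : DirichletCharacter ℂ 2) (n : ZMod 2)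
    have h2 : ‖((ArithmeticFunction.moebius n : ℤ) : ℂ)‖ ≤ 1 := by
      rw [Complex.norm_intCast]
      exact_mod_cast ArithmeticFunction.abs_moebius_le_one
    calc _ ≤ (1 : ℝ) * 1 := mul_le_mul h1 h2 (norm_nonneg _) (by norm_num)
      _ = 1 := by norm_num
  have hcs : LSeriesSummable (fun n : ℕ => (1 : DirichletCharacter ℂ 2) n) (1 + 2 * z 0) := by
    refine LSeriesSummable_of_bounded_of_one_lt_re (m := 1) (fun n _ => ?_) r1
    exact DirichletCharacter.norm_le_one _ _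
  have t1 : ∀ l : ℕ, LSeries.term ((fun n : ℕ => (1 : DirichletCharacter ℂ 2) n) *
      (fun n : ℕ => ((ArithmeticFunction.moebius n : ℤ) : ℂ))) (1 + (z 0 + z 1)) (l + 1) = g1 l := by
    intro l
    rw [LSeries.term_of_ne_zero (Nat.succ_ne_zero l), cast_sq _ _ _ (Nat.succ_ne_zero l)]
    simp only [hg1, Pi.mul_apply]
    rw [chi2]
    split_ifs
    · ring
    · simp
  have t2 : ∀ k : ℕ, LSeries.term (fun n : ℕ => (1 : DirichletCharacter ℂ 2) n) (1 + 2 * z 0)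
      (k + 1) = g2 k := by
    intro k
    rw [LSeries.term_of_ne_zero (Nat.succ_ne_zero k), cast_sq _ _ _ (Nat.succ_ne_zero k)]
    simp only [hg2]
    rw [chi2]
    split_ifs
    · ring
    · simp
  have s1 : Summable g1 := by
    have := (summable_nat_add_iff 1).2 hμs
    exact this.congr t1
  have s2 : Summable g2 := by
    have := (summable_nat_add_iff 1).2 hcs
    exact this.congr t2
  have v1 : ∑' l, g1 l = LSeries ((fun n : ℕ => (1 : DirichletCharacter ℂ 2) n) *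
      (fun n : ℕ => ((ArithmeticFunction.moebius n : ℤ) : ℂ))) (1 + (z 0 + z 1)) := by
    unfold LSeries
    rw [hμs.tsum_eq_zero_add, LSeries.term_zero, zero_add]
    exact tsum_congr fun l => (t1 l).symm
  have v2 : ∑' k, g2 k = LSeries (fun n : ℕ => (1 : DirichletCharacter ℂ 2) n) (1 + 2 * z 0) := by
    unfold LSeries
    rw [hcs.tsum_eq_zero_add, LSeries.term_zero, zero_add]
    exact tsum_congr fun l => (t2 l).symm
  have hprod : DDp z = (∑' l, g1 l) * ∑' k, g2 k := by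
    rw [tsum_mul_tsum_of_summable_norm s1.norm s2.norm]
    unfold DDp
    rw [← Phi_inj.tsum_eq (f := fun a => (tp a : ℂ) * ∏ i, (a i : ℂ) ^ (-(z i)))]
    · refine tsum_congr fun p => ?_
      obtain ⟨l, k⟩ := p
      simp only [hg1, hg2]
      rw [tp_Phi, Fin.prod_univ_two]
      have e1 : ((Phi (l, k) 0 : ℕ) : ℂ) ^ (-(z 0)) = ((l + 1 : ℕ) : ℂ) ^ (-(z 0)) *
          ((k + 1 : ℕ) : ℂ) ^ (-(2 * z 0)) := by
        have : Phi (l, k) 0 = (l + 1) * (k + 1) ^ 2 := rfl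
        rw [this, Nat.cast_mul, Complex.natCast_mul_natCast_cpow, Nat.cast_pow,
          ← Complex.natCast_cpow_natCast_mul]
        congr 2
        push_cast
        ring
      have e3 : Phi (l, k) 1 = l + 1 := rfl
      have hl0 : ((l + 1 : ℕ) : ℂ) ≠ 0 := by exact_mod_cast Nat.succ_ne_zero l
      rw [e1, e3, neg_add, Complex.cpow_add _ _ hl0]
      push_cast
      split_ifs
      · push_cast; ring
      · simp
      · simp
      · simp
    · intro a ha
      apply supp_Phi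
      intro h0
      apply ha
      simp only
      rw [h0]
      simp
  have hμ1 := DirichletCharacter.LSeries.mul_mu_eq_one (1 : DirichletCharacter ℂ 2) r2
  have hL2 := L2 _ r2
  rw [hL2] at hμ1
  rw [hprod, v1, v2, L2 _ r1]
  have hne : e2 (1 + (z 0 + z 1)) * riemannZeta (1 + (z 0 + z 1)) ≠ 0 := by
    intro h0
    rw [h0, zero_mul] at hμ1
    exact zero_ne_one hμ1
  have hμ2 : LSeries ((fun n : ℕ => (1 : DirichletCharacter ℂ 2) n) *
      (fun n : ℕ => ((ArithmeticFunction.moebius n : ℤ) : ℂ))) (1 + (z 0 + z 1)) =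
      (e2 (1 + (z 0 + z 1)) * riemannZeta (1 + (z 0 + z 1)))⁻¹ :=
    eq_inv_of_mul_eq_one_right hμ1
  rw [hμ2, mul_inv]
  ring

theorem e2_ge {s : ℂ} (hs : 1 ≤ s.re) : 1 / 2 ≤ ‖e2 s‖ ∧ ‖e2 s‖ ≤ 3 / 2 := by
  have h1 : ‖(2 : ℂ) ^ (-s)‖ ≤ 1 / 2 := by
    rw [show (2 : ℂ) = ((2 : ℝ) : ℂ) by norm_num,
      Complex.norm_cpow_eq_rpow_re_of_pos (by norm_num), Complex.neg_re]
    calc (2 : ℝ) ^ (-s.re) ≤ (2 : ℝ) ^ (-1 : ℝ) :=
          Real.rpow_le_rpow_of_exponent_le (by norm_num) (by linarith)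
      _ = 1 / 2 := by rw [Real.rpow_neg_one]; norm_num
  have h2 := norm_sub_norm_le (1 : ℂ) ((2 : ℂ) ^ (-s))
  have h3 := norm_sub_le (1 : ℂ) ((2 : ℂ) ^ (-s))
  rw [norm_one] at h2 h3
  unfold e2
  constructor <;> linarith

/-- the arithmetic factor -/
def Ap (z : Fin 2 → ℂ) : ℂ := e2 (1 + 2 * z 0) / e2 (1 + (z 0 + z 1))

theorem Ap_le (z : Fin 2 → ℂ) (hz : ∀ i, 0 < (z i).re) : ‖Ap z‖ ≤ 3 := by
  have hz0 := hz 0
  have hz1 := hz 1
  have h1 := e2_ge (s := 1 + 2 * z 0) (by simp; exact hz0.le)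
  have h2 := e2_ge (s := 1 + (z 0 + z 1)) (by simp; linarith)
  unfold Ap
  rw [norm_div, div_le_iff₀ (by linarith [h2.1])]
  linarith [h1.2, h2.1]

theorem Ap_lim (z : Fin 2 → ℂ) : Tendsto (fun L : ℝ => Ap (fun i => z i / (L : ℂ))) atTop (𝓝 1) := by
  have h0 : ∀ i, Tendsto (fun L : ℝ => z i / (L : ℂ)) atTop (𝓝 0) := by
    intro i
    rw [tendsto_zero_iff_norm_tendsto_zero]
    have : Tendsto (fun L : ℝ => ‖z i‖ / L) atTop (𝓝 0) := tendsto_const_nhds.div_atTop tendsto_id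
    refine this.congr' ?_
    filter_upwards [eventually_gt_atTop (0 : ℝ)] with L hL
    rw [norm_div, Complex.norm_real, Real.norm_of_nonneg hL.le]
  have hc : Continuous e2 := by
    unfold e2
    have h2 : (2 : ℂ) ≠ 0 := by norm_num
    exact continuous_const.sub ((continuous_neg).const_cpow (Or.inl h2))
  have hv : e2 1 = 1 / 2 := by
    unfold e2
    rw [Complex.cpow_neg_one]
    norm_num
  have a1 : Tendsto (fun L : ℝ => e2 (1 + 2 * (z 0 / (L : ℂ)))) atTop (𝓝 (e2 1)) := by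
    apply (hc.tendsto 1).comp
    have := ((h0 0).const_mul 2).const_add 1
    simpa using this
  have a2 : Tendsto (fun L : ℝ => e2 (1 + (z 0 / (L : ℂ) + z 1 / (L : ℂ)))) atTop (𝓝 (e2 1)) := by
    apply (hc.tendsto 1).comp
    have := ((h0 0).add (h0 1)).const_add 1
    simpa using this
  have := a1.div a2 (by rw [hv]; norm_num)
  rw [div_self (by rw [hv]; norm_num)] at this
  exact this

/-- limit of the diagonal -/
theorem main_limP (s : ℝ) (w Q : ℝ → ℝ) (hw : Wt s w) (hQ : Wt s Q) :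
    Tendsto (fun L : ℝ => ∑' a : Fin 2 → ℕ,
      tp a * (w (Real.log (a 0) / L) * Q (Real.log (a 1) / L))) atTop (𝓝 (mn w Q / 2)) := by
  obtain ⟨⟨C, hC, hz⟩, hzl⟩ := Pool.Agent.H727R2.RZMZ.MZ 2 (by norm_num)
  have hre : ∀ (τ : Fin 2 → ℝ) (i : Fin 2), (0 : ℝ) < (((1 : ℝ) : ℂ) + τ i * Complex.I).re := by
    intro τ i
    simp
  set D : ℝ → (Fin 2 → ℝ) → ℂ := fun L τ =>
    DDp (fun i => (((1 : ℝ) : ℂ) + τ i * Complex.I) / (L : ℂ)) with hD
  have hsum : ∀ L : ℝ, 0 < L → Summable (fun a : Fin 2 → ℕ =>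
      ‖((tp a : ℝ) : ℂ)‖ * ∏ i, (a i : ℝ) ^ (-((1 : ℝ) / L))) := by
    intro L hL
    have := tp_sum (1 / L) (by positivity)
    refine this.congr fun a => ?_
    rw [Complex.norm_real, Real.norm_eq_abs]
  have h0 : ∀ a : Fin 2 → ℕ, (∃ i, a i = 0) → ((tp a : ℝ) : ℂ) = 0 := by
    rintro a ⟨i, hi⟩
    rw [tp, if_neg (fun h => (h.1 i).1 hi), Complex.ofReal_zero]
  have hML := fun (L : ℝ) (hL : 0 < L) => Pool.Agent.H310R2.RZML.ML Pool.Agent.H375R3.RZFR.FR 2 (fun _ => 1) (fun _ => one_pos)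
    (fun a => ((tp a : ℝ) : ℂ)) h0 L hL (hsum L hL) ![w, Q] s
    (by intro i; fin_cases i; exacts [hw, hQ])
  have hDre : ∀ L : ℝ, 0 < L → ∀ (τ : Fin 2 → ℝ) (i : Fin 2),
      0 < ((((1 : ℝ) : ℂ) + τ i * Complex.I) / (L : ℂ)).re := by
    intro L hL τ i
    rw [Complex.div_ofReal_re]
    exact div_pos (hre τ i) hL
  have hDeq : ∀ L : ℝ, 0 < L → ∀ τ : Fin 2 → ℝ, D L τ =
      riemannZeta (1 + (2 * (((1 : ℝ) : ℂ) + τ 0 * Complex.I)) / (L : ℂ)) *
      (riemannZeta (1 + ((((1 : ℝ) : ℂ) + τ 0 * Complex.I) + (((1 : ℝ) : ℂ) + τ 1 * Complex.I)) /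
        (L : ℂ)))⁻¹ * Ap (fun i => (((1 : ℝ) : ℂ) + τ i * Complex.I) / (L : ℂ)) := by
    intro L hL τ
    change DDp (fun i => (((1 : ℝ) : ℂ) + τ i * Complex.I) / (L : ℂ)) = _
    rw [DDp_eq _ (hDre L hL τ)]
    have e1 : 2 * ((((1 : ℝ) : ℂ) + τ 0 * Complex.I) / (L : ℂ)) =
      (2 * (((1 : ℝ) : ℂ) + τ 0 * Complex.I)) / (L : ℂ) := by ring
    have e3 : (((1 : ℝ) : ℂ) + τ 0 * Complex.I) / (L : ℂ) + (((1 : ℝ) : ℂ) + τ 1 * Complex.I) / (L : ℂ) =
      ((((1 : ℝ) : ℂ) + τ 0 * Complex.I) + (((1 : ℝ) : ℂ) + τ 1 * Complex.I)) / (L : ℂ) := by ring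
    unfold Ap
    rw [e1, e3]
  have hlim := Pool.Agent.H310R2.RZML.MLlim Pool.Agent.H375R3.RZFR.FR 2 (fun _ => 1) D
    (fun τ => ((1 + τ 0 * Complex.I) + (1 + τ 1 * Complex.I)) / (2 * (1 + τ 0 * Complex.I))) 1
    (C * C * 3) 2
    (fun L hL => (hML L (by linarith)).2.aestronglyMeasurable)
    (by
      intro L hL τ
      have hL0 : 0 < L := by linarith
      rw [hDeq L hL0 τ, norm_mul, norm_mul]
      have h1 := (hz L (2 * (((1 : ℝ) : ℂ) + τ 0 * Complex.I)) hL (by simp)).1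
      have h2 := (hz L ((((1 : ℝ) : ℂ) + τ 0 * Complex.I) + (((1 : ℝ) : ℂ) + τ 1 * Complex.I)) hL
        (by simp; try norm_num)).2
      have him : ((((1 : ℝ) : ℂ) + τ 0 * Complex.I) + (((1 : ℝ) : ℂ) + τ 1 * Complex.I)).im =
        τ 0 + τ 1 := by simp
      rw [him] at h2
      have h3 := Ap_le (fun i => (((1 : ℝ) : ℂ) + τ i * Complex.I) / (L : ℂ)) (hDre L hL0 τ)
      have h4 : (1 + |τ 0 + τ 1|) ^ 2 ≤ ∏ i, (1 + |τ i|) ^ 2 := by
        rw [Fin.prod_univ_two, ← mul_pow]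
        apply pow_le_pow_left₀ (by positivity)
        have := abs_add_le (τ 0) (τ 1)
        nlinarith [mul_nonneg (abs_nonneg (τ 0)) (abs_nonneg (τ 1))]
      calc _ ≤ (C * L) * (C * (1 + |τ 0 + τ 1|) ^ 2 / L) * 3 := by
            apply mul_le_mul (mul_le_mul h1 h2 (norm_nonneg _) (by positivity)) h3 (norm_nonneg _)
              (by positivity)
        _ = (C * C * 3) * (1 + |τ 0 + τ 1|) ^ 2 := by
            field_simp
        _ ≤ _ := mul_le_mul_of_nonneg_left h4 (by positivity))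
    (by
      intro τ
      have hz0 : (1 + (τ 0 : ℂ) * Complex.I) ≠ 0 := by
        intro h
        have := congrArg Complex.re h
        simp at this
      have hz01 : ((1 + (τ 0 : ℂ) * Complex.I) + (1 + τ 1 * Complex.I)) ≠ 0 := by
        intro h
        have := congrArg Complex.re h
        simp at this
        try norm_num at this
      have l1 := hzl (2 * (1 + (τ 0 : ℂ) * Complex.I)) (by simp)
      have l2 := hzl ((1 + (τ 0 : ℂ) * Complex.I) + (1 + τ 1 * Complex.I)) (by simp; try norm_num)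
      have l2' := l2.inv₀ (one_div_ne_zero hz01)
      have l3 := Ap_lim (fun i => (1 + (τ i : ℂ) * Complex.I))
      have l4 := (l1.mul l2').mul l3
      have e : 1 / (2 * (1 + (τ 0 : ℂ) * Complex.I)) *
          (1 / ((1 + (τ 0 : ℂ) * Complex.I) + (1 + τ 1 * Complex.I)))⁻¹ * 1 =
          ((1 + τ 0 * Complex.I) + (1 + τ 1 * Complex.I)) / (2 * (1 + τ 0 * Complex.I)) := by
        rw [mul_one, one_div, one_div, inv_inv]
        field_simp
      rw [e] at l4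
      refine l4.congr' ?_
      filter_upwards [eventually_gt_atTop (0 : ℝ)] with L hL
      have hLC : (L : ℂ) ≠ 0 := by exact_mod_cast hL.ne'
      rw [hDeq L hL τ, Complex.ofReal_one, inv_div, div_mul_div_cancel₀ hLC, div_eq_mul_inv])
    ![w, Q] s (by intro i; fin_cases i; exacts [hw, hQ])
  have hR : ∫ τ : Fin 2 → ℝ, (∏ i, fh ((fun _ => (1 : ℝ)) i) ((![w, Q] : Fin 2 → ℝ → ℝ) i) (τ i)) *
      (((1 + (τ 0 : ℂ) * Complex.I) + (1 + τ 1 * Complex.I)) / (2 * (1 + τ 0 * Complex.I))) =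
      ((mn w Q / 2 : ℝ) : ℂ) := by
    rw [← Pool.Agent.H930R3.RZID.ID4 Pool.Agent.H375R3.RZFR.FR s w Q hw hQ]
    refine integral_congr_ae (Eventually.of_forall fun τ => ?_)
    beta_reduce
    rw [Fin.prod_univ_two]
    rfl
  rw [hR] at hlim
  have h2 := (Complex.continuous_re.tendsto _).comp hlim
  rw [Complex.ofReal_re] at h2
  refine h2.congr' ?_
  filter_upwards [eventually_gt_atTop (0 : ℝ)] with L hL
  have h3 := (hML L hL).1
  have h4 : ∑' a : Fin 2 → ℕ, ((tp a : ℝ) : ℂ) * ∏ i, ((![w, Q] : Fin 2 → ℝ → ℝ) i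
      (Real.log (a i) / L) : ℂ) = ((∑' a : Fin 2 → ℕ,
      tp a * (w (Real.log (a 0) / L) * Q (Real.log (a 1) / L)) : ℝ) : ℂ) := by
    rw [Complex.ofReal_tsum]
    refine tsum_congr fun a => ?_
    rw [Fin.prod_univ_two, Complex.ofReal_mul, Complex.ofReal_mul]
    rfl
  rw [h4] at h3
  have h5 := congrArg Complex.re h3
  rw [Complex.ofReal_re] at h5
  rw [h5]
  rfl

end

end Pool.Agent.N782.QI
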