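import Pool.Agent.N782.QH
import Pool.Agent.N782.QI
import Pool.Agent.H423R2.RGL.K.H884R2_RG_LM1G

set_option autoImplicit false

/-! The first moment over primes (helper782). -/

namespace Pool.Agent.N782.Q

open Finset Filter Topology MeasureTheory
open Pool.Agent.H306R2.RZ (js osf sqf TF Ft cas Wt mn)
open Pool.Agent.H306R2.RG (F8 Ndg Mdg)
open H343 (Test PSm)
open Pool.Agent.N782.GI (omp TF_supp gw_p)
open Pool.Agent.N782.GA (EA EA_congr EA_sum AdmV M1)
open Pool.Agent.N782.QI (tp main_limP)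
open Pool.Agent.H355R3.RZ4HE (mem_osf)
open Pool.Agent.H423R2.RZL.LS4n (dc dc_spec js_mulL abs_js_le)

noncomputable section

/-- the average over primes of a Jacobi symbol -/
def Em (ε : ℤ) (s' : ℝ) (F : ℝ → ℝ) (L : ℝ) (m : ℕ) : ℝ :=
  EA (omp ε s' F L) (fun d => js ((F8 ε).e * (d : ℤ)) m)

theorem PSm_real {F : ℝ → ℝ} {x : ℝ} {M m : ℕ} (hm : m ≠ 0) : ‖PSm (fl F) x M 1 (ch m)‖ =
    |∑ n ∈ Icc 1 M, ArithmeticFunction.vonMangoldt n * (fl F (Real.log (n / x)) * js n m)| := by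
  have h : PSm (fl F) x M 1 (ch m) = ((∑ n ∈ Icc 1 M, ArithmeticFunction.vonMangoldt n *
      (fl F (Real.log (n / x)) * js n m) : ℝ) : ℂ) := by
    unfold PSm
    rw [filter_true_of_mem (fun n _ => Nat.coprime_one_right n)]
    push_cast
    refine sum_congr rfl fun n _ => ?_
    rw [ch_apply hm]
    ring
  rw [h, Complex.norm_real, Real.norm_eq_abs]

theorem Em_le (ε : ℤ) {s' : ℝ} (hs' : s' ≤ 1 / 4) {F : ℝ → ℝ} {B H : ℝ} (hB : 0 < B)
    (hsupp : ∀ x, F x ≠ 0 → Real.exp (-B) ≤ x ∧ x ≤ Real.exp B) (hFH : ∀ x, |F x| ≤ H) :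
    ∃ L1 : ℝ, 1 ≤ L1 ∧ ∀ L : ℝ, L1 ≤ L → ∀ M : ℕ, Real.exp B * Real.exp L ≤ M → ∀ m : ℕ, m ≠ 0 →
      |Em ε s' F L m| ≤ 1 / 2 / Real.exp L * (‖PSm (fl F) (Real.exp L) M 1 (ch m)‖ +
        H * (2 * Real.sqrt M * Real.log M)) := by
  obtain ⟨L1, hL1, hEA⟩ := EA_p ε hs' hB hsupp
  refine ⟨L1, hL1, ?_⟩
  intro L hL M hM m hm
  obtain ⟨-, hEAL⟩ := hEA L hL
  have hX := Real.exp_pos L
  have hBX : 1 ≤ Real.exp B * Real.exp L := by
    rw [← Real.exp_add]
    exact Real.one_le_exp (by linarith)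
  have hM1n : 1 ≤ M := by exact_mod_cast hBX.trans hM
  unfold Em
  rw [hEAL M hM]
  have e1 : ∑ n ∈ (Icc 1 M).filter Nat.Prime, Real.log n * F ((n : ℝ) / Real.exp L) *
      js ((F8 ε).e * (n : ℤ)) m = js (F8 ε).e m * ∑ n ∈ (Icc 1 M).filter Nat.Prime,
        Real.log n * (fl F (Real.log (n / Real.exp L)) * js n m) := by
    rw [mul_sum]
    refine sum_congr rfl fun n hn => ?_
    rw [mem_filter, mem_Icc] at hn
    have hn0 : (0 : ℝ) < n := by exact_mod_cast hn.1.1
    unfold fl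
    rw [Real.exp_log (by positivity), js_mulL]
    ring
  rw [e1, abs_mul, abs_mul, abs_of_pos (by positivity)]
  have p2 := prime_powers M hM1n (fun n => fl F (Real.log (n / Real.exp L)) * js n m) H
    (fun n => by
      rw [abs_mul]
      calc _ ≤ H * 1 := mul_le_mul (hFH _) (abs_js_le _ _) (abs_nonneg _)
            ((abs_nonneg _).trans (hFH 0))
        _ = H := mul_one _)
  rw [PSm_real hm]
  set S1 := ∑ n ∈ (Icc 1 M).filter Nat.Prime,
        Real.log n * (fl F (Real.log (n / Real.exp L)) * js n m) with hS1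
  set S2 := ∑ n ∈ Icc 1 M, ArithmeticFunction.vonMangoldt n *
    (fl F (Real.log (n / Real.exp L)) * js n m) with hS2
  have h3 : |S1| ≤ |S2| + H * (2 * Real.sqrt M * Real.log M) := by
    have h4 : S1 = S2 - (S2 - S1) := by ring
    rw [h4]
    exact (abs_sub _ _).trans (by linarith)
  have h5 : |js (F8 ε).e m| * |S1| ≤ 1 * |S1| :=
    mul_le_mul_of_nonneg_right (abs_js_le _ _) (abs_nonneg _)
  apply mul_le_mul_of_nonneg_left _ (by positivity)
  linarith

theorem sum_card_sqrt (Z : ℕ) : ∑ m ∈ Icc 1 Z, (m.divisors.card : ℝ) / Real.sqrt m ≤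
    (1 + Real.log Z) ^ 2 * Real.sqrt Z := by
  have h := Real.sum_mul_le_sqrt_mul_sqrt (Icc 1 Z) (fun m => (m.divisors.card : ℝ) / Real.sqrt m)
    (fun _ => 1)
  simp only [mul_one, one_pow, sum_const, Nat.card_Icc, nsmul_eq_mul, add_tsub_cancel_right] at h
  refine h.trans ?_
  apply mul_le_mul_of_nonneg_right _ (Real.sqrt_nonneg _)
  have hl : 0 ≤ 1 + Real.log Z := by
    have := Real.log_natCast_nonneg Z
    linarith
  have h2 : ∑ m ∈ Icc 1 Z, ((m.divisors.card : ℝ) / Real.sqrt m) ^ 2 ≤ ((1 + Real.log Z) ^ 2) ^ 2 := by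
    have h3 := sum_card_sq_div Z
    calc _ = ∑ n ∈ Icc 1 Z, (n.divisors.card : ℝ) ^ 2 / n := by
          refine sum_congr rfl fun m _ => ?_
          rw [div_pow, Real.sq_sqrt (Nat.cast_nonneg _)]
      _ ≤ _ := h3
      _ = _ := by ring
  exact (Real.sqrt_le_sqrt h2).trans (le_of_eq (Real.sqrt_sq (by positivity)))

/-- the averages over primes are small on average -/
theorem ws (ε : ℤ) {s' : ℝ} (hs' : s' ≤ 1 / 4) {F : ℝ → ℝ} (hF : TF F) (σ : ℝ) (hσ0 : 0 < σ)
    (hσ : σ < 1) (A : ℕ) :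
    ∃ L2 : ℝ, 1 ≤ L2 ∧ ∀ L : ℝ, L2 ≤ L → ∀ Z : ℕ, (Z : ℝ) ≤ Real.exp (σ * L) →
      ∑ m ∈ (osf Z).filter (fun m => 1 < m), (m.divisors.card : ℝ) / Real.sqrt m *
        |Em ε s' F L m| ≤ 1 / L ^ A := by
  obtain ⟨B, hB, hT, hsupp⟩ := test_fl hF
  obtain ⟨H, hH, hFH⟩ := TF_bdd hF
  obtain ⟨L1, hL1, hEm⟩ := Em_le ε hs' hB hsupp hFH
  obtain ⟨x0, hx0, htot⟩ := tot hT σ hσ0 hσ A
  set c1 : ℝ := |Real.log (2 * Real.exp B)| + 1 with hc1
  have hc10 : 0 < c1 := by rw [hc1]; positivity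
  set K : ℝ := H * 2 * Real.sqrt (2 * Real.exp B) * c1 with hK
  have hK0 : 0 ≤ K := by rw [hK]; positivity
  obtain ⟨H0, hH0, hlarge⟩ := H343.KF.large K ((1 - σ) / 2) (3 + A) (by linarith)
  refine ⟨max (max L1 x0) H0, hL1.trans ((le_max_left _ _).trans (le_max_left _ _)), ?_⟩
  intro L hL Z hZ
  have hLL1 : L1 ≤ L := ((le_max_left _ _).trans (le_max_left _ _)).trans hL
  have hLx0 : x0 ≤ L := ((le_max_right _ _).trans (le_max_left _ _)).trans hL
  have hLH0 : H0 ≤ L := (le_max_right _ _).trans hL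
  have hL1' : 1 ≤ L := hL1.trans hLL1
  have hX := Real.exp_pos L
  have hLX : L ≤ Real.exp L := by linarith [Real.add_one_le_exp L]
  set M : ℕ := ⌈Real.exp B * Real.exp L⌉₊ with hM
  have hM1 : Real.exp B * Real.exp L ≤ M := Nat.le_ceil _
  have hBX : 1 ≤ Real.exp B * Real.exp L := by
    rw [← Real.exp_add]
    exact Real.one_le_exp (by linarith)
  have hM2 : (M : ℝ) ≤ 2 * Real.exp B * Real.exp L := by
    have := Nat.ceil_lt_add_one (a := Real.exp B * Real.exp L) (by positivity)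
    linarith
  have hM1' : (1 : ℝ) ≤ M := hBX.trans hM1
  have hlM0 : 0 ≤ Real.log M := Real.log_nonneg hM1'
  have hEmL := hEm L hLL1 M hM1
  have ht := htot (Real.exp L) (hLx0.trans hLX) M hM1 Z (by
    rw [← Real.exp_mul, mul_comm]; exact hZ)
  rw [Real.log_exp] at ht
  have hsq : Real.sqrt (Real.exp L) = Real.exp (1 / 2 * L) := by
    rw [Real.sqrt_eq_iff_mul_self_eq (by positivity) (by positivity), ← Real.exp_add]
    congr 1; ring
  have hsM : Real.sqrt M ≤ Real.sqrt (2 * Real.exp B) * Real.exp (1 / 2 * L) := by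
    rw [← hsq, ← Real.sqrt_mul (by positivity)]
    exact Real.sqrt_le_sqrt hM2
  have hlM : Real.log M ≤ c1 * (1 + L) := by
    have h1 : Real.log M ≤ Real.log (2 * Real.exp B * Real.exp L) :=
      Real.log_le_log (by linarith) hM2
    rw [Real.log_mul (by positivity) (by positivity), Real.log_exp] at h1
    have h2 := le_abs_self (Real.log (2 * Real.exp B))
    have h3 := abs_nonneg (Real.log (2 * Real.exp B))
    rw [hc1]
    nlinarith
  have hsZ : Real.sqrt Z ≤ Real.exp (σ / 2 * L) := by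
    rw [Real.sqrt_le_left (Real.exp_pos _).le]
    refine hZ.trans (le_of_eq ?_)
    rw [pow_two, ← Real.exp_add]
    congr 1; ring
  have hlZ : 1 + Real.log Z ≤ 1 + L := by
    rcases Nat.eq_zero_or_pos Z with h0 | h0
    · rw [h0]; simp; linarith
    · have h1 : Real.log Z ≤ Real.log (Real.exp (σ * L)) :=
        Real.log_le_log (by exact_mod_cast h0) hZ
      rw [Real.log_exp] at h1
      nlinarith
  have hlZ0 : 0 ≤ 1 + Real.log Z := by
    have := Real.log_natCast_nonneg Z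
    linarith
  have hsum : ∑ m ∈ (osf Z).filter (fun m => 1 < m), (m.divisors.card : ℝ) / Real.sqrt m ≤
      (1 + L) ^ 2 * Real.exp (σ / 2 * L) := by
    calc _ ≤ ∑ m ∈ Icc 1 Z, (m.divisors.card : ℝ) / Real.sqrt m := by
          apply sum_le_sum_of_subset_of_nonneg
          · intro m hm
            rw [mem_filter] at hm
            obtain ⟨a1, a2, -, -⟩ := mem_osf hm.1
            exact mem_Icc.2 ⟨a1, a2⟩
          · intro _ _ _; positivity
      _ ≤ (1 + Real.log Z) ^ 2 * Real.sqrt Z := sum_card_sqrt Z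
      _ ≤ _ := by gcongr
  have hlg := hlarge (Real.exp L) (hLH0.trans hLX)
  rw [Real.log_exp, ← Real.exp_mul] at hlg
  calc ∑ m ∈ (osf Z).filter (fun m => 1 < m), (m.divisors.card : ℝ) / Real.sqrt m *
        |Em ε s' F L m|
      ≤ ∑ m ∈ (osf Z).filter (fun m => 1 < m), (m.divisors.card : ℝ) / Real.sqrt m *
        (1 / 2 / Real.exp L * (‖PSm (fl F) (Real.exp L) M 1 (ch m)‖ +
        H * (2 * Real.sqrt M * Real.log M))) := by
        refine sum_le_sum fun m hm => ?_
        rw [mem_filter] at hm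
        exact mul_le_mul_of_nonneg_left (hEmL m (by omega)) (by positivity)
    _ = 1 / 2 / Real.exp L * ∑ m ∈ (osf Z).filter (fun m => 1 < m),
          (m.divisors.card : ℝ) / Real.sqrt m * ‖PSm (fl F) (Real.exp L) M 1 (ch m)‖ +
        1 / 2 / Real.exp L * (H * (2 * Real.sqrt M * Real.log M)) *
          ∑ m ∈ (osf Z).filter (fun m => 1 < m), (m.divisors.card : ℝ) / Real.sqrt m := by
        rw [mul_sum, mul_sum, ← sum_add_distrib]
        refine sum_congr rfl fun m _ => ?_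
        ring
    _ ≤ 1 / 2 / Real.exp L * (Real.exp L / L ^ A) +
        1 / 2 / Real.exp L * (H * (2 * (Real.sqrt (2 * Real.exp B) * Real.exp (1 / 2 * L)) *
          (c1 * (1 + L)))) * ((1 + L) ^ 2 * Real.exp (σ / 2 * L)) := by
        apply add_le_add
        · exact mul_le_mul_of_nonneg_left ht (by positivity)
        · apply mul_le_mul _ hsum (sum_nonneg fun _ _ => by positivity) (by positivity)
          apply mul_le_mul_of_nonneg_left _ (by positivity)
          apply mul_le_mul_of_nonneg_left _ hH.le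
          apply mul_le_mul _ hlM hlM0 (by positivity)
          exact mul_le_mul_of_nonneg_left hsM (by norm_num)
    _ = 1 / 2 * (1 / L ^ A) + 1 / 2 * (K * (1 + L) ^ 3 *
          (Real.exp (1 / 2 * L) * Real.exp (σ / 2 * L) / Real.exp L)) := by
        rw [hK]
        field_simp
    _ ≤ 1 / 2 * (1 / L ^ A) + 1 / 2 * (1 / L ^ A) := by
        have e1 : Real.exp (1 / 2 * L) * Real.exp (σ / 2 * L) / Real.exp L =
            1 / Real.exp (L * ((1 - σ) / 2)) := by
          rw [div_eq_div_iff (Real.exp_pos _).ne' (Real.exp_pos _).ne', one_mul, ← Real.exp_add,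
            ← Real.exp_add]
          congr 1
          ring
        have e2 : K * (1 + L) ^ 3 * (Real.exp (1 / 2 * L) * Real.exp (σ / 2 * L) / Real.exp L) ≤
            1 / L ^ A := by
          rw [e1, mul_one_div, div_le_div_iff₀ (Real.exp_pos _) (by positivity), one_mul]
          calc K * (1 + L) ^ 3 * L ^ A ≤ K * (1 + L) ^ 3 * (1 + L) ^ A := by
                gcongr
                linarith
            _ = K * (1 + L) ^ (3 + A) := by ring
            _ ≤ _ := hlg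
        linarith
    _ = _ := by ring

/-- reduction to the squarefree kernel -/
theorem kern (ε : ℤ) (hε : ε = 1 ∨ ε = -1) {s' : ℝ} (hs' : s' ≤ 1 / 4) {F : ℝ → ℝ} (hF : TF F) :
    ∃ L1 : ℝ, 1 ≤ L1 ∧ ∀ L : ℝ, L1 ≤ L → ∀ k : ℕ, Odd k → (k : ℝ) ≤ Real.exp L →
      Em ε s' F L k = Em ε s' F L (dc k).2 := by
  obtain ⟨B, hB, hT, hsupp⟩ := test_fl hF
  obtain ⟨L1, hL1, hEA⟩ := EA_p ε hs' hB hsupp
  refine ⟨L1, hL1, ?_⟩
  intro L hL k hk hkL
  obtain ⟨hlow, -⟩ := hEA L hL
  have hL1' : 1 ≤ L := hL1.trans hL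
  have hk1 : 1 ≤ k := hk.pos
  obtain ⟨h1, h2⟩ := dc_spec hk1
  set r : ℕ := (dc k).1 with hr
  set m : ℕ := (dc k).2 with hm
  have hr0 : r ≠ 0 := by
    intro h0
    rw [h0] at h1
    simp at h1
    omega
  have hm0 : m ≠ 0 := h2.ne_zero
  have hrodd : Odd r := by
    rw [← h1] at hk
    have h3 := Nat.Odd.of_mul_right hk
    rcases Nat.even_or_odd r with h4 | h4
    · exfalso
      have h5 : Even (r ^ 2 * m) := (h4.pow_of_ne_zero (by norm_num)).mul_right m
      exact (Nat.not_even_iff_odd.2 hk) h5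
    · exact h4
  have hrle : (r : ℝ) ≤ Real.exp (1 / 2 * L) := by
    have h3 : r ^ 2 ≤ k := by
      rw [← h1]
      exact Nat.le_mul_of_pos_right _ (Nat.pos_of_ne_zero hm0)
    have h4 : (r : ℝ) ^ 2 ≤ (Real.exp (1 / 2 * L)) ^ 2 := by
      have h5 : ((r ^ 2 : ℕ) : ℝ) ≤ k := by exact_mod_cast h3
      push_cast at h5
      refine h5.trans (hkL.trans (le_of_eq ?_))
      rw [pow_two, ← Real.exp_add]
      congr 1; ring
    exact abs_le_of_sq_le_sq' h4 (Real.exp_pos _).le |>.2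
  unfold Em
  refine EA_congr L fun d hd => ?_
  -- d is a prime larger than r
  have hdF : d.Prime ∧ F ((d : ℝ) / Real.exp L) ≠ 0 := by
    unfold omp at hd
    split_ifs at hd with h
    · refine ⟨h.2.1, ?_⟩
      intro h0
      apply hd
      rw [h0]
      ring
    · exact absurd rfl hd
  have hdr : r < d := by
    have h3 := hlow d hdF.2
    have h4 : Real.exp (1 / 2 * L) ≤ Real.exp (3 / 4 * L) := Real.exp_le_exp.2 (by linarith)
    have h5 : (r : ℝ) < d := by linarith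
    exact_mod_cast h5
  have hco : Nat.Coprime d r := by
    rw [Nat.Prime.coprime_iff_not_dvd hdF.1]
    intro hdv
    have := Nat.le_of_dvd (Nat.pos_of_ne_zero hr0) hdv
    omega
  have hco2 : Nat.Coprime 2 r := Nat.coprime_two_left.2 hrodd
  have hsq : js ((F8 ε).e * (d : ℤ)) r * js ((F8 ε).e * (d : ℤ)) r = 1 := by
    have h3 : jacobiSym ((F8 ε).e * (d : ℤ)) r ^ 2 = 1 := by
      apply jacobiSym.sq_one
      have h4 : (F8 ε).e = 2 * ε := rfl
      rw [h4]
      have h5 : Int.gcd (2 * ε * (d : ℤ)) r = Nat.gcd (2 * d) r := by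
        rw [Int.gcd, Int.natAbs_natCast]
        congr 1
        rcases hε with rfl | rfl
        · simp [Int.natAbs_mul]
        · simp [Int.natAbs_mul]
      rw [h5]
      exact Nat.Coprime.mul_left hco2 hco
    unfold js
    have h6 : ((jacobiSym ((F8 ε).e * (d : ℤ)) r : ℤ) : ℝ) ^ 2 = 1 := by exact_mod_cast h3
    rw [← pow_two]
    exact h6
  have h3 : js ((F8 ε).e * (d : ℤ)) k = js ((F8 ε).e * (d : ℤ)) (r * r * m) := by
    rw [← h1, pow_two]
  beta_reduce
  rw [h3, Pool.Agent.H355R3.RZ4HE.js_mul _ _ _ (mul_ne_zero hr0 hr0) hm0,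
    Pool.Agent.H355R3.RZ4HE.js_mul _ _ _ hr0 hr0, hsq, one_mul]

end

end Pool.Agent.N782.Q
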