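import Pool.Agent.N782.RA
import Pool.Agent.N782.ERGu
import Pool.Agent.N782.EZGu

set_option autoImplicit false

/-! The non-squares, on average over the moduli (helper782). -/

namespace Pool.Agent.N782.RB

open Finset Filter Topology MeasureTheory Pool.Agent.H306R2.RZ Pool.Agent.H306R2.RG
open Pool.Agent.H578R2.RZ5ER1 (bx card_bx one_le_prod mem_bx prod_le bd_nonneg w4_abs t4c_abs
  t4c_ne near1 dec_neg Gk_abs)
open Pool.Agent.H578R2.RGERG (gs)
open Pool.Agent.N782.ERGu (tailu nearu)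
open Pool.Agent.H180R1.RG (EZ_Bd_mono EZ_Bd_nonneg EZ_integrable EZ_sum_int)

noncomputable section

/-- Mellin transform in `t`, truncation in `k` (adapt `ER1`) -/
theorem ERGv (F : ℝ → ℝ) (hF : TF F) (c : ℝ) (hc : 0 < c)
    (s θ η D : ℝ) (hs : 1 / 2 ≤ s) (hs1 : s < 1) (hθ : 0 < θ) (hθ1 : θ < 1) (hη : 0 < η) (A : ℕ)
    (hA : 2 ≤ A) :
    ∃ C : ℝ, 0 < C ∧ ∀ (b : ℤ → ℝ), (∀ k, |b k| ≤ 1) → ∀ (c0 : ℝ), c0 ≠ 0 → ∀ (q : ℕ),
      ∀ L : ℝ, 1 ≤ L → ∀ (w1 w2 Q1 Q2 : ℝ → ℝ) (B1 B2 B3 B4 : ℝ) (K0 : ℕ),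
      Wt s w1 → Wt s w2 → Wt θ Q1 → Wt θ Q2 → Bd 1 w1 B1 → Bd 1 w2 B2 → Bd 1 Q1 B3 → Bd 1 Q2 B4 →
      Real.exp ((2 * s + 2 * θ - 1 + η) * L) / |c0| ≤ K0 →
      |∑' a : Fin 4 → ℕ, t4c q a * w4 L w1 w2 Q1 Q2 a * Dng F b c0 (c * Real.exp L) (∏ i, a i)| ≤
        C * (|c0| ^ 2)⁻¹ * B1 * B2 * B3 * B4 * Real.exp (-(D * L)) +
        C * |c0| ^ (-(1 / 2) : ℝ) * Real.exp (-(L / 2)) * ∑ k ∈ (Icc (-(K0 : ℤ)) K0).filter (fun k => ¬ IsSquare k ∧ b k ≠ 0),
          (k.natAbs : ℝ) ^ (-(1 / 2) : ℝ) *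
            ∫ t : ℝ, ((1 + |t|) ^ A)⁻¹ * ‖RR q L w1 w2 Q1 Q2 k t‖ := by
  obtain ⟨m, hm⟩ := exists_nat_ge ((D + 10) / η)
  have hm' : D + 10 ≤ m * η := by rwa [div_le_iff₀ hη] at hm
  obtain ⟨C1, hC10, hC1⟩ := tailu F hF m
  obtain ⟨C2, hC20, hC2⟩ := nearu F hF c hc A hA
  set C3 : ℝ := C1 * (1 / c) ^ 2 * (c ^ m)⁻¹ with hC3
  have hC30 : 0 ≤ C3 := by positivity
  refine ⟨C3 + C2 + 1, by positivity, ?_⟩
  intro b hb c0 hc0 q L hL w1 w2 Q1 Q2 B1 B2 B3 B4 K0 h1 h2 h3 h4 b1 b2 b3 b4 hK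
  have hc0' : 0 < |c0| := abs_pos.2 hc0
  have n1 := bd_nonneg b1
  have n2 := bd_nonneg b2
  have n3 := bd_nonneg b3
  have n4 := bd_nonneg b4
  set X : ℝ := c * Real.exp L with hX
  have hX0 : 0 < X := by positivity
  set T : (Fin 4 → ℕ) → ℝ := fun a => t4c q a * w4 L w1 w2 Q1 Q2 a with hT
  have hTabs : ∀ a, |T a| ≤ B1 * B2 * B3 * B4 := by
    intro a
    simp only [hT]
    rw [abs_mul]
    calc |t4c q a| * |w4 L w1 w2 Q1 Q2 a| ≤ 1 * (B1 * B2 * B3 * B4) :=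
          mul_le_mul (t4c_abs q a) (w4_abs b1 b2 b3 b4 L a) (abs_nonneg _) (by norm_num)
      _ = _ := one_mul _
  have hTne : ∀ a, T a ≠ 0 → (∀ i, a i ≠ 0) ∧ w4 L w1 w2 Q1 Q2 a ≠ 0 := by
    intro a ha
    simp only [hT] at ha
    exact ⟨t4c_ne (left_ne_zero_of_mul ha), right_ne_zero_of_mul ha⟩
  have hstep1 : ∑' a : Fin 4 → ℕ, t4c q a * w4 L w1 w2 Q1 Q2 a * Dng F b c0 X (∏ i, a i) =
      ∑ a ∈ bx L, T a * Dng F b c0 X (∏ i, a i) := by
    apply tsum_eq_sum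
    intro a ha
    by_contra hne
    apply ha
    have hTa : T a ≠ 0 := left_ne_zero_of_mul hne
    obtain ⟨e1, e2⟩ := hTne a hTa
    exact mem_bx hL hs1 hθ1 h1 h2 h3 h4 e1 e2
  have hstep2 : ∀ a ∈ bx L, T a * Dng F b c0 X (∏ i, a i) =
      T a * ((∑' k, gs F b c0 X (∏ i, a i) k - ∑ k ∈ Icc (-(K0 : ℤ)) K0, gs F b c0 X (∏ i, a i) k) /
        ((∏ i, a i : ℕ) : ℝ)) +
      ∑ k ∈ Icc (-(K0 : ℤ)) K0, T a * (gs F b c0 X (∏ i, a i) k / ((∏ i, a i : ℕ) : ℝ)) := by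
    intro a _
    have hD : Dng F b c0 X (∏ i, a i) = (∑' k, gs F b c0 X (∏ i, a i) k) /
        ((∏ i, a i : ℕ) : ℝ) := rfl
    rw [hD, ← mul_sum, ← sum_div]
    ring
  rw [hstep1, sum_congr rfl hstep2, sum_add_distrib, sum_comm (s := bx L)]
  refine (abs_add_le _ _).trans (add_le_add ?_ ?_)
  · -- far part
    have hfar : ∀ a ∈ bx L, |T a * ((∑' k, gs F b c0 X (∏ i, a i) k -
        ∑ k ∈ Icc (-(K0 : ℤ)) K0, gs F b c0 X (∏ i, a i) k) / ((∏ i, a i : ℕ) : ℝ))| ≤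
        (B1 * B2 * B3 * B4) * ((|c0| ^ 2)⁻¹ * C3 * Real.exp ((6 - m * η) * L)) := by
      intro a _
      by_cases hTa : T a = 0
      · rw [hTa, zero_mul, abs_zero]
        positivity
      obtain ⟨e1, e2⟩ := hTne a hTa
      have hn1 : 1 ≤ ∏ i, a i := one_le_prod e1
      have hnle := prod_le hL h1 h2 h3 h4 e1 e2
      set n : ℕ := ∏ i, a i with hn
      have hn0 : (0 : ℝ) < n := by exact_mod_cast hn1
      have hV0 : 0 < c * Real.exp (η * L) := by positivity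
      have hVK : c * Real.exp (η * L) ≤ K0 * (|c0| * X / n) := by
        have e3 : Real.exp ((2 * s + 2 * θ - 1 + η) * L) / |c0| * (|c0| * X / n) ≤
            K0 * (|c0| * X / n) :=
          mul_le_mul_of_nonneg_right hK (by positivity)
        refine le_trans ?_ e3
        have e4 : |c0| * X / Real.exp ((2 * s + 2 * θ) * L) ≤ |c0| * X / n :=
          div_le_div_of_nonneg_left (by positivity) (by positivity) hnle
        refine le_trans (le_of_eq ?_) (mul_le_mul_of_nonneg_left e4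
          (div_nonneg (Real.exp_pos _).le hc0'.le))
        rw [hX, mul_div_assoc', eq_div_iff (by positivity)]
        have e5 : Real.exp ((2 * s + 2 * θ - 1 + η) * L) * Real.exp L =
            Real.exp (η * L) * Real.exp ((2 * s + 2 * θ) * L) := by
          rw [← Real.exp_add, ← Real.exp_add]; congr 1; ring
        have e9 : Real.exp ((2 * s + 2 * θ - 1 + η) * L) / |c0| * (|c0| * (c * Real.exp L)) =
            c * (Real.exp ((2 * s + 2 * θ - 1 + η) * L) * Real.exp L) := by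
          rw [div_mul_eq_mul_div, div_eq_iff hc0'.ne']
          ring
        rw [e9, e5]
        ring
      have hb' := hC1 b hb c0 hc0 X n K0 (c * Real.exp (η * L)) hX0 hn1 hV0 hVK
      have hratio : (n : ℝ) / (|c0| * X) ≤ (1 / (|c0| * c)) * Real.exp (3 * L) := by
        rw [div_le_iff₀ (by positivity), hX]
        have e6 : (n : ℝ) ≤ Real.exp (4 * L) := by
          refine hnle.trans (Real.exp_le_exp.2 ?_)
          nlinarith
        have e7 : (1 / (|c0| * c)) * Real.exp (3 * L) * (|c0| * (c * Real.exp L)) =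
            Real.exp (4 * L) := by
          have : Real.exp (4 * L) = Real.exp (3 * L) * Real.exp L := by
            rw [← Real.exp_add]; congr 1; ring
          rw [this]
          field_simp
        rw [e7]
        exact e6
      rw [abs_mul, abs_div, abs_of_pos (a := (n : ℝ)) (by positivity)]
      apply mul_le_mul (hTabs a) _ (by positivity) (by positivity)
      rw [div_le_iff₀ (by positivity)]
      refine hb'.trans ?_
      calc C1 * n * (n / (|c0| * X)) ^ 2 * ((c * Real.exp (η * L)) ^ m)⁻¹ ≤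
          C1 * n * ((1 / (|c0| * c)) * Real.exp (3 * L)) ^ 2 * ((c * Real.exp (η * L)) ^ m)⁻¹ := by
            gcongr
        _ = (|c0| ^ 2)⁻¹ * C3 * Real.exp ((6 - m * η) * L) * n := by
            have e8 : Real.exp ((6 - m * η) * L) = Real.exp (3 * L) ^ 2 * (Real.exp (η * L) ^ m)⁻¹ := by
              rw [← Real.exp_nat_mul, ← Real.exp_nat_mul, ← Real.exp_neg, ← Real.exp_add]
              congr 1
              push_cast
              ring
            rw [hC3, e8, mul_pow, mul_pow, mul_inv, one_div, one_div, mul_inv, mul_pow, inv_pow,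
              inv_pow]
            ring
    calc |∑ a ∈ bx L, T a * ((∑' k, gs F b c0 X (∏ i, a i) k -
        ∑ k ∈ Icc (-(K0 : ℤ)) K0, gs F b c0 X (∏ i, a i) k) / ((∏ i, a i : ℕ) : ℝ))| ≤
        ∑ a ∈ bx L, (B1 * B2 * B3 * B4) * ((|c0| ^ 2)⁻¹ * C3 * Real.exp ((6 - m * η) * L)) :=
          (abs_sum_le_sum_abs _ _).trans (sum_le_sum hfar)
      _ = (bx L).card * ((B1 * B2 * B3 * B4) * ((|c0| ^ 2)⁻¹ * C3 * Real.exp ((6 - m * η) * L))) := by
          rw [sum_const, nsmul_eq_mul]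
      _ ≤ Real.exp (4 * L) * ((B1 * B2 * B3 * B4) * ((|c0| ^ 2)⁻¹ * C3 *
            Real.exp ((6 - m * η) * L))) :=
          mul_le_mul_of_nonneg_right (card_bx L) (by positivity)
      _ = C3 * ((|c0| ^ 2)⁻¹ * (B1 * B2 * B3 * B4)) * Real.exp ((10 - m * η) * L) := by
          have : Real.exp ((10 - m * η) * L) = Real.exp (4 * L) * Real.exp ((6 - m * η) * L) := by
            rw [← Real.exp_add]; congr 1; ring
          rw [this]; ring
      _ ≤ C3 * ((|c0| ^ 2)⁻¹ * (B1 * B2 * B3 * B4)) * Real.exp (-(D * L)) := by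
          apply mul_le_mul_of_nonneg_left _ (by positivity)
          apply Real.exp_le_exp.2
          nlinarith
      _ ≤ (C3 + C2 + 1) * ((|c0| ^ 2)⁻¹ * (B1 * B2 * B3 * B4)) * Real.exp (-(D * L)) := by
          apply mul_le_mul_of_nonneg_right _ (by positivity)
          apply mul_le_mul_of_nonneg_right _ (by positivity)
          linarith
      _ = (C3 + C2 + 1) * (|c0| ^ 2)⁻¹ * B1 * B2 * B3 * B4 * Real.exp (-(D * L)) := by ring
  · -- near part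
    have hfil : ∑ k ∈ Icc (-(K0 : ℤ)) K0, ∑ a ∈ bx L, T a * (gs F b c0 X (∏ i, a i) k /
        ((∏ i, a i : ℕ) : ℝ)) =
        ∑ k ∈ (Icc (-(K0 : ℤ)) K0).filter (fun k => ¬ IsSquare k ∧ b k ≠ 0), ∑ a ∈ bx L, T a *
        (gs F b c0 X (∏ i, a i) k / ((∏ i, a i : ℕ) : ℝ)) := by
      rw [sum_filter]
      apply sum_congr rfl
      intro k _
      by_cases hk : ¬ IsSquare k ∧ b k ≠ 0
      · rw [if_pos hk]
      · rw [if_neg hk]
        apply sum_eq_zero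
        intro a _
        unfold gs
        by_cases hk2 : IsSquare k
        · rw [if_pos hk2]
          simp
        · have hb0 : b k = 0 := by
            by_contra hne
            exact hk ⟨hk2, hne⟩
          rw [if_neg hk2, hb0]
          simp
    rw [hfil, mul_sum]
    refine (abs_sum_le_sum_abs _ _).trans (sum_le_sum fun k hk => ?_)
    have hk' := (mem_filter.1 hk).2.1
    refine (hC2 b hb c0 hc0 s θ L hL hs1 hθ1 w1 w2 Q1 Q2 h1 h2 h3 h4 q k hk').trans ?_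
    apply mul_le_mul_of_nonneg_right
    · apply mul_le_mul_of_nonneg_right _ (Real.exp_pos _).le
      apply mul_le_mul_of_nonneg_right _ (by positivity)
      linarith
    · have : 0 ≤ ∫ t : ℝ, ((1 + |t|) ^ A)⁻¹ * ‖RR q L w1 w2 Q1 Q2 k t‖ :=
        integral_nonneg (fun t => by positivity)
      positivity

/-- `b` on the multiples of `e` -/
def bg (b : ℤ → ℝ) (e : ℕ) (k : ℤ) : ℝ := if (e : ℤ) ∣ k then b k else 0

theorem bg_abs {b : ℤ → ℝ} (hb : ∀ k, |b k| ≤ 1) (e : ℕ) (k : ℤ) : |bg b e k| ≤ 1 := by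
  unfold bg
  split_ifs
  · exact hb k
  · simp

theorem bg_ne {b : ℤ → ℝ} {e : ℕ} {k : ℤ} (h : bg b e k ≠ 0) : (e : ℤ) ∣ k := by
  by_contra hc
  exact h (by unfold bg; rw [if_neg hc])

/-- the non-squares, on average -/
theorem EZGv (F : ℝ → ℝ) (hF : TF F) (c : ℝ) (hc : 0 < c) (s θ : ℝ) (hA : Adm2 s θ)
    (κ : ℝ) (hκ : 0 < κ) (hκ1 : κ ≤ 1) (b : ℤ → ℝ) (hb : ∀ k, |b k| ≤ 1) (c1 : ℝ) (hc1 : c1 ≠ 0)
    (hc1' : |c1| ≤ 1) :
    ∃ (C : ℝ) (A : ℕ), 0 < C ∧ ∀ L : ℝ, 1 ≤ L → ∀ D : ℝ, 1 ≤ D → D ≤ Real.exp L →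
      ∀ (S : Finset ℕ), (∀ e ∈ S, Squarefree e ∧ (e : ℝ) ≤ D) →
      ∀ (w1 w2 Q1 Q2 : ℝ → ℝ) (B1 B2 B3 B4 : ℝ),
      Wt s w1 → Wt s w2 → Wt θ Q1 → Wt θ Q2 → Bd A w1 B1 → Bd A w2 B2 → Bd A Q1 B3 → Bd A Q2 B4 →
      ∑ e ∈ S, 1 / (e : ℝ) * |∑' a : Fin 4 → ℕ, t4c (2 * e) a * w4 L w1 w2 Q1 Q2 a *
          Dng F (bg b e) (c1 / (e : ℝ) ^ 2) (c * Real.exp L) (∏ i, a i)| ≤
        C * (B1 * B2 * B3 * B4) * Real.exp (κ * L) *
          (D * Real.exp ((s + θ - 1) * L) + Real.exp ((θ - 1 / 2) * L)) := by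
  have hs := hA.hs
  have hθ := hA.hθ
  have hθ1 := hA.hθ1
  have hm := hA.main
  have hs1 : s < 1 := by linarith
  have hc1p : 0 < |c1| := abs_pos.2 hc1
  set ε : ℝ := κ / 64 with hε
  have hε0 : 0 < ε := by positivity
  obtain ⟨C2, A2, hC2, hEY⟩ := Pool.Agent.N782.RA.avg ε hε0
  obtain ⟨C1, hC1, hER1⟩ := ERGv F hF c hc s θ κ 9 hs hs1 hθ (by linarith)
    hκ (A2 + 2) (by omega)
  set J : ℝ := ∫ t : ℝ, ((1 + |t|) ^ 2)⁻¹ with hJ
  have hJ0 : 0 ≤ J := integral_nonneg fun t => by positivity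
  set g : ℝ := |c1| ^ (-(1 / 2) : ℝ) with hg
  have hg0 : 0 < g := by positivity
  refine ⟨C1 * (|c1| ^ 2)⁻¹ + C1 * g * (C2 * J) * (8 * (1 + g)) * |c1| ^ (-ε), A2 + 1, by positivity, ?_⟩
  intro L hL D hD1 hDL S hS w1 w2 Q1 Q2 B1 B2 B3 B4 hw1 hw2 hQ1 hQ2 hB1 hB2 hB3 hB4
  have b1 := EZ_Bd_nonneg hB1
  have b2 := EZ_Bd_nonneg hB2
  have b3 := EZ_Bd_nonneg hB3
  have b4 := EZ_Bd_nonneg hB4
  have hL0 : 0 ≤ L := by linarith
  have hD0 : 0 < D := by linarith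
  have Wmono : ∀ w : ℝ → ℝ, Wt s w → Wt 1 w := fun w hw =>
    ⟨hw.smooth, fun y hy => ⟨(hw.supp y hy).1, (hw.supp y hy).2.trans hs1.le⟩⟩
  set B : ℝ := B1 * B2 * B3 * B4 with hB
  have hB0 : 0 ≤ B := by positivity
  -- the common truncation
  set K : ℝ := Real.exp ((2 * s + 2 * θ - 1 + κ) * L) * D ^ 2 / |c1| with hK
  set K0 : ℕ := ⌈K⌉₊ with hK0
  have hKge : K ≤ K0 := Nat.le_ceil K
  have hK1 : 1 ≤ K := by
    rw [hK, one_le_div hc1p]
    refine hc1'.trans ?_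
    have h1 : 1 ≤ Real.exp ((2 * s + 2 * θ - 1 + κ) * L) := by
      rw [Real.one_le_exp_iff]
      apply mul_nonneg (by linarith) hL0
    have h2 : 1 ≤ D ^ 2 := one_le_pow₀ hD1
    nlinarith
  have hK01 : 1 ≤ K0 := by
    have : (1 : ℝ) ≤ K0 := hK1.trans hKge
    exact_mod_cast this
  have hKle : (K0 : ℝ) ≤ 2 * K := by
    have := Nat.ceil_lt_add_one (a := K) (by linarith)
    rw [← hK0] at this
    linarith
  have hK0pos : (0 : ℝ) < K0 := by exact_mod_cast hK01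
  have hKpos : 0 < K := by linarith
  -- the integrand
  set RS : ℕ → ℝ := fun e => ∑ k ∈ (Icc (-(K0 : ℤ)) K0).filter (fun k => ¬ IsSquare k ∧ bg b e k ≠ 0),
          (k.natAbs : ℝ) ^ (-(1 / 2) : ℝ) *
            ∫ t : ℝ, ((1 + |t|) ^ (A2 + 2))⁻¹ * ‖RR (2 * e) L w1 w2 Q1 Q2 k t‖ with hRS
  have hone : ∀ e ∈ S, 1 / (e : ℝ) * |∑' a : Fin 4 → ℕ, t4c (2 * e) a * w4 L w1 w2 Q1 Q2 a *
          Dng F (bg b e) (c1 / (e : ℝ) ^ 2) (c * Real.exp L) (∏ i, a i)| ≤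
      C1 * (|c1| ^ 2)⁻¹ * B * (D ^ 3 * Real.exp (-(9 * L))) +
        C1 * g * Real.exp (-(L / 2)) * RS e := by
    intro e he
    obtain ⟨hsq, heD⟩ := hS e he
    have he0 : e ≠ 0 := hsq.ne_zero
    have heR : (1 : ℝ) ≤ e := by exact_mod_cast Nat.one_le_iff_ne_zero.2 he0
    have hep : (0 : ℝ) < e := by linarith
    have hce : c1 / (e : ℝ) ^ 2 ≠ 0 := div_ne_zero hc1 (by positivity)
    have habs : |c1 / (e : ℝ) ^ 2| = |c1| / (e : ℝ) ^ 2 := by
      rw [abs_div, abs_of_pos (by positivity : (0 : ℝ) < (e : ℝ) ^ 2)]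
    have hKe : Real.exp ((2 * s + 2 * θ - 1 + κ) * L) / |c1 / (e : ℝ) ^ 2| ≤ K0 := by
      refine le_trans ?_ hKge
      rw [habs, hK, div_div_eq_mul_div]
      gcongr
    have h1 := hER1 (bg b e) (bg_abs hb e) (c1 / (e : ℝ) ^ 2) hce (2 * e) L hL w1 w2 Q1 Q2 B1 B2 B3
      B4 K0 hw1 hw2 hQ1 hQ2 (EZ_Bd_mono (by omega) hB1) (EZ_Bd_mono (by omega) hB2)
      (EZ_Bd_mono (by omega) hB3) (EZ_Bd_mono (by omega) hB4) hKe
    rw [habs] at h1
    have hpow : (|c1| / (e : ℝ) ^ 2) ^ (-(1 / 2) : ℝ) = g * e := by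
      rw [Real.div_rpow hc1p.le (by positivity), ← Real.rpow_natCast (e : ℝ) 2,
        ← Real.rpow_mul hep.le, hg]
      norm_num
      rw [Real.rpow_neg_one, div_inv_eq_mul]
    have hpow2 : ((|c1| / (e : ℝ) ^ 2) ^ 2)⁻¹ = (|c1| ^ 2)⁻¹ * (e : ℝ) ^ 4 := by
      field_simp
    rw [hpow, hpow2] at h1
    have hRS0 : 0 ≤ RS e := by
      simp only [hRS]
      refine sum_nonneg fun k _ => mul_nonneg (by positivity) (integral_nonneg fun t => by positivity)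
    calc 1 / (e : ℝ) * _ ≤ 1 / (e : ℝ) * (C1 * ((|c1| ^ 2)⁻¹ * (e : ℝ) ^ 4) * B1 * B2 * B3 * B4 *
          Real.exp (-(9 * L)) + C1 * (g * e) * Real.exp (-(L / 2)) * RS e) := by
          apply mul_le_mul_of_nonneg_left h1 (by positivity)
      _ = C1 * (|c1| ^ 2)⁻¹ * B * ((e : ℝ) ^ 3 * Real.exp (-(9 * L))) +
          C1 * g * Real.exp (-(L / 2)) * RS e := by
          rw [hB]
          field_simp
      _ ≤ _ := by
          gcongr
  -- the sum over `e`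
  set M : ℝ := C2 * B * (K0 : ℝ) ^ ε * Real.exp (ε * L) *
          ((K0 : ℝ) ^ (1 / 2 : ℝ) + Real.exp (θ * L)) with hM
  have hRSsum : ∑ e ∈ S, RS e ≤ M * J := by
    have e0 : ∑ e ∈ S, RS e = ∑ x ∈ S.sigma (fun e => (Icc (-(K0 : ℤ)) K0).filter
        (fun k => ¬ IsSquare k ∧ bg b e k ≠ 0)), (x.2.natAbs : ℝ) ^ (-(1 / 2) : ℝ) *
            ∫ t : ℝ, ((1 + |t|) ^ (A2 + 2))⁻¹ * ‖RR (2 * x.1) L w1 w2 Q1 Q2 x.2 t‖ := by
      rw [Finset.sum_sigma]
    have e : M * J = ∫ t : ℝ, M * ((1 + |t|) ^ 2)⁻¹ := by rw [integral_const_mul]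
    rw [e0, e]
    apply EZ_sum_int
    · intro k; positivity
    · intro k t; positivity
    · exact EZ_integrable.const_mul _
    · intro t
      rw [Finset.sum_sigma]
      have hk := hEY θ L t w1 w2 Q1 Q2 B1 B2 B3 B4 K0 hθ (by linarith) hL hK01 (Wmono _ hw1)
        (Wmono _ hw2) hQ1 hQ2 (EZ_Bd_mono (by omega) hB1) (EZ_Bd_mono (by omega) hB2)
        (EZ_Bd_mono (by omega) hB3) (EZ_Bd_mono (by omega) hB4) S (fun e he => (hS e he).1)
      have hp : 0 < 1 + |t| := by positivity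
      calc ∑ e ∈ S, ∑ k ∈ (Icc (-(K0 : ℤ)) K0).filter (fun k => ¬ IsSquare k ∧ bg b e k ≠ 0),
            (k.natAbs : ℝ) ^ (-(1 / 2) : ℝ) *
              (((1 + |t|) ^ (A2 + 2))⁻¹ * ‖RR (2 * e) L w1 w2 Q1 Q2 k t‖)
          ≤ ∑ e ∈ S, ∑ k ∈ (Icc (-(K0 : ℤ)) K0).filter (fun k => ¬ IsSquare k ∧ (e : ℤ) ∣ k),
            (k.natAbs : ℝ) ^ (-(1 / 2) : ℝ) *
              (((1 + |t|) ^ (A2 + 2))⁻¹ * ‖RR (2 * e) L w1 w2 Q1 Q2 k t‖) := by
            refine sum_le_sum fun e _ => ?_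
            refine sum_le_sum_of_subset_of_nonneg ?_ fun k _ _ => by positivity
            intro k hk
            rw [mem_filter] at hk ⊢
            exact ⟨hk.1, hk.2.1, bg_ne hk.2.2⟩
        _ = ((1 + |t|) ^ (A2 + 2))⁻¹ * ∑ e ∈ S, ∑ k ∈ (Icc (-(K0 : ℤ)) K0).filter
              (fun k => ¬ IsSquare k ∧ (e : ℤ) ∣ k),
            (k.natAbs : ℝ) ^ (-(1 / 2) : ℝ) * ‖RR (2 * e) L w1 w2 Q1 Q2 k t‖ := by
            rw [Finset.mul_sum]
            refine Finset.sum_congr rfl fun e _ => ?_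
            rw [Finset.mul_sum]
            refine Finset.sum_congr rfl fun k _ => ?_
            ring
        _ ≤ ((1 + |t|) ^ (A2 + 2))⁻¹ * (C2 * (1 + |t|) ^ A2 * B1 * B2 * B3 * B4 *
            (K0 : ℝ) ^ ε * Real.exp (ε * L) *
            ((K0 : ℝ) ^ (1 / 2 : ℝ) + Real.exp (θ * L))) := by
            gcongr
        _ = M * ((1 + |t|) ^ 2)⁻¹ := by
            rw [hM, hB, pow_add]
            field_simp
  -- the exponents
  have hr1 : K ^ (1 / 2 : ℝ) = Real.exp ((s + θ - 1 / 2 + κ / 2) * L) * D * g := by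
    rw [hK, Real.div_rpow (by positivity) hc1p.le, Real.mul_rpow (Real.exp_pos _).le (by positivity),
      ← Real.exp_mul, ← Real.rpow_natCast D 2, ← Real.rpow_mul hD0.le, hg, Real.rpow_neg hc1p.le,
      div_eq_mul_inv]
    have e1 : ((2 : ℕ) : ℝ) * (1 / 2) = 1 := by norm_num
    have e2 : (2 * s + 2 * θ - 1 + κ) * L * (1 / 2) = (s + θ - 1 / 2 + κ / 2) * L := by ring
    rw [e1, e2, Real.rpow_one]
  have two_pow : ∀ x : ℝ, x ≤ 1 → (2 : ℝ) ^ x ≤ 2 := by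
    intro x hx
    calc (2 : ℝ) ^ x ≤ (2 : ℝ) ^ (1 : ℝ) := Real.rpow_le_rpow_of_exponent_le (by norm_num) hx
      _ = 2 := Real.rpow_one 2
  have r1 : (K0 : ℝ) ^ (1 / 2 : ℝ) ≤ 2 * (Real.exp ((s + θ - 1 / 2 + κ / 2) * L) * D * g) := by
    calc (K0 : ℝ) ^ (1 / 2 : ℝ) ≤ (2 * K) ^ (1 / 2 : ℝ) := by gcongr
      _ = (2 : ℝ) ^ (1 / 2 : ℝ) * K ^ (1 / 2 : ℝ) := by
          rw [Real.mul_rpow (by norm_num) hKpos.le]
      _ ≤ 2 * K ^ (1 / 2 : ℝ) := by
          gcongr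
          exact two_pow _ (by norm_num)
      _ = _ := by rw [hr1]
  have hKexp : K ≤ Real.exp (6 * L) / |c1| := by
    rw [hK]
    apply div_le_div_of_nonneg_right _ hc1p.le
    calc Real.exp ((2 * s + 2 * θ - 1 + κ) * L) * D ^ 2 ≤ Real.exp (4 * L) * (Real.exp L) ^ 2 := by
          gcongr
          linarith
      _ = Real.exp (6 * L) := by
          rw [← Real.exp_nat_mul, ← Real.exp_add]; congr 1; push_cast; ring
  have r2 : (K0 : ℝ) ^ ε ≤ 2 * Real.exp (6 * L * ε) * |c1| ^ (-ε) := by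
    calc (K0 : ℝ) ^ ε ≤ (2 * K) ^ ε := by gcongr
      _ = (2 : ℝ) ^ ε * K ^ ε := by
          rw [Real.mul_rpow (by norm_num) hKpos.le]
      _ ≤ 2 * (Real.exp (6 * L) / |c1|) ^ ε := by
          gcongr
          exact two_pow _ (by rw [hε]; linarith)
      _ = _ := by
          rw [Real.div_rpow (Real.exp_pos _).le hc1p.le, ← Real.exp_mul, Real.rpow_neg hc1p.le]
          ring
  set V : ℝ := D * Real.exp ((s + θ - 1) * L) + Real.exp ((θ - 1 / 2) * L) with hV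
  have hV0 : 0 < V := by positivity
  have r3 : Real.exp (-(L / 2)) * ((K0 : ℝ) ^ ε * Real.exp (ε * L) *
      ((K0 : ℝ) ^ (1 / 2 : ℝ) + Real.exp (θ * L))) ≤
      (8 * (1 + g)) * |c1| ^ (-ε) * (Real.exp (κ * L) * V) := by
    have h1 : (1 : ℝ) ≤ Real.exp (κ / 2 * L) := Real.one_le_exp (by positivity)
    calc Real.exp (-(L / 2)) * ((K0 : ℝ) ^ ε * Real.exp (ε * L) *
          ((K0 : ℝ) ^ (1 / 2 : ℝ) + Real.exp (θ * L)))
        ≤ Real.exp (-(L / 2)) * ((2 * Real.exp (6 * L * ε) * |c1| ^ (-ε)) * Real.exp (ε * L) *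
          (2 * (Real.exp ((s + θ - 1 / 2 + κ / 2) * L) * D * g) + Real.exp (θ * L))) := by
          gcongr
      _ = 2 * |c1| ^ (-ε) * Real.exp (7 * ε * L) *
          (2 * g * (D * Real.exp (-(L / 2) + (s + θ - 1 / 2 + κ / 2) * L)) +
            Real.exp (-(L / 2) + θ * L)) := by
          have e1 : Real.exp (7 * ε * L) = Real.exp (6 * L * ε) * Real.exp (ε * L) := by
            rw [← Real.exp_add]; congr 1; ring
          rw [e1, Real.exp_add (-(L / 2)), Real.exp_add (-(L / 2))]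
          ring
      _ = 2 * |c1| ^ (-ε) * Real.exp (7 * ε * L) *
          (2 * g * (D * (Real.exp (κ / 2 * L) * Real.exp ((s + θ - 1) * L))) +
            Real.exp ((θ - 1 / 2) * L)) := by
          have e2 : -(L / 2) + (s + θ - 1 / 2 + κ / 2) * L = κ / 2 * L + (s + θ - 1) * L := by ring
          have e3 : -(L / 2) + θ * L = (θ - 1 / 2) * L := by ring
          rw [e2, e3, Real.exp_add]
      _ ≤ 2 * |c1| ^ (-ε) * Real.exp (κ / 2 * L) *
          (2 * (1 + g) * (Real.exp (κ / 2 * L) * (D * Real.exp ((s + θ - 1) * L))) +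
            2 * (1 + g) * (Real.exp (κ / 2 * L) * Real.exp ((θ - 1 / 2) * L))) := by
          have h4 : 7 * ε ≤ κ / 2 := by rw [hε]; linarith
          have h5 : 2 * g * (D * (Real.exp (κ / 2 * L) * Real.exp ((s + θ - 1) * L))) ≤
              2 * (1 + g) * (Real.exp (κ / 2 * L) * (D * Real.exp ((s + θ - 1) * L))) := by
            have h6 : 0 ≤ Real.exp (κ / 2 * L) * (D * Real.exp ((s + θ - 1) * L)) := by positivity
            nlinarith
          have h7 : Real.exp ((θ - 1 / 2) * L) ≤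
              2 * (1 + g) * (Real.exp (κ / 2 * L) * Real.exp ((θ - 1 / 2) * L)) := by
            have h8 := Real.exp_pos ((θ - 1 / 2) * L)
            have h9 : 1 * Real.exp ((θ - 1 / 2) * L) ≤
                Real.exp (κ / 2 * L) * Real.exp ((θ - 1 / 2) * L) :=
              mul_le_mul_of_nonneg_right h1 h8.le
            nlinarith
          have h10 : Real.exp (7 * ε * L) ≤ Real.exp (κ / 2 * L) := by
            apply Real.exp_le_exp.2
            nlinarith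
          exact mul_le_mul (mul_le_mul_of_nonneg_left h10 (by positivity)) (add_le_add h5 h7)
            (by positivity) (by positivity)
      _ = (4 * (1 + g)) * |c1| ^ (-ε) * ((Real.exp (κ / 2 * L) * Real.exp (κ / 2 * L)) * V) := by
          rw [hV]; ring
      _ = (4 * (1 + g)) * |c1| ^ (-ε) * (Real.exp (κ * L) * V) := by
          have e4 : κ / 2 * L + κ / 2 * L = κ * L := by ring
          rw [← Real.exp_add, e4]
      _ ≤ _ := by
          have : 0 ≤ |c1| ^ (-ε) * (Real.exp (κ * L) * V) := by positivity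
          nlinarith
  have hcard : (S.card : ℝ) ≤ D := by
    have h1 : S ⊆ Icc 1 ⌊D⌋₊ := by
      intro e he
      obtain ⟨h2, h3⟩ := hS e he
      rw [mem_Icc]
      exact ⟨Nat.one_le_iff_ne_zero.2 h2.ne_zero, Nat.le_floor h3⟩
    have h2 : S.card ≤ ⌊D⌋₊ := by
      have := card_le_card h1
      rwa [Nat.card_Icc, Nat.add_sub_cancel] at this
    calc (S.card : ℝ) ≤ (⌊D⌋₊ : ℝ) := by exact_mod_cast h2
      _ ≤ D := Nat.floor_le hD0.le
  have r4 : D * (D ^ 3 * Real.exp (-(9 * L))) ≤ Real.exp (κ * L) * V := by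
    have h1 : (1 : ℝ) ≤ Real.exp (κ * L) := Real.one_le_exp (by positivity)
    calc D * (D ^ 3 * Real.exp (-(9 * L))) = D * D ^ 3 * Real.exp (-(9 * L)) := by ring
      _ ≤ D * (Real.exp L) ^ 3 * Real.exp (-(9 * L)) := by gcongr
      _ = D * Real.exp (-(6 * L)) := by
          rw [← Real.exp_nat_mul, mul_assoc, ← Real.exp_add]
          congr 2
          push_cast
          ring
      _ ≤ D * Real.exp ((s + θ - 1) * L) := by
          gcongr
          nlinarith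
      _ ≤ V := by
          rw [hV]
          have := Real.exp_pos ((θ - 1 / 2) * L)
          linarith
      _ ≤ _ := by nlinarith
  refine (sum_le_sum hone).trans ?_
  rw [sum_add_distrib, sum_const, nsmul_eq_mul, ← mul_sum]
  calc (S.card : ℝ) * (C1 * (|c1| ^ 2)⁻¹ * B * (D ^ 3 * Real.exp (-(9 * L)))) +
        C1 * g * Real.exp (-(L / 2)) * ∑ e ∈ S, RS e
      ≤ D * (C1 * (|c1| ^ 2)⁻¹ * B * (D ^ 3 * Real.exp (-(9 * L)))) +
        C1 * g * Real.exp (-(L / 2)) * (M * J) := by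
        gcongr
    _ = C1 * (|c1| ^ 2)⁻¹ * B * (D * (D ^ 3 * Real.exp (-(9 * L)))) +
        C1 * g * (C2 * J) * B * (Real.exp (-(L / 2)) * ((K0 : ℝ) ^ ε * Real.exp (ε * L) *
          ((K0 : ℝ) ^ (1 / 2 : ℝ) + Real.exp (θ * L)))) := by
        rw [hM]; ring
    _ ≤ C1 * (|c1| ^ 2)⁻¹ * B * (Real.exp (κ * L) * V) +
        C1 * g * (C2 * J) * B * ((8 * (1 + g)) * |c1| ^ (-ε) * (Real.exp (κ * L) * V)) := by
        gcongr
    _ = _ := by ring

end

end Pool.Agent.N782.RB
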