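import Pool.Agent.N782.RB
import Pool.Agent.N782.FEe
import Pool.Agent.H423R2.RGL.PG1
import Pool.Agent.H423R2.RGL.PG4
import Pool.Agent.H423R2.RGL.PG8
import Pool.Agent.H423R2.RGL.PH1
import Pool.Agent.H423R2.RGL.PH4
import Pool.Agent.H423R2.RGL.PH8
import Pool.Agent.H423R2.RGL.ZPG
import Pool.Agent.H423R2.RGL.FE3

set_option autoImplicit false

/-! Poisson summation for the multiples of an odd squarefree number, all families (helper782). -/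

namespace Pool.Agent.N782.G2

open Finset Filter Topology MeasureTheory Pool.Agent.H306R2.RZ Pool.Agent.H306R2.RG
open Pool.Agent.H306R2.RG.LnkA (bb8 bb4 bb1 bb2 FF1 gz Fme PG8 PG4 PG1 PH8 PH4 PH1)
open Pool.Agent.N782.RB (bg bg_abs bg_ne)
open Pool.Agent.N782.FE (gcd_cast Gk_sq_mul js_sq_one dvd_sq_iff EAg_const_mul)

noncomputable section

/-- the members divisible by `e` -/
def Fg (φ : FD) (e : ℕ) : FD := { φ with A := fun d => φ.A d ∧ e ∣ d }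

theorem EAf_eq (φ ψ : FD) {e : ℕ} (he0 : e ≠ 0) (hA : ∀ d, φ.A (e * d) ↔ ψ.A d) (F : ℝ → ℝ) {X : ℝ}
    (hX : 0 < X) (f : ℕ → ℝ) :
    (e : ℝ) * EAg (Fg φ e) F X f = EAg ψ F (X / e) (fun d => f (e * d)) := by
  classical
  have heR : (0 : ℝ) < e := by exact_mod_cast Nat.pos_of_ne_zero he0
  unfold EAg
  have hinj : Function.Injective (fun d : ℕ => e * d) := fun a b h =>
    Nat.eq_of_mul_eq_mul_left (Nat.pos_of_ne_zero he0) h
  have h1 : (∑' d : ℕ, if (Fg φ e).A d then F ((d : ℝ) / X) * f d else 0) =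
      ∑' d : ℕ, if ψ.A d then F ((d : ℝ) / (X / e)) * f (e * d) else 0 := by
    have h2 := Function.Injective.tsum_eq (f := fun d : ℕ =>
      if (Fg φ e).A d then F ((d : ℝ) / X) * f d else 0) hinj (by
        intro d hd
        rw [Function.mem_support] at hd
        have hA : (Fg φ e).A d := by
          by_contra hc
          exact hd (by simp only [if_neg hc])
        obtain ⟨k, hk⟩ := hA.2
        exact ⟨k, hk.symm⟩)
    rw [← h2]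
    refine tsum_congr fun d => ?_
    have hA' : (Fg φ e).A (e * d) ↔ ψ.A d := by
      constructor
      · intro h
        exact (hA d).1 h.1
      · intro h
        exact ⟨(hA d).2 h, dvd_mul_right _ _⟩
    have hx : (((e * d : ℕ)) : ℝ) / X = (d : ℝ) / (X / e) := by
      push_cast
      field_simp
    by_cases h : ψ.A d
    · rw [if_pos h, if_pos (hA'.2 h), hx]
    · rw [if_neg h, if_neg (fun h' => h (hA'.1 h'))]
  rw [h1]
  field_simp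

theorem EAf_js (φ ψ : FD) {e : ℕ} (he0 : e ≠ 0) (hA : ∀ d, φ.A (e * d) ↔ ψ.A d) (u : ℤ)
    (hu : φ.e * e = u * ψ.e) (F : ℝ → ℝ) {X : ℝ} (hX : 0 < X) (n : ℕ) :
    (e : ℝ) * EAg (Fg φ e) F X (fun d => js (φ.e * (d : ℤ)) n) =
      js u n * EAg ψ F (X / e) (fun d => js (ψ.e * (d : ℤ)) n) := by
  rw [EAf_eq φ ψ he0 hA F hX, ← EAg_const_mul]
  congr 1
  funext d
  rw [← Pool.Agent.H903R2.RGPG8.js_mul]
  congr 1
  push_cast
  rw [← mul_assoc, hu, mul_assoc]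

/-- change of variables on the dual side -/
theorem mult_sum (F : ℝ → ℝ) (b : ℤ → ℝ) {e : ℕ} (he0 : e ≠ 0) (σ : ℤ) (hσ : σ = 1 ∨ σ = -1)
    (c X : ℝ) {n : ℕ} (hn0 : n ≠ 0) (hc : Nat.Coprime n e) (τ : ℝ)
    (hb : ∀ k, b (σ * e * k) = τ * b k)
    (hs : Summable (fun k : ℤ => b k * Gk k n * Ft F ((σ : ℝ) * c * k * (X / e) / n))) :
    Summable (fun k : ℤ => bg b e k * Gk k n * Ft F (c / (e : ℝ) ^ 2 * k * X / n)) ∧
    (∑' k : ℤ, bg b e k * Gk k n * Ft F (c / (e : ℝ) ^ 2 * k * X / n)) =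
      τ * js (σ * e) n * ∑' k : ℤ, b k * Gk k n * Ft F ((σ : ℝ) * c * k * (X / e) / n) := by
  have heR : (0 : ℝ) < e := by exact_mod_cast Nat.pos_of_ne_zero he0
  have heZ : (e : ℤ) ≠ 0 := by exact_mod_cast he0
  have hσ0 : σ ≠ 0 := by rcases hσ with rfl | rfl <;> norm_num
  have hσσ : σ * σ = 1 := by rcases hσ with rfl | rfl <;> norm_num
  have hinj : Function.Injective (fun k : ℤ => σ * e * k) := fun a b h =>
    mul_left_cancel₀ (mul_ne_zero hσ0 heZ) h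
  have hg : Int.gcd (σ * e) n = 1 := by
    have h1 := gcd_cast hc
    rcases hσ with rfl | rfl
    · rw [one_mul]; exact h1
    · rw [neg_one_mul, Int.neg_gcd]; exact h1
  have hterm : ∀ k : ℤ, bg b e (σ * e * k) * Gk (σ * e * k) n *
      Ft F (c / (e : ℝ) ^ 2 * ((σ * e * k : ℤ) : ℝ) * X / n) =
      τ * js (σ * e) n * (b k * Gk k n * Ft F ((σ : ℝ) * c * k * (X / e) / n)) := by
    intro k
    have h1 : bg b e (σ * e * k) = τ * b k := by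
      unfold bg
      rw [if_pos ⟨σ * k, by ring⟩, hb]
    rw [h1, Pool.Agent.H957R2.RGPG.Gk_mul hn0 _ _ hg]
    have : c / (e : ℝ) ^ 2 * ((σ * e * k : ℤ) : ℝ) * X / n = (σ : ℝ) * c * k * (X / e) / n := by
      push_cast
      field_simp
    rw [this]
    ring
  have hsup : Function.support (fun k : ℤ => bg b e k * Gk k n *
      Ft F (c / (e : ℝ) ^ 2 * k * X / n)) ⊆ Set.range (fun k : ℤ => σ * e * k) := by
    intro k hk
    rw [Function.mem_support] at hk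
    have h1 : bg b e k ≠ 0 := by
      intro h0
      exact hk (by rw [h0]; simp)
    obtain ⟨m, hm⟩ := bg_ne h1
    refine ⟨σ * m, ?_⟩
    show σ * e * (σ * m) = k
    rw [hm]
    calc σ * e * (σ * m) = (σ * σ) * (e * m) := by ring
      _ = _ := by rw [hσσ, one_mul]
  refine ⟨?_, ?_⟩
  · have h1 : Summable ((fun k : ℤ => bg b e k * Gk k n *
        Ft F (c / (e : ℝ) ^ 2 * k * X / n)) ∘ (fun k : ℤ => σ * e * k)) := by
      refine (hs.mul_left (τ * js (σ * e) n)).congr fun k => ?_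
      exact (hterm k).symm
    refine (hinj.summable_iff ?_).1 h1
    intro k hk
    by_contra h
    exact hk (hsup h)
  · have h2 := hinj.tsum_eq hsup
    rw [← h2, ← tsum_mul_left]
    exact tsum_congr hterm

/-- the squares on the dual side -/
theorem sq_sum (F : ℝ → ℝ) (b : ℤ → ℝ) {e : ℕ} (hsq : Squarefree e)
    (hb : ∀ k, b ((e : ℤ) ^ 2 * k) = b k) (c X : ℝ) {n : ℕ} (hn0 : n ≠ 0) (hc : Nat.Coprime n e) :
    (∑' j : ℕ, bg b e (((j : ℤ) + 1) ^ 2) * Gk (((j : ℤ) + 1) ^ 2) n *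
        Ft F (c / (e : ℝ) ^ 2 * ((j : ℝ) + 1) ^ 2 * X / n)) =
      ∑' j : ℕ, b (((j : ℤ) + 1) ^ 2) * Gk (((j : ℤ) + 1) ^ 2) n *
        Ft F (c * ((j : ℝ) + 1) ^ 2 * X / n) := by
  have he0 : e ≠ 0 := hsq.ne_zero
  have hepos : 0 < e := Nat.pos_of_ne_zero he0
  have heR : (0 : ℝ) < e := by exact_mod_cast hepos
  have hinj : Function.Injective (fun i : ℕ => e * (i + 1) - 1) := by
    intro a b h
    have h1 : e * (a + 1) - 1 = e * (b + 1) - 1 := h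
    have h2 : 1 ≤ e * (a + 1) := Nat.mul_pos hepos (Nat.succ_pos _)
    have h3 : 1 ≤ e * (b + 1) := Nat.mul_pos hepos (Nat.succ_pos _)
    have h4 : e * (a + 1) = e * (b + 1) := by omega
    have := Nat.eq_of_mul_eq_mul_left hepos h4
    omega
  have h2 := hinj.tsum_eq (f := fun j : ℕ => bg b e (((j : ℤ) + 1) ^ 2) *
      Gk (((j : ℤ) + 1) ^ 2) n * Ft F (c / (e : ℝ) ^ 2 * ((j : ℝ) + 1) ^ 2 * X / n)) (by
    intro j hj
    rw [Function.mem_support] at hj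
    have hd : (e : ℤ) ∣ ((j : ℤ) + 1) ^ 2 := by
      by_contra hcon
      apply hj
      unfold bg
      rw [if_neg hcon, zero_mul, zero_mul]
    have hd2 : e ∣ (j + 1) := by
      refine (dvd_sq_iff hsq (j + 1)).1 ?_
      push_cast
      exact hd
    obtain ⟨m, hm⟩ := hd2
    have hm0 : m ≠ 0 := by rintro rfl; omega
    obtain ⟨i, rfl⟩ := Nat.exists_eq_succ_of_ne_zero hm0
    refine ⟨i, ?_⟩
    show e * (i + 1) - 1 = j
    have : e * (i + 1) = j + 1 := by rw [hm]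
    omega)
  rw [← h2]
  refine tsum_congr fun i => ?_
  have h3 : 1 ≤ e * (i + 1) := Nat.mul_pos hepos (Nat.succ_pos _)
  have h4 : (((e * (i + 1) - 1 : ℕ)) : ℤ) + 1 = (e : ℤ) * ((i : ℤ) + 1) := by
    rw [Nat.cast_sub h3]
    push_cast
    ring
  have h5 : (((e * (i + 1) - 1 : ℕ)) : ℝ) + 1 = (e : ℝ) * ((i : ℝ) + 1) := by
    rw [Nat.cast_sub h3]
    push_cast
    ring
  simp only [h4, h5]
  have h7 : ((e : ℤ) * ((i : ℤ) + 1)) ^ 2 = (e : ℤ) ^ 2 * ((i : ℤ) + 1) ^ 2 := by ring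
  have h8 : bg b e (((e : ℤ) * ((i : ℤ) + 1)) ^ 2) = b (((i : ℤ) + 1) ^ 2) := by
    unfold bg
    rw [if_pos ⟨(e : ℤ) * ((i : ℤ) + 1) ^ 2, by ring⟩, h7, hb]
  rw [h8, h7, Gk_sq_mul hn0 hc]
  congr 2
  field_simp

/-- Poisson summation for the multiples of `e` -/
structure PGf (φ : FD) (b1 b2 : ℤ → ℝ) (c1 c2 g1 g2 : ℝ) : Prop where
  hA : ∀ d, φ.A d → Odd d
  hb1 : ∀ k, |b1 k| ≤ 1
  hb2 : ∀ k, |b2 k| ≤ 1
  hc1 : c1 ≠ 0 ∧ |c1| ≤ 1
  hc2 : c2 ≠ 0 ∧ |c2| ≤ 1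
  h0 : g1 * b1 0 + g2 * b2 0 = φ.δ
  s1 : ∀ e : ℕ, Odd e → ∀ k, b1 ((e : ℤ) ^ 2 * k) = b1 k
  s2 : ∀ e : ℕ, Odd e → ∀ k, b2 ((e : ℤ) ^ 2 * k) = b2 k
  pg : ∀ F : ℝ → ℝ, TF F → ∀ e : ℕ, Odd e → ∀ X : ℝ, 0 < X → ∀ n : ℕ, Odd n → Nat.Coprime n e →
    Summable (fun k : ℤ => bg b1 e k * Gk k n * Ft F (c1 / (e : ℝ) ^ 2 * k * X / n)) ∧
    Summable (fun k : ℤ => bg b2 e k * Gk k n * Ft F (c2 / (e : ℝ) ^ 2 * k * X / n)) ∧
    (e : ℝ) * EAg (Fg φ e) F X (fun d => js (φ.e * (d : ℤ)) n) =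
      g1 * ((∑' k : ℤ, bg b1 e k * Gk k n * Ft F (c1 / (e : ℝ) ^ 2 * k * X / n)) / n) +
      g2 * ((∑' k : ℤ, bg b2 e k * Gk k n * Ft F (c2 / (e : ℝ) ^ 2 * k * X / n)) / n)

/-- the squares on the dual side -/
def SqP (F : ℝ → ℝ) (b1 b2 : ℤ → ℝ) (c1 c2 g1 g2 : ℝ) (H : ℂ → ℂ) : Prop :=
  ∀ X : ℝ, 0 < X → ∀ n : ℕ, Odd n → ∀ σ0 : ℝ, 1 / 2 < σ0 → σ0 ≤ 1 →
    ((g1 * ((∑' j : ℕ, b1 (((j : ℤ) + 1) ^ 2) * Gk (((j : ℤ) + 1) ^ 2) n *
        Ft F (c1 * ((j : ℝ) + 1) ^ 2 * X / n)) / n) +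
      g2 * ((∑' j : ℕ, b2 (((j : ℤ) + 1) ^ 2) * Gk (((j : ℤ) + 1) ^ 2) n *
        Ft F (c2 * ((j : ℝ) + 1) ^ 2 * X / n)) / n) : ℝ) : ℂ) = Dsg H X n σ0

/-- the decomposition -/
theorem dec_of {φ : FD} {b1 b2 : ℤ → ℝ} {c1 c2 g1 g2 : ℝ} (hP : PGf φ b1 b2 c1 c2 g1 g2)
    {F : ℝ → ℝ} (hF : TF F) {H : ℂ → ℂ} (hS : SqP F b1 b2 c1 c2 g1 g2 H) {e : ℕ} (he : Odd e)
    (hsq : Squarefree e) {X : ℝ} (hX : 0 < X) {n : ℕ} (hn : Odd n) (hc : Nat.Coprime n e)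
    {σ0 : ℝ} (h0 : 1 / 2 < σ0) (h1 : σ0 ≤ 1) :
    (((e : ℝ) * EAg (Fg φ e) F X (fun d => js (φ.e * (d : ℤ)) n) : ℝ) : ℂ) =
        ((φ.δ * Ft F 0 * (if IsSquare n then (n.totient : ℝ) / n else 0) : ℝ) : ℂ) +
        Dsg H X n σ0 + ((g1 * Dng F (bg b1 e) (c1 / (e : ℝ) ^ 2) X n +
          g2 * Dng F (bg b2 e) (c2 / (e : ℝ) ^ 2) X n : ℝ) : ℂ) := by
  have hn0 : n ≠ 0 := by rintro rfl; exact absurd hn (by decide)
  obtain ⟨t1, t2, hE⟩ := hP.pg F hF e he X hX n hn hc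
  have hbe : ∀ b : ℤ → ℝ, bg b e 0 = b 0 := by
    intro b
    unfold bg
    rw [if_pos (dvd_zero _)]
  rw [hE, Pool.Agent.H699R2.RG_DEC.gen_split F (bg b1 e) _ X n hn t1,
    Pool.Agent.H699R2.RG_DEC.gen_split F (bg b2 e) _ X n hn t2, hbe, hbe,
    sq_sum F b1 hsq (hP.s1 e he) c1 X hn0 hc, sq_sum F b2 hsq (hP.s2 e he) c2 X hn0 hc,
    ← hS X hX n hn σ0 h0 h1, ← hP.h0]
  push_cast
  ring

end

end Pool.Agent.N782.G2
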