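import Pool.Agent.N782.RC

set_option autoImplicit false

/-! Poisson summation for the multiples of an odd squarefree number: the families (helper782). -/

namespace Pool.Agent.N782.G2

open Finset Filter Topology MeasureTheory Pool.Agent.H306R2.RZ Pool.Agent.H306R2.RG
open Pool.Agent.H306R2.RG.LnkA (bb8 bb4 bb1 bb2 FF1 gz Fme PG8 PG4 PG1 PH8 PH4 PH1 ZPG FE3)
open Pool.Agent.N782.RB (bg bg_abs bg_ne)

noncomputable section

/-- the sign of an odd number -/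
def sg (e : ℕ) : ℤ := if e % 4 = 1 then 1 else -1

theorem sg_or (e : ℕ) : sg e = 1 ∨ sg e = -1 := by
  unfold sg
  split_ifs
  · exact Or.inl rfl
  · exact Or.inr rfl

theorem sg_mod {e : ℕ} (he : Odd e) : (sg e * e) % 4 = 1 := by
  unfold sg
  rcases he with ⟨k, rfl⟩
  split_ifs with h
  · omega
  · omega

theorem sg_mod8 {e : ℕ} (he : Odd e) : (sg e * e) % 8 = 1 ∨ (sg e * e) % 8 = 5 := by
  have := sg_mod he
  omega

theorem sg_sq (e : ℕ) : sg e * sg e = 1 := by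
  rcases sg_or e with h | h <;> rw [h] <;> norm_num

theorem odd_ne {e : ℕ} (he : Odd e) : e ≠ 0 := by rintro rfl; exact absurd he (by decide)

theorem mul_mod4 {u k : ℤ} (h : u % 4 = 1) : (u * k) % 4 = k % 4 := by
  rw [Int.mul_emod, h, one_mul, Int.emod_emod_of_dvd]
  exact dvd_rfl

theorem mul_mod8 {u k : ℤ} (h : u % 8 = 1) : (u * k) % 8 = k % 8 := by
  rw [Int.mul_emod, h, one_mul, Int.emod_emod_of_dvd]
  exact dvd_rfl

theorem sq_mod8' {e : ℕ} (he : Odd e) : ((e : ℤ) ^ 2) % 8 = 1 := by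
  obtain ⟨k, rfl⟩ := he
  have h1 : ((2 * k + 1 : ℕ) : ℤ) ^ 2 = 4 * (k * (k + 1)) + 1 := by push_cast; ring
  rw [h1]
  obtain ⟨m, hm⟩ := Int.even_mul_succ_self (k : ℤ)
  rw [hm]
  omega

theorem PG8f (ε : ℤ) (hε : ε = 1 ∨ ε = -1) :
    PGf (F8 ε) bb8 (fun _ => 0) ((ε : ℝ) / 2) 1 (1 / 2) 0 where
  hA := fun d hd => hd
  hb1 := Pool.Agent.H699R2.RG_DEC.abs_bb8
  hb2 := fun _ => by simp
  hc1 := by
    rcases hε with rfl | rfl
    · constructor <;> norm_num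
    · constructor
      · norm_num
      · rw [abs_le]; constructor <;> norm_num
  hc2 := by constructor <;> norm_num
  h0 := by
    rw [Pool.Agent.H699R2.RG_DEC.bb8_zero]
    show (1 / 2 : ℝ) * 1 + 0 * 0 = 1 / 2
    norm_num
  s1 := by
    intro e he k
    unfold bb8
    rw [Int.natAbs_mul, Int.natAbs_pow, Int.natAbs_natCast, pow_mul, (he.pow).neg_one_pow]
  s2 := fun _ _ _ => rfl
  pg := by
    intro F hF e he X hX n hn hc
    have he0 := odd_ne he
    have hn0 := odd_ne hn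
    have heR : (0 : ℝ) < e := by exact_mod_cast Nat.pos_of_ne_zero he0
    have hε' : ε * sg e = 1 ∨ ε * sg e = -1 := by
      rcases hε with h | h <;> rcases sg_or e with h2 | h2 <;> rw [h, h2] <;> norm_num
    obtain ⟨hs, hE⟩ := PG8 (ε * sg e) hε' F hF (X / e) (by positivity) n hn
    have hco : ((ε * sg e : ℤ) : ℝ) / 2 = (sg e : ℝ) * ((ε : ℝ) / 2) := by push_cast; ring
    rw [hco] at hs hE
    obtain ⟨m1, m2⟩ := mult_sum F bb8 he0 (sg e) (sg_or e) ((ε : ℝ) / 2) X hn0 hc 1 (by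
      intro k
      unfold bb8
      have : (sg e * (e : ℤ) * k).natAbs = e * k.natAbs := by
        rw [Int.natAbs_mul, Int.natAbs_mul, Int.natAbs_natCast]
        rcases sg_or e with h | h <;> rw [h] <;> simp
      rw [this, pow_mul, he.neg_one_pow, one_mul]) hs
    refine ⟨m1, ?_, ?_⟩
    · refine summable_zero.congr fun k => ?_
      unfold bg
      split_ifs <;> simp
    · rw [EAf_js (F8 ε) (F8 (ε * sg e)) he0 (fun d => by
        show Odd (e * d) ↔ Odd d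
        rw [Nat.odd_mul]
        exact ⟨fun h => h.2, fun h => ⟨he, h⟩⟩) (sg e * e) (by
        show 2 * ε * (e : ℤ) = sg e * e * (2 * (ε * sg e))
        have := sg_sq e
        linear_combination (-2 * ε * (e : ℤ)) * this) F hX n, hE, m2]
      ring

theorem PG4f (ε : ℤ) (hε : ε = 1 ∨ ε = -1) :
    PGf (F4 ε) bb4 (fun _ => 0) ((ε : ℝ) / 4) 1 (1 / 4) 0 where
  hA := by
    intro d hd
    have h : (ε * (d : ℤ)) % 4 = 3 := hd
    rw [Nat.odd_iff]
    rcases hε with h2 | h2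
    · rw [h2] at h; omega
    · rw [h2] at h; omega
  hb1 := Pool.Agent.H699R2.RG_DEC.abs_bb4
  hb2 := fun _ => by simp
  hc1 := by
    rcases hε with rfl | rfl
    · constructor
      · norm_num
      · rw [abs_le]; constructor <;> norm_num
    · constructor
      · norm_num
      · rw [abs_le]; constructor <;> norm_num
  hc2 := by constructor <;> norm_num
  h0 := by
    rw [Pool.Agent.H699R2.RG_DEC.bb4_zero]
    show (1 / 4 : ℝ) * 1 + 0 * 0 = 1 / 4
    norm_num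
  s1 := by
    intro e he k
    unfold bb4
    have h1 : ((e : ℤ) ^ 2) % 4 = 1 := by
      have := sq_mod8' he
      omega
    rw [mul_mod4 h1]
  s2 := fun _ _ _ => rfl
  pg := by
    intro F hF e he X hX n hn hc
    have he0 := odd_ne he
    have hn0 := odd_ne hn
    have heR : (0 : ℝ) < e := by exact_mod_cast Nat.pos_of_ne_zero he0
    have hε' : ε * sg e = 1 ∨ ε * sg e = -1 := by
      rcases hε with h | h <;> rcases sg_or e with h2 | h2 <;> rw [h, h2] <;> norm_num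
    obtain ⟨hs, hE⟩ := PG4 (ε * sg e) hε' F hF (X / e) (by positivity) n hn
    have hco : ((ε * sg e : ℤ) : ℝ) / 4 = (sg e : ℝ) * ((ε : ℝ) / 4) := by push_cast; ring
    rw [hco] at hs hE
    obtain ⟨m1, m2⟩ := mult_sum F bb4 he0 (sg e) (sg_or e) ((ε : ℝ) / 4) X hn0 hc 1 (by
      intro k
      unfold bb4
      rw [mul_mod4 (sg_mod he), one_mul]) hs
    refine ⟨m1, ?_, ?_⟩
    · refine summable_zero.congr fun k => ?_
      unfold bg
      split_ifs <;> simp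
    · rw [EAf_js (F4 ε) (F4 (ε * sg e)) he0 (fun d => by
        show (ε * ((e * d : ℕ) : ℤ)) % 4 = 3 ↔ (ε * sg e * (d : ℤ)) % 4 = 3
        have h1 : ε * ((e * d : ℕ) : ℤ) = (sg e * e) * (ε * sg e * (d : ℤ)) := by
          push_cast
          have := sg_sq e
          linear_combination (-ε * (e : ℤ) * d) * this
        rw [h1, mul_mod4 (sg_mod he)]) (sg e * e) (by
        show ε * (e : ℤ) = sg e * e * (ε * sg e)
        have := sg_sq e
        linear_combination (-ε * (e : ℤ)) * this) F hX n, hE, m2]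
      ring

theorem bb2_five {u k : ℤ} (h : u % 8 = 5) : bb2 (u * k) = -1 * bb2 k := by
  have h1 : (u * k) % 8 = (5 * (k % 8)) % 8 := by
    rw [Int.mul_emod, h]
  unfold bb2
  rw [h1]
  have h2 : k % 8 = 0 ∨ k % 8 = 1 ∨ k % 8 = 2 ∨ k % 8 = 3 ∨ k % 8 = 4 ∨ k % 8 = 5 ∨ k % 8 = 6 ∨
      k % 8 = 7 := by omega
  rcases h2 with h | h | h | h | h | h | h | h <;> rw [h] <;> norm_num

theorem PG1f (ε c : ℤ) (hε : ε = 1 ∨ ε = -1) (hc15 : c = 1 ∨ c = 5) :
    PGf (FF1 ε c) bb1 bb2 ((ε : ℝ) / 4) ((ε : ℝ) / 8) (1 / 8) ((FF1 ε c).η * Real.sqrt 2 / 8) where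
  hA := by
    intro d hd
    have h : (ε * (d : ℤ)) % 8 = c := hd
    rw [Nat.odd_iff]
    rcases hε with h2 | h2 <;> rcases hc15 with h3 | h3 <;> rw [h2, h3] at h <;> omega
  hb1 := Pool.Agent.H699R2.RG_DEC.abs_bb1
  hb2 := Pool.Agent.H699R2.RG_DEC.abs_bb2
  hc1 := by
    rcases hε with rfl | rfl
    · constructor
      · norm_num
      · rw [abs_le]; constructor <;> norm_num
    · constructor
      · norm_num
      · rw [abs_le]; constructor <;> norm_num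
  hc2 := by
    rcases hε with rfl | rfl
    · constructor
      · norm_num
      · rw [abs_le]; constructor <;> norm_num
    · constructor
      · norm_num
      · rw [abs_le]; constructor <;> norm_num
  h0 := by
    rw [Pool.Agent.H699R2.RG_DEC.bb1_zero, Pool.Agent.H699R2.RG_DEC.bb2_zero]
    show (1 / 8 : ℝ) * 1 + _ * 0 = 1 / 8
    norm_num
  s1 := by
    intro e he k
    unfold bb1
    have h1 : ((e : ℤ) ^ 2) % 4 = 1 := by
      have := sq_mod8' he
      omega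
    rw [mul_mod4 h1]
  s2 := by
    intro e he k
    unfold bb2
    rw [mul_mod8 (sq_mod8' he)]
  pg := by
    intro F hF e he X hX n hn hcn
    have he0 := odd_ne he
    have hn0 := odd_ne hn
    have heR : (0 : ℝ) < e := by exact_mod_cast Nat.pos_of_ne_zero he0
    have hε' : ε * sg e = 1 ∨ ε * sg e = -1 := by
      rcases hε with h | h <;> rcases sg_or e with h2 | h2 <;> rw [h, h2] <;> norm_num
    have hco : ((ε * sg e : ℤ) : ℝ) / 4 = (sg e : ℝ) * ((ε : ℝ) / 4) := by push_cast; ring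
    have hco8 : ((ε * sg e : ℤ) : ℝ) / 8 = (sg e : ℝ) * ((ε : ℝ) / 8) := by push_cast; ring
    have hfac : ∀ d : ℕ, ε * ((e * d : ℕ) : ℤ) = (sg e * e) * (ε * sg e * (d : ℤ)) := by
      intro d
      push_cast
      have := sg_sq e
      linear_combination (-ε * (e : ℤ) * d) * this
    have hfe : ε * (e : ℤ) = sg e * e * (ε * sg e) := by
      have := sg_sq e
      linear_combination (-ε * (e : ℤ)) * this
    rcases sg_mod8 he with h8 | h8
    · obtain ⟨hs1, hs2, hE⟩ := PG1 (ε * sg e) c hε' hc15 F hF (X / e) (by positivity) n hn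
      rw [hco] at hs1 hE
      rw [hco8] at hs2 hE
      obtain ⟨m1, m2⟩ := mult_sum F bb1 he0 (sg e) (sg_or e) ((ε : ℝ) / 4) X hn0 hcn 1 (by
        intro k
        unfold bb1
        rw [mul_mod4 (sg_mod he), one_mul]) hs1
      obtain ⟨m3, m4⟩ := mult_sum F bb2 he0 (sg e) (sg_or e) ((ε : ℝ) / 8) X hn0 hcn 1 (by
        intro k
        unfold bb2
        rw [mul_mod8 h8, one_mul]) hs2
      refine ⟨m1, m3, ?_⟩
      have hEA := EAf_js (FF1 ε c) (FF1 (ε * sg e) c) he0 (fun d => by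
        show (ε * ((e * d : ℕ) : ℤ)) % 8 = c ↔ (ε * sg e * (d : ℤ)) % 8 = c
        rw [hfac d, mul_mod8 h8]) (sg e * e) hfe F hX n
      have hE' : EAg (FF1 (ε * sg e) c) F (X / e) (fun d => js ((FF1 (ε * sg e) c).e * (d : ℤ)) n) =
          EAg (FF1 (ε * sg e) c) F (X / e) (fun d => js ((ε * sg e) * (d : ℤ)) n) := rfl
      have hη : (FF1 (ε * sg e) c).η = (FF1 ε c).η := rfl
      rw [hEA, hE', hE, m2, m4, hη]
      ring
    · obtain ⟨c', hc', hcc, hη⟩ : ∃ c' : ℤ, (c' = 1 ∨ c' = 5) ∧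
          (∀ x : ℤ, (5 * x) % 8 = c ↔ x % 8 = c') ∧
          (FF1 (ε * sg e) c').η = -(FF1 ε c).η := by
        rcases hc15 with rfl | rfl
        · refine ⟨5, Or.inr rfl, fun x => by omega, ?_⟩
          show (if (5 : ℤ) = 1 then (1 : ℝ) else -1) = -(if (1 : ℤ) = 1 then (1 : ℝ) else -1)
          norm_num
        · refine ⟨1, Or.inl rfl, fun x => by omega, ?_⟩
          show (if (1 : ℤ) = 1 then (1 : ℝ) else -1) = -(if (5 : ℤ) = 1 then (1 : ℝ) else -1)
          norm_num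
      obtain ⟨hs1, hs2, hE⟩ := PG1 (ε * sg e) c' hε' hc' F hF (X / e) (by positivity) n hn
      rw [hco] at hs1 hE
      rw [hco8] at hs2 hE
      obtain ⟨m1, m2⟩ := mult_sum F bb1 he0 (sg e) (sg_or e) ((ε : ℝ) / 4) X hn0 hcn 1 (by
        intro k
        unfold bb1
        rw [mul_mod4 (sg_mod he), one_mul]) hs1
      obtain ⟨m3, m4⟩ := mult_sum F bb2 he0 (sg e) (sg_or e) ((ε : ℝ) / 8) X hn0 hcn (-1) (by
        intro k
        exact bb2_five h8) hs2
      refine ⟨m1, m3, ?_⟩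
      have hEA := EAf_js (FF1 ε c) (FF1 (ε * sg e) c') he0 (fun d => by
        show (ε * ((e * d : ℕ) : ℤ)) % 8 = c ↔ (ε * sg e * (d : ℤ)) % 8 = c'
        rw [hfac d, ← hcc]
        have h1 : (sg e * (e : ℤ) * (ε * sg e * (d : ℤ))) % 8 = (5 * (ε * sg e * (d : ℤ))) % 8 := by
          rw [Int.mul_emod, h8]
          omega
        rw [h1]) (sg e * e) hfe F hX n
      have hE' : EAg (FF1 (ε * sg e) c') F (X / e) (fun d => js ((FF1 (ε * sg e) c').e * (d : ℤ)) n) =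
          EAg (FF1 (ε * sg e) c') F (X / e) (fun d => js ((ε * sg e) * (d : ℤ)) n) := rfl
      rw [hEA, hE', hE, m2, m4, hη]
      ring

/-- transfer to an equivalent condition -/
theorem PGf_congr {φ ψ : FD} (he : φ.e = ψ.e) (hδ : φ.δ = ψ.δ) (hA : ∀ d, φ.A d ↔ ψ.A d)
    {b1 b2 : ℤ → ℝ} {c1 c2 g1 g2 : ℝ} (h : PGf ψ b1 b2 c1 c2 g1 g2) : PGf φ b1 b2 c1 c2 g1 g2 where
  hA := fun d hd => h.hA d ((hA d).1 hd)
  hb1 := h.hb1
  hb2 := h.hb2
  hc1 := h.hc1
  hc2 := h.hc2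
  h0 := by rw [hδ]; exact h.h0
  s1 := h.s1
  s2 := h.s2
  pg := by
    intro F hF e ho X hX n hn hc
    obtain ⟨h1, h2, h3⟩ := h.pg F hF e ho X hX n hn hc
    refine ⟨h1, h2, ?_⟩
    rw [← h3, he]
    congr 1
    refine Pool.Agent.H699R2.RG_DEC.EAg_congr_A _ _ F X _ fun d => ?_
    show (φ.A d ∧ e ∣ d) ↔ (ψ.A d ∧ e ∣ d)
    rw [hA]

/-! ### the squares -/

theorem Sq8 (ε : ℤ) (hε : ε = 1 ∨ ε = -1) (F : ℝ → ℝ) (hF : TF F) : ∃ H : ℂ → ℂ,
    HP H (-((F8 ε).δ / 2 * Ft F 0)) ∧ SqP F bb8 (fun _ => 0) ((ε : ℝ) / 2) 1 (1 / 2) 0 H := by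
  obtain ⟨H, hH, hH2⟩ := PH8 ε hε F hF
  refine ⟨H, ?_, ?_⟩
  · have : (F8 ε).δ = 1 / 2 := rfl
    rw [this]
    convert hH using 2
    ring
  · intro X hX n hn σ0 h0 h1
    rw [← hH2 X hX n hn σ0 h0 h1]
    push_cast
    ring

theorem Sq4 (ε : ℤ) (hε : ε = 1 ∨ ε = -1) (F : ℝ → ℝ) (hF : TF F) : ∃ H : ℂ → ℂ,
    HP H (-((F4 ε).δ / 2 * Ft F 0)) ∧ SqP F bb4 (fun _ => 0) ((ε : ℝ) / 4) 1 (1 / 4) 0 H := by
  obtain ⟨H, hH, hH2⟩ := PH4 ε hε F hF
  refine ⟨H, ?_, ?_⟩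
  · have : (F4 ε).δ = 1 / 4 := rfl
    rw [this]
    convert hH using 2
    ring
  · intro X hX n hn σ0 h0 h1
    rw [← hH2 X hX n hn σ0 h0 h1]
    push_cast
    ring

/-- the family `F1`, the pole at `1/2` is kept -/
theorem Sq1 (ε c : ℤ) (hε : ε = 1 ∨ ε = -1) (F : ℝ → ℝ) (hF : TF F) : ∃ H : ℂ → ℂ,
    HP H (-(1 / 8 / 2 * Ft F 0)) ∧
      SqP F bb1 bb2 ((ε : ℝ) / 4) ((ε : ℝ) / 8) (1 / 8) ((FF1 ε c).η * Real.sqrt 2 / 8)
        (fun s => H s + gz (FF1 ε c).η (1 / 2) * Fme ε F (1 / 2) / 2 * Eh s) := by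
  have hη : (FF1 ε c).η = 1 ∨ (FF1 ε c).η = -1 := by
    show (if c = 1 then (1 : ℝ) else -1) = 1 ∨ (if c = 1 then (1 : ℝ) else -1) = -1
    split_ifs
    · exact Or.inl rfl
    · exact Or.inr rfl
  obtain ⟨hP, hP2⟩ := PH1 ε hε (FF1 ε c).η hη F hF
  obtain ⟨H, hH, hH2⟩ := ZPG _ _ hP
  refine ⟨H, ?_, ?_⟩
  · convert hH using 2
    ring
  intro X hX n hn σ0 h0 h1
  have hD : Dsg (fun s => H s + gz (FF1 ε c).η (1 / 2) * Fme ε F (1 / 2) / 2 * Eh s) X n σ0 =
      Dsg (fun s => gz (FF1 ε c).η s * Fme ε F s * riemannZeta (2 * s)) X n σ0 := by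
    refine Pool.Agent.H699R2.RG_DEC.Dsg_congr _ _ _ _ _ fun t => ?_
    obtain ⟨h2, h3⟩ := Pool.Agent.H699R2.RG_DEC.line_ne σ0 h0 t
    exact (hH2 _ h2 h3).symm
  rw [hD, ← hP2 X hX n hn σ0 h0 h1]

end

end Pool.Agent.N782.G2
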