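import Pool.Agent.N782.RD
import Pool.Agent.N782.FWb
import Pool.Agent.N782.GA

set_option autoImplicit false

/-! The weighted average over a general family (helper782). -/

namespace Pool.Agent.N782.G2

open Finset Filter Topology MeasureTheory Pool.Agent.N782.LX Pool.Agent.N782.EW Pool.Agent.N782.KW
open Pool.Agent.H306R2.RZ Pool.Agent.H306R2.RG Pool.Agent.N782.SU
open Pool.Agent.N782.FE (js_zero)
open Pool.Agent.N782.KV
open Pool.Agent.N782.RB (bg bg_abs bg_ne)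
open Pool.Agent.N782.FW (lam Wd Wd_expand EAg_congr Cqf_le)
open Pool.Agent.H317R2.RG (summR summC t1_t4 odd_prod t4_ne Bd_mono Bd_nonneg Wt_mono wt_bd swapI)

noncomputable section

/-- the weighted average -/
def EWg (φ : FD) (P : ℝ → ℝ) (L : ℝ) (F : ℝ → ℝ) (X : ℝ) (f : ℕ → ℝ) : ℝ :=
  EAg φ F X (fun d => Wd P L d * f d)

theorem EWg_eq (φ : FD) (hodd : ∀ d, φ.A d → Odd d) {s : ℝ} {P : ℝ → ℝ} (hP : Wt s P) {L : ℝ}
    (hL : 0 < L) {F : ℝ → ℝ} (hF : TF F) {X : ℝ} (hX : 0 < X) (f : ℕ → ℝ) :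
    ((EWg φ P L F X f : ℝ) : ℂ) =
      SW P L (fun e => (((e : ℝ) * EAg (Fg φ e) F X f : ℝ) : ℂ)) := by
  classical
  have h1 : EWg φ P L F X f = EAg φ F X (fun d => ∑ a ∈ bx s L,
      (lam P L (a 0) * lam P L (a 1)) * ((if a 0 ∣ d ∧ a 1 ∣ d then f d else 0))) := by
    unfold EWg
    refine EAg_congr _ F X fun d hd => ?_
    have hd1 : Odd d := hodd d hd
    have hd0 : d ≠ 0 := by rintro rfl; exact absurd hd1 (by decide)
    rw [Wd_expand hP hL hd0, sum_mul]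
    refine sum_congr rfl fun a _ => ?_
    split_ifs
    · ring
    · ring
  rw [h1, Pool.Agent.H935R2.RGX1.ef_sum φ hF hX (bx s L)
    (fun a => lam P L (a 0) * lam P L (a 1))
    (fun a d => (if a 0 ∣ d ∧ a 1 ∣ d then f d else 0)), SW_sum hP hL]
  push_cast
  refine sum_congr rfl fun a _ => ?_
  by_cases hz : a 0 = 0 ∨ a 1 = 0
  · have hl : lam P L (a 0) * lam P L (a 1) = 0 := by
      rcases hz with h | h
      · rw [h]; unfold lam; simp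
      · rw [h]; unfold lam; simp
    have hc : co a = 0 := by
      unfold co
      rw [if_neg]
      rintro ⟨⟨h2, h3⟩, -⟩
      rcases hz with h | h
      · exact h2 h
      · exact h3 h
    rw [hc]
    have hl' : (lam P L (a 0) : ℂ) * (lam P L (a 1) : ℂ) = 0 := by
      rw [← Complex.ofReal_mul, hl, Complex.ofReal_zero]
    rw [hl']
    simp
  push Not at hz
  by_cases ho : Odd (a 0) ∧ Odd (a 1)
  · have hlcm : Nat.lcm (a 0) (a 1) ≠ 0 := Nat.lcm_ne_zero hz.1 hz.2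
    have hlcmR : ((Nat.lcm (a 0) (a 1) : ℕ) : ℝ) ≠ 0 := by exact_mod_cast hlcm
    have hE : EAg φ F X (fun d => (if a 0 ∣ d ∧ a 1 ∣ d then f d else 0)) =
        EAg (Fg φ (Nat.lcm (a 0) (a 1))) F X f := by
      unfold EAg
      congr 1
      refine tsum_congr fun d => ?_
      have hAe : (Fg φ (Nat.lcm (a 0) (a 1))).A d ↔ (φ.A d ∧ (a 0 ∣ d ∧ a 1 ∣ d)) := by
        show (φ.A d ∧ Nat.lcm (a 0) (a 1) ∣ d) ↔ _
        rw [Nat.lcm_dvd_iff]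
      simp only
      by_cases h2 : φ.A d
      · by_cases h3 : a 0 ∣ d ∧ a 1 ∣ d
        · rw [if_pos h2, if_pos h3, if_pos (hAe.2 ⟨h2, h3⟩)]
        · rw [if_pos h2, if_neg h3, if_neg (fun h => h3 (hAe.1 h).2), mul_zero]
      · rw [if_neg h2, if_neg (fun h => h2 (hAe.1 h).1)]
    have hE' : (EAg φ F X (fun d => (if a 0 ∣ d ∧ a 1 ∣ d then f d else 0)) : ℝ) =
        EAg (Fg φ (Nat.lcm (a 0) (a 1))) F X f := hE
    rw [hE']
    have hc : co a = ((ArithmeticFunction.moebius (a 0) : ℤ) : ℝ) *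
        ((ArithmeticFunction.moebius (a 1) : ℤ) : ℝ) / (Nat.lcm (a 0) (a 1) : ℕ) := by
      unfold co
      rw [if_pos ⟨hz, ho⟩]
    rw [hc, Fin.prod_univ_two]
    unfold lam
    push_cast
    have hlcmC : ((Nat.lcm (a 0) (a 1) : ℕ) : ℂ) ≠ 0 := by exact_mod_cast hlcm
    field_simp
  · have hc : co a = 0 := by
      unfold co
      rw [if_neg]
      rintro ⟨-, h2⟩
      exact ho h2
    have hE : EAg φ F X (fun d => (if a 0 ∣ d ∧ a 1 ∣ d then f d else 0)) = 0 := by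
      unfold EAg
      have : (∑' d : ℕ, if φ.A d then F ((d : ℝ) / X) *
          (if a 0 ∣ d ∧ a 1 ∣ d then f d else 0) else 0) = ∑' d : ℕ, (0 : ℝ) := by
        refine tsum_congr fun d => ?_
        by_cases h2 : φ.A d
        · have h3 : Odd d := hodd d h2
          have h4 : ¬ (a 0 ∣ d ∧ a 1 ∣ d) := by
            rintro ⟨h5, h6⟩
            exact ho ⟨h3.of_dvd_nat h5, h3.of_dvd_nat h6⟩
          rw [if_pos h2, if_neg h4, mul_zero]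
        · rw [if_neg h2]
      rw [this, tsum_zero, zero_div]
    rw [hE, hc]
    simp

/-! ### the modulus `2e` -/

theorem jo_zero (φ : FD) {e d n : ℕ} (hn : Nat.Coprime n 2) (hc : ¬ Nat.Coprime n (2 * e))
    (hd : e ∣ d) : jo φ d n = 0 := by
  have hn0 : n ≠ 0 := by rintro rfl; exact absurd hn (by decide)
  unfold jo
  split_ifs with ho
  · refine js_zero (e := e) hn0 ?_ hd _
    intro h
    exact hc (Nat.Coprime.mul_right hn h)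
  · rfl

theorem Nd_2e (φ : FD) {e d : ℕ} (hd : e ∣ d) (L : ℝ) (w : ℝ → ℝ) :
    Ndg φ 2 L w d = Ndg φ (2 * e) L w d := by
  unfold Ndg
  refine tsum_congr fun n => ?_
  by_cases h1 : Nat.Coprime n (2 * e)
  · rw [if_pos h1, if_pos (Nat.Coprime.coprime_mul_right_right h1)]
  · rw [if_neg h1]
    by_cases h2 : Nat.Coprime n 2
    · rw [if_pos h2, jo_zero φ h2 h1 hd]
      simp
    · rw [if_neg h2]

theorem Md_2e (φ : FD) {e d : ℕ} (hd : e ∣ d) (L : ℝ) (w : ℝ → ℝ) :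
    Mdg φ 2 L w d = Mdg φ (2 * e) L w d := by
  unfold Mdg
  refine tsum_congr fun n => ?_
  by_cases h1 : Nat.Coprime n (2 * e)
  · rw [if_pos h1, if_pos (Nat.Coprime.coprime_mul_right_right h1)]
  · rw [if_neg h1]
    by_cases h2 : Nat.Coprime n 2
    · rw [if_pos h2, jo_zero φ h2 h1 hd]
      simp
    · rw [if_neg h2]

theorem TT_2e (φ : FD) (e : ℕ) (F : ℝ → ℝ) (X L : ℝ) (w1 Q1 w2 Q2 : ℝ → ℝ) :
    EAg (Fg φ e) F X (fun d => Ndg φ 2 L w1 d * Mdg φ 2 L Q1 d *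
      (Ndg φ 2 L w2 d * Mdg φ 2 L Q2 d)) =
    TTg (Fg φ e) F X (2 * e) L w1 Q1 w2 Q2 := by
  unfold TTg
  refine EAg_congr _ F X fun d hd => ?_
  have h1 : e ∣ d := hd.2
  rw [Nd_2e φ h1, Nd_2e φ h1, Md_2e φ h1, Md_2e φ h1]
  rfl

theorem TO_2e (φ : FD) (e : ℕ) (F : ℝ → ℝ) (X L : ℝ) (w Q : ℝ → ℝ) :
    EAg (Fg φ e) F X (fun d => Ndg φ 2 L w d * Mdg φ 2 L Q d) =
    TOg (Fg φ e) F X (2 * e) L w Q := by
  unfold TOg
  refine EAg_congr _ F X fun d hd => ?_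
  have h1 : e ∣ d := hd.2
  rw [Nd_2e φ h1, Md_2e φ h1]
  rfl

/-- the main part -/
def Mn (δ : ℝ) (F : ℝ → ℝ) (H : ℂ → ℂ) (c L : ℝ) (w1 w2 Q1 Q2 : ℝ → ℝ) (e : ℕ) : ℂ :=
  ((δ * Ft F 0 : ℝ) : ℂ) * M1e L w1 w2 Q1 Q2 e + M2e H c L w1 w2 Q1 Q2 e +
    M2e H c L w2 w1 Q2 Q1 e - M5e H c L w1 w2 Q1 Q2 e

/-- the sum over the non-squares -/
def Dn (F : ℝ → ℝ) (b : ℤ → ℝ) (c1 X : ℝ) (L : ℝ) (w1 w2 Q1 Q2 : ℝ → ℝ) (e : ℕ) : ℝ :=
  ∑' a : Fin 4 → ℕ, t4c (2 * e) a * w4 L w1 w2 Q1 Q2 a *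
    Dng F (bg b e) (c1 / (e : ℝ) ^ 2) X (∏ i, a i)

/-- the decomposition of the second moment over the multiples of `e`; `R` is an extra term -/
theorem decompG {φ : FD} (hodd : ∀ d, φ.A d → Odd d) (F : ℝ → ℝ) (hF : TF F) (H : ℂ → ℂ) (e : ℕ)
    (he : Odd e) (b1 b2 : ℤ → ℝ) (c1 c2 g1 g2 : ℝ) (X : ℝ) (hX : 0 < X) (R : ℕ → ℝ)
    (hE : ∀ n : ℕ, Odd n → Nat.Coprime n e → ∀ σ0 : ℝ, 1 / 2 < σ0 → σ0 ≤ 1 →
      (((e : ℝ) * EAg (Fg φ e) F X (fun d => js (φ.e * (d : ℤ)) n) : ℝ) : ℂ) =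
        ((φ.δ * Ft F 0 * (if IsSquare n then (n.totient : ℝ) / n else 0) : ℝ) : ℂ) +
        Dsg H X n σ0 + ((g1 * Dng F (bg b1 e) (c1 / (e : ℝ) ^ 2) X n +
          g2 * Dng F (bg b2 e) (c2 / (e : ℝ) ^ 2) X n - R n : ℝ) : ℂ))
    (L : ℝ) (hL : 0 < L) (s : ℝ)
    (w1 w2 Q1 Q2 : ℝ → ℝ) (h1 : Wt s w1) (h2 : Wt s w2) (h3 : Wt s Q1) (h4 : Wt s Q2)
    (σ0 : ℝ) (hσ : 1 / 2 < σ0) (hσ1 : σ0 ≤ 1) :
    (((e : ℝ) * TTg (Fg φ e) F X (2 * e) L w1 Q1 w2 Q2 : ℝ) : ℂ) =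
      ((φ.δ * Ft F 0 * ∑' a : Fin 4 → ℕ, t1c (2 * e) a * w4 L w1 w2 Q1 Q2 a : ℝ) : ℂ) +
      (∑' a : Fin 4 → ℕ, ((t4c (2 * e) a * w4 L w1 w2 Q1 Q2 a : ℝ) : ℂ) *
        Dsg H X (∏ i, a i) σ0) +
      ((g1 * Dn F b1 c1 X L w1 w2 Q1 Q2 e + g2 * Dn F b2 c2 X L w1 w2 Q1 Q2 e : ℝ) : ℂ) -
      ((∑' a : Fin 4 → ℕ, t4c (2 * e) a * w4 L w1 w2 Q1 Q2 a * R (∏ i, a i) : ℝ) : ℂ) := by
  have he0 : e ≠ 0 := by rintro rfl; exact absurd he (by decide)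
  have hq : Even (2 * e) := even_two_mul e
  have hq0 : 2 * e ≠ 0 := Nat.mul_ne_zero two_ne_zero he0
  have sC := fun f => summC (2 * e) hL h1 h2 h3 h4 f
  have sR := fun f => summR (2 * e) hL h1 h2 h3 h4 f
  rw [Pool.Agent.H935R2.RGX1.X1G (Fg φ e) (fun d hd => hodd d hd.1) F hF X hX (2 * e) hq hq0 L hL s
    w1 w2 Q1 Q2 h1 h2 h3 h4]
  have e0 : (e : ℝ) * ∑' a : Fin 4 → ℕ, t4c (2 * e) a * w4 L w1 w2 Q1 Q2 a *
      EAg (Fg φ e) F X (fun d => js ((Fg φ e).e * (d : ℤ)) (∏ i, a i)) =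
      ∑' a : Fin 4 → ℕ, t4c (2 * e) a * w4 L w1 w2 Q1 Q2 a *
      ((e : ℝ) * EAg (Fg φ e) F X (fun d => js (φ.e * (d : ℤ)) (∏ i, a i))) := by
    rw [← tsum_mul_left]
    apply tsum_congr
    intro a
    have : (Fg φ e).e = φ.e := rfl
    rw [this]
    ring
  have e1 : (φ.δ * Ft F 0 * ∑' a : Fin 4 → ℕ, t1c (2 * e) a * w4 L w1 w2 Q1 Q2 a) =
      ∑' a : Fin 4 → ℕ, t4c (2 * e) a * w4 L w1 w2 Q1 Q2 a * (φ.δ * Ft F 0 *
        (if IsSquare (∏ i, a i) then (((∏ i, a i : ℕ).totient : ℝ) / ((∏ i, a i : ℕ) : ℝ)) else 0)) := by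
    rw [← tsum_mul_left]
    apply tsum_congr
    intro a
    rw [t1_t4]
    ring
  have e2 : ∀ (g : ℝ) (b : ℤ → ℝ) (c1 : ℝ), g * Dn F b c1 X L w1 w2 Q1 Q2 e =
      ∑' a : Fin 4 → ℕ, t4c (2 * e) a * w4 L w1 w2 Q1 Q2 a * (g *
        Dng F (bg b e) (c1 / (e : ℝ) ^ 2) X (∏ i, a i)) := by
    intro g b c1
    unfold Dn
    rw [← tsum_mul_left]
    apply tsum_congr
    intro a
    ring
  rw [e0, e1, e2, e2]
  have hC : ∀ (a : Fin 4 → ℕ) (y : ℝ),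
      ((t4c (2 * e) a * w4 L w1 w2 Q1 Q2 a * y : ℝ) : ℂ) =
      ((t4c (2 * e) a * w4 L w1 w2 Q1 Q2 a : ℝ) : ℂ) * (y : ℂ) := fun a y =>
    Complex.ofReal_mul _ _
  rw [← (sR _).tsum_add (sR _)]
  simp only [Complex.ofReal_tsum, Complex.ofReal_add]
  simp only [hC]
  rw [← (sC _).tsum_add (sC _), ← Summable.tsum_add ((sC _).add (sC _)) ((sC _).add (sC _)),
    ← Summable.tsum_sub (((sC _).add (sC _)).add ((sC _).add (sC _))) (sC _)]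
  apply tsum_congr
  intro a
  by_cases h0 : t4c (2 * e) a = 0
  · rw [h0]; simp
  · have hn := t4_ne h0
    have ho := odd_prod hq hn
    have hco : Nat.Coprime (∏ i, a i) e := by
      apply Nat.Coprime.prod_left
      intro i _
      exact Nat.Coprime.coprime_mul_left_right (hn i).2
    rw [hE _ ho hco σ0 hσ hσ1]
    push_cast
    ring

end

end Pool.Agent.N782.G2
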