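import Pool.Agent.N782.RE
import Pool.Agent.N782.FWc

set_option autoImplicit false

/-! The weighted second moment: error, general families (helper782). -/

namespace Pool.Agent.N782.G2

open Finset Filter Topology MeasureTheory Pool.Agent.N782.LX Pool.Agent.N782.EW Pool.Agent.N782.KW
open Pool.Agent.H306R2.RZ Pool.Agent.H306R2.RG Pool.Agent.N782.SU
open Pool.Agent.N782.KV
open Pool.Agent.N782.RB (bg bg_abs bg_ne)
open Pool.Agent.N782.GA (AdmV)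
open Pool.Agent.N782.FW (lam Wd Wd_expand EAg_congr Cqf_le pow_exp)
open Pool.Agent.H317R2.RG (summR summC t1_t4 odd_prod t4_ne Bd_mono Bd_nonneg Wt_mono wt_bd swapI)

noncomputable section

/-- the moduli -/
def Sx (s L : ℝ) : Finset ℕ :=
  (range (⌊Real.exp (2 * s * L)⌋₊ + 1)).filter (fun e => Odd e ∧ Squarefree e)

theorem Sx_mem {s L : ℝ} {e : ℕ} : e ∈ Sx s L ↔ (e : ℝ) ≤ Real.exp (2 * s * L) ∧ Odd e ∧
    Squarefree e := by
  unfold Sx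
  rw [mem_filter, mem_range, Nat.lt_succ_iff, Nat.le_floor_iff (Real.exp_pos _).le]

/-- the weighted sum as a sum over the moduli -/
theorem SW_avg (s : ℝ) (P : ℝ → ℝ) (hP : Wt s P) (BP : ℝ) (hBP : Bd 0 P BP)
    (L : ℝ) (hL : 1 ≤ L) (g : ℕ → ℂ) :
    ‖SW P L g‖ ≤ BP ^ 2 * ∑ e ∈ Sx s L, (e.divisors.card : ℝ) ^ 2 * (1 / (e : ℝ) * ‖g e‖) := by
  classical
  have hL0 : 0 < L := by linarith
  have hB0 : 0 ≤ BP := (abs_nonneg _).trans (hBP 0 (Nat.zero_le _) 0)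
  set N : ℕ := ⌊Real.exp (s * L)⌋₊ with hN
  have hNe : (N : ℝ) ≤ Real.exp (s * L) := Nat.floor_le (Real.exp_pos _).le
  have hPb : ∀ y, |P y| ≤ BP := by
    intro y
    have := hBP 0 (Nat.zero_le _) y
    simpa using this
  rw [SW_sum hP hL0]
  set T : Finset (Fin 2 → ℕ) := (bx s L).filter (fun a => co a ≠ 0) with hT
  have hsub : ∑ a ∈ bx s L, ((co a : ℝ) : ℂ) * g (Nat.lcm (a 0) (a 1)) *
      ∏ i, ((P (Real.log (a i) / L) : ℝ) : ℂ) = ∑ a ∈ T, ((co a : ℝ) : ℂ) *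
        g (Nat.lcm (a 0) (a 1)) * ∏ i, ((P (Real.log (a i) / L) : ℝ) : ℂ) := by
    symm
    apply Finset.sum_subset (filter_subset _ _)
    intro a ha hna
    have : co a = 0 := by
      by_contra h
      exact hna (mem_filter.2 ⟨ha, h⟩)
    rw [this]
    simp
  have hmem : ∀ a ∈ T, Nat.lcm (a 0) (a 1) ∈ Sx s L := by
    intro a ha
    rw [hT, mem_filter] at ha
    obtain ⟨h1, h2⟩ := co_ne ha.2
    have h0 : Nat.lcm (a 0) (a 1) ≠ 0 := h2.ne_zero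
    have ha0 : a 0 ≠ 0 := fun h => h0 (by rw [h, Nat.lcm_zero_left])
    have ha1 : a 1 ≠ 0 := fun h => h0 (by rw [h, Nat.lcm_zero_right])
    rw [Sx_mem]
    refine ⟨?_, h1, h2⟩
    have h3 : Nat.lcm (a 0) (a 1) ≤ a 0 * a 1 :=
      Nat.le_of_dvd (by positivity) (Nat.lcm_dvd_mul _ _)
    have h4 : ∀ i, (a i : ℝ) ≤ Real.exp (s * L) := by
      intro i
      have h5 := Fintype.mem_piFinset.1 ha.1 i
      rw [Finset.mem_range, Nat.lt_succ_iff] at h5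
      exact (Nat.cast_le.2 h5).trans hNe
    calc ((Nat.lcm (a 0) (a 1) : ℕ) : ℝ) ≤ ((a 0 * a 1 : ℕ) : ℝ) := by exact_mod_cast h3
      _ = (a 0 : ℝ) * a 1 := by push_cast; ring
      _ ≤ Real.exp (s * L) * Real.exp (s * L) := by
          gcongr
          · exact h4 0
          · exact h4 1
      _ = _ := by rw [← Real.exp_add]; congr 1; ring
  have hterm : ∀ a ∈ T, ‖((co a : ℝ) : ℂ) * g (Nat.lcm (a 0) (a 1)) *
      ∏ i, ((P (Real.log (a i) / L) : ℝ) : ℂ)‖ ≤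
        (fun e : ℕ => BP ^ 2 * (1 / (e : ℝ) * ‖g e‖)) (Nat.lcm (a 0) (a 1)) := by
    intro a ha
    rw [norm_mul, norm_mul, Complex.norm_real, Real.norm_eq_abs, Fin.prod_univ_two, norm_mul,
      Complex.norm_real, Complex.norm_real, Real.norm_eq_abs, Real.norm_eq_abs]
    have h6 := Pool.Agent.N782.SWc.co_abs a
    calc |co a| * ‖g (Nat.lcm (a 0) (a 1))‖ * (|P (Real.log (a 0) / L)| * |P (Real.log (a 1) / L)|)
        ≤ (1 / (Nat.lcm (a 0) (a 1) : ℕ)) * ‖g (Nat.lcm (a 0) (a 1))‖ * (BP * BP) := by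
          gcongr
          · exact hPb _
          · exact hPb _
      _ = _ := by ring
  rw [hsub]
  refine (norm_sum_le _ _).trans ((Finset.sum_le_sum hterm).trans ?_)
  rw [Finset.sum_comp (fun e : ℕ => BP ^ 2 * (1 / (e : ℝ) * ‖g e‖))
    (fun a : Fin 2 → ℕ => Nat.lcm (a 0) (a 1))]
  rw [mul_sum]
  have hcard : ∀ e ∈ T.image (fun a : Fin 2 → ℕ => Nat.lcm (a 0) (a 1)),
      ((T.filter (fun a => Nat.lcm (a 0) (a 1) = e)).card) • (BP ^ 2 * (1 / (e : ℝ) * ‖g e‖)) ≤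
        BP ^ 2 * ((e.divisors.card : ℝ) ^ 2 * (1 / (e : ℝ) * ‖g e‖)) := by
    intro e he
    obtain ⟨a, ha, hae⟩ := mem_image.1 he
    have he0 : e ≠ 0 := by
      have := (Sx_mem.1 (hmem a ha)).2.2.ne_zero
      rwa [hae] at this
    have h1 : (T.filter (fun a => Nat.lcm (a 0) (a 1) = e)).card ≤ e.divisors.card ^ 2 := by
      have h2 : T.filter (fun a => Nat.lcm (a 0) (a 1) = e) ⊆
          Fintype.piFinset (fun _ : Fin 2 => e.divisors) := by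
        intro b hb
        rw [mem_filter] at hb
        rw [Fintype.mem_piFinset]
        intro i
        rw [Nat.mem_divisors]
        refine ⟨?_, he0⟩
        fin_cases i
        · show b 0 ∣ e
          rw [← hb.2]
          exact Nat.dvd_lcm_left _ _
        · show b 1 ∣ e
          rw [← hb.2]
          exact Nat.dvd_lcm_right _ _
      have h3 := card_le_card h2
      rwa [Fintype.card_piFinset, Finset.prod_const, Finset.card_univ, Fintype.card_fin] at h3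
    rw [nsmul_eq_mul]
    have h4 : ((T.filter (fun a => Nat.lcm (a 0) (a 1) = e)).card : ℝ) ≤
        (e.divisors.card : ℝ) ^ 2 := by exact_mod_cast h1
    calc _ ≤ (e.divisors.card : ℝ) ^ 2 * (BP ^ 2 * (1 / (e : ℝ) * ‖g e‖)) := by gcongr
      _ = _ := by ring
  refine (Finset.sum_le_sum hcard).trans ?_
  refine sum_le_sum_of_subset_of_nonneg ?_ fun e _ _ => by positivity
  intro e he
  obtain ⟨a, ha, hae⟩ := mem_image.1 he
  rw [← hae]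
  exact hmem a ha

/-- the non-squares, on average over the moduli -/
theorem ngB (F : ℝ → ℝ) (hF : TF F) (c : ℝ) (hc : 0 < c) (s θ s' : ℝ) (hA : AdmV s θ s')
    (P : ℝ → ℝ) (hP : Wt s' P) (BP : ℝ) (hBP : Bd 0 P BP) (b : ℤ → ℝ) (hb : ∀ k, |b k| ≤ 1)
    (c1 : ℝ) (hc1 : c1 ≠ 0) (hc1' : |c1| ≤ 1) :
    ∃ (C η : ℝ) (k : ℕ), 0 < C ∧ 0 < η ∧ ∀ L : ℝ, 1 ≤ L → ∀ (w1 w2 Q1 Q2 : ℝ → ℝ)
      (B1 B2 B3 B4 : ℝ), Wt s w1 → Wt s w2 → Wt θ Q1 → Wt θ Q2 →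
      Bd k w1 B1 → Bd k w2 B2 → Bd k Q1 B3 → Bd k Q2 B4 →
      ‖SW P L (fun e => ((Dn F b c1 (c * Real.exp L) L w1 w2 Q1 Q2 e : ℝ) : ℂ))‖ ≤
        C * (B1 * B2 * B3 * B4) * Real.exp (-(η * L)) := by
  have hs := hA.hs
  have hθ := hA.hθ
  have hθ1 := hA.hθ1
  have hs1 := hA.hs1
  have hs' := hA.hs'
  have hm := hA.m1
  obtain ⟨η, hηd⟩ : ∃ η : ℝ, η = (1 - s - θ - 2 * s') / 4 := ⟨_, rfl⟩
  have hη : 0 < η := by rw [hηd]; linarith
  have hη1 : η ≤ 1 := by rw [hηd]; linarith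
  have hs2 : s' ≤ 1 / 4 := by linarith
  obtain ⟨C, A, hC, hE⟩ := Pool.Agent.N782.RB.EZGv F hF c hc s θ hA.toAdm2 η hη hη1 b hb c1 hc1 hc1'
  obtain ⟨C', hC', hd⟩ := Pool.Agent.Helper112.divisor_bound η hη
  refine ⟨(BP ^ 2 + 1) * C' ^ 2 * C * 2, η, A, by positivity, hη, ?_⟩
  intro L hL w1 w2 Q1 Q2 B1 B2 B3 B4 hw1 hw2 hQ1 hQ2 d1 d2 d3 d4
  have hL0 : 0 < L := by linarith
  have b1 := Bd_nonneg d1
  have b2 := Bd_nonneg d2
  have b3 := Bd_nonneg d3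
  have b4 := Bd_nonneg d4
  set B : ℝ := B1 * B2 * B3 * B4 with hB
  have hB0 : 0 ≤ B := by positivity
  have hD1 : 1 ≤ Real.exp (2 * s' * L) := Real.one_le_exp (by positivity)
  have hDL : Real.exp (2 * s' * L) ≤ Real.exp L := Real.exp_le_exp.2 (by nlinarith)
  have h1 := hE L hL (Real.exp (2 * s' * L)) hD1 hDL (Sx s' L) (fun e he => by
    have := Sx_mem.1 he
    exact ⟨this.2.2, this.1⟩) w1 w2 Q1 Q2 B1 B2 B3 B4 hw1 hw2 hQ1 hQ2 d1 d2 d3 d4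
  refine (SW_avg s' P hP BP hBP L hL _).trans ?_
  have h2 : ∀ e ∈ Sx s' L, (e.divisors.card : ℝ) ^ 2 * (1 / (e : ℝ) *
      ‖((Dn F b c1 (c * Real.exp L) L w1 w2 Q1 Q2 e : ℝ) : ℂ)‖) ≤
      (C' ^ 2 * Real.exp (η * L)) * (1 / (e : ℝ) *
        |∑' a : Fin 4 → ℕ, t4c (2 * e) a * w4 L w1 w2 Q1 Q2 a *
          Dng F (bg b e) (c1 / (e : ℝ) ^ 2) (c * Real.exp L) (∏ i, a i)|) := by
    intro e he
    obtain ⟨he1, he2, he3⟩ := Sx_mem.1 he
    have hepos : 0 < e := Nat.pos_of_ne_zero he3.ne_zero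
    have hd1 := hd e hepos
    have h3 : ((e : ℝ) ^ η) ^ 2 ≤ Real.exp (η * L) := by
      calc ((e : ℝ) ^ η) ^ 2 ≤ ((Real.exp (2 * s' * L)) ^ η) ^ 2 := by gcongr
        _ = Real.exp (4 * s' * η * L) := by
            rw [← Real.exp_mul, ← Real.exp_nat_mul]
            congr 1
            push_cast
            ring
        _ ≤ Real.exp (η * L) := Real.exp_le_exp.2 (by nlinarith [mul_pos hη hL0])
    rw [Complex.norm_real, Real.norm_eq_abs]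
    unfold Dn
    apply mul_le_mul_of_nonneg_right _ (by positivity)
    calc (e.divisors.card : ℝ) ^ 2 ≤ (C' * (e : ℝ) ^ η) ^ 2 := by gcongr
      _ = C' ^ 2 * ((e : ℝ) ^ η) ^ 2 := by ring
      _ ≤ _ := by gcongr
  calc BP ^ 2 * ∑ e ∈ Sx s' L, (e.divisors.card : ℝ) ^ 2 * (1 / (e : ℝ) *
        ‖((Dn F b c1 (c * Real.exp L) L w1 w2 Q1 Q2 e : ℝ) : ℂ)‖)
      ≤ BP ^ 2 * ∑ e ∈ Sx s' L, (C' ^ 2 * Real.exp (η * L)) * (1 / (e : ℝ) *
        |∑' a : Fin 4 → ℕ, t4c (2 * e) a * w4 L w1 w2 Q1 Q2 a *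
          Dng F (bg b e) (c1 / (e : ℝ) ^ 2) (c * Real.exp L) (∏ i, a i)|) := by
        exact mul_le_mul_of_nonneg_left (Finset.sum_le_sum h2) (sq_nonneg BP)
    _ = BP ^ 2 * ((C' ^ 2 * Real.exp (η * L)) * ∑ e ∈ Sx s' L, (1 / (e : ℝ) *
        |∑' a : Fin 4 → ℕ, t4c (2 * e) a * w4 L w1 w2 Q1 Q2 a *
          Dng F (bg b e) (c1 / (e : ℝ) ^ 2) (c * Real.exp L) (∏ i, a i)|)) := by
        rw [← mul_sum]
    _ ≤ (BP ^ 2 + 1) * ((C' ^ 2 * Real.exp (η * L)) * (C * B * Real.exp (η * L) *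
          (Real.exp (2 * s' * L) * Real.exp ((s + θ - 1) * L) + Real.exp ((θ - 1 / 2) * L)))) := by
        gcongr
        linarith
    _ = (BP ^ 2 + 1) * C' ^ 2 * C * B * (Real.exp (η * L + η * L + 2 * s' * L + (s + θ - 1) * L) +
          Real.exp (η * L + η * L + (θ - 1 / 2) * L)) := by
        rw [Real.exp_add, Real.exp_add, Real.exp_add, Real.exp_add (η * L + η * L) _,
          Real.exp_add (η * L) (η * L)]
        ring
    _ ≤ (BP ^ 2 + 1) * C' ^ 2 * C * B * (Real.exp (-(η * L)) + Real.exp (-(η * L))) := by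
        gcongr
        · nlinarith
        · nlinarith
    _ = _ := by ring

/-- the squares: the modulus `2e` -/
theorem sqB (H : ℂ → ℂ) (z : ℝ) (hH : HP H z) (c : ℝ) (hc : 0 < c) (s θ s' : ℝ)
    (hA : AdmV s θ s') :
    ∃ (C η a : ℝ) (k : ℕ), 0 < C ∧ 0 < η ∧ 0 < a ∧ a ≤ 1 / 8 ∧
      ∀ L : ℝ, 4 ≤ L → ∀ (w1 w2 Q1 Q2 : ℝ → ℝ)
      (B1 B2 B3 B4 : ℝ), Wt s w1 → Wt s w2 → Wt θ Q1 → Wt θ Q2 →
      Bd k w1 B1 → Bd k w2 B2 → Bd k Q1 B3 → Bd k Q2 B4 →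
      ∀ e : ℕ, Odd e → Squarefree e → (e : ℝ) ≤ Real.exp (2 * s' * L) →
      ‖(∑' a' : Fin 4 → ℕ, ((t4c (2 * e) a' * w4 L w1 w2 Q1 Q2 a' : ℝ) : ℂ) *
        Dsg H (c * Real.exp L) (∏ i, a' i) (1 / 2 + a)) - M2e H c L w1 w2 Q1 Q2 e -
        M2e H c L w2 w1 Q2 Q1 e + M5e H c L w1 w2 Q1 Q2 e‖ ≤
          C * (B1 * B2 * B3 * B4) * Real.exp (-(η * L)) := by
  obtain ⟨hHl, hHh⟩ := Pool.Agent.H306R2.RG.LnkA.HPw H _ hH
  have hs := hA.hs
  have hθ := hA.hθ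
  have hθ1 := hA.hθ1
  have hs1 := hA.hs1
  have hs' := hA.hs'
  have hm := hA.m1
  obtain ⟨η, hηd⟩ : ∃ η : ℝ, η = (1 - s - θ - 2 * s') / 4 := ⟨_, rfl⟩
  have hη : 0 < η := by rw [hηd]; linarith
  have hη1 : η ≤ 1 := by rw [hηd]; linarith
  have hη2 : 2 * s' + θ - 1 / 2 ≤ -(4 * η) := by rw [hηd]; linarith
  have hs2 : s' ≤ 1 / 4 := by linarith
  obtain ⟨C4, a, hC4, ha, ha1, h4⟩ := S4Gu H hHh c hc s θ hs hs1 hθ hθ1 η hη
  obtain ⟨Cq, hCq, hq⟩ := Cqf_le η hη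
  refine ⟨C4 * Cq, η, a, 1, by positivity, hη, ha, ha1, ?_⟩
  intro L hL w1 w2 Q1 Q2 B1 B2 B3 B4 hw1 hw2 hQ1 hQ2 d1 d2 d3 d4 e he hsq hle
  have hL0 : 0 < L := by linarith
  have he0 : e ≠ 0 := hsq.ne_zero
  have hepos : 0 < e := Nat.pos_of_ne_zero he0
  have heR : (1 : ℝ) ≤ e := by exact_mod_cast hepos
  have hθs : θ ≤ s := by linarith
  have hQ1' := Wt_mono hQ1 hθs
  have hQ2' := Wt_mono hQ2 hθs
  have hX : 0 < c * Real.exp L := by positivity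
  have hq0 : 2 * e ≠ 0 := Nat.mul_ne_zero two_ne_zero he0
  have b1 := Bd_nonneg d1
  have b2 := Bd_nonneg d2
  have b3 := Bd_nonneg d3
  have b4 := Bd_nonneg d4
  set B : ℝ := B1 * B2 * B3 * B4 with hB
  have hB0 : 0 ≤ B := by positivity
  have e4 := h4 (2 * e) hq0 L (by linarith) w1 w2 Q1 Q2 B1 B2 B3 B4 hw1 hw2 hQ1 hQ2 d1 d2 d3 d4
  have hσ1 : (0 : ℝ) < 1 / L := by positivity
  have hσ : 1 / L ≤ 1 / 2 + a := by
    rw [div_le_iff₀ (by linarith)]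
    nlinarith
  obtain ⟨f1, f1d⟩ := Pool.Agent.H306R2.RG.LnkA.S5G H _ hH (c * Real.exp L) hX (2 * e) hq0 L hL0 s
    w1 w2 Q1 Q2 hw1 hw2 hQ1' hQ2' (1 / 2 + a) (1 / L) hσ1 hσ (by linarith)
  obtain ⟨f2, -⟩ := Pool.Agent.H306R2.RG.LnkA.S5G H _ hH (c * Real.exp L) hX (2 * e) hq0 L hL0 s
    w2 w1 Q2 Q1 hw2 hw1 hQ2' hQ1' (1 / 2 + a) (1 / L) hσ1 hσ (by linarith)
  rw [f1, f2, f1d] at e4
  unfold M2e M5e
  refine e4.trans ?_
  have h1 := hq e he hsq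
  have h2 : (e : ℝ) ^ η ≤ Real.exp (η * L) := by
    calc (e : ℝ) ^ η ≤ (Real.exp (2 * s' * L)) ^ η := by gcongr
      _ = Real.exp (2 * s' * L * η) := by rw [← Real.exp_mul]
      _ ≤ Real.exp (η * L) := Real.exp_le_exp.2 (by nlinarith [mul_pos hη hL0])
  calc C4 * Cqf (2 * e) * B1 * B2 * B3 * B4 * Real.exp (-((1 / 2 - θ - η) * L))
      = C4 * Cqf (2 * e) * B * Real.exp (-((1 / 2 - θ - η) * L)) := by rw [hB]; ring
    _ ≤ C4 * (Cq * (e : ℝ) * (e : ℝ) ^ η) * B * Real.exp (-((1 / 2 - θ - η) * L)) := by gcongr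
    _ ≤ C4 * (Cq * Real.exp (2 * s' * L) * Real.exp (η * L)) * B *
          Real.exp (-((1 / 2 - θ - η) * L)) := by gcongr
    _ = C4 * Cq * B * Real.exp (2 * s' * L + η * L + -((1 / 2 - θ - η) * L)) := by
        rw [Real.exp_add, Real.exp_add]; ring
    _ ≤ _ := by
        gcongr
        nlinarith

end

end Pool.Agent.N782.G2
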