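import Pool.Agent.N782.RF
import Pool.Agent.N782.FWe

set_option autoImplicit false

/-! The weighted moments over a general family: bounds and limits (helper782). -/

namespace Pool.Agent.N782.G2

open Finset Filter Topology MeasureTheory Pool.Agent.N782.LX Pool.Agent.N782.EW Pool.Agent.N782.KW
open Pool.Agent.H306R2.RZ Pool.Agent.H306R2.RG Pool.Agent.N782.SU
open Pool.Agent.N782.KV
open Pool.Agent.N782.RB (bg bg_abs bg_ne)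
open Pool.Agent.N782.GA (AdmV)
open Pool.Agent.N782.FW (lam Wd Wd_expand EAg_congr Cqf_le pow_exp SW_one SW_small)
open Pool.Agent.H317R2.RG (summR summC t1_t4 odd_prod t4_ne Bd_mono Bd_nonneg Wt_mono wt_bd swapI)

noncomputable section

/-- the weighted error term of the second moment -/
def Er2 (φ : FD) (F : ℝ → ℝ) (H : ℂ → ℂ) (c : ℝ) (P : ℝ → ℝ) (L : ℝ) (w1 w2 Q1 Q2 : ℝ → ℝ) : ℂ :=
  (L : ℂ) * SW P L (fun e => (((e : ℝ) * TTg (Fg φ e) F (c * Real.exp L) (2 * e) L w1 Q1 w2 Q2 :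
        ℝ) : ℂ) - Mn φ.δ F H c L w1 w2 Q1 Q2 e)

/-- the error terms of the weighted moments are negligible -/
structure WS (φ : FD) : Prop where
  odd : ∀ d, φ.A d → Odd d
  er2 : ∀ F : ℝ → ℝ, TF F → ∀ c : ℝ, 0 < c → ∀ s θ s' : ℝ, AdmV s θ s' → ∀ P : ℝ → ℝ, Wt s' P →
    ∃ H : ℂ → ℂ, HP H (-(φ.δ / 2 * Ft F 0)) ∧
      (∃ (C : ℝ) (k : ℕ), 0 < C ∧ ∀ L : ℝ, 4 ≤ L → ∀ (w1 w2 Q1 Q2 : ℝ → ℝ)
        (B1 B2 B3 B4 : ℝ), Wt s w1 → Wt s w2 → Wt θ Q1 → Wt θ Q2 →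
        Bd k w1 B1 → Bd k w2 B2 → Bd k Q1 B3 → Bd k Q2 B4 →
        ‖Er2 φ F H c P L w1 w2 Q1 Q2‖ ≤ C * (B1 * B2 * B3 * B4)) ∧
      ∀ (w1 w2 Q1 Q2 : ℝ → ℝ), Wt s w1 → Wt s w2 → Wt θ Q1 → Wt θ Q2 →
        Tendsto (fun L : ℝ => Er2 φ F H c P L w1 w2 Q1 Q2) atTop (𝓝 0)
  er1 : ∀ F : ℝ → ℝ, TF F → ∀ c : ℝ, 0 < c → ∀ s θ s' : ℝ, AdmV s θ s' → ∀ P : ℝ → ℝ, Wt s' P →
    ∀ w Q : ℝ → ℝ, Wt s w → Wt θ Q →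
    Tendsto (fun L : ℝ => (L : ℂ) * SW P L (fun e => (((e : ℝ) *
      TOg (Fg φ e) F (c * Real.exp L) (2 * e) L w Q : ℝ) : ℂ) -
        ((φ.δ * Ft F 0 : ℝ) : ℂ) * M3e L w Q e)) atTop (𝓝 0)
  er0 : ∀ F : ℝ → ℝ, TF F → ∀ c : ℝ, 0 < c → ∀ s' : ℝ, 0 < s' → s' ≤ 1 / 4 → ∀ P : ℝ → ℝ,
    Wt s' P →
    Tendsto (fun L : ℝ => (L : ℂ) * SW P L (fun e => (((e : ℝ) *
      EAg (Fg φ e) F (c * Real.exp L) (fun _ => 1) : ℝ) : ℂ) -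
        ((φ.δ * Ft F 0 : ℝ) : ℂ))) atTop (𝓝 0)

variable {φ : FD}

/-- the integrand of the second moment -/
def TTv (φ : FD) (L : ℝ) (w1 Q1 w2 Q2 : ℝ → ℝ) (d : ℕ) : ℝ :=
  Ndg φ 2 L w1 d * Mdg φ 2 L Q1 d * (Ndg φ 2 L w2 d * Mdg φ 2 L Q2 d)

/-- splitting of the weighted second moment -/
theorem splitG (hW : WS φ) {s' : ℝ} {P : ℝ → ℝ} (hP : Wt s' P) {L : ℝ} (hL : 0 < L) {F : ℝ → ℝ}
    (hF : TF F) (H : ℂ → ℂ) {c : ℝ} (hc : 0 < c) (w1 w2 Q1 Q2 : ℝ → ℝ) :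
    (L : ℂ) * ((EWg φ P L F (c * Real.exp L) (TTv φ L w1 Q1 w2 Q2) : ℝ) : ℂ) =
      ((φ.δ * Ft F 0 : ℝ) : ℂ) * ((L : ℂ) * SW P L (M1e L w1 w2 Q1 Q2)) +
      (L : ℂ) * SW P L (M2e H c L w1 w2 Q1 Q2) + (L : ℂ) * SW P L (M2e H c L w2 w1 Q2 Q1) -
      (L : ℂ) * SW P L (M5e H c L w1 w2 Q1 Q2) + Er2 φ F H c P L w1 w2 Q1 Q2 := by
  rw [EWg_eq φ hW.odd hP hL hF (by positivity : 0 < c * Real.exp L)]
  have h1 : (fun e : ℕ => (((e : ℝ) * EAg (Fg φ e) F (c * Real.exp L) (TTv φ L w1 Q1 w2 Q2) :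
      ℝ) : ℂ)) = fun e => (((φ.δ * Ft F 0 : ℝ) : ℂ) * M1e L w1 w2 Q1 Q2 e +
        (M2e H c L w1 w2 Q1 Q2 e + (M2e H c L w2 w1 Q2 Q1 e +
          ((-1) * M5e H c L w1 w2 Q1 Q2 e + ((((e : ℝ) * TTg (Fg φ e) F (c * Real.exp L) (2 * e) L
            w1 Q1 w2 Q2 : ℝ) : ℂ) - Mn φ.δ F H c L w1 w2 Q1 Q2 e))))) := by
    funext e
    have h2 : EAg (Fg φ e) F (c * Real.exp L) (TTv φ L w1 Q1 w2 Q2) =
        TTg (Fg φ e) F (c * Real.exp L) (2 * e) L w1 Q1 w2 Q2 := TT_2e φ e F _ L w1 Q1 w2 Q2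
    rw [h2]
    unfold Mn
    ring
  rw [h1, SW_add hP hL, SW_add hP hL, SW_add hP hL, SW_add hP hL, SW_const_mul, SW_const_mul]
  unfold Er2
  ring

theorem UBG (hW : WS φ) (F : ℝ → ℝ) (hF : TF F) (c : ℝ) (hc : 0 < c)
    (s θ s' : ℝ) (hA : AdmV s θ s') (P : ℝ → ℝ) (hP : Wt s' P) :
    ∃ (C : ℝ) (k : ℕ), 0 < C ∧ ∀ L : ℝ, 4 ≤ L → ∀ (w1 w2 Q1 Q2 : ℝ → ℝ)
      (B1 B2 B3 B4 : ℝ), Wt s w1 → Wt s w2 → Wt θ Q1 → Wt θ Q2 →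
      Bd k w1 B1 → Bd k w2 B2 → Bd k Q1 B3 → Bd k Q2 B4 →
      |L * EWg φ P L F (c * Real.exp L) (TTv φ L w1 Q1 w2 Q2)| ≤ C * B1 * B2 * B3 * B4 := by
  obtain ⟨BP, hBP⟩ := wt_bd s' P hP 4
  obtain ⟨H, hH, ⟨C4, k4, hC4, h4⟩, -⟩ := hW.er2 F hF c hc s θ s' hA P hP
  obtain ⟨hHl, hHh⟩ := Pool.Agent.H306R2.RG.LnkA.HPw H _ hH
  have hs1 := hA.hs1
  obtain ⟨⟨C1, k1, hC1, h1⟩, -⟩ := MW1 s' P hP BP hBP s
  obtain ⟨⟨C2, k2, hC2, h2⟩, -⟩ := MW2 s' P hP BP hBP H _ hHl c hc s hs1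
  obtain ⟨⟨C3, k3, hC3, h3⟩, -⟩ := MW5 s' P hP BP hBP H _ hHl c hc s hs1
  have hθs : θ ≤ s := by linarith [hA.hs, hA.hθ1]
  refine ⟨|φ.δ * Ft F 0| * C1 + C2 + C2 + C3 + C4, k1 ⊔ k2 ⊔ k3 ⊔ k4, by positivity, ?_⟩
  intro L hL w1 w2 Q1 Q2 B1 B2 B3 B4 hw1 hw2 hQ1 hQ2 d1 d2 d3 d4
  have hL0 : 0 < L := by linarith
  have m1 : k1 ≤ k1 ⊔ k2 ⊔ k3 ⊔ k4 := le_sup_left.trans (le_sup_left.trans le_sup_left)
  have m2 : k2 ≤ k1 ⊔ k2 ⊔ k3 ⊔ k4 := le_sup_right.trans (le_sup_left.trans le_sup_left)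
  have m3 : k3 ≤ k1 ⊔ k2 ⊔ k3 ⊔ k4 := le_sup_right.trans le_sup_left
  have m4 : k4 ≤ k1 ⊔ k2 ⊔ k3 ⊔ k4 := le_sup_right
  have hQ1' := Wt_mono hQ1 hθs
  have hQ2' := Wt_mono hQ2 hθs
  have e1 := h1 L (by linarith) w1 w2 Q1 Q2 B1 B2 B3 B4 hw1 hw2 hQ1' hQ2' (Bd_mono d1 m1)
    (Bd_mono d2 m1) (Bd_mono d3 m1) (Bd_mono d4 m1)
  have e2 := h2 L hL w1 w2 Q1 Q2 B1 B2 B3 B4 hw1 hw2 hQ1' hQ2' (Bd_mono d1 m2)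
    (Bd_mono d2 m2) (Bd_mono d3 m2) (Bd_mono d4 m2)
  have e2' := h2 L hL w2 w1 Q2 Q1 B2 B1 B4 B3 hw2 hw1 hQ2' hQ1' (Bd_mono d2 m2)
    (Bd_mono d1 m2) (Bd_mono d4 m2) (Bd_mono d3 m2)
  have e3 := h3 L hL w1 w2 Q1 Q2 B1 B2 B3 B4 hw1 hw2 hQ1' hQ2' (Bd_mono d1 m3)
    (Bd_mono d2 m3) (Bd_mono d3 m3) (Bd_mono d4 m3)
  have e4 := h4 L hL w1 w2 Q1 Q2 B1 B2 B3 B4 hw1 hw2 hQ1 hQ2 (Bd_mono d1 m4)
    (Bd_mono d2 m4) (Bd_mono d3 m4) (Bd_mono d4 m4)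
  have b1 := Bd_nonneg d1
  have b2 := Bd_nonneg d2
  have b3 := Bd_nonneg d3
  have b4 := Bd_nonneg d4
  have g0 : |L * EWg φ P L F (c * Real.exp L) (TTv φ L w1 Q1 w2 Q2)| =
      ‖(L : ℂ) * ((EWg φ P L F (c * Real.exp L) (TTv φ L w1 Q1 w2 Q2) : ℝ) : ℂ)‖ := by
    rw [← Complex.ofReal_mul, Complex.norm_real, Real.norm_eq_abs]
  rw [g0, splitG hW hP hL0 hF H hc w1 w2 Q1 Q2]
  set T1 : ℂ := (L : ℂ) * SW P L (M1e L w1 w2 Q1 Q2)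
  set T2 : ℂ := (L : ℂ) * SW P L (M2e H c L w1 w2 Q1 Q2)
  set T2' : ℂ := (L : ℂ) * SW P L (M2e H c L w2 w1 Q2 Q1)
  set T3 : ℂ := (L : ℂ) * SW P L (M5e H c L w1 w2 Q1 Q2)
  set T4 : ℂ := Er2 φ F H c P L w1 w2 Q1 Q2
  calc ‖((φ.δ * Ft F 0 : ℝ) : ℂ) * T1 + T2 + T2' - T3 + T4‖
      ≤ ‖((φ.δ * Ft F 0 : ℝ) : ℂ) * T1‖ + ‖T2‖ + ‖T2'‖ + ‖T3‖ + ‖T4‖ := by
        refine (norm_add_le _ _).trans ?_
        gcongr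
        refine (norm_sub_le _ _).trans ?_
        gcongr
        refine (norm_add_le _ _).trans ?_
        gcongr
        exact norm_add_le _ _
    _ ≤ |φ.δ * Ft F 0| * (C1 * B1 * B2 * B3 * B4) + C2 * B1 * B2 * B3 * B4 +
        C2 * B2 * B1 * B4 * B3 + C3 * B1 * B2 * B3 * B4 + C4 * (B1 * B2 * B3 * B4) := by
        rw [norm_mul, Complex.norm_real, Real.norm_eq_abs]
        gcongr
    _ = _ := by ring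

theorem LIMG (hW : WS φ) (F : ℝ → ℝ) (hF : TF F) (c : ℝ) (hc : 0 < c)
    (s θ s' : ℝ) (hA : AdmV s θ s') (P : ℝ → ℝ) (hP : Wt s' P)
    (w1 w2 Q1 Q2 : ℝ → ℝ) (h1 : Wt s w1) (h2 : Wt s w2) (h3 : Wt θ Q1) (h4 : Wt θ Q2) :
    Tendsto (fun L : ℝ => L * EWg φ P L F (c * Real.exp L) (TTv φ L w1 Q1 w2 Q2)) atTop
      (𝓝 (φ.δ * Ft F 0 * BB w1 Q1 w2 Q2 * (2 * Pn P))) := by
  obtain ⟨BP, hBP⟩ := wt_bd s' P hP 4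
  obtain ⟨H, hH, -, hE⟩ := hW.er2 F hF c hc s θ s' hA P hP
  obtain ⟨hHl, hHh⟩ := Pool.Agent.H306R2.RG.LnkA.HPw H _ hH
  have hs1 := hA.hs1
  have hθs : θ ≤ s := by linarith [hA.hs, hA.hθ1]
  have h3' : Wt s Q1 := Wt_mono h3 hθs
  have h4' : Wt s Q2 := Wt_mono h4 hθs
  have hDg := (MW1 s' P hP BP hBP s).2 w1 w2 Q1 Q2 h1 h2 h3' h4'
  have hO := (MW2 s' P hP BP hBP H _ hHl c hc s hs1).2 w1 w2 Q1 Q2 h1 h2 h3' h4'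
  have hO' := (MW2 s' P hP BP hBP H _ hHl c hc s hs1).2 w2 w1 Q2 Q1 h2 h1 h4' h3'
  have hOd := (MW5 s' P hP BP hBP H _ hHl c hc s hs1).2 w1 w2 Q1 Q2 h1 h2 h3' h4'
  have hN := hE w1 w2 Q1 Q2 h1 h2 h3 h4
  set z : ℝ := -(φ.δ / 2 * Ft F 0) with hz
  set I2 : ℝ := ∫ t in Set.Ioi (0 : ℝ), ∫ y in Set.Ioi (0 : ℝ), al w1 Q1 (1 - y) t * al w2 Q2 y t
    with hI2
  have hI2' : (∫ t in Set.Ioi (0 : ℝ), ∫ y in Set.Ioi (0 : ℝ),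
      al w2 Q2 (1 - y) t * al w1 Q1 y t) = I2 := by
    rw [hI2]
    refine setIntegral_congr_fun measurableSet_Ioi fun t _ => ?_
    exact swapI hs1 h1 h2 t
  rw [hI2'] at hO'
  have hsum := (((((hDg.const_mul ((φ.δ * Ft F 0 : ℝ) : ℂ)).add hO).add hO').sub hOd).add hN)
  have hlim : ((φ.δ * Ft F 0 : ℝ) : ℂ) * (((mn w1 Q1 * mn w2 Q2 + ∫ t in Set.Ioi (0 : ℝ),
        ∫ y in Set.Ioi (0 : ℝ), al w1 Q1 y t * al w2 Q2 y t) / 4 * (2 * Pn P) : ℝ) : ℂ) +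
        ((z / 2 * I2 * (2 * Pn P) : ℝ) : ℂ) + ((z / 2 * I2 * (2 * Pn P) : ℝ) : ℂ) -
        ((z / 2 * I2 * (2 * Pn P) : ℝ) : ℂ) + 0 =
        ((φ.δ * Ft F 0 * BB w1 Q1 w2 Q2 * (2 * Pn P) : ℝ) : ℂ) := by
    rw [Pool.Agent.H930R3.RZID.ID3 s hs1 w1 w2 Q1 Q2 h1 h2 h3' h4', ← hI2, hz]
    push_cast
    ring
  rw [hlim] at hsum
  have hT : Tendsto (fun L : ℝ => ((L * EWg φ P L F (c * Real.exp L) (TTv φ L w1 Q1 w2 Q2) : ℝ) :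
      ℂ)) atTop (𝓝 ((φ.δ * Ft F 0 * BB w1 Q1 w2 Q2 * (2 * Pn P) : ℝ) : ℂ)) := by
    refine hsum.congr' ?_
    filter_upwards [eventually_gt_atTop (0 : ℝ)] with L hL
    exact (splitG hW hP hL hF H hc w1 w2 Q1 Q2).symm.trans (Complex.ofReal_mul _ _).symm
  have := (Complex.continuous_re.tendsto _).comp hT
  simpa [Function.comp_def] using this

theorem LIM1G (hW : WS φ) (F : ℝ → ℝ) (hF : TF F) (c : ℝ) (hc : 0 < c)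
    (s θ s' : ℝ) (hA : AdmV s θ s') (P : ℝ → ℝ) (hP : Wt s' P)
    (w Q : ℝ → ℝ) (h1 : Wt s w) (h2 : Wt θ Q) :
    Tendsto (fun L : ℝ => L * EWg φ P L F (c * Real.exp L)
        (fun d => Ndg φ 2 L w d * Mdg φ 2 L Q d)) atTop
      (𝓝 (φ.δ * Ft F 0 * (mn w Q / 2) * (2 * Pn P))) := by
  obtain ⟨BP, hBP⟩ := wt_bd s' P hP 4
  have hθs : θ ≤ s := by linarith [hA.hs, hA.hθ1]
  have h2' : Wt s Q := Wt_mono h2 hθs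
  have hN := hW.er1 F hF c hc s θ s' hA P hP w Q h1 h2
  have hM := (MW3 s' P hP BP hBP s w Q h1 h2').const_mul ((φ.δ * Ft F 0 : ℝ) : ℂ)
  have hsum := hM.add hN
  have hlim : ((φ.δ * Ft F 0 : ℝ) : ℂ) * ((mn w Q / 2 * (2 * Pn P) : ℝ) : ℂ) + 0 =
      ((φ.δ * Ft F 0 * (mn w Q / 2) * (2 * Pn P) : ℝ) : ℂ) := by
    push_cast
    ring
  rw [hlim] at hsum
  have hT : Tendsto (fun L : ℝ => ((L * EWg φ P L F (c * Real.exp L)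
      (fun d => Ndg φ 2 L w d * Mdg φ 2 L Q d) : ℝ) : ℂ)) atTop
      (𝓝 ((φ.δ * Ft F 0 * (mn w Q / 2) * (2 * Pn P) : ℝ) : ℂ)) := by
    refine hsum.congr' ?_
    filter_upwards [eventually_gt_atTop (0 : ℝ)] with L hL
    rw [Complex.ofReal_mul (r := L), EWg_eq φ hW.odd hP hL hF (by positivity : 0 < c * Real.exp L)]
    have h3 : (fun e : ℕ => (((e : ℝ) * EAg (Fg φ e) F (c * Real.exp L)
        (fun d => Ndg φ 2 L w d * Mdg φ 2 L Q d) : ℝ) : ℂ)) =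
        fun e => (((φ.δ * Ft F 0 : ℝ) : ℂ) * M3e L w Q e +
          ((((e : ℝ) * TOg (Fg φ e) F (c * Real.exp L) (2 * e) L w Q : ℝ) : ℂ) -
          ((φ.δ * Ft F 0 : ℝ) : ℂ) * M3e L w Q e)) := by
      funext e
      rw [TO_2e]
      ring
    rw [h3, SW_add hP hL, SW_const_mul]
    ring
  have := (Complex.continuous_re.tendsto _).comp hT
  simpa [Function.comp_def] using this

theorem EF1G (hW : WS φ) (F : ℝ → ℝ) (hF : TF F) (c : ℝ) (hc : 0 < c)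
    (s' : ℝ) (hs' : 0 < s') (hs8 : s' ≤ 1 / 4) (P : ℝ → ℝ) (hP : Wt s' P) :
    Tendsto (fun L : ℝ => L * EWg φ P L F (c * Real.exp L) (fun _ => 1)) atTop
      (𝓝 (φ.δ * Ft F 0 * (2 * Pn P))) := by
  have hN := hW.er0 F hF c hc s' hs' hs8 P hP
  have hM := (SW_one s' P hP).const_mul ((φ.δ * Ft F 0 : ℝ) : ℂ)
  have hsum := hM.add hN
  have hlim : ((φ.δ * Ft F 0 : ℝ) : ℂ) * ((2 * Pn P : ℝ) : ℂ) + 0 =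
      ((φ.δ * Ft F 0 * (2 * Pn P) : ℝ) : ℂ) := by
    push_cast
    ring
  rw [hlim] at hsum
  have hT : Tendsto (fun L : ℝ => ((L * EWg φ P L F (c * Real.exp L) (fun _ => 1) : ℝ) : ℂ)) atTop
      (𝓝 ((φ.δ * Ft F 0 * (2 * Pn P) : ℝ) : ℂ)) := by
    refine hsum.congr' ?_
    filter_upwards [eventually_gt_atTop (0 : ℝ)] with L hL
    rw [Complex.ofReal_mul (r := L), EWg_eq φ hW.odd hP hL hF (by positivity : 0 < c * Real.exp L)]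
    have h3 : (fun e : ℕ => (((e : ℝ) * EAg (Fg φ e) F (c * Real.exp L) (fun _ => 1) : ℝ) : ℂ)) =
        fun e : ℕ => (((φ.δ * Ft F 0 : ℝ) : ℂ) * 1 +
          ((((e : ℝ) * EAg (Fg φ e) F (c * Real.exp L) (fun _ => 1) : ℝ) : ℂ) -
          ((φ.δ * Ft F 0 : ℝ) : ℂ))) := by
      funext e
      ring
    rw [h3, SW_add hP hL, SW_const_mul]
    ring
  have := (Complex.continuous_re.tendsto _).comp hT
  simpa [Function.comp_def] using this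

end

end Pool.Agent.N782.G2
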