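import Pool.Agent.N782.RH

set_option autoImplicit false

/-! The error terms for the families with Poisson summation (helper782). -/

namespace Pool.Agent.N782.G2

open Finset Filter Topology MeasureTheory Pool.Agent.N782.LX Pool.Agent.N782.EW Pool.Agent.N782.KW
open Pool.Agent.H306R2.RZ Pool.Agent.H306R2.RG Pool.Agent.N782.SU
open Pool.Agent.N782.KV
open Pool.Agent.N782.RB (bg bg_abs bg_ne)
open Pool.Agent.N782.GA (AdmV)
open Pool.Agent.N782.FW (lam Wd Wd_expand EAg_congr Cqf_le pow_exp SW_one SW_small)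
open Pool.Agent.H317R2.RG (summR summC t1_t4 odd_prod t4_ne Bd_mono Bd_nonneg Wt_mono wt_bd swapI)
open Pool.Agent.H884R2.RG (TOg_eq)
open Pool.Agent.H423R2.RZL.LIM1n (main_part wt_bdd cf_abs floor_exp_le odd_of_coprime abs_Gk_le)

noncomputable section

/-- the terms `k ≠ 0`, uniformly in the modulus -/
theorem dual_u (F : ℝ → ℝ) (hF : TF F) (A : ℕ) (hA : Even A) (hA2 : 2 ≤ A) (b : ℤ → ℝ)
    (hb1 : ∀ k, |b k| ≤ 1) (c1 : ℝ) (hc1 : c1 ≠ 0) :
    ∃ C : ℝ, 0 ≤ C ∧ ∀ (e : ℕ), e ≠ 0 → ∀ (X : ℝ) (n : ℕ), 0 < X → Odd n →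
      Summable (fun k : ℤ => bg b e k * Gk k n * Ft F (c1 / (e : ℝ) ^ 2 * k * X / n)) →
      |(∑' k : ℤ, bg b e k * Gk k n * Ft F (c1 / (e : ℝ) ^ 2 * k * X / n)) / n -
        b 0 * Gk 0 n * Ft F 0 / n| ≤ C * ((n : ℝ) * e / X) ^ A := by
  obtain ⟨C, hC⟩ := (Pool.Agent.H881R2.RZ.F1 F hF).2 0 A
  have hC0 : 0 ≤ C := by
    have := (abs_nonneg _).trans (hC 0)
    rwa [abs_zero, add_zero, one_pow, div_one] at this
  have hS : Summable (fun k : ℤ => 1 / (k : ℝ) ^ A) :=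
    Real.summable_one_div_int_pow.2 (by omega)
  have hnn : ∀ k : ℤ, 0 ≤ 1 / (k : ℝ) ^ A := fun k => by
    have := hA.pow_nonneg (k : ℝ)
    positivity
  have hcA : 0 < c1 ^ A := hA.pow_pos hc1
  refine ⟨2 * C / c1 ^ A * ∑' k : ℤ, 1 / (k : ℝ) ^ A, ?_, ?_⟩
  · have : 0 ≤ ∑' k : ℤ, 1 / (k : ℝ) ^ A := tsum_nonneg hnn
    positivity
  intro e he0 X n hX hn hsum
  have heR : (0 : ℝ) < e := by exact_mod_cast Nat.pos_of_ne_zero he0
  have heZ : (e : ℤ) ≠ 0 := by exact_mod_cast he0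
  have hn0 : (0 : ℝ) < n := by
    rcases hn with ⟨m, rfl⟩
    positivity
  have hinj : Function.Injective (fun k : ℤ => (e : ℤ) * k) := fun a b h =>
    mul_left_cancel₀ heZ h
  have hsup : Function.support (fun k : ℤ => bg b e k * Gk k n *
      Ft F (c1 / (e : ℝ) ^ 2 * k * X / n)) ⊆ Set.range (fun k : ℤ => (e : ℤ) * k) := by
    intro k hk
    rw [Function.mem_support] at hk
    have h1 : bg b e k ≠ 0 := by
      intro h0
      exact hk (by rw [h0]; simp)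
    obtain ⟨m, hm⟩ := bg_ne h1
    exact ⟨m, hm.symm⟩
  have h2 := hinj.tsum_eq hsup
  have hs2 := hsum.comp_injective hinj
  have hterm : ∀ k : ℤ, bg b e ((e : ℤ) * k) * Gk ((e : ℤ) * k) n *
      Ft F (c1 / (e : ℝ) ^ 2 * (((e : ℤ) * k : ℤ) : ℝ) * X / n) =
      b ((e : ℤ) * k) * Gk ((e : ℤ) * k) n * Ft F (c1 * k * (X / e) / n) := by
    intro k
    have h1 : bg b e ((e : ℤ) * k) = b ((e : ℤ) * k) := by
      unfold bg
      rw [if_pos (dvd_mul_right _ _)]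
    rw [h1]
    have : c1 / (e : ℝ) ^ 2 * (((e : ℤ) * k : ℤ) : ℝ) * X / n = c1 * k * (X / e) / n := by
      push_cast
      field_simp
    rw [this]
  have hs3 : Summable (fun k : ℤ => b ((e : ℤ) * k) * Gk ((e : ℤ) * k) n *
      Ft F (c1 * k * (X / e) / n)) := hs2.congr hterm
  rw [← h2, tsum_congr hterm]
  set Y : ℝ := X / e with hY
  have hY0 : 0 < Y := by positivity
  have hYn : (n : ℝ) * e / X = n / Y := by rw [hY]; field_simp
  rw [hYn, hs3.tsum_eq_add_tsum_ite 0]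
  have h0 : b ((e : ℤ) * 0) * Gk ((e : ℤ) * 0) n * Ft F (c1 * (((0 : ℤ) : ℝ)) * Y / n) =
      b 0 * Gk 0 n * Ft F 0 := by
    simp
  rw [h0, add_div, add_sub_cancel_left, abs_div, abs_of_pos hn0, div_le_iff₀ hn0]
  have hb : ∀ k : ℤ, |if k = 0 then 0 else b ((e : ℤ) * k) * Gk ((e : ℤ) * k) n *
      Ft F (c1 * k * Y / n)| ≤
        (2 * n * C * ((n : ℝ) / Y) ^ A / c1 ^ A) * (1 / (k : ℝ) ^ A) := by
    intro k
    by_cases hk : k = 0
    · rw [if_pos hk, abs_zero]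
      have := hnn k
      positivity
    · rw [if_neg hk, abs_mul, abs_mul]
      have hk' : (k : ℝ) ≠ 0 := by exact_mod_cast hk
      have h1 := hC (c1 * k * Y / n)
      rw [iteratedDeriv_zero] at h1
      have h2 : |c1 * k * Y / n| ≤ 1 + |c1 * k * Y / n| := by linarith
      have h3 : 0 < |c1 * k * Y / n| := by
        apply abs_pos.2
        positivity
      have h4 : |Ft F (c1 * k * Y / n)| ≤ C / |c1 * k * Y / n| ^ A :=
        h1.trans (div_le_div_of_nonneg_left hC0 (pow_pos h3 _) (pow_le_pow_left₀ h3.le h2 _))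
      have h6 : |b ((e : ℤ) * k)| * |Gk ((e : ℤ) * k) n| ≤ 2 * n := by
        calc |b ((e : ℤ) * k)| * |Gk ((e : ℤ) * k) n| ≤ 1 * (2 * n) :=
              mul_le_mul (hb1 _) (abs_Gk_le _ n) (abs_nonneg _) zero_le_one
          _ = 2 * n := one_mul _
      calc |b ((e : ℤ) * k)| * |Gk ((e : ℤ) * k) n| * |Ft F (c1 * k * Y / n)| ≤
            (2 * n) * (C / |c1 * k * Y / n| ^ A) :=
            mul_le_mul h6 h4 (abs_nonneg _) (by positivity)
        _ = _ := by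
            rw [hA.pow_abs]
            have e2 : (c1 * k * Y / n) ^ A = c1 ^ A * (k : ℝ) ^ A / ((n : ℝ) / Y) ^ A := by
              rw [← mul_pow, ← div_pow]
              congr 1
              field_simp
            rw [e2]
            have h5 : ((n : ℝ) / Y) ^ A ≠ 0 := by positivity
            have h7 : (k : ℝ) ^ A ≠ 0 := by positivity
            have h8 : c1 ^ A ≠ 0 := hcA.ne'
            field_simp
  have hbs : Summable (fun k : ℤ => (2 * n * C * ((n : ℝ) / Y) ^ A / c1 ^ A) * (1 / (k : ℝ) ^ A)) :=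
    hS.mul_left _
  have h5 : |∑' k : ℤ, if k = 0 then 0 else b ((e : ℤ) * k) * Gk ((e : ℤ) * k) n *
      Ft F (c1 * k * Y / n)| ≤
      ∑' k : ℤ, (2 * n * C * ((n : ℝ) / Y) ^ A / c1 ^ A) * (1 / (k : ℝ) ^ A) := by
    rw [← Real.norm_eq_abs]
    exact tsum_of_norm_bounded hbs.hasSum (fun k => by rw [Real.norm_eq_abs]; exact hb k)
  refine h5.trans (le_of_eq ?_)
  rw [tsum_mul_left]
  ring

/-- a bound for the averages over the multiples of `e` -/
def DualP (φ : FD) (F : ℝ → ℝ) : Prop :=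
  ∀ A : ℕ, Even A → 2 ≤ A → ∃ C : ℝ, 0 ≤ C ∧ ∀ (e : ℕ), Odd e → ∀ (X : ℝ) (n : ℕ), 0 < X →
    Odd n → Nat.Coprime n e →
    |(e : ℝ) * EAg (Fg φ e) F X (fun d => js (φ.e * (d : ℤ)) n) -
      φ.δ * (Gk 0 n * Ft F 0 / n)| ≤ C * ((n : ℝ) * e / X) ^ A

theorem dualP {φ : FD} {b1 b2 : ℤ → ℝ} {c1 c2 g1 g2 : ℝ} (hP : PGf φ b1 b2 c1 c2 g1 g2)
    (F : ℝ → ℝ) (hF : TF F) : DualP φ F := by
  intro A hA hA2
  obtain ⟨C1, hC1, h1⟩ := dual_u F hF A hA hA2 b1 hP.hb1 c1 hP.hc1.1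
  obtain ⟨C2, hC2, h2⟩ := dual_u F hF A hA hA2 b2 hP.hb2 c2 hP.hc2.1
  refine ⟨|g1| * C1 + |g2| * C2, by positivity, fun e he X n hX hn hc => ?_⟩
  have he0 : e ≠ 0 := odd_ne he
  obtain ⟨s1, s2, hE⟩ := hP.pg F hF e he X hX n hn hc
  have k1 := h1 e he0 X n hX hn s1
  have k2 := h2 e he0 X n hX hn s2
  rw [hE, ← hP.h0]
  set T1 : ℝ := (∑' k : ℤ, bg b1 e k * Gk k n * Ft F (c1 / (e : ℝ) ^ 2 * k * X / n)) / n
  set T2 : ℝ := (∑' k : ℤ, bg b2 e k * Gk k n * Ft F (c2 / (e : ℝ) ^ 2 * k * X / n)) / n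
  have hrw : g1 * T1 + g2 * T2 - (g1 * b1 0 + g2 * b2 0) * (Gk 0 n * Ft F 0 / n) =
      g1 * (T1 - b1 0 * Gk 0 n * Ft F 0 / n) + g2 * (T2 - b2 0 * Gk 0 n * Ft F 0 / n) := by ring
  rw [hrw]
  calc |g1 * (T1 - b1 0 * Gk 0 n * Ft F 0 / n) + g2 * (T2 - b2 0 * Gk 0 n * Ft F 0 / n)|
      ≤ |g1 * (T1 - b1 0 * Gk 0 n * Ft F 0 / n)| + |g2 * (T2 - b2 0 * Gk 0 n * Ft F 0 / n)| :=
        abs_add_le _ _
    _ ≤ |g1| * (C1 * ((n : ℝ) * e / X) ^ A) + |g2| * (C2 * ((n : ℝ) * e / X) ^ A) := by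
        rw [abs_mul, abs_mul]
        gcongr
    _ = _ := by ring

/-- the error of the first moment -/
theorem err1G {φ : FD} (F : ℝ → ℝ) (hF : TF F) (hD : DualP φ F) (c : ℝ) (hc : 0 < c)
    (s θ s' : ℝ) (hA : AdmV s θ s') (w Q : ℝ → ℝ) (h1 : Wt s w) (h2 : Wt θ Q) :
    ∃ (C η : ℝ), 0 < C ∧ 0 < η ∧ ∀ L : ℝ, 1 ≤ L →
      ∀ e : ℕ, Odd e → Squarefree e → (e : ℝ) ≤ Real.exp (2 * s' * L) →
      ‖(((e : ℝ) * TOg (Fg φ e) F (c * Real.exp L) (2 * e) L w Q : ℝ) : ℂ) -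
        ((φ.δ * Ft F 0 : ℝ) : ℂ) * M3e L w Q e‖ ≤ C * Real.exp (-(η * L)) := by
  obtain ⟨B1, hB1, hw⟩ := wt_bdd h1
  obtain ⟨B2, hB2, hQ⟩ := wt_bdd h2
  have hs := hA.hs
  have hθ := hA.hθ
  have hs'0 := hA.hs'
  have hm1 := hA.m1
  obtain ⟨δ, hδd⟩ : ∃ δ : ℝ, δ = 1 - (s + θ + 2 * s') := ⟨_, rfl⟩
  have hδ : 0 < δ := by rw [hδd]; linarith
  obtain ⟨m, hm⟩ := exists_nat_gt ((s + θ) / δ)
  set A : ℕ := 2 * (m + 1) with hAd
  have hAm : (s + θ) < A * δ := by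
    rw [div_lt_iff₀ hδ] at hm
    have : (m : ℝ) ≤ A := by rw [hAd]; push_cast; linarith [(Nat.cast_nonneg m : (0 : ℝ) ≤ m)]
    nlinarith
  obtain ⟨C, hC, hE⟩ := hD A ⟨m + 1, by omega⟩ (by omega)
  refine ⟨B1 * B2 * (C * (1 / c) ^ A) + 1, A * δ - (s + θ), by positivity, by linarith, ?_⟩
  intro L hL e he hsq hle
  have hL0 : 0 < L := by linarith
  have he0 : e ≠ 0 := hsq.ne_zero
  have heR : (0 : ℝ) < e := by exact_mod_cast Nat.pos_of_ne_zero he0
  have hX : 0 < c * Real.exp L := by positivity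
  have hq : Even (2 * e) := even_two_mul e
  set Ns : ℕ := ⌊Real.exp (s * L)⌋₊ with hNs
  set Nt : ℕ := ⌊Real.exp (θ * L)⌋₊ with hNt
  have hNs' : (Ns : ℝ) ≤ Real.exp (s * L) := floor_exp_le _
  have hNt' : (Nt : ℝ) ≤ Real.exp (θ * L) := floor_exp_le _
  have hst : Real.exp (s * L) * Real.exp (θ * L) = Real.exp ((s + θ) * L) := by
    rw [← Real.exp_add]; ring_nf
  have hmp : φ.δ * Ft F 0 * ∑' a : Fin 2 → ℕ, t3c (2 * e) a *
      (w (Real.log (a 0) / L) * Q (Real.log (a 1) / L)) =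
      ∑ p ∈ Icc 1 Ns ×ˢ Icc 1 Nt,
        Pool.Agent.H423R2.RZL.LIM1n.cf (2 * e) L w Q p * (φ.δ * (Gk 0 (p.1 * p.2) * Ft F 0 /
          ((p.1 * p.2 : ℕ) : ℝ))) := by
    have hm1 := main_part F (2 * e) hq L hL0 s θ w Q h1 h2
    have hm2 : φ.δ * Ft F 0 * ∑' a : Fin 2 → ℕ, t3c (2 * e) a *
      (w (Real.log (a 0) / L) * Q (Real.log (a 1) / L)) = 2 * φ.δ * (1 / 2 * Ft F 0 *
        ∑' a : Fin 2 → ℕ, t3c (2 * e) a *
      (w (Real.log (a 0) / L) * Q (Real.log (a 1) / L))) := by ring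
    rw [hm2, ← hm1, mul_sum]
    refine Finset.sum_congr rfl fun p hp => ?_
    rw [mem_product, mem_Icc, mem_Icc] at hp
    obtain ⟨⟨hp1, -⟩, ⟨hp2, -⟩⟩ := hp
    have hp0 : (((p.1 * p.2 : ℕ)) : ℝ) ≠ 0 := by
      have : 0 < p.1 * p.2 := Nat.mul_pos hp1 hp2
      exact_mod_cast this.ne'
    rw [D0]
    field_simp
  have hTO : (e : ℝ) * TOg (Fg φ e) F (c * Real.exp L) (2 * e) L w Q =
      ∑ p ∈ Icc 1 Ns ×ˢ Icc 1 Nt, Pool.Agent.H423R2.RZL.LIM1n.cf (2 * e) L w Q p *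
        ((e : ℝ) * EAg (Fg φ e) F (c * Real.exp L) (fun d => js (φ.e * (d : ℤ))
          (p.1 * p.2))) := by
    rw [TOg_eq (Fg φ e) F hF _ hX (2 * e) hq L hL0 s θ w Q h1 h2, mul_sum]
    refine Finset.sum_congr rfl fun p hp => ?_
    have : (Fg φ e).e = φ.e := rfl
    rw [this]
    ring
  have hreal : (((e : ℝ) * TOg (Fg φ e) F (c * Real.exp L) (2 * e) L w Q : ℝ) : ℂ) -
      ((φ.δ * Ft F 0 : ℝ) : ℂ) * M3e L w Q e =
      (((e : ℝ) * TOg (Fg φ e) F (c * Real.exp L) (2 * e) L w Q -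
        φ.δ * Ft F 0 * ∑' a : Fin 2 → ℕ, t3c (2 * e) a *
      (w (Real.log (a 0) / L) * Q (Real.log (a 1) / L)) : ℝ) : ℂ) := by
    unfold M3e
    rw [Complex.ofReal_sub]
    congr 1
    rw [← Complex.ofReal_mul]
  rw [hreal, Complex.norm_real, Real.norm_eq_abs, hTO, hmp, ← Finset.sum_sub_distrib]
  have hr0 : 0 ≤ Real.exp ((s + θ) * L) * Real.exp (2 * s' * L) / (c * Real.exp L) := by
    positivity
  calc |∑ p ∈ Icc 1 Ns ×ˢ Icc 1 Nt, (Pool.Agent.H423R2.RZL.LIM1n.cf (2 * e) L w Q p *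
        ((e : ℝ) * EAg (Fg φ e) F (c * Real.exp L) (fun d => js (φ.e * (d : ℤ))
          (p.1 * p.2))) - Pool.Agent.H423R2.RZL.LIM1n.cf (2 * e) L w Q p * (φ.δ *
            (Gk 0 (p.1 * p.2) * Ft F 0 / ((p.1 * p.2 : ℕ) : ℝ))))|
      ≤ ∑ p ∈ Icc 1 Ns ×ˢ Icc 1 Nt, |(Pool.Agent.H423R2.RZL.LIM1n.cf (2 * e) L w Q p *
        ((e : ℝ) * EAg (Fg φ e) F (c * Real.exp L) (fun d => js (φ.e * (d : ℤ))
          (p.1 * p.2))) - Pool.Agent.H423R2.RZL.LIM1n.cf (2 * e) L w Q p * (φ.δ *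
            (Gk 0 (p.1 * p.2) * Ft F 0 / ((p.1 * p.2 : ℕ) : ℝ))))| :=
        Finset.abs_sum_le_sum_abs _ _
    _ ≤ ∑ p ∈ Icc 1 Ns ×ˢ Icc 1 Nt, ((B1 * B2) * (C * (Real.exp ((s + θ) * L) *
          Real.exp (2 * s' * L) / (c * Real.exp L)) ^ A)) := by
        refine Finset.sum_le_sum fun p hp => ?_
        rw [mem_product, mem_Icc, mem_Icc] at hp
        obtain ⟨⟨hp1, hp1'⟩, ⟨hp2, hp2'⟩⟩ := hp
        rw [← mul_sub, abs_mul]
        by_cases hcp : Nat.Coprime p.1 (2 * e) ∧ Nat.Coprime p.2 (2 * e)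
        · have hodd : Odd (p.1 * p.2) := (odd_of_coprime hq hcp.1).mul (odd_of_coprime hq hcp.2)
          have hce : Nat.Coprime (p.1 * p.2) e :=
            Nat.Coprime.mul_left (Nat.Coprime.coprime_mul_left_right hcp.1)
              (Nat.Coprime.coprime_mul_left_right hcp.2)
          have b1 := cf_abs (2 * e) L w Q B1 B2 hB1 hw hQ hB2 p hp1 hp2
          have b3 := hE e he (c * Real.exp L) (p.1 * p.2) hX hodd hce
          have b4 : C * (((p.1 * p.2 : ℕ) : ℝ) * e / (c * Real.exp L)) ^ A ≤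
              C * (Real.exp ((s + θ) * L) * Real.exp (2 * s' * L) / (c * Real.exp L)) ^ A := by
            apply mul_le_mul_of_nonneg_left _ hC
            apply pow_le_pow_left₀ (by positivity)
            apply div_le_div_of_nonneg_right _ hX.le
            apply mul_le_mul _ hle heR.le (Real.exp_pos _).le
            rw [← hst]
            push_cast
            have e1 : (p.1 : ℝ) ≤ Real.exp (s * L) := le_trans (by exact_mod_cast hp1') hNs'
            have e2 : (p.2 : ℝ) ≤ Real.exp (θ * L) := le_trans (by exact_mod_cast hp2') hNt'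
            exact mul_le_mul e1 e2 (Nat.cast_nonneg _) (Real.exp_pos _).le
          exact mul_le_mul b1 (b3.trans b4) (abs_nonneg _) (by positivity)
        · rw [Pool.Agent.H423R2.RZL.LIM1n.cf, if_neg hcp, abs_zero, zero_mul]
          positivity
    _ = (Ns : ℝ) * Nt * ((B1 * B2) * (C * (Real.exp ((s + θ) * L) *
          Real.exp (2 * s' * L) / (c * Real.exp L)) ^ A)) := by
        rw [Finset.sum_const, card_product, Nat.card_Icc, Nat.card_Icc, nsmul_eq_mul]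
        push_cast
        simp
    _ ≤ Real.exp ((s + θ) * L) * ((B1 * B2) * (C * (Real.exp ((s + θ) * L) *
          Real.exp (2 * s' * L) / (c * Real.exp L)) ^ A)) := by
        apply mul_le_mul_of_nonneg_right _ (by positivity)
        rw [← hst]
        exact mul_le_mul hNs' hNt' (Nat.cast_nonneg _) (Real.exp_pos _).le
    _ = (B1 * B2 * (C * (1 / c) ^ A)) * Real.exp (-((A * δ - (s + θ)) * L)) := by
        have e1 : Real.exp ((s + θ) * L) * Real.exp (2 * s' * L) / (c * Real.exp L) =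
            (1 / c) * Real.exp (-(δ * L)) := by
          rw [show -(δ * L) = (s + θ) * L + 2 * s' * L - L by rw [hδd]; ring, Real.exp_sub,
            Real.exp_add]
          field_simp
        rw [e1, mul_pow, ← Real.exp_nat_mul]
        have e2 : Real.exp (-((A * δ - (s + θ)) * L)) =
            Real.exp ((s + θ) * L) * Real.exp ((A : ℝ) * -(δ * L)) := by
          rw [← Real.exp_add]; ring_nf
        rw [e2]
        ring
    _ ≤ _ := by
        apply mul_le_mul_of_nonneg_right _ (Real.exp_pos _).le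
        linarith

/-- the error of the weights -/
theorem err0G {φ : FD} (F : ℝ → ℝ) (hD : DualP φ F) (c : ℝ) (hc : 0 < c)
    (s' : ℝ) (hs8 : s' ≤ 1 / 4) : ∃ C : ℝ, 0 < C ∧
    ∀ L : ℝ, 1 ≤ L → ∀ e : ℕ, Odd e → Squarefree e → (e : ℝ) ≤ Real.exp (2 * s' * L) →
      ‖(((e : ℝ) * EAg (Fg φ e) F (c * Real.exp L) (fun _ => 1) : ℝ) : ℂ) -
        ((φ.δ * Ft F 0 : ℝ) : ℂ)‖ ≤ C * Real.exp (-(1 * L)) := by
  obtain ⟨C, hC, hE⟩ := hD 2 even_two le_rfl
  refine ⟨C * (1 / c) ^ 2 + 1, by positivity, ?_⟩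
  intro L hL e he hsq hle
  have heR : (0 : ℝ) < e := by exact_mod_cast Nat.pos_of_ne_zero hsq.ne_zero
  have h1 := hE e he (c * Real.exp L) 1 (by positivity) odd_one (Nat.coprime_one_left e)
  have hj : ∀ k : ℤ, js k 1 = 1 := by
    intro k
    unfold js
    simp
  have h2 : Gk 0 1 = 1 := by
    rw [Pool.Agent.H66R2.RZP4.P4a 1 odd_one, if_pos ⟨1, rfl⟩]
    simp
  simp only [hj] at h1
  rw [h2, one_mul, Nat.cast_one, div_one] at h1
  rw [← Complex.ofReal_sub, Complex.norm_real, Real.norm_eq_abs]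
  refine h1.trans ?_
  have h3 : 1 * (e : ℝ) / (c * Real.exp L) ≤ 1 / c * Real.exp (-(L / 2)) := by
    rw [one_mul, div_le_iff₀ (by positivity)]
    have h4 : 1 / c * Real.exp (-(L / 2)) * (c * Real.exp L) = Real.exp (L / 2) := by
      have h5 : Real.exp (-(L / 2)) * Real.exp L = Real.exp (L / 2) := by
        rw [← Real.exp_add]; congr 1; ring
      calc 1 / c * Real.exp (-(L / 2)) * (c * Real.exp L) =
          (Real.exp (-(L / 2)) * Real.exp L) * (1 / c * c) := by ring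
        _ = _ := by rw [h5, one_div, inv_mul_cancel₀ hc.ne', mul_one]
    rw [h4]
    exact hle.trans (Real.exp_le_exp.2 (by nlinarith))
  calc C * (1 * (e : ℝ) / (c * Real.exp L)) ^ 2 ≤ C * (1 / c * Real.exp (-(L / 2))) ^ 2 := by
        gcongr
    _ = C * (1 / c) ^ 2 * Real.exp (-(1 * L)) := by
        rw [mul_pow, ← Real.exp_nat_mul]
        push_cast
        rw [show (2 : ℝ) * -(L / 2) = -(1 * L) by ring]
        ring
    _ ≤ _ := by
        apply mul_le_mul_of_nonneg_right _ (Real.exp_pos _).le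
        linarith

/-- a family with Poisson summation -/
theorem WS_of {φ : FD} {b1 b2 : ℤ → ℝ} {c1 c2 g1 g2 : ℝ} (hP : PGf φ b1 b2 c1 c2 g1 g2)
    (hS : ∀ F : ℝ → ℝ, TF F → ∃ H : ℂ → ℂ, HP H (-(φ.δ / 2 * Ft F 0)) ∧
      SqP F b1 b2 c1 c2 g1 g2 H) : WS φ where
  odd := hP.hA
  er2 := by
    intro F hF c hc s θ s' hA P hPs
    obtain ⟨H, hH, hSq⟩ := hS F hF
    obtain ⟨BP, hBP⟩ := wt_bd s' P hPs 4
    have hBP0 := Bd_mono hBP (Nat.zero_le 4)
    obtain ⟨Ca, η0, a, ka, hCa, hη0, ha, ha1, hsq⟩ := sqB H _ hH c hc s θ s' hA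
    obtain ⟨C1, η1, k1, hC1, hη1, hn1⟩ := ngB F hF c hc s θ s' hA P hPs BP hBP0 b1 hP.hb1 c1
      hP.hc1.1 hP.hc1.2
    obtain ⟨C2, η2, k2, hC2, hη2, hn2⟩ := ngB F hF c hc s θ s' hA P hPs BP hBP0 b2 hP.hb2 c2
      hP.hc2.1 hP.hc2.2
    obtain ⟨η, hη, e0, e1, e2⟩ : ∃ η : ℝ, 0 < η ∧ η ≤ η0 ∧ η ≤ η1 ∧ η ≤ η2 :=
      ⟨min η0 (min η1 η2), by positivity, min_le_left _ _,
        (min_le_right _ _).trans (min_le_left _ _), (min_le_right _ _).trans (min_le_right _ _)⟩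
    obtain ⟨C', hC', hp⟩ := pow_exp (η / 2) (by positivity)
    have hs' := hA.hs'
    have hs8 : s' ≤ 1 := by
      have h1 := hA.hs
      have h2 := hA.hθ
      have h3 := hA.m1
      linarith
    have key : ∃ (C : ℝ) (k : ℕ), 0 < C ∧ ∀ L : ℝ, 4 ≤ L → ∀ (w1 w2 Q1 Q2 : ℝ → ℝ)
        (B1 B2 B3 B4 : ℝ), Wt s w1 → Wt s w2 → Wt θ Q1 → Wt θ Q2 →
        Bd k w1 B1 → Bd k w2 B2 → Bd k Q1 B3 → Bd k Q2 B4 →
        ‖Er2 φ F H c P L w1 w2 Q1 Q2‖ ≤ C * (B1 * B2 * B3 * B4) * Real.exp (-(η / 2 * L)) := by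
      refine ⟨((BP ^ 2 + 1) * Ca + |g1| * C1 + |g2| * C2) * C', ka ⊔ k1 ⊔ k2, by positivity, ?_⟩
      intro L hL w1 w2 Q1 Q2 B1 B2 B3 B4 hw1 hw2 hQ1 hQ2 d1 d2 d3 d4
      have hL0 : 0 < L := by linarith
      have b1' := Bd_nonneg d1
      have b2' := Bd_nonneg d2
      have b3' := Bd_nonneg d3
      have b4' := Bd_nonneg d4
      have ma : ka ≤ ka ⊔ k1 ⊔ k2 := le_sup_left.trans le_sup_left
      have m1 : k1 ≤ ka ⊔ k1 ⊔ k2 := le_sup_right.trans le_sup_left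
      have m2 : k2 ≤ ka ⊔ k1 ⊔ k2 := le_sup_right
      set B : ℝ := B1 * B2 * B3 * B4 with hB
      have hB0 : 0 ≤ B := by positivity
      have hθs : θ ≤ s := by linarith [hA.hs, hA.hθ1]
      have hQ1' := Wt_mono hQ1 hθs
      have hQ2' := Wt_mono hQ2 hθs
      have hX : 0 < c * Real.exp L := by positivity
      set A0 : ℕ → ℂ := fun e => (∑' a' : Fin 4 → ℕ, ((t4c (2 * e) a' * w4 L w1 w2 Q1 Q2 a' : ℝ) :
        ℂ) * Dsg H (c * Real.exp L) (∏ i, a' i) (1 / 2 + a)) - M2e H c L w1 w2 Q1 Q2 e -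
        M2e H c L w2 w1 Q2 Q1 e + M5e H c L w1 w2 Q1 Q2 e with hA0
      have hdec : SW P L (fun e => (((e : ℝ) * TTg (Fg φ e) F (c * Real.exp L) (2 * e) L w1 Q1 w2
          Q2 : ℝ) : ℂ) - Mn φ.δ F H c L w1 w2 Q1 Q2 e) = SW P L A0 +
          ((g1 : ℂ) * SW P L (fun e => ((Dn F b1 c1 (c * Real.exp L) L w1 w2 Q1 Q2 e : ℝ) : ℂ)) +
          (g2 : ℂ) * SW P L (fun e => ((Dn F b2 c2 (c * Real.exp L) L w1 w2 Q1 Q2 e : ℝ) : ℂ))) := by
        rw [← SW_const_mul, ← SW_const_mul, ← SW_add hPs hL0, ← SW_add hPs hL0]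
        refine SW_congr P L _ _ fun e he hsqe => ?_
        have h5 := decompG hP.hA F hF H e he b1 b2 c1 c2 g1 g2 (c * Real.exp L) hX (fun _ => 0)
          (fun n hn hce σ0 h0 h1 => by
            rw [sub_zero]
            exact dec_of hP hF hSq he hsqe hX hn hce h0 h1)
          L hL0 s w1 w2 Q1 Q2 hw1 hw2 hQ1' hQ2' (1 / 2 + a) (by linarith) (by linarith)
        rw [h5]
        simp only [hA0]
        unfold Mn M1e
        push_cast
        simp only [mul_zero, tsum_zero]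
        ring
      have n0 : ‖SW P L A0‖ ≤ BP ^ 2 * (Ca * B * Real.exp (-(η0 * L))) * (1 + s' * L) ^ 3 :=
        Pool.Agent.N782.SWc.SW_crude s' hs'.le P hPs BP hBP0 L
          (by linarith) A0 (Ca * B * Real.exp (-(η0 * L))) (by positivity)
          (fun e he hsqe hle => hsq L hL w1 w2 Q1 Q2 B1 B2 B3 B4 hw1 hw2 hQ1 hQ2 (Bd_mono d1 ma)
            (Bd_mono d2 ma) (Bd_mono d3 ma) (Bd_mono d4 ma) e he hsqe hle)
      have n1 := hn1 L (by linarith) w1 w2 Q1 Q2 B1 B2 B3 B4 hw1 hw2 hQ1 hQ2 (Bd_mono d1 m1)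
            (Bd_mono d2 m1) (Bd_mono d3 m1) (Bd_mono d4 m1)
      have n2 := hn2 L (by linarith) w1 w2 Q1 Q2 B1 B2 B3 B4 hw1 hw2 hQ1 hQ2 (Bd_mono d1 m2)
            (Bd_mono d2 m2) (Bd_mono d3 m2) (Bd_mono d4 m2)
      have x0 : Real.exp (-(η0 * L)) ≤ Real.exp (-(η * L)) := Real.exp_le_exp.2 (by nlinarith)
      have x1 : Real.exp (-(η1 * L)) ≤ Real.exp (-(η * L)) := Real.exp_le_exp.2 (by nlinarith)
      have x2 : Real.exp (-(η2 * L)) ≤ Real.exp (-(η * L)) := Real.exp_le_exp.2 (by nlinarith)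
      have h2 : L * (1 + s' * L) ^ 3 ≤ (1 + L) ^ 4 := by
        calc L * (1 + s' * L) ^ 3 ≤ (1 + L) * (1 + L) ^ 3 := by
              gcongr
              · linarith
              · nlinarith
          _ = (1 + L) ^ 4 := by ring
      have h3 : L ≤ (1 + L) ^ 4 := by
        calc L ≤ (1 + L) ^ 1 := by rw [pow_one]; linarith
          _ ≤ (1 + L) ^ 4 := pow_le_pow_right₀ (by linarith) (by norm_num)
      have h4 := hp L hL0.le
      unfold Er2
      rw [hdec, norm_mul, Complex.norm_real, Real.norm_of_nonneg hL0.le]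
      calc L * ‖SW P L A0 +
          ((g1 : ℂ) * SW P L (fun e => ((Dn F b1 c1 (c * Real.exp L) L w1 w2 Q1 Q2 e : ℝ) : ℂ)) +
          (g2 : ℂ) * SW P L (fun e => ((Dn F b2 c2 (c * Real.exp L) L w1 w2 Q1 Q2 e : ℝ) : ℂ)))‖
          ≤ L * (BP ^ 2 * (Ca * B * Real.exp (-(η * L))) * (1 + s' * L) ^ 3 +
              (|g1| * (C1 * B * Real.exp (-(η * L))) +
              |g2| * (C2 * B * Real.exp (-(η * L))))) := by
            apply mul_le_mul_of_nonneg_left _ hL0.le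
            refine (norm_add_le _ _).trans ?_
            refine add_le_add (n0.trans ?_) ((norm_add_le _ _).trans (add_le_add ?_ ?_))
            · gcongr
            · rw [norm_mul, Complex.norm_real, Real.norm_eq_abs]
              exact mul_le_mul_of_nonneg_left (n1.trans (by gcongr)) (abs_nonneg _)
            · rw [norm_mul, Complex.norm_real, Real.norm_eq_abs]
              exact mul_le_mul_of_nonneg_left (n2.trans (by gcongr)) (abs_nonneg _)
        _ = B * Real.exp (-(η * L)) * (BP ^ 2 * Ca * (L * (1 + s' * L) ^ 3) +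
              (|g1| * C1 + |g2| * C2) * L) := by ring
        _ ≤ B * Real.exp (-(η * L)) * ((BP ^ 2 + 1) * Ca * (C' * Real.exp (η / 2 * L)) +
              (|g1| * C1 + |g2| * C2) * (C' * Real.exp (η / 2 * L))) := by
            apply mul_le_mul_of_nonneg_left _ (by positivity)
            refine add_le_add ?_ ?_
            · apply mul_le_mul _ (h2.trans h4) (by positivity) (by positivity)
              gcongr
              linarith
            · exact mul_le_mul_of_nonneg_left (h3.trans h4) (by positivity)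
        _ = ((BP ^ 2 + 1) * Ca + |g1| * C1 + |g2| * C2) * C' * B *
              (Real.exp (-(η * L)) * Real.exp (η / 2 * L)) := by ring
        _ = _ := by
            rw [← Real.exp_add]
            congr 2
            ring
    obtain ⟨C, k, hC, hk⟩ := key
    refine ⟨H, hH, ⟨C, k, hC, fun L hL w1 w2 Q1 Q2 B1 B2 B3 B4 hw1 hw2 hQ1 hQ2 d1 d2 d3 d4 => ?_⟩,
      fun w1 w2 Q1 Q2 hw1 hw2 hQ1 hQ2 => ?_⟩
    · refine (hk L hL w1 w2 Q1 Q2 B1 B2 B3 B4 hw1 hw2 hQ1 hQ2 d1 d2 d3 d4).trans ?_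
      have b1' := Bd_nonneg d1
      have b2' := Bd_nonneg d2
      have b3' := Bd_nonneg d3
      have b4' := Bd_nonneg d4
      apply mul_le_of_le_one_right (by positivity)
      rw [Real.exp_le_one_iff]
      have : 0 ≤ η / 2 * L := by
        have : 0 < L := by linarith
        positivity
      linarith
    · obtain ⟨B1, hB1⟩ := wt_bd s w1 hw1 k
      obtain ⟨B2, hB2⟩ := wt_bd s w2 hw2 k
      obtain ⟨B3, hB3⟩ := wt_bd θ Q1 hQ1 k
      obtain ⟨B4, hB4⟩ := wt_bd θ Q2 hQ2 k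
      have hexp : Tendsto (fun L : ℝ => (C * (B1 * B2 * B3 * B4)) * Real.exp (-(η / 2 * L))) atTop
          (𝓝 0) := by
        have : Tendsto (fun L : ℝ => Real.exp (-(η / 2 * L))) atTop (𝓝 0) := by
          apply Real.tendsto_exp_neg_atTop_nhds_zero.comp
          exact tendsto_id.const_mul_atTop (by positivity)
        simpa using this.const_mul (C * (B1 * B2 * B3 * B4))
      apply squeeze_zero_norm' _ hexp
      filter_upwards [eventually_ge_atTop 4] with L hL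
      exact hk L hL w1 w2 Q1 Q2 B1 B2 B3 B4 hw1 hw2 hQ1 hQ2 hB1 hB2 hB3 hB4
  er1 := by
    intro F hF c hc s θ s' hA P hPs w Q hw hQ
    have hs8 : s' ≤ 1 := by
      have h1 := hA.hs
      have h2 := hA.hθ
      have h3 := hA.m1
      linarith
    obtain ⟨C, η, hC, hη, hE⟩ := err1G F hF (dualP hP F hF) c hc s θ s' hA w Q hw hQ
    exact SW_small s' hA.hs' hs8 P hPs C η hC hη (fun L e => (((e : ℝ) *
      TOg (Fg φ e) F (c * Real.exp L) (2 * e) L w Q : ℝ) : ℂ) -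
        ((φ.δ * Ft F 0 : ℝ) : ℂ) * M3e L w Q e) hE
  er0 := by
    intro F hF c hc s' hs' hs8 P hPs
    obtain ⟨C, hC, hE⟩ := err0G F (dualP hP F hF) c hc s' hs8
    exact SW_small s' hs' (by linarith) P hPs C 1 hC one_pos (fun L e => (((e : ℝ) *
      EAg (Fg φ e) F (c * Real.exp L) (fun _ => 1) : ℝ) : ℂ) - ((φ.δ * Ft F 0 : ℝ) : ℂ)) hE

end

end Pool.Agent.N782.G2
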