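import Pool.Agent.N782.RI

set_option autoImplicit false

/-! The families with Poisson summation: instances (helper782). -/

namespace Pool.Agent.N782.G2

open Finset Filter Topology MeasureTheory
open Pool.Agent.H306R2.RZ Pool.Agent.H306R2.RG
open Pool.Agent.H306R2.RG.LnkA (bb8 bb4 bb1 bb2 FF1 gz Fme FE3)

noncomputable section

theorem WS8 (ε : ℤ) (hε : ε = 1 ∨ ε = -1) : WS (F8 ε) :=
  WS_of (PG8f ε hε) (fun F hF => Sq8 ε hε F hF)

theorem WS4 (ε : ℤ) (hε : ε = 1 ∨ ε = -1) : WS (F4 ε) :=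
  WS_of (PG4f ε hε) (fun F hF => Sq4 ε hε F hF)

/-- no perfect squares in the family -/
def NSq (ε c : ℤ) : Prop := (ε = 1 ∧ c = 5) ∨ (ε = -1 ∧ (c = 5 ∨ c = 1))

theorem WS1 (ε c : ℤ) (h : NSq ε c) : WS (F1 ε c) := by
  have hε : ε = 1 ∨ ε = -1 := by
    rcases h with h | h
    · exact Or.inl h.1
    · exact Or.inr h.1
  have hc : c = 1 ∨ c = 5 := by
    rcases h with h | h
    · exact Or.inr h.2
    · exact h.2.symm
  have hPG : PGf (F1 ε c) bb1 bb2 ((ε : ℝ) / 4) ((ε : ℝ) / 8) (1 / 8)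
      ((FF1 ε c).η * Real.sqrt 2 / 8) :=
    PGf_congr (φ := F1 ε c) (ψ := FF1 ε c) rfl rfl (Pool.Agent.H699R2.RG_DEC.A_iff ε c h)
      (PG1f ε c hε hc)
  refine WS_of hPG ?_
  intro F hF
  obtain ⟨H, hH, hS⟩ := Sq1 ε c hε F hF
  refine ⟨H, hH, ?_⟩
  have h0 : gz (FF1 ε c).η (1 / 2) * Fme ε F (1 / 2) = 0 := by
    have g5 : ∀ ε : ℤ, gz (FF1 ε 5).η (1 / 2) = 0 := by
      intro ε
      have : (FF1 ε 5).η = -1 := by
        show (if (5 : ℤ) = 1 then (1 : ℝ) else -1) = -1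
        norm_num
      rw [this, Pool.Agent.H699R2.RG_DEC.gz_half]
      push_cast
      norm_num
    rcases h with ⟨h1, h2⟩ | ⟨h1, h2 | h2⟩
    · rw [h2, g5, zero_mul]
    · rw [h2, g5, zero_mul]
    · rw [h1, (FE3 F hF).1, mul_zero]
  intro X hX n hn σ0 h1 h2
  rw [hS X hX n hn σ0 h1 h2]
  refine Pool.Agent.H699R2.RG_DEC.Dsg_congr _ _ _ _ _ fun t => ?_
  rw [h0]
  simp

end

end Pool.Agent.N782.G2
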