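import Pool.Agent.N782.GI
import Pool.Agent.N782.RJ

set_option autoImplicit false

/-! The sieve-weighted average and the average over primes, all families (helper782). -/

namespace Pool.Agent.N782.G2

open Finset Filter Topology MeasureTheory Pool.Agent.H306R2.RZ Pool.Agent.H306R2.RG
open Pool.Agent.N782.GA
open Pool.Agent.N782.FW (Wd)
open Pool.Agent.N782.GI (TF_supp supp_exp Wd_prime)
open Pool.Agent.N782.KW (Pn)

noncomputable section

open Classical in
/-- the weights of the sieve -/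
def omW (φ : FD) (P F : ℝ → ℝ) (L : ℝ) (d : ℕ) : ℝ :=
  if φ.A d ∧ 1 ≤ L then L / (2 * Pn P) * (F ((d : ℝ) / Real.exp L) / Real.exp L) * Wd P L d
  else 0

open Classical in
/-- the weights of the primes -/
def omp (φ : FD) (s' : ℝ) (F : ℝ → ℝ) (L : ℝ) (d : ℕ) : ℝ :=
  if φ.A d ∧ d.Prime ∧ 1 ≤ L ∧ s' * L < Real.log d then
    1 / 2 * Real.log d * (F ((d : ℝ) / Real.exp L) / Real.exp L) else 0

theorem omp_F8 (ε : ℤ) : omp (F8 ε) = Pool.Agent.N782.GI.omp ε := rfl

theorem gw_W (φ : FD) {P F : ℝ → ℝ} (hF : TF F) (hF0 : ∀ x, 0 ≤ F x) (hPn : 0 < Pn P) :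
    GW φ (omW φ P F) where
  nn := by
    intro L d
    unfold omW
    split_ifs with h
    · have : 0 ≤ L := by linarith [h.2]
      have h1 : 0 ≤ Wd P L d := by unfold Wd; positivity
      have h2 := hF0 ((d : ℝ) / Real.exp L)
      positivity
    · exact le_rfl
  supp := by
    obtain ⟨R, hR, h⟩ := TF_supp hF
    refine ⟨R, hR, fun L d hd => ?_⟩
    unfold omW at hd
    split_ifs at hd with h1
    · refine ⟨h1.1, supp_exp hR h L d ?_⟩
      intro h0
      apply hd
      rw [h0]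
      ring
    · exact absurd rfl hd

theorem EA_W (φ : FD) (P F : ℝ → ℝ) {L : ℝ} (hL : 1 ≤ L) (f : ℕ → ℝ) :
    EA (omW φ P F L) f = 1 / (2 * Pn P) * (L * EWg φ P L F (1 * Real.exp L) f) := by
  unfold EA EWg EAg
  rw [one_mul, ← mul_assoc, mul_div_assoc', ← tsum_mul_left, ← tsum_div_const]
  refine tsum_congr fun d => ?_
  unfold omW
  by_cases hd : φ.A d
  · rw [if_pos ⟨hd, hL⟩, if_pos hd]
    field_simp
  · rw [if_neg (fun h => hd h.1), if_neg hd]
    simp

theorem ge_W {φ : FD} (hW : WS φ) {P F : ℝ → ℝ} (hF : TF F) (hF0 : ∀ x, 0 ≤ F x)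
    (hPn : 0 < Pn P) {s' : ℝ} (hs' : 0 < s') (hs8 : s' ≤ 1 / 4) (hP : Wt s' P) :
    GE φ s' (omW φ P F) where
  nn := (gw_W φ hF hF0 hPn).nn
  supp := (gw_W φ hF hF0 hPn).supp
  ub := by
    intro s θ hA
    obtain ⟨C, k, hC, h⟩ := UBG hW F hF 1 one_pos s θ s' hA P hP
    refine ⟨1 / (2 * Pn P) * C, 4, k, by positivity, fun L hL w Q B B' h1 h2 h3 h4 => ?_⟩
    have h5 := h L hL w w Q Q B B B' B' h1 h1 h2 h2 h3 h3 h4 h4
    rw [EA_W φ P F (by linarith)]
    have h6 : (fun d => (Ndg φ 2 L w d * Mdg φ 2 L Q d) ^ 2) = TTv φ L w Q w Q := by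
      funext d
      unfold TTv
      ring
    rw [h6]
    have h7 := (le_abs_self _).trans h5
    calc _ ≤ 1 / (2 * Pn P) * (C * B * B * B' * B') :=
          mul_le_mul_of_nonneg_left h7 (by positivity)
      _ = _ := by ring
  one := by
    have h := (EF1G hW F hF 1 one_pos s' hs' hs8 P hP).eventually
      (eventually_le_nhds (show φ.δ * Ft F 0 * (2 * Pn P) <
        |φ.δ * Ft F 0 * (2 * Pn P)| + 1 by linarith [le_abs_self (φ.δ * Ft F 0 * (2 * Pn P))]))
    obtain ⟨L0, hL0⟩ := eventually_atTop.1 h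
    refine ⟨1 / (2 * Pn P) * (|φ.δ * Ft F 0 * (2 * Pn P)| + 1), max L0 1, by positivity,
      fun L hL => ?_⟩
    rw [EA_W φ P F ((le_max_right _ _).trans hL)]
    exact mul_le_mul_of_nonneg_left (hL0 L ((le_max_left _ _).trans hL)) (by positivity)

theorem m2_W {φ : FD} (hW : WS φ) {P F : ℝ → ℝ} (hF : TF F)
    (hPn : 0 < Pn P) {s' : ℝ} (hs' : 0 < s') (hs8 : s' ≤ 1 / 4) (hP : Wt s' P) :
    M2 φ s' (φ.δ * Ft F 0) (omW φ P F) where
  l0 := by
    have h := (EF1G hW F hF 1 one_pos s' hs' hs8 P hP).const_mul (1 / (2 * Pn P))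
    have e : 1 / (2 * Pn P) * (φ.δ * Ft F 0 * (2 * Pn P)) = φ.δ * Ft F 0 := by
      field_simp
    rw [e] at h
    refine h.congr' ?_
    filter_upwards [eventually_ge_atTop (1 : ℝ)] with L hL
    rw [EA_W φ P F hL]
  l1 := by
    intro s θ hA w Q hw hQ
    have h := (LIM1G hW F hF 1 one_pos s θ s' hA P hP w Q hw hQ).const_mul
      (1 / (2 * Pn P))
    have e : 1 / (2 * Pn P) * (φ.δ * Ft F 0 * (mn w Q / 2) * (2 * Pn P)) =
        φ.δ * Ft F 0 * (mn w Q / 2) := by
      field_simp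
    rw [e] at h
    refine h.congr' ?_
    filter_upwards [eventually_ge_atTop (1 : ℝ)] with L hL
    rw [EA_W φ P F hL]
  l2 := by
    intro s θ hA w1 w2 Q1 Q2 h1 h2 h3 h4
    have h := (LIMG hW F hF 1 one_pos s θ s' hA P hP w1 w2 Q1 Q2 h1 h2
      h3 h4).const_mul (1 / (2 * Pn P))
    have e : 1 / (2 * Pn P) * (φ.δ * Ft F 0 * BB w1 Q1 w2 Q2 * (2 * Pn P)) =
        φ.δ * Ft F 0 * BB w1 Q1 w2 Q2 := by
      field_simp
    rw [e] at h
    refine h.congr' ?_
    filter_upwards [eventually_ge_atTop (1 : ℝ)] with L hL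
    rw [EA_W φ P F hL]
    rfl

theorem gw_p (φ : FD) (s' : ℝ) {F : ℝ → ℝ} (hF : TF F) (hF0 : ∀ x, 0 ≤ F x) :
    GW φ (omp φ s' F) where
  nn := by
    intro L d
    unfold omp
    split_ifs with h
    · have h2 := hF0 ((d : ℝ) / Real.exp L)
      have h3 := Real.log_natCast_nonneg d
      positivity
    · exact le_rfl
  supp := by
    obtain ⟨R, hR, h⟩ := TF_supp hF
    refine ⟨R, hR, fun L d hd => ?_⟩
    unfold omp at hd
    split_ifs at hd with h1
    · refine ⟨h1.1, supp_exp hR h L d ?_⟩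
      intro h0
      apply hd
      rw [h0]
      ring
    · exact absurd rfl hd

open Classical in
theorem dom (φ : FD) {P F : ℝ → ℝ} (hF0 : ∀ x, 0 ≤ F x) (hF1 : ∀ x, 1 < x → F x = 0)
    (hPn : 0 < Pn P) (hP0 : P 0 = 1) {s' : ℝ} (hP : Wt s' P) (L : ℝ) (d : ℕ) :
    omp φ s' F L d ≤ Pn P * omW φ P F L d := by
  unfold omp omW
  by_cases h : φ.A d ∧ d.Prime ∧ 1 ≤ L ∧ s' * L < Real.log d
  · obtain ⟨h1, h2, h3, h4⟩ := h
    rw [if_pos ⟨h1, h2, h3, h4⟩, if_pos ⟨h1, h3⟩, Wd_prime hP0 hP h3 h2 h4]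
    have hX := Real.exp_pos L
    have e : Pn P * (L / (2 * Pn P) * (F ((d : ℝ) / Real.exp L) / Real.exp L) * 1) =
        1 / 2 * L * (F ((d : ℝ) / Real.exp L) / Real.exp L) := by
      field_simp
    rw [e]
    by_cases h5 : F ((d : ℝ) / Real.exp L) = 0
    · rw [h5]; simp
    · have h6 : (d : ℝ) / Real.exp L ≤ 1 := by
        by_contra hc
        exact h5 (hF1 _ (not_le.1 hc))
      have h7 : Real.log d ≤ L := by
        rw [div_le_one hX] at h6
        have := Real.log_le_log (by exact_mod_cast h2.pos) h6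
        rwa [Real.log_exp] at this
      have h8 := hF0 ((d : ℝ) / Real.exp L)
      apply mul_le_mul_of_nonneg_right _ (by positivity)
      linarith
  · rw [if_neg h]
    have h2 := (show 0 ≤ Pn P * (if φ.A d ∧ 1 ≤ L then
      L / (2 * Pn P) * (F ((d : ℝ) / Real.exp L) / Real.exp L) * Wd P L d else 0) by
        split_ifs with h'
        · have : 0 ≤ L := by linarith [h'.2]
          have h1 : 0 ≤ Wd P L d := by unfold Wd; positivity
          have h2 := hF0 ((d : ℝ) / Real.exp L)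
          positivity
        · simp)
    exact h2

end

end Pool.Agent.N782.G2
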