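import Pool.Agent.N782.PA
import Pool.Agent.N782.GT
import Pool.Agent.N782.RK
import Pool.Agent.H423R2.RGL.FGF
import Pool.Agent.H423R2.RGL.CGF
import Pool.Agent.H423R2.RGL.OldN
import Pool.Agent.H56R2.RZ_NB2

set_option autoImplicit false

/-! Constants and the bound for the bad primes, all families (helper782). -/

namespace Pool.Agent.N782.G2

open Finset Filter Topology MeasureTheory Pool.Agent.H306R2.RZ Pool.Agent.H306R2.RG
open Pool.Agent.N782.GA
open Pool.Agent.N782.ND
open Pool.Agent.N782.PA (exists_P MRm)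
open Pool.Agent.N782.KW (Pn)

noncomputable section

/-- `u coth u` is increasing -/
theorem ucoth {u v : ℝ} (hu : 0 < u) (huv : u ≤ v) :
    u * (Real.cosh u / Real.sinh u) ≤ v * (Real.cosh v / Real.sinh v) := by
  have hmono : MonotoneOn (fun t : ℝ => t * (Real.cosh t / Real.sinh t)) (Set.Ioi 0) := by
    have hne : ∀ t ∈ Set.Ioi (0 : ℝ), Real.sinh t ≠ 0 := fun t ht => (Real.sinh_pos_iff.2 ht).ne'
    have hd : ∀ t ∈ Set.Ioi (0 : ℝ), HasDerivAt (fun t : ℝ => t * (Real.cosh t / Real.sinh t))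
        (1 * (Real.cosh t / Real.sinh t) + t * ((Real.sinh t * Real.sinh t - Real.cosh t *
          Real.cosh t) / Real.sinh t ^ 2)) t := by
      intro t ht
      exact (hasDerivAt_id t).mul ((Real.hasDerivAt_cosh t).div (Real.hasDerivAt_sinh t) (hne t ht))
    apply monotoneOn_of_deriv_nonneg (convex_Ioi 0)
    · intro t ht
      exact (hd t ht).continuousAt.continuousWithinAt
    · intro t ht
      rw [interior_Ioi] at ht
      exact (hd t ht).differentiableAt.differentiableWithinAt
    · intro t ht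
      rw [interior_Ioi] at ht
      rw [(hd t ht).deriv]
      have hs : 0 < Real.sinh t := Real.sinh_pos_iff.2 ht
      have h1 : t ≤ Real.sinh t := Real.self_le_sinh_iff.2 (le_of_lt ht)
      have h2 : 1 ≤ Real.cosh t := Real.one_le_cosh t
      have h3 := Real.cosh_sq t
      have h4 : 1 * (Real.cosh t / Real.sinh t) + t * ((Real.sinh t * Real.sinh t - Real.cosh t *
          Real.cosh t) / Real.sinh t ^ 2) = (Real.cosh t * Real.sinh t - t) / Real.sinh t ^ 2 := by
        have h5 : Real.sinh t * Real.sinh t - Real.cosh t * Real.cosh t = -1 := by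
          nlinarith
        rw [h5]
        field_simp
        ring
      rw [h4]
      apply div_nonneg _ (by positivity)
      have ht0 : 0 < t := ht
      nlinarith
  exact hmono hu (lt_of_lt_of_le hu huv) huv

/-- `y` increases with `θ` -/
theorem yN_mono {θ1 θ2 x : ℝ} (h1 : 0 < θ1) (h : θ1 ≤ θ2) (hx : 0 < x) : yN θ1 x ≤ yN θ2 x := by
  have h2 : 0 < θ2 := lt_of_lt_of_le h1 h
  unfold yN
  rw [(Pool.Agent.H56R2.RZNB2.NB2 θ1 x h1 hx).2, (Pool.Agent.H56R2.RZNB2.NB2 θ2 x h2 hx).2]
  have k : ∀ t : ℝ, t * (Real.cosh (t * x / 2) / Real.sinh (t * x / 2)) =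
      2 / x * ((t * x / 2) * (Real.cosh (t * x / 2) / Real.sinh (t * x / 2))) := by
    intro t
    field_simp
  have e1 := ucoth (u := (1 + θ1) * x / 2) (v := (1 + θ2) * x / 2) (by positivity) (by gcongr)
  have e2 := ucoth (u := θ1 * x / 2) (v := θ2 * x / 2) (by positivity) (by gcongr)
  have hx2 : 0 < 2 / x := by positivity
  rw [k (1 + θ1), k (1 + θ2), k θ1, k θ2]
  have e3 := mul_le_mul_of_nonneg_left e1 hx2.le
  have e4 := mul_le_mul_of_nonneg_left e2 hx2.le
  linarith

/-- the length of the mollifier -/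
def th0 : ℝ := 297 / 1000

/-- the length of the sieve -/
def s0 : ℝ := 10148 / 100000

/-- the loss of the sieve -/
def Cs0 : ℝ := 986 / 100

/-- the constant of the numerical bound -/
def J0 : ℝ := 84825 / 100000

theorem admV : AdmV (1 / 2 + 3 * (1 / 100000)) th0 s0 := by
  unfold s0 th0
  refine ⟨⟨?_, ?_, ?_, ?_, ?_, ?_⟩, ?_, ?_⟩ <;> norm_num

theorem NCb (x : ℝ) (hx : 0 < x) : 0 < yN th0 x ∧ VN x ≤ 73 / 2000 * yN th0 x ^ 2 := by
  obtain ⟨h1, h2⟩ := (Pool.Agent.H423R2.RGL.OldN.NC4 x hx).2.1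
  have h3 : yN (249 / 1000) x ≤ yN th0 x := yN_mono (by norm_num) (by unfold th0; norm_num) hx
  refine ⟨by linarith, h2.trans ?_⟩
  gcongr

/-- the numerical bound -/
theorem JKb : JK (Cs0 * rN th0) (73 / 2000) ≤ J0 := by
  have hl := Pool.Agent.H133R2.RZ3.log_lower
  have e1 : Cs0 * rN th0 = (986 / 100) / (6 * (297 / 1000) * (1 + 297 / 1000) ^ 2) := by
    unfold rN Cs0 th0; ring
  set r : ℝ := Cs0 * rN th0 with hr
  have hr1 : 3289 / 1000 ≤ r := by rw [e1]; norm_num
  have hr2 : r ≤ 32893 / 10000 := by rw [e1]; norm_num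
  have hr0 : 0 < r := by linarith
  have hlog : 145605 / 100000 ≤ Real.log (1 + r) := by
    have h1 : Real.log (4 * (1 + 7225 / 100000)) ≤ Real.log (1 + r) :=
      Real.log_le_log (by norm_num) (by linarith)
    rw [Real.log_mul (by norm_num) (by norm_num)] at h1
    have h4 : Real.log 4 = 2 * Real.log 2 := by
      rw [show (4 : ℝ) = 2 ^ 2 by norm_num, Real.log_pow]; norm_num
    have h5 := Real.log_two_gt_d9
    have h6 := hl (7225 / 100000) (by norm_num)
    rw [h4] at h1
    norm_num at h6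
    linarith
  unfold JK J0
  have h1 : r / (1 + r) ≤ 76687 / 100000 := by
    rw [div_le_iff₀ (by linarith)]
    linarith
  have h2 : (r - Real.log (1 + r)) / r ≤ 55735 / 100000 := by
    rw [div_le_iff₀ hr0]
    linarith
  have h3 : 4 * (73 / 2000 : ℝ) * ((r - Real.log (1 + r)) / r) ≤ 4 * (73 / 2000) * (55735 / 100000) := by
    gcongr
  refine (add_le_add h1 h3).trans ?_
  norm_num

end

end Pool.Agent.N782.G2
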