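import Pool.Agent.N782.SA
import Pool.Agent.N782.ND

set_option autoImplicit false

/-! Assembly: most of the bad primes are controlled, all families (helper782). -/

namespace Pool.Agent.N782.G2

open Finset Filter Topology MeasureTheory Pool.Agent.H306R2.RZ Pool.Agent.H306R2.RG
open Pool.Agent.N782.GA
open Pool.Agent.N782.ND
open Pool.Agent.N782.PA (exists_P MRm)
open Pool.Agent.N782.KW (Pn)

noncomputable section

/-- the sieve majorant -/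
theorem domC : ∃ P : ℝ → ℝ, Wt s0 P ∧ 0 < Pn P ∧ ∀ (φ : FD) (F : ℝ → ℝ), TF F → (∀ x, 0 ≤ F x) →
    (∀ x, 1 < x → F x = 0) → ∀ L d, omp φ s0 F L d ≤ Cs0 * omW φ P F L d := by
  obtain ⟨P, hP, hP0, hPn, hPn1⟩ := exists_P (10147 / 100000) s0 (by norm_num)
    (by unfold s0; norm_num)
  refine ⟨P, hP, hPn, fun φ F hF hF0 hF1 L d => ?_⟩
  refine (dom φ hF0 hF1 hPn hP0 hP L d).trans ?_
  have h1 := (gw_W φ hF hF0 hPn).nn L d
  have h2 : Pn P ≤ Cs0 := hPn1.trans (by unfold Cs0; norm_num)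
  exact mul_le_mul_of_nonneg_right h2 h1

theorem badG {φ : FD} (hW : WS φ) (hφ : FG φ) (hC : CG φ) {F : ℝ → ℝ} (hF : TF F)
    (hF0 : ∀ x, 0 ≤ F x) (hF1 : ∀ x, 1 < x → F x = 0) (hK0 : 0 ≤ Ft F 0) (hK1 : Ft F 0 ≤ 1)
    (hδ1 : φ.δ ≤ 1) (hM1 : M1 φ s0 (φ.δ * Ft F 0) (omp φ s0 F)) (η : ℝ) (hη : 0 < η) :
    ∃ X0 L0 : ℝ, 0 < X0 ∧ ∀ L : ℝ, L0 ≤ L →
      EA (omp φ s0 F L) ((SFg φ ∩ {d | bad1g φ L X0 d}).indicator (fun _ => 1)) +
      EA (omp φ s0 F L) ((SFg φ ∩ {d | bad2g φ L X0 d}).indicator (fun _ => 1)) ≤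
        φ.δ * Ft F 0 * J0 + η := by
  obtain ⟨P, hP, hPn, hd⟩ := domC
  have hs0 : (0 : ℝ) < s0 := by unfold s0; norm_num
  have hs8 : s0 ≤ 1 / 4 := by unfold s0; norm_num
  have hCs : (0 : ℝ) < Cs0 := by unfold Cs0; norm_num
  have hδ0 := hφ.hδ
  have hGW := ge_W hW hF hF0 hPn hs0 hs8 hP
  have hd' := hd φ F hF hF0 hF1
  have hGp : GE φ s0 (omp φ s0 F) := GE_dom (gw_p φ s0 hF hF0) hGW hCs hd'
  have hM2 := m2_W hW hF hPn hs0 hs8 hP
  have hA := admV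
  have hθ : (0 : ℝ) < th0 := by unfold th0; norm_num
  obtain ⟨C, c0, L1, hC0, hc0, hT⟩ := TRG hφ hC hGp (1 / 100000) th0 (by norm_num) hA
  obtain ⟨X0, hX1, hXC⟩ : ∃ X0 : ℝ, 1 ≤ X0 ∧ C * Real.exp (-(c0 * X0)) ≤ η / 3 := by
    have ht : Tendsto (fun x : ℝ => C * Real.exp (-(c0 * x))) atTop (𝓝 (C * 0)) := by
      apply Tendsto.const_mul
      exact Real.tendsto_exp_neg_atTop_nhds_zero.comp (tendsto_id.const_mul_atTop hc0)
    rw [mul_zero] at ht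
    obtain ⟨X0, h1, h2⟩ := ((ht.eventually (gt_mem_nhds (show (0 : ℝ) < η / 3 by linarith))).and
      (eventually_ge_atTop 1)).exists
    exact ⟨X0, h2, h1.le⟩
  have hX0 : 0 ≤ X0 := by linarith
  have hkpos : 0 < Cs0 * kN th0 := by
    unfold kN; positivity
  obtain ⟨hcd, hc1, hcc⟩ := cK_deriv (Cs0 * kN th0) th0 hkpos hθ
  obtain ⟨θ'', χ, h1, h2, hχ, hle⟩ := MRm Cs0 th0 hCs.le hθ (by unfold th0; norm_num) _ _ hcd hc1
    X0 hX0 (η / 3) (by linarith)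
  obtain ⟨L2, hM⟩ := MRV hφ hC hGp hGW hCs.le hd'
    (by positivity : (0 : ℝ) ≤ φ.δ * Ft F 0) hM1 hM2
    (1 / 100000) (by norm_num) (by norm_num) χ θ'' th0 h1 h2 hA hχ _ _ hcd hc1 X0 hX0
    (η / 3) (by linarith)
  have hN := ND2 Cs0 th0 (73 / 2000) X0 hCs hθ (by norm_num) hX0 NCb
  have hJ := JKb
  refine ⟨X0, max (max L1 L2) (2 * X0), by linarith, fun L hL => ?_⟩
  have e1 : L1 ≤ L := le_trans (le_trans (le_max_left _ _) (le_max_left _ _)) hL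
  have e2 : L2 ≤ L := le_trans (le_trans (le_max_right _ _) (le_max_left _ _)) hL
  have e3 : 2 * X0 ≤ L := le_trans (le_max_right _ _) hL
  have k1 := hM L e2
  have k2 := hT L e1 X0 hX1 (by linarith)
  have hle2 := hle.trans (add_le_add_left (hN.trans hJ) _)
  have k3 := mul_le_mul_of_nonneg_left hle2 (by positivity : (0 : ℝ) ≤ φ.δ * Ft F 0)
  have k4 : φ.δ * Ft F 0 * (η / 3) ≤ 1 * (η / 3) := by
    apply mul_le_mul_of_nonneg_right _ (by linarith)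
    nlinarith
  linarith

end

end Pool.Agent.N782.G2
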