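import Pool.Agent.N782.SB

set_option autoImplicit false

/-! Counting the good primes, all families (helper782). -/

namespace Pool.Agent.N782.G2

open Finset Filter Topology MeasureTheory Pool.Agent.H306R2.RZ Pool.Agent.H306R2.RG
open Pool.Agent.N782.GA
open Pool.Agent.N782.PA (exists_F)

noncomputable section

/-- the good primes -/
def Gd (φ : FD) (p : ℕ) : Prop := p.Prime ∧ φ.A p ∧ ∀ σ : ℝ, 0 < σ → σ < 1 → 0 < LLg φ p σ

/-- the proportion -/
def kap : ℝ := 151 / 1000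

open Classical in
theorem upperG (φ : FD) {F : ℝ → ℝ} (hF0 : ∀ x, 0 ≤ F x) (hFle : ∀ x, F x ≤ 1)
    (hF1 : ∀ x, 1 < x → F x = 0) (X : ℕ) (hX : 3 ≤ X) :
    EA (omp φ s0 F (Real.log X)) (({p | Gd φ p} : Set ℕ).indicator (fun _ => 1)) ≤
      Real.log X / (2 * X) * (((Finset.range (X + 1)).filter (Gd φ)).card : ℝ) := by
  have hX0 : (0 : ℝ) < X := by positivity
  have hexp : Real.exp (Real.log X) = X := Real.exp_log hX0
  have hlog : 0 ≤ Real.log X := Real.log_natCast_nonneg X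
  unfold EA
  rw [tsum_eq_sum (s := (Finset.range (X + 1)).filter (Gd φ))]
  · rw [mul_comm, ← nsmul_eq_mul, ← Finset.sum_const]
    refine Finset.sum_le_sum fun d hd => ?_
    rw [mem_filter, mem_range] at hd
    obtain ⟨hd1, hd2⟩ := hd
    rw [Set.indicator_of_mem (show d ∈ {p | Gd φ p} from hd2), mul_one]
    unfold omp
    have hd0 : (0 : ℝ) < d := by exact_mod_cast hd2.1.pos
    have hlogd : 0 ≤ Real.log d := Real.log_natCast_nonneg d
    have hle : Real.log d ≤ Real.log X := by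
      apply Real.log_le_log hd0
      exact_mod_cast Nat.lt_succ_iff.1 hd1
    split_ifs with h
    · rw [hexp]
      have h1 := hF0 ((d : ℝ) / X)
      have h2 := hFle ((d : ℝ) / X)
      calc 1 / 2 * Real.log d * (F ((d : ℝ) / X) / X) ≤ 1 / 2 * Real.log X * (1 / X) := by
            gcongr
        _ = Real.log X / (2 * X) := by field_simp
    · positivity
  · intro d hd
    rw [mem_filter, mem_range, not_and] at hd
    by_cases hg : Gd φ d
    · have hd1 : ¬ d < X + 1 := fun h => hd h hg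
      have hd2 : (X : ℝ) < d := by
        have : X < d := by omega
        exact_mod_cast this
      have : omp φ s0 F (Real.log X) d = 0 := by
        unfold omp
        rw [hexp, hF1 ((d : ℝ) / X) (by rw [lt_div_iff₀ hX0]; linarith)]
        simp
      rw [this, zero_mul]
    · rw [Set.indicator_of_notMem (show d ∉ {p | Gd φ p} from hg), mul_zero]

theorem lowerG {φ : FD} (hC : CG φ) {F : ℝ → ℝ} (hF : TF F) (hF0 : ∀ x, 0 ≤ F x)
    (L X0 : ℝ) (hL : 0 < L) :
    EA (omp φ s0 F L) (fun _ => 1) ≤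
      EA (omp φ s0 F L) ((SFg φ ∩ {d | bad1g φ L X0 d}).indicator (fun _ => 1)) +
      EA (omp φ s0 F L) ((SFg φ ∩ {d | bad2g φ L X0 d}).indicator (fun _ => 1)) +
      EA (omp φ s0 F L) (({p | Gd φ p} : Set ℕ).indicator (fun _ => 1)) := by
  have hW := gw_p φ s0 hF hF0
  rw [← EA_add hW, ← EA_add hW]
  refine EA_mono hW L fun d hd => ?_
  have hA : φ.A d ∧ d.Prime := by
    unfold omp at hd
    split_ifs at hd with h
    · exact ⟨h.1, h.2.1⟩
    · exact absurd rfl hd
  have hsf : d ∈ SFg φ := ⟨hA.1, hA.2.squarefree⟩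
  have n1 : ∀ (S : Set ℕ), (0 : ℝ) ≤ S.indicator (fun _ => (1 : ℝ)) d := fun S =>
    Set.indicator_nonneg (fun _ _ => zero_le_one) d
  by_cases hb1 : bad1g φ L X0 d
  · have := Set.indicator_of_mem (show d ∈ SFg φ ∩ {d | bad1g φ L X0 d} from ⟨hsf, hb1⟩)
      (fun _ => (1 : ℝ))
    rw [this]
    have h1 := n1 (SFg φ ∩ {d | bad2g φ L X0 d})
    have h2 := n1 {p | Gd φ p}
    linarith
  by_cases hb2 : bad2g φ L X0 d
  · have := Set.indicator_of_mem (show d ∈ SFg φ ∩ {d | bad2g φ L X0 d} from ⟨hsf, hb2⟩)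
      (fun _ => (1 : ℝ))
    rw [this]
    have h1 := n1 (SFg φ ∩ {d | bad1g φ L X0 d})
    have h2 := n1 {p | Gd φ p}
    linarith
  · have hg : Gd φ d := by
      refine ⟨hA.2, hA.1, hC.pos d hA.1 hsf.2 L hL fun x hx0 hxL hz => ?_⟩
      rcases le_total x X0 with h | h
      · exact hb1 ⟨x, hx0, h, hz⟩
      · exact hb2 ⟨x, h, hxL, hz⟩
    have := Set.indicator_of_mem (show d ∈ {p | Gd φ p} from hg) (fun _ => (1 : ℝ))
    rw [this]
    have h1 := n1 (SFg φ ∩ {d | bad1g φ L X0 d})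
    have h2 := n1 (SFg φ ∩ {d | bad2g φ L X0 d})
    linarith

theorem Ft_le_one {F : ℝ → ℝ} (hF : TF F) (hFle : ∀ x, F x ≤ 1) (hF1 : ∀ x, 1 < x → F x = 0) :
    Ft F 0 ≤ 1 := by
  have e1 : Ft F 0 = ∫ x, F x := by
    unfold Ft
    congr 1
    funext x
    unfold cas
    rw [mul_zero, zero_mul, Real.cos_zero, Real.sin_zero]
    ring
  have hi : Integrable F := hF.smooth.continuous.integrable_of_hasCompactSupport hF.cpt
  rw [e1]
  have h0 : ∀ x, x ∉ Set.Icc (0 : ℝ) 1 → F x = 0 := by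
    intro x hx
    by_contra hne
    apply hx
    refine ⟨(hF.pos (subset_tsupport F hne)).le, ?_⟩
    by_contra hc
    exact hne (hF1 x (not_le.1 hc))
  rw [← setIntegral_eq_integral_of_forall_compl_eq_zero h0]
  calc ∫ x in Set.Icc (0 : ℝ) 1, F x ≤ ∫ _x in Set.Icc (0 : ℝ) 1, (1 : ℝ) := by
        apply setIntegral_mono_on hi.integrableOn (by simp) measurableSet_Icc
        intro x _
        exact hFle x
    _ = 1 := by simp

open Classical in
/-- the primes of a family -/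
def cnt (φ : FD) (X : ℕ) : ℝ := (((Finset.range (X + 1)).filter (fun p => p.Prime ∧ φ.A p)).card : ℝ)

open Classical in
theorem countG {φ : FD} (hW : WS φ) (hφ : FG φ) (hC : CG φ) (hδ8 : 1 / 8 ≤ φ.δ) (hδ1 : φ.δ ≤ 1)
    (hM : ∀ F : ℝ → ℝ, TF F → (∀ x, 0 ≤ F x) → M1 φ s0 (φ.δ * Ft F 0) (omp φ s0 F))
    (hcnt : ∀ η : ℝ, 0 < η → ∀ᶠ X : ℕ in atTop, cnt φ X * Real.log X ≤ (2 * φ.δ + η) * X) :
    ∃ X1 : ℕ, ∀ X : ℕ, X1 ≤ X →
    kap * cnt φ X ≤ (((Finset.range (X + 1)).filter (Gd φ)).card : ℝ) := by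
  obtain ⟨F, hF, hF0, hFle, hF1, hFt⟩ := exists_F (1 / 10000) (by norm_num) (by norm_num)
  have hFt1 : Ft F 0 ≤ 1 := Ft_le_one hF hFle hF1
  have hM1 := hM F hF hF0
  obtain ⟨X0, L0, hX0, hb⟩ := badG hW hφ hC hF hF0 hF1 (by linarith) hFt1 hδ1 hM1 (1 / 100000)
    (by norm_num)
  have hone := hM1.l0
  have hlog : Tendsto (fun X : ℕ => Real.log X) atTop atTop :=
    Real.tendsto_log_atTop.comp tendsto_natCast_atTop_atTop
  have h1 := (hone.comp hlog).eventually (lt_mem_nhds (show φ.δ * Ft F 0 - 1 / 100000 <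
    φ.δ * Ft F 0 by linarith))
  have h2 := hcnt (1 / 10000) (by norm_num)
  have h3 := hlog.eventually (eventually_ge_atTop (max L0 1))
  obtain ⟨X1, hX1⟩ := eventually_atTop.1 ((h1.and h2).and (h3.and (eventually_ge_atTop 3)))
  refine ⟨X1, fun X hX => ?_⟩
  obtain ⟨⟨g1, g2⟩, g3, g4⟩ := hX1 X hX
  have hXpos : (0 : ℝ) < X := by
    have : (3 : ℝ) ≤ X := by exact_mod_cast g4
    linarith
  have hL0 : L0 ≤ Real.log X := (le_max_left _ _).trans g3
  have hL1 : 1 ≤ Real.log X := (le_max_right _ _).trans g3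
  have hL : 0 < Real.log X := by linarith
  have k1 := lowerG hC hF hF0 (Real.log X) X0 hL
  have k2 := upperG φ hF0 hFle hF1 X g4
  have k3 := hb (Real.log X) hL0
  simp only [Function.comp] at g1
  set n : ℝ := (((Finset.range (X + 1)).filter (Gd φ)).card : ℝ) with hn
  have k5 : φ.δ * (Ft F 0 * (1 - J0)) - 2 / 100000 ≤ Real.log X / (2 * X) * n := by
    have e : φ.δ * (Ft F 0 * (1 - J0)) = φ.δ * Ft F 0 - φ.δ * Ft F 0 * J0 := by ring
    rw [e]
    linarith
  have k5' : φ.δ * (kap + 3 / 10000) ≤ Real.log X / (2 * X) * n := by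
    refine le_trans ?_ k5
    have e1 : 0 ≤ 1 - J0 := by unfold J0; norm_num
    have e2 : kap + 3 / 10000 + 2 / 10000 ≤ Ft F 0 * (1 - J0) := by
      have : (1 - 3 * (1 / 10000)) * (1 - J0) ≤ Ft F 0 * (1 - J0) :=
        mul_le_mul_of_nonneg_right hFt e1
      refine le_trans ?_ this
      unfold kap J0
      norm_num
    have e3 := mul_le_mul_of_nonneg_left e2 (by linarith : 0 ≤ φ.δ)
    nlinarith
  have k6 : 2 * φ.δ * (kap + 3 / 10000) * X ≤ Real.log X * n := by
    have : Real.log X / (2 * X) * n = (Real.log X * n) / (2 * X) := by ring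
    rw [this, le_div_iff₀ (by positivity)] at k5'
    linarith
  have hkap : 0 < kap := by unfold kap; norm_num
  have hkap1 : kap ≤ 1 / 4 := by unfold kap; norm_num
  have k7 : kap * cnt φ X * Real.log X ≤ n * Real.log X := by
    have e1 : kap * cnt φ X * Real.log X ≤ kap * ((2 * φ.δ + 1 / 10000) * X) := by
      rw [mul_assoc]
      exact mul_le_mul_of_nonneg_left g2 hkap.le
    have e2 : kap * ((2 * φ.δ + 1 / 10000) * X) ≤ 2 * φ.δ * (kap + 3 / 10000) * X := by
      have e3 : kap * (2 * φ.δ + 1 / 10000) ≤ 2 * φ.δ * (kap + 3 / 10000) := by nlinarith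
      have := mul_le_mul_of_nonneg_right e3 hXpos.le
      linarith
    linarith
  exact le_of_mul_le_mul_right k7 hL

end

end Pool.Agent.N782.G2
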