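import Pool.Agent.N782.KWa
import Pool.Agent.Helper112.Arith

set_option autoImplicit false

/-! Crude bound of the weighted sum (helper782). -/

namespace Pool.Agent.N782.SWc

open Finset Filter Topology MeasureTheory Pool.Agent.N782.LX Pool.Agent.N782.EW Pool.Agent.N782.KW
open Pool.Agent.H306R2.RZ

noncomputable section

theorem gcd_sum (N : ℕ) :
    ∑ x ∈ Icc 1 N ×ˢ Icc 1 N, (1 : ℝ) / (Nat.lcm x.1 x.2 : ℕ) ≤
      (∑ n ∈ Icc 1 N, (1 : ℝ) / n) ^ 3 := by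
  classical
  let φ : ℕ × ℕ → ℕ × ℕ × ℕ := fun x =>
    (Nat.gcd x.1 x.2, x.1 / Nat.gcd x.1 x.2, x.2 / Nat.gcd x.1 x.2)
  let G : ℕ × ℕ × ℕ → ℝ := fun y => (1 : ℝ) / y.1 * ((1 : ℝ) / y.2.1 * ((1 : ℝ) / y.2.2))
  have hmem : ∀ x ∈ Icc 1 N ×ˢ Icc 1 N, φ x ∈ Icc 1 N ×ˢ Icc 1 N ×ˢ Icc 1 N := by
    intro x hx
    simp only [mem_product, mem_Icc] at hx
    obtain ⟨⟨h1, h2⟩, h3, h4⟩ := hx
    have hg : 0 < Nat.gcd x.1 x.2 := Nat.gcd_pos_of_pos_left _ h1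
    have hg1 : Nat.gcd x.1 x.2 ≤ x.1 := Nat.gcd_le_left _ h1
    have hg2 : Nat.gcd x.1 x.2 ≤ x.2 := Nat.gcd_le_right _ h3
    simp only [φ, mem_product, mem_Icc]
    refine ⟨⟨hg, hg1.trans h2⟩, ⟨Nat.div_pos hg1 hg, (Nat.div_le_self _ _).trans h2⟩,
      Nat.div_pos hg2 hg, (Nat.div_le_self _ _).trans h4⟩
  have hinj : Set.InjOn φ (Icc 1 N ×ˢ Icc 1 N : Finset (ℕ × ℕ)) := by
    intro x _ y _ hxy
    simp only [φ, Prod.mk.injEq] at hxy
    obtain ⟨h1, h2, h3⟩ := hxy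
    have e1 := Nat.div_mul_cancel (Nat.gcd_dvd_left x.1 x.2)
    have e2 := Nat.div_mul_cancel (Nat.gcd_dvd_left y.1 y.2)
    have e3 := Nat.div_mul_cancel (Nat.gcd_dvd_right x.1 x.2)
    have e4 := Nat.div_mul_cancel (Nat.gcd_dvd_right y.1 y.2)
    rw [h2, h1, e2] at e1
    rw [h3, h1, e4] at e3
    exact Prod.ext e1.symm e3.symm
  have hval : ∀ x ∈ Icc 1 N ×ˢ Icc 1 N, (1 : ℝ) / (Nat.lcm x.1 x.2 : ℕ) = G (φ x) := by
    intro x hx
    simp only [mem_product, mem_Icc] at hx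
    obtain ⟨⟨h1, h2⟩, h3, h4⟩ := hx
    have hg : 0 < Nat.gcd x.1 x.2 := Nat.gcd_pos_of_pos_left _ h1
    have e0 : Nat.lcm x.1 x.2 = Nat.gcd x.1 x.2 * (x.1 / Nat.gcd x.1 x.2 *
        (x.2 / Nat.gcd x.1 x.2)) := by
      have e1 := Nat.div_mul_cancel (Nat.gcd_dvd_left x.1 x.2)
      have e3 := Nat.mul_div_cancel' (Nat.gcd_dvd_right x.1 x.2)
      rw [Nat.lcm]
      apply Nat.div_eq_of_eq_mul_right hg
      calc x.1 * x.2 = (x.1 / Nat.gcd x.1 x.2 * Nat.gcd x.1 x.2) *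
            (Nat.gcd x.1 x.2 * (x.2 / Nat.gcd x.1 x.2)) := by rw [e1, e3]
        _ = _ := by ring
    rw [e0]
    simp only [G, φ]
    push_cast
    rw [one_div_mul_one_div, one_div_mul_one_div]
  calc ∑ x ∈ Icc 1 N ×ˢ Icc 1 N, (1 : ℝ) / (Nat.lcm x.1 x.2 : ℕ)
      = ∑ x ∈ Icc 1 N ×ˢ Icc 1 N, G (φ x) := sum_congr rfl hval
    _ = ∑ y ∈ (Icc 1 N ×ˢ Icc 1 N).image φ, G y := (sum_image hinj).symm
    _ ≤ ∑ y ∈ Icc 1 N ×ˢ Icc 1 N ×ˢ Icc 1 N, G y := by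
        refine sum_le_sum_of_subset_of_nonneg ?_ fun y _ _ => by positivity
        intro y hy
        obtain ⟨x, hx, rfl⟩ := mem_image.1 hy
        exact hmem x hx
    _ = _ := by
        simp only [G, sum_product]
        rw [pow_succ, pow_two]
        rw [Finset.sum_mul_sum, Finset.sum_mul_sum]
        refine sum_congr rfl fun a _ => ?_
        rw [sum_comm]
        simp only [sum_mul]
        rw [sum_comm]
        refine sum_congr rfl fun b _ => sum_congr rfl fun c _ => ?_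
        ring

theorem harm_le (s L : ℝ) (hs : 0 ≤ s) (hL : 0 ≤ L) :
    ∑ n ∈ Icc 1 ⌊Real.exp (s * L)⌋₊, (1 : ℝ) / n ≤ 1 + s * L := by
  have h1 : 1 ≤ ⌊Real.exp (s * L)⌋₊ := by
    rw [Nat.one_le_floor_iff]
    exact Real.one_le_exp (by positivity)
  have h2 := Pool.Agent.Helper112.harm_le _ h1
  refine h2.trans ?_
  have h3 : Real.log (⌊Real.exp (s * L)⌋₊ : ℝ) ≤ s * L := by
    rw [Real.log_le_iff_le_exp (by exact_mod_cast h1)]
    exact Nat.floor_le (Real.exp_pos _).le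
  linarith

theorem co_abs (a : Fin 2 → ℕ) : |co a| ≤ 1 / (Nat.lcm (a 0) (a 1) : ℕ) := by
  unfold co
  split_ifs
  · rw [abs_div, abs_mul, Nat.abs_cast]
    have h1 : |((ArithmeticFunction.moebius (a 0) : ℤ) : ℝ)| ≤ 1 := by
      have := ArithmeticFunction.abs_moebius_le_one (n := a 0)
      exact_mod_cast this
    have h2 : |((ArithmeticFunction.moebius (a 1) : ℤ) : ℝ)| ≤ 1 := by
      have := ArithmeticFunction.abs_moebius_le_one (n := a 1)
      exact_mod_cast this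
    apply div_le_div_of_nonneg_right _ (Nat.cast_nonneg _)
    calc _ ≤ (1 : ℝ) * 1 := mul_le_mul h1 h2 (abs_nonneg _) zero_le_one
      _ = 1 := one_mul 1
  · rw [abs_zero]; positivity

/-- crude bound of the weighted sum -/
theorem SW_crude (s : ℝ) (hs : 0 ≤ s) (P : ℝ → ℝ) (hP : Wt s P) (BP : ℝ) (hBP : Bd 0 P BP)
    (L : ℝ) (hL : 1 ≤ L) (g : ℕ → ℂ) (G : ℝ) (hG : 0 ≤ G)
    (hg : ∀ e : ℕ, Odd e → Squarefree e → (e : ℝ) ≤ Real.exp (2 * s * L) → ‖g e‖ ≤ G) :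
    ‖SW P L g‖ ≤ BP ^ 2 * G * (1 + s * L) ^ 3 := by
  classical
  have hL0 : 0 < L := by linarith
  have hB0 : 0 ≤ BP := (abs_nonneg _).trans (hBP 0 (Nat.zero_le _) 0)
  set N : ℕ := ⌊Real.exp (s * L)⌋₊ with hN
  have hNe : (N : ℝ) ≤ Real.exp (s * L) := Nat.floor_le (Real.exp_pos _).le
  have hPb : ∀ y, |P y| ≤ BP := by
    intro y
    have := hBP 0 (Nat.zero_le _) y
    simpa using this
  rw [SW_sum hP hL0]
  have hterm : ∀ a ∈ bx s L, ‖((co a : ℝ) : ℂ) * g (Nat.lcm (a 0) (a 1)) *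
      ∏ i, ((P (Real.log (a i) / L) : ℝ) : ℂ)‖ ≤ (if 1 ≤ a 0 ∧ 1 ≤ a 1 then
        (1 : ℝ) / (Nat.lcm (a 0) (a 1) : ℕ) * (BP ^ 2 * G) else 0) := by
    intro a ha
    by_cases hc : co a = 0
    · rw [hc]
      simp only [Complex.ofReal_zero, zero_mul, norm_zero]
      split_ifs <;> positivity
    · obtain ⟨h1, h2⟩ := co_ne hc
      have h0 : Nat.lcm (a 0) (a 1) ≠ 0 := h2.ne_zero
      have ha0 : a 0 ≠ 0 := fun h => h0 (by rw [h, Nat.lcm_zero_left])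
      have ha1 : a 1 ≠ 0 := fun h => h0 (by rw [h, Nat.lcm_zero_right])
      rw [if_pos ⟨Nat.one_le_iff_ne_zero.2 ha0, Nat.one_le_iff_ne_zero.2 ha1⟩]
      have hle : ((Nat.lcm (a 0) (a 1) : ℕ) : ℝ) ≤ Real.exp (2 * s * L) := by
        have h3 : Nat.lcm (a 0) (a 1) ≤ a 0 * a 1 :=
          Nat.le_of_dvd (by positivity) (Nat.lcm_dvd_mul _ _)
        have h4 : ∀ i, (a i : ℝ) ≤ Real.exp (s * L) := by
          intro i
          have h5 := Fintype.mem_piFinset.1 ha i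
          rw [Finset.mem_range, Nat.lt_succ_iff] at h5
          exact (Nat.cast_le.2 h5).trans hNe
        calc ((Nat.lcm (a 0) (a 1) : ℕ) : ℝ) ≤ ((a 0 * a 1 : ℕ) : ℝ) := by exact_mod_cast h3
          _ = (a 0 : ℝ) * a 1 := by push_cast; ring
          _ ≤ Real.exp (s * L) * Real.exp (s * L) := by
              gcongr
              · exact h4 0
              · exact h4 1
          _ = _ := by rw [← Real.exp_add]; congr 1; ring
      have h5 := hg _ h1 h2 hle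
      rw [norm_mul, norm_mul, Complex.norm_real, Real.norm_eq_abs, Fin.prod_univ_two, norm_mul,
        Complex.norm_real, Complex.norm_real, Real.norm_eq_abs, Real.norm_eq_abs]
      have h6 := co_abs a
      calc |co a| * ‖g (Nat.lcm (a 0) (a 1))‖ * (|P (Real.log (a 0) / L)| * |P (Real.log (a 1) / L)|)
          ≤ (1 / (Nat.lcm (a 0) (a 1) : ℕ)) * G * (BP * BP) := by
            gcongr
            · exact hPb _
            · exact hPb _
        _ = _ := by ring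
  refine (norm_sum_le _ _).trans ((Finset.sum_le_sum hterm).trans ?_)
  -- the sum over the box
  have hcover : ∑ a ∈ bx s L, (if 1 ≤ a 0 ∧ 1 ≤ a 1 then
        (1 : ℝ) / (Nat.lcm (a 0) (a 1) : ℕ) * (BP ^ 2 * G) else 0) ≤
      ∑ x ∈ Icc 1 N ×ˢ Icc 1 N, (1 : ℝ) / (Nat.lcm x.1 x.2 : ℕ) * (BP ^ 2 * G) := by
    rw [← Finset.sum_filter]
    have hinj : Set.InjOn (fun a : Fin 2 → ℕ => (a 0, a 1))
        ((bx s L).filter (fun a => 1 ≤ a 0 ∧ 1 ≤ a 1) : Finset (Fin 2 → ℕ)) := by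
      intro a _ b _ hab
      simp only [Prod.mk.injEq] at hab
      funext i
      fin_cases i
      · exact hab.1
      · exact hab.2
    calc ∑ a ∈ (bx s L).filter (fun a => 1 ≤ a 0 ∧ 1 ≤ a 1),
          (1 : ℝ) / (Nat.lcm (a 0) (a 1) : ℕ) * (BP ^ 2 * G)
        = ∑ x ∈ ((bx s L).filter (fun a => 1 ≤ a 0 ∧ 1 ≤ a 1)).image
            (fun a : Fin 2 → ℕ => (a 0, a 1)), (1 : ℝ) / (Nat.lcm x.1 x.2 : ℕ) * (BP ^ 2 * G) := by
          rw [sum_image hinj]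
      _ ≤ _ := by
          refine sum_le_sum_of_subset_of_nonneg ?_ fun y _ _ => by positivity
          intro x hx
          obtain ⟨a, ha, rfl⟩ := mem_image.1 hx
          rw [mem_filter] at ha
          obtain ⟨hb, h1, h2⟩ := ha
          have h3 := Fintype.mem_piFinset.1 hb
          have h4 := h3 0
          have h5 := h3 1
          rw [Finset.mem_range, Nat.lt_succ_iff] at h4 h5
          simp only [mem_product, mem_Icc]
          exact ⟨⟨h1, h4⟩, h2, h5⟩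
  refine hcover.trans ?_
  rw [← Finset.sum_mul]
  have h7 := gcd_sum N
  have h8 := harm_le s L hs hL0.le
  have h9 : 0 ≤ ∑ n ∈ Icc 1 N, (1 : ℝ) / n := sum_nonneg fun n _ => by positivity
  calc (∑ x ∈ Icc 1 N ×ˢ Icc 1 N, (1 : ℝ) / (Nat.lcm x.1 x.2 : ℕ)) * (BP ^ 2 * G)
      ≤ (∑ n ∈ Icc 1 N, (1 : ℝ) / n) ^ 3 * (BP ^ 2 * G) := by gcongr
    _ ≤ (1 + s * L) ^ 3 * (BP ^ 2 * G) := by gcongr
    _ = _ := by ring

end

end Pool.Agent.N782.SWc
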