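import Pool.Agent.N782.QB

set_option autoImplicit false

/-! Jacobi symbols twisted by characters modulo 8 (helper782). -/

namespace Pool.Agent.N782.T

open Finset Filter Topology MeasureTheory
open Pool.Agent.H306R2.RZ (js osf sqf)
open H343 H343.KF
open Pool.Agent.Helper112 (betaV LamII divisor_bound)
open Pool.Agent.H423R2.RZL.LS4n (js_mulL abs_js_le)
open Pool.Agent.H355R3.RZ4HE (mem_osf)
open Pool.Agent.H379R2.W (exists_neg_one)
open Pool.Agent.N782.Q (ch ch_apply PPj osf_ne js_zero lsS lsL)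

noncomputable section

/-- the Jacobi symbol times a character modulo `8` -/
def chp (ψ : DirichletCharacter ℂ 8) (m : ℕ) : DirichletCharacter ℂ (8 * m) :=
  (DirichletCharacter.changeLevel (dvd_mul_right 8 m) ψ) *
    (DirichletCharacter.changeLevel (dvd_mul_left m 8) (ch m))

theorem chp_apply (ψ : DirichletCharacter ℂ 8) {m : ℕ} (hm : m ≠ 0) (n : ℕ) :
    chp ψ m (n : ZMod (8 * m)) = ψ (n : ZMod 8) * (js n m : ℂ) := by
  by_cases hc : n.Coprime (8 * m)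
  · have h1 : IsCoprime (n : ℤ) ((8 * m : ℕ) : ℤ) := Nat.isCoprime_iff_coprime.mpr hc
    have e1 := DirichletCharacter.changeLevel_eq_cast_of_dvd' ψ (dvd_mul_right 8 m) h1
    have e2 := DirichletCharacter.changeLevel_eq_cast_of_dvd' (ch m) (dvd_mul_left m 8) h1
    push_cast at e1 e2
    unfold chp
    rw [MulChar.mul_apply, e1, e2, ch_apply hm]
  · have h1 : ¬ IsUnit ((n : ℕ) : ZMod (8 * m)) := by
      rw [ZMod.isUnit_iff_coprime]
      exact hc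
    rw [MulChar.map_nonunit _ h1]
    by_cases h8 : n.Coprime 8
    · have hnm : ¬ n.Coprime m := fun h => hc (Nat.Coprime.mul_right h8 h)
      rw [js_zero hnm hm]
      simp
    · have h2 : ¬ IsUnit ((n : ℕ) : ZMod 8) := by
        rw [ZMod.isUnit_iff_coprime]
        exact h8
      rw [MulChar.map_nonunit _ h2, zero_mul]

theorem PPp (ψ : DirichletCharacter ℂ 8) {m : ℕ} (hm : m ≠ 0) (α : ℕ → ℂ) (K : ℕ) (η : ℝ) :
    PP α 1 K η (chp ψ m) = PP (fun k => α k * ψ (k : ZMod 8)) 1 K η (ch m) := by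
  unfold PP tw
  refine sum_congr rfl fun k _ => ?_
  rw [if_pos (Nat.coprime_one_right k), if_pos (Nat.coprime_one_right k), ch_apply hm,
    chp_apply ψ hm]
  ring

theorem tw_le (ψ : DirichletCharacter ℂ 8) (α : ℕ → ℂ) (k : ℕ) :
    ‖α k * ψ (k : ZMod 8)‖ ≤ ‖α k‖ := by
  rw [norm_mul]
  exact mul_le_of_le_one_right (norm_nonneg _) (ψ.norm_le_one _)

theorem lsSp (ψ : DirichletCharacter ℂ 8) : ∃ C : ℝ, 0 < C ∧ ∀ (K D : ℕ) (α : ℕ → ℂ) (η : ℝ),
    1 ≤ D → ∑ m ∈ osf D, ‖PP α 1 K η (chp ψ m)‖ ^ 2 ≤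
      (K + C * (D : ℝ) ^ 3) * ∑ k ∈ Icc 1 K, ‖α k‖ ^ 2 := by
  obtain ⟨C, hC, h⟩ := lsS
  refine ⟨C, hC, fun K D α η hD => ?_⟩
  have h1 := h K D (fun k => α k * ψ (k : ZMod 8)) η hD
  have e1 : ∑ m ∈ osf D, ‖PP α 1 K η (chp ψ m)‖ ^ 2 =
      ∑ m ∈ osf D, ‖PP (fun k => α k * ψ (k : ZMod 8)) 1 K η (ch m)‖ ^ 2 :=
    sum_congr rfl fun m hm => by rw [PPp ψ (osf_ne hm)]
  rw [e1]
  refine h1.trans ?_
  apply mul_le_mul_of_nonneg_left _ (by positivity)
  exact sum_le_sum fun k _ => pow_le_pow_left₀ (norm_nonneg _) (tw_le ψ α k) 2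

theorem lsLp (ψ : DirichletCharacter ℂ 8) (ε : ℝ) (hε : 0 < ε) : ∃ C : ℝ, 0 < C ∧
    ∀ (K D : ℕ) (α : ℕ → ℂ) (b η : ℝ), 1 ≤ D →
    1 ≤ K → 0 ≤ b → (∀ k ∈ Icc 1 K, ‖α k‖ ≤ b) →
    ∑ m ∈ osf D, ‖PP α 1 K η (chp ψ m)‖ ^ 2 ≤
      C * ((K : ℝ) * D) ^ ε * (K + D) * K * b ^ 2 * (1 + Real.log K) ^ 2 := by
  obtain ⟨C, hC, h⟩ := lsL ε hε
  refine ⟨C, hC, fun K D α b η hD hK hb hα => ?_⟩
  have h1 := h K D (fun k => α k * ψ (k : ZMod 8)) b η hD hK hb (fun k hk =>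
    (tw_le ψ α k).trans (hα k hk))
  have e1 : ∑ m ∈ osf D, ‖PP α 1 K η (chp ψ m)‖ ^ 2 =
      ∑ m ∈ osf D, ‖PP (fun k => α k * ψ (k : ZMod 8)) 1 K η (ch m)‖ ^ 2 :=
    sum_congr rfl fun m hm => by rw [PPp ψ (osf_ne hm)]
  rw [e1]
  exact h1

/-- summation of bilinear forms over the moduli -/
theorem tts (ψ : DirichletCharacter ℂ 8) {G : ℝ → ℂ} (hGc : Continuous G)
    (hGi : Integrable (fun ξ => (1 + |ξ|) * ‖G ξ‖))
    {f : ℝ → ℝ} (hfG : ∀ v : ℝ, (f v : ℂ) = ∫ ξ, G ξ * ex (ξ * v)) {B : ℝ} (hf : Test B f)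
    (x : ℝ) (hx : 0 < x) (M J : ℕ) (hM : Real.exp B * x ≤ M) (hJ : Real.exp B * x ≤ 2 ^ J)
    (α β : ℕ → ℂ) (S : Finset ℕ) (Kb : ℝ) (hKb : ∀ j ∈ range J, ∀ η : ℝ,
      ∑ m ∈ S, ‖PP (dy j α) 1 (2 ^ (j + 1)) η (chp ψ m)‖ *
        ‖PP β 1 ⌊Real.exp B * x / 2 ^ j⌋₊ η (chp ψ m)‖ ≤ Kb * (1 + |η|)) :
    ∑ m ∈ S, ‖TT f x M 1 α β (chp ψ m)‖ ≤ J * (Kb * ∫ η, (1 + |η|) * ‖G η‖) := by
  have hG1 : Integrable G := by
    refine hGi.mono' hGc.aestronglyMeasurable (Filter.Eventually.of_forall fun ξ => ?_)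
    have : 0 ≤ |ξ| * ‖G ξ‖ := by positivity
    linarith
  have hint : ∀ (j m : ℕ), Integrable (fun η => ‖G η‖ *
      (‖PP (dy j α) 1 (2 ^ (j + 1)) η (chp ψ m)‖ *
        ‖PP β 1 ⌊Real.exp B * x / 2 ^ j⌋₊ η (chp ψ m)‖)) := by
    intro j m
    obtain ⟨C1, h1⟩ := PP_bdd (dy j α) 1 (2 ^ (j + 1)) (chp ψ m)
    obtain ⟨C2, h2⟩ := PP_bdd β 1 ⌊Real.exp B * x / 2 ^ j⌋₊ (chp ψ m)
    have hC1 : 0 ≤ C1 := (norm_nonneg _).trans (h1 0)
    refine Integrable.mono' (hG1.norm.mul_const (C1 * C2)) ?_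
      (Filter.Eventually.of_forall fun η => ?_)
    · exact (hGc.norm.mul ((PP_cont _ _ _ _).norm.mul (PP_cont _ _ _ _).norm)).aestronglyMeasurable
    · rw [Real.norm_of_nonneg (by positivity)]
      exact mul_le_mul_of_nonneg_left (mul_le_mul (h1 η) (h2 η) (norm_nonneg _) hC1)
        (norm_nonneg _)
  calc ∑ m ∈ S, ‖TT f x M 1 α β (chp ψ m)‖
      ≤ ∑ m ∈ S, ∑ j ∈ range J, ∫ η, ‖G η‖ * (‖PP (dy j α) 1 (2 ^ (j + 1)) η (chp ψ m)‖ *
        ‖PP β 1 ⌊Real.exp B * x / 2 ^ j⌋₊ η (chp ψ m)‖) :=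
        sum_le_sum fun m _ => TT_bound hGc hG1 hfG hf x hx M 1 J hM hJ α β (chp ψ m)
    _ = ∑ j ∈ range J, ∫ η, ∑ m ∈ S, ‖G η‖ * (‖PP (dy j α) 1 (2 ^ (j + 1)) η (chp ψ m)‖ *
        ‖PP β 1 ⌊Real.exp B * x / 2 ^ j⌋₊ η (chp ψ m)‖) := by
        rw [sum_comm]
        refine sum_congr rfl fun j _ => ?_
        rw [integral_finset_sum S fun m _ => hint j m]
    _ ≤ ∑ j ∈ range J, ∫ η, Kb * ((1 + |η|) * ‖G η‖) := by
        refine sum_le_sum fun j hj => ?_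
        apply integral_mono (integrable_finset_sum S fun m _ => hint j m) (hGi.const_mul Kb)
        intro η
        simp only
        rw [← mul_sum]
        calc ‖G η‖ * ∑ m ∈ S, ‖PP (dy j α) 1 (2 ^ (j + 1)) η (chp ψ m)‖ *
              ‖PP β 1 ⌊Real.exp B * x / 2 ^ j⌋₊ η (chp ψ m)‖ ≤ ‖G η‖ * (Kb * (1 + |η|)) :=
              mul_le_mul_of_nonneg_left (hKb j hj η) (norm_nonneg _)
          _ = _ := by ring
    _ = _ := by
        rw [sum_const, card_range, nsmul_eq_mul, integral_const_mul]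

theorem chp_ne_one (ψ : DirichletCharacter ℂ 8) {D m : ℕ} (h : m ∈ osf D) (h1 : 1 < m ∨ ψ ≠ 1) :
    chp ψ m ≠ 1 := by
  obtain ⟨a1, a2, a3, a4⟩ := mem_osf h
  have hm0 : m ≠ 0 := by omega
  have hco : Nat.Coprime 8 m := by
    have : Nat.Coprime (2 ^ 3) m := Nat.Coprime.pow_left 3 ((Nat.coprime_two_left).2 a3)
    exact this
  -- it is enough to find a value different from `1`
  have key : ∀ n : ℕ, n.Coprime 8 → ψ (n : ZMod 8) * (js n m : ℂ) ≠ 1 →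
      (js n m : ℂ) ≠ 0 → chp ψ m ≠ 1 := by
    intro n h8 hne hj hc
    have h2 := chp_apply ψ hm0 n
    rw [hc] at h2
    have hnm : n.Coprime m := by
      by_contra hcon
      apply hj
      rw [js_zero hcon hm0]
      simp
    have hu : IsUnit ((n : ℕ) : ZMod (8 * m)) := by
      rw [ZMod.isUnit_iff_coprime]
      exact Nat.Coprime.mul_right h8 hnm
    rw [MulChar.one_apply hu] at h2
    exact hne h2.symm
  rcases h1 with h1 | h1
  · obtain ⟨a, ha⟩ := exists_neg_one (s := m) (s' := 1) a4 squarefree_one a3 odd_one (by omega)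
    rw [mul_one] at ha
    obtain ⟨n, hn1, hn2⟩ := Nat.chineseRemainder hco 1 a
    have e1 : jacobiSym (n : ℤ) m = -1 := by
      rw [← ha]
      refine jacobiSym.mod_left' ?_
      exact_mod_cast hn2
    have e2 : (js n m : ℂ) = -1 := by
      unfold js
      rw [e1]
      norm_num
    have e3 : ((n : ℕ) : ZMod 8) = 1 := by
      have := (ZMod.natCast_eq_natCast_iff n 1 8).2 hn1
      simpa using this
    have h8 : n.Coprime 8 := by
      have : IsUnit ((n : ℕ) : ZMod 8) := by rw [e3]; exact isUnit_one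
      rwa [ZMod.isUnit_iff_coprime] at this
    refine key n h8 ?_ (by rw [e2]; norm_num)
    rw [e3, map_one, e2]
    norm_num
  · obtain ⟨u, hu⟩ := MulChar.ne_one_iff.1 h1
    obtain ⟨n, hn1, hn2⟩ := Nat.chineseRemainder hco (u : ZMod 8).val 1
    have e1 : jacobiSym (n : ℤ) m = 1 := by
      rw [← jacobiSym.one_left m]
      refine jacobiSym.mod_left' ?_
      exact_mod_cast hn2
    have e2 : (js n m : ℂ) = 1 := by
      unfold js
      rw [e1]
      norm_num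
    have e3 : ((n : ℕ) : ZMod 8) = (u : ZMod 8) := by
      have := (ZMod.natCast_eq_natCast_iff n (u : ZMod 8).val 8).2 hn1
      rw [this, ZMod.natCast_zmod_val]
    have h8 : n.Coprime 8 := by
      have : IsUnit ((n : ℕ) : ZMod 8) := by rw [e3]; exact u.isUnit
      rwa [ZMod.isUnit_iff_coprime] at this
    refine key n h8 ?_ (by rw [e2]; norm_num)
    rw [e3, e2, mul_one]
    exact hu

theorem cond_ge (ψ : DirichletCharacter ℂ 8) {D m : ℕ} (h : m ∈ osf D) (h1 : 1 < m ∨ ψ ≠ 1) :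
    2 ≤ (chp ψ m).conductor ∧ (chp ψ m).conductor ≤ 8 * m := by
  have hm0 := osf_ne h
  haveI : NeZero (8 * m) := ⟨by omega⟩
  have hc1 : (chp ψ m).conductor ≠ 1 := fun h2 =>
    chp_ne_one ψ h h1 (((chp ψ m).eq_one_iff_conductor_eq_one).mpr h2)
  have hc0 : (chp ψ m).conductor ≠ 0 := (chp ψ m).conductor_ne_zero
  have hcd := (chp ψ m).conductor_dvd_level
  have hcM : (chp ψ m).conductor ≤ 8 * m := Nat.le_of_dvd (by omega) hcd
  omega

theorem prim_apply (ψ : DirichletCharacter ℂ 8) {m : ℕ} (hm : m ≠ 0) {a : ℕ}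
    (hco : a.Coprime (8 * m)) :
    (chp ψ m).primitiveCharacter (a : ZMod (chp ψ m).conductor) =
      ψ (a : ZMod 8) * (js a m : ℂ) := by
  have h3 : IsCoprime (a : ℤ) ((8 * m : ℕ) : ℤ) := Nat.isCoprime_iff_coprime.mpr hco
  have h4 := (chp ψ m).primitiveCharacter_apply_of_isCoprime h3
  push_cast at h4
  rw [h4, chp_apply ψ hm]

theorem chp_zero (ψ : DirichletCharacter ℂ 8) {a m : ℕ} (hco : ¬ a.Coprime (8 * m)) :
    chp ψ m (a : ZMod (8 * m)) = 0 := by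
  apply MulChar.map_nonunit
  rw [ZMod.isUnit_iff_coprime]
  exact hco

theorem PP_prim (ψ : DirichletCharacter ℂ 8) {m : ℕ} (hm : m ≠ 0) (α : ℕ → ℂ) (K : ℕ) (η : ℝ) :
    PP α 1 K η (chp ψ m) = PP α (8 * m) K η (chp ψ m).primitiveCharacter := by
  unfold PP tw
  refine sum_congr rfl fun k _ => ?_
  rw [if_pos (Nat.coprime_one_right k)]
  split_ifs with h
  · rw [prim_apply ψ hm h, chp_apply ψ hm]
  · rw [chp_zero ψ h]
    simp

theorem div8 {m : ℕ} : ((8 * m).divisors.card : ℝ) ≤ 4 * m.divisors.card := by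
  have h := Pool.Agent.H398R2.BV.card_div_mul_le 8 m
  have h8 : (Nat.divisors 8).card = 4 := by decide
  rw [h8] at h
  exact_mod_cast h

theorem pvj (ψ : DirichletCharacter ℂ 8) (i : ℕ) (hi : i ≤ 1) (η : ℝ) (L : ℕ) {D m : ℕ}
    (h : m ∈ osf D) (h1 : 1 < m) :
    ‖PP (fun n => (((Real.log n) ^ i : ℝ) : ℂ)) 1 L η (chp ψ m)‖ ≤
      48 * (2 * (7 * (1 + |η|) * (1 + Real.log L) ^ 2) *
        (m.divisors.card * (2 * Real.sqrt m * (1 + Real.log m)))) := by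
  obtain ⟨hc2, hcm⟩ := cond_ge ψ h (Or.inl h1)
  rw [PP_prim ψ (by omega)]
  refine (PP_smooth i hi η (8 * m) L (chp ψ m).conductor (by omega) hc2
    (chp ψ m).primitiveCharacter (chp ψ m).primitiveCharacter_isPrimitive).trans ?_
  have hm1 : (1 : ℝ) ≤ m := by exact_mod_cast h1.le
  have hc1' : (1 : ℝ) ≤ (chp ψ m).conductor := by
    exact_mod_cast (by omega : 1 ≤ (chp ψ m).conductor)
  have hcM' : ((chp ψ m).conductor : ℝ) ≤ 8 * m := by exact_mod_cast hcm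
  have h5 : Real.sqrt (chp ψ m).conductor ≤ 3 * Real.sqrt m := by
    calc Real.sqrt (chp ψ m).conductor ≤ Real.sqrt (3 ^ 2 * m) :=
          Real.sqrt_le_sqrt (by linarith)
      _ = 3 * Real.sqrt m := by rw [Real.sqrt_mul (by norm_num), Real.sqrt_sq (by norm_num)]
  have h8 : Real.log 8 ≤ 3 := by
    have : Real.log 8 = 3 * Real.log 2 := by
      rw [show (8 : ℝ) = 2 ^ 3 by norm_num, Real.log_pow]; norm_num
    have := Real.log_two_lt_d9
    linarith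
  have hlm : 0 ≤ Real.log m := Real.log_nonneg hm1
  have h6 : 1 + Real.log (chp ψ m).conductor ≤ 4 * (1 + Real.log m) := by
    have : Real.log (chp ψ m).conductor ≤ Real.log 8 + Real.log m := by
      rw [← Real.log_mul (by norm_num) (by linarith)]
      exact Real.log_le_log (by linarith) hcM'
    linarith
  have h7 : 0 ≤ Real.log (chp ψ m).conductor := Real.log_nonneg hc1'
  have h8 : 0 ≤ Real.log L := Real.log_natCast_nonneg L
  have h9 := div8 (m := m)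
  have hη := abs_nonneg η
  calc 2 * (7 * (1 + |η|) * (1 + Real.log L) ^ 2) * ((8 * m).divisors.card *
        (2 * Real.sqrt (chp ψ m).conductor * (1 + Real.log (chp ψ m).conductor)))
      ≤ 2 * (7 * (1 + |η|) * (1 + Real.log L) ^ 2) * ((4 * m.divisors.card) *
        (2 * (3 * Real.sqrt m) * (4 * (1 + Real.log m)))) := by gcongr
    _ = _ := by ring

end

end Pool.Agent.N782.T
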