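import Pool.Agent.N782.TB
import Pool.Agent.N782.QF

set_option autoImplicit false

/-! Sums of type I, twisted (helper782). -/

namespace Pool.Agent.N782.T

open Finset Filter Topology MeasureTheory
open Pool.Agent.H306R2.RZ (js osf sqf)
open H343 H343.KF
open Pool.Agent.Helper112 (betaV LamII divisor_bound)
open Pool.Agent.Helper112.TI (mu1 l1 mu1_apply l1_apply vaughan)
open Pool.Agent.H355R3.RZ4HE (mem_osf)
open Pool.Agent.H410R2 (psiLog)
open Pool.Agent.N782.Q (Pa ch ch_apply PP_triv PP_bV_zero PP_LU_zero bV_norm large2 pa_exists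
  PS_bound PS_M js_zero)

noncomputable section

/-- sums of type I -/
theorem tI (ψ : DirichletCharacter ℂ 8) {G : ℝ → ℂ} (hGc : Continuous G) (hGi : Integrable (fun ξ => (1 + |ξ|) * ‖G ξ‖))
    {f : ℝ → ℝ} (hfG : ∀ v : ℝ, (f v : ℂ) = ∫ ξ, G ξ * ex (ξ * v)) {B : ℝ} (hf : Test B f) :
    ∃ C : ℝ, 0 < C ∧ ∀ (x : ℝ) (M J U : ℕ), Pa B x M J U → ∀ (i W : ℕ) (α : ℕ → ℂ), i ≤ 1 →
      (∀ n, W < n → α n = 0) → (∀ n, 1 ≤ n → ‖α n‖ ≤ 1 + Real.log n) → (W : ℝ) ≤ x →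
      ∀ D m : ℕ, m ∈ osf D → 1 < m → (m : ℝ) ≤ 2 * x →
      ‖TT f x M 1 α (fun n => (((Real.log n) ^ i : ℝ) : ℂ)) (chp ψ m)‖ ≤
        C * W * (1 + Real.log x) ^ 5 * (m.divisors.card * Real.sqrt m) := by
  set I : ℝ := ∫ η, (1 + |η|) * ‖G η‖ with hI
  have hI0 : 0 ≤ I := integral_nonneg fun η => by positivity
  refine ⟨5376 * (|B| + 3) ^ 3 * (I + 1), by positivity, ?_⟩
  intro x M J U P i W α hi hW hα hWx D m hm hm1 hmx
  have hx := P.hx
  have hx0 : 0 < x := by linarith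
  have hlx : 0 ≤ Real.log x := Real.log_nonneg hx
  have hB := abs_nonneg B
  have hmR : (1 : ℝ) ≤ m := by exact_mod_cast hm1.le
  have hlm : Real.log m ≤ Real.log 2 + Real.log x := by
    rw [← Real.log_mul (by norm_num) (by positivity)]
    exact Real.log_le_log (by linarith) hmx
  have hlm0 : 0 ≤ Real.log m := Real.log_nonneg hmR
  have hl2 := Real.log_two_lt_d9
  set ℓ : ℝ := 1 + Real.log x with hℓ
  have hℓ1 : 1 ≤ ℓ := by rw [hℓ]; linarith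
  have hlW : 1 + Real.log W ≤ ℓ := by
    rcases Nat.eq_zero_or_pos W with h0 | h0
    · rw [h0]; simp; exact hℓ1
    · have : Real.log W ≤ Real.log x := Real.log_le_log (by exact_mod_cast h0) hWx
      rw [hℓ]; linarith
  have hlW0 : 0 ≤ 1 + Real.log W := by
    have := Real.log_natCast_nonneg W
    linarith
  have hKb : ∀ j ∈ range J, ∀ η : ℝ,
      ∑ m' ∈ ({m} : Finset ℕ), ‖PP (dy j α) 1 (2 ^ (j + 1)) η (chp ψ m')‖ *
        ‖PP (fun n => (((Real.log n) ^ i : ℝ) : ℂ)) 1 ⌊Real.exp B * x / 2 ^ j⌋₊ η (chp ψ m')‖ ≤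
        (2688 * (|B| + 3) ^ 2 * W * ℓ ^ 4 * (m.divisors.card * Real.sqrt m)) * (1 + |η|) := by
    intro j hj η
    rw [mem_range] at hj
    rw [sum_singleton]
    have h1 := PP_triv α (2 ^ (j + 1)) W j (8 * m) η hW hα (chp ψ m)
    have h2 := pvj ψ i hi η ⌊Real.exp B * x / 2 ^ j⌋₊ hm hm1
    have h3 := P.logL j
    rw [← hℓ] at h3
    have h4 : 0 ≤ Real.log (⌊Real.exp B * x / 2 ^ j⌋₊ : ℕ) := Real.log_natCast_nonneg _
    have h5 : 1 + Real.log m ≤ 2 * ℓ := by rw [hℓ]; linarith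
    have hη := abs_nonneg η
    calc ‖PP (dy j α) 1 (2 ^ (j + 1)) η (chp ψ m)‖ *
        ‖PP (fun n => (((Real.log n) ^ i : ℝ) : ℂ)) 1 ⌊Real.exp B * x / 2 ^ j⌋₊ η (chp ψ m)‖
        ≤ (W * (1 + Real.log W)) * (48 * (2 * (7 * (1 + |η|) *
          (1 + Real.log (⌊Real.exp B * x / 2 ^ j⌋₊ : ℕ)) ^ 2) *
          (m.divisors.card * (2 * Real.sqrt m * (1 + Real.log m))))) :=
          mul_le_mul h1 h2 (norm_nonneg _) (by positivity)
      _ ≤ (W * ℓ) * (48 * (2 * (7 * (1 + |η|) * ((|B| + 3) * ℓ) ^ 2) *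
          (m.divisors.card * (2 * Real.sqrt m * (2 * ℓ))))) := by gcongr
      _ = _ := by ring
  have h := tts ψ hGc hGi hfG hf x hx0 M J P.hM P.hJ α
    (fun n => (((Real.log n) ^ i : ℝ) : ℂ)) {m} _ hKb
  rw [sum_singleton] at h
  refine h.trans ?_
  rw [← hI]
  have hJ := P.J_le
  rw [← hℓ] at hJ
  calc (J : ℝ) * ((2688 * (|B| + 3) ^ 2 * W * ℓ ^ 4 * (m.divisors.card * Real.sqrt m)) * I)
      ≤ (2 * (|B| + 3) * ℓ) * ((2688 * (|B| + 3) ^ 2 * W * ℓ ^ 4 *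
        (m.divisors.card * Real.sqrt m)) * (I + 1)) := by
        gcongr
        linarith
    _ = _ := by ring


end

end Pool.Agent.N782.T
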