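import Pool.Agent.N782.TC

set_option autoImplicit false

/-! Sums of type II over moduli, twisted (helper782). -/

namespace Pool.Agent.N782.T

open Finset Filter Topology MeasureTheory
open Pool.Agent.H306R2.RZ (js osf sqf)
open H343 H343.KF
open Pool.Agent.Helper112 (betaV LamII divisor_bound)
open Pool.Agent.Helper112.TI (mu1 l1 mu1_apply l1_apply vaughan)
open Pool.Agent.H355R3.RZ4HE (mem_osf)
open Pool.Agent.H410R2 (psiLog)
open Pool.Agent.N782.Q (Pa ch ch_apply PP_triv PP_bV_zero PP_LU_zero bV_norm large2 pa_exists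
  PS_bound PS_M js_zero)

noncomputable section

/-- small moduli -/
theorem tIIs (ψ : DirichletCharacter ℂ 8) {G : ℝ → ℂ} (hGc : Continuous G) (hGi : Integrable (fun ξ => (1 + |ξ|) * ‖G ξ‖))
    {f : ℝ → ℝ} (hfG : ∀ v : ℝ, (f v : ℂ) = ∫ ξ, G ξ * ex (ξ * v)) {B : ℝ} (hf : Test B f) :
    ∃ C : ℝ, 0 < C ∧ ∀ (x : ℝ) (M J U : ℕ), Pa B x M J U → ∀ N : ℕ, 1 ≤ N → (N : ℝ) ^ 3 ≤ U →
      ∑ m ∈ osf N, ‖TT f x M 1 (fun n => (betaV U n : ℂ)) (LU U) (chp ψ m)‖ ≤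
        C * x * (1 + Real.log x) ^ 4 := by
  obtain ⟨C, hC, hls⟩ := lsSp ψ
  set I : ℝ := ∫ η, (1 + |η|) * ‖G η‖ with hI
  have hI0 : 0 ≤ I := integral_nonneg fun η => by positivity
  refine ⟨4 * (1 + C) ^ 2 * Real.exp |B| * (|B| + 3) ^ 4 * (I + 1), by positivity, ?_⟩
  intro x M J U P N hN hNU
  have hx := P.hx
  have hx0 : 0 < x := by linarith
  have hB := abs_nonneg B
  set ℓ : ℝ := 1 + Real.log x with hℓ
  have hℓ1 : 1 ≤ ℓ := P.one_le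
  have hbl : 1 ≤ (|B| + 3) * ℓ := by nlinarith
  have hKb : ∀ j ∈ range J, ∀ η : ℝ,
      ∑ m ∈ osf N, ‖PP (dy j (fun n => (betaV U n : ℂ))) 1 (2 ^ (j + 1)) η (chp ψ m)‖ *
        ‖PP (LU U) 1 ⌊Real.exp B * x / 2 ^ j⌋₊ η (chp ψ m)‖ ≤
        ((1 + C) ^ 2 * (2 * Real.exp |B| * x) * ((|B| + 3) * ℓ) ^ 3) * (1 + |η|) := by
    intro j hj η
    rw [mem_range] at hj
    have hη := abs_nonneg η
    have hR : 0 ≤ ((1 + C) ^ 2 * (2 * Real.exp |B| * x) * ((|B| + 3) * ℓ) ^ 3) * (1 + |η|) := by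
      positivity
    by_cases hU1 : 2 ^ (j + 1) ≤ U
    · refine le_trans (le_of_eq ?_) hR
      exact sum_eq_zero fun m _ => by rw [PP_bV_zero hU1]; simp
    by_cases hU2 : ⌊Real.exp B * x / 2 ^ j⌋₊ ≤ U
    · refine le_trans (le_of_eq ?_) hR
      exact sum_eq_zero fun m _ => by rw [PP_LU_zero hU2]; simp
    push Not at hU1 hU2
    have hKL := P.KL j
    have hlK := P.logK hj
    have hlL := P.logL j
    rw [← hℓ] at hlK hlL
    have h1 := hls (2 ^ (j + 1)) N (dy j (fun n => (betaV U n : ℂ))) η hN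
    have h2 := hls ⌊Real.exp B * x / 2 ^ j⌋₊ N (LU U) η hN
    set K : ℕ := 2 ^ (j + 1) with hK
    set L : ℕ := ⌊Real.exp B * x / 2 ^ j⌋₊ with hL
    have hK0 : (0 : ℝ) ≤ K := Nat.cast_nonneg K
    have hL0 : (0 : ℝ) ≤ L := Nat.cast_nonneg L
    have hN3K : (N : ℝ) ^ 3 ≤ K := hNU.trans (by exact_mod_cast hU1.le)
    have hN3L : (N : ℝ) ^ 3 ≤ L := hNU.trans (by exact_mod_cast hU2.le)
    have hlK0 : 0 ≤ Real.log (K : ℝ) := Real.log_natCast_nonneg K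
    have hlL0 : 0 ≤ Real.log (L : ℝ) := Real.log_natCast_nonneg L
    have hA : ∑ m ∈ osf N, ‖PP (dy j (fun n => (betaV U n : ℂ))) 1 K η (chp ψ m)‖ ^ 2 ≤
        ((1 + C) * K * ((|B| + 3) * ℓ) ^ 2) ^ 2 := by
      have h3 : ∑ k ∈ Icc 1 K, ‖dy j (fun n => (betaV U n : ℂ)) k‖ ^ 2 ≤
          K * (1 + Real.log K) ^ 3 := by
        refine le_trans (sum_le_sum fun k _ => ?_) (Pool.Agent.H398R2.BV.sum_card_div_sq K)
        exact pow_le_pow_left₀ (norm_nonneg _) (bV_norm j U k) 2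
      calc _ ≤ (K + C * (N : ℝ) ^ 3) * (K * (1 + Real.log K) ^ 3) :=
            h1.trans (mul_le_mul_of_nonneg_left h3 (by positivity))
        _ ≤ (K + C * K) * (K * ((|B| + 3) * ℓ) ^ 3) := by gcongr
        _ = (1 + C) * K ^ 2 * ((|B| + 3) * ℓ) ^ 3 := by ring
        _ ≤ (1 + C) ^ 2 * K ^ 2 * ((|B| + 3) * ℓ) ^ 4 := by
            have e1 : (1 + C) ≤ (1 + C) ^ 2 := by nlinarith
            have e2 : ((|B| + 3) * ℓ) ^ 3 ≤ ((|B| + 3) * ℓ) ^ 4 :=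
              pow_le_pow_right₀ hbl (by norm_num)
            gcongr
        _ = _ := by ring
    have hA2 : ∑ m ∈ osf N, ‖PP (LU U) 1 L η (chp ψ m)‖ ^ 2 ≤
        ((1 + C) * L * ((|B| + 3) * ℓ)) ^ 2 := by
      have h3 : ∑ k ∈ Icc 1 L, ‖LU U k‖ ^ 2 ≤ L * ((|B| + 3) * ℓ) ^ 2 := by
        calc _ ≤ ∑ k ∈ Icc 1 L, ((|B| + 3) * ℓ) ^ 2 := by
              refine sum_le_sum fun k hk => ?_
              rw [mem_Icc] at hk
              apply pow_le_pow_left₀ (norm_nonneg _)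
              have := LU_norm U hk.1 hk.2
              linarith
          _ = _ := by rw [sum_const, Nat.card_Icc, nsmul_eq_mul]; simp
      calc _ ≤ (L + C * (N : ℝ) ^ 3) * (L * ((|B| + 3) * ℓ) ^ 2) :=
            h2.trans (mul_le_mul_of_nonneg_left h3 (by positivity))
        _ ≤ (L + C * L) * (L * ((|B| + 3) * ℓ) ^ 2) := by gcongr
        _ = (1 + C) * L ^ 2 * ((|B| + 3) * ℓ) ^ 2 := by ring
        _ ≤ (1 + C) ^ 2 * L ^ 2 * ((|B| + 3) * ℓ) ^ 2 := by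
            have e1 : (1 + C) ≤ (1 + C) ^ 2 := by nlinarith
            gcongr
        _ = _ := by ring
    calc ∑ m ∈ osf N, ‖PP (dy j (fun n => (betaV U n : ℂ))) 1 K η (chp ψ m)‖ *
          ‖PP (LU U) 1 L η (chp ψ m)‖
        ≤ Real.sqrt (∑ m ∈ osf N, ‖PP (dy j (fun n => (betaV U n : ℂ))) 1 K η (chp ψ m)‖ ^ 2) *
          Real.sqrt (∑ m ∈ osf N, ‖PP (LU U) 1 L η (chp ψ m)‖ ^ 2) :=
          Real.sum_mul_le_sqrt_mul_sqrt _ _ _
      _ ≤ ((1 + C) * K * ((|B| + 3) * ℓ) ^ 2) * ((1 + C) * L * ((|B| + 3) * ℓ)) := by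
          apply mul_le_mul _ _ (Real.sqrt_nonneg _) (by positivity)
          · exact (Real.sqrt_le_sqrt hA).trans (le_of_eq (Real.sqrt_sq (by positivity)))
          · exact (Real.sqrt_le_sqrt hA2).trans (le_of_eq (Real.sqrt_sq (by positivity)))
      _ = (1 + C) ^ 2 * (K * L) * ((|B| + 3) * ℓ) ^ 3 := by ring
      _ ≤ (1 + C) ^ 2 * (2 * Real.exp |B| * x) * ((|B| + 3) * ℓ) ^ 3 := by gcongr
      _ = ((1 + C) ^ 2 * (2 * Real.exp |B| * x) * ((|B| + 3) * ℓ) ^ 3) * 1 := (mul_one _).symm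
      _ ≤ _ := by
          apply mul_le_mul_of_nonneg_left _ (by positivity)
          linarith
  have h := tts ψ hGc hGi hfG hf x hx0 M J P.hM P.hJ (fun n => (betaV U n : ℂ)) (LU U) (osf N) _ hKb
  refine h.trans ?_
  rw [← hI]
  have hJ := P.J_le
  rw [← hℓ] at hJ
  calc (J : ℝ) * (((1 + C) ^ 2 * (2 * Real.exp |B| * x) * ((|B| + 3) * ℓ) ^ 3) * I)
      ≤ (2 * (|B| + 3) * ℓ) * (((1 + C) ^ 2 * (2 * Real.exp |B| * x) *
        ((|B| + 3) * ℓ) ^ 3) * (I + 1)) := by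
        gcongr
        linarith
    _ = _ := by ring

/-- large moduli -/
theorem tIIl (ψ : DirichletCharacter ℂ 8) {G : ℝ → ℂ} (hGc : Continuous G) (hGi : Integrable (fun ξ => (1 + |ξ|) * ‖G ξ‖))
    {f : ℝ → ℝ} (hfG : ∀ v : ℝ, (f v : ℂ) = ∫ ξ, G ξ * ex (ξ * v)) {B : ℝ} (hf : Test B f)
    (ε : ℝ) (hε : 0 < ε) :
    ∃ C : ℝ, 0 < C ∧ ∀ (x : ℝ) (M J U : ℕ), Pa B x M J U → ∀ N : ℕ, 1 ≤ N → (N : ℝ) ≤ 2 * x →
      ∑ m ∈ osf N, ‖TT f x M 1 (fun n => (betaV U n : ℂ)) (LU U) (chp ψ m)‖ ≤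
        C * (x ^ ε) ^ 3 * (1 + Real.log x) ^ 4 *
          Real.sqrt (x * (x + N * x / U + (N : ℝ) ^ 2)) := by
  obtain ⟨C1, hC1, hdiv⟩ := divisor_bound ε hε
  obtain ⟨C2, hC2, hls⟩ := lsLp ψ ε hε
  set I : ℝ := ∫ η, (1 + |η|) * ‖G η‖ with hI
  have hI0 : 0 ≤ I := integral_nonneg fun η => by positivity
  set E : ℝ := Real.exp |B| with hE
  have hE1 : 1 ≤ E := Real.one_le_exp (abs_nonneg B)
  have hE0 : 0 < E := by linarith
  refine ⟨2 * (C2 * C1 * ((4 * E) ^ ε) ^ 3 * (|B| + 3) ^ 4 * (3 * E)) * (I + 1), by positivity, ?_⟩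
  intro x M J U P N hN hNx
  have hx := P.hx
  have hx0 : 0 < x := by linarith
  have hB := abs_nonneg B
  have hU0 : (0 : ℝ) < U := by exact_mod_cast P.hU1
  set ℓ : ℝ := 1 + Real.log x with hℓ
  have hℓ1 : 1 ≤ ℓ := P.one_le
  have hbl : 1 ≤ (|B| + 3) * ℓ := by nlinarith
  set Q : ℝ := x + N * x / U + (N : ℝ) ^ 2 with hQ
  have hQ0 : 0 ≤ Q := by rw [hQ]; positivity
  set ρ : ℝ := (4 * E * x) ^ ε with hρ
  have hρ0 : 0 < ρ := by rw [hρ]; positivity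
  have hKb : ∀ j ∈ range J, ∀ η : ℝ,
      ∑ m ∈ osf N, ‖PP (dy j (fun n => (betaV U n : ℂ))) 1 (2 ^ (j + 1)) η (chp ψ m)‖ *
        ‖PP (LU U) 1 ⌊Real.exp B * x / 2 ^ j⌋₊ η (chp ψ m)‖ ≤
        (C2 * C1 * ρ ^ 3 * ((|B| + 3) * ℓ) ^ 3 * (3 * E) * Real.sqrt (x * Q)) * (1 + |η|) := by
    intro j hj η
    rw [mem_range] at hj
    have hη := abs_nonneg η
    have hR : 0 ≤ (C2 * C1 * ρ ^ 3 * ((|B| + 3) * ℓ) ^ 3 * (3 * E) * Real.sqrt (x * Q)) *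
        (1 + |η|) := by
      positivity
    by_cases hU1 : 2 ^ (j + 1) ≤ U
    · refine le_trans (le_of_eq ?_) hR
      exact sum_eq_zero fun m _ => by rw [PP_bV_zero hU1]; simp
    by_cases hU2 : ⌊Real.exp B * x / 2 ^ j⌋₊ ≤ U
    · refine le_trans (le_of_eq ?_) hR
      exact sum_eq_zero fun m _ => by rw [PP_LU_zero hU2]; simp
    push Not at hU1 hU2
    have hKL := P.KL j
    have hlK := P.logK hj
    have hlL := P.logL j
    have hKx := P.K_le hj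
    have hLx := P.L_le' j
    rw [← hℓ] at hlK hlL
    rw [← hE] at hKL hKx hLx
    have hL1 : 1 ≤ ⌊Real.exp B * x / 2 ^ j⌋₊ := by
      have := P.hU1
      omega
    set K : ℕ := 2 ^ (j + 1) with hK
    set L : ℕ := ⌊Real.exp B * x / 2 ^ j⌋₊ with hL
    have hK1 : 1 ≤ K := by rw [hK]; exact Nat.one_le_two_pow
    have hK1R : (1 : ℝ) ≤ K := by exact_mod_cast hK1
    have hL1R : (1 : ℝ) ≤ L := by exact_mod_cast hL1
    have hN1R : (1 : ℝ) ≤ N := by exact_mod_cast hN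
    have hlK0 : 0 ≤ Real.log (K : ℝ) := Real.log_natCast_nonneg K
    have hlL0 : 0 ≤ Real.log (L : ℝ) := Real.log_natCast_nonneg L
    have hNx' : (N : ℝ) ≤ 4 * E * x := by nlinarith
    have hLx' : (L : ℝ) ≤ 4 * E * x := by nlinarith
    have hdK : ∀ k ∈ Icc 1 K, ‖dy j (fun n => (betaV U n : ℂ)) k‖ ≤ C1 * (K : ℝ) ^ ε := by
      intro k hk
      rw [mem_Icc] at hk
      refine (bV_norm j U k).trans ((hdiv k hk.1).trans ?_)
      have : (k : ℝ) ≤ K := by exact_mod_cast hk.2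
      gcongr
    have hdL : ∀ k ∈ Icc 1 L, ‖LU U k‖ ≤ (|B| + 3) * ℓ := by
      intro k hk
      rw [mem_Icc] at hk
      have := LU_norm U hk.1 hk.2
      linarith
    have h1 := hls K N (dy j (fun n => (betaV U n : ℂ))) (C1 * (K : ℝ) ^ ε) η hN hK1
      (by positivity) hdK
    have h2 := hls L N (LU U) ((|B| + 3) * ℓ) η hN hL1 (by positivity) hdL
    have hρK : (K : ℝ) ^ ε ≤ ρ := by rw [hρ]; gcongr
    have hρKN : ((K : ℝ) * N) ^ ε ≤ ρ ^ 2 := by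
      calc ((K : ℝ) * N) ^ ε ≤ ((4 * E * x) * (4 * E * x)) ^ ε := by gcongr
        _ = ρ ^ 2 := by rw [Real.mul_rpow (by positivity) (by positivity), hρ]; ring
    have hρLN : ((L : ℝ) * N) ^ ε ≤ ρ ^ 2 := by
      calc ((L : ℝ) * N) ^ ε ≤ ((4 * E * x) * (4 * E * x)) ^ ε := by gcongr
        _ = ρ ^ 2 := by rw [Real.mul_rpow (by positivity) (by positivity), hρ]; ring
    have hA : ∑ m ∈ osf N, ‖PP (dy j (fun n => (betaV U n : ℂ))) 1 K η (chp ψ m)‖ ^ 2 ≤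
        C2 * ρ ^ 2 * (K + N) * K * (C1 * ρ) ^ 2 * ((|B| + 3) * ℓ) ^ 2 := by
      refine h1.trans ?_
      gcongr
    have hA2 : ∑ m ∈ osf N, ‖PP (LU U) 1 L η (chp ψ m)‖ ^ 2 ≤
        C2 * ρ ^ 2 * (L + N) * L * ((|B| + 3) * ℓ) ^ 2 * ((|B| + 3) * ℓ) ^ 2 := by
      refine h2.trans ?_
      gcongr
    have hUK : (U : ℝ) ≤ K := by exact_mod_cast hU1.le
    have hUL : (U : ℝ) ≤ L := by exact_mod_cast hU2.le
    have hKU : (K : ℝ) ≤ 2 * E * x / U := by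
      rw [le_div_iff₀ hU0]
      calc (K : ℝ) * U ≤ K * L := by gcongr
        _ ≤ _ := hKL
    have hLU : (L : ℝ) ≤ 2 * E * x / U := by
      rw [le_div_iff₀ hU0]
      calc (L : ℝ) * U ≤ L * K := by gcongr
        _ ≤ _ := by rw [mul_comm]; exact hKL
    have hKN : ((K : ℝ) + N) * (L + N) ≤ 4 * E * Q := by
      have e1 : ((K : ℝ) + N) * (L + N) = K * L + N * (K + L) + (N : ℝ) ^ 2 := by ring
      rw [e1, hQ]
      have e2 : (N : ℝ) * (K + L) ≤ N * (2 * E * x / U + 2 * E * x / U) := by gcongr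
      have e3 : (N : ℝ) * (2 * E * x / U + 2 * E * x / U) = 4 * E * (N * x / U) := by ring
      have e4 : (N : ℝ) ^ 2 ≤ 4 * E * (N : ℝ) ^ 2 := by
        have : (0 : ℝ) ≤ (N : ℝ) ^ 2 := by positivity
        nlinarith
      have e5 : (K : ℝ) * L ≤ 4 * E * x := by nlinarith
      linarith
    have hprod : (C2 * ρ ^ 2 * (K + N) * K * (C1 * ρ) ^ 2 * ((|B| + 3) * ℓ) ^ 2) *
        (C2 * ρ ^ 2 * (L + N) * L * ((|B| + 3) * ℓ) ^ 2 * ((|B| + 3) * ℓ) ^ 2) ≤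
        (C2 * C1 * ρ ^ 3 * ((|B| + 3) * ℓ) ^ 3 * (3 * E)) ^ 2 * (x * Q) := by
      have e1 : (C2 * ρ ^ 2 * (K + N) * K * (C1 * ρ) ^ 2 * ((|B| + 3) * ℓ) ^ 2) *
        (C2 * ρ ^ 2 * (L + N) * L * ((|B| + 3) * ℓ) ^ 2 * ((|B| + 3) * ℓ) ^ 2) =
        (C2 * C1 * ρ ^ 3 * ((|B| + 3) * ℓ) ^ 3) ^ 2 * ((((K : ℝ) + N) * (L + N)) * (K * L)) := by
        ring
      rw [e1]
      have e2 : (((K : ℝ) + N) * (L + N)) * (K * L) ≤ (4 * E * Q) * (2 * E * x) :=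
        mul_le_mul hKN hKL (by positivity) (by positivity)
      calc _ ≤ (C2 * C1 * ρ ^ 3 * ((|B| + 3) * ℓ) ^ 3) ^ 2 * ((4 * E * Q) * (2 * E * x)) :=
            mul_le_mul_of_nonneg_left e2 (by positivity)
        _ = 8 * ((C2 * C1 * ρ ^ 3 * ((|B| + 3) * ℓ) ^ 3) ^ 2 * E ^ 2 * (x * Q)) := by ring
        _ ≤ 9 * ((C2 * C1 * ρ ^ 3 * ((|B| + 3) * ℓ) ^ 3) ^ 2 * E ^ 2 * (x * Q)) := by
            have : 0 ≤ (C2 * C1 * ρ ^ 3 * ((|B| + 3) * ℓ) ^ 3) ^ 2 * E ^ 2 * (x * Q) := by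
              positivity
            linarith
        _ = _ := by ring
    calc ∑ m ∈ osf N, ‖PP (dy j (fun n => (betaV U n : ℂ))) 1 K η (chp ψ m)‖ *
          ‖PP (LU U) 1 L η (chp ψ m)‖
        ≤ Real.sqrt (∑ m ∈ osf N, ‖PP (dy j (fun n => (betaV U n : ℂ))) 1 K η (chp ψ m)‖ ^ 2) *
          Real.sqrt (∑ m ∈ osf N, ‖PP (LU U) 1 L η (chp ψ m)‖ ^ 2) :=
          Real.sum_mul_le_sqrt_mul_sqrt _ _ _
      _ ≤ Real.sqrt (C2 * ρ ^ 2 * (K + N) * K * (C1 * ρ) ^ 2 * ((|B| + 3) * ℓ) ^ 2) *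
          Real.sqrt (C2 * ρ ^ 2 * (L + N) * L * ((|B| + 3) * ℓ) ^ 2 * ((|B| + 3) * ℓ) ^ 2) :=
          mul_le_mul (Real.sqrt_le_sqrt hA) (Real.sqrt_le_sqrt hA2) (Real.sqrt_nonneg _)
            (Real.sqrt_nonneg _)
      _ = Real.sqrt ((C2 * ρ ^ 2 * (K + N) * K * (C1 * ρ) ^ 2 * ((|B| + 3) * ℓ) ^ 2) *
          (C2 * ρ ^ 2 * (L + N) * L * ((|B| + 3) * ℓ) ^ 2 * ((|B| + 3) * ℓ) ^ 2)) :=
          (Real.sqrt_mul (by positivity) _).symm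
      _ ≤ Real.sqrt ((C2 * C1 * ρ ^ 3 * ((|B| + 3) * ℓ) ^ 3 * (3 * E)) ^ 2 * (x * Q)) :=
          Real.sqrt_le_sqrt hprod
      _ = C2 * C1 * ρ ^ 3 * ((|B| + 3) * ℓ) ^ 3 * (3 * E) * Real.sqrt (x * Q) := by
          rw [Real.sqrt_mul (by positivity), Real.sqrt_sq (by positivity)]
      _ = (C2 * C1 * ρ ^ 3 * ((|B| + 3) * ℓ) ^ 3 * (3 * E) * Real.sqrt (x * Q)) * 1 :=
          (mul_one _).symm
      _ ≤ _ := by
          apply mul_le_mul_of_nonneg_left _ (by positivity)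
          linarith
  have h := tts ψ hGc hGi hfG hf x hx0 M J P.hM P.hJ (fun n => (betaV U n : ℂ)) (LU U) (osf N) _ hKb
  refine h.trans ?_
  rw [← hI]
  have hJ := P.J_le
  rw [← hℓ] at hJ
  have hρe : ρ = (4 * E) ^ ε * x ^ ε := by
    rw [hρ, Real.mul_rpow (by positivity) (by positivity)]
  calc (J : ℝ) * ((C2 * C1 * ρ ^ 3 * ((|B| + 3) * ℓ) ^ 3 * (3 * E) * Real.sqrt (x * Q)) * I)
      ≤ (2 * (|B| + 3) * ℓ) * ((C2 * C1 * ρ ^ 3 * ((|B| + 3) * ℓ) ^ 3 * (3 * E) *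
        Real.sqrt (x * Q)) * (I + 1)) := by
        gcongr
        linarith
    _ = _ := by
        rw [hρe]
        ring


end

end Pool.Agent.N782.T
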