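import Pool.Agent.N782.TE

set_option autoImplicit false

/-! Small moduli, twisted (helper782). -/

namespace Pool.Agent.N782.T

open Finset Filter Topology MeasureTheory
open Pool.Agent.H306R2.RZ (js osf sqf)
open H343 H343.KF
open Pool.Agent.Helper112 (betaV LamII divisor_bound)
open Pool.Agent.Helper112.TI (mu1 l1 mu1_apply l1_apply vaughan)
open Pool.Agent.H355R3.RZ4HE (mem_osf)
open Pool.Agent.H410R2 (psiLog)
open Pool.Agent.N782.Q (Pa ch ch_apply PP_triv PP_bV_zero PP_LU_zero bV_norm large2 pa_exists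
  PS_bound PS_M js_zero osf_ne)

noncomputable section

theorem PSm_ch (ψ : DirichletCharacter ℂ 8) {B : ℝ} {f : ℝ → ℝ} {x : ℝ} {M m : ℕ} (hm : m ≠ 0) :
    PSm f x M 1 (chp ψ m) = PS f x M (chp ψ m).primitiveCharacter -
      ∑ n ∈ (Icc 1 M).filter (fun n => ¬ n.Coprime (8 * m)), (ArithmeticFunction.vonMangoldt n : ℂ) *
        (chp ψ m).primitiveCharacter (n : ZMod (chp ψ m).conductor) * (f (Real.log (n / x)) : ℂ) := by
  have h5 := sum_filter_add_sum_filter_not (Icc 1 M) (fun n => n.Coprime (8 * m))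
    (fun n => (ArithmeticFunction.vonMangoldt n : ℂ) *
        (chp ψ m).primitiveCharacter (n : ZMod (chp ψ m).conductor) * (f (Real.log (n / x)) : ℂ))
  have h6 : PSm f x M 1 (chp ψ m) = ∑ n ∈ (Icc 1 M).filter (fun n => n.Coprime (8 * m)),
      (ArithmeticFunction.vonMangoldt n : ℂ) *
        (chp ψ m).primitiveCharacter (n : ZMod (chp ψ m).conductor) * (f (Real.log (n / x)) : ℂ) := by
    unfold PSm
    rw [filter_true_of_mem (fun n _ => Nat.coprime_one_right n), sum_filter]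
    refine sum_congr rfl fun n _ => ?_
    split_ifs with h
    · rw [prim_apply ψ hm h, chp_apply ψ hm]
    · rw [chp_zero ψ h]
      simp
  rw [h6]
  unfold PS
  rw [← h5]
  ring

/-- Siegel-Walfisz for Jacobi symbols -/
theorem swp (ψ : DirichletCharacter ℂ 8) {B : ℝ} {f : ℝ → ℝ} (hf : Test B f) (A E : ℕ) : ∃ x0 : ℝ, 1 ≤ x0 ∧ ∀ x : ℝ, x0 ≤ x →
    ∀ M : ℕ, Real.exp B * x ≤ M → ∀ D m : ℕ, m ∈ osf D → (1 < m ∨ ψ ≠ 1) → (m : ℝ) ≤ (Real.log x) ^ E →
    ‖PSm f x M 1 (chp ψ m)‖ ≤ x / (Real.log x) ^ A := by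
  obtain ⟨K, hK, hPS⟩ := PS_bound hf
  obtain ⟨C, hC, hnc⟩ := not_coprime hf
  obtain ⟨y0, hy0⟩ := H343E.sw (A + 1) (E + 1)
  set b : ℝ := |B| + 1 with hb
  have hb0 : 0 < b := by have := abs_nonneg B; rw [hb]; linarith
  have t1 : Tendsto (fun x : ℝ => Real.log x) atTop atTop := Real.tendsto_log_atTop
  have t2 : ∀ᶠ x : ℝ in atTop, 8 * (2 : ℝ) ^ (E + 1) ≤ Real.log x ∧ 2 * b ≤ Real.log x ∧
      2 * (K * Real.exp b * 2 ^ (A + 1)) ≤ Real.log x ∧ max y0 1 * Real.exp b ≤ x ∧ 2 ≤ x ∧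
      16 * C * (1 + Real.log x) ^ (A + E + 1) ≤ x := by
    obtain ⟨H0, h0, h1⟩ := large (16 * C) 1 (A + E + 1) one_pos
    filter_upwards [t1.eventually_ge_atTop (8 * (2 : ℝ) ^ (E + 1)), t1.eventually_ge_atTop (2 * b),
      t1.eventually_ge_atTop (2 * (K * Real.exp b * 2 ^ (A + 1))),
      eventually_ge_atTop (max y0 1 * Real.exp b), eventually_ge_atTop 2, eventually_ge_atTop H0]
      with x a1 a2 a3 a4 a5 a6
    have := h1 x a6
    rw [Real.rpow_one] at this
    exact ⟨a1, a2, a3, a4, a5, this⟩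
  obtain ⟨x0, hx0⟩ := eventually_atTop.1 t2
  refine ⟨max x0 1, le_max_right _ _, ?_⟩
  intro x hx M hM D m hm hm1 hmE
  obtain ⟨h1, h2, h3, h4, h5, h6⟩ := hx0 x ((le_max_left _ _).trans hx)
  have hx1 : 1 ≤ x := (le_max_right _ _).trans hx
  have hxp : 0 < x := by linarith
  set ℓ : ℝ := Real.log x with hℓ
  have hℓ0 : 0 < ℓ := by linarith
  have hℓ1 : 1 ≤ ℓ := by
    have : (1 : ℝ) ≤ 2 ^ (E + 1) := one_le_pow₀ (by norm_num)
    linarith
  obtain ⟨hc2, hcm⟩ := cond_ge ψ hm hm1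
  set M' : ℕ := max M ⌈Real.exp b * x⌉₊ with hM'
  have hM'1 : Real.exp b * x ≤ M' := by
    refine (Nat.le_ceil _).trans ?_
    exact_mod_cast le_max_right _ _
  rw [PS_M hf hxp hM (le_max_left M ⌈Real.exp b * x⌉₊) (chp ψ m), ← hM', PSm_ch ψ (B := B) (osf_ne hm)]
  have hA : ‖PS f x M' (chp ψ m).primitiveCharacter‖ ≤
      K * (x * Real.exp b * 2 ^ (A + 1) / ℓ ^ (A + 1)) := by
    apply hPS x _ M' (chp ψ m).conductor (chp ψ m).primitiveCharacter hxp hM'1
    intro u hu
    have hu2 := abs_le.1 hu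
    have heu : Real.exp u ≤ Real.exp b := Real.exp_le_exp.2 hu2.2
    have heu2 : Real.exp (-b) ≤ Real.exp u := Real.exp_le_exp.2 hu2.1
    have hxu : 0 < x * Real.exp u := by positivity
    have hy : max y0 1 ≤ x * Real.exp u := by
      have e1 : max y0 1 * Real.exp b * Real.exp (-b) ≤ x * Real.exp u := by
        apply mul_le_mul h4 heu2 (Real.exp_pos _).le hxp.le
      rwa [mul_assoc, ← Real.exp_add, add_neg_cancel, Real.exp_zero, mul_one] at e1
    have hlog : Real.log (x * Real.exp u) = ℓ + u := by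
      rw [Real.log_mul hxp.ne' (Real.exp_pos u).ne', Real.log_exp]
    have hlog2 : ℓ / 2 ≤ Real.log (x * Real.exp u) := by
      rw [hlog]
      linarith [hu2.1]
    have hq : ((chp ψ m).conductor : ℝ) ≤ (Real.log (x * Real.exp u)) ^ (E + 1) := by
      have e2 : ((chp ψ m).conductor : ℝ) ≤ 8 * m := by exact_mod_cast hcm
      refine e2.trans ?_
      calc 8 * (m : ℝ) ≤ 8 * ℓ ^ E := by gcongr
        _ = ℓ ^ E * 8 := mul_comm _ _
        _ ≤ ℓ ^ E * (ℓ / 2 ^ (E + 1)) := by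
            have : 8 ≤ ℓ / 2 ^ (E + 1) := by
              rw [le_div_iff₀ (by positivity)]
              linarith
            gcongr
        _ = (ℓ / 2) ^ (E + 1) := by
            rw [div_pow]; ring
        _ ≤ _ := by gcongr
    have h7 := hy0 (x * Real.exp u) ((le_max_left _ _).trans hy) (chp ψ m).conductor (by omega) hq
      (chp ψ m).primitiveCharacter (chp ψ m).primitiveCharacter_isPrimitive
    refine h7.trans ?_
    calc x * Real.exp u / Real.log (x * Real.exp u) ^ (A + 1)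
        ≤ x * Real.exp b / (ℓ / 2) ^ (A + 1) := by gcongr
      _ = _ := by rw [div_pow]; field_simp
  have hB : ‖∑ n ∈ (Icc 1 M').filter (fun n => ¬ n.Coprime (8 * m)),
      (ArithmeticFunction.vonMangoldt n : ℂ) *
        (chp ψ m).primitiveCharacter (n : ZMod (chp ψ m).conductor) * (f (Real.log (n / x)) : ℂ)‖ ≤
      C * (8 * ℓ ^ E) * ℓ := by
    have hm0 := osf_ne hm
    have h8 := hnc x (8 * m) M' h5 (by omega)
    calc _ ≤ ∑ n ∈ (Icc 1 M').filter (fun n => ¬ n.Coprime (8 * m)),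
          ArithmeticFunction.vonMangoldt n * |f (Real.log (n / x))| := by
          refine (norm_sum_le _ _).trans (sum_le_sum fun n _ => ?_)
          rw [norm_mul, norm_mul, Complex.norm_real, Complex.norm_real, Real.norm_eq_abs,
            Real.norm_eq_abs, abs_of_nonneg ArithmeticFunction.vonMangoldt_nonneg]
          have h9 := (chp ψ m).primitiveCharacter.norm_le_one (n : ZMod (chp ψ m).conductor)
          have h10 : 0 ≤ ArithmeticFunction.vonMangoldt n := ArithmeticFunction.vonMangoldt_nonneg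
          calc _ ≤ ArithmeticFunction.vonMangoldt n * 1 * |f (Real.log (n / x))| := by gcongr
            _ = _ := by ring
      _ ≤ _ := h8
      _ ≤ C * (8 * ℓ ^ E) * ℓ := by
          have : ((8 * m).divisors.card : ℝ) ≤ 8 * ℓ ^ E := by
            have h9 : ((8 * m).divisors.card : ℝ) ≤ ((8 * m : ℕ) : ℝ) := by
              exact_mod_cast Nat.card_divisors_le_self (8 * m)
            push_cast at h9
            linarith
          gcongr
  refine (norm_sub_le _ _).trans ((add_le_add hA hB).trans ?_)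
  have g1 : K * (x * Real.exp b * 2 ^ (A + 1) / ℓ ^ (A + 1)) ≤ (1 / 2) * (x / ℓ ^ A) := by
    have : K * (x * Real.exp b * 2 ^ (A + 1) / ℓ ^ (A + 1)) =
        (K * Real.exp b * 2 ^ (A + 1)) / ℓ * (x / ℓ ^ A) := by
      rw [pow_succ ℓ]
      field_simp
    rw [this]
    apply mul_le_mul_of_nonneg_right _ (by positivity)
    rw [div_le_iff₀ hℓ0]
    linarith
  have g2 : C * (8 * ℓ ^ E) * ℓ ≤ (1 / 2) * (x / ℓ ^ A) := by
    have e3 : 2 * (C * (8 * ℓ ^ E) * ℓ) * ℓ ^ A ≤ x := by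
      calc 2 * (C * (8 * ℓ ^ E) * ℓ) * ℓ ^ A = 16 * C * ℓ ^ (A + E + 1) := by ring
        _ ≤ 16 * C * (1 + ℓ) ^ (A + E + 1) := by
            gcongr
            linarith
        _ ≤ x := h6
    have e4 : 2 * (C * (8 * ℓ ^ E) * ℓ) ≤ x / ℓ ^ A := by
      rw [le_div_iff₀ (by positivity)]
      exact e3
    linarith
  linarith


end

end Pool.Agent.N782.T
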