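import Pool.Agent.N782.TF

set_option autoImplicit false

/-! Primes against twisted Jacobi symbols on average over moduli (helper782). -/

namespace Pool.Agent.N782.T

open Finset Filter Topology MeasureTheory
open Pool.Agent.H306R2.RZ (js osf sqf)
open H343 H343.KF
open Pool.Agent.Helper112 (betaV LamII divisor_bound)
open Pool.Agent.Helper112.TI (mu1 l1 mu1_apply l1_apply vaughan)
open Pool.Agent.H355R3.RZ4HE (mem_osf)
open Pool.Agent.H410R2 (psiLog)
open Pool.Agent.N782.Q (Pa ch ch_apply PP_triv PP_bV_zero PP_LU_zero bV_norm large2 pa_exists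
  PS_bound PS_M js_zero osf_ne)

noncomputable section

theorem tot (ψ : DirichletCharacter ℂ 8) {B : ℝ} {f : ℝ → ℝ} (hf : Test B f) (σ : ℝ) (hσ0 : 0 < σ) (hσ : σ < 1) (A : ℕ) :
    ∃ x0 : ℝ, 1 ≤ x0 ∧ ∀ x : ℝ, x0 ≤ x → ∀ M : ℕ, Real.exp B * x ≤ M → ∀ Z : ℕ, (Z : ℝ) ≤ x ^ σ →
      ∑ m ∈ (osf Z).filter (fun m => 1 < m),
        (m.divisors.card : ℝ) / Real.sqrt m * ‖PSm f x M 1 (chp ψ m)‖ ≤ x / (Real.log x) ^ A := by
  set c : ℝ := (1 - σ) / 160 with hc
  have hc0 : 0 < c := by rw [hc]; linarith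
  have hc1 : c ≤ 1 / 160 := by rw [hc]; linarith
  set E : ℕ := 4 * (A + 8) with hE
  obtain ⟨C1, hC1, hdiv⟩ := divisor_bound c hc0
  obtain ⟨C, x1, hC, hx1, hblk⟩ := blk ψ hf σ hσ0 hσ
  obtain ⟨x2, hx2, hsw⟩ := swp ψ hf (2 * E + A + 1) E
  set R : ℝ := 4 * C1 * C with hR
  have hR0 : 0 < R := by rw [hR]; positivity
  have t1 : Tendsto (fun x : ℝ => Real.log x) atTop atTop := Real.tendsto_log_atTop
  have t2 : ∀ᶠ x : ℝ in atTop, x1 ≤ x ∧ x2 ≤ x ∧ 2 ≤ Real.log x ∧ 512 * R ≤ Real.log x ∧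
      32 * R * (1 + Real.log x) ^ (A + 1) ≤ x ^ c := by
    obtain ⟨H0, h0, h1⟩ := large (32 * R) c (A + 1) hc0
    filter_upwards [eventually_ge_atTop x1, eventually_ge_atTop x2, t1.eventually_ge_atTop 2,
      t1.eventually_ge_atTop (512 * R), eventually_ge_atTop H0] with x a1 a2 a3 a4 a5
    exact ⟨a1, a2, a3, a4, h1 x a5⟩
  obtain ⟨x0, hx0⟩ := eventually_atTop.1 t2
  refine ⟨max x0 1, le_max_right _ _, ?_⟩
  intro x hx M hM Z hZ
  obtain ⟨g1, g2, g3, g4, g5⟩ := hx0 x ((le_max_left _ _).trans hx)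
  have hx1' : 1 ≤ x := (le_max_right _ _).trans hx
  have hxp : 0 < x := by linarith
  set ℓ : ℝ := Real.log x with hℓ
  have hℓ0 : 0 < ℓ := by linarith
  have hℓ1 : 1 ≤ ℓ := by linarith
  have hxσ : x ^ σ ≤ x := by
    calc x ^ σ ≤ x ^ (1 : ℝ) := Real.rpow_le_rpow_of_exponent_le hx1' hσ.le
      _ = x := Real.rpow_one x
  set g : ℕ → ℝ := fun m => (m.divisors.card : ℝ) / Real.sqrt m * ‖PSm f x M 1 (chp ψ m)‖ with hg
  have hg0 : ∀ m, 0 ≤ g m := fun m => by rw [hg]; positivity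
  set T : Finset ℕ := (osf Z).filter (fun m => 1 < m) with hT
  -- split
  have hsplit : ∑ m ∈ T, g m = ∑ m ∈ T.filter (fun m : ℕ => (m : ℝ) ≤ ℓ ^ E), g m +
      ∑ m ∈ T.filter (fun m : ℕ => ¬ (m : ℝ) ≤ ℓ ^ E), g m :=
    (sum_filter_add_sum_filter_not T _ _).symm
  have hS1 : ∑ m ∈ T.filter (fun m : ℕ => (m : ℝ) ≤ ℓ ^ E), g m ≤ (1 / 2) * (x / ℓ ^ A) := by
    have h1 : ∀ m ∈ T.filter (fun m : ℕ => (m : ℝ) ≤ ℓ ^ E), g m ≤ ℓ ^ E * (x / ℓ ^ (2 * E + A + 1)) := by
      intro m hm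
      rw [mem_filter, hT, mem_filter] at hm
      obtain ⟨⟨hm1, hm2⟩, hm3⟩ := hm
      have h2 := hsw x g2 M hM Z m hm1 (Or.inl hm2) hm3
      have h3 : (1 : ℝ) ≤ m := by exact_mod_cast hm2.le
      have h4 : (m.divisors.card : ℝ) / Real.sqrt m ≤ ℓ ^ E := by
        have h5 : 1 ≤ Real.sqrt m := by rw [Real.one_le_sqrt]; exact h3
        refine (div_le_self (by positivity) h5).trans (le_trans ?_ hm3)
        exact_mod_cast Nat.card_divisors_le_self m
      exact mul_le_mul h4 h2 (norm_nonneg _) (by positivity)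
    refine (sum_le_sum h1).trans ?_
    rw [sum_const, nsmul_eq_mul]
    have h5 : ((T.filter (fun m : ℕ => (m : ℝ) ≤ ℓ ^ E)).card : ℝ) ≤ ℓ ^ E := by
      have h6 : T.filter (fun m : ℕ => (m : ℝ) ≤ ℓ ^ E) ⊆ Icc 1 ⌊ℓ ^ E⌋₊ := by
        intro m hm
        rw [mem_filter, hT, mem_filter] at hm
        rw [mem_Icc]
        exact ⟨by omega, Nat.le_floor hm.2⟩
      have h7 := card_le_card h6
      rw [Nat.card_Icc] at h7
      have h8 : ((T.filter (fun m : ℕ => (m : ℝ) ≤ ℓ ^ E)).card : ℝ) ≤ (⌊ℓ ^ E⌋₊ : ℕ) := by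
        exact_mod_cast h7
      exact h8.trans (Nat.floor_le (by positivity))
    calc ((T.filter (fun m : ℕ => (m : ℝ) ≤ ℓ ^ E)).card : ℝ) * (ℓ ^ E * (x / ℓ ^ (2 * E + A + 1)))
        ≤ ℓ ^ E * (ℓ ^ E * (x / ℓ ^ (2 * E + A + 1))) := by gcongr
      _ = (1 / ℓ) * (x / ℓ ^ A) := by
          rw [pow_succ, pow_add, two_mul, pow_add]
          field_simp
      _ ≤ (1 / 2) * (x / ℓ ^ A) := by
          gcongr
  have hS2 : ∑ m ∈ T.filter (fun m : ℕ => ¬ (m : ℝ) ≤ ℓ ^ E), g m ≤ (1 / 2) * (x / ℓ ^ A) := by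
    set T2 : Finset ℕ := T.filter (fun m : ℕ => ¬ (m : ℝ) ≤ ℓ ^ E) with hT2
    have hmemT : ∀ m ∈ T2, m ∈ osf Z ∧ 1 < m ∧ ℓ ^ E < m := by
      intro m hm
      rw [hT2, mem_filter, hT, mem_filter] at hm
      exact ⟨hm.1.1, hm.1.2, not_le.1 hm.2⟩
    have hmap : ∀ m ∈ T2, Nat.log 2 m ∈ range (Nat.log 2 Z + 1) := by
      intro m hm
      obtain ⟨h1, h2, h3⟩ := hmemT m hm
      rw [mem_range]
      have := Nat.log_mono_right (b := 2) (mem_osf h1).2.1
      omega
    rw [← sum_fiberwise_of_maps_to hmap]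
    -- one fibre
    have hfib : ∀ i ∈ range (Nat.log 2 Z + 1), ∑ m ∈ T2.filter (fun m => Nat.log 2 m = i), g m ≤
        R * (x * (1 + ℓ) ^ 5 / ℓ ^ (A + 8) + 2 * (x / x ^ c)) := by
      intro i hi
      rcases (T2.filter (fun m => Nat.log 2 m = i)).eq_empty_or_nonempty with h0 | ⟨m0, hm0⟩
      · rw [h0, sum_empty]; positivity
      rw [mem_filter] at hm0
      obtain ⟨a1, a2, a3⟩ := hmemT m0 hm0.1
      set N : ℕ := 2 ^ (i + 1) with hN
      have hN1 : 1 ≤ N := by rw [hN]; exact Nat.one_le_two_pow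
      have hN1R : (1 : ℝ) ≤ N := by exact_mod_cast hN1
      have hN0 : (0 : ℝ) < N := by linarith
      have hm0N : m0 < N := by
        have := Nat.lt_pow_succ_log_self (b := 2) (by norm_num) m0
        rw [hm0.2] at this
        exact this
      have hiZ : 2 ^ i ≤ m0 := by
        have := Nat.pow_log_le_self 2 (by omega : m0 ≠ 0)
        rw [hm0.2] at this
        exact this
      have hm0Z : m0 ≤ Z := (mem_osf a1).2.1
      have hNZ : (N : ℝ) ≤ 2 * x ^ σ := by
        have h1 : N ≤ 2 * Z := by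
          rw [hN, pow_succ]
          omega
        have h2 : (N : ℝ) ≤ 2 * Z := by exact_mod_cast h1
        linarith
      have hNV : ℓ ^ E ≤ N := by
        have : (m0 : ℝ) ≤ N := by exact_mod_cast hm0N.le
        linarith
      have hb := hblk x g1 M hM N hN1 hNZ
      -- weights
      have hw : ∀ m ∈ T2.filter (fun m => Nat.log 2 m = i), g m ≤
          (2 * C1 * (N : ℝ) ^ c / Real.sqrt N) * ‖PSm f x M 1 (chp ψ m)‖ := by
        intro m hm
        rw [mem_filter] at hm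
        obtain ⟨b1, b2, b3⟩ := hmemT m hm.1
        have c1 : m < N := by
          have := Nat.lt_pow_succ_log_self (b := 2) (by norm_num) m
          rw [hm.2] at this
          exact this
        have c2 : 2 ^ i ≤ m := by
          have := Nat.pow_log_le_self 2 (by omega : m ≠ 0)
          rw [hm.2] at this
          exact this
        have c3 : (N : ℝ) ≤ 4 * m := by
          have : N ≤ 4 * m := by
            rw [hN, pow_succ]
            omega
          exact_mod_cast this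
        have hm0' : (0 : ℝ) < m := by
          have : (1 : ℝ) < m := by exact_mod_cast b2
          linarith
        simp only [hg]
        apply mul_le_mul_of_nonneg_right _ (norm_nonneg _)
        rw [div_le_div_iff₀ (Real.sqrt_pos.2 hm0') (Real.sqrt_pos.2 hN0)]
        have c4 : Real.sqrt N ≤ 2 * Real.sqrt m := by
          calc Real.sqrt N ≤ Real.sqrt (2 ^ 2 * m) := by
                apply Real.sqrt_le_sqrt
                linarith
            _ = 2 * Real.sqrt m := by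
                rw [Real.sqrt_mul (by norm_num), Real.sqrt_sq (by norm_num)]
        have c5 : (m.divisors.card : ℝ) ≤ C1 * (N : ℝ) ^ c := by
          refine (hdiv m (by omega)).trans ?_
          have : (m : ℝ) ≤ N := by exact_mod_cast c1.le
          gcongr
        calc (m.divisors.card : ℝ) * Real.sqrt N ≤ (C1 * (N : ℝ) ^ c) * (2 * Real.sqrt m) := by
              gcongr
          _ = _ := by ring
      have hsub : ∑ m ∈ T2.filter (fun m => Nat.log 2 m = i), ‖PSm f x M 1 (chp ψ m)‖ ≤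
          ∑ m ∈ (osf N).filter (fun m => 1 < m), ‖PSm f x M 1 (chp ψ m)‖ := by
        apply sum_le_sum_of_subset_of_nonneg
        · intro m hm
          rw [mem_filter] at hm
          obtain ⟨b1, b2, b3⟩ := hmemT m hm.1
          have c1 : m < N := by
            have := Nat.lt_pow_succ_log_self (b := 2) (by norm_num) m
            rw [hm.2] at this
            exact this
          obtain ⟨d1, d2, d3, d4⟩ := mem_osf b1
          rw [mem_filter]
          refine ⟨?_, b2⟩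
          unfold osf
          rw [mem_filter, mem_Icc]
          exact ⟨⟨d1, c1.le⟩, d3, d4⟩
        · intro _ _ _; positivity
      have hNc : (N : ℝ) ^ c ≤ 2 * x ^ c := by
        have hN2x : (N : ℝ) ≤ 2 * x := by linarith
        calc (N : ℝ) ^ c ≤ (2 * x) ^ c := by gcongr
          _ = 2 ^ c * x ^ c := by rw [Real.mul_rpow (by norm_num) hxp.le]
          _ ≤ 2 ^ (1 : ℝ) * x ^ c := by
              have := Real.rpow_le_rpow_of_exponent_le (x := 2) (by norm_num)
                (show c ≤ 1 by linarith)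
              gcongr
          _ = 2 * x ^ c := by rw [Real.rpow_one]
      have hNc2 : (N : ℝ) ^ c / Real.sqrt N ≤ 1 / ℓ ^ (A + 8) := by
        have e1 : (N : ℝ) ^ c * (N : ℝ) ^ (1 / 4 : ℝ) ≤ Real.sqrt N := by
          rw [Real.sqrt_eq_rpow, ← Real.rpow_add hN0]
          apply Real.rpow_le_rpow_of_exponent_le hN1R
          linarith
        have e2 : ℓ ^ (A + 8) ≤ (N : ℝ) ^ (1 / 4 : ℝ) := by
          calc ℓ ^ (A + 8) = (ℓ ^ E) ^ (1 / 4 : ℝ) := by
                rw [hE, mul_comm 4 (A + 8), pow_mul, ← Real.rpow_natCast (ℓ ^ (A + 8)) 4,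
                  ← Real.rpow_mul (by positivity)]
                norm_num
            _ ≤ _ := by gcongr
        rw [div_le_div_iff₀ (Real.sqrt_pos.2 hN0) (by positivity), one_mul]
        calc (N : ℝ) ^ c * ℓ ^ (A + 8) ≤ (N : ℝ) ^ c * (N : ℝ) ^ (1 / 4 : ℝ) := by gcongr
          _ ≤ _ := e1
      have hx80 : x ^ ((1 - σ) / 80) = x ^ c * x ^ c := by
        rw [← Real.rpow_add hxp]; congr 1; rw [hc]; ring
      have hxc0 : 0 < x ^ c := by positivity
      have hsN : 0 < Real.sqrt N := Real.sqrt_pos.2 hN0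
      calc ∑ m ∈ T2.filter (fun m => Nat.log 2 m = i), g m
          ≤ ∑ m ∈ T2.filter (fun m => Nat.log 2 m = i),
            (2 * C1 * (N : ℝ) ^ c / Real.sqrt N) * ‖PSm f x M 1 (chp ψ m)‖ := sum_le_sum hw
        _ = (2 * C1 * (N : ℝ) ^ c / Real.sqrt N) *
            ∑ m ∈ T2.filter (fun m => Nat.log 2 m = i), ‖PSm f x M 1 (chp ψ m)‖ := by rw [mul_sum]
        _ ≤ (2 * C1 * (N : ℝ) ^ c / Real.sqrt N) *
            (C * (x * (1 + ℓ) ^ 5 + Real.sqrt N * x / x ^ ((1 - σ) / 80))) := by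
            apply mul_le_mul_of_nonneg_left (hsub.trans hb) (by positivity)
        _ = 2 * C1 * C * (((N : ℝ) ^ c / Real.sqrt N) * (x * (1 + ℓ) ^ 5) +
            (N : ℝ) ^ c * (x / (x ^ c * x ^ c))) := by
            rw [hx80]
            field_simp
        _ ≤ 2 * C1 * C * ((1 / ℓ ^ (A + 8)) * (x * (1 + ℓ) ^ 5) +
            (2 * x ^ c) * (x / (x ^ c * x ^ c))) := by gcongr
        _ = 2 * C1 * C * (x * (1 + ℓ) ^ 5 / ℓ ^ (A + 8) + 2 * (x / x ^ c)) := by
            field_simp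
        _ ≤ R * (x * (1 + ℓ) ^ 5 / ℓ ^ (A + 8) + 2 * (x / x ^ c)) := by
            apply mul_le_mul_of_nonneg_right _ (by positivity)
            rw [hR]
            have : 0 < C1 * C := by positivity
            linarith
    refine (sum_le_sum hfib).trans ?_
    rw [sum_const, card_range, nsmul_eq_mul]
    have hI : ((Nat.log 2 Z + 1 : ℕ) : ℝ) ≤ 2 * (1 + ℓ) := by
      rcases Nat.eq_zero_or_pos Z with hZ0 | hZ0
      · rw [hZ0]; simp; linarith
      · have h1 : 2 ^ Nat.log 2 Z ≤ Z := Nat.pow_log_le_self 2 (by omega)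
        have h2 : (2 : ℝ) ^ Nat.log 2 Z ≤ Z := by exact_mod_cast h1
        have h3 : (2 : ℝ) ^ Nat.log 2 Z ≤ x := h2.trans (hZ.trans hxσ)
        have h4 : Real.log ((2 : ℝ) ^ Nat.log 2 Z) ≤ ℓ := Real.log_le_log (by positivity) h3
        rw [Real.log_pow] at h4
        have h5 := Real.log_two_gt_d9
        have h6 : (0 : ℝ) ≤ Nat.log 2 Z := Nat.cast_nonneg _
        push_cast
        nlinarith
    have h1ℓ : 1 + ℓ ≤ 2 * ℓ := by linarith
    have hxc0 : 0 < x ^ c := by positivity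
    calc ((Nat.log 2 Z + 1 : ℕ) : ℝ) * (R * (x * (1 + ℓ) ^ 5 / ℓ ^ (A + 8) + 2 * (x / x ^ c)))
        ≤ (2 * (1 + ℓ)) * (R * (x * (1 + ℓ) ^ 5 / ℓ ^ (A + 8) + 2 * (x / x ^ c))) := by gcongr
      _ = 2 * R * (1 + ℓ) ^ 6 * (x / ℓ ^ (A + 8)) + 4 * R * (1 + ℓ) * (x / x ^ c) := by ring
      _ ≤ 2 * R * (2 * ℓ) ^ 6 * (x / ℓ ^ (A + 8)) + (1 / 4) * (x / ℓ ^ A) := by
          have e1 : 4 * R * (1 + ℓ) * (x / x ^ c) ≤ (1 / 4) * (x / ℓ ^ A) := by
            have e2 : 16 * R * (1 + ℓ) * ℓ ^ A ≤ x ^ c := by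
              calc 16 * R * (1 + ℓ) * ℓ ^ A ≤ 32 * R * (1 + ℓ) * (1 + ℓ) ^ A := by
                    gcongr
                    · norm_num
                    · linarith
                _ = 32 * R * (1 + ℓ) ^ (A + 1) := by ring
                _ ≤ x ^ c := g5
            have e3 : 4 * R * (1 + ℓ) * (x / x ^ c) = (4 * R * (1 + ℓ) * x) / x ^ c := by ring
            have e4 : (1 / 4) * (x / ℓ ^ A) = ((1 / 4) * x) / ℓ ^ A := by ring
            rw [e3, e4, div_le_div_iff₀ hxc0 (by positivity)]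
            nlinarith
          have : 2 * R * (1 + ℓ) ^ 6 * (x / ℓ ^ (A + 8)) ≤ 2 * R * (2 * ℓ) ^ 6 * (x / ℓ ^ (A + 8)) := by
            gcongr
          linarith
      _ = (128 * R) / ℓ ^ 2 * (x / ℓ ^ A) + (1 / 4) * (x / ℓ ^ A) := by
          have : ℓ ^ (A + 8) = ℓ ^ A * ℓ ^ 6 * ℓ ^ 2 := by ring
          rw [this]
          field_simp
          ring
      _ ≤ (1 / 4) * (x / ℓ ^ A) + (1 / 4) * (x / ℓ ^ A) := by
          have : (128 * R) / ℓ ^ 2 ≤ 1 / 4 := by
            rw [div_le_iff₀ (by positivity)]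
            nlinarith
          have h9 : 0 ≤ x / ℓ ^ A := by positivity
          nlinarith
      _ = _ := by ring
  rw [hsplit]
  linarith


end

end Pool.Agent.N782.T
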