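import Pool.Agent.N782.TG
import Pool.Agent.N782.QH
import Pool.Agent.N782.RK

set_option autoImplicit false

/-! The average over primes, all families (helper782). -/

namespace Pool.Agent.N782.T

open Finset Filter Topology MeasureTheory
open Pool.Agent.H306R2.RZ (js osf sqf TF Ft cas)
open Pool.Agent.H306R2.RG (FD)
open H343 (Test PSm)
open Pool.Agent.N782.GI (TF_supp)
open Pool.Agent.N782.G2 (omp)
open Pool.Agent.N782.GA (EA)
open Pool.Agent.H355R3.RZ4HE (mem_osf)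
open Pool.Agent.H423R2.RZL.LS4n (dc dc_spec js_mulL abs_js_le)
open Pool.Agent.N782.Q (fl test_fl int_fl TF_bdd)

noncomputable section

/-- residue classes modulo 8 describing a family -/
structure Cl (φ : FD) (R : Finset (ZMod 8)) : Prop where
  hu : ∀ a ∈ R, IsUnit a
  hA : ∀ p : ℕ, p.Prime → p ≠ 2 → (φ.A p ↔ (p : ZMod 8) ∈ R)
  hδ : φ.δ = R.card / 8

/-- the indicator by characters -/
theorem ind_eq {R : Finset (ZMod 8)} (hu : ∀ a ∈ R, IsUnit a) (n : ℕ) :
    (((if (n : ZMod 8) ∈ R then (1 : ℝ) else 0) : ℝ) : ℂ) =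
      1 / 4 * ∑ a ∈ R, ∑ χ : DirichletCharacter ℂ 8, χ a⁻¹ * χ (n : ZMod 8) := by
  have h1 : ∀ a ∈ R, ∑ χ : DirichletCharacter ℂ 8, χ a⁻¹ * χ (n : ZMod 8) =
      if a = (n : ZMod 8) then 4 else 0 := by
    intro a ha
    rw [DirichletCharacter.sum_char_inv_mul_char_eq ℂ (hu a ha) (n : ZMod 8)]
    have : Nat.totient 8 = 4 := by decide
    rw [this]
    norm_num
  rw [sum_congr rfl h1, Finset.sum_ite_eq' R (n : ZMod 8) (fun _ => (4 : ℂ))]
  split_ifs <;> norm_num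

/-- the sum over primes against a character -/
def Sp (χ : DirichletCharacter ℂ 8) (M : ℕ) (h : ℕ → ℝ) : ℂ :=
  ∑ n ∈ (Icc 1 M).filter Nat.Prime, ((Real.log n * h n : ℝ) : ℂ) * χ (n : ZMod 8)

theorem Sp_dec {R : Finset (ZMod 8)} (hu : ∀ a ∈ R, IsUnit a) (M : ℕ) (h : ℕ → ℝ) :
    ((∑ n ∈ (Icc 1 M).filter Nat.Prime, Real.log n * h n *
      (if (n : ZMod 8) ∈ R then (1 : ℝ) else 0) : ℝ) : ℂ) =
      1 / 4 * ∑ a ∈ R, ∑ χ : DirichletCharacter ℂ 8, χ a⁻¹ * Sp χ M h := by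
  have h1 : ∀ n ∈ (Icc 1 M).filter Nat.Prime, ((Real.log n * h n *
      (if (n : ZMod 8) ∈ R then (1 : ℝ) else 0) : ℝ) : ℂ) =
      1 / 4 * ∑ a ∈ R, ∑ χ : DirichletCharacter ℂ 8, χ a⁻¹ *
        (((Real.log n * h n : ℝ) : ℂ) * χ (n : ZMod 8)) := by
    intro n _
    rw [Complex.ofReal_mul, ind_eq hu n, mul_left_comm, mul_sum]
    congr 1
    refine sum_congr rfl fun a _ => ?_
    rw [mul_sum]
    refine sum_congr rfl fun χ _ => ?_
    ring
  rw [Complex.ofReal_sum, sum_congr rfl h1, ← mul_sum]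
  congr 1
  rw [sum_comm]
  refine sum_congr rfl fun a _ => ?_
  rw [sum_comm]
  refine sum_congr rfl fun χ _ => ?_
  unfold Sp
  rw [mul_sum]

theorem Sp_bound {R : Finset (ZMod 8)} (hu : ∀ a ∈ R, IsUnit a) (M : ℕ) (h : ℕ → ℝ) :
    |∑ n ∈ (Icc 1 M).filter Nat.Prime, Real.log n * h n *
      (if (n : ZMod 8) ∈ R then (1 : ℝ) else 0)| ≤
      2 * ∑ χ : DirichletCharacter ℂ 8, ‖Sp χ M h‖ := by
  have h1 := congrArg norm (Sp_dec hu M h)
  rw [Complex.norm_real, Real.norm_eq_abs] at h1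
  rw [h1, norm_mul]
  have h2 : ‖(1 / 4 : ℂ)‖ = 1 / 4 := by norm_num
  rw [h2]
  have hS : 0 ≤ ∑ χ : DirichletCharacter ℂ 8, ‖Sp χ M h‖ := sum_nonneg fun _ _ => norm_nonneg _
  have h3 : ‖∑ a ∈ R, ∑ χ : DirichletCharacter ℂ 8, χ a⁻¹ * Sp χ M h‖ ≤
      R.card * ∑ χ : DirichletCharacter ℂ 8, ‖Sp χ M h‖ := by
    refine (norm_sum_le _ _).trans ?_
    rw [← nsmul_eq_mul, ← sum_const]
    refine sum_le_sum fun a _ => (norm_sum_le _ _).trans (sum_le_sum fun χ _ => ?_)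
    rw [norm_mul]
    exact mul_le_of_le_one_left (norm_nonneg _) (χ.norm_le_one _)
  have h4 : (R.card : ℝ) ≤ 8 := by
    have := card_le_univ R
    rw [ZMod.card] at this
    exact_mod_cast this
  calc 1 / 4 * ‖∑ a ∈ R, ∑ χ : DirichletCharacter ℂ 8, χ a⁻¹ * Sp χ M h‖
      ≤ 1 / 4 * (R.card * ∑ χ : DirichletCharacter ℂ 8, ‖Sp χ M h‖) := by gcongr
    _ ≤ 1 / 4 * (8 * ∑ χ : DirichletCharacter ℂ 8, ‖Sp χ M h‖) := by gcongr
    _ = _ := by ring

/-- the average over primes as a finite sum -/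
theorem EA_p {φ : FD} {R : Finset (ZMod 8)} (hR : Cl φ R) {s' : ℝ} (hs' : s' ≤ 1 / 4) {F : ℝ → ℝ}
    {B : ℝ} (hB : 0 < B) (hsupp : ∀ x, F x ≠ 0 → Real.exp (-B) ≤ x ∧ x ≤ Real.exp B) :
    ∃ L1 : ℝ, 1 ≤ L1 ∧ ∀ L : ℝ, L1 ≤ L → (∀ d : ℕ, F ((d : ℝ) / Real.exp L) ≠ 0 →
        Real.exp (3 / 4 * L) < d) ∧
      ∀ M : ℕ, Real.exp B * Real.exp L ≤ M → ∀ g : ℕ → ℝ,
        EA (omp φ s' F L) g = 1 / 2 / Real.exp L *
          ∑ n ∈ (Icc 1 M).filter Nat.Prime, Real.log n * (F ((n : ℝ) / Real.exp L) * g n) *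
            (if (n : ZMod 8) ∈ R then (1 : ℝ) else 0) := by
  refine ⟨4 * B + 4, by linarith, ?_⟩
  intro L hL
  have hX := Real.exp_pos L
  have hlow : ∀ d : ℕ, F ((d : ℝ) / Real.exp L) ≠ 0 → Real.exp (L - B) ≤ d := by
    intro d hd
    have h1 := (hsupp _ hd).1
    rw [le_div_iff₀ hX, ← Real.exp_add] at h1
    rwa [show L - B = -B + L by ring]
  have hlow2 : ∀ d : ℕ, F ((d : ℝ) / Real.exp L) ≠ 0 → Real.exp (3 / 4 * L) < d := by
    intro d hd
    refine lt_of_lt_of_le ?_ (hlow d hd)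
    rw [Real.exp_lt_exp]
    linarith
  refine ⟨hlow2, ?_⟩
  intro M hM g
  unfold EA
  rw [tsum_eq_sum (s := (Icc 1 M).filter Nat.Prime)]
  · rw [mul_sum]
    refine sum_congr rfl fun n hn => ?_
    rw [mem_filter, mem_Icc] at hn
    unfold omp
    by_cases h0 : F ((n : ℝ) / Real.exp L) = 0
    · rw [h0]
      simp
    · have h1 := hlow2 n h0
      have hn0 : (0 : ℝ) < n := by exact_mod_cast hn.1.1
      have hlog : 3 / 4 * L < Real.log n := by
        rwa [Real.lt_log_iff_exp_lt hn0]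
      have hn2 : 2 < n := by
        have : (2 : ℝ) < n := by
          refine lt_of_le_of_lt ?_ h1
          have := Real.add_one_le_exp (3 / 4 * L)
          linarith
        exact_mod_cast this
      have hsl : s' * L < Real.log n := by
        have : s' * L ≤ 1 / 4 * L := mul_le_mul_of_nonneg_right hs' (by linarith)
        linarith
      have hA := hR.hA n hn.2 (by omega)
      by_cases h5 : (n : ZMod 8) ∈ R
      · rw [if_pos ⟨hA.2 h5, hn.2, by linarith, hsl⟩, if_pos h5]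
        field_simp
      · rw [if_neg (fun h => h5 (hA.1 h.1)), if_neg h5]
        simp
  · intro d hd
    unfold omp
    split_ifs with h
    · have h0 : F ((d : ℝ) / Real.exp L) = 0 := by
        by_contra hne
        apply hd
        rw [mem_filter, mem_Icc]
        refine ⟨⟨h.2.1.one_le, ?_⟩, h.2.1⟩
        have h2 := (hsupp _ hne).2
        rw [div_le_iff₀ hX] at h2
        have h3 : (d : ℝ) ≤ M := h2.trans hM
        exact_mod_cast h3
      rw [h0]
      simp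
    · simp

/-- prime powers -/
theorem prime_powers (M : ℕ) (hM : 1 ≤ M) (h : ℕ → ℂ) (H : ℝ) (hH : ∀ n, ‖h n‖ ≤ H) :
    ‖∑ n ∈ Icc 1 M, (ArithmeticFunction.vonMangoldt n : ℂ) * h n -
      ∑ n ∈ (Icc 1 M).filter Nat.Prime, (Real.log n : ℂ) * h n‖ ≤
      H * (2 * Real.sqrt M * Real.log M) := by
  have hH0 : 0 ≤ H := (norm_nonneg _).trans (hH 0)
  have hMR : (1 : ℝ) ≤ M := by exact_mod_cast hM
  have h1 := sum_filter_add_sum_filter_not (Icc 1 M) Nat.Prime
    (fun n => (ArithmeticFunction.vonMangoldt n : ℂ) * h n)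
  have h2 : ∑ n ∈ (Icc 1 M).filter Nat.Prime, (ArithmeticFunction.vonMangoldt n : ℂ) * h n =
      ∑ n ∈ (Icc 1 M).filter Nat.Prime, (Real.log n : ℂ) * h n := by
    refine sum_congr rfl fun n hn => ?_
    rw [mem_filter] at hn
    rw [ArithmeticFunction.vonMangoldt_apply_prime hn.2]
  have h3 : ∑ n ∈ (Icc 1 M).filter (fun n => ¬ n.Prime), ArithmeticFunction.vonMangoldt n =
      Chebyshev.psi M - Chebyshev.theta M := by
    have h4 := sum_filter_add_sum_filter_not (Icc 1 M) Nat.Prime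
      (fun n => ArithmeticFunction.vonMangoldt n)
    have h5 : ∑ n ∈ (Icc 1 M).filter Nat.Prime, ArithmeticFunction.vonMangoldt n =
        Chebyshev.theta M := by
      unfold Chebyshev.theta
      rw [Nat.floor_natCast]
      refine sum_congr rfl fun n hn => ?_
      rw [mem_filter] at hn
      rw [ArithmeticFunction.vonMangoldt_apply_prime hn.2]
    have h6 : ∑ n ∈ Icc 1 M, ArithmeticFunction.vonMangoldt n = Chebyshev.psi M := by
      unfold Chebyshev.psi
      rw [Nat.floor_natCast]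
      rfl
    linarith
  have h7 := Chebyshev.abs_psi_sub_theta_le_sqrt_mul_log hMR
  have h8 : ∑ n ∈ Icc 1 M, (ArithmeticFunction.vonMangoldt n : ℂ) * h n -
      ∑ n ∈ (Icc 1 M).filter Nat.Prime, (Real.log n : ℂ) * h n =
      ∑ n ∈ (Icc 1 M).filter (fun n => ¬ n.Prime), (ArithmeticFunction.vonMangoldt n : ℂ) * h n := by
    rw [← h1, h2]
    ring
  rw [h8]
  calc ‖∑ n ∈ (Icc 1 M).filter (fun n => ¬ n.Prime), (ArithmeticFunction.vonMangoldt n : ℂ) * h n‖
      ≤ ∑ n ∈ (Icc 1 M).filter (fun n => ¬ n.Prime), H * ArithmeticFunction.vonMangoldt n := by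
        refine (norm_sum_le _ _).trans (sum_le_sum fun n _ => ?_)
        rw [norm_mul, Complex.norm_real, Real.norm_eq_abs,
          abs_of_nonneg ArithmeticFunction.vonMangoldt_nonneg, mul_comm]
        exact mul_le_mul_of_nonneg_right (hH n) ArithmeticFunction.vonMangoldt_nonneg
    _ = H * (Chebyshev.psi M - Chebyshev.theta M) := by rw [← mul_sum, h3]
    _ ≤ H * (2 * Real.sqrt M * Real.log M) :=
        mul_le_mul_of_nonneg_left ((le_abs_self _).trans h7) hH0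

/-- the sum over primes and the smooth sum -/
theorem Sp_PS (χ : DirichletCharacter ℂ 8) {F : ℝ → ℝ} {H : ℝ} (hFH : ∀ x, |F x| ≤ H) {x : ℝ}
    (hx : 0 < x) (M : ℕ) (hM : 1 ≤ M) {m : ℕ} (hm : m ≠ 0) :
    ‖Sp χ M (fun n => F ((n : ℝ) / x) * js n m)‖ ≤ ‖PSm (fl F) x M 1 (chp χ m)‖ +
      H * (2 * Real.sqrt M * Real.log M) := by
  have hH0 : 0 ≤ H := (abs_nonneg _).trans (hFH 0)
  set h : ℕ → ℂ := fun n => χ (n : ZMod 8) * (js n m : ℂ) * (fl F (Real.log (n / x)) : ℂ) with hh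
  have e1 : PSm (fl F) x M 1 (chp χ m) = ∑ n ∈ Icc 1 M, (ArithmeticFunction.vonMangoldt n : ℂ) *
      h n := by
    unfold PSm
    rw [filter_true_of_mem (fun n _ => Nat.coprime_one_right n)]
    refine sum_congr rfl fun n _ => ?_
    rw [chp_apply χ hm]
    simp only [hh]
    ring
  have e2 : Sp χ M (fun n => F ((n : ℝ) / x) * js n m) =
      ∑ n ∈ (Icc 1 M).filter Nat.Prime, (Real.log n : ℂ) * h n := by
    unfold Sp
    refine sum_congr rfl fun n hn => ?_
    rw [mem_filter, mem_Icc] at hn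
    have hn0 : (0 : ℝ) < n := by exact_mod_cast hn.1.1
    simp only [hh]
    unfold fl
    rw [Real.exp_log (by positivity)]
    push_cast
    ring
  have hH : ∀ n, ‖h n‖ ≤ H := by
    intro n
    simp only [hh]
    rw [norm_mul, norm_mul, Complex.norm_real, Complex.norm_real, Real.norm_eq_abs,
      Real.norm_eq_abs]
    have h1 := χ.norm_le_one (n : ZMod 8)
    have h2 := abs_js_le (n : ℤ) m
    have h3 : |fl F (Real.log (n / x))| ≤ H := hFH _
    calc ‖χ (n : ZMod 8)‖ * |js n m| * |fl F (Real.log (n / x))| ≤ 1 * 1 * H := by gcongr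
      _ = H := by ring
  have h3 := prime_powers M hM h H hH
  rw [← e1, ← e2] at h3
  set S1 := Sp χ M (fun n => F ((n : ℝ) / x) * js n m)
  set S2 := PSm (fl F) x M 1 (chp χ m)
  have h4 : S1 = S2 - (S2 - S1) := by ring
  rw [h4]
  exact (norm_sub_le _ _).trans (by linarith)

end

end Pool.Agent.N782.T
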