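import Pool.Agent.N782.TH

set_option autoImplicit false

/-! The total mass of the average over primes, all families (helper782). -/

namespace Pool.Agent.N782.T

open Finset Filter Topology MeasureTheory
open Pool.Agent.H306R2.RZ (js osf sqf TF Ft cas)
open Pool.Agent.H306R2.RG (FD F8)
open H343 (Test PSm)
open Pool.Agent.N782.GI (TF_supp)
open Pool.Agent.N782.G2 (omp)
open Pool.Agent.N782.GA (EA)
open Pool.Agent.H355R3.RZ4HE (mem_osf)
open Pool.Agent.H423R2.RZL.LS4n (dc dc_spec js_mulL abs_js_le)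
open Pool.Agent.N782.Q (fl test_fl int_fl TF_bdd)

noncomputable section

theorem err_lim (H B : ℝ) : Tendsto (fun L : ℝ => H * (2 * Real.sqrt (2 * Real.exp B * Real.exp L) *
      Real.log (2 * Real.exp B * Real.exp L)) / Real.exp L) atTop (𝓝 0) := by
  have e1 : ∀ L : ℝ, H * (2 * Real.sqrt (2 * Real.exp B * Real.exp L) *
      Real.log (2 * Real.exp B * Real.exp L)) / Real.exp L =
      (H * 2 * Real.sqrt (2 * Real.exp B)) * ((Real.log (2 * Real.exp B) + L) *
        Real.exp (-(1 / 2) * L)) := by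
    intro L
    have h2 : Real.sqrt (2 * Real.exp B * Real.exp L) = Real.sqrt (2 * Real.exp B) *
        Real.exp (1 / 2 * L) := by
      rw [Real.sqrt_mul (by positivity)]
      congr 1
      rw [Real.sqrt_eq_iff_mul_self_eq (by positivity) (by positivity), ← Real.exp_add]
      congr 1; ring
    have h3 : Real.log (2 * Real.exp B * Real.exp L) = Real.log (2 * Real.exp B) + L := by
      rw [Real.log_mul (by positivity) (by positivity), Real.log_exp]
    rw [h2, h3]
    have h4 : Real.exp L = Real.exp (1 / 2 * L) * Real.exp (1 / 2 * L) := by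
      rw [← Real.exp_add]; congr 1; ring
    have h5 : Real.exp (-(1 / 2) * L) = 1 / Real.exp (1 / 2 * L) := by
      rw [eq_div_iff (Real.exp_pos _).ne', ← Real.exp_add,
        show -(1 / 2) * L + 1 / 2 * L = (0 : ℝ) by ring, Real.exp_zero]
    rw [h4, h5]
    field_simp
  have h6 : Tendsto (fun L : ℝ => (Real.log (2 * Real.exp B) + L) * Real.exp (-(1 / 2) * L))
      atTop (𝓝 0) := by
    have a1 : Tendsto (fun L : ℝ => Real.exp (-(1 / 2) * L)) atTop (𝓝 0) := by
      have := Real.tendsto_exp_neg_atTop_nhds_zero.comp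
        (tendsto_id.const_mul_atTop (show (0 : ℝ) < 1 / 2 by norm_num))
      refine this.congr fun L => ?_
      simp only [Function.comp, id]
      congr 1; ring
    have a2 : Tendsto (fun L : ℝ => L * Real.exp (-(1 / 2) * L)) atTop (𝓝 0) := by
      have h7 := Real.tendsto_pow_mul_exp_neg_atTop_nhds_zero 1
      have h8 := (h7.comp (tendsto_id.const_mul_atTop (show (0 : ℝ) < 1 / 2 by norm_num))).const_mul 2
      rw [mul_zero] at h8
      refine h8.congr fun L => ?_
      simp only [Function.comp, id, pow_one]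
      have : -(1 / 2 * L) = -(1 / 2) * L := by ring
      rw [this]
      ring
    have a3 := (a1.const_mul (Real.log (2 * Real.exp B))).add a2
    rw [mul_zero, add_zero] at a3
    refine a3.congr fun L => ?_
    ring
  have h7 := h6.const_mul (H * 2 * Real.sqrt (2 * Real.exp B))
  rw [mul_zero] at h7
  exact h7.congr fun L => (e1 L).symm

/-- the range of summation -/
def Mf (B L : ℝ) : ℕ := ⌈Real.exp B * Real.exp L⌉₊

theorem Mf_ge (B L : ℝ) : Real.exp B * Real.exp L ≤ Mf B L := Nat.le_ceil _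

theorem Mf_le {B L : ℝ} (hB : 0 < B) (hL : 0 ≤ L) :
    1 ≤ Mf B L ∧ (Mf B L : ℝ) ≤ 2 * Real.exp B * Real.exp L := by
  have hBX : 1 ≤ Real.exp B * Real.exp L := by
    rw [← Real.exp_add]
    exact Real.one_le_exp (by linarith)
  have h1 : (1 : ℝ) ≤ Mf B L := hBX.trans (Mf_ge B L)
  refine ⟨by exact_mod_cast h1, ?_⟩
  have := Nat.ceil_lt_add_one (a := Real.exp B * Real.exp L) (by positivity)
  unfold Mf
  linarith

theorem errM_le {B L H : ℝ} (hB : 0 < B) (hL : 0 ≤ L) (hH : 0 ≤ H) :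
    H * (2 * Real.sqrt (Mf B L) * Real.log (Mf B L)) ≤
      H * (2 * Real.sqrt (2 * Real.exp B * Real.exp L) * Real.log (2 * Real.exp B * Real.exp L)) := by
  obtain ⟨h1, h2⟩ := Mf_le hB hL
  have h1' : (1 : ℝ) ≤ Mf B L := by exact_mod_cast h1
  have b1 : Real.sqrt (Mf B L) ≤ Real.sqrt (2 * Real.exp B * Real.exp L) := Real.sqrt_le_sqrt h2
  have b2 : Real.log (Mf B L) ≤ Real.log (2 * Real.exp B * Real.exp L) :=
    Real.log_le_log (by linarith) h2
  have b3 : 0 ≤ Real.log (Mf B L) := Real.log_nonneg h1'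
  gcongr

theorem js_one (k : ℤ) : js k 1 = 1 := by
  unfold js
  simp

/-- a nontrivial character -/
theorem Sp_small (χ : DirichletCharacter ℂ 8) (hχ : χ ≠ 1) {F : ℝ → ℝ} {B : ℝ} (hB : 0 < B)
    (hT : Test B (fl F)) {H : ℝ} (hH : 0 < H) (hFH : ∀ x, |F x| ≤ H) :
    Tendsto (fun L : ℝ => ‖Sp χ (Mf B L) (fun n => F ((n : ℝ) / Real.exp L) * js n 1)‖ /
      Real.exp L) atTop (𝓝 0) := by
  obtain ⟨x0, hx0, hsw⟩ := swp χ hT 1 0
  have hlim : Tendsto (fun L : ℝ => 1 / L + H * (2 * Real.sqrt (2 * Real.exp B * Real.exp L) *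
      Real.log (2 * Real.exp B * Real.exp L)) / Real.exp L) atTop (𝓝 0) := by
    have h1 := (tendsto_const_nhds (x := (1 : ℝ))).div_atTop (tendsto_id (α := ℝ) (x := atTop))
    have h2 := h1.add (err_lim H B)
    rw [add_zero] at h2
    exact h2
  refine squeeze_zero' (Eventually.of_forall fun L => by positivity) ?_ hlim
  filter_upwards [eventually_ge_atTop (max x0 1)] with L hL
  have hL0 : x0 ≤ L := (le_max_left _ _).trans hL
  have hL1 : 1 ≤ L := (le_max_right _ _).trans hL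
  have hX := Real.exp_pos L
  have hLX : L ≤ Real.exp L := by linarith [Real.add_one_le_exp L]
  obtain ⟨m1, m2⟩ := Mf_le hB (by linarith : 0 ≤ L)
  have h1 := Sp_PS χ hFH hX (Mf B L) m1 (m := 1) one_ne_zero
  have h2 := hsw (Real.exp L) (hL0.trans hLX) (Mf B L) (Mf_ge B L) 1 1 (by
    unfold osf
    rw [mem_filter, mem_Icc]
    exact ⟨⟨le_rfl, le_rfl⟩, odd_one, squarefree_one⟩) (Or.inr hχ) (by simp)
  rw [Real.log_exp, pow_one] at h2
  have h3 := errM_le hB (by linarith : 0 ≤ L) hH.le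
  rw [div_le_iff₀ hX]
  have h4 : (1 / L + H * (2 * Real.sqrt (2 * Real.exp B * Real.exp L) *
      Real.log (2 * Real.exp B * Real.exp L)) / Real.exp L) * Real.exp L =
      Real.exp L / L + H * (2 * Real.sqrt (2 * Real.exp B * Real.exp L) *
      Real.log (2 * Real.exp B * Real.exp L)) := by
    field_simp
  rw [h4]
  linarith

/-- the total mass of the prime average -/
theorem one_p {φ : FD} {R : Finset (ZMod 8)} (hR : Cl φ R) {s' : ℝ} (hs' : s' ≤ 1 / 4) {F : ℝ → ℝ}
    (hF : TF F) : Tendsto (fun L : ℝ => EA (omp φ s' F L) (fun _ => 1)) atTop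
      (𝓝 (φ.δ * Ft F 0)) := by
  obtain ⟨B, hB, hT, hsupp⟩ := test_fl hF
  obtain ⟨H, hH, hFH⟩ := TF_bdd hF
  obtain ⟨L1, hL1, hEA⟩ := EA_p hR hs' hB hsupp
  obtain ⟨L2, hL2, hEA8⟩ := Pool.Agent.N782.Q.EA_p 1 hs' hB hsupp
  have h8 := Pool.Agent.N782.Q.one_p 1 hs' hF
  -- the limit in `ℂ`
  set S : ℝ → DirichletCharacter ℂ 8 → ℂ := fun L χ =>
    Sp χ (Mf B L) (fun n => F ((n : ℝ) / Real.exp L) * js n 1) with hS
  have hterm : ∀ a ∈ R, ∀ χ : DirichletCharacter ℂ 8,
      Tendsto (fun L : ℝ => (1 / 2 / Real.exp L : ℂ) * (χ a⁻¹ * S L χ)) atTop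
        (𝓝 (if χ = 1 then ((1 / 2 * Ft F 0 : ℝ) : ℂ) else 0)) := by
    intro a ha χ
    by_cases hχ : χ = 1
    · rw [if_pos hχ]
      have h1 : Tendsto (fun L : ℝ => ((EA (Pool.Agent.N782.GI.omp 1 s' F L) (fun _ => 1) : ℝ) : ℂ))
          atTop (𝓝 ((1 / 2 * Ft F 0 : ℝ) : ℂ)) :=
        (Complex.continuous_ofReal.tendsto _).comp h8
      refine h1.congr' ?_
      filter_upwards [eventually_ge_atTop (max L1 L2)] with L hL
      have hLL1 : L1 ≤ L := (le_max_left _ _).trans hL
      have hLL2 : L2 ≤ L := (le_max_right _ _).trans hL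
      have hL' : 1 ≤ L := hL1.trans hLL1
      rw [(hEA8 L hLL2).2 (Mf B L) (Mf_ge B L)]
      have hua : IsUnit a⁻¹ := by
        obtain ⟨u, hu⟩ := hR.hu a ha
        rw [← hu, ZMod.inv_coe_unit]
        exact (u⁻¹).isUnit
      rw [hχ, MulChar.one_apply hua, one_mul]
      simp only [hS]
      unfold Sp
      push_cast
      congr 1
      refine sum_congr rfl fun n hn => ?_
      rw [mem_filter, mem_Icc] at hn
      by_cases h0 : F ((n : ℝ) / Real.exp L) = 0
      · rw [h0]; simp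
      · have h2 := (hEA L hLL1).1 n h0
        have hn2 : n ≠ 2 := by
          rintro rfl
          have h3 : Real.exp (3 / 4 * L) < 2 := by exact_mod_cast h2
          have h4 : 3 / 4 * L < Real.log 2 := by
            rwa [Real.lt_log_iff_exp_lt (by norm_num)]
          have := Real.log_two_lt_d9
          linarith
        have hodd := hn.2.odd_of_ne_two hn2
        have hu : IsUnit ((n : ℕ) : ZMod 8) := by
          rw [ZMod.isUnit_iff_coprime]
          exact (Nat.Coprime.pow_left 3 ((Nat.coprime_two_left).2 hodd)).symm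
        rw [MulChar.one_apply hu, js_one]
        push_cast
        ring
    · rw [if_neg hχ]
      have h1 := Sp_small χ hχ hB hT hH hFH
      rw [tendsto_zero_iff_norm_tendsto_zero]
      refine squeeze_zero (fun L => norm_nonneg _) (fun L => ?_) h1
      rw [norm_mul, norm_mul, norm_div, norm_div]
      have hX := Real.exp_pos L
      have h2 : ‖(1 : ℂ)‖ / ‖(2 : ℂ)‖ / ‖((Real.exp L : ℝ) : ℂ)‖ = 1 / 2 / Real.exp L := by
        rw [Complex.norm_real, Real.norm_of_nonneg hX.le]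
        norm_num
      have h3 := χ.norm_le_one a⁻¹
      rw [h2]
      calc 1 / 2 / Real.exp L * (‖χ a⁻¹‖ * ‖S L χ‖) ≤ 1 / 1 / Real.exp L * (1 * ‖S L χ‖) := by
            gcongr
            norm_num
        _ = ‖S L χ‖ / Real.exp L := by field_simp
  have hsum : Tendsto (fun L : ℝ => (1 / 4 : ℂ) * ∑ a ∈ R, ∑ χ : DirichletCharacter ℂ 8,
      (1 / 2 / Real.exp L : ℂ) * (χ a⁻¹ * S L χ)) atTop
      (𝓝 ((1 / 4 : ℂ) * ∑ _a ∈ R, ∑ χ : DirichletCharacter ℂ 8,
        if χ = 1 then ((1 / 2 * Ft F 0 : ℝ) : ℂ) else 0)) := by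
    apply Tendsto.const_mul
    exact tendsto_finset_sum _ fun a ha => tendsto_finset_sum _ fun χ _ => hterm a ha χ
  have hval : (1 / 4 : ℂ) * ∑ _a ∈ R, ∑ χ : DirichletCharacter ℂ 8,
        (if χ = 1 then ((1 / 2 * Ft F 0 : ℝ) : ℂ) else 0) = ((φ.δ * Ft F 0 : ℝ) : ℂ) := by
    rw [Finset.sum_ite_eq' Finset.univ (1 : DirichletCharacter ℂ 8), if_pos (mem_univ _), sum_const,
      hR.hδ, nsmul_eq_mul]
    push_cast
    ring
  rw [hval] at hsum
  have hT2 : Tendsto (fun L : ℝ => ((EA (omp φ s' F L) (fun _ => 1) : ℝ) : ℂ)) atTop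
      (𝓝 ((φ.δ * Ft F 0 : ℝ) : ℂ)) := by
    refine hsum.congr' ?_
    filter_upwards [eventually_ge_atTop L1] with L hL
    rw [(hEA L hL).2 (Mf B L) (Mf_ge B L), Complex.ofReal_mul]
    have h1 := Sp_dec hR.hu (Mf B L) (fun n => F ((n : ℝ) / Real.exp L) * js n 1)
    have h2 : ∑ n ∈ (Icc 1 (Mf B L)).filter Nat.Prime,
        Real.log n * (F ((n : ℝ) / Real.exp L) * (fun _ : ℕ => (1 : ℝ)) n) *
          (if (n : ZMod 8) ∈ R then (1 : ℝ) else 0) =
        ∑ n ∈ (Icc 1 (Mf B L)).filter Nat.Prime,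
        Real.log n * (F ((n : ℝ) / Real.exp L) * js n 1) *
          (if (n : ZMod 8) ∈ R then (1 : ℝ) else 0) := by
      refine sum_congr rfl fun n _ => ?_
      rw [js_one]
    rw [h2, h1]
    simp only [← mul_sum]
    push_cast
    ring
  have := (Complex.continuous_re.tendsto _).comp hT2
  simpa [Function.comp_def] using this

end

end Pool.Agent.N782.T
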