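import Pool.Agent.N782.TI
import Pool.Agent.N782.QK

set_option autoImplicit false

/-! The first moment over primes, all families (helper782). -/

namespace Pool.Agent.N782.T

open Finset Filter Topology MeasureTheory
open Pool.Agent.H306R2.RZ (js osf sqf TF Ft cas Wt mn)
open Pool.Agent.H306R2.RG (FD Ndg Mdg)
open H343 (Test PSm)
open Pool.Agent.N782.GI (TF_supp)
open Pool.Agent.N782.G2 (omp gw_p)
open Pool.Agent.N782.GA (EA EA_congr EA_sum AdmV M1)
open Pool.Agent.H355R3.RZ4HE (mem_osf)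
open Pool.Agent.H423R2.RZL.LS4n (dc dc_spec js_mulL abs_js_le)
open Pool.Agent.N782.Q (fl test_fl int_fl TF_bdd sum_card_sqrt dc_one sum_prod_le sum_kern_le sq_part)
open Pool.Agent.N782.QI (tp main_limP)
open Pool.Agent.H423R2.RZL.LIM1n (wt_mono wt_bdd wt_supp odd_of_coprime floor_exp_le cf)
open Pool.Agent.H884R2.RG (prodg_eq kf_abs)

noncomputable section

/-- the average over primes of a Jacobi symbol -/
def Em (φ : FD) (s' : ℝ) (F : ℝ → ℝ) (L : ℝ) (m : ℕ) : ℝ :=
  EA (omp φ s' F L) (fun d => js (φ.e * (d : ℤ)) m)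

theorem Em_le {φ : FD} {R : Finset (ZMod 8)} (hR : Cl φ R) {s' : ℝ} (hs' : s' ≤ 1 / 4) {F : ℝ → ℝ}
    {B H : ℝ} (hB : 0 < B)
    (hsupp : ∀ x, F x ≠ 0 → Real.exp (-B) ≤ x ∧ x ≤ Real.exp B) (hFH : ∀ x, |F x| ≤ H) :
    ∃ L1 : ℝ, 1 ≤ L1 ∧ ∀ L : ℝ, L1 ≤ L → ∀ M : ℕ, Real.exp B * Real.exp L ≤ M → ∀ m : ℕ, m ≠ 0 →
      |Em φ s' F L m| ≤ ∑ χ : DirichletCharacter ℂ 8, 1 / Real.exp L *
        (‖PSm (fl F) (Real.exp L) M 1 (chp χ m)‖ + H * (2 * Real.sqrt M * Real.log M)) := by
  obtain ⟨L1, hL1, hEA⟩ := EA_p hR hs' hB hsupp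
  refine ⟨L1, hL1, ?_⟩
  intro L hL M hM m hm
  obtain ⟨-, hEAL⟩ := hEA L hL
  have hX := Real.exp_pos L
  have hBX : 1 ≤ Real.exp B * Real.exp L := by
    rw [← Real.exp_add]
    exact Real.one_le_exp (by linarith)
  have hM1n : 1 ≤ M := by exact_mod_cast hBX.trans hM
  unfold Em
  rw [hEAL M hM]
  have e1 : ∑ n ∈ (Icc 1 M).filter Nat.Prime, Real.log n * (F ((n : ℝ) / Real.exp L) *
      js (φ.e * (n : ℤ)) m) * (if (n : ZMod 8) ∈ R then (1 : ℝ) else 0) =
      js φ.e m * ∑ n ∈ (Icc 1 M).filter Nat.Prime,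
        Real.log n * (F ((n : ℝ) / Real.exp L) * js n m) *
          (if (n : ZMod 8) ∈ R then (1 : ℝ) else 0) := by
    rw [mul_sum]
    refine sum_congr rfl fun n hn => ?_
    rw [js_mulL]
    ring
  rw [e1, abs_mul, abs_mul, abs_of_pos (by positivity)]
  have h2 := Sp_bound hR.hu M (fun n => F ((n : ℝ) / Real.exp L) * js n m)
  have h3 : ∑ χ : DirichletCharacter ℂ 8, ‖Sp χ M (fun n => F ((n : ℝ) / Real.exp L) * js n m)‖ ≤
      ∑ χ : DirichletCharacter ℂ 8, (‖PSm (fl F) (Real.exp L) M 1 (chp χ m)‖ +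
        H * (2 * Real.sqrt M * Real.log M)) :=
    sum_le_sum fun χ _ => Sp_PS χ hFH hX M hM1n hm
  have h5 := abs_js_le φ.e m
  set S1 := ∑ n ∈ (Icc 1 M).filter Nat.Prime,
        Real.log n * (F ((n : ℝ) / Real.exp L) * js n m) *
          (if (n : ZMod 8) ∈ R then (1 : ℝ) else 0) with hS1
  have h6 : |js φ.e m| * |S1| ≤ 1 * |S1| :=
    mul_le_mul_of_nonneg_right h5 (abs_nonneg _)
  rw [← mul_sum]
  calc 1 / 2 / Real.exp L * (|js φ.e m| * |S1|) ≤ 1 / 2 / Real.exp L *
      (2 * ∑ χ : DirichletCharacter ℂ 8, (‖PSm (fl F) (Real.exp L) M 1 (chp χ m)‖ +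
        H * (2 * Real.sqrt M * Real.log M))) := by
        apply mul_le_mul_of_nonneg_left _ (by positivity)
        linarith
    _ = _ := by ring

/-- the averages over primes are small on average, one character -/
theorem ws1 (χ : DirichletCharacter ℂ 8) {F : ℝ → ℝ} {B H : ℝ} (hB : 0 < B)
    (hT : Test B (fl F)) (hH : 0 < H) (σ : ℝ) (hσ0 : 0 < σ)
    (hσ : σ < 1) (A : ℕ) :
    ∃ L2 : ℝ, 1 ≤ L2 ∧ ∀ L : ℝ, L2 ≤ L → ∀ Z : ℕ, (Z : ℝ) ≤ Real.exp (σ * L) →
      ∑ m ∈ (osf Z).filter (fun m => 1 < m), (m.divisors.card : ℝ) / Real.sqrt m *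
        (1 / Real.exp L * (‖PSm (fl F) (Real.exp L) (Mf B L) 1 (chp χ m)‖ +
        H * (2 * Real.sqrt (Mf B L) * Real.log (Mf B L)))) ≤ 2 / L ^ A := by
  obtain ⟨x0, hx0, htot⟩ := tot χ hT σ hσ0 hσ A
  set c1 : ℝ := |Real.log (2 * Real.exp B)| + 1 with hc1
  have hc10 : 0 < c1 := by rw [hc1]; positivity
  set K : ℝ := H * 2 * Real.sqrt (2 * Real.exp B) * c1 with hK
  have hK0 : 0 ≤ K := by rw [hK]; positivity
  obtain ⟨H0, hH0, hlarge⟩ := H343.KF.large K ((1 - σ) / 2) (3 + A) (by linarith)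
  refine ⟨max (max 1 x0) H0, (le_max_left _ _).trans (le_max_left _ _), ?_⟩
  intro L hL Z hZ
  have hL1' : 1 ≤ L := ((le_max_left _ _).trans (le_max_left _ _)).trans hL
  have hLx0 : x0 ≤ L := ((le_max_right _ _).trans (le_max_left _ _)).trans hL
  have hLH0 : H0 ≤ L := (le_max_right _ _).trans hL
  have hX := Real.exp_pos L
  have hLX : L ≤ Real.exp L := by linarith [Real.add_one_le_exp L]
  have hM1 := Mf_ge B L
  obtain ⟨m1, hM2⟩ := Mf_le hB (by linarith : 0 ≤ L)
  set M : ℕ := Mf B L with hM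
  have hM1' : (1 : ℝ) ≤ M := by exact_mod_cast m1
  have hlM0 : 0 ≤ Real.log M := Real.log_nonneg hM1'
  have ht := htot (Real.exp L) (hLx0.trans hLX) M hM1 Z (by
    rw [← Real.exp_mul, mul_comm]; exact hZ)
  rw [Real.log_exp] at ht
  have hsq : Real.sqrt (Real.exp L) = Real.exp (1 / 2 * L) := by
    rw [Real.sqrt_eq_iff_mul_self_eq (by positivity) (by positivity), ← Real.exp_add]
    congr 1; ring
  have hsM : Real.sqrt M ≤ Real.sqrt (2 * Real.exp B) * Real.exp (1 / 2 * L) := by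
    rw [← hsq, ← Real.sqrt_mul (by positivity)]
    exact Real.sqrt_le_sqrt hM2
  have hlM : Real.log M ≤ c1 * (1 + L) := by
    have h1 : Real.log M ≤ Real.log (2 * Real.exp B * Real.exp L) :=
      Real.log_le_log (by linarith) hM2
    rw [Real.log_mul (by positivity) (by positivity), Real.log_exp] at h1
    have h2 := le_abs_self (Real.log (2 * Real.exp B))
    have h3 := abs_nonneg (Real.log (2 * Real.exp B))
    rw [hc1]
    nlinarith
  have hsZ : Real.sqrt Z ≤ Real.exp (σ / 2 * L) := by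
    rw [Real.sqrt_le_left (Real.exp_pos _).le]
    refine hZ.trans (le_of_eq ?_)
    rw [pow_two, ← Real.exp_add]
    congr 1; ring
  have hlZ : 1 + Real.log Z ≤ 1 + L := by
    rcases Nat.eq_zero_or_pos Z with h0 | h0
    · rw [h0]; simp; linarith
    · have h1 : Real.log Z ≤ Real.log (Real.exp (σ * L)) :=
        Real.log_le_log (by exact_mod_cast h0) hZ
      rw [Real.log_exp] at h1
      nlinarith
  have hlZ0 : 0 ≤ 1 + Real.log Z := by
    have := Real.log_natCast_nonneg Z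
    linarith
  have hsum : ∑ m ∈ (osf Z).filter (fun m => 1 < m), (m.divisors.card : ℝ) / Real.sqrt m ≤
      (1 + L) ^ 2 * Real.exp (σ / 2 * L) := by
    calc _ ≤ ∑ m ∈ Icc 1 Z, (m.divisors.card : ℝ) / Real.sqrt m := by
          apply sum_le_sum_of_subset_of_nonneg
          · intro m hm
            rw [mem_filter] at hm
            obtain ⟨a1, a2, -, -⟩ := mem_osf hm.1
            exact mem_Icc.2 ⟨a1, a2⟩
          · intro _ _ _; positivity
      _ ≤ (1 + Real.log Z) ^ 2 * Real.sqrt Z := sum_card_sqrt Z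
      _ ≤ _ := by gcongr
  have hlg := hlarge (Real.exp L) (hLH0.trans hLX)
  rw [Real.log_exp, ← Real.exp_mul] at hlg
  calc ∑ m ∈ (osf Z).filter (fun m => 1 < m), (m.divisors.card : ℝ) / Real.sqrt m *
        (1 / Real.exp L * (‖PSm (fl F) (Real.exp L) M 1 (chp χ m)‖ +
        H * (2 * Real.sqrt M * Real.log M)))
      = 1 / Real.exp L * ∑ m ∈ (osf Z).filter (fun m => 1 < m),
          (m.divisors.card : ℝ) / Real.sqrt m * ‖PSm (fl F) (Real.exp L) M 1 (chp χ m)‖ +
        1 / Real.exp L * (H * (2 * Real.sqrt M * Real.log M)) *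
          ∑ m ∈ (osf Z).filter (fun m => 1 < m), (m.divisors.card : ℝ) / Real.sqrt m := by
        rw [mul_sum, mul_sum, ← sum_add_distrib]
        refine sum_congr rfl fun m _ => ?_
        ring
    _ ≤ 1 / Real.exp L * (Real.exp L / L ^ A) +
        1 / Real.exp L * (H * (2 * (Real.sqrt (2 * Real.exp B) * Real.exp (1 / 2 * L)) *
          (c1 * (1 + L)))) * ((1 + L) ^ 2 * Real.exp (σ / 2 * L)) := by
        apply add_le_add
        · exact mul_le_mul_of_nonneg_left ht (by positivity)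
        · apply mul_le_mul _ hsum (sum_nonneg fun _ _ => by positivity) (by positivity)
          apply mul_le_mul_of_nonneg_left _ (by positivity)
          apply mul_le_mul_of_nonneg_left _ hH.le
          apply mul_le_mul _ hlM hlM0 (by positivity)
          exact mul_le_mul_of_nonneg_left hsM (by norm_num)
    _ = 1 / L ^ A + (K * (1 + L) ^ 3 *
          (Real.exp (1 / 2 * L) * Real.exp (σ / 2 * L) / Real.exp L)) := by
        rw [hK]
        field_simp
    _ ≤ 1 / L ^ A + 1 / L ^ A := by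
        have e1 : Real.exp (1 / 2 * L) * Real.exp (σ / 2 * L) / Real.exp L =
            1 / Real.exp (L * ((1 - σ) / 2)) := by
          rw [div_eq_div_iff (Real.exp_pos _).ne' (Real.exp_pos _).ne', one_mul, ← Real.exp_add,
            ← Real.exp_add]
          congr 1
          ring
        have e2 : K * (1 + L) ^ 3 * (Real.exp (1 / 2 * L) * Real.exp (σ / 2 * L) / Real.exp L) ≤
            1 / L ^ A := by
          rw [e1, mul_one_div, div_le_div_iff₀ (Real.exp_pos _) (by positivity), one_mul]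
          calc K * (1 + L) ^ 3 * L ^ A ≤ K * (1 + L) ^ 3 * (1 + L) ^ A := by
                gcongr
                linarith
            _ = K * (1 + L) ^ (3 + A) := by ring
            _ ≤ _ := hlg
        linarith
    _ = _ := by ring

/-- the averages over primes are small on average -/
theorem ws {φ : FD} {R : Finset (ZMod 8)} (hR : Cl φ R) {s' : ℝ} (hs' : s' ≤ 1 / 4)
    {F : ℝ → ℝ} (hF : TF F) (σ : ℝ) (hσ0 : 0 < σ) (hσ : σ < 1) (A : ℕ) :
    ∃ L2 : ℝ, 1 ≤ L2 ∧ ∀ L : ℝ, L2 ≤ L → ∀ Z : ℕ, (Z : ℝ) ≤ Real.exp (σ * L) →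
      ∑ m ∈ (osf Z).filter (fun m => 1 < m), (m.divisors.card : ℝ) / Real.sqrt m *
        |Em φ s' F L m| ≤ 1 / L ^ A := by
  obtain ⟨B, hB, hT, hsupp⟩ := test_fl hF
  obtain ⟨H, hH, hFH⟩ := TF_bdd hF
  obtain ⟨L1, hL1, hEm⟩ := Em_le hR hs' hB hsupp hFH
  choose L2 hL2 hw using fun χ : DirichletCharacter ℂ 8 => ws1 χ hB hT hH σ hσ0 hσ (A + 1)
  set N : ℝ := ((Finset.univ : Finset (DirichletCharacter ℂ 8)).card : ℝ) with hN
  obtain ⟨L3, hL3⟩ : ∃ L3 : ℝ, ∀ χ, L2 χ ≤ L3 := by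
    refine ⟨∑ χ, |L2 χ|, fun χ => (le_abs_self _).trans ?_⟩
    exact single_le_sum (f := fun χ => |L2 χ|) (fun _ _ => abs_nonneg _) (mem_univ χ)
  refine ⟨max (max L1 L3) (2 * N), hL1.trans ((le_max_left _ _).trans (le_max_left _ _)), ?_⟩
  intro L hL Z hZ
  have hLL1 : L1 ≤ L := ((le_max_left _ _).trans (le_max_left _ _)).trans hL
  have hLL3 : L3 ≤ L := ((le_max_right _ _).trans (le_max_left _ _)).trans hL
  have hLN : 2 * N ≤ L := (le_max_right _ _).trans hL
  have hL1' : 1 ≤ L := hL1.trans hLL1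
  calc ∑ m ∈ (osf Z).filter (fun m => 1 < m), (m.divisors.card : ℝ) / Real.sqrt m *
        |Em φ s' F L m|
      ≤ ∑ m ∈ (osf Z).filter (fun m => 1 < m), (m.divisors.card : ℝ) / Real.sqrt m *
        ∑ χ : DirichletCharacter ℂ 8, 1 / Real.exp L *
        (‖PSm (fl F) (Real.exp L) (Mf B L) 1 (chp χ m)‖ +
          H * (2 * Real.sqrt (Mf B L) * Real.log (Mf B L))) := by
        refine sum_le_sum fun m hm => ?_
        rw [mem_filter] at hm
        exact mul_le_mul_of_nonneg_left (hEm L hLL1 (Mf B L) (Mf_ge B L) m (by omega))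
          (by positivity)
    _ = ∑ χ : DirichletCharacter ℂ 8, ∑ m ∈ (osf Z).filter (fun m => 1 < m),
        (m.divisors.card : ℝ) / Real.sqrt m * (1 / Real.exp L *
        (‖PSm (fl F) (Real.exp L) (Mf B L) 1 (chp χ m)‖ +
          H * (2 * Real.sqrt (Mf B L) * Real.log (Mf B L)))) := by
        rw [sum_comm]
        refine sum_congr rfl fun m _ => ?_
        rw [mul_sum]
    _ ≤ ∑ χ : DirichletCharacter ℂ 8, 2 / L ^ (A + 1) :=
        sum_le_sum fun χ _ => hw χ L ((hL3 χ).trans hLL3) Z hZ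
    _ = (2 * N) / L ^ (A + 1) := by
        rw [sum_const, nsmul_eq_mul]
        ring
    _ ≤ L / L ^ (A + 1) := by gcongr
    _ = _ := by
        rw [pow_succ]
        field_simp

/-- reduction to the squarefree kernel -/
theorem kern {φ : FD} {R : Finset (ZMod 8)} (hR : Cl φ R)
    (he : φ.e = 1 ∨ φ.e = -1 ∨ φ.e = 2 ∨ φ.e = -2) {s' : ℝ} (hs' : s' ≤ 1 / 4)
    {F : ℝ → ℝ} (hF : TF F) :
    ∃ L1 : ℝ, 1 ≤ L1 ∧ ∀ L : ℝ, L1 ≤ L → ∀ k : ℕ, Odd k → (k : ℝ) ≤ Real.exp L →
      Em φ s' F L k = Em φ s' F L (dc k).2 := by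
  obtain ⟨B, hB, hT, hsupp⟩ := test_fl hF
  obtain ⟨L1, hL1, hEA⟩ := EA_p hR hs' hB hsupp
  refine ⟨L1, hL1, ?_⟩
  intro L hL k hk hkL
  obtain ⟨hlow, -⟩ := hEA L hL
  have hL1' : 1 ≤ L := hL1.trans hL
  have hk1 : 1 ≤ k := hk.pos
  obtain ⟨h1, h2⟩ := dc_spec hk1
  set r : ℕ := (dc k).1 with hr
  set m : ℕ := (dc k).2 with hm
  have hr0 : r ≠ 0 := by
    intro h0
    rw [h0] at h1
    simp at h1
    omega
  have hm0 : m ≠ 0 := h2.ne_zero
  have hrodd : Odd r := by
    rw [← h1] at hk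
    have h3 := Nat.Odd.of_mul_right hk
    rcases Nat.even_or_odd r with h4 | h4
    · exfalso
      have h5 : Even (r ^ 2 * m) := (h4.pow_of_ne_zero (by norm_num)).mul_right m
      exact (Nat.not_even_iff_odd.2 hk) h5
    · exact h4
  have hrle : (r : ℝ) ≤ Real.exp (1 / 2 * L) := by
    have h3 : r ^ 2 ≤ k := by
      rw [← h1]
      exact Nat.le_mul_of_pos_right _ (Nat.pos_of_ne_zero hm0)
    have h4 : (r : ℝ) ^ 2 ≤ (Real.exp (1 / 2 * L)) ^ 2 := by
      have h5 : ((r ^ 2 : ℕ) : ℝ) ≤ k := by exact_mod_cast h3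
      push_cast at h5
      refine h5.trans (hkL.trans (le_of_eq ?_))
      rw [pow_two, ← Real.exp_add]
      congr 1; ring
    exact abs_le_of_sq_le_sq' h4 (Real.exp_pos _).le |>.2
  unfold Em
  refine EA_congr L fun d hd => ?_
  -- d is a prime larger than r
  have hdF : d.Prime ∧ F ((d : ℝ) / Real.exp L) ≠ 0 := by
    unfold omp at hd
    split_ifs at hd with h
    · refine ⟨h.2.1, ?_⟩
      intro h0
      apply hd
      rw [h0]
      ring
    · exact absurd rfl hd
  have hdr : r < d := by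
    have h3 := hlow d hdF.2
    have h4 : Real.exp (1 / 2 * L) ≤ Real.exp (3 / 4 * L) := Real.exp_le_exp.2 (by linarith)
    have h5 : (r : ℝ) < d := by linarith
    exact_mod_cast h5
  have hco : Nat.Coprime d r := by
    rw [Nat.Prime.coprime_iff_not_dvd hdF.1]
    intro hdv
    have := Nat.le_of_dvd (Nat.pos_of_ne_zero hr0) hdv
    omega
  have hco2 : Nat.Coprime 2 r := Nat.coprime_two_left.2 hrodd
  have hsq : js (φ.e * (d : ℤ)) r * js (φ.e * (d : ℤ)) r = 1 := by
    have h3 : jacobiSym (φ.e * (d : ℤ)) r ^ 2 = 1 := by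
      apply jacobiSym.sq_one
      have h5 : Int.gcd (φ.e * (d : ℤ)) r = Nat.gcd (φ.e.natAbs * d) r := by
        rw [Int.gcd, Int.natAbs_natCast, Int.natAbs_mul, Int.natAbs_natCast]
      rw [h5]
      apply Nat.Coprime.mul_left _ hco
      rcases he with h | h | h | h <;> rw [h]
      · simp
      · simp
      · simpa using hco2
      · simpa using hco2
    unfold js
    have h6 : ((jacobiSym (φ.e * (d : ℤ)) r : ℤ) : ℝ) ^ 2 = 1 := by exact_mod_cast h3
    rw [← pow_two]
    exact h6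
  have h3 : js (φ.e * (d : ℤ)) k = js (φ.e * (d : ℤ)) (r * r * m) := by
    rw [← h1, pow_two]
  beta_reduce
  rw [h3, Pool.Agent.H355R3.RZ4HE.js_mul _ _ _ (mul_ne_zero hr0 hr0) hm0,
    Pool.Agent.H355R3.RZ4HE.js_mul _ _ _ hr0 hr0, hsq, one_mul]

/-- the first moment over primes -/
theorem m1_p {φ : FD} {R : Finset (ZMod 8)} (hR : Cl φ R)
    (he : φ.e = 1 ∨ φ.e = -1 ∨ φ.e = 2 ∨ φ.e = -2) {s' : ℝ} (hs' : s' ≤ 1 / 4) {F : ℝ → ℝ}
    (hF : TF F) (hF0 : ∀ x, 0 ≤ F x) : M1 φ s' (φ.δ * Ft F 0) (omp φ s' F) where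
  l0 := one_p hR hs' hF
  l1 := by
    intro s θ hA w Q hw hQ
    have hGW := gw_p φ s' hF hF0
    obtain ⟨B1, hB1, hwB⟩ := wt_bdd hw
    obtain ⟨B2, hB2, hQB⟩ := wt_bdd hQ
    have hs0 : 0 < s := by linarith [hA.hs]
    have hθ0 := hA.hθ
    set σ : ℝ := s + θ with hσ
    have hσ0 : 0 < σ := by rw [hσ]; linarith
    have hσ1 : σ < 1 := hA.main
    obtain ⟨L1, hL1, hkern⟩ := kern hR he hs' hF
    obtain ⟨L2, hL2, hws⟩ := ws hR hs' hF σ hσ0 hσ1 5
    have hmain := main_limP (max s θ) w Q (wt_mono (le_max_left _ _) hw)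
      (wt_mono (le_max_right _ _) hQ)
    have hone := one_p hR hs' hF
    have hprod := (hone.mul hmain)
    have herr : Tendsto (fun L : ℝ => EA (omp φ s' F L) (fun d => Ndg φ 2 L w d * Mdg φ 2 L Q d) -
        EA (omp φ s' F L) (fun _ => 1) *
        ∑' a : Fin 2 → ℕ, tp a * (w (Real.log (a 0) / L) * Q (Real.log (a 1) / L))) atTop (𝓝 0) := by
      have hb : Tendsto (fun L : ℝ => (16 * (B1 * B2)) * (1 / L)) atTop (𝓝 0) := by
        have := (tendsto_const_nhds (x := (1 : ℝ))).div_atTop (tendsto_id (α := ℝ) (x := atTop))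
        have h2 := this.const_mul (16 * (B1 * B2))
        rw [mul_zero] at h2
        exact h2
      refine squeeze_zero_norm' ?_ hb
      filter_upwards [eventually_ge_atTop (max L1 L2)] with L hL
      have hLL1 : L1 ≤ L := (le_max_left _ _).trans hL
      have hLL2 : L2 ≤ L := (le_max_right _ _).trans hL
      have hL1' : 1 ≤ L := hL1.trans hLL1
      have hL0 : 0 < L := by linarith
      set Ns : ℕ := ⌊Real.exp (s * L)⌋₊ with hNs
      set Nt : ℕ := ⌊Real.exp (θ * L)⌋₊ with hNt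
      have hNs' : (Ns : ℝ) ≤ Real.exp (s * L) := floor_exp_le _
      have hNt' : (Nt : ℝ) ≤ Real.exp (θ * L) := floor_exp_le _
      have hst : Real.exp (s * L) * Real.exp (θ * L) = Real.exp (σ * L) := by
        rw [← Real.exp_add, hσ]; ring_nf
      set Z : ℕ := Ns * Nt with hZ
      have hZle : (Z : ℝ) ≤ Real.exp (σ * L) := by
        rw [hZ, ← hst]
        push_cast
        exact mul_le_mul hNs' hNt' (Nat.cast_nonneg _) (Real.exp_pos _).le
      have hZL : (Z : ℝ) ≤ Real.exp L := hZle.trans (Real.exp_le_exp.2 (by nlinarith))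
      have hexp : EA (omp φ s' F L) (fun d => Ndg φ 2 L w d * Mdg φ 2 L Q d) =
          ∑ p ∈ Icc 1 Ns ×ˢ Icc 1 Nt, cf 2 L w Q p * Em φ s' F L (p.1 * p.2) := by
        simp only [prodg_eq φ 2 (by decide) L hL0 s θ w Q hw hQ]
        rw [EA_sum hGW]
        rfl
      have hEm1 : Em φ s' F L 1 = EA (omp φ s' F L) (fun _ => 1) := by
        unfold Em
        refine EA_congr L fun d _ => ?_
        unfold js
        rw [jacobiSym.one_right]
        norm_num
      have hodd : ∀ p ∈ Icc 1 Ns ×ˢ Icc 1 Nt, cf 2 L w Q p ≠ 0 → Odd (p.1 * p.2) := by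
        intro p _ hne
        rw [cf] at hne
        split_ifs at hne with h
        · exact (odd_of_coprime (by decide) h.1).mul (odd_of_coprime (by decide) h.2)
        · exact absurd rfl hne
      have hterm : ∀ p ∈ Icc 1 Ns ×ˢ Icc 1 Nt, cf 2 L w Q p * Em φ s' F L (p.1 * p.2) =
          (if (dc (p.1 * p.2)).2 = 1 then cf 2 L w Q p else 0) * EA (omp φ s' F L) (fun _ => 1) +
          (if (dc (p.1 * p.2)).2 ≠ 1 then cf 2 L w Q p * Em φ s' F L (dc (p.1 * p.2)).2 else 0) := by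
        intro p hp
        by_cases h0 : cf 2 L w Q p = 0
        · rw [h0]; simp
        have ho := hodd p hp h0
        rw [mem_product, mem_Icc, mem_Icc] at hp
        have hk : ((p.1 * p.2 : ℕ) : ℝ) ≤ Real.exp L := by
          refine le_trans ?_ hZL
          exact_mod_cast Nat.mul_le_mul hp.1.2 hp.2.2
        rw [hkern L hLL1 _ ho hk]
        by_cases h1 : (dc (p.1 * p.2)).2 = 1
        · rw [if_pos h1, if_neg (fun h => h h1), h1, hEm1, add_zero]
        · rw [if_neg h1, if_pos h1, zero_mul, zero_add]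
      rw [hexp, sum_congr rfl hterm, sum_add_distrib, ← sum_mul,
        sq_part L hL0 s θ w Q hw hQ, mul_comm (EA (omp φ s' F L) (fun _ => 1)),
        add_sub_cancel_left, Real.norm_eq_abs]
      set g : ℕ → ℝ := fun k => if Odd k ∧ (dc k).2 ≠ 1 then
        1 / Real.sqrt k * |Em φ s' F L (dc k).2| else 0 with hg
      have hg0 : ∀ k, 0 ≤ g k := by
        intro k
        simp only [hg]
        split_ifs <;> positivity
      have hb1 : ∀ p ∈ Icc 1 Ns ×ˢ Icc 1 Nt,
          |(if (dc (p.1 * p.2)).2 ≠ 1 then cf 2 L w Q p * Em φ s' F L (dc (p.1 * p.2)).2 else 0)| ≤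
          (B1 * B2) * g (p.1 * p.2) := by
        intro p hp
        have hR : 0 ≤ (B1 * B2) * g (p.1 * p.2) := mul_nonneg (by positivity) (hg0 _)
        by_cases h0 : cf 2 L w Q p = 0
        · rw [h0]; simpa using hR
        have ho := hodd p hp h0
        rw [mem_product, mem_Icc, mem_Icc] at hp
        split_ifs with h1
        · simp only [hg]
          rw [if_pos ⟨ho, h1⟩, abs_mul]
          have h3 := kf_abs 2 L w Q B1 B2 hB1 hwB hQB hB2 p hp.1.1 hp.2.1
          have h4 : 1 / Real.sqrt ((p.1 * p.2 : ℕ) : ℝ) = 1 / Real.sqrt p.1 * (1 / Real.sqrt p.2) := by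
            push_cast
            rw [Real.sqrt_mul (Nat.cast_nonneg _), one_div_mul_one_div]
          rw [h4]
          calc |cf 2 L w Q p| * |Em φ s' F L (dc (p.1 * p.2)).2|
              ≤ (B1 * B2 * (1 / Real.sqrt p.1 * (1 / Real.sqrt p.2))) *
                |Em φ s' F L (dc (p.1 * p.2)).2| := mul_le_mul_of_nonneg_right h3 (abs_nonneg _)
            _ = _ := by ring
        · rw [abs_zero]; exact hR
      have hlZ : 1 + Real.log Z ≤ 2 * L := by
        rcases Nat.eq_zero_or_pos Z with h0 | h0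
        · rw [h0]; simp; linarith
        · have h1 : Real.log Z ≤ Real.log (Real.exp L) :=
            Real.log_le_log (by exact_mod_cast h0) hZL
          rw [Real.log_exp] at h1
          linarith
      have hlZ0 : 0 ≤ 1 + Real.log Z := by
        have := Real.log_natCast_nonneg Z
        linarith
      calc |∑ p ∈ Icc 1 Ns ×ˢ Icc 1 Nt,
            (if (dc (p.1 * p.2)).2 ≠ 1 then cf 2 L w Q p * Em φ s' F L (dc (p.1 * p.2)).2 else 0)|
          ≤ ∑ p ∈ Icc 1 Ns ×ˢ Icc 1 Nt, (B1 * B2) * g (p.1 * p.2) :=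
            (Finset.abs_sum_le_sum_abs _ _).trans (sum_le_sum hb1)
        _ = (B1 * B2) * ∑ p ∈ Icc 1 Ns ×ˢ Icc 1 Nt, g (p.1 * p.2) := by rw [mul_sum]
        _ ≤ (B1 * B2) * ((1 + Real.log Z) ^ 4 * ∑ m ∈ (osf Z).filter (fun m => 1 < m),
            (m.divisors.card : ℝ) / Real.sqrt m * |Em φ s' F L m|) := by
            apply mul_le_mul_of_nonneg_left _ (by positivity)
            exact (sum_prod_le Ns Nt g hg0).trans
              (sum_kern_le Z (fun m => |Em φ s' F L m|) (fun m => abs_nonneg _))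
        _ ≤ (B1 * B2) * ((2 * L) ^ 4 * (1 / L ^ 5)) := by
            apply mul_le_mul_of_nonneg_left _ (by positivity)
            apply mul_le_mul _ (hws L hLL2 Z hZle)
              (sum_nonneg fun _ _ => by positivity) (by positivity)
            exact pow_le_pow_left₀ hlZ0 hlZ 4
        _ = _ := by
            field_simp
            ring
    have := herr.add hprod
    simp only [sub_add_cancel, zero_add] at this
    exact this

end

end Pool.Agent.N782.T
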