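import Pool.Agent.N782.TJ
import Pool.Agent.N782.SC
import Pool.Agent.Cov.PNT

set_option autoImplicit false

/-! Residue classes of the families and the counting of their primes (helper782). -/

namespace Pool.Agent.N782.T

open Finset Filter Topology MeasureTheory
open Pool.Agent.H306R2.RG (FD F8 F4 F1 Fam)
open Pool.Agent.N782.G2 (cnt)

noncomputable section

theorem z8 (p k : ℕ) : ((p : ℕ) : ZMod 8) = ((k : ℕ) : ZMod 8) ↔ p % 8 = k % 8 :=
  ZMod.natCast_eq_natCast_iff' p k 8

theorem Cl8 (ε : ℤ) : Cl (F8 ε) {1, 3, 5, 7} where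
  hu := by
    intro a ha
    have : ∀ a ∈ ({1, 3, 5, 7} : Finset (ZMod 8)), a * a = 1 := by decide
    exact IsUnit.of_mul_eq_one a (this a ha)
  hA := by
    intro p hp h2
    have ho := hp.odd_of_ne_two h2
    have hp8 : p % 8 = 1 ∨ p % 8 = 3 ∨ p % 8 = 5 ∨ p % 8 = 7 := by
      rw [Nat.odd_iff] at ho
      omega
    constructor
    · intro _
      rw [mem_insert, mem_insert, mem_insert, mem_singleton]
      rcases hp8 with h | h | h | h
      · left; exact_mod_cast (z8 p 1).2 h
      · right; left; exact_mod_cast (z8 p 3).2 h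
      · right; right; left; exact_mod_cast (z8 p 5).2 h
      · right; right; right; exact_mod_cast (z8 p 7).2 h
    · intro _
      exact ho
  hδ := by
    show (1 / 2 : ℝ) = _
    have : ({1, 3, 5, 7} : Finset (ZMod 8)).card = 4 := by decide
    rw [this]
    norm_num

theorem Cl4p : Cl (F4 1) {3, 7} where
  hu := by
    intro a ha
    have : ∀ a ∈ ({3, 7} : Finset (ZMod 8)), a * a = 1 := by decide
    exact IsUnit.of_mul_eq_one a (this a ha)
  hA := by
    intro p hp h2
    show ((1 : ℤ) * (p : ℤ)) % 4 = 3 ↔ _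
    rw [mem_insert, mem_singleton]
    have h3 : ((p : ℕ) : ZMod 8) = 3 ↔ p % 8 = 3 := by
      have := z8 p 3
      exact_mod_cast this
    have h7 : ((p : ℕ) : ZMod 8) = 7 ↔ p % 8 = 7 := by
      have := z8 p 7
      exact_mod_cast this
    rw [h3, h7]
    omega
  hδ := by
    show (1 / 4 : ℝ) = _
    have : ({3, 7} : Finset (ZMod 8)).card = 2 := by decide
    rw [this]
    norm_num

theorem Cl4m : Cl (F4 (-1)) {1, 5} where
  hu := by
    intro a ha
    have : ∀ a ∈ ({1, 5} : Finset (ZMod 8)), a * a = 1 := by decide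
    exact IsUnit.of_mul_eq_one a (this a ha)
  hA := by
    intro p hp h2
    show ((-1 : ℤ) * (p : ℤ)) % 4 = 3 ↔ _
    rw [mem_insert, mem_singleton]
    have h3 : ((p : ℕ) : ZMod 8) = 1 ↔ p % 8 = 1 := by
      have := z8 p 1
      exact_mod_cast this
    have h7 : ((p : ℕ) : ZMod 8) = 5 ↔ p % 8 = 5 := by
      have := z8 p 5
      exact_mod_cast this
    rw [h3, h7]
    omega
  hδ := by
    show (1 / 4 : ℝ) = _
    have : ({1, 5} : Finset (ZMod 8)).card = 2 := by decide
    rw [this]
    norm_num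

/-- the residue class of the family `F1` -/
def r1 (ε c : ℤ) : ℕ := (ε * c % 8).toNat

theorem not_sq_prime {ε : ℤ} (hε : ε = 1 ∨ ε = -1) {p : ℕ} (hp : p.Prime) :
    ¬ IsSquare (ε * (p : ℤ)) := by
  rintro ⟨c, hc⟩
  rcases hε with rfl | rfl
  · rw [one_mul] at hc
    have : Prime (p : ℤ) := Nat.prime_iff_prime_int.1 hp
    exact this.irreducible.not_isSquare ⟨c, hc⟩
  · have h1 : 0 ≤ c * c := mul_self_nonneg c
    have h2 : (0 : ℤ) < p := by exact_mod_cast hp.pos
    linarith

theorem Cl1 (ε c : ℤ) (hε : ε = 1 ∨ ε = -1) (hc : c = 1 ∨ c = 5) :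
    Cl (F1 ε c) {((r1 ε c : ℕ) : ZMod 8)} where
  hu := by
    intro a ha
    rw [mem_singleton] at ha
    rw [ha]
    have : ((r1 ε c : ℕ) : ZMod 8) * ((r1 ε c : ℕ) : ZMod 8) = 1 := by
      rcases hε with rfl | rfl <;> rcases hc with rfl | rfl <;> decide
    exact IsUnit.of_mul_eq_one _ this
  hA := by
    intro p hp h2
    rw [mem_singleton, z8]
    show ((ε * (p : ℤ)) % 8 = c ∧ ¬ IsSquare (ε * (p : ℤ))) ↔ _
    have h3 := not_sq_prime hε hp
    have h4 : ((ε * (p : ℤ)) % 8 = c ∧ ¬ IsSquare (ε * (p : ℤ))) ↔ (ε * (p : ℤ)) % 8 = c :=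
      ⟨fun h => h.1, fun h => ⟨h, h3⟩⟩
    rw [h4]
    have e1 : r1 1 1 = 1 := by decide
    have e2 : r1 1 5 = 5 := by decide
    have e3 : r1 (-1) 1 = 7 := by decide
    have e4 : r1 (-1) 5 = 3 := by decide
    rcases hε with rfl | rfl <;> rcases hc with rfl | rfl
    · rw [e1]; omega
    · rw [e2]; omega
    · rw [e3]; omega
    · rw [e4]; omega
  hδ := by
    show (1 / 8 : ℝ) = _
    rw [card_singleton]
    norm_num

/-- the primes in the classes, upper bound -/
theorem hcnt {φ : FD} {R : Finset (ZMod 8)} (hR : Cl φ R) (h2 : ¬ φ.A 2) (η : ℝ) (hη : 0 < η) :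
    ∀ᶠ X : ℕ in atTop, cnt φ X * Real.log X ≤ (2 * φ.δ + η) * X := by
  classical
  -- the sum of `Λ` over the classes
  have hlim : Tendsto (fun X : ℕ => (∑ a ∈ R, ∑ k ∈ Finset.Icc 1 X,
      ArithmeticFunction.vonMangoldt.residueClass a k) / X) atTop (𝓝 (2 * φ.δ)) := by
    have h1 : ∀ a ∈ R, Tendsto (fun X : ℕ => (∑ k ∈ Finset.Icc 1 X,
        ArithmeticFunction.vonMangoldt.residueClass a k) / (X : ℝ)) atTop (𝓝 (1 / 4)) := by
      intro a ha
      have h := (Pool.Agent.Cov.PNT.pnt_residueClass (hR.hu a ha)).comp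
        (tendsto_natCast_atTop_atTop (R := ℝ))
      have e : ((Nat.totient 8 : ℕ) : ℝ)⁻¹ = 1 / 4 := by
        have : Nat.totient 8 = 4 := by decide
        rw [this]; norm_num
      rw [e] at h
      refine h.congr fun X => ?_
      simp only [Function.comp, Nat.floor_natCast]
    have h3 := tendsto_finsetSum R h1
    rw [sum_const, nsmul_eq_mul] at h3
    have e : (R.card : ℝ) * (1 / 4) = 2 * φ.δ := by
      rw [hR.hδ]; ring
    rw [e] at h3
    refine h3.congr fun X => ?_
    rw [sum_div]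
  -- parameters
  set D : ℝ := 2 * φ.δ with hD
  have hD0 : 0 ≤ D := by rw [hD, hR.hδ]; positivity
  set κ : ℝ := η / (4 * (D + η + 1)) with hκ
  have hden : 0 < 4 * (D + η + 1) := by positivity
  have hκ0 : 0 < κ := by rw [hκ]; positivity
  have hκ1 : κ ≤ 1 / 4 := by
    rw [hκ, div_le_iff₀ hden]
    linarith
  have hκD : (D + η / 4) / (1 - κ) ≤ D + 3 / 4 * η := by
    rw [div_le_iff₀ (by linarith)]
    have h5 : κ * (4 * (D + η + 1)) = η := by
      rw [hκ, div_mul_cancel₀ _ hden.ne']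
    nlinarith
  have hsmall : Tendsto (fun X : ℕ => Real.exp ((1 - κ) * Real.log X) * Real.log X / X) atTop
      (𝓝 0) := by
    have h4 : Tendsto (fun y : ℝ => y * Real.exp (-(κ * y))) atTop (𝓝 0) := by
      have h7 := Real.tendsto_pow_mul_exp_neg_atTop_nhds_zero 1
      have h8 := (h7.comp (tendsto_id.const_mul_atTop hκ0)).const_mul (1 / κ)
      rw [mul_zero] at h8
      refine h8.congr fun y => ?_
      simp only [Function.comp, id, pow_one]
      field_simp
    have h5 := h4.comp (Real.tendsto_log_atTop.comp (tendsto_natCast_atTop_atTop (R := ℝ)))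
    refine h5.congr' ?_
    filter_upwards [eventually_gt_atTop 0] with X hX
    have hX0 : (0 : ℝ) < X := by exact_mod_cast hX
    simp only [Function.comp]
    have h6 : Real.exp ((1 - κ) * Real.log X) = X * Real.exp (-(κ * Real.log X)) := by
      have : (1 - κ) * Real.log X = Real.log X + -(κ * Real.log X) := by ring
      rw [this, Real.exp_add, Real.exp_log hX0]
    rw [h6]
    field_simp
  have g1 := hlim.eventually (gt_mem_nhds (show D < D + η / 4 by linarith))
  have g2 := hsmall.eventually (gt_mem_nhds (show (0 : ℝ) < η / 4 by linarith))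
  filter_upwards [g1, g2, eventually_ge_atTop 3] with X k1 k2 k3
  have hX0 : (0 : ℝ) < X := by
    have : (3 : ℝ) ≤ X := by exact_mod_cast k3
    linarith
  have hlogX : 1 ≤ Real.log X := by
    have h1 : Real.exp 1 ≤ 3 := by
      have := Real.exp_one_lt_d9
      linarith
    rw [Real.le_log_iff_exp_le hX0]
    have : (3 : ℝ) ≤ X := by exact_mod_cast k3
    linarith
  rw [div_lt_iff₀ hX0] at k1 k2
  set y : ℝ := Real.exp ((1 - κ) * Real.log X) with hy
  have hy0 : 0 < y := Real.exp_pos _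
  have hly : Real.log y = (1 - κ) * Real.log X := by rw [hy, Real.log_exp]
  have hly0 : 0 < (1 - κ) * Real.log X := mul_pos (by linarith) (by linarith)
  set S : Finset ℕ := (range (X + 1)).filter (fun p => p.Prime ∧ φ.A p) with hS
  have hmem : ∀ p ∈ S, p.Prime ∧ p ≤ X ∧ (p : ZMod 8) ∈ R := by
    intro p hp
    rw [hS, mem_filter, mem_range] at hp
    obtain ⟨h3, h4, h5⟩ := hp
    have hp2 : p ≠ 2 := by
      rintro rfl
      exact h2 h5
    exact ⟨h4, by omega, (hR.hA p h4 hp2).1 h5⟩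
  -- `1 ≤ 1_{p ≤ y} + log p / log y`
  have hone : ∀ p ∈ S, (1 : ℝ) ≤ (if p ∈ Icc 1 ⌊y⌋₊ then (1 : ℝ) else 0) +
      Real.log p / ((1 - κ) * Real.log X) := by
    intro p hp
    obtain ⟨h4, -, -⟩ := hmem p hp
    have hlp : 0 ≤ Real.log p := Real.log_natCast_nonneg p
    by_cases h : (p : ℝ) ≤ y
    · rw [if_pos (mem_Icc.2 ⟨h4.one_le, Nat.le_floor h⟩)]
      have : 0 ≤ Real.log p / ((1 - κ) * Real.log X) := div_nonneg hlp hly0.le
      linarith
    · have h1 : 1 ≤ Real.log p / ((1 - κ) * Real.log X) := by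
        rw [le_div_iff₀ hly0, one_mul, ← hly]
        exact Real.log_le_log hy0 (not_le.1 h).le
      have h2 : (0 : ℝ) ≤ (if p ∈ Icc 1 ⌊y⌋₊ then (1 : ℝ) else 0) := by
        split_ifs <;> norm_num
      linarith
  have hcard : (S.card : ℝ) ≤ y + (∑ p ∈ S, Real.log p) / ((1 - κ) * Real.log X) := by
    calc (S.card : ℝ) = ∑ p ∈ S, (1 : ℝ) := by rw [sum_const, nsmul_eq_mul, mul_one]
      _ ≤ ∑ p ∈ S, ((if p ∈ Icc 1 ⌊y⌋₊ then (1 : ℝ) else 0) +
          Real.log p / ((1 - κ) * Real.log X)) := sum_le_sum hone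
      _ = ∑ p ∈ S, (if p ∈ Icc 1 ⌊y⌋₊ then (1 : ℝ) else 0) +
          (∑ p ∈ S, Real.log p) / ((1 - κ) * Real.log X) := by
          rw [sum_add_distrib, sum_div]
      _ ≤ _ := by
          apply add_le_add _ le_rfl
          rw [← sum_filter, sum_const, nsmul_eq_mul, mul_one]
          have h5 : (S.filter (fun p => p ∈ Icc 1 ⌊y⌋₊)).card ≤ ⌊y⌋₊ := by
            have := card_le_card (show S.filter (fun p => p ∈ Icc 1 ⌊y⌋₊) ⊆ Icc 1 ⌊y⌋₊ from
              fun p hp => (mem_filter.1 hp).2)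
            simpa using this
          have h6 : ((S.filter (fun p => p ∈ Icc 1 ⌊y⌋₊)).card : ℝ) ≤ ⌊y⌋₊ := by exact_mod_cast h5
          exact h6.trans (Nat.floor_le hy0.le)
  have hsum : ∑ p ∈ S, Real.log p ≤ ∑ a ∈ R, ∑ k ∈ Finset.Icc 1 X,
      ArithmeticFunction.vonMangoldt.residueClass a k := by
    rw [sum_comm]
    have hsub : S ⊆ Icc 1 X := by
      intro p hp
      obtain ⟨h4, h5, -⟩ := hmem p hp
      exact mem_Icc.2 ⟨h4.one_le, h5⟩
    calc ∑ p ∈ S, Real.log p ≤ ∑ p ∈ S, ∑ a ∈ R,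
          ArithmeticFunction.vonMangoldt.residueClass a p := by
          refine sum_le_sum fun p hp => ?_
          obtain ⟨h4, h5, h6⟩ := hmem p hp
          have h7 : Real.log p = ArithmeticFunction.vonMangoldt.residueClass
              ((p : ℕ) : ZMod 8) p := by
            unfold ArithmeticFunction.vonMangoldt.residueClass
            rw [Set.indicator_of_mem]
            · exact (ArithmeticFunction.vonMangoldt_apply_prime h4).symm
            · rfl
          rw [h7]
          exact single_le_sum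
            (f := fun a => ArithmeticFunction.vonMangoldt.residueClass a p)
            (fun a _ => ArithmeticFunction.vonMangoldt.residueClass_nonneg a p) h6
      _ ≤ _ := sum_le_sum_of_subset_of_nonneg hsub fun k _ _ =>
          sum_nonneg fun a _ => ArithmeticFunction.vonMangoldt.residueClass_nonneg a k
  have hc : cnt φ X = (S.card : ℝ) := by
    unfold cnt
    rw [hS]
  rw [hc]
  have hlog0 : 0 ≤ Real.log X := by linarith
  have e1 : (S.card : ℝ) * Real.log X ≤ y * Real.log X + (∑ p ∈ S, Real.log p) / (1 - κ) := by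
    have h5 := mul_le_mul_of_nonneg_right hcard hlog0
    refine h5.trans (le_of_eq ?_)
    have h6 : (1 - κ) ≠ 0 := by linarith
    have h7 : Real.log X ≠ 0 := by linarith
    field_simp
  have e2 : (∑ p ∈ S, Real.log p) / (1 - κ) ≤ (D + 3 / 4 * η) * X := by
    have h5 : (∑ p ∈ S, Real.log p) / (1 - κ) ≤ ((D + η / 4) * X) / (1 - κ) := by
      apply div_le_div_of_nonneg_right _ (by linarith)
      linarith
    refine h5.trans ?_
    have h6 : ((D + η / 4) * X) / (1 - κ) = (D + η / 4) / (1 - κ) * X := by ring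
    rw [h6]
    exact mul_le_mul_of_nonneg_right hκD hX0.le
  have e3 : y * Real.log X ≤ η / 4 * X := k2.le
  calc (S.card : ℝ) * Real.log X ≤ η / 4 * X + (D + 3 / 4 * η) * X := by linarith
    _ = _ := by ring

end

end Pool.Agent.N782.T
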