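import Pool.Agent.N782.SUu
import Pool.Agent.H962R5.RG_S3h
import Pool.Agent.H546R4.RG_RESg

set_option autoImplicit false
set_option linter.unusedVariables false

/-! The double sum on the closed strip, uniformly in the modulus (helper782; adapted from
RG_SD1h, RG_S3h of the starting files). -/

namespace Pool.Agent.N782.U

open Finset Filter Topology MeasureTheory
open Pool.Agent.H306R2.RZ Pool.Agent.H306R2.RG
open Pool.Agent.N782.SU (Cqf Cqf_pos)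

noncomputable section

section A

open Pool.Agent.H962R5.RZS1 Pool.Agent.H962R5.RZS2 Pool.Agent.H962R5.LIB
open Pool.Agent.H962R5.RZSD1

theorem SD1hu (a : ℝ) (ha : 0 < a) (ha1 : a ≤ 1 / 8) : ∃ C : ℝ, 0 < C ∧ ∀ (q : ℕ), q ≠ 0 →
    ∀ (r : ℕ) (s : ℂ), r ≠ 0 → r.Coprime q → 1 / 2 ≤ s.re ∧ s.re ≤ 1 / 2 + a →
      Summable (fun b : ℕ × ℕ => ‖GG q r s b.1 b.2‖ * ((b.1 : ℝ) * b.2) ^ (-(2 * a))) ∧
      (∑' b : ℕ × ℕ, ‖GG q r s b.1 b.2‖ * ((b.1 : ℝ) * b.2) ^ (-(2 * a))) ≤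
        C * Cqf q * (r : ℝ) ^ (3 * a) := by
  obtain ⟨C1, hC1, hC1b⟩ := omega_bound 242 (2 * a) (by norm_num) (by positivity)
  set Z : ℝ := ∑' n : ℕ, (n : ℝ) ^ (-1 - a : ℝ) with hZ
  have hZs : Summable (fun n : ℕ => (n : ℝ) ^ (-1 - a : ℝ)) :=
    Real.summable_nat_rpow.2 (by linarith)
  refine ⟨C1 * Real.exp (226 * Z), by positivity, fun q hq0 r s hr hrq hs => ?_⟩
  set Cq : ℝ := ∏ p ∈ q.primeFactors, (248 * (p : ℝ)) with hCq
  have hCq0 : 0 < Cq := prod_pos fun p hp => by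
    have := (Nat.prime_of_mem_primeFactors hp).pos
    positivity
  have hCC : C1 * Real.exp (226 * Z) * Cqf q * (r : ℝ) ^ (3 * a) =
      Cq * C1 * Real.exp (226 * Z) * (r : ℝ) ^ (3 * a) := by
    have : Cqf q = Cq := rfl
    rw [this]; ring
  rw [hCC]
  set f : ℕ × ℕ → ℝ := fun b => ‖GG q r s b.1 b.2‖ * ((b.1 : ℝ) * b.2) ^ (-(2 * a)) with hf
  have hf0 : ∀ b, 0 ≤ f b := fun b => by simp only [hf]; positivity
  have key : ∀ F : Finset (ℕ × ℕ), ∑ b ∈ F, f b ≤ Cq * C1 * Real.exp (226 * Z) * (r : ℝ) ^ (3 * a) := by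
    intro F
    obtain ⟨N, hN⟩ : ∃ N : ℕ, ∀ b ∈ F, b.1 ≤ N ∧ b.2 ≤ N := by
      refine ⟨F.sup (fun b => max b.1 b.2), fun b hb => ?_⟩
      have := le_sup (f := fun b : ℕ × ℕ => max b.1 b.2) hb
      exact ⟨(le_max_left _ _).trans this, (le_max_right _ _).trans this⟩
    set P : Finset ℕ := N.succ.primesBelow ∪ r.primeFactors with hPd
    have hP : ∀ p ∈ P, p.Prime := by
      intro p hp
      rcases mem_union.1 hp with h | h
      · exact (Nat.mem_primesBelow.1 h).2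
      · exact Nat.prime_of_mem_primeFactors h
    have hsubN : ∀ n : ℕ, 1 ≤ n → n ≤ N → n.primeFactors ⊆ P := by
      intro n hn hnN p hp
      refine mem_union_left _ (Nat.mem_primesBelow.2 ⟨?_, Nat.prime_of_mem_primeFactors hp⟩)
      have := Nat.le_of_dvd (by omega) (Nat.dvd_of_mem_primeFactors hp)
      omega
    have h1 : ∑ b ∈ F, f b ≤ ∑ b ∈ Icc 1 N ×ˢ Icc 1 N, f b := by
      have e : ∑ b ∈ F, f b = ∑ b ∈ F.filter (fun b => b.1 ≠ 0 ∧ b.2 ≠ 0), f b := by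
        rw [sum_filter]
        refine sum_congr rfl fun b _ => ?_
        split_ifs with h
        · rfl
        · by_cases hb1 : b.1 = 0
          · simp only [hf, hb1, GG_zero_left, norm_zero, zero_mul]
          · have hb2 : b.2 = 0 := by
              by_contra h2
              exact h ⟨hb1, h2⟩
            simp only [hf, hb2, GG_zero_right, norm_zero, zero_mul]
      rw [e]
      refine sum_le_sum_of_subset_of_nonneg ?_ (fun b _ _ => hf0 b)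
      intro b hb
      rw [mem_filter] at hb
      rw [mem_product, mem_Icc, mem_Icc]
      have := hN b hb.1
      omega
    have h2 : ∑ b ∈ Icc 1 N ×ˢ Icc 1 N, f b = ∑ b ∈ Icc 1 N ×ˢ Icc 1 N,
        ∏ p ∈ P, tt a q r s p (b.1.factorization p) (b.2.factorization p) := by
      refine sum_congr rfl fun b hb => ?_
      rw [mem_product, mem_Icc, mem_Icc] at hb
      exact term_prod hr hP (by omega) (by omega) (hsubN _ hb.1.1 hb.1.2)
        (hsubN _ hb.2.1 hb.2.2) subset_union_right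
    have h3 := prod_le_sum P (N + 2) N (tt a q r s) (fun p i j => tt_nonneg _ _ _ _ _ _ _)
      subset_union_left (by omega)
    have h4 : ∏ p ∈ P, ∑ i ∈ range (N + 2), ∑ j ∈ range (N + 2), tt a q r s p i j ≤
        ∏ p ∈ P, Ap a q r p :=
      prod_le_prod (fun p _ => sum_nonneg fun i _ => sum_nonneg fun j _ =>
        tt_nonneg _ _ _ _ _ _ _) (fun p hp => local_bound (hP p hp) ha ha1 hs q r N hrq hr)
    have h5 : ∏ p ∈ P, Ap a q r p ≤ Cq * (C1 * (r : ℝ) ^ (3 * a)) * Real.exp (226 * Z) := by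
      unfold Ap
      rw [prod_mul_distrib, prod_mul_distrib]
      have g1 : ∏ p ∈ P, (if p ∣ q then 248 * (p : ℝ) else 1) ≤ Cq := by
        rw [← prod_filter]
        refine prod_le_prod_of_subset_of_one_le ?_ (fun p hp => ?_) (fun p hp _ => ?_)
        · intro p hp
          rw [mem_filter] at hp
          exact Nat.mem_primeFactors.2 ⟨hP p hp.1, hp.2, hq0⟩
        · positivity
        · have : (1 : ℝ) ≤ p := by
            exact_mod_cast (Nat.prime_of_mem_primeFactors hp).one_lt.le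
          linarith
      have g2 : ∏ p ∈ P, (if p ∣ r then 242 * (p : ℝ) ^ a else 1) ≤ C1 * (r : ℝ) ^ (3 * a) := by
        rw [← prod_filter]
        have hsub : P.filter (fun p => p ∣ r) ⊆ r.primeFactors := by
          intro p hp
          rw [mem_filter] at hp
          exact Nat.mem_primeFactors.2 ⟨hP p hp.1, hp.2, hr⟩
        calc ∏ p ∈ P.filter (fun p => p ∣ r), 242 * (p : ℝ) ^ a
            ≤ ∏ p ∈ r.primeFactors, 242 * (p : ℝ) ^ a := by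
              refine prod_le_prod_of_subset_of_one_le hsub (fun p hp => by positivity)
                (fun p hp _ => ?_)
              have h : (1 : ℝ) ≤ p := by
                exact_mod_cast (Nat.prime_of_mem_primeFactors hp).one_lt.le
              have := Real.one_le_rpow h ha.le
              linarith
          _ = (∏ _p ∈ r.primeFactors, (242 : ℝ)) * ∏ p ∈ r.primeFactors, (p : ℝ) ^ a :=
              prod_mul_distrib
          _ ≤ (C1 * (r : ℝ) ^ (2 * a)) * (r : ℝ) ^ a :=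
              mul_le_mul (hC1b r hr) (rad_le ha hr)
                (prod_nonneg fun p _ => by positivity) (by positivity)
          _ = C1 * (r : ℝ) ^ (3 * a) := by
              have hr0 : (0 : ℝ) < r := by exact_mod_cast Nat.pos_of_ne_zero hr
              rw [mul_assoc, ← Real.rpow_add hr0]
              congr 2; ring
      have g3 : ∏ p ∈ P, Real.exp (226 * (p : ℝ) ^ (-1 - a : ℝ)) ≤ Real.exp (226 * Z) := by
        rw [← Real.exp_sum, ← mul_sum]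
        apply Real.exp_le_exp.2
        apply mul_le_mul_of_nonneg_left _ (by norm_num)
        exact hZs.sum_le_tsum P (fun p _ => by positivity)
      have g1' : 0 ≤ ∏ p ∈ P, (if p ∣ r then 242 * (p : ℝ) ^ a else 1) :=
        prod_nonneg fun p _ => by split_ifs <;> positivity
      exact mul_le_mul (mul_le_mul g1 g2 g1' hCq0.le) g3
        (prod_nonneg fun p _ => (Real.exp_pos _).le) (by positivity)
    calc ∑ b ∈ F, f b ≤ _ := h1
      _ = _ := h2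
      _ ≤ _ := h3
      _ ≤ _ := h4
      _ ≤ _ := h5
      _ = _ := by ring
  have hsm : Summable f := summable_of_sum_le hf0 key
  exact ⟨hsm, hsm.tsum_le_of_sum_le key⟩

end A

section B

open Pool.Agent.H962R5.RG

open Pool.Agent.H962R5.RG.S3D in
/-- the double sum -/
theorem S3hu_of (h0 : SD0st) (h2 : SD2st) (h3 : SD3st)
    (a : ℝ) (ha : 0 < a) (ha1 : a ≤ 1 / 8) : ∃ C : ℝ, 0 < C ∧ ∀ (q : ℕ), q ≠ 0 →
    ∀ (r : ℕ) (s : ℂ) (L r1 B1 B2 : ℝ) (w1 w2 : ℝ → ℝ), r ≠ 0 → r.Coprime q →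
      1 / 2 ≤ s.re ∧ s.re ≤ 1 / 2 + a → 1 ≤ L → Wt r1 w1 → Wt r1 w2 → Bd 1 w1 B1 → Bd 1 w2 B2 →
      ‖(∑' m : ℕ × ℕ, K2 q r s m.1 m.2 * ((w1 (Real.log m.1 / L) * w2 (Real.log m.2 / L) : ℝ) : ℂ)) -
        (L : ℂ) * Pc q * (∫ y : ℝ, (w1 y : ℂ) * Complex.exp (s * L * y)) *
          (∑' n : ℕ, if n ≠ 0 ∧ n.Coprime q then (n : ℂ) ^ (-(1 / 2) : ℂ) * nu (n * r) *
            ((r0 (n * r) : ℕ) : ℂ) ^ (s - 1 / 2) * (w2 (Real.log n / L) : ℂ) else 0) -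
        (L : ℂ) * Pc q * (∫ y : ℝ, (w2 y : ℂ) * Complex.exp (s * L * y)) *
          (∑' n : ℕ, if n ≠ 0 ∧ n.Coprime q then (n : ℂ) ^ (-(1 / 2) : ℂ) * nu (n * r) *
            ((r0 (n * r) : ℕ) : ℂ) ^ (s - 1 / 2) * (w1 (Real.log n / L) : ℂ) else 0) +
        (L : ℂ) ^ 2 * (∫ y : ℝ, (w1 y : ℂ) * Complex.exp (s * L * y)) *
          (∫ y : ℝ, (w2 y : ℂ) * Complex.exp (s * L * y)) * (Zq q s * hd s r)‖ ≤
      C * Cqf q * (1 + ‖s‖) ^ 2 * B1 * B2 * (r : ℝ) ^ (3 * a) *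
        Real.exp (4 * a * (|r1| * L)) := by
  obtain ⟨C1, hC1, hb⟩ := Pool.Agent.H962R5.S1B.S1b a ha ha1
  obtain ⟨C2', hC2', hsd⟩ := SD1hu a ha ha1
  refine ⟨C1 ^ 2 * C2', by positivity, ?_⟩
  intro q hq0 r s L r1 B1 B2 w1 w2 hr hrq hs hL hw1 hw2 hB1 hB2
  have hCq0 := Cqf_pos q
  obtain ⟨C2, hC2d⟩ : ∃ C2 : ℝ, C2 = C2' * Cqf q := ⟨_, rfl⟩
  have hC2 : 0 < C2 := by rw [hC2d]; positivity
  obtain ⟨hS, hSb⟩ := hsd q hq0 r s hr hrq hs
  rw [← hC2d] at hSb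
  rw [mul_assoc (C1 ^ 2) C2' (Cqf q), ← hC2d]
  have hG1 : ∀ b, GG q r s 0 b = 0 := fun b => by unfold GG; simp
  have hG2 : ∀ b, GG q r s b 0 = 0 := fun b => by unfold GG; simp
  have hB10 : 0 ≤ B1 := (abs_nonneg _).trans (Pool.Agent.H962R5.S1B.S1b_wbd hB1 0)
  have hB20 : 0 ≤ B2 := (abs_nonneg _).trans (Pool.Agent.H962R5.S1B.S1b_wbd hB2 0)
  have hL0 : 0 ≤ L := by linarith
  have hR : ∀ (w : ℝ → ℝ) (B : ℝ), Wt r1 w → Bd 1 w B → 0 ≤ B →
      Dec a (fun b => Ysum s L w b - Mm s L w b)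
        (C1 * (1 + ‖s‖) * B * Real.exp (2 * a * (r1 * L))) := by
    intro w B hw hB hB0
    refine ⟨by positivity, fun b hb0 => ?_⟩
    have h := hb s L (Real.log b) r1 B w hs hL (Real.log_natCast_nonneg b) hw hB
    rw [exp_log_cpow hb0, exp_log_rpow hb0] at h
    calc _ ≤ _ := h
      _ = _ := by ring
  have hM : ∀ w : ℝ → ℝ, Dec a (Mm s L w)
      (L * ‖∫ y : ℝ, (w y : ℂ) * Complex.exp (s * L * y)‖) := fun w =>
    ⟨by positivity, fun b hb0 => M_bound ha1 hs hL w hb0⟩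
  have hY : ∀ (w : ℝ → ℝ) (B : ℝ), Wt r1 w → Bd 1 w B → 0 ≤ B →
      Dec a (Ysum s L w) (C1 * (1 + ‖s‖) * B * Real.exp (2 * a * (r1 * L)) +
        L * ‖∫ y : ℝ, (w y : ℂ) * Complex.exp (s * L * y)‖) := by
    intro w B hw hB hB0
    refine ⟨add_nonneg (hR w B hw hB hB0).1 (hM w).1, fun b hb0 => ?_⟩
    have e : Ysum s L w b = (Ysum s L w b - Mm s L w b) + Mm s L w b := by ring
    rw [e, add_mul]
    exact (norm_add_le _ _).trans
      (add_le_add ((hR w B hw hB hB0).2 b hb0) ((hM w).2 b hb0))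
  have hY1 := hY w1 B1 hw1 hB1 hB10
  have hY2 := hY w2 B2 hw2 hB2 hB20
  -- the double sum
  have eU := red1 (s := s) hL hw1 hw2 hG1 hG2 (K := K2 q r s)
    (fun n1 n2 hn1 hn2 => h0 q r s n1 n2 hn1 hn2)
    (fun n => by unfold K2; simp) (fun n => by unfold K2; simp)
  -- first main term
  have e2 : (L : ℂ) * Pc q * (∫ y : ℝ, (w1 y : ℂ) * Complex.exp (s * L * y)) *
      (∑' n : ℕ, if n ≠ 0 ∧ n.Coprime q then (n : ℂ) ^ (-(1 / 2) : ℂ) * nu (n * r) *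
        ((r0 (n * r) : ℕ) : ℂ) ^ (s - 1 / 2) * (w2 (Real.log n / L) : ℂ) else 0) =
      tt (GG q r s) (Mm s L w1) (Ysum s L w2) := by
    rw [red2 ha1 hs hL w1 hw2 hG1 hG2 hS (hM w1) hY2]
    have e : ∀ n : ℕ, (if n = 0 then 0 else (∑' b : ℕ, (∑ y ∈ n.divisorsAntidiagonal,
        GG q r s b y.1 * (y.2 : ℂ) ^ (s - 1)) * (b : ℂ) ^ (-s)) * (w2 (Real.log n / L) : ℂ)) =
        (Pc q : ℂ) * (if n ≠ 0 ∧ n.Coprime q then (n : ℂ) ^ (-(1 / 2) : ℂ) * nu (n * r) *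
        ((r0 (n * r) : ℕ) : ℂ) ^ (s - 1 / 2) * (w2 (Real.log n / L) : ℂ) else 0) := by
      intro n
      by_cases hn : n = 0
      · simp [hn]
      · rw [if_neg hn, (h2 a ha ha1 q hq0 r hr hrq s hs n hn).1]
        by_cases hc : n.Coprime q
        · rw [if_pos hc, if_pos ⟨hn, hc⟩]
          ring
        · rw [if_neg hc, if_neg (fun h => hc h.2)]
          ring
    simp only [e]
    rw [tsum_mul_left]
    ring
  -- second main term
  have e3 : (L : ℂ) * Pc q * (∫ y : ℝ, (w2 y : ℂ) * Complex.exp (s * L * y)) *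
      (∑' n : ℕ, if n ≠ 0 ∧ n.Coprime q then (n : ℂ) ^ (-(1 / 2) : ℂ) * nu (n * r) *
        ((r0 (n * r) : ℕ) : ℂ) ^ (s - 1 / 2) * (w1 (Real.log n / L) : ℂ) else 0) =
      tt (GG q r s) (Ysum s L w1) (Mm s L w2) := by
    rw [tt_swap, red2 (G := fun b c => GG q r s c b) ha1 hs hL w2 hw1 hG2 hG1
      (swap_summable hS) (hM w2) hY1]
    have e : ∀ n : ℕ, (if n = 0 then 0 else (∑' b : ℕ, (∑ y ∈ n.divisorsAntidiagonal,
        GG q r s y.1 b * (y.2 : ℂ) ^ (s - 1)) * (b : ℂ) ^ (-s)) * (w1 (Real.log n / L) : ℂ)) =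
        (Pc q : ℂ) * (if n ≠ 0 ∧ n.Coprime q then (n : ℂ) ^ (-(1 / 2) : ℂ) * nu (n * r) *
        ((r0 (n * r) : ℕ) : ℂ) ^ (s - 1 / 2) * (w1 (Real.log n / L) : ℂ) else 0) := by
      intro n
      by_cases hn : n = 0
      · simp [hn]
      · rw [if_neg hn, (h2 a ha ha1 q hq0 r hr hrq s hs n hn).2]
        by_cases hc : n.Coprime q
        · rw [if_pos hc, if_pos ⟨hn, hc⟩]
          ring
        · rw [if_neg hc, if_neg (fun h => hc h.2)]
          ring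
    simp only [e]
    rw [tsum_mul_left]
    ring
  -- both main terms
  have e4 : (L : ℂ) ^ 2 * (∫ y : ℝ, (w1 y : ℂ) * Complex.exp (s * L * y)) *
      (∫ y : ℝ, (w2 y : ℂ) * Complex.exp (s * L * y)) * (Zq q s * hd s r) =
      tt (GG q r s) (Mm s L w1) (Mm s L w2) := by
    rw [← h3 a ha ha1 q hq0 r hr hrq s hs]
    unfold PD tt
    rw [← tsum_mul_left]
    congr 1
    funext b
    rw [Nat.cast_mul, Complex.natCast_mul_natCast_cpow]
    unfold Mm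
    ring
  rw [eU, e2, e3, e4, tt_diff hG1 hG2 hS hY1 hY2 (hM w1) (hM w2)]
  refine (tt_bound hG1 hG2 hS (hR w1 B1 hw1 hB1 hB10) (hR w2 B2 hw2 hB2 hB20)).trans ?_
  have hE : Real.exp (2 * a * (r1 * L)) * Real.exp (2 * a * (r1 * L)) ≤
      Real.exp (4 * a * (|r1| * L)) := by
    rw [← Real.exp_add]
    apply Real.exp_le_exp.2
    have : r1 * L ≤ |r1| * L := mul_le_mul_of_nonneg_right (le_abs_self r1) hL0
    nlinarith
  have hpos : 0 ≤ C1 ^ 2 * (1 + ‖s‖) ^ 2 * B1 * B2 := by positivity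
  have hr0 : 0 ≤ C2 * (r : ℝ) ^ (3 * a) := by positivity
  calc C1 * (1 + ‖s‖) * B1 * Real.exp (2 * a * (r1 * L)) *
        (C1 * (1 + ‖s‖) * B2 * Real.exp (2 * a * (r1 * L))) *
        ∑' b : ℕ × ℕ, ‖GG q r s b.1 b.2‖ * ((b.1 : ℝ) * b.2) ^ (-(2 * a))
      = (C1 ^ 2 * (1 + ‖s‖) ^ 2 * B1 * B2) *
        (Real.exp (2 * a * (r1 * L)) * Real.exp (2 * a * (r1 * L))) *
        ∑' b : ℕ × ℕ, ‖GG q r s b.1 b.2‖ * ((b.1 : ℝ) * b.2) ^ (-(2 * a)) := by ring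
    _ ≤ (C1 ^ 2 * (1 + ‖s‖) ^ 2 * B1 * B2) *
        (Real.exp (2 * a * (r1 * L)) * Real.exp (2 * a * (r1 * L))) *
        (C2 * (r : ℝ) ^ (3 * a)) := mul_le_mul_of_nonneg_left hSb (by positivity)
    _ ≤ (C1 ^ 2 * (1 + ‖s‖) ^ 2 * B1 * B2) * Real.exp (4 * a * (|r1| * L)) *
        (C2 * (r : ℝ) ^ (3 * a)) :=
        mul_le_mul_of_nonneg_right (mul_le_mul_of_nonneg_left hE hpos) hr0
    _ = _ := by ring


theorem S3hu (a : ℝ) (ha : 0 < a) (ha1 : a ≤ 1 / 8) : ∃ C : ℝ, 0 < C ∧ ∀ (q : ℕ), q ≠ 0 →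
    ∀ (r : ℕ) (s : ℂ) (L r1 B1 B2 : ℝ) (w1 w2 : ℝ → ℝ), r ≠ 0 → r.Coprime q →
      1 / 2 ≤ s.re ∧ s.re ≤ 1 / 2 + a → 1 ≤ L → Wt r1 w1 → Wt r1 w2 → Bd 1 w1 B1 → Bd 1 w2 B2 →
      ‖(∑' m : ℕ × ℕ, K2 q r s m.1 m.2 * ((w1 (Real.log m.1 / L) * w2 (Real.log m.2 / L) : ℝ) : ℂ)) -
        (L : ℂ) * Pc q * (∫ y : ℝ, (w1 y : ℂ) * Complex.exp (s * L * y)) *
          (∑' n : ℕ, if n ≠ 0 ∧ n.Coprime q then (n : ℂ) ^ (-(1 / 2) : ℂ) * nu (n * r) *
            ((r0 (n * r) : ℕ) : ℂ) ^ (s - 1 / 2) * (w2 (Real.log n / L) : ℂ) else 0) -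
        (L : ℂ) * Pc q * (∫ y : ℝ, (w2 y : ℂ) * Complex.exp (s * L * y)) *
          (∑' n : ℕ, if n ≠ 0 ∧ n.Coprime q then (n : ℂ) ^ (-(1 / 2) : ℂ) * nu (n * r) *
            ((r0 (n * r) : ℕ) : ℂ) ^ (s - 1 / 2) * (w1 (Real.log n / L) : ℂ) else 0) +
        (L : ℂ) ^ 2 * (∫ y : ℝ, (w1 y : ℂ) * Complex.exp (s * L * y)) *
          (∫ y : ℝ, (w2 y : ℂ) * Complex.exp (s * L * y)) * (Zq q s * hd s r)‖ ≤
      C * Cqf q * (1 + ‖s‖) ^ 2 * B1 * B2 * (r : ℝ) ^ (3 * a) *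
        Real.exp (4 * a * (|r1| * L)) :=
  S3hu_of Pool.Agent.H415R6.RZ6.SD0 Pool.Agent.H962R5.RZSD2.SD2
    Pool.Agent.H962R5.RG.t_SD3st a ha ha1

end B

end

end Pool.Agent.N782.U
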