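import Pool.Agent.N782.UA
import Pool.Agent.H246R2.RG_SQ1

set_option autoImplicit false
set_option linter.unusedVariables false

/-! The residues at the point one half, uniformly in the modulus (helper782; adapted from
RG_RESg and RG_SQ1 of the starting files). -/

namespace Pool.Agent.N782.U

open Finset Filter Topology MeasureTheory
open Pool.Agent.H306R2.RZ Pool.Agent.H306R2.RG
open Pool.Agent.N782.SU (Cqf Cqf_pos)

noncomputable section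

section A

open Pool.Agent.H145R2
open Pool.Agent.H435R2.RZS4d
open Pool.Agent.H546R4.RG_RESg

theorem exp_arith' (s θ a κ L : ℝ) (hs1 : s < 1) (hθ : 0 < θ) (hθ1 : θ < 1 / 2) (ha : 0 < a)
    (ha1 : a ≤ κ / 8) (hL : 0 ≤ L) :
    -(1 / 2) * L + 4 * a * (s * L) + (1 / 2 + 3 * a) * (θ * L) +
      (1 / 2 + 3 * a) * (θ * L) ≤ -((1 / 2 - θ - κ) * L) := by
  have h1 : -(1 / 2) + 4 * a * s + (1 / 2 + 3 * a) * θ + (1 / 2 + 3 * a) * θ ≤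
      -(1 / 2 - θ - κ) := by
    nlinarith [mul_pos ha hθ, mul_nonneg ha.le (show (0 : ℝ) ≤ 1 - s by linarith),
      mul_nonneg ha.le (show (0 : ℝ) ≤ 1 / 2 - θ by linarith)]
  nlinarith [mul_le_mul_of_nonneg_right h1 hL]

theorem RESgu (c : ℝ) (hc : 0 < c) (s θ : ℝ) (hA : Adm2 s θ) (κ : ℝ) (hκ : 0 < κ) :
    ∃ C : ℝ, 0 < C ∧ ∀ (q : ℕ), q ≠ 0 → ∀ L : ℝ, 1 ≤ L →
      ∀ (w1 w2 Q1 Q2 : ℝ → ℝ) (B1 B2 B3 B4 : ℝ),
      Wt s w1 → Wt s w2 → Wt θ Q1 → Wt θ Q2 → Bd 1 w1 B1 → Bd 1 w2 B2 → Bd 1 Q1 B3 → Bd 1 Q2 B4 →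
      ‖(((c * Real.exp L) ^ (-(1 / 2) : ℝ) : ℝ) : ℂ) * (
        (Pc q : ℂ) * (L : ℂ) * (∫ y : ℝ, (w1 y : ℂ) * Complex.exp ((1 / 2 : ℂ) * L * y)) *
          (∑' a : Fin 3 → ℕ, t2c q (1 / 2) a *
            ((w2 (Real.log (a 0) / L) * Q1 (Real.log (a 1) / L) * Q2 (Real.log (a 2) / L) : ℝ) : ℂ)) +
        (Pc q : ℂ) * (L : ℂ) * (∫ y : ℝ, (w2 y : ℂ) * Complex.exp ((1 / 2 : ℂ) * L * y)) *
          (∑' a : Fin 3 → ℕ, t2c q (1 / 2) a *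
            ((w1 (Real.log (a 0) / L) * Q2 (Real.log (a 1) / L) * Q1 (Real.log (a 2) / L) : ℝ) : ℂ)) -
        (L : ℂ) ^ 2 * (∫ y : ℝ, (w1 y : ℂ) * Complex.exp ((1 / 2 : ℂ) * L * y)) *
          (∫ y : ℝ, (w2 y : ℂ) * Complex.exp ((1 / 2 : ℂ) * L * y)) * Zq q (1 / 2) *
          (∑' a : Fin 2 → ℕ, t5c q (1 / 2) a *
            ((Q1 (Real.log (a 0) / L) * Q2 (Real.log (a 1) / L) : ℝ) : ℂ)) -
        ((∑' a : Fin 4 → ℕ, t4c q a * w4 L w1 w2 Q1 Q2 a *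
          (((∏ i, a i : ℕ).totient : ℝ) / ((∏ i, a i : ℕ) : ℝ)) : ℝ) : ℂ))‖ ≤
        C * Cqf q * B1 * B2 * B3 * B4 * Real.exp (-((1 / 2 - θ - κ) * L)) := by
  have hs := hA.hs
  have hs1 := hA.hs1
  have hθ := hA.hθ
  have hθ1 := hA.hθ1
  have hδ : 0 < 1 / 2 - θ := by linarith
  set a : ℝ := min (1 / 8) (κ / 8) with ha_def
  have ha : 0 < a := lt_min (by norm_num) (by linarith)
  have ha1 : a ≤ 1 / 8 := min_le_left _ _
  have ha2 : a ≤ κ / 8 := min_le_right _ _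
  obtain ⟨C3', hC3', hS3'⟩ := S3hu a ha ha1
  refine ⟨9 * c ^ (-(1 / 2) : ℝ) * C3', by positivity, ?_⟩
  intro q hq0 L hL w1 w2 Q1 Q2 B1 B2 B3 B4 h1 h2 h3 h4 b1 b2 b3 b4
  have hCq0 := Cqf_pos q
  obtain ⟨C3, hC3d⟩ : ∃ C3 : ℝ, C3 = C3' * Cqf q := ⟨_, rfl⟩
  have hC3 : 0 < C3 := by rw [hC3d]; positivity
  have hS3 := hS3' q hq0
  rw [← hC3d] at hS3
  rw [mul_assoc (9 * c ^ (-(1 / 2) : ℝ)) C3' (Cqf q), ← hC3d]
  have hL0 : 0 < L := by linarith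
  have e1 := RZS4.wt_nonneg b1
  have e2 := RZS4.wt_nonneg b2
  have e3 := RZS4.wt_nonneg b3
  have e4 := RZS4.wt_nonneg b4
  set N1 : ℕ := ⌊Real.exp (s * L)⌋₊ with hN1
  set N2 : ℕ := ⌊Real.exp (θ * L)⌋₊ with hN2
  have E0 := sum4 q L hL0 s θ w1 w2 Q1 Q2 h1 h2 h3 h4
  rw [← hN1, ← hN2, regroup0 q L w2 Q1 Q2 N1 N2 (fun r => RZS4.SB q L w1 N1 r (1 / 2) 0)] at E0
  have E1 := sum3 q L hL0 s θ w1 w2 Q1 Q2 h2 h3 h4
  rw [← hN1, ← hN2, regroup0 q L w2 Q1 Q2 N1 N2 (fun r => RZS4.MB q L w1 r (1 / 2) 0)] at E1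
  have E2 := sum3 q L hL0 s θ w2 w1 Q2 Q1 h1 h4 h3
  rw [← hN1, ← hN2, regroup0 q L w1 Q2 Q1 N1 N2 (fun r => RZS4.MB q L w2 r (1 / 2) 0)] at E2
  have E2' : ∑ p ∈ Icc 1 N2 ×ˢ Icc 1 N2, (c2 q L Q2 Q1 p : ℂ) *
        ∑ n ∈ Icc 1 N1, u1 q L w1 n * RZS4.MB q L w2 (n * (p.1 * p.2)) (1 / 2) 0 =
      ∑ p ∈ Icc 1 N2 ×ˢ Icc 1 N2, (c2 q L Q1 Q2 p : ℂ) *
        ∑ n ∈ Icc 1 N1, u1 q L w1 n * RZS4.MB q L w2 (n * (p.1 * p.2)) (1 / 2) 0 := by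
    refine Finset.sum_nbij' Prod.swap Prod.swap ?_ ?_ ?_ ?_ ?_
    · intro p hp
      rw [Finset.mem_product] at hp ⊢
      exact ⟨hp.2, hp.1⟩
    · intro p hp
      rw [Finset.mem_product] at hp ⊢
      exact ⟨hp.2, hp.1⟩
    · intro p _
      rfl
    · intro p _
      rfl
    · intro p _
      rw [← c2_swap q L Q2 Q1 p]
      simp only [Prod.fst_swap, Prod.snd_swap]
      rw [Nat.mul_comm p.2 p.1]
  have E3 := sum2 q L hL0 θ w1 w2 Q1 Q2 h3 h4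
  rw [← hN2] at E3
  rw [E0, E1, E2, E2', E3, ← Finset.sum_add_distrib, ← Finset.sum_sub_distrib,
    ← Finset.sum_sub_distrib]
  -- the estimate for one pair
  have hone : ∀ p ∈ Icc 1 N2 ×ˢ Icc 1 N2,
      ‖(c2 q L Q1 Q2 p : ℂ) *
          (∑ n ∈ Icc 1 N1, u1 q L w2 n * RZS4.MB q L w1 (n * (p.1 * p.2)) (1 / 2) 0) +
        (c2 q L Q1 Q2 p : ℂ) *
          (∑ n ∈ Icc 1 N1, u1 q L w1 n * RZS4.MB q L w2 (n * (p.1 * p.2)) (1 / 2) 0) -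
        (c2 q L Q1 Q2 p : ℂ) * DB q L w1 w2 (p.1 * p.2) (1 / 2) 0 -
        (c2 q L Q1 Q2 p : ℂ) *
          (∑ n ∈ Icc 1 N1, u1 q L w2 n * RZS4.SB q L w1 N1 (n * (p.1 * p.2)) (1 / 2) 0)‖ ≤
      (9 / 4 * C3 * B1 * B2 * B3 * B4 * Real.exp (4 * a * (s * L))) *
        (((p.1 : ℝ) ^ (3 * a) / Real.sqrt (p.1 : ℝ)) *
          ((p.2 : ℝ) ^ (3 * a) / Real.sqrt (p.2 : ℝ))) := by
    intro p _
    by_cases hcond : (p.1 ≠ 0 ∧ p.1.Coprime q) ∧ (p.2 ≠ 0 ∧ p.2.Coprime q)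
    · have hr0 : p.1 * p.2 ≠ 0 := Nat.mul_ne_zero hcond.1.1 hcond.2.1
      have hrc : (p.1 * p.2).Coprime q := Nat.Coprime.mul_left hcond.1.2 hcond.2.2
      have h5 := hS3 (p.1 * p.2) (((1 / 2 : ℝ) : ℂ) + ((0 : ℝ) : ℂ) * Complex.I) L s B1 B2 w1 w2
        hr0 hrc ⟨by rw [RZS4.lin_re], by rw [RZS4.lin_re]; linarith⟩ hL h1 h2 b1 b2
      rw [SS_tsum q L hL0 s w1 w2 h1 h2 (p.1 * p.2) (1 / 2) 0,
        MM_tsum q L hL0 s w1 w2 h2 (p.1 * p.2) (1 / 2) 0,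
        MM_tsum q L hL0 s w2 w1 h1 (p.1 * p.2) (1 / 2) 0,
        abs_of_nonneg (show (0 : ℝ) ≤ s by linarith)] at h5
      have h6 : (L : ℂ) ^ 2 *
          (∫ y : ℝ, (w1 y : ℂ) *
            Complex.exp ((((1 / 2 : ℝ) : ℂ) + ((0 : ℝ) : ℂ) * Complex.I) * L * y)) *
          (∫ y : ℝ, (w2 y : ℂ) *
            Complex.exp ((((1 / 2 : ℝ) : ℂ) + ((0 : ℝ) : ℂ) * Complex.I) * L * y)) *
          (Zq q (((1 / 2 : ℝ) : ℂ) + ((0 : ℝ) : ℂ) * Complex.I) *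
            hd (((1 / 2 : ℝ) : ℂ) + ((0 : ℝ) : ℂ) * Complex.I) (p.1 * p.2)) =
          DB q L w1 w2 (p.1 * p.2) (1 / 2) 0 := rfl
      rw [h6, ← hN1] at h5
      have h7 : (1 + ‖(((1 / 2 : ℝ) : ℂ) + ((0 : ℝ) : ℂ) * Complex.I)‖) ^ 2 = 9 / 4 := by
        rw [half_eq]
        norm_num
      rw [h7] at h5
      have h8 := c2_bd q L Q1 Q2 B3 B4 b3 b4 p
      have h9 : ∀ A M1 M2 D : ℂ, (c2 q L Q1 Q2 p : ℂ) * M1 + (c2 q L Q1 Q2 p : ℂ) * M2 -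
          (c2 q L Q1 Q2 p : ℂ) * D - (c2 q L Q1 Q2 p : ℂ) * A =
          -((c2 q L Q1 Q2 p : ℂ) * (A - M1 - M2 + D)) := by
        intro A M1 M2 D
        ring
      rw [h9, norm_neg, norm_mul, Complex.norm_real, Real.norm_eq_abs]
      have h10 : ((p.1 * p.2 : ℕ) : ℝ) ^ (3 * a) / Real.sqrt ((p.1 * p.2 : ℕ) : ℝ) =
          ((p.1 : ℝ) ^ (3 * a) / Real.sqrt (p.1 : ℝ)) *
            ((p.2 : ℝ) ^ (3 * a) / Real.sqrt (p.2 : ℝ)) := by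
        push_cast
        rw [Real.sqrt_mul (by positivity), Real.mul_rpow (by positivity) (by positivity),
          mul_div_mul_comm]
      refine (mul_le_mul h8 h5 (norm_nonneg _) (by positivity)).trans (le_of_eq ?_)
      rw [← h10]
      ring
    · have hz : c2 q L Q1 Q2 p = 0 := by
        unfold c2
        rw [if_neg hcond]
      rw [hz]
      simp only [Complex.ofReal_zero, zero_mul, sub_zero, add_zero, norm_zero]
      positivity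
  have hsum := (norm_sum_le (Icc 1 N2 ×ˢ Icc 1 N2) (fun p : ℕ × ℕ => (c2 q L Q1 Q2 p : ℂ) *
          (∑ n ∈ Icc 1 N1, u1 q L w2 n * RZS4.MB q L w1 (n * (p.1 * p.2)) (1 / 2) 0) +
        (c2 q L Q1 Q2 p : ℂ) *
          (∑ n ∈ Icc 1 N1, u1 q L w1 n * RZS4.MB q L w2 (n * (p.1 * p.2)) (1 / 2) 0) -
        (c2 q L Q1 Q2 p : ℂ) * DB q L w1 w2 (p.1 * p.2) (1 / 2) 0 -
        (c2 q L Q1 Q2 p : ℂ) *
          (∑ n ∈ Icc 1 N1, u1 q L w2 n * RZS4.SB q L w1 N1 (n * (p.1 * p.2)) (1 / 2) 0))).trans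
        (Finset.sum_le_sum hone)
  have hR : ∑ p ∈ Icc 1 N2 ×ˢ Icc 1 N2,
      (9 / 4 * C3 * B1 * B2 * B3 * B4 * Real.exp (4 * a * (s * L))) *
        (((p.1 : ℝ) ^ (3 * a) / Real.sqrt (p.1 : ℝ)) *
          ((p.2 : ℝ) ^ (3 * a) / Real.sqrt (p.2 : ℝ))) =
      (9 / 4 * C3 * B1 * B2 * B3 * B4 * Real.exp (4 * a * (s * L))) *
        ((∑ n ∈ Icc 1 N2, ((n : ℝ) ^ (3 * a) / Real.sqrt (n : ℝ))) *
          (∑ n ∈ Icc 1 N2, ((n : ℝ) ^ (3 * a) / Real.sqrt (n : ℝ)))) := by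
    rw [← Finset.mul_sum, Finset.sum_product, Finset.sum_mul_sum]
  rw [hR] at hsum
  have hY2 : (N2 : ℝ) ≤ Real.exp (θ * L) := Nat.floor_le (Real.exp_pos _).le
  have s2 := RZS4.sum_rpow a ha.le N2 _ (Real.exp_pos (θ * L)) hY2
  have s2' : 0 ≤ ∑ b ∈ Icc 1 N2, ((b : ℝ) ^ (3 * a) / Real.sqrt (b : ℝ)) :=
    Finset.sum_nonneg (fun i _ => by positivity)
  have hX0 : (0 : ℝ) ≤ (c * Real.exp L) ^ (-(1 / 2) : ℝ) := by positivity
  have hX : (c * Real.exp L) ^ (-(1 / 2) : ℝ) = c ^ (-(1 / 2) : ℝ) * Real.exp (-(1 / 2) * L) := by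
    rw [Real.mul_rpow hc.le (Real.exp_pos _).le, ← Real.exp_mul, mul_comm L]
  rw [norm_mul, Complex.norm_real, Real.norm_eq_abs, abs_of_nonneg hX0]
  refine (mul_le_mul_of_nonneg_left hsum hX0).trans ?_
  calc (c * Real.exp L) ^ (-(1 / 2) : ℝ) *
        ((9 / 4 * C3 * B1 * B2 * B3 * B4 * Real.exp (4 * a * (s * L))) *
        ((∑ n ∈ Icc 1 N2, ((n : ℝ) ^ (3 * a) / Real.sqrt (n : ℝ))) *
          (∑ n ∈ Icc 1 N2, ((n : ℝ) ^ (3 * a) / Real.sqrt (n : ℝ)))))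
      ≤ (c * Real.exp L) ^ (-(1 / 2) : ℝ) *
        ((9 / 4 * C3 * B1 * B2 * B3 * B4 * Real.exp (4 * a * (s * L))) *
        ((2 * Real.exp (θ * L) ^ (1 / 2 + 3 * a)) * (2 * Real.exp (θ * L) ^ (1 / 2 + 3 * a)))) := by
        gcongr
    _ = 9 * c ^ (-(1 / 2) : ℝ) * C3 * B1 * B2 * B3 * B4 * Real.exp (-(1 / 2) * L +
          4 * a * (s * L) + (1 / 2 + 3 * a) * (θ * L) + (1 / 2 + 3 * a) * (θ * L)) := by
        rw [hX, Real.exp_add, Real.exp_add, Real.exp_add, ← Real.exp_mul,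
          mul_comm (θ * L) (1 / 2 + 3 * a)]
        ring
    _ ≤ 9 * c ^ (-(1 / 2) : ℝ) * C3 * B1 * B2 * B3 * B4 * Real.exp (-((1 / 2 - θ - κ) * L)) := by
        apply mul_le_mul_of_nonneg_left _ (by positivity)
        exact Real.exp_le_exp.mpr (exp_arith' s θ a κ L hs1 hθ hθ1 ha ha2 hL0.le)


end A

section B

open Pool.Agent.H246R2.RGSQ1

/-- the perfect squares, uniformly in the modulus -/
theorem SQ1u (F : ℝ → ℝ) (hF : TF F) (c : ℝ) (hc : 0 < c)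
    (s θ : ℝ) (hs : 0 < s) (hθ : 0 < θ) (κ : ℝ) (hκ : 0 < κ) :
    ∃ C : ℝ, 0 < C ∧ ∀ (q e : ℕ), Even q → q ≠ 0 → e ≠ 0 → ∀ L : ℝ, 1 ≤ L →
      ∀ (w1 w2 Q1 Q2 : ℝ → ℝ) (B1 B2 B3 B4 : ℝ),
      Wt s w1 → Wt s w2 → Wt θ Q1 → Wt θ Q2 → Bd 0 w1 B1 → Bd 0 w2 B2 → Bd 0 Q1 B3 → Bd 0 Q2 B4 →
      |(∑' a : Fin 4 → ℕ, t4c q a * w4 L w1 w2 Q1 Q2 a *
          (1 / (e : ℝ) * ESq F (c * Real.exp L / (e : ℝ) ^ 2) (∏ i, a i))) -
        (c * Real.exp L) ^ (-(1 / 2) : ℝ) * rh0 F * ∑' a : Fin 4 → ℕ, t4c q a *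
          w4 L w1 w2 Q1 Q2 a * (((∏ i, a i : ℕ).totient : ℝ) / ((∏ i, a i : ℕ) : ℝ))| ≤
        C * (e : ℝ) * B1 * B2 * B3 * B4 * Real.exp (-((1 - s - θ - κ) * L)) := by
  obtain ⟨V, hV, hesq⟩ := esq_bound F hF
  set T : ℝ := s + θ with hT
  have hT0 : 0 < T := by linarith
  set δ : ℝ := κ / (4 * (T + 1)) with hδ
  have hδ0 : 0 < δ := by positivity
  have hδT : 4 * T * δ ≤ κ := by
    rw [hδ, mul_div_assoc', div_le_iff₀ (by positivity)]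
    nlinarith
  obtain ⟨Cd, hCd, hdiv⟩ := Pool.Agent.H510R2.divisor_bound δ hδ0
  obtain ⟨Z, hZ, hrank⟩ := rankin δ hδ0
  refine ⟨V * (Cd * 2 ^ δ) / c * Z ^ 4 + 1, by positivity,
    fun q e hq hq0 he0 L hL w1 w2 Q1 Q2 B1 B2 B3 B4 h1 h2 h3 h4 b1 b2 b3 b4 => ?_⟩
  have heR : (0 : ℝ) < e := by exact_mod_cast Nat.pos_of_ne_zero he0
  have hL0 : 0 < L := by linarith
  set X : ℝ := c * Real.exp L with hX
  have hX0 : 0 < X := by positivity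
  obtain ⟨-, n1, n2, n3, n4⟩ := w4_le L w1 w2 Q1 Q2 B1 B2 B3 B4 b1 b2 b3 b4 0
  have hz := fun a => term_zero hL0 h1 h2 h3 h4 q a
  have e1 : (∑' a : Fin 4 → ℕ, t4c q a * w4 L w1 w2 Q1 Q2 a *
      (1 / (e : ℝ) * ESq F (X / (e : ℝ) ^ 2) (∏ i, a i))) =
      ∑ a ∈ Fintype.piFinset (bx s θ L),
        t4c q a * w4 L w1 w2 Q1 Q2 a * (1 / (e : ℝ) * ESq F (X / (e : ℝ) ^ 2) (∏ i, a i)) :=
    tsum_eq_sum fun a ha => by rw [hz a ha, zero_mul]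
  have e2 : (∑' a : Fin 4 → ℕ, t4c q a *
          w4 L w1 w2 Q1 Q2 a * (((∏ i, a i : ℕ).totient : ℝ) / ((∏ i, a i : ℕ) : ℝ))) =
      ∑ a ∈ Fintype.piFinset (bx s θ L), t4c q a *
          w4 L w1 w2 Q1 Q2 a * (((∏ i, a i : ℕ).totient : ℝ) / ((∏ i, a i : ℕ) : ℝ)) :=
    tsum_eq_sum fun a ha => by rw [hz a ha, zero_mul]
  rw [e1, e2, Finset.mul_sum, ← Finset.sum_sub_distrib]
  have hterm : ∀ a ∈ Fintype.piFinset (bx s θ L),
      |t4c q a * w4 L w1 w2 Q1 Q2 a * (1 / (e : ℝ) * ESq F (X / (e : ℝ) ^ 2) (∏ i, a i)) -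
        X ^ (-(1 / 2) : ℝ) * rh0 F * (t4c q a *
          w4 L w1 w2 Q1 Q2 a * (((∏ i, a i : ℕ).totient : ℝ) / ((∏ i, a i : ℕ) : ℝ)))| ≤
      (B1 * B2 * B3 * B4) * (V * (Cd * 2 ^ δ) * e / X) * ∏ i, (a i : ℝ) ^ (δ - 1 / 2) := by
    intro a ha
    have ha0 : ∀ i, a i ≠ 0 := by
      intro i
      have := (Fintype.mem_piFinset.1 ha) i
      unfold bx at this
      rw [Finset.mem_Icc] at this
      omega
    have hprod : 0 < ∏ i, a i := Finset.prod_pos fun i _ => Nat.pos_of_ne_zero (ha0 i)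
    have hpr : (0 : ℝ) < ((∏ i, a i : ℕ) : ℝ) := by exact_mod_cast hprod
    have hXe : X ^ (-(1 / 2) : ℝ) = 1 / (e : ℝ) * (X / (e : ℝ) ^ 2) ^ (-(1 / 2) : ℝ) := by
      rw [Real.div_rpow hX0.le (by positivity), ← Real.rpow_natCast, ← Real.rpow_mul heR.le]
      have : ((2 : ℕ) : ℝ) * (-(1 / 2)) = -1 := by norm_num
      rw [this, Real.rpow_neg_one]
      field_simp
    have e3 : t4c q a * w4 L w1 w2 Q1 Q2 a *
          (1 / (e : ℝ) * ESq F (X / (e : ℝ) ^ 2) (∏ i, a i)) -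
        X ^ (-(1 / 2) : ℝ) * rh0 F * (t4c q a *
          w4 L w1 w2 Q1 Q2 a * (((∏ i, a i : ℕ).totient : ℝ) / ((∏ i, a i : ℕ) : ℝ))) =
        t4c q a * (w4 L w1 w2 Q1 Q2 a * (1 / (e : ℝ) * (ESq F (X / (e : ℝ) ^ 2) (∏ i, a i) -
          (X / (e : ℝ) ^ 2) ^ (-(1 / 2) : ℝ) * rh0 F *
            (((∏ i, a i : ℕ).totient : ℝ) / ((∏ i, a i : ℕ) : ℝ))))) := by
      rw [hXe]
      ring
    rw [e3]
    by_cases hcop : ∀ i, a i ≠ 0 ∧ Nat.Coprime (a i) q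
    · have hodd : Odd (∏ i, a i) := by
        refine Nat.Coprime.odd_of_right ?_
        refine Nat.Coprime.prod_left fun i _ => ?_
        exact Nat.Coprime.coprime_dvd_right hq.two_dvd (hcop i).2
      have hE := hesq (X / (e : ℝ) ^ 2) (by positivity) _ hodd
      have hdv : ((2 * ∏ i, a i).divisors.card : ℝ) ≤
          Cd * 2 ^ δ * ((∏ i, a i : ℕ) : ℝ) ^ δ := by
        have := hdiv (2 * ∏ i, a i) (by omega)
        push_cast at this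
        rw [Real.mul_rpow (by norm_num) (by positivity), ← mul_assoc] at this
        push_cast
        exact this
      have ht := t4c_le q a ha0
      have hw := (w4_le L w1 w2 Q1 Q2 B1 B2 B3 B4 b1 b2 b3 b4 a).1
      have e4 : ∏ i, (a i : ℝ) ^ (δ - 1 / 2) =
          ((∏ i, a i : ℕ) : ℝ) ^ (-(1 / 2) : ℝ) * ((∏ i, a i : ℕ) : ℝ) ^ δ := by
        rw [← Real.rpow_add hpr, Nat.cast_prod, ← Real.finsetProd_rpow _ _ (fun i _ => by positivity)]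
        refine Finset.prod_congr rfl fun i _ => ?_
        congr 1
        ring
      rw [abs_mul, abs_mul, abs_mul, abs_of_pos (show (0 : ℝ) < 1 / (e : ℝ) by positivity), e4]
      calc _ ≤ ((∏ i, a i : ℕ) : ℝ) ^ (-(1 / 2) : ℝ) * ((B1 * B2 * B3 * B4) *
            (1 / (e : ℝ) * (V * (Cd * 2 ^ δ * ((∏ i, a i : ℕ) : ℝ) ^ δ) / (X / (e : ℝ) ^ 2)))) := by
            refine mul_le_mul ht (mul_le_mul hw (mul_le_mul_of_nonneg_left (hE.trans ?_)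
              (by positivity)) (by positivity) (by positivity))
              (by positivity) (by positivity)
            refine div_le_div_of_nonneg_right ?_ (by positivity)
            exact mul_le_mul_of_nonneg_left hdv hV
        _ = _ := by
            field_simp
    · have : t4c q a = 0 := by
        unfold t4c
        rw [if_neg hcop]
      rw [this, zero_mul, abs_zero]
      have : 0 ≤ ∏ i, (a i : ℝ) ^ (δ - 1 / 2) := Finset.prod_nonneg fun i _ => by positivity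
      positivity
  calc |∑ a ∈ Fintype.piFinset (bx s θ L), _| ≤
      ∑ a ∈ Fintype.piFinset (bx s θ L), |_| := Finset.abs_sum_le_sum_abs _ _
    _ ≤ ∑ a ∈ Fintype.piFinset (bx s θ L),
        (B1 * B2 * B3 * B4) * (V * (Cd * 2 ^ δ) * e / X) * ∏ i, (a i : ℝ) ^ (δ - 1 / 2) :=
        Finset.sum_le_sum hterm
    _ = (B1 * B2 * B3 * B4) * (V * (Cd * 2 ^ δ) * e / X) *
        ∏ i : Fin 4, ∑ x ∈ bx s θ L i, (x : ℝ) ^ (δ - 1 / 2) := by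
        rw [← Finset.mul_sum, Finset.prod_univ_sum]
    _ ≤ (B1 * B2 * B3 * B4) * (V * (Cd * 2 ^ δ) * e / X) *
        ∏ i : Fin 4, (Z * Real.exp (ln s θ i * L) ^ (1 / 2 + 2 * δ)) := by
        refine mul_le_mul_of_nonneg_left ?_ (by positivity)
        refine Finset.prod_le_prod (fun i _ => Finset.sum_nonneg fun x _ => by positivity)
          fun i _ => ?_
        exact hrank _ (Real.exp_pos _)
    _ = (B1 * B2 * B3 * B4) * (V * (Cd * 2 ^ δ) / c * Z ^ 4 * e) *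
        Real.exp (2 * T * L * (1 / 2 + 2 * δ) - L) := by
        have e5 : ∏ i : Fin 4, (Z * Real.exp (ln s θ i * L) ^ (1 / 2 + 2 * δ)) =
            Z ^ 4 * Real.exp (2 * T * L * (1 / 2 + 2 * δ)) := by
          rw [Finset.prod_mul_distrib, Finset.prod_const, Finset.card_univ, Fintype.card_fin]
          congr 1
          simp_rw [← Real.exp_mul]
          rw [← Real.exp_sum]
          congr 1
          rw [Fin.sum_univ_four]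
          simp [ln]
          ring
        rw [e5, Real.exp_sub, hX]
        have := Real.exp_pos L
        field_simp
    _ ≤ (V * (Cd * 2 ^ δ) / c * Z ^ 4 + 1) * (e : ℝ) * B1 * B2 * B3 * B4 *
        Real.exp (-((1 - s - θ - κ) * L)) := by
        have h6 : Real.exp (2 * T * L * (1 / 2 + 2 * δ) - L) ≤
            Real.exp (-((1 - s - θ - κ) * L)) := by
          refine Real.exp_le_exp.2 ?_
          have h7 := mul_le_mul_of_nonneg_right hδT hL0.le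
          rw [hT] at h7 ⊢
          nlinarith
        have h7 : V * (Cd * 2 ^ δ) / c * Z ^ 4 ≤ V * (Cd * 2 ^ δ) / c * Z ^ 4 + 1 := by linarith
        calc _ ≤ (B1 * B2 * B3 * B4) * ((V * (Cd * 2 ^ δ) / c * Z ^ 4 + 1) * e) *
              Real.exp (-((1 - s - θ - κ) * L)) := by gcongr
          _ = _ := by ring

end B

end

end Pool.Agent.N782.U
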