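import Pool.Agent.N782.UB
import Pool.Agent.N782.RI

set_option autoImplicit false

/-! The perfect squares among the multiples of an odd squarefree number (helper782; adapted from
RG_DEC of the starting files). -/

namespace Pool.Agent.N782.U

open Finset Filter Topology MeasureTheory
open Pool.Agent.H306R2.RZ Pool.Agent.H306R2.RG
open Pool.Agent.H306R2.RG.LnkA (FF1)
open Pool.Agent.N782.G2 (Fg)
open Pool.Agent.H699R2.RG_DEC (isSquare_cast summ_of js_sq)

noncomputable section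

theorem sq_dvd {e k : ℕ} (hsq : Squarefree e) (h1 : IsSquare k) (h2 : e ∣ k) :
    ∃ m : ℕ, (e * m) ^ 2 = k := by
  obtain ⟨r, rfl⟩ := h1
  have h3 : e ∣ r := (hsq.dvd_pow_iff_dvd two_ne_zero).1 (by rw [sq]; exact h2)
  obtain ⟨m, rfl⟩ := h3
  exact ⟨m, by ring⟩

theorem EA_sube (F : ℝ → ℝ) (hF : TF F) (X : ℝ) (hX : 0 < X) (n : ℕ) (hn : Odd n) (e : ℕ)
    (he : Odd e) (hsq : Squarefree e) (hne : Nat.Coprime n e) :
    (e : ℝ) * EAg (Fg (F1 1 1) e) F X (fun d => js (1 * (d : ℤ)) n) =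
      (e : ℝ) * EAg (Fg (FF1 1 1) e) F X (fun d => js (1 * (d : ℤ)) n) -
        1 / (e : ℝ) * ESq F (X / (e : ℝ) ^ 2) n := by
  classical
  have hn0 : n ≠ 0 := by rintro rfl; exact absurd hn (by decide)
  have he0 : e ≠ 0 := hsq.ne_zero
  have heR : (0 : ℝ) < e := by exact_mod_cast Nat.pos_of_ne_zero he0
  have hsquares : 1 / (e : ℝ) * ESq F (X / (e : ℝ) ^ 2) n =
      (e : ℝ) * ((∑' m : ℕ, if m.Coprime (2 * n) then F ((m : ℝ) ^ 2 / (X / (e : ℝ) ^ 2)) else 0) /
        X) := by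
    unfold ESq
    field_simp
  rw [hsquares]
  unfold EAg
  rw [← mul_sub, ← sub_div]
  congr 2
  have e1 : (∑' m : ℕ, if m.Coprime (2 * n) then F ((m : ℝ) ^ 2 / (X / (e : ℝ) ^ 2)) else 0) =
      ∑' d : ℕ, if IsSquare d ∧ e ∣ d then
        (if (1 * (d : ℤ)) % 8 = 1 then F ((d : ℝ) / X) * js (1 * (d : ℤ)) n else 0) else 0 := by
    have hinj : Function.Injective (fun m : ℕ => (e * m) ^ 2) := by
      intro a b h
      have h1 := Nat.pow_left_injective (n := 2) (by norm_num) h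
      exact Nat.eq_of_mul_eq_mul_left (Nat.pos_of_ne_zero he0) h1
    have h2 : (∑' m : ℕ, (fun d : ℕ => if IsSquare d ∧ e ∣ d then
        (if (1 * (d : ℤ)) % 8 = 1 then F ((d : ℝ) / X) * js (1 * (d : ℤ)) n else 0) else 0)
          ((e * m) ^ 2)) = ∑' d : ℕ, if IsSquare d ∧ e ∣ d then
        (if (1 * (d : ℤ)) % 8 = 1 then F ((d : ℝ) / X) * js (1 * (d : ℤ)) n else 0) else 0 := by
      refine Function.Injective.tsum_eq (f := fun d : ℕ => if IsSquare d ∧ e ∣ d then
        (if (1 * (d : ℤ)) % 8 = 1 then F ((d : ℝ) / X) * js (1 * (d : ℤ)) n else 0) else 0)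
        hinj ?_
      intro k hk
      rw [Function.mem_support] at hk
      have hsq' : IsSquare k ∧ e ∣ k := by
        by_contra hc
        exact hk (by simp [hc])
      obtain ⟨m, hm⟩ := sq_dvd hsq hsq'.1 hsq'.2
      exact ⟨m, hm⟩
    rw [← h2]
    refine tsum_congr fun m => ?_
    have hsq' : IsSquare ((e * m) ^ 2) ∧ e ∣ (e * m) ^ 2 :=
      ⟨⟨e * m, sq _⟩, (dvd_mul_right e m).trans (dvd_pow_self _ two_ne_zero)⟩
    simp only [if_pos hsq']
    rw [js_sq (e * m) n hn0]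
    have hmod : ((1 * (((e * m) ^ 2 : ℕ) : ℤ)) % 8 = 1) ↔ m.Coprime 2 := by
      have h0 : m.Coprime 2 ↔ Odd (e * m) := by
        rw [Nat.coprime_two_right, Nat.odd_mul]
        exact ⟨fun h => ⟨he, h⟩, fun h => h.2⟩
      rw [h0]
      set k := e * m with hk
      rw [one_mul]
      push_cast
      rw [sq]
      have h : k % 8 = 0 ∨ k % 8 = 1 ∨ k % 8 = 2 ∨ k % 8 = 3 ∨ k % 8 = 4 ∨ k % 8 = 5 ∨ k % 8 = 6 ∨
        k % 8 = 7 := by omega
      rw [Nat.odd_iff, Int.mul_emod]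
      rcases h with h | h | h | h | h | h | h | h <;>
        (have h' : (k : ℤ) % 8 = ((k % 8 : ℕ) : ℤ) := by omega
         rw [h', h]
         constructor
         · intro h5
           first
             | omega
             | (exfalso; revert h5; norm_num)
         · intro h5
           first
             | omega
             | norm_num)
    have hval : ((e * m : ℕ) : ℝ) ^ 2 / X = (m : ℝ) ^ 2 / (X / (e : ℝ) ^ 2) := by
      push_cast
      field_simp
    have hcop : (e * m).Coprime n ↔ m.Coprime n := by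
      rw [Nat.coprime_mul_iff_left]
      exact ⟨fun h => h.2, fun h => ⟨hne.symm, h⟩⟩
    by_cases h3 : m.Coprime 2
    · rw [if_pos (hmod.2 h3)]
      by_cases h4 : m.Coprime n
      · rw [if_pos (Nat.Coprime.mul_right h3 h4), if_pos (hcop.2 h4), mul_one, ← hval]
        push_cast
        rfl
      · rw [if_neg (fun h => h4 (Nat.Coprime.coprime_mul_left_right h)),
          if_neg (fun h => h4 (hcop.1 h)), mul_zero]
    · rw [if_neg (fun h => h3 (hmod.1 h)),
        if_neg (fun h => h3 (Nat.Coprime.coprime_mul_right_right h))]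
  rw [e1]
  have hs0 := summ_of F hF X hX (fun d => js (1 * (d : ℤ)) n)
  have hsA : ∀ (P : ℕ → Prop) [DecidablePred P],
      Summable (fun d : ℕ => if P d then F ((d : ℝ) / X) * js (1 * (d : ℤ)) n else 0) := by
    intro P _
    refine Summable.of_norm_bounded hs0.norm fun d => ?_
    split_ifs
    · exact le_rfl
    · rw [norm_zero]; exact norm_nonneg _
  have hs1 : Summable (fun d : ℕ => if (Fg (FF1 1 1) e).A d then
      F ((d : ℝ) / X) * js (1 * (d : ℤ)) n else 0) := hsA _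
  have hs2 : Summable (fun d : ℕ => if IsSquare d ∧ e ∣ d then
      (if (1 * (d : ℤ)) % 8 = 1 then F ((d : ℝ) / X) * js (1 * (d : ℤ)) n else 0) else 0) := by
    refine Summable.of_norm_bounded hs0.norm fun d => ?_
    split_ifs
    · exact le_rfl
    · rw [norm_zero]; exact norm_nonneg _
    · rw [norm_zero]; exact norm_nonneg _
  rw [← hs1.tsum_sub hs2]
  refine tsum_congr fun d => ?_
  have hA1 : (Fg (F1 1 1) e).A d ↔ (((1 * (d : ℤ)) % 8 = 1 ∧ ¬ IsSquare (1 * (d : ℤ))) ∧ e ∣ d) :=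
    Iff.rfl
  have hA2 : (Fg (FF1 1 1) e).A d ↔ ((1 * (d : ℤ)) % 8 = 1 ∧ e ∣ d) := Iff.rfl
  have hA3 := isSquare_cast d
  by_cases h5 : (1 * (d : ℤ)) % 8 = 1
  · simp only [if_pos h5]
    by_cases h7 : e ∣ d
    · rw [if_pos (hA2.2 ⟨h5, h7⟩)]
      by_cases h6 : IsSquare d
      · rw [if_neg (fun h => (hA1.1 h).1.2 (hA3.2 h6)), if_pos ⟨h6, h7⟩, sub_self]
      · rw [if_pos (hA1.2 ⟨⟨h5, fun h => h6 (hA3.1 h)⟩, h7⟩), if_neg (fun h => h6 h.1), sub_zero]
    · rw [if_neg (fun h => h7 (hA1.1 h).2), if_neg (fun h => h7 (hA2.1 h).2),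
        if_neg (fun h => h7 h.2), sub_zero]
  · rw [if_neg (fun h => h5 (hA2.1 h).1), if_neg (fun h => h5 (hA1.1 h).1.1)]
    simp only [if_neg h5]
    split_ifs <;> simp

/-- a crude bound -/
theorem ESq_le (F : ℝ → ℝ) (hF : TF F) : ∃ C : ℝ, 0 < C ∧ ∀ X : ℝ, 0 < X → ∀ n : ℕ,
    ∀ e : ℕ, e ≠ 0 → |1 / (e : ℝ) * ESq F (X / (e : ℝ) ^ 2) n| ≤ C * X ^ (-(1 / 2) : ℝ) := by
  classical
  obtain ⟨R, hR1, hR⟩ := Pool.Agent.H246R2.RGSQ1.TF_R F hF
  obtain ⟨B, hB⟩ := hF.cpt.exists_bound_of_continuous hF.smooth.continuous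
  have hB0 : 0 ≤ B := (norm_nonneg _).trans (hB 0)
  refine ⟨B * Real.sqrt R + 1, by positivity, ?_⟩
  intro X hX n e he0
  have heR : (0 : ℝ) < e := by exact_mod_cast Nat.pos_of_ne_zero he0
  set Y : ℝ := X / (e : ℝ) ^ 2 with hY
  have hY0 : 0 < Y := by positivity
  have h1 : |∑' m : ℕ, if m.Coprime (2 * n) then F ((m : ℝ) ^ 2 / Y) else 0| ≤
      B * Real.sqrt (R * Y) := by
    set M : ℕ := ⌊Real.sqrt (R * Y)⌋₊ with hM
    rw [tsum_eq_sum (s := Icc 1 M)]
    · calc |∑ m ∈ Icc 1 M, if m.Coprime (2 * n) then F ((m : ℝ) ^ 2 / Y) else 0|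
          ≤ ∑ m ∈ Icc 1 M, |if m.Coprime (2 * n) then F ((m : ℝ) ^ 2 / Y) else 0| :=
            Finset.abs_sum_le_sum_abs _ _
        _ ≤ ∑ m ∈ Icc 1 M, B := by
            refine Finset.sum_le_sum fun m _ => ?_
            split_ifs
            · exact hB _
            · rw [abs_zero]; exact hB0
        _ = M * B := by
            rw [Finset.sum_const, Nat.card_Icc, nsmul_eq_mul]
            simp
        _ ≤ Real.sqrt (R * Y) * B :=
            mul_le_mul_of_nonneg_right (Nat.floor_le (Real.sqrt_nonneg _)) hB0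
        _ = _ := mul_comm _ _
    · intro m hm
      rw [Finset.mem_Icc, not_and_or, not_le, not_le] at hm
      split_ifs
      · rcases hm with hm | hm
        · have : m = 0 := by omega
          rw [this, Nat.cast_zero, zero_pow two_ne_zero, zero_div]
          exact Pool.Agent.H246R2.RGSQ1.TF_0 F hF
        · apply hR
          have h3 : Real.sqrt (R * Y) < m := by
            rw [hM, Nat.floor_lt (Real.sqrt_nonneg _)] at hm
            exact hm
          rw [abs_of_nonneg (by positivity), le_div_iff₀ hY0]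
          have h4 := Real.lt_sq_of_sqrt_lt h3
          exact h4.le
      · rfl
  have h2 : ESq F Y n = (∑' m : ℕ, if m.Coprime (2 * n) then F ((m : ℝ) ^ 2 / Y) else 0) / Y := rfl
  rw [h2, abs_mul, abs_of_pos (show (0 : ℝ) < 1 / (e : ℝ) by positivity), abs_div, abs_of_pos hY0]
  have h3 : Real.sqrt (R * Y) = Real.sqrt R * (Real.sqrt X / e) := by
    rw [Real.sqrt_mul (by linarith), hY, Real.sqrt_div hX.le, Real.sqrt_sq heR.le]
  have h4 : X ^ (-(1 / 2) : ℝ) = Real.sqrt X / X := by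
    have hs : 0 < Real.sqrt X := Real.sqrt_pos.2 hX
    rw [Real.rpow_neg hX.le, ← Real.sqrt_eq_rpow, eq_div_iff hX.ne']
    field_simp
    exact (Real.sq_sqrt hX.le).symm
  calc 1 / (e : ℝ) * (|∑' m : ℕ, if m.Coprime (2 * n) then F ((m : ℝ) ^ 2 / Y) else 0| / Y)
      ≤ 1 / (e : ℝ) * (B * Real.sqrt (R * Y) / Y) := by gcongr
    _ = B * Real.sqrt R * (Real.sqrt X / X) := by
        rw [h3, hY]
        field_simp
    _ ≤ (B * Real.sqrt R + 1) * (Real.sqrt X / X) := by
        apply mul_le_mul_of_nonneg_right _ (by positivity)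
        linarith
    _ = _ := by rw [h4]

end

end Pool.Agent.N782.U
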