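import Pool.Agent.N782.UC
import Pool.Agent.H423R2.RGL.S5r
import Pool.Agent.H423R2.RGL.EHP
import Pool.Agent.H614R2.RG_UBr

set_option autoImplicit false

/-! The squares for the family with the pole, uniformly in the modulus (helper782). -/

namespace Pool.Agent.N782.U

open Finset Filter Topology MeasureTheory
open Pool.Agent.H306R2.RZ Pool.Agent.H306R2.RG
open Pool.Agent.N782.SU (Cqf Cqf_pos S4Gu)
open Pool.Agent.N782.KW Pool.Agent.N782.EW Pool.Agent.N782.LX Pool.Agent.N782.KV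
open Pool.Agent.N782.GA (AdmV)
open Pool.Agent.N782.FW (Cqf_le)
open Pool.Agent.H317R2.RG (Bd_mono Bd_nonneg Wt_mono)
open Pool.Agent.H614R2.RGUBr (T2mg_lin T2dg_lin HPh_lin)

noncomputable section

theorem sqB1 (F : ℝ → ℝ) (hF : TF F) (H : ℂ → ℂ) (z : ℝ) (hH : HP H z) (c : ℝ) (hc : 0 < c)
    (s θ s' : ℝ) (hA : AdmV s θ s') :
    ∃ (C η a : ℝ) (k : ℕ), 0 < C ∧ 0 < η ∧ 0 < a ∧ a ≤ 1 / 8 ∧
      ∀ L : ℝ, 4 ≤ L → ∀ (w1 w2 Q1 Q2 : ℝ → ℝ)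
      (B1 B2 B3 B4 : ℝ), Wt s w1 → Wt s w2 → Wt θ Q1 → Wt θ Q2 →
      Bd k w1 B1 → Bd k w2 B2 → Bd k Q1 B3 → Bd k Q2 B4 →
      ∀ e : ℕ, Odd e → Squarefree e → (e : ℝ) ≤ Real.exp (2 * s' * L) →
      ‖(∑' a' : Fin 4 → ℕ, ((t4c (2 * e) a' * w4 L w1 w2 Q1 Q2 a' : ℝ) : ℂ) *
        Dsg (fun s => H s + (rh0 F : ℂ) * Eh s) (c * Real.exp L) (∏ i, a' i) (1 / 2 + a)) -
        (M2e H c L w1 w2 Q1 Q2 e + M2e H c L w2 w1 Q2 Q1 e - M5e H c L w1 w2 Q1 Q2 e) -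
        (rh0 F : ℂ) * (M2e Eh c L w1 w2 Q1 Q2 e + M2e Eh c L w2 w1 Q2 Q1 e -
          M5e Eh c L w1 w2 Q1 Q2 e) -
        ((∑' a' : Fin 4 → ℕ, t4c (2 * e) a' * w4 L w1 w2 Q1 Q2 a' *
          (1 / (e : ℝ) * ESq F (c * Real.exp L / (e : ℝ) ^ 2) (∏ i, a' i)) : ℝ) : ℂ)‖ ≤
          C * (B1 * B2 * B3 * B4) * Real.exp (-(η * L)) := by
  obtain ⟨hHl, hHh⟩ := Pool.Agent.H306R2.RG.LnkA.HPw H _ hH
  obtain ⟨hEl, hEh⟩ := Pool.Agent.H306R2.RG.LnkA.EHP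
  have hs := hA.hs
  have hθ := hA.hθ
  have hθ1 := hA.hθ1
  have hs1 := hA.hs1
  have hs' := hA.hs'
  have hm := hA.m1
  obtain ⟨η, hηd⟩ : ∃ η : ℝ, η = (1 - s - θ - 2 * s') / 4 := ⟨_, rfl⟩
  have hη : 0 < η := by rw [hηd]; linarith
  have hη1 : η ≤ 1 := by rw [hηd]; linarith
  have hη2 : 2 * s' + θ - 1 / 2 ≤ -(4 * η) := by rw [hηd]; linarith
  have hs2 : s' ≤ 1 / 4 := by linarith
  obtain ⟨C4, a, hC4, ha, ha1, h4⟩ := S4Gu _ (HPh_lin H Eh hHh hEh ((rh0 F : ℝ) : ℂ)) c hc s θ hs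
    hs1 hθ hθ1 η hη
  obtain ⟨C5, hC5, h5⟩ := RESgu c hc s θ hA.toAdm2 η hη
  obtain ⟨C6, hC6, h6⟩ := SQ1u F hF c hc s θ (by linarith) hθ η hη
  obtain ⟨Cq, hCq, hq⟩ := Cqf_le η hη
  refine ⟨C4 * Cq + |rh0 F| * (C5 * Cq) + C6, η, a, 1, by positivity, hη, ha, ha1, ?_⟩
  intro L hL w1 w2 Q1 Q2 B1 B2 B3 B4 hw1 hw2 hQ1 hQ2 d1 d2 d3 d4 e he hsq hle
  have hL0 : 0 < L := by linarith
  have he0 : e ≠ 0 := hsq.ne_zero
  have hepos : 0 < e := Nat.pos_of_ne_zero he0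
  have heR : (1 : ℝ) ≤ e := by exact_mod_cast hepos
  have hθs : θ ≤ s := by linarith
  have hQ1' := Wt_mono hQ1 hθs
  have hQ2' := Wt_mono hQ2 hθs
  have hX : 0 < c * Real.exp L := by positivity
  have hq0 : 2 * e ≠ 0 := Nat.mul_ne_zero two_ne_zero he0
  have hqe : Even (2 * e) := even_two_mul e
  have b1 := Bd_nonneg d1
  have b2 := Bd_nonneg d2
  have b3 := Bd_nonneg d3
  have b4 := Bd_nonneg d4
  set B : ℝ := B1 * B2 * B3 * B4 with hB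
  have hB0 : 0 ≤ B := by positivity
  have e4 := h4 (2 * e) hq0 L (by linarith) w1 w2 Q1 Q2 B1 B2 B3 B4 hw1 hw2 hQ1 hQ2 d1 d2 d3 d4
  have e5 := h5 (2 * e) hq0 L (by linarith) w1 w2 Q1 Q2 B1 B2 B3 B4 hw1 hw2 hQ1 hQ2 d1 d2 d3 d4
  have e6 := h6 (2 * e) e hqe hq0 he0 L (by linarith) w1 w2 Q1 Q2 B1 B2 B3 B4 hw1 hw2 hQ1 hQ2
    (Bd_mono d1 (Nat.zero_le 1)) (Bd_mono d2 (Nat.zero_le 1)) (Bd_mono d3 (Nat.zero_le 1))
    (Bd_mono d4 (Nat.zero_le 1))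
  have hσ1 : (0 : ℝ) < 1 / L := by positivity
  have hσh : 1 / L < 1 / 2 := by
    apply one_div_lt_one_div_of_lt (by norm_num)
    linarith
  have hσ : 1 / L ≤ 1 / 2 + a := by linarith
  have hsa : (1 : ℝ) / 2 < 1 / 2 + a := by linarith
  have hsb : (1 : ℝ) / 2 + a ≤ 1 := by linarith
  obtain ⟨f1, f1d⟩ := Pool.Agent.H306R2.RG.LnkA.S5G H _ hH (c * Real.exp L) hX (2 * e) hq0 L hL0 s
    w1 w2 Q1 Q2 hw1 hw2 hQ1' hQ2' (1 / 2 + a) (1 / L) hσ1 hσ hsb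
  obtain ⟨f2, -⟩ := Pool.Agent.H306R2.RG.LnkA.S5G H _ hH (c * Real.exp L) hX (2 * e) hq0 L hL0 s
    w2 w1 Q2 Q1 hw2 hw1 hQ2' hQ1' (1 / 2 + a) (1 / L) hσ1 hσ hsb
  obtain ⟨g1, g1d⟩ := Pool.Agent.H306R2.RG.LnkA.S5r (c * Real.exp L) hX (2 * e) hq0 L hL0 s
    w1 w2 Q1 Q2 hw1 hw2 hQ1' hQ2' (1 / 2 + a) (1 / L) hσ1 hσh hsa hsb
  obtain ⟨g2, -⟩ := Pool.Agent.H306R2.RG.LnkA.S5r (c * Real.exp L) hX (2 * e) hq0 L hL0 s
    w2 w1 Q2 Q1 hw2 hw1 hQ2' hQ1' (1 / 2 + a) (1 / L) hσ1 hσh hsa hsb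
  rw [T2mg_lin H Eh hHh hEh ((rh0 F : ℝ) : ℂ) hX (2 * e) hL0 hw1 hw2 hQ1' hQ2' (1 / 2 + a) hsa hsb,
    T2mg_lin H Eh hHh hEh ((rh0 F : ℝ) : ℂ) hX (2 * e) hL0 hw2 hw1 hQ2' hQ1' (1 / 2 + a) hsa hsb,
    T2dg_lin H Eh hHh hEh ((rh0 F : ℝ) : ℂ) hX (2 * e) hq0 hL0 hw1 hw2 hQ1' hQ2' (1 / 2 + a) hsa
      hsb, f1, f2, f1d, g1, g2, g1d] at e4
  -- the dependence on the modulus
  have hle1 : (e : ℝ) ^ η ≤ Real.exp (η * L) := by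
    calc (e : ℝ) ^ η ≤ (Real.exp (2 * s' * L)) ^ η := by gcongr
      _ = Real.exp (2 * s' * L * η) := by rw [← Real.exp_mul]
      _ ≤ Real.exp (η * L) := Real.exp_le_exp.2 (by nlinarith [mul_pos hη hL0])
  have hqf := hq e he hsq
  have hbd : ∀ K : ℝ, 0 < K → K * Cqf (2 * e) * B1 * B2 * B3 * B4 *
      Real.exp (-((1 / 2 - θ - η) * L)) ≤ (K * Cq) * B * Real.exp (-(η * L)) := by
    intro K hK
    calc K * Cqf (2 * e) * B1 * B2 * B3 * B4 * Real.exp (-((1 / 2 - θ - η) * L))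
        = K * Cqf (2 * e) * B * Real.exp (-((1 / 2 - θ - η) * L)) := by rw [hB]; ring
      _ ≤ K * (Cq * (e : ℝ) * (e : ℝ) ^ η) * B * Real.exp (-((1 / 2 - θ - η) * L)) := by gcongr
      _ ≤ K * (Cq * Real.exp (2 * s' * L) * Real.exp (η * L)) * B *
            Real.exp (-((1 / 2 - θ - η) * L)) := by gcongr
      _ = K * Cq * B * Real.exp (2 * s' * L + η * L + -((1 / 2 - θ - η) * L)) := by
          rw [Real.exp_add, Real.exp_add]; ring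
      _ ≤ _ := by
          gcongr
          nlinarith
  have e4' := e4.trans (hbd C4 hC4)
  have e5' := e5.trans (hbd C5 hC5)
  have e6' : _ ≤ C6 * B * Real.exp (-(η * L)) := e6.trans (by
    calc C6 * (e : ℝ) * B1 * B2 * B3 * B4 * Real.exp (-((1 - s - θ - η) * L))
        = C6 * (e : ℝ) * B * Real.exp (-((1 - s - θ - η) * L)) := by rw [hB]; ring
      _ ≤ C6 * Real.exp (2 * s' * L) * B * Real.exp (-((1 - s - θ - η) * L)) := by gcongr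
      _ = C6 * B * Real.exp (2 * s' * L + -((1 - s - θ - η) * L)) := by
          rw [Real.exp_add]; ring
      _ ≤ _ := by
          have : 2 * s' + s + θ = 1 - 4 * η := by rw [hηd]; ring
          gcongr
          nlinarith)
  have hfin : ∀ (T E R : ℂ) (S : ℝ), T = E + (rh0 F : ℂ) * R - (S : ℂ) →
      ‖E‖ ≤ (C4 * Cq) * B * Real.exp (-(η * L)) → ‖R‖ ≤ (C5 * Cq) * B * Real.exp (-(η * L)) →
      |S| ≤ C6 * B * Real.exp (-(η * L)) →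
      ‖T‖ ≤ (C4 * Cq + |rh0 F| * (C5 * Cq) + C6) * B * Real.exp (-(η * L)) := by
    intro T E R S hT hE hR hS
    rw [hT]
    calc ‖E + (rh0 F : ℂ) * R - (S : ℂ)‖ ≤ ‖E‖ + |rh0 F| * ‖R‖ + |S| := by
          refine (norm_sub_le _ _).trans ?_
          rw [Complex.norm_real, Real.norm_eq_abs]
          gcongr
          refine (norm_add_le _ _).trans ?_
          rw [norm_mul, Complex.norm_real, Real.norm_eq_abs]
      _ ≤ (C4 * Cq) * B * Real.exp (-(η * L)) + |rh0 F| * ((C5 * Cq) * B * Real.exp (-(η * L))) +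
          C6 * B * Real.exp (-(η * L)) := by gcongr
      _ = _ := by ring
  refine hfin _ _ _ _ ?_ e4' e5' e6'
  unfold M2e M5e
  push_cast
  ring

end

end Pool.Agent.N782.U
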