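import Pool.Agent.N782.UD

set_option autoImplicit false

/-! The error terms for the family `d` congruent to one modulo eight (helper782). -/

namespace Pool.Agent.N782.U

open Finset Filter Topology MeasureTheory Pool.Agent.N782.LX Pool.Agent.N782.EW Pool.Agent.N782.KW
open Pool.Agent.H306R2.RZ Pool.Agent.H306R2.RG Pool.Agent.N782.SU
open Pool.Agent.N782.KV
open Pool.Agent.N782.RB (bg bg_abs bg_ne)
open Pool.Agent.N782.GA (AdmV)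
open Pool.Agent.N782.G2
open Pool.Agent.N782.FW (lam Wd Wd_expand EAg_congr Cqf_le pow_exp SW_one SW_small)
open Pool.Agent.H317R2.RG (summR summC t1_t4 odd_prod t4_ne Bd_mono Bd_nonneg Wt_mono wt_bd swapI)
open Pool.Agent.H884R2.RG (TOg_eq kf_abs)
open Pool.Agent.H423R2.RZL.LIM1n (main_part wt_bdd cf_abs floor_exp_le odd_of_coprime abs_Gk_le)
open Pool.Agent.H306R2.RG.LnkA (bb1 bb2 FF1 gz Fme FE3)
open Pool.Agent.H699R2.RG_DEC (gz_half)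

noncomputable section

/-- Poisson summation for the family with the squares -/
theorem hP11 : PGf (FF1 1 1) bb1 bb2 (((1 : ℤ) : ℝ) / 4) (((1 : ℤ) : ℝ) / 8) (1 / 8)
    ((FF1 1 1).η * Real.sqrt 2 / 8) := PG1f 1 1 (Or.inl rfl) (Or.inl rfl)

/-- the squares on the dual side -/
theorem hS11 (F : ℝ → ℝ) (hF : TF F) : ∃ H : ℂ → ℂ,
    HP H (-((F1 1 1).δ / 2 * Ft F 0)) ∧
      SqP F bb1 bb2 (((1 : ℤ) : ℝ) / 4) (((1 : ℤ) : ℝ) / 8) (1 / 8)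
        ((FF1 1 1).η * Real.sqrt 2 / 8) (fun s => H s + (rh0 F : ℂ) * Eh s) := by
  obtain ⟨H, hH, hS⟩ := Sq1 1 1 (Or.inl rfl) F hF
  refine ⟨H, hH, ?_⟩
  have hη : (FF1 1 1).η = 1 := by
    show (if (1 : ℤ) = 1 then (1 : ℝ) else -1) = 1
    norm_num
  have hg : gz (FF1 1 1).η (1 / 2) * Fme 1 F (1 / 2) / 2 = (rh0 F : ℂ) := by
    rw [hη, gz_half, (FE3 F hF).2]
    push_cast
    ring
  rw [hg] at hS
  exact hS

/-- the removed squares -/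
def Rsq (F : ℝ → ℝ) (X : ℝ) (e n : ℕ) : ℝ := 1 / (e : ℝ) * ESq F (X / (e : ℝ) ^ 2) n

theorem dec11 {F : ℝ → ℝ} (hF : TF F) {H : ℂ → ℂ}
    (hS : SqP F bb1 bb2 (((1 : ℤ) : ℝ) / 4) (((1 : ℤ) : ℝ) / 8) (1 / 8)
        ((FF1 1 1).η * Real.sqrt 2 / 8) (fun s => H s + (rh0 F : ℂ) * Eh s)) {e : ℕ} (he : Odd e)
    (hsq : Squarefree e) {X : ℝ} (hX : 0 < X) {n : ℕ} (hn : Odd n) (hc : Nat.Coprime n e)
    {σ0 : ℝ} (h0 : 1 / 2 < σ0) (h1 : σ0 ≤ 1) :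
    (((e : ℝ) * EAg (Fg (F1 1 1) e) F X (fun d => js ((F1 1 1).e * (d : ℤ)) n) : ℝ) : ℂ) =
        (((F1 1 1).δ * Ft F 0 * (if IsSquare n then (n.totient : ℝ) / n else 0) : ℝ) : ℂ) +
        Dsg (fun s => H s + (rh0 F : ℂ) * Eh s) X n σ0 +
        ((1 / 8 * Dng F (bg bb1 e) (((1 : ℤ) : ℝ) / 4 / (e : ℝ) ^ 2) X n +
          (FF1 1 1).η * Real.sqrt 2 / 8 * Dng F (bg bb2 e) (((1 : ℤ) : ℝ) / 8 / (e : ℝ) ^ 2) X n -
          Rsq F X e n : ℝ) : ℂ) := by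
  have e1 : (e : ℝ) * EAg (Fg (F1 1 1) e) F X (fun d => js ((F1 1 1).e * (d : ℤ)) n) =
      (e : ℝ) * EAg (Fg (FF1 1 1) e) F X (fun d => js ((FF1 1 1).e * (d : ℤ)) n) - Rsq F X e n :=
    EA_sube F hF X hX n hn e he hsq hc
  rw [e1, Complex.ofReal_sub, dec_of hP11 hF hS he hsq hX hn hc h0 h1]
  have hδ : (F1 1 1).δ = (FF1 1 1).δ := rfl
  rw [hδ]
  push_cast
  ring

/-- the second moment -/
theorem er2_11 (F : ℝ → ℝ) (hF : TF F) (c : ℝ) (hc : 0 < c) (s θ s' : ℝ) (hA : AdmV s θ s')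
    (P : ℝ → ℝ) (hPs : Wt s' P) :
    ∃ H : ℂ → ℂ, HP H (-((F1 1 1).δ / 2 * Ft F 0)) ∧
      (∃ (C : ℝ) (k : ℕ), 0 < C ∧ ∀ L : ℝ, 4 ≤ L → ∀ (w1 w2 Q1 Q2 : ℝ → ℝ)
        (B1 B2 B3 B4 : ℝ), Wt s w1 → Wt s w2 → Wt θ Q1 → Wt θ Q2 →
        Bd k w1 B1 → Bd k w2 B2 → Bd k Q1 B3 → Bd k Q2 B4 →
        ‖Er2 (F1 1 1) F H c P L w1 w2 Q1 Q2‖ ≤ C * (B1 * B2 * B3 * B4)) ∧
      ∀ (w1 w2 Q1 Q2 : ℝ → ℝ), Wt s w1 → Wt s w2 → Wt θ Q1 → Wt θ Q2 →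
        Tendsto (fun L : ℝ => Er2 (F1 1 1) F H c P L w1 w2 Q1 Q2) atTop (𝓝 0) := by
  obtain ⟨H, hH, hSq⟩ := hS11 F hF
  obtain ⟨g2, hg2⟩ : ∃ g2 : ℝ, g2 = (FF1 1 1).η * Real.sqrt 2 / 8 := ⟨_, rfl⟩
  obtain ⟨c1, hc1⟩ : ∃ c1 : ℝ, c1 = ((1 : ℤ) : ℝ) / 4 := ⟨_, rfl⟩
  obtain ⟨c2, hc2⟩ : ∃ c2 : ℝ, c2 = ((1 : ℤ) : ℝ) / 8 := ⟨_, rfl⟩
  have hP := hP11
  rw [← hg2, ← hc1, ← hc2] at hP
  obtain ⟨BP, hBP⟩ := wt_bd s' P hPs 4
  have hBP0 := Bd_mono hBP (Nat.zero_le 4)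
  have hs1 := hA.hs1
  have hs' := hA.hs'
  have hs8 : s' ≤ 1 := by
    have h1 := hA.hs
    have h2 := hA.hθ
    have h3 := hA.m1
    linarith
  have hθs : θ ≤ s := by linarith [hA.hs, hA.hθ1]
  obtain ⟨hEl, hEh⟩ := Pool.Agent.H306R2.RG.LnkA.EHP
  obtain ⟨⟨E2, m2, hE2, u2⟩, l2⟩ := MW2 s' P hPs BP hBP Eh 0 hEl c hc s hs1
  obtain ⟨⟨E5, m5, hE5, u5⟩, l5⟩ := MW5 s' P hPs BP hBP Eh 0 hEl c hc s hs1
  obtain ⟨Ca, η0, a, ka, hCa, hη0, ha, ha1, hsq⟩ := sqB1 F hF H _ hH c hc s θ s' hA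
  obtain ⟨C1, η1, k1, hC1, hη1, hn1⟩ := ngB F hF c hc s θ s' hA P hPs BP hBP0 bb1 hP.hb1 c1
    hP.hc1.1 hP.hc1.2
  obtain ⟨C2, η2, k2, hC2, hη2, hn2⟩ := ngB F hF c hc s θ s' hA P hPs BP hBP0 bb2 hP.hb2 c2
    hP.hc2.1 hP.hc2.2
  obtain ⟨η, hη, e0, e1, e2⟩ : ∃ η : ℝ, 0 < η ∧ η ≤ η0 ∧ η ≤ η1 ∧ η ≤ η2 :=
    ⟨min η0 (min η1 η2), by positivity, min_le_left _ _,
      (min_le_right _ _).trans (min_le_left _ _), (min_le_right _ _).trans (min_le_right _ _)⟩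
  obtain ⟨C', hC', hp⟩ := pow_exp (η / 2) (by positivity)
  -- the part with the pole
  set EE : ℝ → (ℝ → ℝ) → (ℝ → ℝ) → (ℝ → ℝ) → (ℝ → ℝ) → ℂ := fun L w1 w2 Q1 Q2 =>
    (rh0 F : ℂ) * ((L : ℂ) * SW P L (M2e Eh c L w1 w2 Q1 Q2) +
      (L : ℂ) * SW P L (M2e Eh c L w2 w1 Q2 Q1) - (L : ℂ) * SW P L (M5e Eh c L w1 w2 Q1 Q2)) with hEE
  have key : ∃ (C : ℝ) (k : ℕ), 0 < C ∧ ∀ L : ℝ, 4 ≤ L → ∀ (w1 w2 Q1 Q2 : ℝ → ℝ)
      (B1 B2 B3 B4 : ℝ), Wt s w1 → Wt s w2 → Wt θ Q1 → Wt θ Q2 →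
      Bd k w1 B1 → Bd k w2 B2 → Bd k Q1 B3 → Bd k Q2 B4 →
      ‖Er2 (F1 1 1) F H c P L w1 w2 Q1 Q2 - EE L w1 w2 Q1 Q2‖ ≤
        C * (B1 * B2 * B3 * B4) * Real.exp (-(η / 2 * L)) := by
    refine ⟨((BP ^ 2 + 1) * Ca + |(1 / 8 : ℝ)| * C1 + |g2| * C2) * C', ka ⊔ k1 ⊔ k2,
      by positivity, ?_⟩
    intro L hL w1 w2 Q1 Q2 B1 B2 B3 B4 hw1 hw2 hQ1 hQ2 d1 d2 d3 d4
    have hL0 : 0 < L := by linarith
    have b1' := Bd_nonneg d1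
    have b2' := Bd_nonneg d2
    have b3' := Bd_nonneg d3
    have b4' := Bd_nonneg d4
    have ma : ka ≤ ka ⊔ k1 ⊔ k2 := le_sup_left.trans le_sup_left
    have m1 : k1 ≤ ka ⊔ k1 ⊔ k2 := le_sup_right.trans le_sup_left
    have m2 : k2 ≤ ka ⊔ k1 ⊔ k2 := le_sup_right
    set B : ℝ := B1 * B2 * B3 * B4 with hB
    have hB0 : 0 ≤ B := by positivity
    have hQ1' := Wt_mono hQ1 hθs
    have hQ2' := Wt_mono hQ2 hθs
    have hX : 0 < c * Real.exp L := by positivity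
    set A0 : ℕ → ℂ := fun e => (∑' a' : Fin 4 → ℕ, ((t4c (2 * e) a' * w4 L w1 w2 Q1 Q2 a' : ℝ) : ℂ) *
        Dsg (fun s => H s + (rh0 F : ℂ) * Eh s) (c * Real.exp L) (∏ i, a' i) (1 / 2 + a)) -
        (M2e H c L w1 w2 Q1 Q2 e + M2e H c L w2 w1 Q2 Q1 e - M5e H c L w1 w2 Q1 Q2 e) -
        (rh0 F : ℂ) * (M2e Eh c L w1 w2 Q1 Q2 e + M2e Eh c L w2 w1 Q2 Q1 e -
          M5e Eh c L w1 w2 Q1 Q2 e) -
        ((∑' a' : Fin 4 → ℕ, t4c (2 * e) a' * w4 L w1 w2 Q1 Q2 a' *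
          (1 / (e : ℝ) * ESq F (c * Real.exp L / (e : ℝ) ^ 2) (∏ i, a' i)) : ℝ) : ℂ) with hA0
    have hdec : SW P L (fun e => (((e : ℝ) * TTg (Fg (F1 1 1) e) F (c * Real.exp L) (2 * e) L w1 Q1
        w2 Q2 : ℝ) : ℂ) - Mn (F1 1 1).δ F H c L w1 w2 Q1 Q2 e) = SW P L A0 +
        ((rh0 F : ℂ) * (SW P L (M2e Eh c L w1 w2 Q1 Q2) + (SW P L (M2e Eh c L w2 w1 Q2 Q1) +
          (-1) * SW P L (M5e Eh c L w1 w2 Q1 Q2))) +
        (((1 / 8 : ℝ) : ℂ) * SW P L (fun e =>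
          ((Dn F bb1 c1 (c * Real.exp L) L w1 w2 Q1 Q2 e : ℝ) : ℂ)) +
        (g2 : ℂ) * SW P L (fun e =>
          ((Dn F bb2 c2 (c * Real.exp L) L w1 w2 Q1 Q2 e : ℝ) : ℂ)))) := by
      have hR : SW P L (fun e => A0 e + ((rh0 F : ℂ) * (M2e Eh c L w1 w2 Q1 Q2 e +
          (M2e Eh c L w2 w1 Q2 Q1 e + (-1) * M5e Eh c L w1 w2 Q1 Q2 e)) +
          (((1 / 8 : ℝ) : ℂ) * ((Dn F bb1 c1 (c * Real.exp L) L w1 w2 Q1 Q2 e : ℝ) : ℂ) +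
          (g2 : ℂ) * ((Dn F bb2 c2 (c * Real.exp L) L w1 w2 Q1 Q2 e : ℝ) : ℂ)))) = _ :=
        SW_add hPs hL0 _ _
      rw [SW_add hPs hL0 (fun e => (rh0 F : ℂ) * (M2e Eh c L w1 w2 Q1 Q2 e +
          (M2e Eh c L w2 w1 Q2 Q1 e + (-1) * M5e Eh c L w1 w2 Q1 Q2 e)))
          (fun e => ((1 / 8 : ℝ) : ℂ) * ((Dn F bb1 c1 (c * Real.exp L) L w1 w2 Q1 Q2 e : ℝ) : ℂ) +
          (g2 : ℂ) * ((Dn F bb2 c2 (c * Real.exp L) L w1 w2 Q1 Q2 e : ℝ) : ℂ)),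
        SW_add hPs hL0 (fun e => ((1 / 8 : ℝ) : ℂ) *
          ((Dn F bb1 c1 (c * Real.exp L) L w1 w2 Q1 Q2 e : ℝ) : ℂ))
          (fun e => (g2 : ℂ) * ((Dn F bb2 c2 (c * Real.exp L) L w1 w2 Q1 Q2 e : ℝ) : ℂ)),
        SW_const_mul, SW_const_mul, SW_const_mul,
        SW_add hPs hL0 (M2e Eh c L w1 w2 Q1 Q2)
          (fun e => M2e Eh c L w2 w1 Q2 Q1 e + (-1) * M5e Eh c L w1 w2 Q1 Q2 e),
        SW_add hPs hL0 (M2e Eh c L w2 w1 Q2 Q1) (fun e => (-1) * M5e Eh c L w1 w2 Q1 Q2 e),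
        SW_const_mul] at hR
      rw [← hR]
      refine SW_congr P L _ _ fun e he hsqe => ?_
      have h5 := decompG (φ := F1 1 1) (fun d hd => hP.hA d hd.1) F hF
        (fun s => H s + (rh0 F : ℂ) * Eh s) e he bb1 bb2 c1 c2
        (1 / 8) g2 (c * Real.exp L) hX (fun n => Rsq F (c * Real.exp L) e n)
        (fun n hn hce σ0 h0 h1 => by
          rw [hg2, hc1, hc2]
          exact dec11 hF hSq he hsqe hX hn hce h0 h1)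
        L hL0 s w1 w2 Q1 Q2 hw1 hw2 hQ1' hQ2' (1 / 2 + a) (by linarith) (by linarith)
      rw [h5]
      simp only [hA0]
      unfold Mn M1e Rsq
      push_cast
      ring
    have n0 : ‖SW P L A0‖ ≤ BP ^ 2 * (Ca * B * Real.exp (-(η0 * L))) * (1 + s' * L) ^ 3 :=
      Pool.Agent.N782.SWc.SW_crude s' hs'.le P hPs BP hBP0 L
        (by linarith) A0 (Ca * B * Real.exp (-(η0 * L))) (by positivity)
        (fun e he hsqe hle => hsq L hL w1 w2 Q1 Q2 B1 B2 B3 B4 hw1 hw2 hQ1 hQ2 (Bd_mono d1 ma)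
          (Bd_mono d2 ma) (Bd_mono d3 ma) (Bd_mono d4 ma) e he hsqe hle)
    have n1 := hn1 L (by linarith) w1 w2 Q1 Q2 B1 B2 B3 B4 hw1 hw2 hQ1 hQ2 (Bd_mono d1 m1)
          (Bd_mono d2 m1) (Bd_mono d3 m1) (Bd_mono d4 m1)
    have n2 := hn2 L (by linarith) w1 w2 Q1 Q2 B1 B2 B3 B4 hw1 hw2 hQ1 hQ2 (Bd_mono d1 m2)
          (Bd_mono d2 m2) (Bd_mono d3 m2) (Bd_mono d4 m2)
    have x0 : Real.exp (-(η0 * L)) ≤ Real.exp (-(η * L)) := Real.exp_le_exp.2 (by nlinarith)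
    have x1 : Real.exp (-(η1 * L)) ≤ Real.exp (-(η * L)) := Real.exp_le_exp.2 (by nlinarith)
    have x2 : Real.exp (-(η2 * L)) ≤ Real.exp (-(η * L)) := Real.exp_le_exp.2 (by nlinarith)
    have h2 : L * (1 + s' * L) ^ 3 ≤ (1 + L) ^ 4 := by
      calc L * (1 + s' * L) ^ 3 ≤ (1 + L) * (1 + L) ^ 3 := by
            gcongr
            · linarith
            · nlinarith
        _ = (1 + L) ^ 4 := by ring
    have h3 : L ≤ (1 + L) ^ 4 := by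
      calc L ≤ (1 + L) ^ 1 := by rw [pow_one]; linarith
        _ ≤ (1 + L) ^ 4 := pow_le_pow_right₀ (by linarith) (by norm_num)
    have h4 := hp L hL0.le
    have hsp : Er2 (F1 1 1) F H c P L w1 w2 Q1 Q2 - EE L w1 w2 Q1 Q2 =
        (L : ℂ) * (SW P L A0 +
        (((1 / 8 : ℝ) : ℂ) * SW P L (fun e =>
          ((Dn F bb1 c1 (c * Real.exp L) L w1 w2 Q1 Q2 e : ℝ) : ℂ)) +
        (g2 : ℂ) * SW P L (fun e =>
          ((Dn F bb2 c2 (c * Real.exp L) L w1 w2 Q1 Q2 e : ℝ) : ℂ)))) := by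
      unfold Er2
      rw [hdec]
      simp only [hEE]
      ring
    rw [hsp, norm_mul, Complex.norm_real, Real.norm_of_nonneg hL0.le]
    calc L * ‖SW P L A0 +
        (((1 / 8 : ℝ) : ℂ) * SW P L (fun e =>
          ((Dn F bb1 c1 (c * Real.exp L) L w1 w2 Q1 Q2 e : ℝ) : ℂ)) +
        (g2 : ℂ) * SW P L (fun e => ((Dn F bb2 c2 (c * Real.exp L) L w1 w2 Q1 Q2 e : ℝ) : ℂ)))‖
        ≤ L * (BP ^ 2 * (Ca * B * Real.exp (-(η * L))) * (1 + s' * L) ^ 3 +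
            (|(1 / 8 : ℝ)| * (C1 * B * Real.exp (-(η * L))) +
            |g2| * (C2 * B * Real.exp (-(η * L))))) := by
          apply mul_le_mul_of_nonneg_left _ hL0.le
          refine (norm_add_le _ _).trans ?_
          refine add_le_add (n0.trans ?_) ((norm_add_le _ _).trans (add_le_add ?_ ?_))
          · gcongr
          · rw [norm_mul, Complex.norm_real, Real.norm_eq_abs]
            exact mul_le_mul_of_nonneg_left (n1.trans (by gcongr)) (abs_nonneg _)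
          · rw [norm_mul, Complex.norm_real, Real.norm_eq_abs]
            exact mul_le_mul_of_nonneg_left (n2.trans (by gcongr)) (abs_nonneg _)
      _ = B * Real.exp (-(η * L)) * (BP ^ 2 * Ca * (L * (1 + s' * L) ^ 3) +
            (|(1 / 8 : ℝ)| * C1 + |g2| * C2) * L) := by ring
      _ ≤ B * Real.exp (-(η * L)) * ((BP ^ 2 + 1) * Ca * (C' * Real.exp (η / 2 * L)) +
            (|(1 / 8 : ℝ)| * C1 + |g2| * C2) * (C' * Real.exp (η / 2 * L))) := by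
          apply mul_le_mul_of_nonneg_left _ (by positivity)
          refine add_le_add ?_ ?_
          · apply mul_le_mul _ (h2.trans h4) (by positivity) (by positivity)
            gcongr
            linarith
          · exact mul_le_mul_of_nonneg_left (h3.trans h4) (by positivity)
      _ = ((BP ^ 2 + 1) * Ca + |(1 / 8 : ℝ)| * C1 + |g2| * C2) * C' * B *
            (Real.exp (-(η * L)) * Real.exp (η / 2 * L)) := by ring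
      _ = _ := by
          rw [← Real.exp_add]
          congr 2
          ring
  obtain ⟨C, k, hC, hk⟩ := key
  refine ⟨H, hH, ⟨C + |rh0 F| * (E2 + E2 + E5), k ⊔ m2 ⊔ m5, by positivity,
    fun L hL w1 w2 Q1 Q2 B1 B2 B3 B4 hw1 hw2 hQ1 hQ2 d1 d2 d3 d4 => ?_⟩,
    fun w1 w2 Q1 Q2 hw1 hw2 hQ1 hQ2 => ?_⟩
  · have mk : k ≤ k ⊔ m2 ⊔ m5 := le_sup_left.trans le_sup_left
    have mm2 : m2 ≤ k ⊔ m2 ⊔ m5 := le_sup_right.trans le_sup_left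
    have mm5 : m5 ≤ k ⊔ m2 ⊔ m5 := le_sup_right
    have b1' := Bd_nonneg d1
    have b2' := Bd_nonneg d2
    have b3' := Bd_nonneg d3
    have b4' := Bd_nonneg d4
    have hQ1' := Wt_mono hQ1 hθs
    have hQ2' := Wt_mono hQ2 hθs
    have hk1 := hk L hL w1 w2 Q1 Q2 B1 B2 B3 B4 hw1 hw2 hQ1 hQ2 (Bd_mono d1 mk) (Bd_mono d2 mk)
      (Bd_mono d3 mk) (Bd_mono d4 mk)
    have v2 := u2 L hL w1 w2 Q1 Q2 B1 B2 B3 B4 hw1 hw2 hQ1' hQ2' (Bd_mono d1 mm2)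
      (Bd_mono d2 mm2) (Bd_mono d3 mm2) (Bd_mono d4 mm2)
    have v2' := u2 L hL w2 w1 Q2 Q1 B2 B1 B4 B3 hw2 hw1 hQ2' hQ1' (Bd_mono d2 mm2)
      (Bd_mono d1 mm2) (Bd_mono d4 mm2) (Bd_mono d3 mm2)
    have v5 := u5 L hL w1 w2 Q1 Q2 B1 B2 B3 B4 hw1 hw2 hQ1' hQ2' (Bd_mono d1 mm5)
      (Bd_mono d2 mm5) (Bd_mono d3 mm5) (Bd_mono d4 mm5)
    have hEEb : ‖EE L w1 w2 Q1 Q2‖ ≤ |rh0 F| * (E2 + E2 + E5) * (B1 * B2 * B3 * B4) := by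
      simp only [hEE]
      rw [norm_mul, Complex.norm_real, Real.norm_eq_abs, mul_assoc]
      apply mul_le_mul_of_nonneg_left _ (abs_nonneg _)
      refine (norm_sub_le _ _).trans ?_
      refine (add_le_add (norm_add_le _ _) le_rfl).trans ?_
      calc _ ≤ E2 * B1 * B2 * B3 * B4 + E2 * B2 * B1 * B4 * B3 + E5 * B1 * B2 * B3 * B4 :=
            add_le_add (add_le_add v2 v2') v5
        _ = _ := by ring
    have hexp1 : C * (B1 * B2 * B3 * B4) * Real.exp (-(η / 2 * L)) ≤ C * (B1 * B2 * B3 * B4) := by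
      apply mul_le_of_le_one_right (by positivity)
      rw [Real.exp_le_one_iff]
      have : 0 ≤ η / 2 * L := by
        have : 0 < L := by linarith
        positivity
      linarith
    have e : Er2 (F1 1 1) F H c P L w1 w2 Q1 Q2 =
        (Er2 (F1 1 1) F H c P L w1 w2 Q1 Q2 - EE L w1 w2 Q1 Q2) + EE L w1 w2 Q1 Q2 := by ring
    rw [e]
    refine (norm_add_le _ _).trans ?_
    calc _ ≤ C * (B1 * B2 * B3 * B4) + |rh0 F| * (E2 + E2 + E5) * (B1 * B2 * B3 * B4) :=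
          add_le_add (hk1.trans hexp1) hEEb
      _ = _ := by ring
  · have hQ1' := Wt_mono hQ1 hθs
    have hQ2' := Wt_mono hQ2 hθs
    obtain ⟨B1, hB1⟩ := wt_bd s w1 hw1 k
    obtain ⟨B2, hB2⟩ := wt_bd s w2 hw2 k
    obtain ⟨B3, hB3⟩ := wt_bd θ Q1 hQ1 k
    obtain ⟨B4, hB4⟩ := wt_bd θ Q2 hQ2 k
    have hexp : Tendsto (fun L : ℝ => (C * (B1 * B2 * B3 * B4)) * Real.exp (-(η / 2 * L))) atTop
        (𝓝 0) := by
      have : Tendsto (fun L : ℝ => Real.exp (-(η / 2 * L))) atTop (𝓝 0) := by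
        apply Real.tendsto_exp_neg_atTop_nhds_zero.comp
        exact tendsto_id.const_mul_atTop (by positivity)
      simpa using this.const_mul (C * (B1 * B2 * B3 * B4))
    have t1 : Tendsto (fun L : ℝ => Er2 (F1 1 1) F H c P L w1 w2 Q1 Q2 - EE L w1 w2 Q1 Q2) atTop
        (𝓝 0) := by
      apply squeeze_zero_norm' _ hexp
      filter_upwards [eventually_ge_atTop 4] with L hL
      exact hk L hL w1 w2 Q1 Q2 B1 B2 B3 B4 hw1 hw2 hQ1 hQ2 hB1 hB2 hB3 hB4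
    have t2 : Tendsto (fun L : ℝ => EE L w1 w2 Q1 Q2) atTop (𝓝 0) := by
      have q1 := l2 w1 w2 Q1 Q2 hw1 hw2 hQ1' hQ2'
      have q2 := l2 w2 w1 Q2 Q1 hw2 hw1 hQ2' hQ1'
      have q5 := l5 w1 w2 Q1 Q2 hw1 hw2 hQ1' hQ2'
      have q := ((q1.add q2).sub q5).const_mul (rh0 F : ℂ)
      simpa using q
    have t3 := t1.add t2
    simp only [sub_add_cancel, add_zero] at t3
    exact t3

end

end Pool.Agent.N782.U
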