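import Pool.Agent.N782.UE

set_option autoImplicit false

/-! The family `d` congruent to one modulo eight: first moment and mass (helper782). -/

namespace Pool.Agent.N782.U

open Finset Filter Topology MeasureTheory Pool.Agent.N782.LX Pool.Agent.N782.EW Pool.Agent.N782.KW
open Pool.Agent.H306R2.RZ Pool.Agent.H306R2.RG Pool.Agent.N782.SU
open Pool.Agent.N782.KV
open Pool.Agent.N782.GA (AdmV)
open Pool.Agent.N782.G2
open Pool.Agent.N782.FW (SW_small)
open Pool.Agent.H884R2.RG (TOg_eq kf_abs)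
open Pool.Agent.H423R2.RZL.LIM1n (wt_bdd floor_exp_le odd_of_coprime)
open Pool.Agent.H306R2.RG.LnkA (FF1)

noncomputable section

theorem xhalf {c : ℝ} (hc : 0 < c) (L : ℝ) : (c * Real.exp L) ^ (-(1 / 2) : ℝ) =
    c ^ (-(1 / 2) : ℝ) * Real.exp (-(1 / 2) * L) := by
  rw [Real.mul_rpow hc.le (Real.exp_pos _).le, ← Real.exp_mul, mul_comm L]

theorem sum_inv_sqrt (N : ℕ) (Y : ℝ) (hY : 0 < Y) (hN : (N : ℝ) ≤ Y) :
    ∑ b ∈ Icc 1 N, 1 / Real.sqrt (b : ℝ) ≤ 2 * Y ^ (1 / 2 : ℝ) := by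
  have h := Pool.Agent.H145R2.RZS4.sum_rpow 0 le_rfl N Y hY hN
  simpa using h

/-- the difference of the first moments -/
theorem TO_sub (F : ℝ → ℝ) (hF : TF F) (c : ℝ) (hc : 0 < c) (s θ : ℝ)
    (w Q : ℝ → ℝ) (h1 : Wt s w) (h2 : Wt θ Q) : ∃ C : ℝ, 0 < C ∧ ∀ L : ℝ, 1 ≤ L →
      ∀ e : ℕ, Odd e → Squarefree e →
      |(e : ℝ) * TOg (Fg (F1 1 1) e) F (c * Real.exp L) (2 * e) L w Q -
        (e : ℝ) * TOg (Fg (FF1 1 1) e) F (c * Real.exp L) (2 * e) L w Q| ≤
          C * Real.exp (-((1 - s - θ) / 2 * L)) := by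
  obtain ⟨B1, hB1, hw⟩ := wt_bdd h1
  obtain ⟨B2, hB2, hQ⟩ := wt_bdd h2
  obtain ⟨C, hC, hE⟩ := ESq_le F hF
  refine ⟨B1 * B2 * 4 * (C * c ^ (-(1 / 2) : ℝ)) + 1, by positivity, ?_⟩
  intro L hL e he hsq
  have hL0 : 0 < L := by linarith
  have he0 : e ≠ 0 := hsq.ne_zero
  have hX : 0 < c * Real.exp L := by positivity
  have hq : Even (2 * e) := even_two_mul e
  set Ns : ℕ := ⌊Real.exp (s * L)⌋₊ with hNs
  set Nt : ℕ := ⌊Real.exp (θ * L)⌋₊ with hNt
  have hNs' : (Ns : ℝ) ≤ Real.exp (s * L) := floor_exp_le _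
  have hNt' : (Nt : ℝ) ≤ Real.exp (θ * L) := floor_exp_le _
  rw [TOg_eq (Fg (F1 1 1) e) F hF _ hX (2 * e) hq L hL0 s θ w Q h1 h2,
    TOg_eq (Fg (FF1 1 1) e) F hF _ hX (2 * e) hq L hL0 s θ w Q h1 h2, mul_sum, mul_sum,
    ← Finset.sum_sub_distrib]
  calc |∑ p ∈ Icc 1 Ns ×ˢ Icc 1 Nt, _| ≤ ∑ p ∈ Icc 1 Ns ×ˢ Icc 1 Nt, |_| :=
        Finset.abs_sum_le_sum_abs _ _
    _ ≤ ∑ p ∈ Icc 1 Ns ×ˢ Icc 1 Nt, (B1 * B2 * (C * (c * Real.exp L) ^ (-(1 / 2) : ℝ))) *
          (1 / Real.sqrt p.1 * (1 / Real.sqrt p.2)) := by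
        refine Finset.sum_le_sum fun p hp => ?_
        rw [mem_product, mem_Icc, mem_Icc] at hp
        obtain ⟨⟨hp1, hp1'⟩, ⟨hp2, hp2'⟩⟩ := hp
        by_cases hcp : Nat.Coprime p.1 (2 * e) ∧ Nat.Coprime p.2 (2 * e)
        · have hodd : Odd (p.1 * p.2) := (odd_of_coprime hq hcp.1).mul (odd_of_coprime hq hcp.2)
          have hce : Nat.Coprime (p.1 * p.2) e :=
            Nat.Coprime.mul_left (Nat.Coprime.coprime_mul_left_right hcp.1)
              (Nat.Coprime.coprime_mul_left_right hcp.2)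
          have hsub := EA_sube F hF (c * Real.exp L) hX (p.1 * p.2) hodd e he hsq hce
          have k1 := kf_abs (2 * e) L w Q B1 B2 hB1 hw hQ hB2 p hp1 hp2
          have k2 := hE (c * Real.exp L) hX (p.1 * p.2) e he0
          have e1 : (e : ℝ) * (Pool.Agent.H423R2.RZL.LIM1n.cf (2 * e) L w Q p *
              EAg (Fg (F1 1 1) e) F (c * Real.exp L)
                (fun d => js ((Fg (F1 1 1) e).e * (d : ℤ)) (p.1 * p.2))) -
              (e : ℝ) * (Pool.Agent.H423R2.RZL.LIM1n.cf (2 * e) L w Q p *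
              EAg (Fg (FF1 1 1) e) F (c * Real.exp L)
                (fun d => js ((Fg (FF1 1 1) e).e * (d : ℤ)) (p.1 * p.2))) =
              -(Pool.Agent.H423R2.RZL.LIM1n.cf (2 * e) L w Q p *
                (1 / (e : ℝ) * ESq F (c * Real.exp L / (e : ℝ) ^ 2) (p.1 * p.2))) := by
            have hs1 : (e : ℝ) * EAg (Fg (F1 1 1) e) F (c * Real.exp L)
                (fun d => js ((Fg (F1 1 1) e).e * (d : ℤ)) (p.1 * p.2)) =
              (e : ℝ) * EAg (Fg (FF1 1 1) e) F (c * Real.exp L)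
                (fun d => js ((Fg (FF1 1 1) e).e * (d : ℤ)) (p.1 * p.2)) -
              1 / (e : ℝ) * ESq F (c * Real.exp L / (e : ℝ) ^ 2) (p.1 * p.2) := hsub
            linear_combination (Pool.Agent.H423R2.RZL.LIM1n.cf (2 * e) L w Q p) * hs1
          rw [e1, abs_neg, abs_mul]
          calc _ ≤ (B1 * B2 * (1 / Real.sqrt p.1 * (1 / Real.sqrt p.2))) *
              (C * (c * Real.exp L) ^ (-(1 / 2) : ℝ)) :=
                mul_le_mul k1 k2 (abs_nonneg _) (by positivity)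
            _ = _ := by ring
        · have : Pool.Agent.H423R2.RZL.LIM1n.cf (2 * e) L w Q p = 0 := by
            rw [Pool.Agent.H423R2.RZL.LIM1n.cf, if_neg hcp]
          rw [this, zero_mul, zero_mul, mul_zero, sub_zero, abs_zero]
          positivity
    _ = (B1 * B2 * (C * (c * Real.exp L) ^ (-(1 / 2) : ℝ))) *
          ((∑ a ∈ Icc 1 Ns, 1 / Real.sqrt (a : ℝ)) * ∑ b ∈ Icc 1 Nt, 1 / Real.sqrt (b : ℝ)) := by
        rw [← mul_sum, Finset.sum_mul_sum, ← Finset.sum_product']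
    _ ≤ (B1 * B2 * (C * (c * Real.exp L) ^ (-(1 / 2) : ℝ))) *
          ((2 * Real.exp (s * L) ^ (1 / 2 : ℝ)) * (2 * Real.exp (θ * L) ^ (1 / 2 : ℝ))) := by
        apply mul_le_mul_of_nonneg_left _ (by positivity)
        exact mul_le_mul (sum_inv_sqrt Ns _ (Real.exp_pos _) hNs')
          (sum_inv_sqrt Nt _ (Real.exp_pos _) hNt')
          (Finset.sum_nonneg fun _ _ => by positivity) (by positivity)
    _ = (B1 * B2 * 4 * (C * c ^ (-(1 / 2) : ℝ))) * Real.exp (-((1 - s - θ) / 2 * L)) := by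
        rw [xhalf hc, ← Real.exp_mul, ← Real.exp_mul]
        have : Real.exp (-((1 - s - θ) / 2 * L)) = Real.exp (-(1 / 2) * L) *
            (Real.exp (s * L * (1 / 2)) * Real.exp (θ * L * (1 / 2))) := by
          rw [← Real.exp_add, ← Real.exp_add]
          congr 1
          ring
        rw [this]
        ring
    _ ≤ _ := by
        apply mul_le_mul_of_nonneg_right _ (Real.exp_pos _).le
        linarith

/-- the error terms of the weighted moments are negligible for the family `F1 1 1` -/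
theorem WS11 : WS (F1 1 1) where
  odd := fun d hd => hP11.hA d hd.1
  er2 := er2_11
  er1 := by
    intro F hF c hc s θ s' hA P hPs w Q hw hQ
    have hs8 : s' ≤ 1 := by
      have h1 := hA.hs
      have h2 := hA.hθ
      have h3 := hA.m1
      linarith
    obtain ⟨C, η, hC, hη, hE⟩ := err1G F hF (dualP hP11 F hF) c hc s θ s' hA w Q hw hQ
    obtain ⟨C2, hC2, hE2⟩ := TO_sub F hF c hc s θ w Q hw hQ
    have hm := hA.main
    obtain ⟨η', hη', k1, k2⟩ : ∃ η' : ℝ, 0 < η' ∧ η' ≤ η ∧ η' ≤ (1 - s - θ) / 2 :=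
      ⟨min η ((1 - s - θ) / 2), lt_min hη (by linarith), min_le_left _ _, min_le_right _ _⟩
    refine SW_small s' hA.hs' hs8 P hPs (C + C2) η' (by positivity) hη' (fun L e => (((e : ℝ) *
      TOg (Fg (F1 1 1) e) F (c * Real.exp L) (2 * e) L w Q : ℝ) : ℂ) -
        (((F1 1 1).δ * Ft F 0 : ℝ) : ℂ) * M3e L w Q e) ?_
    intro L hL e he hsq hle
    have hL0 : 0 ≤ L := by linarith
    have j1 := hE L hL e he hsq hle
    have j2 := hE2 L hL e he hsq
    have e1 : (((e : ℝ) * TOg (Fg (F1 1 1) e) F (c * Real.exp L) (2 * e) L w Q : ℝ) : ℂ) -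
        (((F1 1 1).δ * Ft F 0 : ℝ) : ℂ) * M3e L w Q e =
        ((((e : ℝ) * TOg (Fg (FF1 1 1) e) F (c * Real.exp L) (2 * e) L w Q : ℝ) : ℂ) -
        (((FF1 1 1).δ * Ft F 0 : ℝ) : ℂ) * M3e L w Q e) +
        (((e : ℝ) * TOg (Fg (F1 1 1) e) F (c * Real.exp L) (2 * e) L w Q -
        (e : ℝ) * TOg (Fg (FF1 1 1) e) F (c * Real.exp L) (2 * e) L w Q : ℝ) : ℂ) := by
      have hδ : (F1 1 1).δ = (FF1 1 1).δ := rfl
      rw [hδ]
      push_cast
      ring
    rw [e1]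
    refine (norm_add_le _ _).trans ?_
    rw [Complex.norm_real, Real.norm_eq_abs]
    have x1 : Real.exp (-(η * L)) ≤ Real.exp (-(η' * L)) := Real.exp_le_exp.2 (by nlinarith)
    have x2 : Real.exp (-((1 - s - θ) / 2 * L)) ≤ Real.exp (-(η' * L)) :=
      Real.exp_le_exp.2 (by nlinarith)
    calc _ ≤ C * Real.exp (-(η' * L)) + C2 * Real.exp (-(η' * L)) :=
          add_le_add (j1.trans (mul_le_mul_of_nonneg_left x1 hC.le))
            (j2.trans (mul_le_mul_of_nonneg_left x2 hC2.le))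
      _ = _ := by ring
  er0 := by
    intro F hF c hc s' hs' hs8 P hPs
    obtain ⟨C, hC, hE⟩ := err0G F (dualP hP11 F hF) c hc s' hs8
    obtain ⟨C2, hC2, hE2⟩ := ESq_le F hF
    refine SW_small s' hs' (by linarith) P hPs (C + C2 * c ^ (-(1 / 2) : ℝ)) (1 / 2)
      (by positivity) (by norm_num) (fun L e => (((e : ℝ) *
      EAg (Fg (F1 1 1) e) F (c * Real.exp L) (fun _ => 1) : ℝ) : ℂ) -
        (((F1 1 1).δ * Ft F 0 : ℝ) : ℂ)) ?_
    intro L hL e he hsq hle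
    have hX : 0 < c * Real.exp L := by positivity
    have j1 := hE L hL e he hsq hle
    have j2 := hE2 (c * Real.exp L) hX 1 e hsq.ne_zero
    have hsub := EA_sube F hF (c * Real.exp L) hX 1 odd_one e he hsq (Nat.coprime_one_left e)
    have hj : ∀ k : ℤ, js k 1 = 1 := by
      intro k
      unfold js
      simp
    simp only [hj] at hsub
    have e1 : (((e : ℝ) * EAg (Fg (F1 1 1) e) F (c * Real.exp L) (fun _ => 1) : ℝ) : ℂ) -
        (((F1 1 1).δ * Ft F 0 : ℝ) : ℂ) =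
        ((((e : ℝ) * EAg (Fg (FF1 1 1) e) F (c * Real.exp L) (fun _ => 1) : ℝ) : ℂ) -
        (((FF1 1 1).δ * Ft F 0 : ℝ) : ℂ)) -
        ((1 / (e : ℝ) * ESq F (c * Real.exp L / (e : ℝ) ^ 2) 1 : ℝ) : ℂ) := by
      have hδ : (F1 1 1).δ = (FF1 1 1).δ := rfl
      rw [hδ, hsub]
      push_cast
      ring
    rw [e1]
    refine (norm_sub_le _ _).trans ?_
    rw [Complex.norm_real, Real.norm_eq_abs]
    rw [xhalf hc] at j2
    have x1 : Real.exp (-(1 * L)) ≤ Real.exp (-(1 / 2 * L)) := Real.exp_le_exp.2 (by linarith)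
    have x2 : Real.exp (-(1 / 2) * L) = Real.exp (-(1 / 2 * L)) := by congr 1; ring
    rw [x2] at j2
    calc _ ≤ C * Real.exp (-(1 / 2 * L)) + C2 * (c ^ (-(1 / 2) : ℝ) * Real.exp (-(1 / 2 * L))) :=
          add_le_add (j1.trans (mul_le_mul_of_nonneg_left x1 hC.le)) j2
      _ = _ := by ring

end

end Pool.Agent.N782.U
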