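import Pool.Agent.N782.SA
import Pool.Agent.N782.PD
import Pool.Agent.N782.MV

set_option autoImplicit false

/-! Constants for the two sided form (helper782). -/

namespace Pool.Agent.N782.V

open Finset Filter Topology MeasureTheory Pool.Agent.H306R2.RZ Pool.Agent.H306R2.RG
open Pool.Agent.N782.GA
open Pool.Agent.N782.ND
open Pool.Agent.N782.PA (exists_P)
open Pool.Agent.N782.KW (Pn)
open Pool.Agent.H234R2.RZNC3 (four_pow_ge Yl_lower)

noncomputable section

/-- the coefficients for `θ = 3/10`, `m = 32/5`, `n = 21/100` -/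
lemma cf_v (j : ℕ) (hj : 3 ≤ j) : 0 ≤ Pool.Agent.H234R2.RZNC3.cf (3 / 10) (32 / 5) (21 / 100) j := by
  rcases Nat.lt_or_ge j 8 with h | h
  · interval_cases j <;> norm_num [Pool.Agent.H234R2.RZNC3.cf]
  · have h4 := four_pow_ge j h
    unfold Pool.Agent.H234R2.RZNC3.cf
    have ht : (8 : ℝ) ≤ j := by exact_mod_cast h
    obtain ⟨u, hu⟩ : ∃ u : ℝ, (j : ℝ) = 8 + u := ⟨(j : ℝ) - 8, by ring⟩
    have hu0 : 0 ≤ u := by linarith
    have hu2 : 0 ≤ u ^ 2 := by positivity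
    have hu3 : 0 ≤ u ^ 3 := by positivity
    have hA : 1 / 2 ≤ 32 / 5 * (3 / 10 : ℝ) / 4 * (2 * (j : ℝ) + 1) +
        21 / 100 * (3 / 10) / 16 * ((2 * (j : ℝ) + 1) * (2 * j) * (2 * j - 1)) + 32 / 5 / 2 +
        (21 / 100 - 1) / 8 * ((2 * (j : ℝ) + 1) * (2 * j)) := by
      rw [hu]
      ring_nf
      linarith
    set t : ℝ := (j : ℝ) with htdef
    have hB : 2 * 4 ^ j * (32 / 5 * (3 / 10 : ℝ) / 4 * (2 * t + 1) +
        21 / 100 * (3 / 10) / 16 * ((2 * t + 1) * (2 * t) * (2 * t - 1)) + 32 / 5 / 2 +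
        (21 / 100 - 1) / 8 * ((2 * t + 1) * (2 * t))) ≥ 2 * (16 * t ^ 4) * (1 / 2) := by
      have : 0 ≤ 16 * t ^ 4 := by positivity
      gcongr
    have h3 : 8 * t ^ 3 ≤ t ^ 4 := by
      have : 0 ≤ t ^ 3 := by positivity
      nlinarith
    have h2 : 8 * t ^ 2 ≤ t ^ 3 := by
      have : 0 ≤ t ^ 2 := by positivity
      nlinarith
    have h1 : 8 * t ≤ t ^ 2 := by nlinarith
    nlinarith

/-- the length of the mollifier -/
def th0 : ℝ := 3 / 10

/-- the length of the sieve -/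
def s0 : ℝ := 9998 / 100000

/-- the loss of the sieve -/
def Cs0 : ℝ := 10003 / 1000

/-- the constant of the numerical bound -/
def J0 : ℝ := 7948 / 10000

/-- the constant of the numerical bound at the central point -/
def J1 : ℝ := 7669 / 10000

theorem admV : AdmV (1 / 2 + 3 * (1 / 100000)) th0 s0 := by
  unfold s0 th0
  refine ⟨⟨?_, ?_, ?_, ?_, ?_, ?_⟩, ?_, ?_⟩ <;> norm_num

theorem NCb (x : ℝ) (hx : 0 < x) : 0 < yN th0 x ∧ VN x ≤ 1 / 40 * yN th0 x ^ 2 := by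
  unfold th0
  refine Pool.Agent.H864R2.RZ3NC4.key Pool.Agent.H339R2.RZNB1.NB1 Pool.Agent.H56R2.RZNB2.NB2
    Pool.Agent.H598R3.RZ.NC1 Pool.Agent.H66R2.RZNC2.NC2 (3 / 10) (32 / 5) (21 / 100) (1 / 40) x
    (by norm_num) (by norm_num) (by norm_num) (by norm_num) hx
    (Yl_lower (3 / 10) (32 / 5) (21 / 100) x hx (by norm_num) (by norm_num) cf_v) ?_
  intro t ht
  nlinarith [sq_nonneg (t - 37)]

theorem log_r : 145588 / 100000 ≤ Real.log (1 + Cs0 * rN th0) ∧
    328829 / 100000 ≤ Cs0 * rN th0 ∧ Cs0 * rN th0 ≤ 32883 / 10000 := by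
  have hl := Pool.Agent.H133R2.RZ3.log_lower
  have e1 : Cs0 * rN th0 = (10003 / 1000) / (6 * (3 / 10) * (1 + 3 / 10) ^ 2) := by
    unfold rN Cs0 th0; ring
  set r : ℝ := Cs0 * rN th0 with hr
  have hr1 : 328829 / 100000 ≤ r := by rw [e1]; norm_num
  have hr2 : r ≤ 32883 / 10000 := by rw [e1]; norm_num
  refine ⟨?_, hr1, hr2⟩
  have h1 : Real.log (4 * (1 + 72072 / 1000000)) ≤ Real.log (1 + r) :=
    Real.log_le_log (by norm_num) (by linarith)
  rw [Real.log_mul (by norm_num) (by norm_num)] at h1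
  have h4 : Real.log 4 = 2 * Real.log 2 := by
    rw [show (4 : ℝ) = 2 ^ 2 by norm_num, Real.log_pow]; norm_num
  have h5 := Real.log_two_gt_d9
  have h6 := hl (72072 / 1000000) (by norm_num)
  rw [h4] at h1
  norm_num at h6
  linarith

theorem JKc : JK (Cs0 * rN th0) 0 ≤ J1 := by
  obtain ⟨_, hr1, hr2⟩ := log_r
  unfold JK J1
  rw [mul_zero, zero_mul, add_zero, div_le_iff₀ (by linarith)]
  linarith

/-- the numerical bound -/
theorem JKb : JK (Cs0 * rN th0) 0 + JK (Cs0 * rN th0) (1 / 40) ≤ 2 * J0 := by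
  obtain ⟨hlog, hr1, hr2⟩ := log_r
  set r : ℝ := Cs0 * rN th0 with hr
  have hr0 : 0 < r := by linarith
  have h1 : r / (1 + r) ≤ 766808 / 1000000 := by
    rw [div_le_iff₀ (by linarith)]
    linarith
  have h2 : (r - Real.log (1 + r)) / r ≤ 5574 / 10000 := by
    rw [div_le_iff₀ hr0]
    linarith
  unfold JK J0
  rw [mul_zero, zero_mul, add_zero]
  linarith

end

end Pool.Agent.N782.V
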