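import Pool.Agent.N782.VA
import Pool.Agent.N782.SC

set_option autoImplicit false

/-! Assembly with the two sided form, all families (helper782). -/

namespace Pool.Agent.N782.V

open Finset Filter Topology MeasureTheory Pool.Agent.H306R2.RZ Pool.Agent.H306R2.RG
open Pool.Agent.N782.GA
open Pool.Agent.N782.ND
open Pool.Agent.N782.PA (exists_P exists_F MRn NDV)
open Pool.Agent.N782.KW (Pn)
open Pool.Agent.N782.G2 (WS gw_W gw_p ge_W m2_W dom Ft_le_one Gd cnt omp omW)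

noncomputable section

/-- the sieve majorant -/
theorem domC : ∃ P : ℝ → ℝ, Wt s0 P ∧ 0 < Pn P ∧ ∀ (φ : FD) (F : ℝ → ℝ), TF F → (∀ x, 0 ≤ F x) →
    (∀ x, 1 < x → F x = 0) → ∀ L d, omp φ s0 F L d ≤ Cs0 * omW φ P F L d := by
  obtain ⟨P, hP, hP0, hPn, hPn1⟩ := exists_P (99975 / 1000000) s0 (by norm_num)
    (by unfold s0; norm_num)
  refine ⟨P, hP, hPn, fun φ F hF hF0 hF1 L d => ?_⟩
  refine (dom φ hF0 hF1 hPn hP0 hP L d).trans ?_
  have h1 := (gw_W φ hF hF0 hPn).nn L d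
  have h2 : Pn P ≤ Cs0 := hPn1.trans (by unfold Cs0; norm_num)
  exact mul_le_mul_of_nonneg_right h2 h1

/-- the exceptional weight sum of the main range, all cut points -/
theorem bad1V {φ : FD} (hW : WS φ) (hφ : FG φ) (hC : CG φ) {F : ℝ → ℝ} (hF : TF F)
    (hF0 : ∀ x, 0 ≤ F x) (hF1 : ∀ x, 1 < x → F x = 0) (hK0 : 0 ≤ Ft F 0) (hK1 : Ft F 0 ≤ 1)
    (hδ1 : φ.δ ≤ 1) (hM1 : M1 φ s0 (φ.δ * Ft F 0) (omp φ s0 F)) (X0 : ℝ) (hX0 : 0 ≤ X0)
    (η : ℝ) (hη : 0 < η) :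
    ∃ L0 : ℝ, ∀ L : ℝ, L0 ≤ L →
      EA (omp φ s0 F L) ((SFg φ ∩ {d | bad1g φ L X0 d}).indicator (fun _ => 1)) ≤
        φ.δ * Ft F 0 * J0 + η := by
  obtain ⟨P, hP, hPn, hd⟩ := domC
  have hs0 : (0 : ℝ) < s0 := by unfold s0; norm_num
  have hs8 : s0 ≤ 1 / 4 := by unfold s0; norm_num
  have hCs : (0 : ℝ) < Cs0 := by unfold Cs0; norm_num
  have hδ0 := hφ.hδ
  have hGW := ge_W hW hF hF0 hPn hs0 hs8 hP
  have hd' := hd φ F hF hF0 hF1
  have hGp : GE φ s0 (omp φ s0 F) := GE_dom (gw_p φ s0 hF hF0) hGW hCs hd'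
  have hM2 := m2_W hW hF hPn hs0 hs8 hP
  have hA := admV
  have hθ : (0 : ℝ) < th0 := by unfold th0; norm_num
  have hkpos : 0 < Cs0 * kN th0 := by
    unfold kN; positivity
  obtain ⟨hcd, hc1, hcc⟩ := cK_deriv (Cs0 * kN th0) th0 hkpos hθ
  obtain ⟨θ'', χ, h1, h2, hχ, hle⟩ := MRn Cs0 th0 hCs.le hθ (by unfold th0; norm_num) _ _ hcd hc1
    X0 hX0 (η / 3) (by linarith)
  obtain ⟨L2, hM⟩ := MRW hφ hC hGp hGW hCs.le hd'
    (by positivity : (0 : ℝ) ≤ φ.δ * Ft F 0) hM1 hM2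
    (1 / 100000) (by norm_num) (by norm_num) χ θ'' th0 h1 h2 hA hχ _ _ hcd hc1 X0 hX0
    (η / 3) (by linarith)
  have hN := NDV Cs0 th0 (1 / 40) X0 hCs hθ (by norm_num) hX0 NCb
  have hJ := JKb
  refine ⟨L2, fun L hL => ?_⟩
  have k1 := hM L hL
  have hle2 := hle.trans (add_le_add_left (hN.trans hJ) _)
  have k3 := mul_le_mul_of_nonneg_left hle2 (by positivity : (0 : ℝ) ≤ φ.δ * Ft F 0 / 2)
  have k4 : φ.δ * Ft F 0 * (η / 3) ≤ 1 * (η / 3) := by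
    apply mul_le_mul_of_nonneg_right _ (by linarith)
    nlinarith
  linarith

/-- the central point -/
theorem bad0V {φ : FD} (hW : WS φ) (hφ : FG φ) (hC : CG φ) {F : ℝ → ℝ} (hF : TF F)
    (hF0 : ∀ x, 0 ≤ F x) (hF1 : ∀ x, 1 < x → F x = 0) (hK0 : 0 ≤ Ft F 0) (hK1 : Ft F 0 ≤ 1)
    (hδ1 : φ.δ ≤ 1) (hM1 : M1 φ s0 (φ.δ * Ft F 0) (omp φ s0 F)) (η : ℝ) (hη : 0 < η) :
    ∃ L0 : ℝ, ∀ L : ℝ, L0 ≤ L →
      EA (omp φ s0 F L) ((SFg φ ∩ {d | bad1g φ L 0 d}).indicator (fun _ => 1)) ≤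
        φ.δ * Ft F 0 * J1 + η := by
  obtain ⟨P, hP, hPn, hd⟩ := domC
  have hs0 : (0 : ℝ) < s0 := by unfold s0; norm_num
  have hs8 : s0 ≤ 1 / 4 := by unfold s0; norm_num
  have hCs : (0 : ℝ) < Cs0 := by unfold Cs0; norm_num
  have hδ0 := hφ.hδ
  have hGW := ge_W hW hF hF0 hPn hs0 hs8 hP
  have hd' := hd φ F hF hF0 hF1
  have hGp : GE φ s0 (omp φ s0 F) := GE_dom (gw_p φ s0 hF hF0) hGW hCs hd'
  have hM2 := m2_W hW hF hPn hs0 hs8 hP
  have hA := admV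
  have hθ : (0 : ℝ) < th0 := by unfold th0; norm_num
  have hkpos : 0 < Cs0 * kN th0 := by
    unfold kN; positivity
  obtain ⟨hcd, hc1, hcc⟩ := cK_deriv (Cs0 * kN th0) th0 hkpos hθ
  obtain ⟨θ'', χ, h1, h2, hχ, hle⟩ := MRn Cs0 th0 hCs.le hθ (by unfold th0; norm_num) _ _ hcd hc1
    0 le_rfl (η / 3) (by linarith)
  obtain ⟨L2, hM⟩ := MRW hφ hC hGp hGW hCs.le hd'
    (by positivity : (0 : ℝ) ≤ φ.δ * Ft F 0) hM1 hM2
    (1 / 100000) (by norm_num) (by norm_num) χ θ'' th0 h1 h2 hA hχ _ _ hcd hc1 0 le_rfl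
    (η / 3) (by linarith)
  have hN : vv (cK (Cs0 * kN th0) th0 0) (Bn th0 0) (Cs0 * th0) (ax 0) ≤ J1 := by
    refine le_trans ?_ JKc
    rw [vv_eq hkpos hθ, ← PhK_zero 0 hθ hCs]
    apply PhK_ge hkpos (by positivity) le_rfl
    exact one_sub_kz_pos hkpos hθ 0
  refine ⟨L2, fun L hL => ?_⟩
  have k1 := hM L hL
  have hle2 := hle.trans (show _ ≤ 2 * J1 + η / 3 by
    rw [intervalIntegral.integral_same, add_zero]
    have e : (∫ u in (0 : ℝ)..th0, Sx 0 (u + 1 / 2)) = Bn th0 0 := rfl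
    rw [e]
    linarith)
  have k3 := mul_le_mul_of_nonneg_left hle2 (by positivity : (0 : ℝ) ≤ φ.δ * Ft F 0 / 2)
  have k4 : φ.δ * Ft F 0 * (η / 3) ≤ 1 * (η / 3) := by
    apply mul_le_mul_of_nonneg_right _ (by linarith)
    nlinarith
  linarith

/-- the tail range -/
theorem bad2V {φ : FD} (hW : WS φ) (hφ : FG φ) (hC : CG φ) {F : ℝ → ℝ} (hF : TF F)
    (hF0 : ∀ x, 0 ≤ F x) (hF1 : ∀ x, 1 < x → F x = 0) :
    ∃ C c0 L1 : ℝ, 0 < C ∧ 0 < c0 ∧ ∀ L : ℝ, L1 ≤ L → ∀ X0 : ℝ, 1 ≤ X0 → X0 ≤ L / 2 →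
      EA (omp φ s0 F L) ((SFg φ ∩ {d | bad2g φ L X0 d}).indicator (fun _ => 1)) ≤
        C * Real.exp (-(c0 * X0)) := by
  obtain ⟨P, hP, hPn, hd⟩ := domC
  have hs0 : (0 : ℝ) < s0 := by unfold s0; norm_num
  have hs8 : s0 ≤ 1 / 4 := by unfold s0; norm_num
  have hCs : (0 : ℝ) < Cs0 := by unfold Cs0; norm_num
  have hGW := ge_W hW hF hF0 hPn hs0 hs8 hP
  have hGp : GE φ s0 (omp φ s0 F) := GE_dom (gw_p φ s0 hF hF0) hGW hCs (hd φ F hF hF0 hF1)
  obtain ⟨C, c0, L1, hC0, hc0, hT⟩ := TRG hφ hC hGp (1 / 100000) th0 (by norm_num) admV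
  exact ⟨C, c0, L1, hC0, hc0, fun L hL X0 h1 h2 => hT L hL X0 h1 h2⟩

open Classical in
/-- counting with the prime weight, upper bound, general condition -/
theorem upperP (φ : FD) (G : ℕ → Prop) {F : ℝ → ℝ} (hF0 : ∀ x, 0 ≤ F x) (hFle : ∀ x, F x ≤ 1)
    (hF1 : ∀ x, 1 < x → F x = 0) (X : ℕ) (hX : 3 ≤ X) :
    EA (omp φ s0 F (Real.log X)) (({p | p.Prime ∧ φ.A p ∧ G p} : Set ℕ).indicator (fun _ => 1)) ≤
      Real.log X / (2 * X) * (((Finset.range (X + 1)).filter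
        (fun p => p.Prime ∧ φ.A p ∧ G p)).card : ℝ) := by
  have hX0 : (0 : ℝ) < X := by positivity
  have hexp : Real.exp (Real.log X) = X := Real.exp_log hX0
  have hlog : 0 ≤ Real.log X := Real.log_natCast_nonneg X
  unfold EA
  rw [tsum_eq_sum (s := (Finset.range (X + 1)).filter (fun p => p.Prime ∧ φ.A p ∧ G p))]
  · rw [mul_comm, ← nsmul_eq_mul, ← Finset.sum_const]
    refine Finset.sum_le_sum fun d hd => ?_
    rw [mem_filter, mem_range] at hd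
    obtain ⟨hd1, hd2⟩ := hd
    rw [Set.indicator_of_mem (show d ∈ {p | p.Prime ∧ φ.A p ∧ G p} from hd2), mul_one]
    unfold omp
    have hd0 : (0 : ℝ) < d := by exact_mod_cast hd2.1.pos
    have hlogd : 0 ≤ Real.log d := Real.log_natCast_nonneg d
    have hle : Real.log d ≤ Real.log X := by
      apply Real.log_le_log hd0
      exact_mod_cast Nat.lt_succ_iff.1 hd1
    split_ifs with h
    · rw [hexp]
      have h1 := hF0 ((d : ℝ) / X)
      have h2 := hFle ((d : ℝ) / X)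
      calc 1 / 2 * Real.log d * (F ((d : ℝ) / X) / X) ≤ 1 / 2 * Real.log X * (1 / X) := by
            gcongr
        _ = Real.log X / (2 * X) := by field_simp
    · positivity
  · intro d hd
    rw [mem_filter, mem_range, not_and] at hd
    by_cases hg : d.Prime ∧ φ.A d ∧ G d
    · have hd1 : ¬ d < X + 1 := fun h => hd h hg
      have hd2 : (X : ℝ) < d := by
        have : X < d := by omega
        exact_mod_cast this
      have : omp φ s0 F (Real.log X) d = 0 := by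
        unfold omp
        rw [hexp, hF1 ((d : ℝ) / X) (by rw [lt_div_iff₀ hX0]; linarith)]
        simp
      rw [this, zero_mul]
    · rw [Set.indicator_of_notMem (show d ∉ {p | p.Prime ∧ φ.A p ∧ G p} from hg), mul_zero]

open Classical in
/-- general count: if the weight sum of the primes outside the good ones is at most `J` of the
whole, the good ones have proportion `1 - J` -/
theorem countP {φ : FD} (hφ : FG φ) (hδ8 : 1 / 8 ≤ φ.δ) {G : ℕ → ℕ → Prop} {F : ℝ → ℝ} (hF : TF F)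
    (hF0 : ∀ x, 0 ≤ F x) (hFle : ∀ x, F x ≤ 1) (hF1 : ∀ x, 1 < x → F x = 0) (J η κ : ℝ)
    (hM1 : M1 φ s0 (φ.δ * Ft F 0) (omp φ s0 F))
    (hcnt : ∀ η : ℝ, 0 < η → ∀ᶠ X : ℕ in atTop, cnt φ X * Real.log X ≤ (2 * φ.δ + η) * X)
    (hη : 0 < η) (hκ : 0 < κ) (hκ1 : κ ≤ 1) (hk : κ + 32 * η ≤ Ft F 0 * (1 - J))
    (hbad : ∀ᶠ X : ℕ in atTop, EA (omp φ s0 F (Real.log X)) (fun _ => 1) ≤
      φ.δ * Ft F 0 * J + η + EA (omp φ s0 F (Real.log X))
        (({p | p.Prime ∧ φ.A p ∧ G X p} : Set ℕ).indicator (fun _ => 1))) :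
    ∃ X1 : ℕ, ∀ X : ℕ, X1 ≤ X →
    κ * cnt φ X ≤ (((Finset.range (X + 1)).filter
      (fun p => p.Prime ∧ φ.A p ∧ G X p)).card : ℝ) := by
  have hone := hM1.l0
  have hlog : Tendsto (fun X : ℕ => Real.log X) atTop atTop :=
    Real.tendsto_log_atTop.comp tendsto_natCast_atTop_atTop
  have h1 := (hone.comp hlog).eventually (lt_mem_nhds (show φ.δ * Ft F 0 - η <
    φ.δ * Ft F 0 by linarith))
  have h2 := hcnt (4 * η) (by linarith)
  have h3 := hlog.eventually (eventually_ge_atTop 1)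
  obtain ⟨X1, hX1⟩ := eventually_atTop.1 ((h1.and h2).and (h3.and ((eventually_ge_atTop 3).and hbad)))
  refine ⟨X1, fun X hX => ?_⟩
  obtain ⟨⟨g1, g2⟩, g3, g4, g5⟩ := hX1 X hX
  have hXpos : (0 : ℝ) < X := by
    have : (3 : ℝ) ≤ X := by exact_mod_cast g4
    linarith
  have hL : 0 < Real.log X := by linarith
  have k2 := upperP φ (G X) hF0 hFle hF1 X g4
  simp only [Function.comp] at g1
  set n : ℝ := (((Finset.range (X + 1)).filter
      (fun p => p.Prime ∧ φ.A p ∧ G X p)).card : ℝ) with hn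
  have k5 : φ.δ * (Ft F 0 * (1 - J)) - 2 * η ≤ Real.log X / (2 * X) * n := by
    have e : φ.δ * (Ft F 0 * (1 - J)) = φ.δ * Ft F 0 - φ.δ * Ft F 0 * J := by ring
    rw [e]
    linarith
  have hδ0 : 0 < φ.δ := by linarith
  have k5' : φ.δ * (κ + 16 * η) ≤ Real.log X / (2 * X) * n := by
    refine le_trans ?_ k5
    have e3 := mul_le_mul_of_nonneg_left hk hδ0.le
    nlinarith
  have k6 : 2 * φ.δ * (κ + 16 * η) * X ≤ Real.log X * n := by
    have : Real.log X / (2 * X) * n = (Real.log X * n) / (2 * X) := by ring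
    rw [this, le_div_iff₀ (by positivity)] at k5'
    linarith
  have k7 : κ * cnt φ X * Real.log X ≤ n * Real.log X := by
    have e1 : κ * cnt φ X * Real.log X ≤ κ * ((2 * φ.δ + 4 * η) * X) := by
      rw [mul_assoc]
      exact mul_le_mul_of_nonneg_left g2 hκ.le
    have e2 : κ * ((2 * φ.δ + 4 * η) * X) ≤ 2 * φ.δ * (κ + 16 * η) * X := by
      have e3 : κ * (2 * φ.δ + 4 * η) ≤ 2 * φ.δ * (κ + 16 * η) := by nlinarith
      have := mul_le_mul_of_nonneg_right e3 hXpos.le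
      linarith
    linarith
  exact le_of_mul_le_mul_right k7 hL

end

end Pool.Agent.N782.V
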