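import Pool.Agent.N782.VB
import Pool.Agent.N782.UF
import Pool.Agent.N782.RJ
import Pool.Agent.N782.TK

set_option autoImplicit false

/-! All families of prime discriminants: the counts (helper782). -/

namespace Pool.Agent.N782.V

open Finset Filter Topology MeasureTheory Pool.Agent.H306R2.RZ Pool.Agent.H306R2.RG
open Pool.Agent.N782.GA
open Pool.Agent.N782.PA (exists_F)
open Pool.Agent.N782.G2 (WS gw_W gw_p ge_W m2_W dom Ft_le_one Gd cnt omp omW NSq WS8 WS4 WS1)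

noncomputable section

theorem WSall {φ : FD} (h : Fam φ) : WS φ := by
  obtain ⟨ε, hε, h⟩ := h
  rcases h with rfl | rfl | rfl | rfl
  · exact WS8 ε hε
  · exact WS4 ε hε
  · rcases hε with rfl | rfl
    · exact Pool.Agent.N782.U.WS11
    · exact WS1 (-1) 1 (Or.inr ⟨rfl, Or.inr rfl⟩)
  · rcases hε with rfl | rfl
    · exact WS1 1 5 (Or.inl ⟨rfl, rfl⟩)
    · exact WS1 (-1) 5 (Or.inr ⟨rfl, Or.inl rfl⟩)

theorem ClAll {φ : FD} (h : Fam φ) : ∃ R : Finset (ZMod 8), T.Cl φ R := by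
  obtain ⟨ε, hε, h⟩ := h
  rcases h with rfl | rfl | rfl | rfl
  · exact ⟨_, T.Cl8 ε⟩
  · rcases hε with rfl | rfl
    · exact ⟨_, T.Cl4p⟩
    · exact ⟨_, T.Cl4m⟩
  · exact ⟨_, T.Cl1 ε 1 hε (Or.inl rfl)⟩
  · exact ⟨_, T.Cl1 ε 5 hε (Or.inr rfl)⟩

theorem δall {φ : FD} (h : Fam φ) : 1 / 8 ≤ φ.δ ∧ φ.δ ≤ 1 := by
  obtain ⟨ε, hε, h⟩ := h
  rcases h with rfl | rfl | rfl | rfl
  · show (1 / 8 : ℝ) ≤ 1 / 2 ∧ (1 / 2 : ℝ) ≤ 1
    norm_num
  · show (1 / 8 : ℝ) ≤ 1 / 4 ∧ (1 / 4 : ℝ) ≤ 1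
    norm_num
  · show (1 / 8 : ℝ) ≤ 1 / 8 ∧ (1 / 8 : ℝ) ≤ 1
    norm_num
  · show (1 / 8 : ℝ) ≤ 1 / 8 ∧ (1 / 8 : ℝ) ≤ 1
    norm_num

theorem not2 {φ : FD} (h : Fam φ) : ¬ φ.A 2 := by
  intro h2
  have := (Pool.Agent.H306R2.RG.LnkA.FGF φ h).odd 2 h2
  exact absurd this (by decide)

theorem M1all {φ : FD} (h : Fam φ) {F : ℝ → ℝ} (hF : TF F) (hF0 : ∀ x, 0 ≤ F x) :
    M1 φ s0 (φ.δ * Ft F 0) (omp φ s0 F) := by
  obtain ⟨R, hR⟩ := ClAll h
  exact T.m1_p hR (Pool.Agent.H306R2.RG.LnkA.FGF φ h).he (by unfold s0; norm_num) hF hF0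

/-- splitting the weight sum -/
theorem lowerP {φ : FD} (s' : ℝ) {F : ℝ → ℝ} (hF : TF F) (hF0 : ∀ x, 0 ≤ F x) (L : ℝ)
    (B1 B2 : Set ℕ) (G : ℕ → Prop)
    (h : ∀ d : ℕ, d.Prime → φ.A d → d ∈ B1 ∨ d ∈ B2 ∨ G d) :
    EA (omp φ s' F L) (fun _ => 1) ≤
      EA (omp φ s' F L) (B1.indicator (fun _ => 1)) +
      EA (omp φ s' F L) (B2.indicator (fun _ => 1)) +
      EA (omp φ s' F L) (({p | p.Prime ∧ φ.A p ∧ G p} : Set ℕ).indicator (fun _ => 1)) := by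
  have hW := gw_p φ s' hF hF0
  rw [← EA_add hW, ← EA_add hW]
  refine EA_mono hW L fun d hd => ?_
  have hA : φ.A d ∧ d.Prime := by
    unfold omp at hd
    split_ifs at hd with h
    · exact ⟨h.1, h.2.1⟩
    · exact absurd rfl hd
  have n1 : ∀ (S : Set ℕ), (0 : ℝ) ≤ S.indicator (fun _ => (1 : ℝ)) d := fun S =>
    Set.indicator_nonneg (fun _ _ => zero_le_one) d
  have h1 := n1 B1
  have h2 := n1 B2
  have h3 := n1 {p | p.Prime ∧ φ.A p ∧ G p}
  rcases h d hA.2 hA.1 with h4 | h4 | h4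
  · rw [Set.indicator_of_mem h4] at h1 ⊢
    linarith
  · rw [Set.indicator_of_mem h4] at h2 ⊢
    linarith
  · have h5 : d ∈ {p | p.Prime ∧ φ.A p ∧ G p} := ⟨hA.2, hA.1, h4⟩
    rw [Set.indicator_of_mem h5] at h3 ⊢
    linarith

open Classical in
/-- at least `20.1` percent: no real zeros -/
theorem posAll {φ : FD} (h : Fam φ) : ∃ X1 : ℕ, ∀ X : ℕ, X1 ≤ X →
    (201 / 1000 : ℝ) * cnt φ X ≤ (((Finset.range (X + 1)).filter
      (fun p => p.Prime ∧ φ.A p ∧ ∀ σ : ℝ, 0 < σ → σ < 1 → 0 < LLg φ p σ)).card : ℝ) := by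
  have hφ := Pool.Agent.H306R2.RG.LnkA.FGF φ h
  have hC := Pool.Agent.H306R2.RG.LnkC.CGF φ h
  obtain ⟨hδ8, hδ1⟩ := δall h
  obtain ⟨R, hR⟩ := ClAll h
  have hcnt := T.hcnt hR (not2 h)
  have hW := WSall h
  obtain ⟨F, hF, hF0, hFle, hF1, hFt⟩ := exists_F (1 / 10000) (by norm_num) (by norm_num)
  have hFt1 : Ft F 0 ≤ 1 := Ft_le_one hF hFle hF1
  have hFt0 : 0 ≤ Ft F 0 := by linarith
  have hM1 := M1all h hF hF0
  obtain ⟨C, c0, L1, hC0, hc0, hT⟩ := bad2V hW hφ hC hF hF0 hF1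
  have hη : (0 : ℝ) < 1 / 1000000 := by norm_num
  obtain ⟨X0, hX1, hXC⟩ : ∃ X0 : ℝ, 1 ≤ X0 ∧ C * Real.exp (-(c0 * X0)) ≤ 1 / 1000000 := by
    have ht : Tendsto (fun x : ℝ => C * Real.exp (-(c0 * x))) atTop (𝓝 (C * 0)) := by
      apply Tendsto.const_mul
      exact Real.tendsto_exp_neg_atTop_nhds_zero.comp (tendsto_id.const_mul_atTop hc0)
    rw [mul_zero] at ht
    obtain ⟨X0, h1, h2⟩ := ((ht.eventually (gt_mem_nhds hη)).and
      (eventually_ge_atTop 1)).exists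
    exact ⟨X0, h2, h1.le⟩
  obtain ⟨L2, hB⟩ := bad1V hW hφ hC hF hF0 hF1 hFt0 hFt1 hδ1 hM1 X0 (by linarith) (1 / 1000000) hη
  refine countP (G := fun _ p => ∀ σ : ℝ, 0 < σ → σ < 1 → 0 < LLg φ p σ) hφ hδ8 hF hF0 hFle hF1
    J0 (2 / 1000000) (201 / 1000) hM1 hcnt (by norm_num) (by norm_num) (by norm_num) ?_ ?_
  · have e1 : 0 ≤ 1 - J0 := by unfold J0; norm_num
    have : (1 - 3 * (1 / 10000)) * (1 - J0) ≤ Ft F 0 * (1 - J0) :=
      mul_le_mul_of_nonneg_right hFt e1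
    refine le_trans ?_ this
    unfold J0
    norm_num
  · have hlog : Tendsto (fun X : ℕ => Real.log X) atTop atTop :=
      Real.tendsto_log_atTop.comp tendsto_natCast_atTop_atTop
    filter_upwards [hlog.eventually (eventually_ge_atTop (max (max L1 L2) (2 * X0)))] with X hX
    have e1 : L1 ≤ Real.log X := le_trans (le_trans (le_max_left _ _) (le_max_left _ _)) hX
    have e2 : L2 ≤ Real.log X := le_trans (le_trans (le_max_right _ _) (le_max_left _ _)) hX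
    have e3 : 2 * X0 ≤ Real.log X := le_trans (le_max_right _ _) hX
    have k1 := lowerP (φ := φ) s0 hF hF0 (Real.log X) (SFg φ ∩ {d | bad1g φ (Real.log X) X0 d})
      (SFg φ ∩ {d | bad2g φ (Real.log X) X0 d})
      (fun p => ∀ σ : ℝ, 0 < σ → σ < 1 → 0 < LLg φ p σ) (fun d hd hA => by
        have hsf : d ∈ SFg φ := ⟨hA, hd.squarefree⟩
        by_cases hb1 : bad1g φ (Real.log X) X0 d
        · exact Or.inl ⟨hsf, hb1⟩
        by_cases hb2 : bad2g φ (Real.log X) X0 d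
        · exact Or.inr (Or.inl ⟨hsf, hb2⟩)
        · refine Or.inr (Or.inr (hC.pos d hA hsf.2 (Real.log X) (by linarith)
            fun x hx0 hxL hz => ?_))
          rcases le_total x X0 with h | h
          · exact hb1 ⟨x, hx0, h, hz⟩
          · exact hb2 ⟨x, h, hxL, hz⟩)
    have k2 := hT (Real.log X) e1 X0 hX1 (by linarith)
    have k3 := hB (Real.log X) e2
    linarith

open Classical in
/-- at least `23.3` percent: no zero at the central point -/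
theorem centAll {φ : FD} (h : Fam φ) : ∃ X1 : ℕ, ∀ X : ℕ, X1 ≤ X →
    (233 / 1000 : ℝ) * cnt φ X ≤ (((Finset.range (X + 1)).filter
      (fun p => p.Prime ∧ φ.A p ∧ LLg φ p (1 / 2) ≠ 0)).card : ℝ) := by
  have hφ := Pool.Agent.H306R2.RG.LnkA.FGF φ h
  have hC := Pool.Agent.H306R2.RG.LnkC.CGF φ h
  obtain ⟨hδ8, hδ1⟩ := δall h
  obtain ⟨R, hR⟩ := ClAll h
  have hcnt := T.hcnt hR (not2 h)
  have hW := WSall h
  obtain ⟨F, hF, hF0, hFle, hF1, hFt⟩ := exists_F (1 / 100000) (by norm_num) (by norm_num)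
  have hFt1 : Ft F 0 ≤ 1 := Ft_le_one hF hFle hF1
  have hFt0 : 0 ≤ Ft F 0 := by linarith
  have hM1 := M1all h hF hF0
  have hη : (0 : ℝ) < 1 / 1000000 := by norm_num
  obtain ⟨L2, hB⟩ := bad0V hW hφ hC hF hF0 hF1 hFt0 hFt1 hδ1 hM1 (1 / 1000000) hη
  have key := countP (G := fun _ p => LLg φ p (1 / 2) ≠ 0) hφ hδ8 hF hF0 hFle hF1
    J1 (1 / 1000000) (233 / 1000) hM1 hcnt (by norm_num) (by norm_num) (by norm_num) ?_ ?_
  · obtain ⟨X1, h1⟩ := key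
    exact ⟨X1, fun X hX => by convert h1 X hX⟩
  · have e1 : 0 ≤ 1 - J1 := by unfold J1; norm_num
    have : (1 - 3 * (1 / 100000)) * (1 - J1) ≤ Ft F 0 * (1 - J1) :=
      mul_le_mul_of_nonneg_right hFt e1
    refine le_trans ?_ this
    unfold J1
    norm_num
  · have hlog : Tendsto (fun X : ℕ => Real.log X) atTop atTop :=
      Real.tendsto_log_atTop.comp tendsto_natCast_atTop_atTop
    filter_upwards [hlog.eventually (eventually_ge_atTop (max L2 1))] with X hX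
    have e2 : L2 ≤ Real.log X := le_trans (le_max_left _ _) hX
    have k1 := lowerP (φ := φ) s0 hF hF0 (Real.log X) (SFg φ ∩ {d | bad1g φ (Real.log X) 0 d})
      ∅ (fun p => LLg φ p (1 / 2) ≠ 0) (fun d hd hA => by
        by_cases hz : LLg φ d (1 / 2) = 0
        · refine Or.inl ⟨⟨hA, hd.squarefree⟩, 0, le_rfl, le_rfl, ?_⟩
          rw [zero_div, add_zero]
          exact hz
        · exact Or.inr (Or.inr hz))
    have k2 : EA (omp φ s0 F (Real.log X)) ((∅ : Set ℕ).indicator (fun _ => 1)) = 0 := by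
      rw [Set.indicator_empty]
      unfold EA
      simp
    have k3 := hB (Real.log X) e2
    linarith

end

end Pool.Agent.N782.V
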