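import Pool.Agent.N782.VC

set_option autoImplicit false

/-! From the families to characters (helper782). -/

namespace Pool.Agent.N782.V

open Finset Filter Topology MeasureTheory Pool.Agent.H306R2.RZ Pool.Agent.H306R2.RG
open Pool.Agent.N782.G2 (cnt)

/-- values at odd `n` -/
theorem cf_odd (φ : FD) (d n : ℕ) (hn : Odd n) : cf φ d n = js (φ.e * d) n := by
  have h2 : n.factorization 2 = 0 :=
    Nat.factorization_eq_zero_of_not_dvd
      (fun h' => (Nat.not_even_iff_odd.2 hn) (even_iff_two_dvd.2 h'))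
  unfold cf jo
  rw [h2, pow_zero, pow_zero, Nat.div_one, if_pos hn, one_mul]

/-- the square factor does not matter -/
theorem js_four (D : ℤ) (n : ℕ) (hn : Odd n) : jacobiSym (4 * D) n = jacobiSym D n := by
  have e2 : (4 * D : ℤ) = 2 ^ 2 * D := by ring
  rw [e2, jacobiSym.mul_left (2 ^ 2) D, jacobiSym.pow_left]
  have e3 : jacobiSym 2 n ^ 2 = 1 := by
    apply jacobiSym.sq_one
    have : (2 : ℤ).gcd n = Nat.gcd 2 n := rfl
    rw [this]
    exact (Nat.coprime_two_left).2 hn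
  rw [e3, one_mul]

/-- the count as a number of elements of a set -/
theorem cnt_ncard {φ : FD} (m a X : ℕ) (hA : ∀ p : ℕ, p.Prime → (φ.A p ↔ p % m = a)) :
    cnt φ X = (({p | p ≤ X ∧ p.Prime ∧ p % m = a} : Set ℕ).ncard : ℝ) := by
  classical
  unfold G2.cnt
  have h : (((Finset.range (X + 1)).filter (fun p => p.Prime ∧ φ.A p) : Finset ℕ) : Set ℕ) =
      {p | p ≤ X ∧ p.Prime ∧ p % m = a} := by
    ext p
    rw [Finset.mem_coe, Finset.mem_filter, Finset.mem_range, Set.mem_ofPred_eq]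
    constructor
    · rintro ⟨h1, h2, h3⟩
      exact ⟨by omega, h2, (hA p h2).1 h3⟩
    · rintro ⟨h1, h2, h3⟩
      exact ⟨by omega, h2, (hA p h2).2 h3⟩
  rw [← h, Set.ncard_coe_finset]

/-- from a count of parameters to a count of characters -/
theorem gen {φ : FD} (κ : ℝ) (D : ℤ) (m a : ℕ) (G : ℕ → Prop)
    (Q : ℕ → ∀ N : ℕ, NeZero N → DirichletCharacter ℂ N → Prop)
    (hA : ∀ p : ℕ, p.Prime → (φ.A p ↔ p % m = a))
    (hQ : ∀ p : ℕ, p.Prime → φ.A p → G p → ∃ (h : NeZero (φ.r * p))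
      (χ : DirichletCharacter ℂ (φ.r * p)), Q p (φ.r * p) h χ)
    (X : ℕ) (S : Set ℕ) (hS : S = {p | p ≤ X ∧ p.Prime ∧ p % m = a ∧ ∃ (h : NeZero (φ.r * p))
      (χ : DirichletCharacter ℂ (φ.r * p)), Q p (φ.r * p) h χ})
    (h1 : κ * cnt φ X ≤ (({p | p ≤ X ∧ p.Prime ∧ φ.A p ∧ G p} : Set ℕ).ncard : ℝ)) :
    κ * (({p | p ≤ X ∧ p.Prime ∧ p % m = a} : Set ℕ).ncard : ℝ) ≤ (S.ncard : ℝ) := by
  rw [← cnt_ncard m a X hA]
  refine h1.trans ?_
  have hfin : S.Finite := (Set.finite_Iic X).subset fun p hp => by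
    rw [hS] at hp
    exact hp.1
  have hsub : {p | p ≤ X ∧ p.Prime ∧ φ.A p ∧ G p} ⊆ S := by
    rw [hS]
    rintro p ⟨k1, k2, k3, k4⟩
    exact ⟨k1, k2, (hA p k2).1 k3, hQ p k2 k3 k4⟩
  exact_mod_cast Set.ncard_le_ncard hsub hfin

/-- the membership of primes in the families -/
theorem A8 (ε : ℤ) (p : ℕ) (hp : p.Prime) : (F8 ε).A p ↔ p % 2 = 1 := by
  show Odd p ↔ _
  exact Nat.odd_iff

theorem A4p (p : ℕ) (hp : p.Prime) : (F4 1).A p ↔ p % 4 = 3 := by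
  show ((1 : ℤ) * (p : ℤ)) % 4 = 3 ↔ _
  omega

theorem A4m (p : ℕ) (hp : p.Prime) : (F4 (-1)).A p ↔ p % 4 = 1 := by
  show ((-1 : ℤ) * (p : ℤ)) % 4 = 3 ↔ _
  omega

theorem A1 (ε c : ℤ) (hε : ε = 1 ∨ ε = -1) (p : ℕ) (hp : p.Prime) :
    (F1 ε c).A p ↔ (ε * (p : ℤ)) % 8 = c := by
  show ((ε * (p : ℤ)) % 8 = c ∧ ¬ IsSquare (ε * (p : ℤ))) ↔ _
  exact ⟨fun h => h.1, fun h => ⟨h, T.not_sq_prime hε hp⟩⟩

theorem filter_ncard (X : ℕ) (P : ℕ → Prop) [DecidablePred P] :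
    (((Finset.range (X + 1)).filter P).card : ℝ) = (({p | p ≤ X ∧ P p} : Set ℕ).ncard : ℝ) := by
  have h : (((Finset.range (X + 1)).filter P : Finset ℕ) : Set ℕ) = {p | p ≤ X ∧ P p} := by
    ext p
    rw [Finset.mem_coe, Finset.mem_filter, Finset.mem_range, Set.mem_ofPred_eq, Nat.lt_succ_iff]
  rw [← h, Set.ncard_coe_finset]

end Pool.Agent.N782.V
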